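import Mathlib

/-!
PROJECT AC (all curves by height), block RING. `O p = ℤ_[p]⟦s⟧⟦T⟧` (inner variable `s`, outer variable
`T`) and its filtration by the powers `Fl ν` of the maximal ideal `(p, s, T)`.
-/

namespace Pool.Agent.Lib.MP_3550b5_nt.AC

open PowerSeries

/-- Power series in two variables over `ℤ_p`: `s` (inner) and `T` (outer). -/
abbrev O (p : ℕ) [Fact p.Prime] := PowerSeries (PowerSeries ℤ_[p])

variable {p : ℕ} [hp : Fact p.Prime]

/-- The coefficient of `s^i T^j`. -/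
noncomputable def cf (f : O p) (i j : ℕ) : ℤ_[p] := coeff i (coeff j f)

lemma cf_ext {f g : O p} (h : ∀ i j, cf f i j = cf g i j) : f = g := by
  ext j i
  exact h i j

@[simp] lemma cf_zero (i j : ℕ) : cf (0 : O p) i j = 0 := by simp [cf]

@[simp] lemma cf_add (f g : O p) (i j : ℕ) : cf (f + g) i j = cf f i j + cf g i j := by simp [cf]

lemma cf_mul (f g : O p) (i j : ℕ) : cf (f * g) i j =
    ∑ x ∈ Finset.HasAntidiagonal.antidiagonal j, ∑ y ∈ Finset.HasAntidiagonal.antidiagonal i,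
      cf f y.1 x.1 * cf g y.2 x.2 := by
  simp only [cf]
  rw [coeff_mul, map_sum]
  refine Finset.sum_congr rfl fun x _ => ?_
  rw [coeff_mul]

/-- The `ν`-th power of the maximal ideal `(p, s, T)`. -/
def Fl (p : ℕ) [Fact p.Prime] (ν : ℕ) : Ideal (O p) where
  carrier := {f | ∀ i j, (p : ℤ_[p]) ^ (ν - (i + j)) ∣ cf f i j}
  zero_mem' := fun i j => by rw [cf_zero]; exact dvd_zero _
  add_mem' := fun {f g} hf hg i j => by rw [cf_add]; exact dvd_add (hf i j) (hg i j)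
  smul_mem' := fun c f hf i j => by
    rw [smul_eq_mul, cf_mul]
    refine Finset.dvd_sum fun x hx => Finset.dvd_sum fun y hy => ?_
    rw [Finset.HasAntidiagonal.mem_antidiagonal] at hx hy
    refine Dvd.dvd.mul_left ((pow_dvd_pow _ ?_).trans (hf y.2 x.2)) _
    omega

lemma mem_Fl {ν : ℕ} {f : O p} : f ∈ Fl p ν ↔ ∀ i j, (p : ℤ_[p]) ^ (ν - (i + j)) ∣ cf f i j := Iff.rfl

lemma Fl_anti {μ ν : ℕ} (h : μ ≤ ν) : Fl p ν ≤ Fl p μ := fun _ hf i j =>
  (pow_dvd_pow _ (by omega)).trans (hf i j)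

/-- PROOF. `cf_mul`; `p^(μ - (i'+j')) p^(ν - (i''+j''))` is divisible by `p^(μ + ν - (i+j))`. -/
lemma mul_mem_Fl {μ ν : ℕ} {f g : O p} (hf : f ∈ Fl p μ) (hg : g ∈ Fl p ν) :
    f * g ∈ Fl p (μ + ν) := by
  intro i j
  rw [cf_mul]
  refine Finset.dvd_sum fun x hx => Finset.dvd_sum fun y hy => ?_
  rw [Finset.HasAntidiagonal.mem_antidiagonal] at hx hy
  have h := mul_dvd_mul (hf y.1 x.1) (hg y.2 x.2)
  rw [← pow_add] at h
  exact (pow_dvd_pow _ (by omega)).trans h

/-- A nonzero element has a finite order. PROOF. Some `cf f i j ≠ 0`; it is not divisible by a large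
power of `p`; `Nat.find` for the least `ν` with `f ∉ Fl p (ν + 1)`; `Fl p 0 = ⊤`. -/
lemma exists_ord {f : O p} (hf : f ≠ 0) : ∃ ν, f ∈ Fl p ν ∧ f ∉ Fl p (ν + 1) := by
  classical
  have h1 : ∃ i j, cf f i j ≠ 0 := by
    by_contra hcon
    push Not at hcon
    exact hf (cf_ext fun i j => by rw [hcon i j, cf_zero])
  obtain ⟨i, j, hij⟩ := h1
  obtain ⟨k, hk⟩ := FiniteMultiplicity.of_not_isUnit (PadicInt.prime_p (p := p)).not_isUnit hij
  have hex : ∃ ν, f ∉ Fl p (ν + 1) := by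
    refine ⟨k + (i + j), fun h => hk ?_⟩
    have h2 := h i j
    rwa [show k + (i + j) + 1 - (i + j) = k + 1 by omega] at h2
  refine ⟨Nat.find hex, ?_, Nat.find_spec hex⟩
  rcases Nat.eq_zero_or_pos (Nat.find hex) with h0 | h0
  · rw [h0]
    intro i j
    rw [Nat.zero_sub, pow_zero]
    exact one_dvd _
  · have h3 := Nat.find_min hex (Nat.sub_lt h0 Nat.one_pos)
    rw [not_not, Nat.sub_add_cancel h0] at h3
    exact h3

end Pool.Agent.Lib.MP_3550b5_nt.AC
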