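import Mathlib
import Pool.Agent.Lib.MP_3550b5_nt.AC.RgZ

/-!
PROJECT AC (all curves by height), block RING. `O p = ℤ_[p]⟦s⟧⟦T⟧` (inner variable `s`, outer variable
`T`) and its filtration by the powers `Fl ν` of the maximal ideal `(p, s, T)`.
-/

namespace Pool.Agent.Lib.MP_3550b5_nt.AC

open PowerSeries

variable {p : ℕ} [hp : Fact p.Prime]

private lemma Rg_first {μ : ℕ} {f : O p} (hf' : f ∉ Fl p (μ + 1)) : ∃ i j : ℕ,
    i + j ≤ μ ∧ ¬ (p : ℤ_[p]) ^ (μ + 1 - (i + j)) ∣ cf f i j ∧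
    (∀ j' < j, ∀ i', (p : ℤ_[p]) ^ (μ + 1 - (i' + j')) ∣ cf f i' j') ∧
    ∀ i' < i, (p : ℤ_[p]) ^ (μ + 1 - (i' + j)) ∣ cf f i' j := by
  classical
  have hF : ∃ j i : ℕ, ¬ (p : ℤ_[p]) ^ (μ + 1 - (i + j)) ∣ cf f i j := by
    by_contra hc
    push Not at hc
    exact hf' (fun i j => hc j i)
  have hj := Nat.find_spec hF
  refine ⟨Nat.find hj, Nat.find hF, ?_, Nat.find_spec hj, ?_, ?_⟩
  · by_contra hc
    refine Nat.find_spec hj ?_
    rw [Nat.sub_eq_zero_of_le (by omega), pow_zero]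
    exact one_dvd _
  · intro j' hj' i'
    have h1 := Nat.find_min hF hj'
    push Not at h1
    exact h1 i'
  · intro i' hi'
    have h1 := Nat.find_min hj hi'
    push Not at h1
    exact h1

private lemma Rg_unit {m : ℕ} {a : ℤ_[p]} (h : (p : ℤ_[p]) ^ m ∣ a)
    (h' : ¬ (p : ℤ_[p]) ^ (m + 1) ∣ a) : ∃ u : ℤ_[p], a = (p : ℤ_[p]) ^ m * u ∧ ¬ (p : ℤ_[p]) ∣ u := by
  obtain ⟨u, hu⟩ := h
  refine ⟨u, hu, fun hp' => h' ?_⟩
  obtain ⟨v, hv⟩ := hp'
  exact ⟨v, by rw [hu, hv, pow_succ]; ring⟩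

/-- THE ORDER IS A VALUATION. PROOF. For `f ∈ Fl p μ`, `f ∉ Fl p (μ + 1)` there is `(i, j)` with
`¬ p^(μ + 1 - (i + j)) ∣ cf f i j`; then `i + j ≤ μ`. Take the lexicographically first such pair
(first `j` minimal, then `i` minimal), and the same for `g`, `ν`. In `cf_mul` for the sum of the two
pairs the term of the two pairs is not divisible by `p^(μ + ν + 1 - (i + j + i' + j'))` (valuation
exactly `μ - (i+j)` plus `ν - (i'+j')`: `multiplicity`/`emultiplicity_mul` or `Prime.pow_dvd_...`,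
`PadicInt.prime_p`), all other terms are: one of the two factors has a smaller index. -/
theorem ord_mul {μ ν : ℕ} {f g : O p} (hf : f ∈ Fl p μ) (hf' : f ∉ Fl p (μ + 1)) (hg : g ∈ Fl p ν)
    (hg' : g ∉ Fl p (ν + 1)) : f * g ∉ Fl p (μ + ν + 1) := by
  classical
  obtain ⟨i1, j1, l1, h1, m1, n1⟩ := Rg_first hf'
  obtain ⟨i2, j2, l2, h2, m2, n2⟩ := Rg_first hg'
  intro h
  have h0 := h (i1 + i2) (j1 + j2)
  rw [cf_mul, ← Finset.sum_product'] at h0
  have hmem : (((j1, j2), (i1, i2)) : (ℕ × ℕ) × (ℕ × ℕ)) ∈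
      Finset.HasAntidiagonal.antidiagonal (j1 + j2) ×ˢ
        Finset.HasAntidiagonal.antidiagonal (i1 + i2) := by
    rw [Finset.mem_product]
    exact ⟨Finset.HasAntidiagonal.mem_antidiagonal.2 rfl,
      Finset.HasAntidiagonal.mem_antidiagonal.2 rfl⟩
  rw [← Finset.add_sum_erase _ _ hmem] at h0
  have hrest : (p : ℤ_[p]) ^ (μ + ν + 1 - (i1 + i2 + (j1 + j2))) ∣
      ∑ x ∈ (Finset.HasAntidiagonal.antidiagonal (j1 + j2) ×ˢ
        Finset.HasAntidiagonal.antidiagonal (i1 + i2)).erase ((j1, j2), (i1, i2)),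
        cf f x.2.1 x.1.1 * cf g x.2.2 x.1.2 := by
    refine Finset.dvd_sum fun x hx => ?_
    obtain ⟨⟨a, b⟩, c, d⟩ := x
    rw [Finset.mem_erase, Finset.mem_product, Finset.HasAntidiagonal.mem_antidiagonal,
      Finset.HasAntidiagonal.mem_antidiagonal] at hx
    obtain ⟨hne, hab, hcd⟩ := hx
    simp only at hab hcd ⊢
    have key : (p : ℤ_[p]) ^ (μ + 1 - (c + a)) ∣ cf f c a ∨
        (p : ℤ_[p]) ^ (ν + 1 - (d + b)) ∣ cf g d b := by
      rcases lt_trichotomy a j1 with ha | ha | ha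
      · exact Or.inl (m1 a ha c)
      · subst ha
        have hb : b = j2 := by omega
        subst hb
        rcases lt_trichotomy c i1 with hc | hc | hc
        · exact Or.inl (n1 c hc)
        · subst hc
          have hd : d = i2 := by omega
          subst hd
          exact absurd rfl hne
        · exact Or.inr (n2 d (by omega))
      · exact Or.inr (m2 b (by omega) d)
    rcases key with hk | hk
    · refine (pow_dvd_pow (p : ℤ_[p])
        (show μ + ν + 1 - (i1 + i2 + (j1 + j2)) ≤ (μ + 1 - (c + a)) + (ν - (d + b)) by omega)).trans ?_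
      rw [pow_add]
      exact mul_dvd_mul hk (hg d b)
    · refine (pow_dvd_pow (p : ℤ_[p])
        (show μ + ν + 1 - (i1 + i2 + (j1 + j2)) ≤ (μ - (c + a)) + (ν + 1 - (d + b)) by omega)).trans ?_
      rw [pow_add]
      exact mul_dvd_mul (hf c a) hk
  have h3 := (dvd_add_left hrest).1 h0
  simp only at h3
  rw [show μ + 1 - (i1 + j1) = (μ - (i1 + j1)) + 1 by omega] at h1
  rw [show ν + 1 - (i2 + j2) = (ν - (i2 + j2)) + 1 by omega] at h2
  obtain ⟨u, hu, hu'⟩ := Rg_unit (hf i1 j1) h1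
  obtain ⟨v, hv, hv'⟩ := Rg_unit (hg i2 j2) h2
  rw [hu, hv, show μ + ν + 1 - (i1 + i2 + (j1 + j2)) = ((μ - (i1 + j1)) + (ν - (i2 + j2))) + 1
    by omega, show (p : ℤ_[p]) ^ (μ - (i1 + j1)) * u * ((p : ℤ_[p]) ^ (ν - (i2 + j2)) * v) =
      (p : ℤ_[p]) ^ ((μ - (i1 + j1)) + (ν - (i2 + j2))) * (u * v) by rw [pow_add]; ring,
    pow_succ] at h3
  have hp0 : (p : ℤ_[p]) ^ ((μ - (i1 + j1)) + (ν - (i2 + j2))) ≠ 0 :=
    pow_ne_zero _ PadicInt.prime_p.ne_zero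
  rcases PadicInt.prime_p.dvd_or_dvd ((mul_dvd_mul_iff_left hp0).1 h3) with h4 | h4
  · exact hu' h4
  · exact hv' h4

/-- PROOF. From `exists_ord`, `ord_mul` (`f ≠ 0`, `g ≠ 0` or trivial). -/
lemma mem_Fl_of_mul {e ν : ℕ} {f g : O p} (hf : f ∉ Fl p (e + 1)) (h : f * g ∈ Fl p ν) :
    g ∈ Fl p (ν - e) := by
  rcases eq_or_ne g 0 with hg0 | hg0
  · rw [hg0]
    exact Ideal.zero_mem _
  have hf0 : f ≠ 0 := fun h0 => hf (by rw [h0]; exact Ideal.zero_mem _)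
  obtain ⟨a, ha, ha'⟩ := exists_ord hf0
  obtain ⟨b, hb, hb'⟩ := exists_ord hg0
  have h1 : a ≤ e := by
    by_contra hc
    exact hf (Fl_anti (by omega) ha)
  have h2 : ν ≤ a + b := by
    by_contra hc
    exact ord_mul ha ha' hb hb' (Fl_anti (by omega) h)
  exact Fl_anti (by omega) hb

/-- PROOF. `mem_Fl_of_mul`, `exists_ord`. -/
lemma not_mem_Fl_mul {e e' : ℕ} {f g : O p} (hf : f ∉ Fl p (e + 1)) (hg : g ∉ Fl p (e' + 1)) :
    f * g ∉ Fl p (e + e' + 1) := by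
  intro h
  have h1 := mem_Fl_of_mul hf h
  rw [show e + e' + 1 - e = e' + 1 by omega] at h1
  exact hg h1

end Pool.Agent.Lib.MP_3550b5_nt.AC
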