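import Mathlib
import Pool.Agent.Lib.MP_3550b5_nt.AC.Rg

/-!
PROJECT AC, block RING: the number of elements of the quotients.
-/

namespace Pool.Agent.Lib.MP_3550b5_nt.AC

open PowerSeries

variable {p : ℕ} [hp : Fact p.Prime]

private lemma rgCa_sum1 (n : ℕ) : ∀ m, m ≤ n →
    2 * ∑ j ∈ Finset.range n, (m - j) = m * (m + 1) := by
  induction n with
  | zero => intro m hm; obtain rfl : m = 0 := by omega
            simp
  | succ n ih =>
    intro m hm
    rcases Nat.eq_zero_or_pos m with rfl | hm0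
    · simp
    · obtain ⟨k, rfl⟩ : ∃ k, m = k + 1 := ⟨m - 1, by omega⟩
      rw [Finset.sum_range_succ']
      have h1 : ∀ j, k + 1 - (j + 1) = k - j := fun j => by omega
      simp only [h1, Nat.sub_zero]
      rw [mul_add, ih k (by omega)]
      ring

private lemma rgCa_sum2 (n : ℕ) : ∀ m, m ≤ n →
    3 * ∑ j ∈ Finset.range n, (m - j) * (m - j + 1) = m * (m + 1) * (m + 2) := by
  induction n with
  | zero => intro m hm; obtain rfl : m = 0 := by omega
            simp
  | succ n ih =>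
    intro m hm
    rcases Nat.eq_zero_or_pos m with rfl | hm0
    · simp
    · obtain ⟨k, rfl⟩ : ∃ k, m = k + 1 := ⟨m - 1, by omega⟩
      rw [Finset.sum_range_succ']
      have h1 : ∀ j, k + 1 - (j + 1) = k - j := fun j => by omega
      simp only [h1, Nat.sub_zero]
      rw [mul_add, ih k (by omega)]
      ring

private lemma rgCa_sum (ν : ℕ) :
    ∑ i ∈ Finset.range ν, ∑ j ∈ Finset.range ν, (ν - (i + j)) = ν * (ν + 1) * (ν + 2) / 6 := by
  have h1 : 2 * ∑ i ∈ Finset.range ν, ∑ j ∈ Finset.range ν, (ν - (i + j)) =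
      ∑ i ∈ Finset.range ν, (ν - i) * (ν - i + 1) := by
    rw [Finset.mul_sum]
    refine Finset.sum_congr rfl fun i _ => ?_
    have h2 : ∀ j, ν - (i + j) = ν - i - j := fun j => by omega
    simp only [h2]
    exact rgCa_sum1 ν (ν - i) (by omega)
  have h3 := rgCa_sum2 ν ν le_rfl
  rw [← h1] at h3
  omega

private noncomputable def rgCaMap (p : ℕ) [Fact p.Prime] (ν : ℕ) (f : O p) :
    ∀ x : Fin ν × Fin ν, ZMod (p ^ (ν - ((x.1 : ℕ) + (x.2 : ℕ)))) :=
  fun x => PadicInt.toZModPow (ν - ((x.1 : ℕ) + (x.2 : ℕ))) (cf f x.1 x.2)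

private lemma rgCa_mem_iff (n : ℕ) (a b : ℤ_[p]) :
    PadicInt.toZModPow n a = PadicInt.toZModPow n b ↔ (p : ℤ_[p]) ^ n ∣ a - b := by
  rw [← sub_eq_zero, ← map_sub, ← RingHom.mem_ker, PadicInt.ker_toZModPow,
    Ideal.mem_span_singleton]

private lemma rgCa_cf_sub (f g : O p) (i j : ℕ) : cf (f - g) i j = cf f i j - cf g i j := by
  simp [cf]

private lemma rgCa_map_eq (ν : ℕ) (f g : O p) :
    rgCaMap p ν f = rgCaMap p ν g ↔ f - g ∈ Fl p ν := by
  constructor
  · intro h i j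
    rw [rgCa_cf_sub]
    by_cases hij : i + j < ν
    · have h1 := congrFun h (⟨i, by omega⟩, ⟨j, by omega⟩)
      exact (rgCa_mem_iff _ _ _).1 h1
    · rw [Nat.sub_eq_zero_of_le (by omega), pow_zero]
      exact one_dvd _
  · intro h
    funext x
    refine (rgCa_mem_iff _ _ _).2 ?_
    rw [← rgCa_cf_sub]
    exact h x.1 x.2

private lemma rgCa_surj (ν : ℕ) : Function.Surjective (rgCaMap p ν) := by
  intro y
  have hs : ∀ x : Fin ν × Fin ν, ∃ a : ℤ_[p],
      PadicInt.toZModPow (ν - ((x.1 : ℕ) + (x.2 : ℕ))) a = y x := fun x =>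
    ZMod.ringHom_surjective (PadicInt.toZModPow (p := p) (ν - ((x.1 : ℕ) + (x.2 : ℕ)))) (y x)
  choose a ha using hs
  refine ⟨PowerSeries.mk fun j => PowerSeries.mk fun i =>
    if h : i < ν ∧ j < ν then a (⟨i, h.1⟩, ⟨j, h.2⟩) else 0, ?_⟩
  funext x
  rw [← ha x]
  unfold rgCaMap cf
  rw [coeff_mk, coeff_mk, dif_pos ⟨x.1.2, x.2.2⟩]

/-- PROOF. `O p / Fl p ν` is in bijection with the functions `(i, j) ↦ ZMod (p^(ν - (i + j)))`,
`i + j < ν` (`PadicInt.toZModPow`, kernel `span {p^n}`: `PadicInt.ker_toZModPow`,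
`PadicInt.toZModPow` is surjective (`ZMod.ringHom_surjective`)); the additive map
`f ↦ (toZModPow _ (cf f i j))` is surjective with kernel `Fl p ν`
(`QuotientAddGroup.quotientKerEquivOfSurjective`); `Nat.card_pi`,
`∑_(i + j < ν) (ν - (i + j)) = ν (ν + 1) (ν + 2) / 6` (induction: `∑_(n < ν) (n + 1) (ν - n)`). -/
theorem card_quot (ν : ℕ) :
    Nat.card (O p ⧸ Fl p ν) = p ^ (ν * (ν + 1) * (ν + 2) / 6) := by
  have hb : Function.Bijective
      (fun q : O p ⧸ Fl p ν => rgCaMap p ν (Function.surjInv Ideal.Quotient.mk_surjective q)) := by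
    constructor
    · intro q q' h
      have h1 := Ideal.Quotient.eq.2 ((rgCa_map_eq ν _ _).1 h)
      exact (Function.surjInv_eq Ideal.Quotient.mk_surjective q).symm.trans
        (h1.trans (Function.surjInv_eq Ideal.Quotient.mk_surjective q'))
    · intro y
      obtain ⟨f, hf⟩ := rgCa_surj ν y
      refine ⟨Ideal.Quotient.mk _ f, ?_⟩
      rw [← hf]
      exact (rgCa_map_eq ν _ _).2 (Ideal.Quotient.eq.1
        (Function.surjInv_eq Ideal.Quotient.mk_surjective (Ideal.Quotient.mk (Fl p ν) f)))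
  rw [Nat.card_congr (Equiv.ofBijective _ hb), Nat.card_pi]
  simp only [Nat.card_zmod]
  rw [Finset.prod_pow_eq_pow_sum, ← rgCa_sum ν, Fintype.sum_prod_type]
  congr 1
  rw [← Fin.sum_univ_eq_sum_range (fun i => ∑ j ∈ Finset.range ν, (ν - (i + j))) ν]
  refine Finset.sum_congr rfl fun i _ => ?_
  rw [← Fin.sum_univ_eq_sum_range (fun j => ν - ((i : ℕ) + j)) ν]

lemma finite_quot (ν : ℕ) : Finite (O p ⧸ Fl p ν) := by
  refine Nat.finite_of_card_ne_zero ?_
  rw [card_quot]
  exact pow_ne_zero _ hp.out.ne_zero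

end Pool.Agent.Lib.MP_3550b5_nt.AC
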