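import Mathlib
import Pool.Agent.Lib.MP_3550b5_nt.AC.RgCa

/-!
PROJECT AC, block RING: the number of elements of the quotients.
-/

namespace Pool.Agent.Lib.MP_3550b5_nt.AC

open PowerSeries

variable {p : ℕ} [hp : Fact p.Prime]

private lemma rgcard_step (n : ℕ) :
    (n + 1) * (n + 1 + 1) * (n + 1 + 2) / 6 = n * (n + 1) * (n + 2) / 6 +
      (n + 1) * (n + 1 + 1) / 2 := by
  have h1 : (n + 1) * (n + 1 + 1) / 2 * 2 = (n + 1) * (n + 1 + 1) :=
    Nat.div_mul_cancel (Nat.even_mul_succ_self (n + 1)).two_dvd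
  have h2 : (n + 1) * (n + 1 + 1) * (n + 1 + 2) =
      n * (n + 1) * (n + 2) + 6 * ((n + 1) * (n + 1 + 1) / 2) := by
    have h3 : (n + 1) * (n + 1 + 1) * (n + 1 + 2) =
        n * (n + 1) * (n + 2) + 3 * ((n + 1) * (n + 1 + 1)) := by ring
    rw [h3]
    linarith
  rw [h2, Nat.add_mul_div_left _ _ (by norm_num)]

private lemma rgcard_le (ν k : ℕ) :
    ν * (ν + 1) * (ν + 2) / 6 ≤
      k * (ν * (ν + 1) / 2) + (ν - k) * ((ν - k) + 1) * ((ν - k) + 2) / 6 := by
  induction k with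
  | zero => simp
  | succ k ih =>
    refine ih.trans ?_
    rw [Nat.succ_mul, add_assoc]
    refine Nat.add_le_add_left ?_ _
    rcases Nat.eq_zero_or_pos (ν - k) with h | h
    · rw [h]
      simp
    · obtain ⟨m, hm⟩ : ∃ m, ν - k = m + 1 := ⟨ν - k - 1, by omega⟩
      have hm' : ν - (k + 1) = m := by omega
      rw [hm, hm', rgcard_step, add_comm]
      refine Nat.add_le_add_right (Nat.div_le_div_right ?_) _
      exact Nat.mul_le_mul (by omega) (by omega)

private lemma rgcard_prod {e : ℕ} {f : O p} (hf : f ∉ Fl p (e + 1)) (ν : ℕ) :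
    Nat.card (O p ⧸ (Fl p ν ⊔ Ideal.span {f})) * Nat.card (O p ⧸ Fl p (ν - e)) ≤
      Nat.card (O p ⧸ Fl p ν) := by
  haveI := finite_quot (p := p) ν
  rw [← Nat.card_prod]
  refine Nat.card_le_card_of_injective
    (fun x : (O p ⧸ (Fl p ν ⊔ Ideal.span {f})) × (O p ⧸ Fl p (ν - e)) =>
      (Ideal.Quotient.mk (Fl p ν) (Quotient.out x.1 + f * Quotient.out x.2))) ?_
  rintro ⟨a, b⟩ ⟨a', b'⟩ h
  simp only at h
  rw [Ideal.Quotient.eq] at h
  have ha : a = a' := by
    have h1 : Ideal.Quotient.mk (Fl p ν ⊔ Ideal.span {f}) (Quotient.out a) =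
        Ideal.Quotient.mk (Fl p ν ⊔ Ideal.span {f}) (Quotient.out a') := by
      rw [Ideal.Quotient.eq]
      have h2 : Quotient.out a - Quotient.out a' =
          (Quotient.out a + f * Quotient.out b - (Quotient.out a' + f * Quotient.out b')) +
            (Quotient.out b' - Quotient.out b) * f := by ring
      rw [h2]
      exact add_mem (Ideal.mem_sup_left h)
        (Ideal.mem_sup_right (Ideal.mul_mem_left _ _ (Ideal.mem_span_singleton_self f)))
    have h3 : ∀ z : O p ⧸ (Fl p ν ⊔ Ideal.span {f}),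
        Ideal.Quotient.mk (Fl p ν ⊔ Ideal.span {f}) (Quotient.out z) = z := fun z =>
      Quotient.out_eq z
    rw [← h3 a, ← h3 a', h1]
  subst ha
  have hb : b = b' := by
    have h1 : f * (Quotient.out b - Quotient.out b') ∈ Fl p ν := by
      have h2 : f * (Quotient.out b - Quotient.out b') =
          Quotient.out a + f * Quotient.out b - (Quotient.out a + f * Quotient.out b') := by ring
      rw [h2]
      exact h
    have h2 := mem_Fl_of_mul hf h1
    have h3 : ∀ z : O p ⧸ Fl p (ν - e),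
        Ideal.Quotient.mk (Fl p (ν - e)) (Quotient.out z) = z := fun z => Quotient.out_eq z
    rw [← h3 b, ← h3 b', Ideal.Quotient.eq]
    exact h2
  rw [hb]

/-- PROOF. `e' ≤ e` the exact order of `f`; if `ν ≤ e'` then `ν (ν+1) (ν+2)/6 ≤ e ν (ν+1)/2` suffices
(the quotient is a quotient of `O p / Fl p ν`). Otherwise multiplication by `f` induces an injection
`O p / Fl p (ν - e') → O p / Fl p ν` (`mem_Fl_of_mul`, `mul_mem_Fl`) whose image is the kernel of
`O p / Fl p ν → O p / (Fl p ν ⊔ span {f})`: so `card (quotient) * card (O p / Fl p (ν - e')) =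
card (O p / Fl p ν)` (`AddSubgroup.card_eq_card_quotient_mul_card_addSubgroup`), and
`L ν - L (ν - e') ≤ e' ν (ν + 1)/2`, `L n = n(n+1)(n+2)/6`, since `L (n+1) - L n = (n+1)(n+2)/2`. -/
theorem card_quot_span {e : ℕ} {f : O p} (hf : f ∉ Fl p (e + 1)) (ν : ℕ) :
    Nat.card (O p ⧸ (Fl p ν ⊔ Ideal.span {f})) ≤ p ^ (e * (ν * (ν + 1) / 2)) := by
  have h1 := rgcard_prod hf ν
  rw [card_quot, card_quot] at h1
  have h2 := rgcard_le ν e
  have hp1 : 1 < p := hp.out.one_lt
  have h3 : p ^ (ν * (ν + 1) * (ν + 2) / 6) ≤ p ^ (e * (ν * (ν + 1) / 2)) *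
      p ^ ((ν - e) * ((ν - e) + 1) * ((ν - e) + 2) / 6) := by
    rw [← pow_add]
    exact Nat.pow_le_pow_right hp1.le h2
  exact Nat.le_of_mul_le_mul_right (h1.trans h3) (pow_pos hp.out.pos _)

lemma finite_quot_sup (ν : ℕ) (I : Ideal (O p)) : Finite (O p ⧸ (Fl p ν ⊔ I)) := by
  haveI := finite_quot (p := p) ν
  exact Finite.of_surjective (Ideal.Quotient.factor (le_sup_left : Fl p ν ≤ Fl p ν ⊔ I))
    (Ideal.Quotient.factor_surjective _)

end Pool.Agent.Lib.MP_3550b5_nt.AC
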