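import Mathlib
import Pool.Agent.Lib.MP_3550b5_nt.TP.Zero
import Pool.Agent.Lib.MP_3550b5_nt.SV.Cmp
import Pool.Agent.Lib.MP_3550b5_nt.AC.RgCard

/-!
PROJECT AC, block RING: evaluation at the points of the open disc, derivations, divided differences.
-/

namespace Pool.Agent.Lib.MP_3550b5_nt.AC

open PowerSeries SV

variable {p : ℕ} [hp : Fact p.Prime]

/-- A point of the open bidisc. -/
structure Pt (p : ℕ) [Fact p.Prime] where
  s : ℤ_[p]
  t : ℤ_[p]
  hs : ‖s‖ < 1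
  ht : ‖t‖ < 1

/-- The value of `f(s, T)` at a point. -/
noncomputable def Pt.ev (P : Pt p) : O p →+* ℤ_[p] :=
  (evHom P.t P.ht).comp (PowerSeries.map (evHom P.s P.hs))

/-- The constant `x`. -/
noncomputable def cc (x : ℤ_[p]) : O p := C (C x)

/-- The variable `s`. -/
noncomputable def vs (p : ℕ) [Fact p.Prime] : O p := C X

/-- The variable `T`. -/
noncomputable def vt (p : ℕ) [Fact p.Prime] : O p := X

private lemma RgEa_ev (P : Pt p) (f : O p) :
    P.ev f = MP_3550b5_nt.ev (PowerSeries.map (evHom P.s P.hs) f) P.t := rfl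

@[simp] lemma Pt.ev_cc (P : Pt p) (x : ℤ_[p]) : P.ev (cc x) = x := by
  rw [RgEa_ev, cc, PowerSeries.map_C, evHom_apply, ev_C, ev_C]

@[simp] lemma Pt.ev_vs (P : Pt p) : P.ev (vs p) = P.s := by
  rw [RgEa_ev, vs, PowerSeries.map_C, evHom_apply, ev_X, ev_C]

@[simp] lemma Pt.ev_vt (P : Pt p) : P.ev (vt p) = P.t := by
  rw [RgEa_ev, vt, PowerSeries.map_X, ev_X]

lemma cf_cc_mul (x : ℤ_[p]) (f : O p) (i j : ℕ) : cf (cc x * f) i j = x * cf f i j := by
  rw [cf, cf, cc, coeff_C_mul, coeff_C_mul]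

private lemma RgEa_dvd (x : ℤ_[p]) (n : ℕ) :
    ‖x‖ ≤ (p : ℝ) ^ (-n : ℤ) ↔ (p : ℤ_[p]) ^ n ∣ x := by
  rw [PadicInt.norm_le_pow_iff_mem_span_pow, Ideal.mem_span_singleton]

private lemma RgEa_ev_dvd {f : ℤ_[p]⟦X⟧} {t : ℤ_[p]} (ht : ‖t‖ < 1) {n : ℕ}
    (h : ∀ i, (p : ℤ_[p]) ^ (n - i) ∣ coeff i f) :
    (p : ℤ_[p]) ^ n ∣ MP_3550b5_nt.ev f t := by
  rw [← RgEa_dvd]
  refine norm_ev_le ht fun i => ?_
  rw [RgEa_dvd]
  have h1 : (p : ℤ_[p]) ^ i ∣ t ^ i := pow_dvd_pow_of_dvd ((PadicInt.norm_lt_one_iff_dvd t).1 ht) i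
  have h2 := mul_dvd_mul (h i) h1
  rw [← pow_add] at h2
  exact (pow_dvd_pow _ (by omega)).trans h2

/-- PROOF. `P.ev f = ∑' j, (∑' i, cf f i j s^i) t^j` and `p ∣ s, t`; every term is divisible by `p^ν`;
the multiples of `p^ν` are a closed set (`norm_tsum_le_of_forall`, `PadicInt.norm_le_pow_iff_mem_span_pow`). -/
theorem Pt.dvd_ev (P : Pt p) {ν : ℕ} {f : O p} (hf : f ∈ Fl p ν) : (p : ℤ_[p]) ^ ν ∣ P.ev f := by
  rw [RgEa_ev]
  refine RgEa_ev_dvd P.ht fun j => ?_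
  rw [PowerSeries.coeff_map, evHom_apply]
  refine RgEa_ev_dvd P.hs fun i => ?_
  have h := hf i j
  rw [cf] at h
  rwa [show ν - j - i = ν - (i + j) by omega]

section Gen

variable {H : Type*} [CommRing H]

/-- `d/dT` over a general ring. -/
noncomputable def dTg (H : Type*) [CommRing H] : Dr H⟦X⟧ :=
  mkDer (R := H⟦X⟧) (derivative H).toLinearMap.toAddMonoidHom (by
    intro x y
    change derivative H (x * y) = x * derivative H y + y * derivative H x
    rw [Derivation.leibniz, smul_eq_mul, smul_eq_mul])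

lemma dTg_apply (f : H⟦X⟧) : dTg H f = derivative H f := rfl

/-- Coefficientwise application of a derivation. -/
noncomputable def dSg (d : Dr H) : Dr H⟦X⟧ :=
  mkDer (R := H⟦X⟧) (cD d).toLinearMap.toAddMonoidHom (by
    intro x y
    change cD d (x * y) = x * cD d y + y * cD d x
    rw [Derivation.leibniz, smul_eq_mul, smul_eq_mul])

lemma dSg_apply (d : Dr H) (f : H⟦X⟧) : dSg d f = cD d f := rfl

end Gen

/-- `d/ds`. -/
noncomputable def dS (p : ℕ) [Fact p.Prime] : Dr (O p) := dSg (ds p)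

/-- `d/dT`. -/
noncomputable def dT (p : ℕ) [Fact p.Prime] : Dr (O p) := dTg ℤ_[p]⟦X⟧

lemma cf_dS (f : O p) (i j : ℕ) : cf (dS p f) i j = cf f (i + 1) j * (i + 1) := by
  rw [cf, cf, dS, dSg_apply, coeff_cD, ds_apply, coeff_derivative]

lemma cf_dT (f : O p) (i j : ℕ) : cf (dT p f) i j = cf f i (j + 1) * (j + 1) := by
  rw [cf, cf, dT, dTg_apply, coeff_derivative]
  have h : ((j : ℤ_[p]⟦X⟧) + 1) = C ((j : ℤ_[p]) + 1) := by
    rw [map_add, map_natCast, map_one]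
  rw [h, coeff_mul_C]

lemma dS_cc (x : ℤ_[p]) : dS p (cc x) = 0 := by
  rw [dS, dSg_apply, cc, cD_C, ds_apply, derivative_C, map_zero]

lemma dT_cc (x : ℤ_[p]) : dT p (cc x) = 0 := by
  rw [dT, dTg_apply, cc, derivative_C]

lemma dS_vs : dS p (vs p) = 1 := by
  rw [dS, dSg_apply, vs, cD_C, ds_apply, derivative_X, map_one]

lemma dT_vs : dT p (vs p) = 0 := by
  rw [dT, dTg_apply, vs, derivative_C]

lemma dS_vt : dS p (vt p) = 0 := by
  rw [dS, dSg_apply, vt]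
  refine PowerSeries.ext fun n => ?_
  rw [coeff_cD, coeff_X, map_zero]
  split_ifs
  · rw [ds_apply]
    exact (derivative ℤ_[p]).map_one_eq_zero
  · exact map_zero _

lemma dT_vt : dT p (vt p) = 1 := by
  rw [dT, dTg_apply, vt, derivative_X]

end Pool.Agent.Lib.MP_3550b5_nt.AC
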