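import Mathlib
import Pool.Agent.Lib.MP_3550b5_nt.AC.RgEa

/-!
PROJECT AC, block RING: evaluation at the points of the open disc, derivations, divided differences.
-/

namespace Pool.Agent.Lib.MP_3550b5_nt.AC

open PowerSeries SV

variable {p : ℕ} [hp : Fact p.Prime]

private lemma dr_mul_aux {R : Type*} [CommRing R] (D : Dr R) (x y : R) :
    D (x * y) = x * D y + y * D x := by
  rw [Derivation.leibniz, smul_eq_mul, smul_eq_mul]

/-- DIVIDED DIFFERENCES. PROOF. `f - f(s₀, T)` is `(s - s₀) f1` coefficientwise (`eq_quo`, TP/Zero), and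
`f(s₀, T) = f(s₀, t₀) + (T - t₀) f2` (`eq_quo` for the series `f(s₀, T)` over `ℤ_p`, mapped to `O p` by
`PowerSeries.map C`). The values of `f1`, `f2` at `P`: apply `dS`, `dT` to the identity and evaluate. -/
theorem exists_dd (P : Pt p) (f : O p) : ∃ f1 f2 : O p,
    f = cc (P.ev f) + (vs p - cc P.s) * f1 + (vt p - cc P.t) * f2 ∧
      P.ev f1 = P.ev (dS p f) ∧ P.ev f2 = P.ev (dT p f) := by
  obtain ⟨g, hg⟩ : ∃ g : ℤ_[p]⟦X⟧, g = PowerSeries.map (evHom P.s P.hs) f := ⟨_, rfl⟩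
  have hgev : P.ev f = ev g P.t := by
    rw [hg]
    rfl
  obtain ⟨f1, hf1⟩ : ∃ f1 : O p, f1 = PowerSeries.mk fun j => quo (coeff j f) P.s := ⟨_, rfl⟩
  obtain ⟨f2, hf2⟩ : ∃ f2 : O p,
      f2 = PowerSeries.map (C : ℤ_[p] →+* ℤ_[p]⟦X⟧) (quo g P.t) := ⟨_, rfl⟩
  have h1 : PowerSeries.map (C : ℤ_[p] →+* ℤ_[p]⟦X⟧) g
      = cc (P.ev f) + (vt p - cc P.t) * f2 := by
    have h0 := congrArg (PowerSeries.map (C : ℤ_[p] →+* ℤ_[p]⟦X⟧)) (eq_quo g P.ht)
    rw [map_add, map_mul, map_sub, PowerSeries.map_X, PowerSeries.map_C, PowerSeries.map_C,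
      ← hgev, ← hf2] at h0
    rw [h0]
    unfold vt cc
    ring
  have h2 : f = (vs p - cc P.s) * f1 + PowerSeries.map (C : ℤ_[p] →+* ℤ_[p]⟦X⟧) g := by
    ext j : 1
    have h3 : vs p - cc P.s = C (X - C P.s) := by
      unfold vs cc
      rw [map_sub]
    rw [h3, map_add, coeff_C_mul, hf1, coeff_mk, coeff_map, hg, coeff_map]
    exact eq_quo (coeff j f) P.hs
  have key : f = cc (P.ev f) + (vs p - cc P.s) * f1 + (vt p - cc P.t) * f2 := by
    rw [h1] at h2
    calc f = (vs p - cc P.s) * f1 + (cc (P.ev f) + (vt p - cc P.t) * f2) := h2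
      _ = _ := by ring
  refine ⟨f1, f2, key, ?_, ?_⟩
  · have h4 : dS p f = dS p (cc (P.ev f) + (vs p - cc P.s) * f1 + (vt p - cc P.t) * f2) :=
      congrArg (dS p) key
    rw [map_add, map_add, dr_mul_aux, dr_mul_aux, map_sub, map_sub, dS_cc, dS_cc,
      dS_cc, dS_vs, dS_vt] at h4
    rw [h4]
    simp only [map_add, map_mul, map_sub, map_zero, map_one, Pt.ev_vs, Pt.ev_vt, Pt.ev_cc]
    ring
  · have h4 : dT p f = dT p (cc (P.ev f) + (vs p - cc P.s) * f1 + (vt p - cc P.t) * f2) :=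
      congrArg (dT p) key
    rw [map_add, map_add, dr_mul_aux, dr_mul_aux, map_sub, map_sub, dT_cc, dT_cc,
      dT_cc, dT_vs, dT_vt] at h4
    rw [h4]
    simp only [map_add, map_mul, map_sub, map_zero, map_one, Pt.ev_vs, Pt.ev_vt, Pt.ev_cc]
    ring

/-- The Jacobian determinant. -/
noncomputable def Jac (f h : O p) : O p := dS p f * dT p h - dT p f * dS p h

lemma Jac_self (f : O p) : Jac f f = 0 := by
  unfold Jac
  ring

end Pool.Agent.Lib.MP_3550b5_nt.AC
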