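import Mathlib
import Pool.Agent.Lib.MP_3550b5_nt.AC.RgEv
import Pool.Agent.Lib.MP_3550b5_nt.AC.RgCard

/-!
PROJECT AC, block SIEGEL: the pigeonhole principle in `O p`.
-/

namespace Pool.Agent.Lib.MP_3550b5_nt.AC

open PowerSeries SV

variable {p : ℕ} [hp : Fact p.Prime]

/-- PROOF. The map `(Fin (H + 1))^ι → O p / I`, `c ↦ ∑ c_j m_j`, is not injective; the difference of two vectors. -/
theorem siegel_quot {ι : Type*} [Fintype ι] (m : ι → O p) (H : ℕ) (I : Ideal (O p)) [Finite (O p ⧸ I)]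
    (h : Nat.card (O p ⧸ I) < (H + 1) ^ Fintype.card ι) :
    ∃ c : ι → ℤ, c ≠ 0 ∧ (∀ j, |c j| ≤ H) ∧ ∑ j, (c j : O p) * m j ∈ I := by
  classical
  obtain ⟨φ, hφ⟩ : ∃ φ : (ι → Fin (H + 1)) → O p ⧸ I,
      φ = fun c => Ideal.Quotient.mk I (∑ j, (((c j).val : ℤ) : O p) * m j) := ⟨_, rfl⟩
  have hni : ¬ Function.Injective φ := by
    intro hinj
    have h1 := Nat.card_le_card_of_injective φ hinj
    rw [Nat.card_eq_fintype_card, Fintype.card_fun, Fintype.card_fin] at h1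
    omega
  rw [Function.Injective] at hni
  push Not at hni
  obtain ⟨c1, c2, h1, h2⟩ := hni
  refine ⟨fun j => ((c1 j).val : ℤ) - ((c2 j).val : ℤ), ?_, ?_, ?_⟩
  · intro h0
    apply h2
    funext j
    have h3 := congrFun h0 j
    simp only [Pi.zero_apply] at h3
    apply Fin.ext
    omega
  · intro j
    have h3 := (c1 j).isLt
    have h4 := (c2 j).isLt
    show |((c1 j).val : ℤ) - ((c2 j).val : ℤ)| ≤ (H : ℤ)
    rw [abs_le]
    constructor <;> omega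
  · have h3 : ∑ j, ((((c1 j).val : ℤ) - ((c2 j).val : ℤ) : ℤ) : O p) * m j =
        ∑ j, (((c1 j).val : ℤ) : O p) * m j - ∑ j, (((c2 j).val : ℤ) : O p) * m j := by
      rw [← Finset.sum_sub_distrib]
      refine Finset.sum_congr rfl fun j _ => ?_
      rw [Int.cast_sub, sub_mul]
    rw [h3]
    rw [hφ] at h1
    exact Ideal.Quotient.eq.1 h1

private lemma siegel_pow {la e n N : ℕ} (hp1 : p ≤ 2 ^ p) (he : e ≤ n * la)
    (h : p * n < N) (hla : 1 ≤ la) : p ^ e < (2 ^ la + 1) ^ N := by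
  have hp0 : 1 ≤ p := hp.out.one_lt.le
  calc p ^ e ≤ p ^ (n * la) := Nat.pow_le_pow_right hp0 he
    _ ≤ (2 ^ p) ^ (n * la) := Nat.pow_le_pow_left hp1 _
    _ = 2 ^ (la * (p * n)) := by
        rw [← pow_mul]
        congr 1
        ring
    _ < 2 ^ (la * N) := by
        refine Nat.pow_lt_pow_right (by norm_num) ?_
        exact Nat.mul_lt_mul_of_pos_left h hla
    _ = (2 ^ la) ^ N := by rw [← pow_mul]
    _ ≤ (2 ^ la + 1) ^ N := Nat.pow_le_pow_left (Nat.le_succ _) _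

/-- PROOF. `siegel_quot`, `card_quot_span`, `p ≤ 2^p`: with `ν = 3 λ + 1`, `ν (ν + 1) / 2 ≤ 10 λ^2`,
`p^(e ν(ν+1)/2) ≤ 2^(10 p e λ^2) < 2^(λ card) ≤ (H + 1)^card`, `H = 2^λ`. -/
theorem siegel_f {ι : Type*} [Fintype ι] (m : ι → O p) {la e : ℕ} (hla : 1 ≤ la) {f : O p}
    (hf : f ∉ Fl p (e + 1)) (h : 10 * p * e * la < Fintype.card ι) :
    ∃ c : ι → ℤ, c ≠ 0 ∧ (∀ j, |c j| ≤ 2 ^ la) ∧
      ∑ j, (c j : O p) * m j ∈ Fl p (3 * la + 1) ⊔ Ideal.span {f} := by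
  haveI := finite_quot_sup (p := p) (3 * la + 1) (Ideal.span {f})
  have h1 := card_quot_span hf (3 * la + 1)
  have h2 : (3 * la + 1) * (3 * la + 1 + 1) / 2 ≤ 10 * la * la := by
    refine Nat.div_le_of_le_mul ?_
    nlinarith
  have h3 : p ^ (e * ((3 * la + 1) * (3 * la + 1 + 1) / 2)) < (2 ^ la + 1) ^ Fintype.card ι := by
    refine siegel_pow (n := 10 * e * la) Nat.lt_two_pow_self.le ?_ ?_ hla
    · calc e * ((3 * la + 1) * (3 * la + 1 + 1) / 2) ≤ e * (10 * la * la) :=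
          Nat.mul_le_mul_left _ h2
        _ = 10 * e * la * la := by ring
    · calc p * (10 * e * la) = 10 * p * e * la := by ring
        _ < Fintype.card ι := h
  obtain ⟨c, hc0, hc1, hc2⟩ := siegel_quot m (2 ^ la) _ (lt_of_le_of_lt h1 h3)
  refine ⟨c, hc0, fun j => ?_, hc2⟩
  have := hc1 j
  push_cast at this
  exact this

/-- PROOF. The same with `card_quot`: `ν (ν + 1) (ν + 2) / 6 ≤ 20 λ^3`. -/
theorem siegel_all {ι : Type*} [Fintype ι] (m : ι → O p) {la : ℕ} (hla : 1 ≤ la)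
    (h : 20 * p * la ^ 2 < Fintype.card ι) :
    ∃ c : ι → ℤ, c ≠ 0 ∧ (∀ j, |c j| ≤ 2 ^ la) ∧ ∑ j, (c j : O p) * m j ∈ Fl p (3 * la + 1) := by
  haveI := finite_quot (p := p) (3 * la + 1)
  have h1 := card_quot (p := p) (3 * la + 1)
  have h2 : (3 * la + 1) * (3 * la + 1 + 1) * (3 * la + 1 + 2) / 6 ≤ 20 * la ^ 2 * la := by
    refine Nat.div_le_of_le_mul ?_
    have e1 : (3 * la + 1) * (3 * la + 1 + 1) * (3 * la + 1 + 2) =
        27 * (la * la * la) + 54 * (la * la) + 33 * la + 6 := by ring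
    have e2 : 6 * (20 * la ^ 2 * la) = 120 * (la * la * la) := by ring
    have e3 : la * 1 ≤ la * la := Nat.mul_le_mul_left _ hla
    have e4 : la * la * 1 ≤ la * la * la := Nat.mul_le_mul_left _ hla
    rw [e1, e2]
    omega
  have h3 : p ^ ((3 * la + 1) * (3 * la + 1 + 1) * (3 * la + 1 + 2) / 6) <
      (2 ^ la + 1) ^ Fintype.card ι := by
    refine siegel_pow (n := 20 * la ^ 2) Nat.lt_two_pow_self.le h2 ?_ hla
    calc p * (20 * la ^ 2) = 20 * p * la ^ 2 := by ring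
      _ < Fintype.card ι := h
  obtain ⟨c, hc0, hc1, hc2⟩ := siegel_quot m (2 ^ la) _ (by rw [h1]; exact h3)
  refine ⟨c, hc0, fun j => ?_, hc2⟩
  have := hc1 j
  push_cast at this
  exact this

end Pool.Agent.Lib.MP_3550b5_nt.AC
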