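import Mathlib
import Pool.Agent.Lib.MP_3550b5_nt.AC.Sg

/-!
PROJECT AC, block LEAF: the analytic leaf `(b, D, A) = (bb, DD, AA)` in `O p`, its points, the boxes of monomials and
Siegel's lemma on the leaf. The variables of `Q3` are `X 0 = b`, `X 1 = D`, `X 2 = A`.
-/

namespace Pool.Agent.Lib.MP_3550b5_nt.AC

open PowerSeries SV

variable {p : ℕ} [hp : Fact p.Prime]

/-- Polynomials in `b, D, A`. -/
abbrev Q3 : Type := MvPolynomial (Fin 3) ℤ

/-- A leaf: `b = b₀ + p s`, `D = DD(s, T)`, `A = AA(s, T)`. -/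
structure Leaf (p : ℕ) [Fact p.Prime] where
  b0 : ℤ
  DD : O p
  AA : O p
  hDD : IsUnit (dT p DD)

/-- `b` on the leaf. -/
noncomputable def Leaf.bb (L : Leaf p) : O p := cc (L.b0 : ℤ_[p]) + cc (p : ℤ_[p]) * vs p

/-- Restriction to the leaf. -/
noncomputable def Leaf.rs (L : Leaf p) : Q3 →+* O p :=
  MvPolynomial.eval₂Hom (Int.castRingHom (O p)) ![L.bb, L.DD, L.AA]

/-- A point of the leaf with integral coordinates of size `|b| ≤ 2^l`, `|D| ≤ 2^T`, `|A| ≤ 4^T`. -/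
structure BP (L : Leaf p) (l T : ℕ) where
  v : Fin 3 → ℤ
  pt : Pt p
  eb : pt.ev L.bb = (v 0 : ℤ_[p])
  eD : pt.ev L.DD = (v 1 : ℤ_[p])
  eA : pt.ev L.AA = (v 2 : ℤ_[p])
  hb : |v 0| ≤ 2 ^ l
  hD : |v 1| ≤ 2 ^ T
  hA : |v 2| ≤ 4 ^ T

variable {L : Leaf p} {l T : ℕ}

/-- The value at a point of the leaf. PROOF. `MvPolynomial.ringHom_ext` or induction. -/
theorem BP.ev_rs (P : BP L l T) (F : Q3) : P.pt.ev (L.rs F) = (MvPolynomial.eval P.v F : ℤ) := by
  have h : P.pt.ev.comp L.rs = (Int.castRingHom ℤ_[p]).comp (MvPolynomial.eval P.v) := by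
    refine MvPolynomial.ringHom_ext (fun r => ?_) (fun i => ?_)
    · rw [RingHom.comp_apply, RingHom.comp_apply, Leaf.rs, MvPolynomial.eval₂Hom_C,
        MvPolynomial.eval_C]
      exact map_intCast P.pt.ev r
    · rw [RingHom.comp_apply, RingHom.comp_apply, Leaf.rs, MvPolynomial.eval₂Hom_X',
        MvPolynomial.eval_X]
      fin_cases i
      · exact P.eb
      · exact P.eD
      · exact P.eA
  exact DFunLike.congr_fun h F

/-- PROOF. `Pt.ev` of `L.bb` is `b₀ + p s`; `|b - b'| ≤ 2^(l+1) < p^(l+2)`, `b ≠ b'`. -/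
theorem BP.sep (P Q : BP L l T) (h : P.v 0 ≠ Q.v 0) :
    ¬ (p : ℤ_[p]) ^ (l + 1) ∣ Q.pt.s - P.pt.s := by
  intro hd
  have hb : ∀ R : BP L l T, (R.v 0 : ℤ_[p]) = L.b0 + p * R.pt.s := fun R => by
    rw [← R.eb, Leaf.bb, map_add, map_mul, Pt.ev_cc, Pt.ev_cc, Pt.ev_vs]
  have h1 : (p : ℤ_[p]) ^ (l + 2) ∣ ((Q.v 0 - P.v 0 : ℤ) : ℤ_[p]) := by
    have h2 : ((Q.v 0 - P.v 0 : ℤ) : ℤ_[p]) = p * (Q.pt.s - P.pt.s) := by
      rw [Int.cast_sub, hb, hb]
      ring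
    rw [h2, pow_succ']
    exact mul_dvd_mul_left _ hd
  have h3 : ((p ^ (l + 2) : ℕ) : ℤ) ∣ Q.v 0 - P.v 0 := by
    have h5 : ‖((Q.v 0 - P.v 0 : ℤ) : ℤ_[p])‖ ≤ (p : ℝ) ^ (-((l + 2 : ℕ) : ℤ)) := by
      rw [PadicInt.norm_le_pow_iff_mem_span_pow, Ideal.mem_span_singleton]
      exact h1
    have h6 := PadicInt.norm_int_le_pow_iff_dvd.1 h5
    rw [Nat.cast_pow]
    exact h6
  have h7 : |Q.v 0 - P.v 0| < ((p ^ (l + 2) : ℕ) : ℤ) := by
    have h8 : |Q.v 0 - P.v 0| ≤ 2 ^ l + 2 ^ l := by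
      refine (abs_sub _ _).trans (add_le_add Q.hb P.hb)
    have h9 : (2 : ℤ) ^ (l + 2) ≤ ((p ^ (l + 2) : ℕ) : ℤ) := by
      rw [Nat.cast_pow]
      refine pow_le_pow_left₀ (by norm_num) ?_ _
      exact_mod_cast hp.out.two_le
    have h10 : (0 : ℤ) < 2 ^ l := by positivity
    have h11 : (2 : ℤ) ^ (l + 2) = 2 ^ l * 4 := by
      rw [pow_add]
      norm_num
    linarith
  have h12 := Int.eq_zero_of_abs_lt_dvd h3 h7
  exact h (sub_eq_zero.1 h12).symm

/-- The monomials `b^i D^j A^k`, `i ≤ K`, `j, k ≤ w`. -/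
noncomputable def box (K w : ℕ) : Finset (Fin 3 →₀ ℕ) :=
  (Fintype.piFinset fun i : Fin 3 => if i = 0 then Finset.range (K + 1) else Finset.range (w + 1)).map
    Finsupp.equivFunOnFinite.symm.toEmbedding

lemma mem_box {K w : ℕ} {m : Fin 3 →₀ ℕ} : m ∈ box K w ↔ m 0 ≤ K ∧ m 1 ≤ w ∧ m 2 ≤ w := by
  rw [box, Finset.mem_map_equiv, Equiv.symm_symm, Fintype.mem_piFinset]
  constructor
  · intro h
    have h0 := h 0
    have h1 := h 1
    have h2 := h 2
    rw [if_pos rfl, Finset.mem_range, Nat.lt_succ_iff] at h0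
    rw [if_neg (by decide), Finset.mem_range, Nat.lt_succ_iff] at h1 h2
    exact ⟨h0, h1, h2⟩
  · rintro ⟨h0, h1, h2⟩ i
    fin_cases i
    · exact Finset.mem_range.2 (Nat.lt_succ_iff.2 h0)
    · exact Finset.mem_range.2 (Nat.lt_succ_iff.2 h1)
    · exact Finset.mem_range.2 (Nat.lt_succ_iff.2 h2)

lemma card_box (K w : ℕ) : (box K w).card = (K + 1) * (w + 1) ^ 2 := by
  rw [box, Finset.card_map, Fintype.card_piFinset, Fin.prod_univ_three, if_pos rfl,
    if_neg (by decide), if_neg (by decide), Finset.card_range, Finset.card_range, pow_two, mul_assoc]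

/-- The size of the value of a polynomial. PROOF. `MvPolynomial.eval_eq'` and the triangle inequality. -/
theorem BP.abs_eval_le (P : BP L l T) {F : Q3} {K w la N : ℕ} (hF : ∀ m ∈ F.support, m 0 ≤ K ∧ m 1 ≤ w ∧ m 2 ≤ w)
    (hc : ∀ m, |F.coeff m| ≤ 2 ^ la) (hN : F.support.card ≤ N) :
    |MvPolynomial.eval P.v F| ≤ N * 2 ^ (la + l * K + 3 * T * w) := by
  have key : ∀ m ∈ F.support, |F.coeff m * ∏ i, P.v i ^ m i| ≤ 2 ^ (la + l * K + 3 * T * w) := by
    intro m hm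
    obtain ⟨h0, h1, h2⟩ := hF m hm
    have e0 : |P.v 0 ^ m 0| ≤ 2 ^ (l * K) := by
      rw [abs_pow, pow_mul]
      exact (pow_le_pow_left₀ (abs_nonneg _) P.hb _).trans
        (pow_le_pow_right₀ (one_le_pow₀ (by norm_num)) h0)
    have e1 : |P.v 1 ^ m 1| ≤ 2 ^ (T * w) := by
      rw [abs_pow, pow_mul]
      exact (pow_le_pow_left₀ (abs_nonneg _) P.hD _).trans
        (pow_le_pow_right₀ (one_le_pow₀ (by norm_num)) h1)
    have e2 : |P.v 2 ^ m 2| ≤ 4 ^ (T * w) := by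
      rw [abs_pow, pow_mul]
      exact (pow_le_pow_left₀ (abs_nonneg _) P.hA _).trans
        (pow_le_pow_right₀ (one_le_pow₀ (by norm_num)) h2)
    rw [Fin.prod_univ_three, abs_mul, abs_mul, abs_mul]
    calc |F.coeff m| * (|P.v 0 ^ m 0| * |P.v 1 ^ m 1| * |P.v 2 ^ m 2|)
        ≤ 2 ^ la * (2 ^ (l * K) * 2 ^ (T * w) * 4 ^ (T * w)) := by
          refine mul_le_mul (hc m) (mul_le_mul (mul_le_mul e0 e1 (abs_nonneg _) (by positivity)) e2
            (abs_nonneg _) (by positivity)) (by positivity) (by positivity)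
      _ = 2 ^ (la + l * K + 3 * T * w) := by
          have h4 : (4 : ℤ) ^ (T * w) = 2 ^ (2 * (T * w)) := by
            rw [pow_mul 2 2 (T * w)]
            norm_num
          rw [h4, ← pow_add, ← pow_add, ← pow_add]
          congr 1
          ring
  rw [MvPolynomial.eval_eq']
  calc |∑ m ∈ F.support, F.coeff m * ∏ i, P.v i ^ m i|
      ≤ ∑ m ∈ F.support, |F.coeff m * ∏ i, P.v i ^ m i| := Finset.abs_sum_le_sum_abs _ _
    _ ≤ ∑ _m ∈ F.support, (2 : ℤ) ^ (la + l * K + 3 * T * w) := Finset.sum_le_sum key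
    _ = F.support.card * 2 ^ (la + l * K + 3 * T * w) := by
        rw [Finset.sum_const, nsmul_eq_mul]
    _ ≤ N * 2 ^ (la + l * K + 3 * T * w) := by
        refine mul_le_mul_of_nonneg_right ?_ (by positivity)
        exact_mod_cast hN

end Pool.Agent.Lib.MP_3550b5_nt.AC
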