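import Mathlib
import Pool.Agent.Lib.MP_3550b5_nt.SV.Base
import Pool.Agent.Lib.MP_3550b5_nt.SV.Cmp

/-!
PROJECT AC, block ADE: universal differential polynomials in `b, D, A, a` (indices `0, 1, 2, 3` of `Fin 4`), the quantities
`x = A / D^2`, `Y = x^3 + a x + b`, `om = y fom`, `tau = y ftau`, `r`, `EE`, and their representation as universal differential
polynomials divided by powers of `mu`.
-/

namespace Pool.Agent.Lib.MP_3550b5_nt.AC

open MvPolynomial SV

/-- Differential polynomials over `ℤ` in four functions: `X (i, n)` is the `n`-th derivative of the `i`-th function. -/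
abbrev J : Type := MvPolynomial (Fin 4 × ℕ) ℤ

/-- The derivation of `J`. -/
noncomputable def dJ : Dr J :=
  mkDer (R := J) (MvPolynomial.mkDerivation ℤ fun x : Fin 4 × ℕ => (X (x.1, x.2 + 1) : J)).toLinearMap.toAddMonoidHom (by
    intro x y
    change MvPolynomial.mkDerivation ℤ _ (x * y) = x * MvPolynomial.mkDerivation ℤ _ y + y * MvPolynomial.mkDerivation ℤ _ x
    rw [Derivation.leibniz, smul_eq_mul, smul_eq_mul])

/-- The value of a differential polynomial. -/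
noncomputable def jev {K : Type*} [CommRing K] (δ : Dr K) (v : Fin 4 → K) : J →+* K :=
  eval₂Hom (Int.castRingHom K) fun x => δ^[x.2] (v x.1)

private lemma uj_apply (g : J) : dJ g = MvPolynomial.mkDerivation ℤ
    (fun x : Fin 4 × ℕ => (X (x.1, x.2 + 1) : J)) g := rfl

private lemma uj_C (a : ℤ) : dJ (C a : J) = 0 := by
  rw [uj_apply]
  exact MvPolynomial.derivation_C _ a

private lemma uj_X (x : Fin 4 × ℕ) : dJ (X x : J) = X (x.1, x.2 + 1) := by
  rw [uj_apply, mkDerivation_X]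

private lemma uj_int {K : Type*} [CommRing K] (δ : Dr K) (a : ℤ) : δ (a : K) = 0 := by
  have h1 : δ ((a : K) * 1) = (a : K) * δ 1 + 1 * δ (a : K) := by
    rw [Derivation.leibniz, smul_eq_mul, smul_eq_mul]
  have h2 : δ (a : K) = a • δ (1 : K) := by
    rw [← zsmul_one, map_zsmul]
  rw [h2, δ.map_one_eq_zero, smul_zero]

private lemma uj_jC {K : Type*} [CommRing K] (δ : Dr K) (v : Fin 4 → K) (a : ℤ) :
    jev δ v (C a) = (a : K) := by
  unfold jev
  rw [coe_eval₂Hom, eval₂_C]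
  rfl

private lemma uj_jX {K : Type*} [CommRing K] (δ : Dr K) (v : Fin 4 → K) (x : Fin 4 × ℕ) :
    jev δ v (X x) = δ^[x.2] (v x.1) := by
  unfold jev
  rw [coe_eval₂Hom, eval₂_X]

/-- PROOF. Both sides are additive and satisfy the product rule; check on variables (`induction_on`). -/
theorem jev_dJ {K : Type*} [CommRing K] (δ : Dr K) (v : Fin 4 → K) (g : J) : jev δ v (dJ g) = δ (jev δ v g) := by
  induction g using MvPolynomial.induction_on with
  | C a => rw [uj_C, map_zero, uj_jC, uj_int]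
  | add p q hp hq => rw [map_add, map_add, map_add, map_add, hp, hq]
  | mul_X p x hp =>
    rw [Derivation.leibniz, map_add, smul_eq_mul, smul_eq_mul, map_mul, map_mul, hp, map_mul,
      Derivation.leibniz, smul_eq_mul, smul_eq_mul, uj_X, uj_jX, uj_jX, Function.iterate_succ_apply']

/-- PROOF. `induction_on`; `δ'^[n] (f x) = f (δ^[n] x)`. -/
theorem jev_map {K K' : Type*} [CommRing K] [CommRing K'] (f : K →+* K') (δ : Dr K) (δ' : Dr K')
    (h : ∀ x, δ' (f x) = f (δ x)) (v : Fin 4 → K) (g : J) : jev δ' (fun i => f (v i)) g = f (jev δ v g) := by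
  have h1 : ∀ (n : ℕ) (x : K), δ'^[n] (f x) = f (δ^[n] x) := by
    intro n x
    induction n with
    | zero => rfl
    | succ n ih => rw [Function.iterate_succ_apply', Function.iterate_succ_apply', ih, h]
  induction g using MvPolynomial.induction_on with
  | C a => rw [uj_jC, uj_jC, map_intCast]
  | add p q hp hq => rw [map_add, map_add, map_add, hp, hq]
  | mul_X p x hp => rw [map_mul, map_mul, map_mul, hp, uj_jX, uj_jX, h1]

/-- `mu = 6 (4 a^3 + 27 b^2) (3 b a' - 2 a b') D (A^3 + a A D^4 + b D^6)`. -/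
noncomputable def muJ : J :=
  6 * (4 * X (3, 0) ^ 3 + 27 * X (0, 0) ^ 2) * (3 * X (0, 0) * X (3, 1) - 2 * X (3, 0) * X (0, 1)) * X (1, 0) *
    (X (2, 0) ^ 3 + X (3, 0) * X (2, 0) * X (1, 0) ^ 4 + X (0, 0) * X (1, 0) ^ 6)

section Fun

variable {K : Type} [Field K] (δ : Dr K) (v : Fin 4 → K)

lemma jev_muJ : jev δ v muJ = 6 * dl (v 3) (v 0) * wr δ (v 3) (v 0) * v 1 *
    (v 2 ^ 3 + v 3 * v 2 * v 1 ^ 4 + v 0 * v 1 ^ 6) := by
  have h0 : ∀ i : Fin 4, jev δ v (X (i, 0)) = v i := fun i => uj_jX δ v (i, 0)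
  have h1 : ∀ i : Fin 4, jev δ v (X (i, 1)) = δ (v i) := fun i => uj_jX δ v (i, 1)
  unfold muJ dl wr
  simp only [map_mul, map_add, map_sub, map_pow, map_ofNat, h0, h1]

/-- `x`. -/
def fx : K := v 2 / v 1 ^ 2

/-- `Y = y^2`. -/
def fY : K := fx v ^ 3 + v 3 * fx v + v 0

/-- `om / y`. -/
def fom : K :=
  (δ (fx v) - 2 * k1 δ (v 3) (v 0) * fx v ^ 2 - 2 * g1 δ (v 3) (v 0) * fx v - 4 * k1 δ (v 3) (v 0) * v 3 / 3) / (2 * fY v)

/-- `r = (2 E - 2 D' / D) / k`. -/
def frr : K :=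
  (fom δ v ^ 2 * fY v / k1 δ (v 3) (v 0) - k1 δ (v 3) (v 0) * fx v - 2 * g1 δ (v 3) (v 0) - 2 * δ (v 1) / v 1) /
    k1 δ (v 3) (v 0)

/-- `tau / y`. -/
def ftau : K :=
  g1 δ (v 3) (v 0) * (fom δ v / k1 δ (v 3) (v 0)) - fx v * fom δ v - k1 δ (v 3) (v 0) -
    (δ (fY v) / (2 * fY v) * (fom δ v / k1 δ (v 3) (v 0)) + δ (fom δ v / k1 δ (v 3) (v 0)))

/-- `tau^2`. -/
def fT2 : K := fY v * ftau δ v ^ 2

/-- `s / y`, `s = tau / k`. -/
def fs : K := ftau δ v / k1 δ (v 3) (v 0)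

/-- `q = (r' - 2 g r) / (2 k)`. -/
def fq : K := (δ (frr δ v) - 2 * g1 δ (v 3) (v 0) * frr δ v) / (2 * k1 δ (v 3) (v 0))

/-- The first bracket of `EE`. -/
def fB0 : K :=
  δ (fq δ v) * frr δ v - fq δ v * δ (frr δ v) - k1 δ (v 3) (v 0) * fq δ v ^ 2 -
    k1 δ (v 3) (v 0) * (fY v * fs δ v ^ 2) * frr δ v - 2 * g1 δ (v 3) (v 0) * fq δ v * frr δ v +
    k1 δ (v 3) (v 0) * v 3 / 3 * frr δ v ^ 2

/-- The second bracket of `EE`, divided by `y`. -/
def fB1 : K :=
  -(δ (fs δ v) + δ (fY v) / (2 * fY v) * fs δ v) * frr δ v + 3 / 2 * fs δ v * δ (frr δ v)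

/-- The universal algebraic differential equation. -/
def fEE : K := fB0 δ v ^ 2 - frr δ v * (fY v * fB1 δ v ^ 2)

end Fun

end Pool.Agent.Lib.MP_3550b5_nt.AC
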