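import Mathlib
import Pool.Agent.Lib.MP_3550b5_nt.AC.Uj
import Pool.Agent.Lib.MP_3550b5_nt.AC.Lf

/-!
PROJECT AC, block JET: the derivation `dL` of `ℤ[b, D, A]` along the curve `Ψ₀(b, D) = Ψ₁(b, A) = 0`, and the derivation `dLL` of `O p` along the
curve `Ψ₀ = 0` on the leaf.
-/

namespace Pool.Agent.Lib.MP_3550b5_nt.AC

open MvPolynomial SV

variable {p : ℕ} [hp : Fact p.Prime]

/-- `q (Ψ₀_D Ψ₁_A ∂_b - Ψ₀_b Ψ₁_A ∂_D - Ψ₁_b Ψ₀_D ∂_A)`. -/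
noncomputable def dL (q : ℤ) (Ψ₀ Ψ₁ : Q3) : Dr Q3 :=
  mkDer (R := Q3) (AddMonoidHom.mk' (fun G => (q : Q3) * (pderiv 1 Ψ₀ * pderiv 2 Ψ₁ * pderiv 0 G -
    pderiv 0 Ψ₀ * pderiv 2 Ψ₁ * pderiv 1 G - pderiv 0 Ψ₁ * pderiv 1 Ψ₀ * pderiv 2 G)) (by
      intro x y
      simp only [map_add]
      ring)) (by
    intro x y
    simp only [AddMonoidHom.mk'_apply, Derivation.leibniz, smul_eq_mul]
    ring)

lemma dL_apply (q : ℤ) (Ψ₀ Ψ₁ G : Q3) : dL q Ψ₀ Ψ₁ G = (q : Q3) * (pderiv 1 Ψ₀ * pderiv 2 Ψ₁ * pderiv 0 G -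
    pderiv 0 Ψ₀ * pderiv 2 Ψ₁ * pderiv 1 G - pderiv 0 Ψ₁ * pderiv 1 Ψ₀ * pderiv 2 G) := rfl

/-- The inverse of `dT DD`. -/
noncomputable def Leaf.iD (L : Leaf p) : O p := ((L.hDD.unit⁻¹ : (O p)ˣ) : O p)

lemma Leaf.iD_mul (L : Leaf p) : dT p L.DD * L.iD = 1 := L.hDD.mul_val_inv

/-- `-(Ψ₁_A / DD_T) (f_s ∂_T - f_T ∂_s)`, `f = Ψ₀` on the leaf. -/
noncomputable def dLL (L : Leaf p) (Ψ₀ Ψ₁ : Q3) : Dr (O p) :=
  mkDer (R := O p) (AddMonoidHom.mk' (fun G => -(L.rs (pderiv 2 Ψ₁) * L.iD) * Jac (L.rs Ψ₀) G) (by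
      intro x y
      simp only [Jac, map_add]
      ring)) (by
    intro x y
    simp only [AddMonoidHom.mk'_apply, Jac, Derivation.leibniz, smul_eq_mul]
    ring)

lemma dLL_apply (L : Leaf p) (Ψ₀ Ψ₁ : Q3) (G : O p) :
    dLL L Ψ₀ Ψ₁ G = -(L.rs (pderiv 2 Ψ₁) * L.iD) * Jac (L.rs Ψ₀) G := rfl

private theorem dlA_mul {R : Type*} [CommRing R] (d : Dr R) (x y : R) :
    d (x * y) = x * d y + y * d x := d.leibniz x y

private theorem dlA_int {R : Type*} [CommRing R] (d : Dr R) (a : ℤ) : d (a : R) = 0 := by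
  have h := d.map_algebraMap a
  rwa [eq_intCast] at h

/-- The chain rule. PROOF. `MvPolynomial.induction_on`. -/
theorem Leaf.der_rs (L : Leaf p) (d : Dr (O p)) (G : Q3) : d (L.rs G) =
    L.rs (pderiv 0 G) * d L.bb + L.rs (pderiv 1 G) * d L.DD + L.rs (pderiv 2 G) * d L.AA := by
  induction G using MvPolynomial.induction_on with
  | C a =>
    have h1 : L.rs (C a) = (a : O p) := by
      rw [Leaf.rs, MvPolynomial.eval₂Hom_C]
      rfl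
    rw [h1, dlA_int, pderiv_C, pderiv_C, pderiv_C, map_zero, zero_mul, zero_mul, zero_mul,
      add_zero, add_zero]
  | add F G hF hG =>
    rw [map_add, map_add, hF, hG, map_add, map_add, map_add, map_add, map_add, map_add]
    ring
  | mul_X G i hG =>
    rw [map_mul, dlA_mul, hG, pderiv_mul, pderiv_mul,
      pderiv_mul, map_add, map_add, map_add, map_mul, map_mul, map_mul, map_mul, map_mul, map_mul]
    have h0 : L.rs (X 0) = L.bb := MvPolynomial.eval₂Hom_X' _ _ _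
    have h1 : L.rs (X 1) = L.DD := MvPolynomial.eval₂Hom_X' _ _ _
    have h2 : L.rs (X 2) = L.AA := MvPolynomial.eval₂Hom_X' _ _ _
    fin_cases i
    · change L.rs G * d (L.rs (X 0)) + L.rs (X 0) * _ = (_ * L.rs (X 0) + L.rs G *
        L.rs (pderiv 0 (X 0))) * _ + (_ * L.rs (X 0) + L.rs G * L.rs (pderiv 1 (X 0))) * _ +
        (_ * L.rs (X 0) + L.rs G * L.rs (pderiv 2 (X 0))) * _
      rw [pderiv_X_self, pderiv_X_of_ne (by decide), pderiv_X_of_ne (by decide), map_one, map_zero,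
        h0]
      ring
    · change L.rs G * d (L.rs (X 1)) + L.rs (X 1) * _ = (_ * L.rs (X 1) + L.rs G *
        L.rs (pderiv 0 (X 1))) * _ + (_ * L.rs (X 1) + L.rs G * L.rs (pderiv 1 (X 1))) * _ +
        (_ * L.rs (X 1) + L.rs G * L.rs (pderiv 2 (X 1))) * _
      rw [pderiv_X_self, pderiv_X_of_ne (by decide), pderiv_X_of_ne (by decide), map_one, map_zero,
        h1]
      ring
    · change L.rs G * d (L.rs (X 2)) + L.rs (X 2) * _ = (_ * L.rs (X 2) + L.rs G *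
        L.rs (pderiv 0 (X 2))) * _ + (_ * L.rs (X 2) + L.rs G * L.rs (pderiv 1 (X 2))) * _ +
        (_ * L.rs (X 2) + L.rs G * L.rs (pderiv 2 (X 2))) * _
      rw [pderiv_X_self, pderiv_X_of_ne (by decide), pderiv_X_of_ne (by decide), map_one, map_zero,
        h2]
      ring

/-- The functions `b, D, A, a` as polynomials. -/
noncomputable def vQ (a : ℤ) : Fin 4 → Q3 := ![X 0, X 1, X 2, C a]

/-- The functions `b, D, A, a` on the leaf. -/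
noncomputable def Leaf.vO (L : Leaf p) (a : ℤ) : Fin 4 → O p := ![L.bb, L.DD, L.AA, (a : O p)]

/-- The ideal `(h₁, h₂, h₃)`. -/
noncomputable def Leaf.I3 (L : Leaf p) (Ψ₀ Ψ₁ : Q3) : Ideal (O p) :=
  Ideal.span {Jac (L.rs Ψ₀) (L.rs Ψ₁), Jac (L.rs Ψ₀) (Jac (L.rs Ψ₀) (L.rs Ψ₁)),
    Jac (L.rs Ψ₀) (Jac (L.rs Ψ₀) (Jac (L.rs Ψ₀) (L.rs Ψ₁)))}

variable (L : Leaf p) {Ψ₀ Ψ₁ : Q3}

end Pool.Agent.Lib.MP_3550b5_nt.AC
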