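import Mathlib
import Pool.Agent.Lib.MP_3550b5_nt.AC.DlA

/-!
PROJECT AC, block JET: the derivation `dL` of `ℤ[b, D, A]` along the curve `Ψ₀(b, D) = Ψ₁(b, A) = 0`, and the derivation `dLL` of `O p` along the
curve `Ψ₀ = 0` on the leaf.
-/

namespace Pool.Agent.Lib.MP_3550b5_nt.AC

open MvPolynomial SV

variable {p : ℕ} [hp : Fact p.Prime]

variable (L : Leaf p) {Ψ₀ Ψ₁ : Q3}

private theorem dlB_mul {R : Type*} [CommRing R] (D : Dr R) (x y : R) :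
    D (x * y) = x * D y + y * D x := by
  rw [Derivation.leibniz, smul_eq_mul, smul_eq_mul]

private theorem dlB_cc : cc ((p : ℕ) : ℤ_[p]) = (((p : ℤ)) : O p) := by
  unfold cc
  rw [map_natCast, map_natCast, Int.cast_natCast]

private theorem dlB_T : dT p L.bb = 0 := by
  rw [Leaf.bb, map_add, dlB_mul, dT_cc, dT_cc, dT_vs]
  ring

private theorem dlB_S : dS p L.bb = (((p : ℤ)) : O p) := by
  rw [Leaf.bb, map_add, dlB_mul, dS_cc, dS_cc, dS_vs, dlB_cc]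
  ring

private theorem dlB_dL (q : ℤ) (G : Q3) : L.rs (dL q Ψ₀ Ψ₁ G) = (q : O p) *
    (L.rs (pderiv 1 Ψ₀) * L.rs (pderiv 2 Ψ₁) * L.rs (pderiv 0 G) -
      L.rs (pderiv 0 Ψ₀) * L.rs (pderiv 2 Ψ₁) * L.rs (pderiv 1 G) -
      L.rs (pderiv 0 Ψ₁) * L.rs (pderiv 1 Ψ₀) * L.rs (pderiv 2 G)) := by
  rw [dL_apply]
  simp only [map_mul, map_sub, map_intCast]

/-- PROOF. `dT bb = 0`, `dS bb = p`; `f_T = Ψ₀_D DD_T` (`der_rs`, `pderiv 2 Ψ₀ = 0`). `dLL f = 0` (`Jac_self`) gives `Ψ₀_D dLL DD = - Ψ₀_b p Ψ₀_D Ψ₁_A`. -/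
theorem dLL_bb_DD (h0 : pderiv 2 Ψ₀ = 0) (h0' : L.rs (pderiv 1 Ψ₀) ≠ 0) :
    dLL L Ψ₀ Ψ₁ L.bb = L.rs (dL p Ψ₀ Ψ₁ (X 0)) ∧ dLL L Ψ₀ Ψ₁ L.DD = L.rs (dL p Ψ₀ Ψ₁ (X 1)) := by
  have hT : dT p (L.rs Ψ₀) = L.rs (pderiv 1 Ψ₀) * dT p L.DD := by
    rw [L.der_rs, dlB_T, h0, map_zero]
    ring
  have hb : dLL L Ψ₀ Ψ₁ L.bb = (((p : ℤ)) : O p) * (L.rs (pderiv 1 Ψ₀) * L.rs (pderiv 2 Ψ₁)) := by
    rw [dLL_apply, Jac, dlB_T, dlB_S, hT]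
    calc -(L.rs (pderiv 2 Ψ₁) * L.iD) * (dS p (L.rs Ψ₀) * 0 -
        L.rs (pderiv 1 Ψ₀) * dT p L.DD * (((p : ℤ)) : O p)) =
        (((p : ℤ)) : O p) * (L.rs (pderiv 1 Ψ₀) * L.rs (pderiv 2 Ψ₁)) *
          (dT p L.DD * L.iD) := by ring
      _ = _ := by rw [L.iD_mul, mul_one]
  refine ⟨?_, ?_⟩
  · rw [hb, dlB_dL, pderiv_X_self, pderiv_X_of_ne (show (0 : Fin 3) ≠ 1 by decide),
      pderiv_X_of_ne (show (0 : Fin 3) ≠ 2 by decide), map_one, map_zero]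
    ring
  · have h1 : dLL L Ψ₀ Ψ₁ (L.rs Ψ₀) = 0 := by
      rw [dLL_apply, Jac_self, mul_zero]
    rw [L.der_rs, hb, h0, map_zero, zero_mul, add_zero] at h1
    have h2 : L.rs (pderiv 1 Ψ₀) * dLL L Ψ₀ Ψ₁ L.DD = L.rs (pderiv 1 Ψ₀) *
        (-((((p : ℤ)) : O p) * (L.rs (pderiv 0 Ψ₀) * L.rs (pderiv 2 Ψ₁)))) := by
      rw [← sub_eq_zero, ← h1]
      ring
    rw [mul_left_cancel₀ h0' h2, dlB_dL, pderiv_X_self,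
      pderiv_X_of_ne (show (1 : Fin 3) ≠ 0 by decide),
      pderiv_X_of_ne (show (1 : Fin 3) ≠ 2 by decide), map_one, map_zero]
    ring

/-- PROOF. `dLL h₀ = -(Ψ₁_A / DD_T) h₁ = Ψ₁_b dLL bb + Ψ₁_A dLL AA` (`pderiv 1 Ψ₁ = 0`), cancel `Ψ₁_A`. -/
theorem dLL_AA (h0 : pderiv 2 Ψ₀ = 0) (h0' : L.rs (pderiv 1 Ψ₀) ≠ 0) (h1 : pderiv 1 Ψ₁ = 0)
    (h1' : L.rs (pderiv 2 Ψ₁) ≠ 0) :
    dLL L Ψ₀ Ψ₁ L.AA = L.rs (dL p Ψ₀ Ψ₁ (X 2)) - L.iD * Jac (L.rs Ψ₀) (L.rs Ψ₁) := by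
  have hb := (dLL_bb_DD L (Ψ₁ := Ψ₁) h0 h0').1
  have h2 : dLL L Ψ₀ Ψ₁ (L.rs Ψ₁) =
      -(L.rs (pderiv 2 Ψ₁) * L.iD) * Jac (L.rs Ψ₀) (L.rs Ψ₁) := dLL_apply L Ψ₀ Ψ₁ (L.rs Ψ₁)
  rw [L.der_rs, hb, h1, map_zero, zero_mul, add_zero, dlB_dL, pderiv_X_self,
    pderiv_X_of_ne (show (0 : Fin 3) ≠ 1 by decide),
    pderiv_X_of_ne (show (0 : Fin 3) ≠ 2 by decide), map_one, map_zero] at h2
  refine mul_left_cancel₀ h1' ?_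
  rw [dlB_dL, pderiv_X_self, pderiv_X_of_ne (show (2 : Fin 3) ≠ 0 by decide),
    pderiv_X_of_ne (show (2 : Fin 3) ≠ 1 by decide), map_one, map_zero]
  linear_combination h2

/-- PROOF. `der_rs` and the two theorems before: `dLL (G|S) = (dL G)|S - G_A iD h₁`. -/
theorem dLL_rs (h0 : pderiv 2 Ψ₀ = 0) (h0' : L.rs (pderiv 1 Ψ₀) ≠ 0) (h1 : pderiv 1 Ψ₁ = 0)
    (h1' : L.rs (pderiv 2 Ψ₁) ≠ 0) (G : Q3) :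
    dLL L Ψ₀ Ψ₁ (L.rs G) = L.rs (dL p Ψ₀ Ψ₁ G) - L.rs (pderiv 2 G) * L.iD * Jac (L.rs Ψ₀) (L.rs Ψ₁) := by
  obtain ⟨hb, hD⟩ := dLL_bb_DD L (Ψ₁ := Ψ₁) h0 h0'
  rw [L.der_rs, dLL_AA L h0 h0' h1 h1', hb, hD]
  simp only [dlB_dL, pderiv_X_self, pderiv_X_of_ne (show (0 : Fin 3) ≠ 1 by decide),
    pderiv_X_of_ne (show (0 : Fin 3) ≠ 2 by decide),
    pderiv_X_of_ne (show (1 : Fin 3) ≠ 0 by decide),
    pderiv_X_of_ne (show (1 : Fin 3) ≠ 2 by decide),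
    pderiv_X_of_ne (show (2 : Fin 3) ≠ 0 by decide),
    pderiv_X_of_ne (show (2 : Fin 3) ≠ 1 by decide), map_one, map_zero]
  ring

end Pool.Agent.Lib.MP_3550b5_nt.AC
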