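import Mathlib
import Pool.Agent.Lib.MP_3550b5_nt.AC.DlB

/-!
PROJECT AC, block JET: the derivation `dL` of `ℤ[b, D, A]` along the curve `Ψ₀(b, D) = Ψ₁(b, A) = 0`, and the derivation `dLL` of `O p` along the
curve `Ψ₀ = 0` on the leaf.
-/

namespace Pool.Agent.Lib.MP_3550b5_nt.AC

open MvPolynomial SV

variable {p : ℕ} [hp : Fact p.Prime]

variable (L : Leaf p) {Ψ₀ Ψ₁ : Q3}

private theorem dl_leibniz {R : Type*} [CommRing R] (D : Dr R) (x y : R) :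
    D (x * y) = x * D y + y * D x := by
  rw [Derivation.leibniz, smul_eq_mul, smul_eq_mul]

/-- The sequence `h₀, h₁, ..`. -/
private noncomputable def dlh (Ψ₀ Ψ₁ : Q3) : ℕ → O p
  | 0 => L.rs Ψ₁
  | n + 1 => Jac (L.rs Ψ₀) (dlh Ψ₀ Ψ₁ n)

/-- The ideal `(h₁, .., h_n)`. -/
private noncomputable def dlI (Ψ₀ Ψ₁ : Q3) (n : ℕ) : Ideal (O p) :=
  Ideal.span {x | ∃ j, 1 ≤ j ∧ j ≤ n ∧ x = dlh L Ψ₀ Ψ₁ j}

private theorem dlh_mem {n j : ℕ} (h1 : 1 ≤ j) (h2 : j ≤ n) :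
    dlh L Ψ₀ Ψ₁ j ∈ dlI L Ψ₀ Ψ₁ n := Ideal.subset_span ⟨j, h1, h2, rfl⟩

private theorem dlI_mono {n m : ℕ} (h : n ≤ m) : dlI L Ψ₀ Ψ₁ n ≤ dlI L Ψ₀ Ψ₁ m := by
  refine Ideal.span_mono ?_
  rintro x ⟨j, h1, h2, rfl⟩
  exact ⟨j, h1, h2.trans h, rfl⟩

private theorem dlI_le : dlI L Ψ₀ Ψ₁ 3 ≤ L.I3 Ψ₀ Ψ₁ := by
  refine Ideal.span_le.2 ?_
  rintro x ⟨j, h1, h2, rfl⟩
  refine Ideal.subset_span ?_
  have h3 : j = 1 ∨ j = 2 ∨ j = 3 := by omega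
  rcases h3 with rfl | rfl | rfl
  · exact Or.inl rfl
  · exact Or.inr (Or.inl rfl)
  · exact Or.inr (Or.inr rfl)

private theorem dlI_der (n : ℕ) {y : O p} (hy : y ∈ dlI L Ψ₀ Ψ₁ n) :
    dLL L Ψ₀ Ψ₁ y ∈ dlI L Ψ₀ Ψ₁ (n + 1) := by
  induction hy using Submodule.span_induction with
  | mem x hx =>
    obtain ⟨j, h1, h2, rfl⟩ := hx
    rw [dLL_apply]
    exact Ideal.mul_mem_left _ _ (dlh_mem L (j := j + 1) (by omega) (by omega))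
  | zero =>
    rw [map_zero]
    exact zero_mem _
  | add x y _ _ hx hy =>
    rw [map_add]
    exact add_mem hx hy
  | smul a x hx hx' =>
    have e : dLL L Ψ₀ Ψ₁ (a * x) = a * dLL L Ψ₀ Ψ₁ x + x * dLL L Ψ₀ Ψ₁ a :=
      dl_leibniz (dLL L Ψ₀ Ψ₁) a x
    rw [smul_eq_mul, e]
    exact add_mem (Ideal.mul_mem_left _ _ hx')
      (Ideal.mul_mem_right _ _ (dlI_mono L (Nat.le_succ n) hx))

private theorem dl_iter (h0 : pderiv 2 Ψ₀ = 0) (h0' : L.rs (pderiv 1 Ψ₀) ≠ 0)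
    (h1 : pderiv 1 Ψ₁ = 0) (h1' : L.rs (pderiv 2 Ψ₁) ≠ 0) (G : Q3) (n : ℕ) :
    (dLL L Ψ₀ Ψ₁)^[n] (L.rs G) - L.rs ((dL p Ψ₀ Ψ₁)^[n] G) ∈ dlI L Ψ₀ Ψ₁ n := by
  induction n with
  | zero =>
    rw [Function.iterate_zero, Function.iterate_zero, id, id, sub_self]
    exact zero_mem _
  | succ n ih =>
    have h2 := dlI_der L n ih
    have h3 := dLL_rs L h0 h0' h1 h1' ((dL p Ψ₀ Ψ₁)^[n] G)
    rw [map_sub, h3] at h2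
    rw [Function.iterate_succ_apply', Function.iterate_succ_apply']
    have h4 : L.rs (pderiv 2 ((dL p Ψ₀ Ψ₁)^[n] G)) * L.iD * Jac (L.rs Ψ₀) (L.rs Ψ₁) ∈
        dlI L Ψ₀ Ψ₁ (n + 1) :=
      Ideal.mul_mem_left _ _ (dlh_mem L (j := 1) le_rfl (by omega))
    have h5 := sub_mem h2 h4
    have e : ∀ a b c : O p, a - (b - c) - c = a - b := fun a b c => by ring
    rw [e] at h5
    exact h5

private theorem dl_vO (a : ℤ) (i : Fin 4) : L.vO a i = L.rs (vQ a i) := by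
  fin_cases i
  · change L.bb = L.rs (X 0)
    rw [Leaf.rs, eval₂Hom_X']
    rfl
  · change L.DD = L.rs (X 1)
    rw [Leaf.rs, eval₂Hom_X']
    rfl
  · change L.AA = L.rs (X 2)
    rw [Leaf.rs, eval₂Hom_X']
    rfl
  · change (a : O p) = L.rs (C a)
    rw [Leaf.rs, eval₂Hom_C]
    rfl

/-- JETS MODULO `(h₁, h₂, h₃)`. PROOF. `dLL h_j = -(Ψ₁_A iD) h_(j+1)` maps `(h₁)` into `(h₁, h₂)` and `(h₁, h₂)` into `(h₁, h₂, h₃)`. By induction `dLL^[n] (G|S) - (dL^[n] G)|S` lies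
in `(h₁, .., h_n)`, `n ≤ 3` (`dLL_rs`). For `g`: both sides are ring homomorphisms of `g`, equal modulo the ideal on the variables of `g`
(`MvPolynomial.eval₂Hom_congr'`, or `hom_congr_vars`, in the quotient ring). -/
theorem jets_congr (h0 : pderiv 2 Ψ₀ = 0) (h0' : L.rs (pderiv 1 Ψ₀) ≠ 0) (h1 : pderiv 1 Ψ₁ = 0)
    (h1' : L.rs (pderiv 2 Ψ₁) ≠ 0) (a : ℤ) (g : J) (hg : ∀ x ∈ g.vars, x.2 ≤ 3) :
    L.rs (jev (dL p Ψ₀ Ψ₁) (vQ a) g) - jev (dLL L Ψ₀ Ψ₁) (L.vO a) g ∈ L.I3 Ψ₀ Ψ₁ := by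
  rw [← Ideal.Quotient.eq]
  have h := MvPolynomial.hom_congr_vars (p₁ := g) (p₂ := g)
    (f₁ := ((Ideal.Quotient.mk (L.I3 Ψ₀ Ψ₁)).comp L.rs).comp (jev (dL p Ψ₀ Ψ₁) (vQ a)))
    (f₂ := (Ideal.Quotient.mk (L.I3 Ψ₀ Ψ₁)).comp (jev (dLL L Ψ₀ Ψ₁) (L.vO a)))
    (RingHom.ext_int _ _) (fun x hx _ => ?_) rfl
  · exact h
  · have h2 := dl_iter L h0 h0' h1 h1' (vQ a x.1) x.2
    have h3 := dlI_le L (dlI_mono L (hg x hx) h2)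
    rw [← dl_vO] at h3
    change Ideal.Quotient.mk _ (L.rs (jev (dL p Ψ₀ Ψ₁) (vQ a) (X x))) =
      Ideal.Quotient.mk _ (jev (dLL L Ψ₀ Ψ₁) (L.vO a) (X x))
    rw [jev, jev, eval₂Hom_X', eval₂Hom_X']
    exact (Ideal.Quotient.eq.2 h3).symm

end Pool.Agent.Lib.MP_3550b5_nt.AC
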