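import Mathlib

/-!
PROJECT AC, block COUNT: counting points with distinct first coordinate on the curves `F = G = 0`, with degrees only.
-/

namespace Pool.Agent.Lib.MP_3550b5_nt.AC

open MvPolynomial

/-- Polynomials in `b, D, A` over `ℚ`. -/
abbrev R3 : Type := MvPolynomial (Fin 3) ℚ

/-- The polynomials of degree at most `K i` in the `i`-th variable. -/
def Bx (K : Fin 3 → ℕ) : Submodule ℚ R3 where
  carrier := {F | ∀ i, F.degreeOf i ≤ K i}
  zero_mem' := fun i => by rw [degreeOf_zero]; exact Nat.zero_le _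
  add_mem' := fun {F G} hF hG i => (degreeOf_add_le i F G).trans (max_le (hF i) (hG i))
  smul_mem' := fun c F hF i => by
    rw [smul_eq_C_mul]
    refine (degreeOf_mul_le i _ _).trans ?_
    rw [degreeOf_C, zero_add]
    exact hF i

/-- The Hilbert function of an ideal. -/
noncomputable def Hil (I : Ideal R3) (K : Fin 3 → ℕ) : ℕ :=
  Module.finrank ℚ ((Bx K).map (Ideal.Quotient.mkₐ ℚ I).toLinearMap)

private theorem HcA_eq (K : Fin 3 → ℕ) :
    Bx K = MvPolynomial.restrictSupport ℚ {m : Fin 3 →₀ ℕ | ∀ i, m i ≤ K i} := by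
  ext F
  rw [MvPolynomial.mem_restrictSupport_iff]
  constructor
  · intro h m hm i
    exact (monomial_le_degreeOf i (Finset.mem_coe.1 hm)).trans (h i)
  · intro h i
    rw [degreeOf_le_iff]
    intro m hm
    exact h (Finset.mem_coe.2 hm) i

/-- the exponents of the box -/
private noncomputable def HcA_equiv (K : Fin 3 → ℕ) : {m : Fin 3 →₀ ℕ | ∀ i, m i ≤ K i} ≃
    Fintype.piFinset (fun i => Finset.range (K i + 1)) where
  toFun m := ⟨m.1, by
    rw [Fintype.mem_piFinset]
    intro i
    rw [Finset.mem_range]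
    exact Nat.lt_succ_of_le (m.2 i)⟩
  invFun f := ⟨Finsupp.equivFunOnFinite.symm f.1, fun i => by
    have h := Finset.mem_range.1 (Fintype.mem_piFinset.1 f.2 i)
    exact Nat.le_of_lt_succ h⟩
  left_inv m := Subtype.ext (Finsupp.ext fun _ => rfl)
  right_inv f := Subtype.ext rfl

/-- PROOF. `Bx K` is spanned by (and has as basis) the monomials of the box. -/
theorem finrank_Bx (K : Fin 3 → ℕ) : Module.Finite ℚ (Bx K) ∧
    Module.finrank ℚ (Bx K) = (K 0 + 1) * (K 1 + 1) * (K 2 + 1) := by
  rw [HcA_eq]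
  have h1 : Finite {m : Fin 3 →₀ ℕ | ∀ i, m i ≤ K i} := Finite.of_equiv _ (HcA_equiv K).symm
  have b := MvPolynomial.basisRestrictSupport ℚ {m : Fin 3 →₀ ℕ | ∀ i, m i ≤ K i}
  refine ⟨Module.Finite.of_basis b, ?_⟩
  rw [Module.finrank_eq_nat_card_basis b, Nat.card_congr (HcA_equiv K), Nat.card_eq_fintype_card,
    Fintype.card_coe, Fintype.card_piFinset, Fin.prod_univ_three, Finset.card_range,
    Finset.card_range, Finset.card_range]

end Pool.Agent.Lib.MP_3550b5_nt.AC
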