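import Mathlib
import Pool.Agent.Lib.MP_3550b5_nt.SV.MB

/-!
PROJECT AC, block K (places): finite extensions `F` of `ℚ(X)` with a derivation, and their places.
READ G/Val.lean and SV/Loc.lean FIRST.
-/

namespace Pool.Agent.Lib.MP_3550b5_nt.AC

open G SV Polynomial

/-- `F` is finite over the fraction field of `φ(ℚ[X])`. -/
def FinX {F : Type} [Field F] (φ : ℚ[X] →+* F) : Prop :=
  ∃ (n : ℕ) (w : Fin n → F), ∀ x : F, ∃ (c : Fin n → ℚ[X]) (d : ℚ[X]), d ≠ 0 ∧ φ d * x = ∑ i, φ (c i) * w i

/-- A finite extension of `ℚ(X)` with the derivation which extends `d/dX`. -/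
structure FX {F : Type} [Field F] (φ : ℚ[X] →+* F) (D : Derivation ℤ F F) : Prop where
  inj : Function.Injective φ
  fin : FinX φ
  DX : D (φ X) = 1

variable {F : Type} [Field F] [CharZero F] {φ : ℚ[X] →+* F} {D : Derivation ℤ F F}

private lemma plA_rat (D : Derivation ℤ F F) (q : ℚ) : D (q : F) = 0 := by
  have h1 : (q.den : F) * (q : F) = (q.num : F) := by
    have h2 := Rat.den_mul_eq_num q
    exact_mod_cast congrArg (fun r : ℚ => (r : F)) h2
  have hn : ∀ n : ℤ, D (n : F) = 0 := by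
    intro n
    have h2 := D.map_algebraMap n
    rwa [eq_intCast] at h2
  have hd : D (q.den : F) = 0 := by
    have h2 := hn (q.den : ℤ)
    rwa [Int.cast_natCast] at h2
  have h3 := congrArg D h1
  rw [D.leibniz, hd, smul_zero, add_zero, hn, smul_eq_mul] at h3
  exact (mul_eq_zero.1 h3).resolve_left (Nat.cast_ne_zero.2 q.den_ne_zero)

/-- PROOF. `D` vanishes on rational numbers; `Polynomial.induction_on'`. -/
lemma FX.D_map (h : FX φ D) (f : ℚ[X]) : D (φ f) = φ (derivative f) := by
  induction f using Polynomial.induction_on with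
  | C a =>
    have h1 : φ (C a) = (a : F) := eq_ratCast (φ.comp C) a
    rw [h1, plA_rat, derivative_C, map_zero]
  | add p q hp hq => rw [map_add, map_add, hp, hq, derivative_add, map_add]
  | monomial n a ih =>
    have h1 : C a * X ^ (n + 1) = C a * X ^ n * (X : ℚ[X]) := by
      rw [pow_succ, mul_assoc]
    rw [h1]
    generalize C a * X ^ n = P at ih ⊢
    rw [map_mul, D.leibniz, ih, h.DX, smul_eq_mul, smul_eq_mul, mul_one, derivative_mul,
      derivative_X, mul_one, map_add, map_mul, mul_comm (φ X), add_comm]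

omit [CharZero F] in
private lemma plA_map (φ : ℚ[X] →+* F) (f : ℚ[X]) : eval₂ (φ.comp C) (φ X) f = φ f := by
  rw [← Polynomial.hom_eval₂, eval₂_C_X]

/-- The derivation with respect to `1/X`. PROOF. `inj`: multiply a relation by a power of `φ X`. `FinX`: denominators `d` are polynomials in `1/X`
times a power of `X`: `φ d = (φ X)^k * φ' (reverse d)`. -/
theorem FX.inv (h : FX φ D) : ∃ φ' : ℚ[X] →+* F, φ' X = (φ X)⁻¹ ∧ FX φ' ((-(φ X) ^ 2) • D) := by
  have hx : φ X ≠ 0 := fun h0 => X_ne_zero (h.inj (h0.trans (map_zero φ).symm))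
  -- the value of the reflection
  have key : ∀ (N : ℕ) (f : ℚ[X]), f.natDegree ≤ N →
      eval₂ (φ.comp C) (φ X)⁻¹ (reflect N f) * (φ X) ^ N = φ f := by
    intro N f hf
    let _ : Invertible (φ X) := invertibleOfNonzero hx
    have h1 := eval₂_reflect_mul_pow (φ.comp C) (φ X) N f hf
    rwa [invOf_eq_inv, plA_map] at h1
  have hinj : ∀ f : ℚ[X], eval₂ (φ.comp C) (φ X)⁻¹ f = 0 → f = 0 := by
    intro f hf
    have h1 := key f.natDegree (reflect f.natDegree f) (natDegree_reflect_le.trans (by simp))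
    rw [reflect_reflect, hf, zero_mul] at h1
    have h2 := h.inj (h1.symm.trans (map_zero φ).symm)
    exact (reflect_eq_zero_iff).1 h2
  refine ⟨eval₂RingHom (φ.comp C) (φ X)⁻¹, ?_, ?_, ?_, ?_⟩
  · rw [coe_eval₂RingHom, eval₂_X]
  · rw [injective_iff_map_eq_zero]
    intro f hf
    rw [coe_eval₂RingHom] at hf
    exact hinj f hf
  · obtain ⟨n, w, hw⟩ := h.fin
    refine ⟨n, w, fun z => ?_⟩
    obtain ⟨c, d, hd, hz⟩ := hw z
    set N : ℕ := d.natDegree + ∑ i, (c i).natDegree with hN
    have hNd : d.natDegree ≤ N := Nat.le_add_right _ _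
    have hNc : ∀ i, (c i).natDegree ≤ N := fun i =>
      (Finset.single_le_sum (f := fun i => (c i).natDegree) (fun _ _ => Nat.zero_le _)
        (Finset.mem_univ i)).trans (Nat.le_add_left _ _)
    refine ⟨fun i => reflect N (c i), reflect N d, fun h0 => hd ((reflect_eq_zero_iff).1 h0), ?_⟩
    have hxN : (φ X) ^ N ≠ 0 := pow_ne_zero _ hx
    apply mul_right_cancel₀ hxN
    rw [Finset.sum_mul]
    simp only [coe_eval₂RingHom]
    have h1 : eval₂ (φ.comp C) (φ X)⁻¹ (reflect N d) * z * (φ X) ^ N = φ d * z := by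
      rw [← key N d hNd]
      ring
    rw [h1, hz]
    refine Finset.sum_congr rfl fun i _ => ?_
    rw [← key N (c i) (hNc i)]
    ring
  · rw [Derivation.smul_apply, coe_eval₂RingHom, eval₂_X, D.leibniz_inv, h.DX, smul_eq_mul,
      smul_eq_mul, mul_one]
    field_simp

end Pool.Agent.Lib.MP_3550b5_nt.AC
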