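import Mathlib

/-!
PROJECT AC, block AUX: the coefficients of a factor of a polynomial in two variables over `ℤ`.
`Polynomial (Polynomial ℤ)` = `ℤ[x][y]`.
-/

namespace Pool.Agent.Lib.MP_3550b5_nt.AC

open Polynomial

/-- One variable. PROOF. Mahler measure (Mathlib/Analysis/Polynomial/MahlerMeasure, NumberTheory/MahlerMeasure):
`|coeff_i P| ≤ choose n i M(P) ≤ 2^n M(P)`, `M(P) ≤ M(Q)` since the cofactor is a nonzero integer polynomial (`M ≥ 1`: the measure is at
least the absolute value of the leading coefficient), `M(Q) ≤ ∑ |coeff Q| ≤ (n + 1) H`. -/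
theorem uni_factor {P Q : ℤ[X]} (h : P ∣ Q) (hQ : Q ≠ 0) {n : ℕ} {H : ℤ} (hn : Q.natDegree ≤ n)
    (hc : ∀ i, |Q.coeff i| ≤ H) (i : ℕ) : |P.coeff i| ≤ 2 ^ n * ((n + 1) * H) := by
  obtain ⟨R, rfl⟩ := h
  have hR : R ≠ 0 := right_ne_zero_of_mul hQ
  have hP : P ≠ 0 := left_ne_zero_of_mul hQ
  have hH : 0 ≤ H := (abs_nonneg _).trans (hc 0)
  have hHR : (0 : ℝ) ≤ H := by exact_mod_cast hH
  have hinj : Function.Injective (Int.castRingHom ℂ) := (Int.castRingHom ℂ).injective_int
  have hcn : ∀ (S : ℤ[X]) (j : ℕ), ‖(S.map (Int.castRingHom ℂ)).coeff j‖ = ((|S.coeff j| : ℤ) : ℝ) := by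
    intro S j
    rw [coeff_map, eq_intCast, Int.cast_abs]
    exact Complex.norm_intCast _
  have h1 := norm_coeff_le_choose_mul_mahlerMeasure_of_one_le_mahlerMeasure i
    (P.map (Int.castRingHom ℂ)) (R.map (Int.castRingHom ℂ)) (one_le_mahlerMeasure_of_ne_zero hR)
  rw [← Polynomial.map_mul, hcn P i, natDegree_map_eq_of_injective hinj] at h1
  have h2 : ((P * R).map (Int.castRingHom ℂ)).mahlerMeasure ≤ (n + 1) * H := by
    refine (mahlerMeasure_le_sum_norm_coeff _).trans ?_
    rw [sum_over_range _ fun j => norm_zero, natDegree_map_eq_of_injective hinj]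
    calc ∑ j ∈ Finset.range ((P * R).natDegree + 1), ‖((P * R).map (Int.castRingHom ℂ)).coeff j‖
        ≤ ∑ j ∈ Finset.range ((P * R).natDegree + 1), (H : ℝ) := by
          refine Finset.sum_le_sum fun j _ => ?_
          rw [hcn]
          exact_mod_cast hc j
      _ = ((P * R).natDegree + 1 : ℝ) * H := by
          rw [Finset.sum_const, Finset.card_range, nsmul_eq_mul]
          push_cast
          ring
      _ ≤ (n + 1) * H := by
          refine mul_le_mul_of_nonneg_right ?_ hHR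
          have : ((P * R).natDegree : ℝ) ≤ n := by exact_mod_cast hn
          linarith
  have h3 : ((P.natDegree.choose i : ℕ) : ℝ) ≤ 2 ^ n := by
    have h4 : P.natDegree ≤ n := (natDegree_le_of_dvd (Dvd.intro R rfl) hQ).trans hn
    have h5 : P.natDegree.choose i ≤ 2 ^ n :=
      (Nat.choose_le_two_pow _ _).trans (Nat.pow_le_pow_right (by norm_num) h4)
    exact_mod_cast h5
  have h4 : ((|P.coeff i| : ℤ) : ℝ) ≤ 2 ^ n * ((n + 1) * H) := by
    refine h1.trans (mul_le_mul h3 h2 (mahlerMeasure_nonneg _) (by positivity))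
  exact_mod_cast h4

end Pool.Agent.Lib.MP_3550b5_nt.AC
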