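import Mathlib
import Pool.Agent.Lib.MP_3550b5_nt.AC.PhA

/-!
PROJECT AC, block AUX: the coefficients of a factor of a polynomial in two variables over `ℤ`.
`Polynomial (Polynomial ℤ)` = `ℤ[x][y]`.
-/

namespace Pool.Agent.Lib.MP_3550b5_nt.AC

open Polynomial

private theorem phB_X {Q : ℚ[X]} {M : ℚ} (hM : ∀ i, |Q.coeff i| ≤ M) (i : ℕ) :
    |(X * Q).coeff i| ≤ M := by
  cases i with
  | zero =>
    rw [coeff_X_mul_zero, abs_zero]
    exact (abs_nonneg _).trans (hM 0)
  | succ i =>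
    rw [coeff_X_mul]
    exact hM i

private theorem phB_ar {M V a y u v : ℚ} (hu : |u| ≤ M) (hv : |v| ≤ M) (ha : |a| ≤ 1)
    (hy : |y| ≤ V) : |a * (u - y * v)| ≤ (1 + V) * M := by
  have hM0 : 0 ≤ M := (abs_nonneg _).trans hu
  have h2 : |y * v| ≤ V * M := by
    rw [abs_mul]
    exact mul_le_mul hy hv (abs_nonneg _) ((abs_nonneg _).trans hy)
  have h3 : |u - y * v| ≤ M + V * M := by
    rw [sub_eq_add_neg]
    refine (abs_add_le _ _).trans ?_
    rw [abs_neg]
    exact add_le_add hu h2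
  rw [abs_mul]
  have h4 : 0 ≤ |u - y * v| := abs_nonneg _
  have h5 : 0 ≤ |a| := abs_nonneg _
  nlinarith

private theorem phB_step {Q : ℚ[X]} {M V a y : ℚ} (hM : ∀ i, |Q.coeff i| ≤ M) (ha : |a| ≤ 1)
    (hy : |y| ≤ V) (i : ℕ) : |(C a * (X - C y) * Q).coeff i| ≤ (1 + V) * M := by
  have e : (C a * (X - C y) * Q).coeff i = a * ((X * Q).coeff i - y * Q.coeff i) := by
    rw [mul_assoc, coeff_C_mul, sub_mul, coeff_sub, coeff_C_mul]
  rw [e]
  exact phB_ar (phB_X hM i) (hM i) ha hy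

private theorem phB_prod {V : ℚ} (k : ℤ) (E : Finset ℤ) :
    k ∉ E → (∀ j ∈ E, |(j : ℚ)| ≤ V) → ∀ i : ℕ,
      |(∏ j ∈ E, Lagrange.basisDivisor (k : ℚ) (j : ℚ)).coeff i| ≤ (1 + V) ^ E.card := by
  classical
  induction E using Finset.induction_on with
  | empty =>
    intro _ _ i
    rw [Finset.prod_empty, Finset.card_empty, pow_zero, coeff_one]
    by_cases h : i = 0
    · rw [if_pos h, abs_one]
    · rw [if_neg h, abs_zero]
      exact zero_le_one
  | insert j E hj ih =>
    intro hk hV i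
    rw [Finset.prod_insert hj, Finset.card_insert_of_notMem hj, pow_succ, mul_comm _ (1 + V)]
    rw [Lagrange.basisDivisor]
    refine phB_step (ih (fun h => hk (Finset.mem_insert_of_mem h))
      fun j' hj' => hV j' (Finset.mem_insert_of_mem hj')) ?_ (hV j (Finset.mem_insert_self _ _)) i
    have hne : k ≠ j := fun h => hk (h ▸ Finset.mem_insert_self _ _)
    have h1 : (1 : ℤ) ≤ |k - j| := Int.one_le_abs (sub_ne_zero.2 hne)
    have h2 : (1 : ℚ) ≤ |(k : ℚ) - j| := by exact_mod_cast h1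
    rw [abs_inv]
    exact inv_le_one_of_one_le₀ h2

/-- Interpolation. PROOF. Lagrange interpolation over `ℚ` at `n + 1` of the nodes (`Lagrange.eq_interpolate`): the coefficients of the basis
polynomial `∏ (x - s_j) / (s_k - s_j)` are at most `(1 + V)^n` in absolute value (the denominators are nonzero integers; the sum of the
absolute values of the coefficients is submultiplicative). -/
theorem interp_coeff {P : ℤ[X]} {n : ℕ} (hn : P.natDegree ≤ n) {S : Finset ℤ} (hS : n + 1 ≤ S.card)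
    {V W : ℤ} (hV : ∀ x ∈ S, |x| ≤ V) (hW : ∀ x ∈ S, |P.eval x| ≤ W) (i : ℕ) :
    |P.coeff i| ≤ (n + 1) * (W * (1 + V) ^ n) := by
  classical
  obtain ⟨T, hTS, hT⟩ := Finset.exists_subset_card_eq hS
  obtain ⟨x0, hx0⟩ : S.Nonempty := Finset.card_pos.1 (by omega)
  have hV0 : 0 ≤ V := (abs_nonneg _).trans (hV x0 hx0)
  have hW0 : 0 ≤ W := (abs_nonneg _).trans (hW x0 hx0)
  obtain ⟨f, hf⟩ : ∃ f : ℚ[X], f = P.map (Int.castRingHom ℚ) := ⟨_, rfl⟩
  have hfc : ∀ j, f.coeff j = (P.coeff j : ℚ) := fun j => by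
    rw [hf, coeff_map, eq_intCast]
  have hfe : ∀ x : ℤ, f.eval (x : ℚ) = ((P.eval x : ℤ) : ℚ) := fun x => by
    rw [hf]
    exact eval_intCast_map (Int.castRingHom ℚ) P x
  have hdeg : f.degree < (T.card : WithBot ℕ) := by
    rw [hT]
    refine lt_of_le_of_lt degree_le_natDegree ?_
    have h1 : f.natDegree ≤ n := by
      rw [hf]
      exact natDegree_map_le.trans hn
    exact_mod_cast Nat.lt_succ_of_le h1
  have hinj : Set.InjOn (fun x : ℤ => (x : ℚ)) (T : Set ℤ) := fun x _ y _ h => by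
    have h' : (x : ℚ) = (y : ℚ) := h
    exact_mod_cast h'
  have h1 := Lagrange.eq_interpolate hinj hdeg
  rw [Lagrange.interpolate_apply] at h1
  have h2 : |f.coeff i| ≤ (n + 1) * (W * (1 + V) ^ n) := by
    rw [h1, finsetSum_coeff]
    refine (Finset.abs_sum_le_sum_abs _ _).trans ?_
    calc ∑ k ∈ T, |(C (f.eval (k : ℚ)) * Lagrange.basis T (fun x : ℤ => (x : ℚ)) k).coeff i|
        ≤ ∑ k ∈ T, (W : ℚ) * (1 + V) ^ n := by
          refine Finset.sum_le_sum fun k hk => ?_
          rw [coeff_C_mul, abs_mul, hfe]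
          refine mul_le_mul ?_ ?_ (abs_nonneg _) (by exact_mod_cast hW0)
          · exact_mod_cast hW k (hTS hk)
          · have h3 := phB_prod (V := (V : ℚ)) k (T.erase k) (Finset.notMem_erase k T)
              (fun j hj => by exact_mod_cast hV j (hTS (Finset.mem_of_mem_erase hj))) i
            rw [Finset.card_erase_of_mem hk, hT, Nat.add_sub_cancel] at h3
            exact h3
      _ = (n + 1) * (W * (1 + V) ^ n) := by
          rw [Finset.sum_const, hT, nsmul_eq_mul]
          push_cast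
          ring
  rw [hfc] at h2
  exact_mod_cast h2

end Pool.Agent.Lib.MP_3550b5_nt.AC
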