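import Mathlib
import Pool.Agent.Lib.MP_3550b5_nt.AC.PhB

/-!
PROJECT AC, block AUX: the coefficients of a factor of a polynomial in two variables over `ℤ`.
`Polynomial (Polynomial ℤ)` = `ℤ[x][y]`.
-/

namespace Pool.Agent.Lib.MP_3550b5_nt.AC

open Polynomial

private theorem ph_coeff_swap (P : ℤ[X][X]) (i j : ℕ) :
    ((Polynomial.Bivariate.swap P).coeff i).coeff j = (P.coeff j).coeff i := by
  induction P using Polynomial.induction_on' with
  | add p q hp hq =>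
    rw [map_add, Polynomial.coeff_add, Polynomial.coeff_add, hp, hq, Polynomial.coeff_add,
      Polynomial.coeff_add]
  | monomial n f =>
    induction f using Polynomial.induction_on' with
    | add p q hp hq =>
      rw [map_add, map_add, Polynomial.coeff_add, Polynomial.coeff_add, hp, hq,
        Polynomial.coeff_add, Polynomial.coeff_add]
    | monomial m r =>
      rw [Polynomial.Bivariate.swap_monomial_monomial, Polynomial.coeff_monomial,
        Polynomial.coeff_monomial]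
      by_cases h1 : m = i <;> by_cases h2 : n = j <;>
        simp [h1, h2, Polynomial.coeff_monomial]

private theorem ph_swap_ne {P : ℤ[X][X]} (hP : P ≠ 0) : Polynomial.Bivariate.swap P ≠ 0 :=
  (map_ne_zero_iff _ (Polynomial.Bivariate.swap (R := ℤ)).injective).mpr hP

private theorem ph_deg {P Q : ℤ[X][X]} (h : P ∣ Q) (hQ : Q ≠ 0) {n₁ : ℕ}
    (h1 : ∀ j, (Q.coeff j).natDegree ≤ n₁) (j : ℕ) : (P.coeff j).natDegree ≤ n₁ := by
  obtain ⟨R, rfl⟩ := h
  have hP : P ≠ 0 := left_ne_zero_of_mul hQ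
  have hR : R ≠ 0 := right_ne_zero_of_mul hQ
  have e : (Polynomial.Bivariate.swap (P * R)).natDegree =
      (Polynomial.Bivariate.swap P).natDegree + (Polynomial.Bivariate.swap R).natDegree := by
    rw [map_mul, Polynomial.natDegree_mul (ph_swap_ne hP) (ph_swap_ne hR)]
  have h2 : (Polynomial.Bivariate.swap (P * R)).natDegree ≤ n₁ := by
    rw [Polynomial.natDegree_le_iff_coeff_eq_zero]
    intro N hN
    ext k
    rw [ph_coeff_swap, Polynomial.coeff_eq_zero_of_natDegree_lt (lt_of_le_of_lt (h1 k) hN),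
      Polynomial.coeff_zero]
  rw [Polynomial.natDegree_le_iff_coeff_eq_zero]
  intro N hN
  have h3 : (Polynomial.Bivariate.swap P).coeff N = 0 :=
    Polynomial.coeff_eq_zero_of_natDegree_lt (by omega)
  rw [← ph_coeff_swap, h3, Polynomial.coeff_zero]

/-- The value of a polynomial with small coefficients. -/
private theorem ph_eval {f : ℤ[X]} {n₁ hh c : ℕ} (hf : f.natDegree ≤ n₁)
    (hc : ∀ i, |f.coeff i| ≤ 2 ^ hh) (hn : 2 * n₁ + 2 ≤ 2 ^ c) {x : ℤ} (hx : |x| ≤ 2 * n₁) :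
    |f.eval x| ≤ 2 ^ (hh + c * (n₁ + 1)) := by
  have hx' : |x| ≤ 2 ^ c := by
    have h1 : ((2 * n₁ + 2 : ℕ) : ℤ) ≤ ((2 ^ c : ℕ) : ℤ) := by exact_mod_cast hn
    push_cast at h1
    linarith
  have h1c : (1 : ℤ) ≤ 2 ^ c := one_le_pow₀ (by norm_num)
  rw [Polynomial.eval_eq_sum_range' (Nat.lt_succ_of_le hf)]
  refine (Finset.abs_sum_le_sum_abs _ _).trans ?_
  have h2 : ∀ i ∈ Finset.range (n₁ + 1), |f.coeff i * x ^ i| ≤ 2 ^ hh * 2 ^ (c * n₁) := by
    intro i hi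
    have hi' : i ≤ n₁ := Nat.lt_succ_iff.1 (Finset.mem_range.1 hi)
    rw [abs_mul, abs_pow]
    refine mul_le_mul (hc i) ?_ (by positivity) (by positivity)
    calc |x| ^ i ≤ (2 ^ c) ^ i := pow_le_pow_left₀ (abs_nonneg x) hx' i
      _ ≤ (2 ^ c) ^ n₁ := pow_le_pow_right₀ h1c hi'
      _ = 2 ^ (c * n₁) := by rw [← pow_mul]
  refine (Finset.sum_le_sum h2).trans ?_
  rw [Finset.sum_const, Finset.card_range, nsmul_eq_mul]
  have h3 : ((n₁ + 1 : ℕ) : ℤ) ≤ 2 ^ c := by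
    have h1 : n₁ + 1 ≤ 2 ^ c := by omega
    exact_mod_cast h1
  calc ((n₁ + 1 : ℕ) : ℤ) * (2 ^ hh * 2 ^ (c * n₁)) ≤ 2 ^ c * (2 ^ hh * 2 ^ (c * n₁)) :=
        mul_le_mul_of_nonneg_right h3 (by positivity)
    _ = 2 ^ (hh + c * (n₁ + 1)) := by
        rw [← pow_add, ← pow_add]
        congr 1
        ring

/-- TWO VARIABLES. PROOF. `S` = the `x ∈ {0, .., 2 n₁}` with `Q(x, ·) ≠ 0`: at least `n₁ + 1` elements (a nonzero coefficient of `Q` has at most `n₁`
zeros). For `x ∈ S`: `P(x, ·) ∣ Q(x, ·)`, `uni_factor` with `H = (n₁ + 1) 2^h (2 n₁)^n₁` (or `(2^c)^n₁`). Then `interp_coeff` for `P.coeff j`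
(its degree in `x` is at most `n₁`: the degree in `x` is additive, `natDegree` of the swapped polynomial, or: the supremum of the degrees of
the coefficients; see `dX` in TP/Ver/Gen.lean). -/
theorem biv_factor {P Q : ℤ[X][X]} (h : P ∣ Q) (hQ : Q ≠ 0) {n₁ n₂ hh c : ℕ} (h2 : Q.natDegree ≤ n₂)
    (h1 : ∀ j, (Q.coeff j).natDegree ≤ n₁) (hc : ∀ i j, |(Q.coeff j).coeff i| ≤ 2 ^ hh)
    (hn : 2 * n₁ + 2 ≤ 2 ^ c) :
    (∀ i j, |(P.coeff j).coeff i| ≤ 2 ^ (hh + 4 * (n₁ + 1) * c + 2 * (n₂ + 1))) ∧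
      ∀ j, (P.coeff j).natDegree ≤ n₁ := by
  classical
  have hdeg := ph_deg h hQ h1
  refine ⟨fun i j => ?_, hdeg⟩
  obtain ⟨k, hk⟩ : ∃ k, Q.coeff k ≠ 0 := by
    by_contra hcon
    push Not at hcon
    exact hQ (Polynomial.ext fun n => by rw [hcon n, Polynomial.coeff_zero])
  obtain ⟨T, hT⟩ : ∃ T : Finset ℤ, T = (Finset.range (2 * n₁ + 1)).image (fun x : ℕ => (x : ℤ)) :=
    ⟨_, rfl⟩
  have hTcard : T.card = 2 * n₁ + 1 := by
    rw [hT, Finset.card_image_of_injective _ Nat.cast_injective, Finset.card_range]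
  have hTabs : ∀ x ∈ T, |x| ≤ 2 * n₁ := by
    intro x hx
    rw [hT, Finset.mem_image] at hx
    obtain ⟨m, hm, rfl⟩ := hx
    have hm' := Finset.mem_range.1 hm
    rw [abs_of_nonneg (by positivity)]
    have : m ≤ 2 * n₁ := by omega
    exact_mod_cast this
  obtain ⟨S, hS⟩ : ∃ S : Finset ℤ, S = T.filter (fun x => Q.map (Polynomial.evalRingHom x) ≠ 0) :=
    ⟨_, rfl⟩
  have hScard : n₁ + 1 ≤ S.card := by
    have hbad : T.filter (fun x => ¬ Q.map (Polynomial.evalRingHom x) ≠ 0) ⊆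
        (Q.coeff k).roots.toFinset := by
      intro x hx
      rw [Finset.mem_filter, not_not] at hx
      rw [Multiset.mem_toFinset, Polynomial.mem_roots hk, Polynomial.IsRoot.def]
      have h3 := congrArg (fun f : ℤ[X] => f.coeff k) hx.2
      simpa [Polynomial.coeff_map] using h3
    have hb1 := (Finset.card_le_card hbad).trans ((Multiset.toFinset_card_le _).trans
      ((Polynomial.card_roots' (Q.coeff k)).trans (h1 k)))
    have hb2 := Finset.card_filter_add_card_filter_not (s := T)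
      (fun x => Q.map (Polynomial.evalRingHom x) ≠ 0)
    rw [← hS, hTcard] at hb2
    omega
  have hST : ∀ x ∈ S, |x| ≤ 2 * n₁ := fun x hx => by
    rw [hS] at hx
    exact hTabs x (Finset.mem_filter.1 hx).1
  obtain ⟨W, hW⟩ : ∃ W : ℤ, W = 2 ^ n₂ * ((n₂ + 1) * 2 ^ (hh + c * (n₁ + 1))) := ⟨_, rfl⟩
  have hWx : ∀ x ∈ S, |(P.coeff j).eval x| ≤ W := by
    intro x hx
    have hxne : Q.map (Polynomial.evalRingHom x) ≠ 0 := by
      rw [hS] at hx
      exact (Finset.mem_filter.1 hx).2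
    have h3 := uni_factor (P := P.map (Polynomial.evalRingHom x))
      (Q := Q.map (Polynomial.evalRingHom x)) (Polynomial.map_dvd _ h) hxne (n := n₂)
      (H := 2 ^ (hh + c * (n₁ + 1))) (Polynomial.natDegree_map_le.trans h2) (fun m => by
        rw [Polynomial.coeff_map, Polynomial.coe_evalRingHom]
        exact ph_eval (h1 m) (fun i => hc i m) hn (hST x hx)) j
    rw [Polynomial.coeff_map, Polynomial.coe_evalRingHom] at h3
    rw [hW]
    exact h3
  have h4 := interp_coeff (hdeg j) hScard hST hWx i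
  refine h4.trans ?_
  have h1c : (1 : ℤ) ≤ 2 ^ c := one_le_pow₀ (by norm_num)
  have k1 : ((n₁ : ℤ) + 1) ≤ 2 ^ c := by
    have h1 : n₁ + 1 ≤ 2 ^ c := by omega
    exact_mod_cast h1
  have k2 : (1 + 2 * (n₁ : ℤ)) ≤ 2 ^ c := by
    have h1 : 1 + 2 * n₁ ≤ 2 ^ c := by omega
    exact_mod_cast h1
  have k3 : ((n₂ : ℤ) + 1) ≤ 2 ^ n₂ := by
    have h1 : n₂ + 1 ≤ 2 ^ n₂ := Nat.lt_two_pow_self
    exact_mod_cast h1
  have k4 : (1 + 2 * (n₁ : ℤ)) ^ n₁ ≤ 2 ^ (c * n₁) := by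
    rw [pow_mul]
    exact pow_le_pow_left₀ (by positivity) k2 n₁
  have k5 : W ≤ 2 ^ (n₂ + n₂ + (hh + c * (n₁ + 1))) := by
    have e : (2 : ℤ) ^ (n₂ + n₂ + (hh + c * (n₁ + 1))) =
        2 ^ n₂ * (2 ^ n₂ * 2 ^ (hh + c * (n₁ + 1))) := by
      rw [pow_add 2 (n₂ + n₂), pow_add 2 n₂ n₂, mul_assoc]
    rw [hW, e]
    exact mul_le_mul_of_nonneg_left (mul_le_mul_of_nonneg_right k3 (by positivity)) (by positivity)
  have hW0 : 0 ≤ W := by rw [hW]; positivity
  calc ((n₁ : ℤ) + 1) * (W * (1 + 2 * (n₁ : ℤ)) ^ n₁)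
      ≤ 2 ^ c * (2 ^ (n₂ + n₂ + (hh + c * (n₁ + 1))) * 2 ^ (c * n₁)) := by
        refine mul_le_mul k1 (mul_le_mul k5 k4 (by positivity) (by positivity)) ?_ (by positivity)
        exact mul_nonneg hW0 (by positivity)
    _ = 2 ^ (c + (n₂ + n₂ + (hh + c * (n₁ + 1)) + c * n₁)) := by
        rw [← pow_add, ← pow_add]
    _ ≤ 2 ^ (hh + 4 * (n₁ + 1) * c + 2 * (n₂ + 1)) := by
        refine pow_le_pow_right₀ (by norm_num) ?_
        nlinarith [Nat.zero_le (c * n₁), Nat.zero_le c]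

end Pool.Agent.Lib.MP_3550b5_nt.AC
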