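import Mathlib

/-!
PROJECT AC, block AUX: the squarefree part of a polynomial in `ℤ[x][y]`, and the common zeros of `P` and `∂P/∂y`.
-/

namespace Pool.Agent.Lib.MP_3550b5_nt.AC

open Polynomial

/-- `ℤ[x][y] → ℚ(x)[y]`. -/
noncomputable def toF : ℤ[X][X] →+* (FractionRing ℤ[X])[X] :=
  Polynomial.mapRingHom (algebraMap ℤ[X] (FractionRing ℤ[X]))

private lemma PqA_aux (Q : ℤ[X][X]) : Q ≠ 0 →
    ∃ (P : ℤ[X][X]) (c : ℤ[X]), P ∣ Q ∧ c ≠ 0 ∧ C c ∣ Q ∧ (toF P).Separable ∧
      ∀ x y : ℤ, evalEval x y Q = 0 → evalEval x y P = 0 ∨ c.eval x = 0 := by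
  induction Q using UniqueFactorizationMonoid.induction_on_prime with
  | h₁ => intro h; exact absurd rfl h
  | h₂ u hu =>
    intro _
    refine ⟨1, 1, one_dvd _, one_ne_zero, by simp, by simp [separable_one], ?_⟩
    intro x y h0
    exfalso
    have h1 : IsUnit (evalEvalRingHom x y u) := hu.map _
    rw [coe_evalEvalRingHom, h0] at h1
    exact not_isUnit_zero h1
  | h₃ Q q hQ hq ih =>
    intro _
    obtain ⟨P, c, hP, hc, hcQ, hsep, hz⟩ := ih hQ
    have hmul : ∀ (x y : ℤ) (f g : ℤ[X][X]), evalEval x y (f * g) = evalEval x y f * evalEval x y g := by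
      intro x y f g
      simp [evalEval]
    by_cases hd : q.natDegree = 0
    · obtain ⟨q0, rfl⟩ : ∃ q0, q = C q0 := ⟨_, eq_C_of_natDegree_eq_zero hd⟩
      have hq0 : q0 ≠ 0 := by
        rintro rfl
        exact hq.ne_zero (by simp)
      refine ⟨P, q0 * c, hP.mul_left _, mul_ne_zero hq0 hc, ?_, hsep, ?_⟩
      · rw [C_mul]
        exact mul_dvd_mul_left _ hcQ
      · intro x y h0
        rw [hmul, evalEval_C, mul_eq_zero] at h0
        rcases h0 with h0 | h0
        · right
          rw [eval_mul, h0, zero_mul]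
        · rcases hz x y h0 with h1 | h1
          · exact Or.inl h1
          · right
            rw [eval_mul, h1, mul_zero]
    · by_cases hqP : q ∣ P
      · refine ⟨P, c, hP.mul_left _, hc, hcQ.mul_left _, hsep, ?_⟩
        intro x y h0
        rw [hmul, mul_eq_zero] at h0
        rcases h0 with h0 | h0
        · left
          obtain ⟨r, rfl⟩ := hqP
          rw [hmul, h0, zero_mul]
        · exact hz x y h0
      · have hprim : q.IsPrimitive := hq.irreducible.isPrimitive hd
        have hirr : Irreducible (toF q) :=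
          (hprim.irreducible_iff_irreducible_map_fraction_map (K := FractionRing ℤ[X])).1 hq.irreducible
        refine ⟨q * P, c, mul_dvd_mul_left _ hP, hc, hcQ.mul_left _, ?_, ?_⟩
        · rw [map_mul]
          refine Separable.mul hirr.separable hsep ?_
          rw [hirr.coprime_iff_not_dvd]
          intro h1
          exact hqP (hprim.dvd_of_fraction_map_dvd_fraction_map (K := FractionRing ℤ[X]) h1)
        · intro x y h0
          rw [hmul, mul_eq_zero] at h0
          rcases h0 with h0 | h0
          · left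
            rw [hmul, h0, zero_mul]
          · rcases hz x y h0 with h1 | h1
            · left
              rw [hmul, h1, mul_zero]
            · exact Or.inr h1

/-- THE SQUAREFREE PART. PROOF. Factor `Q` into irreducible elements of the UFD `ℤ[x][y]`. `P` = the product of the distinct (up to units) factors
of positive degree in `y`, `c` = the product of the factors of degree `0` in `y` (they are `C` of polynomials in `x`; their product divides
`Q`, so its degree is at most `n₁`). `toF` of an irreducible factor of positive degree is irreducible (Gauss: it is primitive,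
`IsPrimitive.irreducible_iff_irreducible_map_fraction_map`), distinct factors stay non-associated
(`IsPrimitive.dvd_iff_fraction_map_dvd_fraction_map`), so `toF P` is squarefree, and over a field of characteristic `0` squarefree =
separable (`PerfectField.separable_iff_squarefree`). -/
theorem exists_sqf {Q : ℤ[X][X]} (hQ : Q ≠ 0) {n₁ : ℕ} (h1 : ∀ j, (Q.coeff j).natDegree ≤ n₁) :
    ∃ (P : ℤ[X][X]) (c : ℤ[X]), P ∣ Q ∧ c ≠ 0 ∧ c.natDegree ≤ n₁ ∧ (toF P).Separable ∧
      ∀ x y : ℤ, evalEval x y Q = 0 → evalEval x y P = 0 ∨ c.eval x = 0 := by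
  obtain ⟨P, c, hP, hc, hcQ, hsep, hz⟩ := PqA_aux Q hQ
  refine ⟨P, c, hP, hc, ?_, hsep, hz⟩
  obtain ⟨j, hj⟩ : ∃ j, Q.coeff j ≠ 0 := by
    by_contra hcon
    push Not at hcon
    exact hQ (Polynomial.ext (by simpa using hcon))
  exact (natDegree_le_of_dvd ((C_dvd_iff_dvd_coeff c Q).1 hcQ j) hj).trans (h1 j)

end Pool.Agent.Lib.MP_3550b5_nt.AC
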