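import Mathlib
import Pool.Agent.Lib.MP_3550b5_nt.AC.PqA

/-!
PROJECT AC, block AUX: the squarefree part of a polynomial in `ℤ[x][y]`, and the common zeros of `P` and `∂P/∂y`.
-/

namespace Pool.Agent.Lib.MP_3550b5_nt.AC

open Polynomial

private theorem pq_natDegree_det {k : ℕ} (M : Matrix (Fin k) (Fin k) ℤ[X]) {D : ℕ}
    (h : ∀ i j, (M i j).natDegree ≤ D) : M.det.natDegree ≤ k * D := by
  rw [Matrix.det_apply']
  refine natDegree_sum_le_of_forall_le _ _ fun σ _ => ?_
  refine natDegree_mul_le.trans ?_
  rw [natDegree_intCast, zero_add]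
  refine (natDegree_prod_le _ _).trans ?_
  refine (Finset.sum_le_card_nsmul _ _ D fun i _ => h _ _).trans ?_
  simp

private theorem pq_coeff_derivative {P : ℤ[X][X]} {n₁ : ℕ} (h1 : ∀ j, (P.coeff j).natDegree ≤ n₁)
    (j : ℕ) : ((derivative P).coeff j).natDegree ≤ n₁ := by
  rw [coeff_derivative]
  have h2 : ((j : ℤ[X]) + 1) = ((j + 1 : ℕ) : ℤ[X]) := by push_cast; rfl
  rw [h2]
  refine natDegree_mul_le.trans ?_
  rw [natDegree_natCast, add_zero]
  exact h1 _

/-- THE RESULTANT. PROOF. Mathlib: `Polynomial.resultant` (RingTheory/Polynomial/Resultant/Basic): `R = resultant P P'` lies in the ideal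
`(P, P')`, is not `0` as `toF P` and its derivative are coprime, and is a determinant of size at most `2 n₂` whose entries have degree at most
`n₁` (`natDegree_det...`; expand with `Matrix.det_apply`). (`P` constant in `y`: `R = P.coeff 0`.) Alternative without resultants: linear
algebra over `ℚ(x)` and Cramer. -/
theorem exists_disc {P : ℤ[X][X]} (hP : (toF P).Separable) {n₁ n₂ : ℕ} (h2 : P.natDegree ≤ n₂)
    (h1 : ∀ j, (P.coeff j).natDegree ≤ n₁) :
    ∃ R : ℤ[X], R ≠ 0 ∧ R.natDegree ≤ 2 * n₁ * (n₂ + 1) ∧
      ∀ x y : ℤ, evalEval x y P = 0 → evalEval x y (derivative P) = 0 → R.eval x = 0 := by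
  have hinj : Function.Injective (algebraMap ℤ[X] (FractionRing ℤ[X])) :=
    IsFractionRing.injective ℤ[X] (FractionRing ℤ[X])
  have hP0 : P ≠ 0 := by
    rintro rfl
    rw [map_zero] at hP
    exact not_separable_zero hP
  by_cases hN : P.natDegree = 0
  · obtain ⟨c, hc⟩ := natDegree_eq_zero.1 hN
    refine ⟨c, ?_, ?_, fun x y hx _ => ?_⟩
    · rintro rfl
      apply hP0
      rw [← hc, C_0]
    · have h3 := h1 0
      rw [← hc, coeff_C_zero] at h3
      nlinarith
    · rw [← hc, evalEval_C] at hx
      exact hx
  · refine ⟨P.resultant (derivative P), ?_, ?_, fun x y hx hy => ?_⟩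
    · intro h0
      have h3 : (toF P).resultant (derivative (toF P)) ≠ 0 := resultant_ne_zero _ _ hP
      apply h3
      have h4 : derivative (toF P) = (derivative P).map (algebraMap ℤ[X] (FractionRing ℤ[X])) := by
        rw [toF, coe_mapRingHom, derivative_map]
      rw [h4, toF, coe_mapRingHom, natDegree_map_eq_of_injective hinj,
        natDegree_map_eq_of_injective hinj, resultant_map_map, h0, map_zero]
    · unfold resultant
      refine (pq_natDegree_det (D := n₁) _ fun i j => ?_).trans ?_
      · unfold sylvester
        rw [Matrix.of_apply]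
        induction j using Fin.addCases with
        | left j =>
          rw [Fin.addCases_left]
          split_ifs
          · exact pq_coeff_derivative h1 _
          · simp
        | right j =>
          rw [Fin.addCases_right]
          split_ifs
          · exact h1 _
          · simp
      · have h3 : (derivative P).natDegree ≤ P.natDegree :=
          (natDegree_derivative_le P).trans (Nat.sub_le _ _)
        nlinarith
    · obtain ⟨p, q, -, -, h3⟩ := exists_mul_add_mul_eq_C_resultant P (derivative P) le_rfl le_rfl
        (Or.inl hN)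
      have h4 := congrArg (evalEval x y) h3
      rw [evalEval_add, evalEval_mul, evalEval_mul, hx, hy, zero_mul, zero_mul, add_zero,
        evalEval_C] at h4
      exact h4.symm

end Pool.Agent.Lib.MP_3550b5_nt.AC
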