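import Mathlib
import Pool.Agent.Lib.MP_3550b5_nt.AC.XfA

/-!
PROJECT AC, block AUX: the auxiliary polynomials `F` and `G`.
-/

namespace Pool.Agent.Lib.MP_3550b5_nt.AC

open MvPolynomial

variable {p : ℕ} [hp : Fact p.Prime]

/-- Polynomials over `ℚ`. -/
noncomputable def toQ : Q3 →+* MvPolynomial (Fin 3) ℚ := MvPolynomial.map (Int.castRingHom ℚ)

/-- The box of exponents `m i ≤ c i`. -/
private noncomputable def xbx (c : Fin 3 → ℕ) : Finset (Fin 3 →₀ ℕ) :=
  (Fintype.piFinset fun i : Fin 3 => Finset.range (c i + 1)).map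
    Finsupp.equivFunOnFinite.symm.toEmbedding

private lemma mem_xbx {c : Fin 3 → ℕ} {m : Fin 3 →₀ ℕ} : m ∈ xbx c ↔ ∀ i, m i ≤ c i := by
  rw [xbx, Finset.mem_map_equiv, Equiv.symm_symm, Fintype.mem_piFinset]
  exact forall_congr' fun i => by
    rw [Finset.mem_range, Nat.lt_succ_iff]
    rfl

private lemma card_xbx (c : Fin 3 → ℕ) : (xbx c).card = ∏ i, (c i + 1) := by
  rw [xbx, Finset.card_map, Fintype.card_piFinset]
  exact Finset.prod_congr rfl fun i _ => Finset.card_range _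

private lemma xbx_mem {c : Fin 3 → ℕ} {P : MvPolynomial (Fin 3) ℚ} :
    P ∈ restrictSupport ℚ (↑(xbx c) : Set (Fin 3 →₀ ℕ)) ↔ ∀ i, P.degreeOf i ≤ c i := by
  rw [mem_restrictSupport_iff]
  constructor
  · intro h i
    rw [degreeOf_le_iff]
    intro m hm
    exact mem_xbx.1 (Finset.mem_coe.1 (h (Finset.mem_coe.2 hm))) i
  · intro h m hm
    rw [Finset.mem_coe, mem_xbx]
    intro i
    exact (monomial_le_degreeOf i (Finset.mem_coe.1 hm)).trans (h i)

private lemma xbx_finrank (c : Fin 3 → ℕ) :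
    Module.finrank ℚ (restrictSupport ℚ (↑(xbx c) : Set (Fin 3 →₀ ℕ))) = ∏ i, (c i + 1) := by
  rw [Module.finrank_eq_card_basis (basisRestrictSupport ℚ (↑(xbx c) : Set (Fin 3 →₀ ℕ))),
    ← card_xbx]
  exact Fintype.card_coe (xbx c)

private lemma xbx_finite (c : Fin 3 → ℕ) :
    Module.Finite ℚ (restrictSupport ℚ (↑(xbx c) : Set (Fin 3 →₀ ℕ))) :=
  Module.Finite.of_basis (basisRestrictSupport ℚ (↑(xbx c) : Set (Fin 3 →₀ ℕ)))

/-- The dimension of the image of the box in the quotient by the multiples of `f`. -/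
private lemma xbx_quot {f : MvPolynomial (Fin 3) ℚ} (hf : f ≠ 0) {c : Fin 3 → ℕ}
    (hc : ∀ i, f.degreeOf i ≤ c i) :
    Module.finrank ℚ ((restrictSupport ℚ (↑(xbx c) : Set (Fin 3 →₀ ℕ))).map
      (LinearMap.range (LinearMap.mulLeft ℚ f)).mkQ) + ∏ i, (c i - f.degreeOf i + 1)
      = ∏ i, (c i + 1) := by
  have := xbx_finite c
  set V := restrictSupport ℚ (↑(xbx c) : Set (Fin 3 →₀ ℕ)) with hV
  set U := restrictSupport ℚ (↑(xbx (fun i => c i - f.degreeOf i)) : Set (Fin 3 →₀ ℕ)) with hU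
  set W := LinearMap.range (LinearMap.mulLeft ℚ f) with hW
  have hUV : ∀ h : U, (LinearMap.mulLeft ℚ f ∘ₗ U.subtype) h ∈ V := by
    intro h
    rw [hV, xbx_mem]
    intro i
    have h1 := xbx_mem.1 h.2 i
    have h2 : (f * (h : MvPolynomial (Fin 3) ℚ)).degreeOf i ≤
        f.degreeOf i + (h : MvPolynomial (Fin 3) ℚ).degreeOf i := degreeOf_mul_le _ _ _
    have h3 := hc i
    change (f * (h : MvPolynomial (Fin 3) ℚ)).degreeOf i ≤ c i
    omega
  let ψ : U →ₗ[ℚ] V := LinearMap.codRestrict V (LinearMap.mulLeft ℚ f ∘ₗ U.subtype) hUV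
  have hψ : ∀ h : U, ((ψ h : V) : MvPolynomial (Fin 3) ℚ) = f * h := fun h => rfl
  have hinj : Function.Injective ψ := by
    intro a b hab
    have h1 : f * (a : MvPolynomial (Fin 3) ℚ) = f * b := by
      rw [← hψ, ← hψ, hab]
    exact Subtype.ext (mul_left_cancel₀ hf h1)
  have hker : LinearMap.range ψ = LinearMap.ker (W.mkQ ∘ₗ V.subtype) := by
    ext x
    rw [LinearMap.mem_range, LinearMap.mem_ker, LinearMap.comp_apply, Submodule.mkQ_apply,
      Submodule.Quotient.mk_eq_zero, Submodule.subtype_apply]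
    constructor
    · rintro ⟨h, rfl⟩
      rw [hψ, hW, LinearMap.mem_range]
      exact ⟨(h : MvPolynomial (Fin 3) ℚ), rfl⟩
    · intro hx
      rw [hW, LinearMap.mem_range] at hx
      obtain ⟨y, hy⟩ := hx
      rw [LinearMap.mulLeft_apply] at hy
      have hyU : y ∈ U := by
        rw [hU, xbx_mem]
        intro i
        rcases eq_or_ne y 0 with h0 | h0
        · rw [h0, degreeOf_zero]
          exact Nat.zero_le _
        · have h1 := xbx_mem.1 x.2 i
          rw [← hy, degreeOf_mul_eq hf h0] at h1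
          change _ ≤ c i - f.degreeOf i
          omega
      refine ⟨⟨y, hyU⟩, Subtype.ext ?_⟩
      rw [hψ, ← hy]
  have h1 := LinearMap.finrank_range_add_finrank_ker (W.mkQ ∘ₗ V.subtype)
  rw [← hker, LinearMap.finrank_range_of_inj hinj, LinearMap.range_comp, Submodule.range_subtype,
    hU, xbx_finrank, hV, xbx_finrank] at h1
  exact h1

private lemma toQ_coeff (Φ : Q3) (m : Fin 3 →₀ ℕ) : (toQ Φ).coeff m = ((Φ.coeff m : ℤ) : ℚ) := by
  rw [toQ, coeff_map]
  rfl

private lemma toQ_support (Φ : Q3) : (toQ Φ).support = Φ.support := by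
  ext m
  rw [mem_support_iff, mem_support_iff, toQ_coeff, Ne, Ne, Int.cast_eq_zero]

private lemma toQ_degreeOf (Φ : Q3) (i : Fin 3) : (toQ Φ).degreeOf i = Φ.degreeOf i := by
  rw [degreeOf_eq_sup, degreeOf_eq_sup, toQ_support]

/-- COMPLEMENTARY MONOMIALS. PROOF. `V` = span over `ℚ` of the monomials of the box, of dimension `(K+1)(w+1)^2`; `W` = the multiples of
`F` in `V` = `F *` (span of the monomials `m` with `m i ≤ (K, w, w)_i - degreeOf i F`) (`degreeOf_mul_eq`: degrees are additive). The images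
of the monomials span `V / W`, so some subset `MM` is a basis of `V / W` (`exists_linearIndependent_extension`-like, `Submodule.exists_fun_fin...`,
or `Module.Basis.ofVectorSpace` of the span of a finite set); no nonzero combination is in `W`. -/
theorem exists_compl {F : Q3} (hF : F ≠ 0) {K w : ℕ} (h0 : F.degreeOf 0 ≤ K) (h1 : F.degreeOf 1 ≤ w)
    (h2 : F.degreeOf 2 ≤ w) : ∃ MM ⊆ box K w,
      MM.card + (K + 1 - F.degreeOf 0) * ((w + 1 - F.degreeOf 1) * (w + 1 - F.degreeOf 2)) = (K + 1) * (w + 1) ^ 2 ∧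
      ∀ Φ : Q3, Φ.support ⊆ MM → toQ F ∣ toQ Φ → Φ = 0 := by
  classical
  set f := toQ F with hfdef
  have hf : f ≠ 0 := by
    intro h
    obtain ⟨m, hm⟩ := ne_zero_iff.1 hF
    have h1 := toQ_coeff F m
    rw [← hfdef, h, coeff_zero] at h1
    exact hm (Int.cast_eq_zero.1 h1.symm)
  let c : Fin 3 → ℕ := ![K, w, w]
  have hc : ∀ i, f.degreeOf i ≤ c i := by
    intro i
    rw [hfdef, toQ_degreeOf]
    fin_cases i
    · exact h0
    · exact h1
    · exact h2
  set W := LinearMap.range (LinearMap.mulLeft ℚ f) with hW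
  have hbox : ∀ m : Fin 3 →₀ ℕ, m ∈ box K w ↔ m ∈ xbx c := by
    intro m
    rw [mem_box, mem_xbx]
    constructor
    · rintro ⟨a, b, d⟩ i
      fin_cases i
      · exact a
      · exact b
      · exact d
    · intro h
      exact ⟨h 0, h 1, h 2⟩
  let v : {m // m ∈ box K w} → (MvPolynomial (Fin 3) ℚ ⧸ W) := fun m => W.mkQ (monomial m.1 1)
  obtain ⟨κ, a, ha, hspan, hli⟩ := exists_linearIndependent' ℚ v
  let _ : Fintype κ := Fintype.ofInjective a ha
  have hcard : (Finset.univ.image fun k : κ => (a k).1).card = Fintype.card κ := by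
    rw [Finset.card_image_of_injective Finset.univ
      (f := fun k : κ => (a k).1) (fun x y hxy => ha (Subtype.ext hxy)), Finset.card_univ]
  refine ⟨Finset.univ.image fun k : κ => (a k).1, ?_, ?_, ?_⟩
  · intro m hm
    obtain ⟨k, -, rfl⟩ := Finset.mem_image.1 hm
    exact (a k).2
  · have hfr : Fintype.card κ = Module.finrank ℚ (Submodule.span ℚ (Set.range v)) := by
      rw [← hspan, finrank_span_eq_card hli]
    have hsp : Submodule.span ℚ (Set.range v) =
        (restrictSupport ℚ (↑(xbx c) : Set (Fin 3 →₀ ℕ))).map W.mkQ := by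
      rw [restrictSupport_eq_span, Submodule.map_span]
      congr 1
      ext y
      constructor
      · rintro ⟨m, rfl⟩
        exact ⟨monomial m.1 1, ⟨m.1, Finset.mem_coe.2 ((hbox m.1).1 m.2), rfl⟩, rfl⟩
      · rintro ⟨z, ⟨m, hm, rfl⟩, rfl⟩
        exact ⟨⟨m, (hbox m).2 (Finset.mem_coe.1 hm)⟩, rfl⟩
    have h3 := xbx_quot hf hc
    rw [← hW, ← hsp, ← hfr, Fin.prod_univ_three, Fin.prod_univ_three] at h3
    rw [hcard]
    have e0 : f.degreeOf 0 = F.degreeOf 0 := toQ_degreeOf F 0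
    have e1 : f.degreeOf 1 = F.degreeOf 1 := toQ_degreeOf F 1
    have e2 : f.degreeOf 2 = F.degreeOf 2 := toQ_degreeOf F 2
    rw [e0, e1, e2] at h3
    have g0 : c 0 - F.degreeOf 0 + 1 = K + 1 - F.degreeOf 0 := by
      change K - F.degreeOf 0 + 1 = K + 1 - F.degreeOf 0
      omega
    have g1 : c 1 - F.degreeOf 1 + 1 = w + 1 - F.degreeOf 1 := by
      change w - F.degreeOf 1 + 1 = w + 1 - F.degreeOf 1
      omega
    have g2 : c 2 - F.degreeOf 2 + 1 = w + 1 - F.degreeOf 2 := by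
      change w - F.degreeOf 2 + 1 = w + 1 - F.degreeOf 2
      omega
    rw [g0, g1, g2, mul_assoc] at h3
    rw [h3, pow_two, ← mul_assoc]
    rfl
  · intro Φ hΦ hdvd
    have h3 : W.mkQ (toQ Φ) = 0 := by
      rw [Submodule.mkQ_apply, Submodule.Quotient.mk_eq_zero, hW, LinearMap.mem_range]
      obtain ⟨q, hq⟩ := hdvd
      exact ⟨q, by rw [LinearMap.mulLeft_apply, ← hq]⟩
    have h4 : toQ Φ = ∑ k : κ, ((Φ.coeff (a k).1 : ℤ) : ℚ) • monomial (a k).1 (1 : ℚ) := by
      have h5 : toQ Φ = ∑ m ∈ Finset.univ.image (fun k : κ => (a k).1),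
          monomial m ((toQ Φ).coeff m) := by
        conv_lhs => rw [as_sum (toQ Φ)]
        refine Finset.sum_subset ?_ ?_
        · rw [toQ_support]
          exact hΦ
        · intro m _ hm
          rw [notMem_support_iff.1 hm, map_zero]
      rw [h5, Finset.sum_image (fun x _ y _ hxy => ha (Subtype.ext hxy))]
      refine Finset.sum_congr rfl fun k _ => ?_
      rw [toQ_coeff, smul_monomial, smul_eq_mul, mul_one]
    rw [h4, map_sum] at h3
    have h6 : ∑ k : κ, ((Φ.coeff (a k).1 : ℤ) : ℚ) • (v ∘ a) k = 0 := by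
      rw [← h3]
      exact Finset.sum_congr rfl fun k _ => by rw [map_smul]; rfl
    have h7 := Fintype.linearIndependent_iff.1 hli _ h6
    ext m
    rw [coeff_zero]
    by_contra hm
    have h8 := hΦ (mem_support_iff.2 hm)
    obtain ⟨k, -, hk⟩ := Finset.mem_image.1 h8
    have h9 := h7 k
    rw [Int.cast_eq_zero] at h9
    rw [← hk] at hm
    exact hm h9

end Pool.Agent.Lib.MP_3550b5_nt.AC
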