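import Mathlib
import Pool.Agent.Lib.MP_3550b5_nt.AC.Xf
import Pool.Agent.Lib.MP_3550b5_nt.AC.Ph
import Pool.Agent.Lib.MP_3550b5_nt.AC.Pq

/-!
PROJECT AC, block AUX: the polynomials `Ψ₀(b, D)` and `Ψ₁(b, A)`.
-/

namespace Pool.Agent.Lib.MP_3550b5_nt.AC

open MvPolynomial

variable {p : ℕ} [hp : Fact p.Prime]

/-- `ℤ[x][y] → ℤ[b, D, A]`, `x ↦ b`, `y ↦ X j`. -/
noncomputable def em (j : Fin 3) : Polynomial (Polynomial ℤ) →+* Q3 :=
  Polynomial.eval₂RingHom (Polynomial.eval₂RingHom C (X 0)) (X j)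

lemma eval_em (j : Fin 3) (v : Fin 3 → ℤ) (Q : Polynomial (Polynomial ℤ)) :
    eval v (em j Q) = Polynomial.evalEval (v 0) (v j) Q := by
  have key : (eval v).comp (em j) = Polynomial.evalEvalRingHom (v 0) (v j) := by
    refine Polynomial.ringHom_ext' (Polynomial.ringHom_ext' ?_ ?_) ?_
    · exact RingHom.ext_int _ _
    · change eval v (em j (Polynomial.C Polynomial.X)) =
        Polynomial.evalEval (v 0) (v j) (Polynomial.C Polynomial.X)
      have h1 : em j (Polynomial.C Polynomial.X) = X 0 := by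
        unfold em
        rw [Polynomial.coe_eval₂RingHom, Polynomial.eval₂_C, Polynomial.coe_eval₂RingHom,
          Polynomial.eval₂_X]
      rw [h1, eval_X, Polynomial.evalEval_C, Polynomial.eval_X]
    · change eval v (em j Polynomial.X) = Polynomial.evalEval (v 0) (v j) Polynomial.X
      have h1 : em j Polynomial.X = X j := by
        unfold em
        rw [Polynomial.coe_eval₂RingHom, Polynomial.eval₂_X]
      rw [h1, eval_X, Polynomial.evalEval_X]
  exact RingHom.congr_fun key Q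

/-- The exponent with entries `i` at `0` and `k` at `j`. -/
private noncomputable def xpa_m (j : Fin 3) (i k : ℕ) : Fin 3 →₀ ℕ :=
  Finsupp.single 0 i + Finsupp.single j k

private lemma xpa_eq {j : Fin 3} (hj : j ≠ 0) {m : Fin 3 →₀ ℕ}
    (h : ∀ i, i ≠ 0 → i ≠ j → m i = 0) : xpa_m j (m 0) (m j) = m := by
  ext i
  unfold xpa_m
  rw [Finsupp.add_apply]
  by_cases h0 : i = 0
  · subst h0
    rw [Finsupp.single_eq_same, Finsupp.single_eq_of_ne hj.symm, add_zero]
  · by_cases h1 : i = j
    · subst h1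
      rw [Finsupp.single_eq_of_ne h0, Finsupp.single_eq_same, zero_add]
    · rw [Finsupp.single_eq_of_ne h0, Finsupp.single_eq_of_ne h1, h i h0 h1, add_zero]

private lemma xpa_mon (j : Fin 3) (i k : ℕ) (a : ℤ) :
    em j (Polynomial.monomial k (Polynomial.monomial i a)) = monomial (xpa_m j i k) a := by
  unfold em xpa_m
  rw [Polynomial.coe_eval₂RingHom, Polynomial.eval₂_monomial, Polynomial.coe_eval₂RingHom,
    Polynomial.eval₂_monomial, MvPolynomial.X_pow_eq_monomial, MvPolynomial.X_pow_eq_monomial,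
    C_mul_monomial, monomial_mul, mul_one, mul_one]

/-- A combination of the monomials `b^i (X j)^k` is a polynomial in two variables. PROOF. `Q = ∑ m, (coeff m Φ) x^(m 0) y^(m j)`. -/
lemma exists_biv {j : Fin 3} (hj : j ≠ 0) {Φ : Q3} (hΦ : Φ ≠ 0) {K w la : ℕ}
    (h : ∀ m ∈ Φ.support, m 0 ≤ K ∧ m j ≤ w ∧ ∀ i, i ≠ 0 → i ≠ j → m i = 0) (hc : ∀ m, |Φ.coeff m| ≤ 2 ^ la) :
    ∃ Q : Polynomial (Polynomial ℤ), Q ≠ 0 ∧ em j Q = Φ ∧ Q.natDegree ≤ w ∧ (∀ k, (Q.coeff k).natDegree ≤ K) ∧
      ∀ i k, |(Q.coeff k).coeff i| ≤ 2 ^ la := by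
  classical
  obtain ⟨Q, hQ⟩ : ∃ Q : Polynomial (Polynomial ℤ), Q = ∑ m ∈ Φ.support,
    Polynomial.monomial (m j) (Polynomial.monomial (m 0) (Φ.coeff m)) := ⟨_, rfl⟩
  have h1 : em j Q = Φ := by
    rw [hQ, map_sum]
    refine Eq.trans ?_ Φ.support_sum_monomial_coeff
    refine Finset.sum_congr rfl fun m hm => ?_
    rw [xpa_mon, xpa_eq hj (h m hm).2.2]
  have h2 : ∀ k, Q.coeff k = ∑ m ∈ Φ.support,
      if m j = k then Polynomial.monomial (m 0) (Φ.coeff m) else 0 := by
    intro k
    rw [hQ, Polynomial.finset_sum_coeff]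
    exact Finset.sum_congr rfl fun m _ => Polynomial.coeff_monomial
  have h3 : ∀ i k, (Q.coeff k).coeff i = Φ.coeff (xpa_m j i k) := by
    intro i k
    rw [h2, Polynomial.finset_sum_coeff, Finset.sum_eq_single (xpa_m j i k)]
    · have e1 : xpa_m j i k j = k := by
        unfold xpa_m
        rw [Finsupp.add_apply, Finsupp.single_eq_of_ne hj, Finsupp.single_eq_same, zero_add]
      have e2 : xpa_m j i k 0 = i := by
        unfold xpa_m
        rw [Finsupp.add_apply, Finsupp.single_eq_of_ne hj.symm, Finsupp.single_eq_same, add_zero]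
      rw [if_pos e1, e2, Polynomial.coeff_monomial, if_pos rfl]
    · intro m hm hne
      by_cases hk : m j = k
      · rw [if_pos hk, Polynomial.coeff_monomial, if_neg]
        intro hi
        apply hne
        rw [← xpa_eq hj (h m hm).2.2, hi, hk]
      · rw [if_neg hk, Polynomial.coeff_zero]
    · intro hn
      rw [notMem_support_iff.1 hn]
      split_ifs
      · rw [Polynomial.monomial_zero_right, Polynomial.coeff_zero]
      · rw [Polynomial.coeff_zero]
  refine ⟨Q, ?_, h1, ?_, ?_, ?_⟩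
  · rintro rfl
    rw [map_zero] at h1
    exact hΦ h1.symm
  · rw [hQ]
    exact Polynomial.natDegree_sum_le_of_forall_le _ _ fun m hm =>
      (Polynomial.natDegree_monomial_le _).trans (h m hm).2.1
  · intro k
    rw [h2]
    refine Polynomial.natDegree_sum_le_of_forall_le _ _ fun m hm => ?_
    split_ifs
    · exact (Polynomial.natDegree_monomial_le _).trans (h m hm).1
    · rw [Polynomial.natDegree_zero]
      exact Nat.zero_le _
  · intro i k
    rw [h3]
    exact hc _

end Pool.Agent.Lib.MP_3550b5_nt.AC
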