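import Mathlib
import Pool.Agent.Lib.MP_3550b5_nt.AC.Dl
import Pool.Agent.Lib.MP_3550b5_nt.AC.Xp
import Pool.Agent.Lib.MP_3550b5_nt.AC.PlA
import Pool.Agent.Lib.MP_3550b5_nt.AC.HcA

/-!
PROJECT AC, block CURVE: the function field of a curve `𝔭` of `ℚ[b, D, A]` which contains `Ψ₀(b, D)` and `Ψ₁(b, A)`.
-/

namespace Pool.Agent.Lib.MP_3550b5_nt.AC

open SV Polynomial

open scoped TensorProduct in
/-- A derivation of `A` with values in a formally étale algebra extends. -/
private theorem cvA_der {A F : Type} [CommRing A] [CommRing F] [Algebra ℚ A] [Algebra A F]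
    [Algebra ℚ F] [IsScalarTower ℚ A F] [Algebra.FormallyEtale A F] (d : Derivation ℚ A F) :
    ∃ D : Derivation ℚ F F, ∀ x, D (algebraMap A F x) = d x := by
  refine ⟨((LinearMap.liftBaseChange F d.liftKaehlerDifferential) ∘ₗ
    (KaehlerDifferential.tensorKaehlerEquivOfFormallyEtale ℚ A F).symm.toLinearMap).compDer
      (KaehlerDifferential.D ℚ F), fun x => ?_⟩
  change (LinearMap.liftBaseChange F d.liftKaehlerDifferential)
    ((KaehlerDifferential.tensorKaehlerEquivOfFormallyEtale ℚ A F).symm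
      (KaehlerDifferential.D ℚ F (algebraMap A F x))) = d x
  rw [KaehlerDifferential.tensorKaehlerEquivOfFormallyEtale_symm_D_algebraMap,
    LinearMap.liftBaseChange_tmul, Derivation.liftKaehlerDifferential_comp_D, one_smul]

/-- The chain rule. -/
private theorem cvA_chain {F : Type} [Field F] (D : Derivation ℤ F F) (π : Q3 →+* F) (G : Q3) :
    D (π G) = π (MvPolynomial.pderiv 0 G) * D (π (MvPolynomial.X 0)) +
      π (MvPolynomial.pderiv 1 G) * D (π (MvPolynomial.X 1)) +
      π (MvPolynomial.pderiv 2 G) * D (π (MvPolynomial.X 2)) := by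
  induction G using MvPolynomial.induction_on with
  | C a =>
    have h1 : π (MvPolynomial.C a) = (a : F) := eq_intCast (π.comp MvPolynomial.C) a
    have h2 := D.map_algebraMap a
    rw [eq_intCast] at h2
    rw [h1, h2, MvPolynomial.pderiv_C, MvPolynomial.pderiv_C, MvPolynomial.pderiv_C, map_zero]
    ring
  | add p q hp hq =>
    simp only [map_add, hp, hq]
    ring
  | mul_X p n hp =>
    have h3 : ∀ i, π (MvPolynomial.pderiv i (p * MvPolynomial.X n)) =
        π p * π (MvPolynomial.pderiv i (MvPolynomial.X n)) +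
          π (MvPolynomial.X n) * π (MvPolynomial.pderiv i p) := by
      intro i
      rw [Derivation.leibniz, smul_eq_mul, smul_eq_mul, map_add, map_mul, map_mul]
    rw [h3, h3, h3, map_mul, D.leibniz, smul_eq_mul, smul_eq_mul, hp]
    have h4 : D (π (MvPolynomial.X n)) =
        π (MvPolynomial.pderiv 0 (MvPolynomial.X n)) * D (π (MvPolynomial.X 0)) +
        π (MvPolynomial.pderiv 1 (MvPolynomial.X n)) * D (π (MvPolynomial.X 1)) +
        π (MvPolynomial.pderiv 2 (MvPolynomial.X n)) * D (π (MvPolynomial.X 2)) := by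
      have h5 : ∀ i j : Fin 3, MvPolynomial.pderiv i (MvPolynomial.X j : Q3) =
          if i = j then 1 else 0 := by
        intro i j
        by_cases hij : i = j
        · rw [if_pos hij, hij, MvPolynomial.pderiv_X_self]
        · rw [if_neg hij, MvPolynomial.pderiv_X_of_ne (Ne.symm hij)]
      rw [h5, h5, h5]
      fin_cases n <;> simp
    linear_combination (π p) * h4

/-- The derivatives of `Ψ (b, X j)`. -/
private theorem cvA_em {i j : Fin 3} (hi : i ≠ 0) (hij : i ≠ j) (P : Polynomial (Polynomial ℤ)) :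
    MvPolynomial.pderiv i (em j P) = 0 := by
  have h0 : ∀ a : Polynomial ℤ,
      MvPolynomial.pderiv i (Polynomial.eval₂ MvPolynomial.C (MvPolynomial.X 0 : Q3) a) = 0 := by
    intro a
    induction a using Polynomial.induction_on' with
    | add p q hp hq => rw [Polynomial.eval₂_add, map_add, hp, hq, add_zero]
    | monomial n a =>
      rw [Polynomial.eval₂_monomial, MvPolynomial.pderiv_C_mul, Derivation.leibniz_pow,
        MvPolynomial.pderiv_X_of_ne (Ne.symm hi), smul_zero, smul_zero, mul_zero]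
  unfold em
  rw [Polynomial.coe_eval₂RingHom]
  induction P using Polynomial.induction_on' with
  | add p q hp hq => rw [Polynomial.eval₂_add, map_add, hp, hq, add_zero]
  | monomial n a =>
    rw [Polynomial.eval₂_monomial, Polynomial.coe_eval₂RingHom, Derivation.leibniz, h0,
      Derivation.leibniz_pow, MvPolynomial.pderiv_X_of_ne (Ne.symm hij), smul_zero, smul_zero,
      smul_zero, smul_zero, add_zero]

/-- The general construction. -/
private theorem cvA_ext {F : Type} [Field F] [CharZero F] (φ : ℚ[X] →+* F)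
    (hφ : Function.Injective φ) {x y : F}
    (hx : ∃ P : Polynomial ℚ[X], P ≠ 0 ∧ Polynomial.eval₂ φ x P = 0)
    (hy : ∃ P : Polynomial ℚ[X], P ≠ 0 ∧ Polynomial.eval₂ φ y P = 0)
    (hg : ∀ S : Subfield F, (∀ g, φ g ∈ S) → x ∈ S → y ∈ S → S = ⊤) :
    ∃ D : Derivation ℤ F F, FX φ D := by
  algebraize [φ]
  have hf : FaithfulSMul ℚ[X] F := (faithfulSMul_iff_algebraMap_injective ℚ[X] F).2 hφ
  let K := FractionRing ℚ[X]
  let _ : Algebra K F := FractionRing.liftAlgebra ℚ[X] F
  have _ : IsScalarTower ℚ[X] K F := FractionRing.isScalarTower_liftAlgebra ℚ[X] F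
  have hint : ∀ z : F, (∃ P : Polynomial ℚ[X], P ≠ 0 ∧ Polynomial.eval₂ φ z P = 0) →
      IsIntegral K z := by
    rintro z ⟨P, hP, hz⟩
    have h1 : IsAlgebraic ℚ[X] z := ⟨P, hP, hz⟩
    exact (h1.extendScalars (IsFractionRing.injective ℚ[X] K)).isIntegral
  have hfd : FiniteDimensional K (IntermediateField.adjoin K ({x, y} : Set F)) := by
    refine IntermediateField.finiteDimensional_adjoin ?_
    rintro z (rfl | rfl)
    · exact hint _ hx
    · exact hint _ hy
  have htop : IntermediateField.adjoin K ({x, y} : Set F) = ⊤ := by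
    have h1 := hg (IntermediateField.adjoin K ({x, y} : Set F)).toSubfield ?_ ?_ ?_
    · rw [← IntermediateField.toSubfield_inj, h1]
      rfl
    · intro g
      have h2 : φ g = algebraMap K F (algebraMap ℚ[X] K g) := by
        rw [← IsScalarTower.algebraMap_apply]
        rfl
      rw [h2]
      exact IntermediateField.algebraMap_mem _ _
    · exact IntermediateField.subset_adjoin K _ (Set.mem_insert _ _)
    · exact IntermediateField.subset_adjoin K _ (Set.mem_insert_of_mem _ rfl)
  have hF : FiniteDimensional K F := by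
    rw [htop] at hfd
    exact Module.Finite.equiv (IntermediateField.topEquiv (F := K) (E := F)).toLinearEquiv
  have hfin : FinX φ := by
    let b := Module.finBasis K F
    refine ⟨Module.finrank K F, b, fun z => ?_⟩
    obtain ⟨d, hd⟩ := IsLocalization.exist_integer_multiples_of_finite (nonZeroDivisors ℚ[X])
      (fun i => b.repr z i)
    choose c hc using hd
    refine ⟨c, d, nonZeroDivisors.ne_zero d.2, ?_⟩
    have h2 : ∀ g : ℚ[X], φ g = algebraMap K F (algebraMap ℚ[X] K g) := by
      intro g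
      rw [← IsScalarTower.algebraMap_apply]
      rfl
    have h3 : z = ∑ i, b.repr z i • b i := (b.sum_repr z).symm
    conv_lhs => rw [h3]
    rw [Finset.mul_sum]
    refine Finset.sum_congr rfl fun i _ => ?_
    rw [h2, h2, hc i, Algebra.smul_def, Algebra.smul_def, map_mul]
    ring
  have hloc : Algebra.FormallyEtale ℚ[X] K :=
    Algebra.FormallyEtale.of_isLocalization (nonZeroDivisors ℚ[X])
  have hsep : Algebra.FormallyEtale K F := Algebra.FormallyEtale.of_isSeparable K F
  have het : Algebra.FormallyEtale ℚ[X] F := Algebra.FormallyEtale.comp ℚ[X] K F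
  obtain ⟨D, hD⟩ := cvA_der ((Algebra.linearMap ℚ[X] F).compDer
    (Polynomial.derivative' : Derivation ℚ ℚ[X] ℚ[X]))
  refine ⟨D.restrictScalars ℤ, hφ, hfin, ?_⟩
  rw [Derivation.restrictScalars_apply]
  have h1 := hD X
  change D (φ X) = _ at h1
  rw [h1]
  change φ (derivative X) = 1
  rw [derivative_X, map_one]

/-- THE FUNCTION FIELD. PROOF. `F = FractionRing (R3 / 𝔭)`, `φ = ` (`X ↦ X 0`), injective by `hor`. `D`, `A` are algebraic over `φ(ℚ[X])`: `Ψ₀(b, D) = 0` where
`Ψ₀(b, ·) ≠ 0` as `Ψ₀ ≠ 0` (`Ψ₀_D ∉ 𝔭`) and `φ` is injective; so `F = K(D, A)` is finite over `K = Frac φ(ℚ[X])` (`FinX`). The derivation: `d/dX` of `K` extends to the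
finite separable extension `F` (Mathlib: FieldTheory/Differential/Basic `differentialFiniteDimensional`, or Kähler differentials / formally étale
extensions, or by hand: adjoin one algebraic element at a time). Chain rule: `D (π G) = π G_b + π G_D D(π (X 1)) + π G_A D(π (X 2))`, and `Ψ₀ = 0` gives
`π Ψ₀_b + π Ψ₀_D D (π (X 1)) = 0`, the same for `Ψ₁`; multiply by `q π(Ψ₀_D Ψ₁_A)`. -/
theorem exists_curve_field {𝔭 : Ideal R3} (hp : 𝔭.IsPrime)
    (hor : ∀ g : ℚ[X], Polynomial.aeval (MvPolynomial.X 0 : R3) g ∈ 𝔭 → g = 0) (q : ℤ) (P₀ P₁ : Polynomial (Polynomial ℤ))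
    (h0 : toQ (em 1 P₀) ∈ 𝔭) (h0' : toQ (MvPolynomial.pderiv 1 (em 1 P₀)) ∉ 𝔭)
    (h1 : toQ (em 2 P₁) ∈ 𝔭) (h1' : toQ (MvPolynomial.pderiv 2 (em 2 P₁)) ∉ 𝔭) :
    ∃ (F : Type) (_ : Field F) (_ : CharZero F) (φ : ℚ[X] →+* F) (D : Derivation ℤ F F) (π : Q3 →+* F),
      FX φ D ∧ (∀ G, π G = 0 ↔ toQ G ∈ 𝔭) ∧ π (MvPolynomial.X 0) = φ X ∧
      ∀ G, π (dL q (em 1 P₀) (em 2 P₁) G) =
        (q * π (MvPolynomial.pderiv 1 (em 1 P₀)) * π (MvPolynomial.pderiv 2 (em 2 P₁))) * D (π G) := by
  let A := R3 ⧸ 𝔭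
  have hdom : IsDomain A := Ideal.Quotient.isDomain 𝔭
  let F := FractionRing A
  have hinjA : Function.Injective (algebraMap A F) := IsFractionRing.injective A F
  let ρ : R3 →+* F := (algebraMap A F).comp (Ideal.Quotient.mk 𝔭)
  have hρ : ∀ G, ρ G = 0 ↔ G ∈ 𝔭 := by
    intro G
    change algebraMap A F (Ideal.Quotient.mk 𝔭 G) = 0 ↔ _
    rw [map_eq_zero_iff _ hinjA, Ideal.Quotient.eq_zero_iff_mem]
  let φ : ℚ[X] →+* F := ρ.comp (Polynomial.aeval (MvPolynomial.X 0 : R3)).toRingHom
  have hφ0 : ∀ g, φ g = ρ (Polynomial.aeval (MvPolynomial.X 0 : R3) g) := fun g => rfl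
  have hφ : Function.Injective φ := by
    rw [injective_iff_map_eq_zero]
    intro g hg
    exact hor g ((hρ _).1 hg)
  have hchar : CharZero F := by
    refine ⟨fun m n hmn => ?_⟩
    have h2 : φ (m : ℚ[X]) = φ (n : ℚ[X]) := by
      rw [map_natCast, map_natCast]
      exact hmn
    exact_mod_cast hφ h2
  let π : Q3 →+* F := ρ.comp toQ
  have hπ : ∀ G, π G = 0 ↔ toQ G ∈ 𝔭 := fun G => hρ (toQ G)
  have hX : π (MvPolynomial.X 0) = φ X := by
    change ρ (toQ (MvPolynomial.X 0)) = ρ (Polynomial.aeval (MvPolynomial.X 0 : R3) X)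
    rw [Polynomial.aeval_X, toQ, MvPolynomial.map_X]
  -- the polynomials
  have hem : ∀ (j : Fin 3) (P : Polynomial (Polynomial ℤ)),
      π (em j P) = Polynomial.eval₂ φ (π (MvPolynomial.X j))
        (P.map (Polynomial.mapRingHom (Int.castRingHom ℚ))) := by
    intro j P
    have h2 : π.comp (em j) = (Polynomial.eval₂RingHom φ (π (MvPolynomial.X j))).comp
        (Polynomial.mapRingHom (Polynomial.mapRingHom (Int.castRingHom ℚ))) := by
      refine Polynomial.ringHom_ext' (Polynomial.ringHom_ext' (RingHom.ext_int _ _) ?_) ?_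
      · simp only [RingHom.comp_apply, em, Polynomial.coe_eval₂RingHom, Polynomial.eval₂_C,
          Polynomial.eval₂_X, Polynomial.coe_mapRingHom, Polynomial.map_C, Polynomial.map_X]
        exact hX
      · simp only [RingHom.comp_apply, em, Polynomial.coe_eval₂RingHom,
          Polynomial.eval₂_X, Polynomial.coe_mapRingHom, Polynomial.map_X]
    exact RingHom.congr_fun h2 P
  have halg : ∀ (j : Fin 3) (P : Polynomial (Polynomial ℤ)), toQ (em j P) ∈ 𝔭 →
      toQ (MvPolynomial.pderiv j (em j P)) ∉ 𝔭 →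
      ∃ P' : Polynomial ℚ[X], P' ≠ 0 ∧ Polynomial.eval₂ φ (π (MvPolynomial.X j)) P' = 0 := by
    intro j P h2 h3
    refine ⟨P.map (Polynomial.mapRingHom (Int.castRingHom ℚ)), ?_, ?_⟩
    · intro h4
      apply h3
      have h5 : P = 0 := by
        refine (Polynomial.map_eq_zero_iff ?_).1 h4
        exact Polynomial.map_injective _ Int.cast_injective
      rw [h5, map_zero, map_zero, map_zero]
      exact 𝔭.zero_mem
    · rw [← hem]
      exact (hπ _).2 h2
  obtain ⟨D, hD⟩ := cvA_ext φ hφ (halg 1 P₀ h0 h0') (halg 2 P₁ h1 h1') (by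
    intro S hS hx hy
    rw [eq_top_iff]
    intro z _
    have h2 : ∀ G : R3, ρ G ∈ S := by
      intro G
      induction G using MvPolynomial.induction_on with
      | C a =>
        have h3 : (MvPolynomial.C a : R3) = Polynomial.aeval (MvPolynomial.X 0 : R3) (C a) := by
          rw [Polynomial.aeval_C]
          rfl
        rw [h3, ← hφ0]
        exact hS _
      | add p q hp hq =>
        rw [map_add]
        exact S.add_mem hp hq
      | mul_X p n hp =>
        rw [map_mul]
        refine S.mul_mem hp ?_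
        have h4 : ρ (MvPolynomial.X n) = π (MvPolynomial.X n) := by
          change ρ (MvPolynomial.X n) = ρ (toQ (MvPolynomial.X n))
          rw [toQ, MvPolynomial.map_X]
        rw [h4]
        fin_cases n
        · rw [show ((fun i => i) ⟨0, by decide⟩ : Fin 3) = 0 from rfl]
          exact hX ▸ hS X
        · exact hx
        · exact hy
    obtain ⟨a, b, _, rfl⟩ := IsFractionRing.div_surjective A z
    obtain ⟨a, rfl⟩ := Ideal.Quotient.mk_surjective a
    obtain ⟨b, rfl⟩ := Ideal.Quotient.mk_surjective b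
    exact S.div_mem (h2 a) (h2 b))
  refine ⟨F, inferInstance, hchar, φ, D, π, hD, hπ, hX, fun G => ?_⟩
  have e0 := cvA_chain D π (em 1 P₀)
  have e1 := cvA_chain D π (em 2 P₁)
  rw [(hπ _).2 h0, hX, hD.DX, map_zero, cvA_em (i := 2) (by decide) (by decide), map_zero] at e0
  rw [(hπ _).2 h1, hX, hD.DX, map_zero, cvA_em (i := 1) (by decide) (by decide), map_zero] at e1
  rw [dL_apply, cvA_chain D π G, hX, hD.DX]
  simp only [map_mul, map_sub, map_intCast]
  generalize D (π (MvPolynomial.X 1)) = d1 at *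
  generalize D (π (MvPolynomial.X 2)) = d2 at *
  linear_combination ((q : F) * π (MvPolynomial.pderiv 2 (em 2 P₁)) *
    π (MvPolynomial.pderiv 1 G)) * e0 + ((q : F) * π (MvPolynomial.pderiv 1 (em 1 P₀)) *
    π (MvPolynomial.pderiv 2 G)) * e1

end Pool.Agent.Lib.MP_3550b5_nt.AC
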