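import Mathlib
import Pool.Agent.Lib.MP_3550b5_nt.AC.CvA

/-!
PROJECT AC, block CURVE: the function field of a curve `𝔭` of `ℚ[b, D, A]` which contains `Ψ₀(b, D)` and `Ψ₁(b, A)`.
-/

namespace Pool.Agent.Lib.MP_3550b5_nt.AC

open SV Polynomial

private theorem Cv_h0 {i : Fin 3} (hi : i ≠ 0) (a : Polynomial ℤ) :
    MvPolynomial.pderiv i (Polynomial.eval₂ MvPolynomial.C (MvPolynomial.X 0 : Q3) a) = 0 := by
  induction a using Polynomial.induction_on' with
  | add p q hp hq => rw [Polynomial.eval₂_add, map_add, hp, hq, add_zero]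
  | monomial n a =>
    rw [Polynomial.eval₂_monomial, MvPolynomial.pderiv_C_mul, Derivation.leibniz_pow,
      MvPolynomial.pderiv_X_of_ne (Ne.symm hi), smul_zero, smul_zero, mul_zero]

/-- PROOF. `em j` and partial derivatives. -/
lemma pderiv_em (P : Polynomial (Polynomial ℤ)) {j : Fin 3} (hj : j ≠ 0) :
    MvPolynomial.pderiv j (em j P) = em j (Polynomial.derivative P) ∧
      ∀ i, i ≠ 0 → i ≠ j → MvPolynomial.pderiv i (em j P) = 0 := by
  unfold em
  rw [Polynomial.coe_eval₂RingHom]
  constructor
  · induction P using Polynomial.induction_on' with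
    | add p q hp hq => rw [Polynomial.eval₂_add, map_add, hp, hq, derivative_add,
        Polynomial.eval₂_add]
    | monomial n a =>
      rw [Polynomial.eval₂_monomial, Polynomial.coe_eval₂RingHom, Derivation.leibniz, Cv_h0 hj,
        Derivation.leibniz_pow, MvPolynomial.pderiv_X_self, smul_zero, add_zero,
        derivative_monomial, Polynomial.eval₂_monomial, Polynomial.coe_eval₂RingHom,
        Polynomial.eval₂_mul, Polynomial.eval₂_natCast, smul_eq_mul, smul_eq_mul, mul_one,
        nsmul_eq_mul]
      ring
  · intro i hi hij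
    induction P using Polynomial.induction_on' with
    | add p q hp hq => rw [Polynomial.eval₂_add, map_add, hp, hq, add_zero]
    | monomial n a =>
      rw [Polynomial.eval₂_monomial, Polynomial.coe_eval₂RingHom, Derivation.leibniz, Cv_h0 hi,
        Derivation.leibniz_pow, MvPolynomial.pderiv_X_of_ne (Ne.symm hij), smul_zero, smul_zero,
        smul_zero, smul_zero, add_zero]

end Pool.Agent.Lib.MP_3550b5_nt.AC
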