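import Mathlib
import Pool.Agent.Lib.MP_3550b5_nt.AC.PlA

/-!
PROJECT AC, block R: square roots in finite extensions of `ℚ(X)` with a derivation.
-/

namespace Pool.Agent.Lib.MP_3550b5_nt.AC

open G SV Polynomial

private theorem ext_finX {F : Type} [Field F] {φ : ℚ[X] →+* F} {ι : Type} [Fintype ι] (w : ι → F)
    (h : ∀ x : F, ∃ (c : ι → ℚ[X]) (d : ℚ[X]), d ≠ 0 ∧ φ d * x = ∑ i, φ (c i) * w i) :
    FinX φ := by
  refine ⟨Fintype.card ι, w ∘ (Fintype.equivFin ι).symm, fun x => ?_⟩
  obtain ⟨c, d, hd, hx⟩ := h x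
  refine ⟨c ∘ (Fintype.equivFin ι).symm, d, hd, ?_⟩
  rw [hx]
  exact (Equiv.sum_comp (Fintype.equivFin ι).symm fun i => φ (c i) * w i).symm

private theorem ext_finX_comp {F F' : Type} [Field F] [Field F'] [Algebra F F']
    [FiniteDimensional F F'] {φ : ℚ[X] →+* F} (h : FinX φ) :
    FinX ((algebraMap F F').comp φ) := by
  classical
  obtain ⟨n, w, hw⟩ := h
  let b := Module.finBasis F F'
  apply ext_finX (ι := Fin (Module.finrank F F') × Fin n)
    fun q => algebraMap F F' (w q.2) * b q.1
  intro x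
  choose c d hd hx using fun j => hw (b.repr x j)
  refine ⟨fun q => (∏ l ∈ Finset.univ.erase q.1, d l) * c q.1 q.2, ∏ l, d l,
    Finset.prod_ne_zero_iff.2 fun l _ => hd l, ?_⟩
  have h1 : ∀ j, φ (∏ l, d l) * b.repr x j =
      ∑ i, φ ((∏ l ∈ Finset.univ.erase j, d l) * c j i) * w i := by
    intro j
    rw [← Finset.mul_prod_erase Finset.univ d (Finset.mem_univ j), mul_comm (d j), map_mul,
      mul_assoc, hx j, Finset.mul_sum]
    refine Finset.sum_congr rfl fun i _ => ?_
    rw [map_mul, mul_assoc]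
  rw [RingHom.comp_apply]
  calc algebraMap F F' (φ (∏ l, d l)) * x
      = algebraMap F F' (φ (∏ l, d l)) * ∑ j, b.repr x j • b j := by rw [b.sum_repr]
    _ = ∑ j, algebraMap F F' (φ (∏ l, d l) * b.repr x j) * b j := by
        rw [Finset.mul_sum]
        refine Finset.sum_congr rfl fun j _ => ?_
        rw [Algebra.smul_def, map_mul, mul_assoc]
    _ = ∑ j, ∑ i, algebraMap F F' (φ ((∏ l ∈ Finset.univ.erase j, d l) * c j i)) *
          (algebraMap F F' (w i) * b j) := by
        refine Finset.sum_congr rfl fun j _ => ?_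
        rw [h1, map_sum, Finset.sum_mul]
        refine Finset.sum_congr rfl fun i _ => ?_
        rw [map_mul (algebraMap F F'), mul_assoc]
    _ = _ := by
        rw [Fintype.sum_prod_type]
        rfl

variable {F : Type} [Field F] [CharZero F] {φ : ℚ[X] →+* F} {D : Derivation ℤ F F}

/-- PROOF. If `r` is a square in `F`, take `F' = F`. Otherwise `F' = AdjoinRoot (X ^ 2 - C r)` (a field), every element is `u + v w`, and
`D' (u + v w) = D u + (D v + v D r / (2 r)) w` is a derivation. `FinX`: `w_i`, `w_i w` span `F'`. (Or: Mathlib FieldTheory/Differential/Basic.) -/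
theorem exists_sqrt_ext (h : FX φ D) (r : F) :
    ∃ (F' : Type) (_ : Field F') (_ : CharZero F') (ι : F →+* F') (D' : Derivation ℤ F' F') (w : F'),
      FX (ι.comp φ) D' ∧ (∀ x, D' (ι x) = ι (D x)) ∧ w ^ 2 = ι r := by
  classical
  let F' : Type := (X ^ 2 - C r : F[X]).SplittingField
  letI : Differential F := ⟨D⟩
  letI : Differential F' := Differential.differentialFiniteDimensional F F'
  haveI : DifferentialAlgebra F F' := Differential.differentialAlgebraFiniteDimensional
  haveI hc : CharZero F' := charZero_of_injective_algebraMap (algebraMap F F').injective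
  have hD : ∀ x : F, (Differential.deriv : Derivation ℤ F' F') (algebraMap F F' x) =
      algebraMap F F' (D x) := fun x => DifferentialAlgebra.deriv_algebraMap x
  obtain ⟨w, hw⟩ : ∃ w : F', w ^ 2 = algebraMap F F' r := by
    have h1 : ((X ^ 2 - C r : F[X]).map (algebraMap F F')).Splits :=
      SplittingField.splits (X ^ 2 - C r : F[X])
    have h2 : ((X ^ 2 - C r : F[X]).map (algebraMap F F')).degree ≠ 0 := by
      rw [degree_map, degree_X_pow_sub_C (by norm_num) r]
      norm_num
    obtain ⟨w, hw⟩ := h1.exists_eval_eq_zero h2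
    refine ⟨w, ?_⟩
    rw [eval_map, eval₂_sub, eval₂_pow, eval₂_X, eval₂_C] at hw
    exact sub_eq_zero.1 hw
  refine ⟨F', inferInstance, hc, algebraMap F F', Differential.deriv, w, ⟨?_, ?_, ?_⟩, hD, hw⟩
  · exact (algebraMap F F').injective.comp h.inj
  · exact ext_finX_comp h.fin
  · rw [RingHom.comp_apply, hD, h.DX, map_one]

end Pool.Agent.Lib.MP_3550b5_nt.AC
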