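import Mathlib
import Pool.Agent.Lib.MP_3550b5_nt.AC.PlA

/-!
PROJECT AC, block K (places): finite extensions `F` of `ℚ(X)` with a derivation, and their places.
READ G/Val.lean and SV/Loc.lean FIRST.
-/

namespace Pool.Agent.Lib.MP_3550b5_nt.AC

open G SV Polynomial

variable {F : Type} [Field F] [CharZero F] {φ : ℚ[X] →+* F} {D : Derivation ℤ F F}

private lemma plB_rat (D : Derivation ℤ F F) (q : ℚ) : D (algebraMap ℚ F q) = 0 := by
  have h1 : ((q.den : ℤ) : F) * algebraMap ℚ F q = ((q.num : ℤ) : F) := by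
    rw [eq_ratCast]
    have h2 := Rat.den_mul_eq_num q
    have h3 := congrArg (fun r : ℚ => (r : F)) h2
    push_cast at h3
    push_cast
    exact h3
  have h2 : D ((q.den : ℤ) : F) = 0 := D.map_algebraMap (q.den : ℤ)
  have h3 : D ((q.num : ℤ) : F) = 0 := D.map_algebraMap q.num
  have h4 := congrArg D h1
  rw [h3, D.leibniz, h2, smul_zero, add_zero, smul_eq_mul] at h4
  rcases mul_eq_zero.1 h4 with h5 | h5
  · exact absurd h5 (by exact_mod_cast q.den_ne_zero)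
  · exact h5

private lemma plB_eval (D : Derivation ℤ F F) (x : F) (m : ℚ[X]) :
    D (eval₂ (algebraMap ℚ F) x m) = eval₂ (algebraMap ℚ F) x (derivative m) * D x := by
  induction m using Polynomial.induction_on' with
  | add p q hp hq => rw [eval₂_add, map_add, hp, hq, derivative_add, eval₂_add, add_mul]
  | monomial n a =>
    rw [eval₂_monomial, D.leibniz, D.leibniz_pow, plB_rat, derivative_monomial, eval₂_monomial]
    simp only [smul_eq_mul, nsmul_eq_mul, mul_zero, add_zero, map_mul, map_natCast]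
    ring

private lemma plB_vint {V : DVal F} (hint : ∀ n : ℤ, n ≠ 0 → ¬ V.D 1 (n : F)) {n : ℤ}
    (hn : n ≠ 0) : V.v (n : F) = 0 := by
  have hn0 : (n : F) ≠ 0 := Int.cast_ne_zero.2 hn
  have h1 := (DVal.D_iff hn0).1 (DVal.D_int (V := V) n)
  have h2 := (DVal.not_D_iff hn0).1 (hint n hn)
  omega

private lemma plB_Drat {V : DVal F} (hint : ∀ n : ℤ, n ≠ 0 → ¬ V.D 1 (n : F)) (q : ℚ) :
    V.D 0 (algebraMap ℚ F q) := by
  rw [eq_ratCast, Rat.cast_def]
  by_cases hq : q.num = 0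
  · rw [hq]
    simp only [Int.cast_zero, zero_div]
    exact DVal.D_zero _
  have h1 := plB_vint hint hq
  have hd : (q.den : ℤ) ≠ 0 := by exact_mod_cast q.den_ne_zero
  have h2 := plB_vint hint hd
  rw [Int.cast_natCast] at h2
  have h3 : ((q.num : ℤ) : F) ≠ 0 := Int.cast_ne_zero.2 hq
  have h4 : ((q.den : ℕ) : F) ≠ 0 := Nat.cast_ne_zero.2 q.den_ne_zero
  refine Or.inr ?_
  rw [DVal.v_div h3 h4, h1, h2]
  omega

private lemma plB_Deval {V : DVal F} (hint : ∀ n : ℤ, n ≠ 0 → ¬ V.D 1 (n : F)) {x : F}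
    (hx : V.D 0 x) (m : ℚ[X]) : V.D 0 (eval₂ (algebraMap ℚ F) x m) := by
  induction m using Polynomial.induction_on' with
  | add p q hp hq =>
    rw [eval₂_add]
    exact DVal.D_add hp hq
  | monomial n a =>
    rw [eval₂_monomial]
    exact DVal.D_mul' (plB_Drat hint a) (DVal.D_pow' hx n (l := 0) (by simp)) (by norm_num)

/-- THE LOCAL STRUCTURE. `V` is a discrete valuation with a uniformizer, `D` is bounded below on the ring `O` of `V`, and every element of `O` is algebraic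
over `ℚ` modulo the maximal ideal. PROOF. Let `-N` be the least value of `V.v (D x)`, `x ∈ O` (`D ≠ 0` on `O`). It is attained at some `x ∈ 𝔪`: with `m` as in
`halg`, `D (m(x)) = m'(x) D x` and `m(x) ∈ 𝔪`, `m'(x)` a unit. Write `x = π x'`: `D x = x' D π + π D x'` and `π D x'` has value `≥ -N + 1`, so
`V.v (D π) = -N`. With `h = π / D π`: `V.v (h D x) ≥ 1` for all `x ∈ O`, `h D π = π`. `nat`: by `hint`. -/
theorem ld_of_min (V : DVal F) {π : F} (hπ : π ≠ 0) (hπ1 : V.v π = 1) (hint : ∀ n : ℤ, n ≠ 0 → ¬ V.D 1 (n : F))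
    (hD : ∃ x, V.D 0 x ∧ D x ≠ 0) {N : ℕ} (hN : ∀ x, V.D 0 x → V.D (-(N : ℤ)) (D x))
    (halg : ∀ x, V.D 0 x → ∃ m : ℚ[X], V.D 1 (eval₂ (algebraMap ℚ F) x m) ∧
      ¬ V.D 1 (eval₂ (algebraMap ℚ F) x (derivative m))) :
    ∃ h : F, h ≠ 0 ∧ SV.LD V (h • D) := by
  classical
  -- the minimum
  have hex : ∃ k : ℕ, ∃ x, V.D 0 x ∧ D x ≠ 0 ∧ V.v (D x) = -(N : ℤ) + k := by
    obtain ⟨x, hx, hx0⟩ := hD
    have h1 := (DVal.D_iff hx0).1 (hN x hx)
    exact ⟨(V.v (D x) + N).toNat, x, hx, hx0, by omega⟩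
  obtain ⟨x, hx, hx0, hxv⟩ := Nat.find_spec hex
  set e : ℤ := -(N : ℤ) + (Nat.find hex : ℕ) with he
  have hmin : ∀ y, V.D 0 y → V.D e (D y) := by
    intro y hy
    by_cases hy0 : D y = 0
    · rw [hy0]
      exact DVal.D_zero _
    have h1 := (DVal.D_iff hy0).1 (hN y hy)
    have h2 : ∃ x, V.D 0 x ∧ D x ≠ 0 ∧ V.v (D x) = -(N : ℤ) + ((V.v (D y) + N).toNat : ℕ) :=
      ⟨y, hy, hy0, by omega⟩
    have h3 := Nat.find_min' hex h2
    exact Or.inr (by omega)
  obtain ⟨m, hm1, hm2⟩ := halg x hx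
  set x₁ := eval₂ (algebraMap ℚ F) x m with hx₁
  set u := eval₂ (algebraMap ℚ F) x (derivative m) with hu
  have hu0 : u ≠ 0 := DVal.ne_zero_of_not_D hm2
  have huv : V.v u = 0 := by
    have h1 := (DVal.D_iff hu0).1 (plB_Deval hint hx (derivative m))
    have h2 := (DVal.not_D_iff hu0).1 hm2
    omega
  have hDx₁ : D x₁ = u * D x := plB_eval D x m
  have hDx₁0 : D x₁ ≠ 0 := by
    rw [hDx₁]
    exact mul_ne_zero hu0 hx0
  have hDx₁v : V.v (D x₁) = e := by
    rw [hDx₁, V.map_mul hu0 hx0, huv, hxv, zero_add]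
  have hx₁0 : x₁ ≠ 0 := by
    intro h
    apply hDx₁0
    rw [h, map_zero]
  have hx₁v := (DVal.D_iff hx₁0).1 hm1
  set x' := x₁ / π with hx'
  have hx'0 : x' ≠ 0 := div_ne_zero hx₁0 hπ
  have hx'v : V.v x' = V.v x₁ - 1 := by rw [hx', DVal.v_div hx₁0 hπ, hπ1]
  have hx'D : V.D 0 x' := Or.inr (by omega)
  have hπD : V.D 0 π := Or.inr (by omega)
  have hsum : D x₁ = π * D x' + x' * D π := by
    have h1 : x₁ = π * x' := by
      rw [hx']
      field_simp
    rw [h1, D.leibniz, smul_eq_mul, smul_eq_mul]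
  have h1 : V.D (e + 1) (π * D x') := DVal.D_mul' (j := 1) (Or.inr (by omega)) (hmin x' hx'D) (by omega)
  have h2 : ¬ V.D (e + 1) (x' * D π) := by
    intro h3
    have h4 := DVal.D_add h1 h3
    rw [← hsum, DVal.D_iff hDx₁0] at h4
    omega
  have hDπ : D π ≠ 0 := by
    intro h3
    apply h2
    rw [h3, mul_zero]
    exact DVal.D_zero _
  have hDπv : V.v (D π) = e := by
    have h3 := (DVal.not_D_iff (mul_ne_zero hx'0 hDπ)).1 h2
    rw [V.map_mul hx'0 hDπ] at h3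
    have h4 := (DVal.D_iff hDπ).1 (hmin π hπD)
    omega
  have hh0 : π / D π ≠ 0 := div_ne_zero hπ hDπ
  refine ⟨π / D π, hh0, ⟨?_, ⟨π, hπ, hπ1, ?_⟩, hint⟩⟩
  · intro y hy
    change V.D 1 ((π / D π) • D y)
    rw [smul_eq_mul]
    refine DVal.D_mul' (j := 1 - e) (Or.inr ?_) (hmin y hy) (by omega)
    rw [DVal.v_div hπ hDπ, hπ1, hDπv]
  · change (π / D π) • D π = π
    rw [smul_eq_mul]
    field_simp

end Pool.Agent.Lib.MP_3550b5_nt.AC
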