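import Mathlib
import Pool.Agent.Lib.MP_3550b5_nt.AC.PlB

/-!
PROJECT AC, block K (places): finite extensions `F` of `ℚ(X)` with a derivation, and their places.
READ G/Val.lean and SV/Loc.lean FIRST.
-/

namespace Pool.Agent.Lib.MP_3550b5_nt.AC

open G SV Polynomial

open IsDedekindDomain

/-- every element of `B / P` is a simple root of a rational polynomial -/
private lemma plc_alg {B : Type} [CommRing B] [Algebra ℚ B] [Algebra ℚ[X] B] [IsScalarTower ℚ ℚ[X] B]
    [Algebra.IsIntegral ℚ[X] B] (P : Ideal B) [hP : P.IsMaximal] {f : ℚ[X]} (hf : f ≠ 0)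
    (hfP : algebraMap ℚ[X] B f ∈ P) (b : B) :
    ∃ m : ℚ[X], aeval b m ∈ P ∧ aeval b (derivative m) ∉ P := by
  let _ : Field (B ⧸ P) := Ideal.Quotient.field P
  have hmk : ∀ g : ℚ[X], aeval (Ideal.Quotient.mk P b) g = Ideal.Quotient.mk P (aeval b g) := by
    intro g
    exact aeval_algHom_apply (Ideal.Quotient.mkₐ ℚ P) b g
  have hX : IsIntegral ℚ (Ideal.Quotient.mk P (algebraMap ℚ[X] B X)) := by
    refine IsAlgebraic.isIntegral ⟨f, hf, ?_⟩
    have h1 : aeval (algebraMap ℚ[X] B X) f = algebraMap ℚ[X] B f := by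
      have h2 := aeval_algHom_apply (IsScalarTower.toAlgHom ℚ ℚ[X] B) X f
      rw [aeval_X_left_apply] at h2
      exact h2
    have h3 : aeval (Ideal.Quotient.mk P (algebraMap ℚ[X] B X)) f =
        Ideal.Quotient.mk P (aeval (algebraMap ℚ[X] B X) f) :=
      aeval_algHom_apply (Ideal.Quotient.mkₐ ℚ P) _ f
    rw [h3, h1]
    exact Ideal.Quotient.eq_zero_iff_mem.2 hfP
  obtain ⟨x, hx⟩ : ∃ x, x = Ideal.Quotient.mk P (algebraMap ℚ[X] B X) := ⟨_, rfl⟩
  rw [← hx] at hX
  have hA : Algebra.IsIntegral ℚ (Algebra.adjoin ℚ {x}) := by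
    refine Algebra.IsIntegral.adjoin ?_
    intro y hy
    rw [Set.mem_singleton_iff.1 hy]
    exact hX
  have hb : IsIntegral ℚ (Ideal.Quotient.mk P b) := by
    refine isIntegral_trans (A := Algebra.adjoin ℚ {x}) _ ?_
    obtain ⟨p, hp, hp0⟩ := Algebra.IsIntegral.isIntegral (R := ℚ[X]) b
    obtain ⟨x', hx'⟩ : ∃ x' : Algebra.adjoin ℚ {x}, algebraMap (Algebra.adjoin ℚ {x}) (B ⧸ P) x' = x :=
      ⟨⟨x, Algebra.self_mem_adjoin_singleton ℚ x⟩, rfl⟩
    obtain ⟨g, hg⟩ : ∃ g : ℚ[X] →+* Algebra.adjoin ℚ {x},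
        (algebraMap (Algebra.adjoin ℚ {x}) (B ⧸ P)).comp g =
          (Ideal.Quotient.mk P).comp (algebraMap ℚ[X] B) := by
      refine ⟨eval₂RingHom (algebraMap ℚ (Algebra.adjoin ℚ {x})) x', ?_⟩
      apply Polynomial.ringHom_ext
      · intro a
        have h1 : ∀ (g1 g2 : ℚ →+* B ⧸ P), g1 = g2 := fun g1 g2 => Subsingleton.elim _ _
        exact RingHom.congr_fun (h1 (((algebraMap (Algebra.adjoin ℚ {x}) (B ⧸ P)).comp
          (eval₂RingHom (algebraMap ℚ (Algebra.adjoin ℚ {x})) x')).comp C)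
          (((Ideal.Quotient.mk P).comp (algebraMap ℚ[X] B)).comp C)) a
      · rw [RingHom.comp_apply, RingHom.comp_apply, ← hx, coe_eval₂RingHom, eval₂_X, hx']
    refine ⟨p.map g, hp.map g, ?_⟩
    rw [eval₂_map, hg, ← hom_eval₂, hp0, map_zero]
  have hsep := (minpoly.irreducible hb).separable
  refine ⟨minpoly ℚ (Ideal.Quotient.mk P b), ?_, ?_⟩
  · rw [← Ideal.Quotient.eq_zero_iff_mem, ← hmk]
    exact minpoly.aeval _ _
  · rw [← Ideal.Quotient.eq_zero_iff_mem, ← hmk]
    exact hsep.aeval_derivative_ne_zero (minpoly.aeval _ _)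


section dvr

variable {F : Type} [Field F] {B : Type} [CommRing B] [IsDedekindDomain B] [Algebra B F]
  [IsFractionRing B F]

/-- the valuation of a height one prime as an integer valued function -/
private noncomputable def plcV (P : HeightOneSpectrum B) : DVal F where
  v x := -WithZero.log (P.valuation F x)
  map_mul := by
    intro x y hx hy
    rw [_root_.map_mul, WithZero.log_mul ((Valuation.ne_zero_iff _).2 hx)
      ((Valuation.ne_zero_iff _).2 hy)]
    ring
  map_add := by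
    intro x y hx hy hxy
    have h1 := (P.valuation F).map_add x y
    have hx' := (Valuation.ne_zero_iff (P.valuation F)).2 hx
    have hy' := (Valuation.ne_zero_iff (P.valuation F)).2 hy
    have hxy' := (Valuation.ne_zero_iff (P.valuation F)).2 hxy
    rcases le_max_iff.1 h1 with h | h
    · exact (min_le_left _ _).trans (neg_le_neg ((WithZero.log_le_log hxy' hx').2 h))
    · exact (min_le_right _ _).trans (neg_le_neg ((WithZero.log_le_log hxy' hy').2 h))

private lemma plc_D0 (P : HeightOneSpectrum B) (x : F) :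
    (plcV P).D 0 x ↔ P.valuation F x ≤ 1 := by
  by_cases hx : x = 0
  · rw [hx, map_zero]
    exact ⟨fun _ => zero_le_one, fun _ => DVal.D_zero 0⟩
  · have hx' := (Valuation.ne_zero_iff (P.valuation F)).2 hx
    rw [DVal.D_iff hx, ← WithZero.log_le_log hx' one_ne_zero, WithZero.log_one]
    exact neg_nonneg

private lemma plc_D1 (P : HeightOneSpectrum B) (x : F) :
    (plcV P).D 1 x ↔ P.valuation F x < 1 := by
  by_cases hx : x = 0
  · rw [hx, map_zero]
    exact ⟨fun _ => zero_lt_one, fun _ => DVal.D_zero 1⟩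
  · have hx' := (Valuation.ne_zero_iff (P.valuation F)).2 hx
    rw [DVal.D_iff hx, ← WithZero.log_lt_log hx' one_ne_zero, WithZero.log_one]
    show (1 : ℤ) ≤ -WithZero.log (P.valuation F x) ↔ _
    omega

private lemma plc_D0_map (P : HeightOneSpectrum B) (b : B) :
    (plcV P).D 0 (algebraMap B F b) :=
  (plc_D0 P _).2 (P.valuation_le_one b)

private lemma plc_D1_map (P : HeightOneSpectrum B) (b : B) :
    (plcV P).D 1 (algebraMap B F b) ↔ b ∈ P.asIdeal :=
  (plc_D1 P _).trans (P.valuation_lt_one_iff_mem b)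

private lemma plc_unif (P : HeightOneSpectrum B) : ∃ π : F, π ≠ 0 ∧ (plcV P).v π = 1 := by
  obtain ⟨π, hπ⟩ := P.valuation_exists_uniformizer F
  refine ⟨π, ?_, ?_⟩
  · rintro rfl
    rw [map_zero] at hπ
    exact WithZero.exp_ne_zero hπ.symm
  · show -WithZero.log (P.valuation F π) = 1
    rw [hπ, WithZero.log_exp]
    norm_num

private lemma plc_frac (P : HeightOneSpectrum B) {x : F} (hx : (plcV P).D 0 x) :
    ∃ n d : B, d ∉ P.asIdeal ∧ x * algebraMap B F d = algebraMap B F n := by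
  obtain ⟨n, d, h⟩ := P.exists_primeCompl_mul_eq_of_integer x ((plc_D0 P x).1 hx)
  exact ⟨n, d, d.2, h⟩

private lemma plc_res (P : HeightOneSpectrum B) {x : F} (hx : (plcV P).D 0 x) :
    ∃ b : B, (plcV P).D 1 (algebraMap B F b - x) := by
  obtain ⟨b, hb⟩ := P.exists_valuation_sub_lt_of_integer ((plc_D0 P x).1 hx) 1
  exact ⟨b, (plc_D1 P _).2 (by simpa using hb)⟩

private lemma plc_fin {x : F} (hx : x ≠ 0) :
    {P : HeightOneSpectrum B | (plcV P).v x ≠ 0}.Finite := by
  refine ((HeightOneSpectrum.Support.finite B x).union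
    (HeightOneSpectrum.Support.finite B x⁻¹)).subset ?_
  intro P hP
  have hx' := (Valuation.ne_zero_iff (P.valuation F)).2 hx
  rcases lt_trichotomy ((plcV P).v x) 0 with h | h | h
  · left
    show 1 < P.valuation F x
    rw [← WithZero.log_lt_log one_ne_zero hx', WithZero.log_one]
    have h1 : -WithZero.log (P.valuation F x) < 0 := h
    omega
  · exact absurd h hP
  · right
    show 1 < P.valuation F x⁻¹
    rw [map_inv₀, one_lt_inv₀ (zero_lt_iff.2 hx'), ← WithZero.log_lt_log hx' one_ne_zero,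
      WithZero.log_one]
    have h1 : 0 < -WithZero.log (P.valuation F x) := h
    omega

end dvr


section loc

variable {F : Type} [Field F] [CharZero F] {φ : ℚ[X] →+* F} {D : Derivation ℤ F F}

omit [CharZero F] in
private lemma plc_pow (V : DVal F) {x y : F} (hx : V.D 0 x) (hy : V.D 0 y) (hxy : V.D 1 (x - y)) (n : ℕ) :
    V.D 1 (x ^ n - y ^ n) := by
  induction n with
  | zero => rw [pow_zero, pow_zero, sub_self]; exact DVal.D_zero 1
  | succ n ih =>
    have e : x ^ (n + 1) - y ^ (n + 1) = x ^ n * (x - y) + (x ^ n - y ^ n) * y := by ring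
    rw [e]
    exact DVal.D_add (DVal.D_mul' (DVal.D_pow' hx n (l := 0) (by simp)) hxy (by norm_num))
      (DVal.D_mul' ih hy (by norm_num))

private lemma plc_eval (V : DVal F) (hq : ∀ q : ℚ, V.D 0 (algebraMap ℚ F q)) {x y : F}
    (hx : V.D 0 x) (hy : V.D 0 y) (hxy : V.D 1 (x - y)) (m : ℚ[X]) :
    V.D 1 (eval₂ (algebraMap ℚ F) x m - eval₂ (algebraMap ℚ F) y m) := by
  induction m using Polynomial.induction_on' with
  | add p q hp hq' =>
    rw [eval₂_add, eval₂_add, add_sub_add_comm]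
    exact DVal.D_add hp hq'
  | monomial n a =>
    rw [eval₂_monomial, eval₂_monomial, ← mul_sub]
    exact DVal.D_mul' (hq a) (plc_pow V hx hy hxy n) (by norm_num)

variable {B : Type} [CommRing B] [IsDedekindDomain B] [Algebra B F]
  [IsFractionRing B F] [Algebra ℚ B] [Algebra ℚ[X] B] [IsScalarTower ℚ ℚ[X] B] [Module.Finite ℚ[X] B]

omit [IsDedekindDomain B] [IsFractionRing B F] [Algebra ℚ B] [IsScalarTower ℚ ℚ[X] B] in
private lemma plc_gen (V : DVal F) (h : FX φ D) (hφ : ∀ f, algebraMap B F (algebraMap ℚ[X] B f) = φ f)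
    (hB : ∀ b : B, V.D 0 (algebraMap B F b)) :
    ∃ N : ℕ, ∀ b : B, V.D (-(N : ℤ)) (D (algebraMap B F b)) := by
  obtain ⟨S, hS⟩ := (Module.Finite.fg_top : (⊤ : Submodule ℚ[X] B).FG)
  refine ⟨∑ s ∈ S, (V.v (D (algebraMap B F s))).natAbs, ?_⟩
  obtain ⟨N, hN⟩ : ∃ N : ℕ, N = ∑ s ∈ S, (V.v (D (algebraMap B F s))).natAbs := ⟨_, rfl⟩
  rw [← hN]
  intro b
  have hb : b ∈ Submodule.span ℚ[X] (S : Set B) := by
    rw [hS]
    exact Submodule.mem_top
  induction hb using Submodule.span_induction with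
  | mem x hx =>
    have h1 : (V.v (D (algebraMap B F x))).natAbs ≤ N := by
      rw [hN]
      exact Finset.single_le_sum (f := fun s => (V.v (D (algebraMap B F s))).natAbs)
        (fun _ _ => Nat.zero_le _) hx
    exact Or.inr (by omega)
  | zero =>
    rw [map_zero, map_zero]
    exact DVal.D_zero _
  | add x y _ _ hx hy =>
    rw [_root_.map_add, _root_.map_add]
    exact DVal.D_add hx hy
  | smul f x _ hx =>
    have hf : ∀ f, V.D 0 (φ f) := fun f => by
      rw [← hφ]
      exact hB _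
    rw [Algebra.smul_def, _root_.map_mul, hφ, Derivation.leibniz, h.D_map, smul_eq_mul, smul_eq_mul]
    exact DVal.D_add (DVal.D_mul' (hf f) hx (by omega)) (DVal.D_mul' (hB x) (hf _) (by omega))

omit [Algebra ℚ B] [IsScalarTower ℚ ℚ[X] B] in
private lemma plc_bound (P : HeightOneSpectrum B) (h : FX φ D)
    (hφ : ∀ f, algebraMap B F (algebraMap ℚ[X] B f) = φ f) :
    ∃ N : ℕ, ∀ x : F, (plcV P).D 0 x → (plcV P).D (-(N : ℤ)) (D x) := by
  obtain ⟨N, hN⟩ := plc_gen (plcV P) h hφ (plc_D0_map P)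
  refine ⟨N, fun x hx => ?_⟩
  obtain ⟨n, d, hd, e⟩ := plc_frac P hx
  have hd' : ¬ (plcV P).D 1 (algebraMap B F d) := fun h1 => hd ((plc_D1_map P d).1 h1)
  refine DVal.D_of_mul hd' ?_
  have e1 : algebraMap B F d * D x = D (algebraMap B F n) - x * D (algebraMap B F d) := by
    rw [← e, Derivation.leibniz, smul_eq_mul, smul_eq_mul]
    ring
  rw [e1]
  exact DVal.D_mono (by omega) (DVal.D_sub (hN n) (DVal.D_mul' hx (hN d) (by omega)))

private lemma plc_place (P : HeightOneSpectrum B) (h : FX φ D)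
    (hφ : ∀ f, algebraMap B F (algebraMap ℚ[X] B f) = φ f) :
    ∃ hh : F, hh ≠ 0 ∧ SV.LD (plcV P : DVal F) (hh • D) := by
  obtain ⟨π, hπ, hπ1⟩ := plc_unif (F := F) P
  obtain ⟨N, hN⟩ := plc_bound P h hφ
  have hf : ∀ f, (plcV P).D 0 (φ f) := fun f => by
    rw [← hφ]
    exact plc_D0_map P _
  have hQ : ∀ q : ℚ, φ (C q) = algebraMap ℚ F q := by
    intro q
    have h1 : ∀ (g1 g2 : ℚ →+* F), g1 = g2 := fun g1 g2 => Subsingleton.elim _ _
    exact RingHom.congr_fun (h1 (φ.comp C) (algebraMap ℚ F)) q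
  have hq : ∀ q : ℚ, (plcV P).D 0 (algebraMap ℚ F q) := by
    intro q
    rw [← hQ]
    exact hf _
  have hev : ∀ (b : B) (m : ℚ[X]), eval₂ (algebraMap ℚ F) (algebraMap B F b) m =
      algebraMap B F (aeval b m) := by
    intro b m
    rw [aeval_def, hom_eval₂]
    congr 1
    exact Subsingleton.elim _ _
  refine ld_of_min (plcV P) hπ hπ1 ?_ ⟨φ X, hf X, ?_⟩ hN ?_
  · intro n hn h1
    have h2 : (plcV P).D 1 (1 : F) := by
      have e : (1 : F) = (n : F) * algebraMap ℚ F ((n : ℚ)⁻¹) := by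
        rw [map_inv₀, map_intCast, mul_inv_cancel₀ (Int.cast_ne_zero.2 hn)]
      rw [e]
      exact DVal.D_mul' h1 (hq _) (by norm_num)
    rw [DVal.D_iff one_ne_zero, DVal.v_one] at h2
    omega
  · rw [h.DX]
    exact one_ne_zero
  · intro x hx
    obtain ⟨b, hb⟩ := plc_res P hx
    have hne : P.asIdeal.comap (algebraMap ℚ[X] B) ≠ ⊥ := by
      obtain ⟨c, hc, hc0⟩ := Submodule.exists_mem_ne_zero_of_ne_bot P.ne_bot
      exact Ideal.comap_ne_bot_of_integral_mem hc0 hc (Algebra.IsIntegral.isIntegral c)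
    obtain ⟨f, hf1, hf0⟩ := Submodule.exists_mem_ne_zero_of_ne_bot hne
    have := P.isMaximal
    obtain ⟨m, hm, hm'⟩ := plc_alg P.asIdeal hf0 (Ideal.mem_comap.1 hf1) b
    refine ⟨m, ?_, ?_⟩
    · have h1 := plc_eval (plcV P) hq (plc_D0_map P b) hx hb m
      have h2 : (plcV P).D 1 (eval₂ (algebraMap ℚ F) (algebraMap B F b) m) := by
        rw [hev]
        exact (plc_D1_map P _).2 hm
      have h3 := DVal.D_sub h2 h1
      rwa [sub_sub_cancel] at h3
    · intro h4
      have h1 := plc_eval (plcV P) hq (plc_D0_map P b) hx hb (derivative m)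
      have h2 := DVal.D_add h1 h4
      rw [sub_add_cancel, hev] at h2
      exact hm' ((plc_D1_map P _).1 h2)

end loc

variable {F : Type} [Field F] [CharZero F] {φ : ℚ[X] →+* F} {D : Derivation ℤ F F}

/-- THE PLACES OVER `ℚ[X]`. PROOF. `B` = the integral closure of `ℚ[X]` in `F` (with `Algebra ℚ[X] F` from `φ`, `K = FractionRing ℚ[X]`, `F` finite over
`K` by `FinX`, separable as the characteristic is `0`): a Dedekind domain, finite over `ℚ[X]`, with fraction field `F`. `ι` = its height one primes, `V` = minus the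
exponent of `HeightOneSpectrum.valuation F`. Integrality criterion: `x ∈ B` iff all valuations are `≤ 1`. Finite support: `x = a/b`, finitely many primes
contain `a b`. LD: `ld_of_min`: `hint`: `n ∈ ℚ[X]` is a unit. `hN`: `B = ∑ ℚ[X] β_i`, `D` of `∑ φ(f_i) β_i` has value `≥ min (0, V.v (D β_i))`; an element of `O`
is `y / z` with `y, z ∈ B`, `z` a unit at `V`: `D (y/z) = (z D y - y D z)/z^2`. `halg`: the residue field of `V` is `B / 𝔓`, finite over `ℚ[X] / (π₀)`, finite over `ℚ`:
the minimal polynomial of the residue is separable. `hD`: `x = φ X`. -/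
theorem exists_places (h : FX φ D) : ∃ (ι : Type) (V : ι → DVal F) (hh : ι → F), (∀ i, hh i ≠ 0) ∧
    (∀ i, SV.LD (V i) (hh i • D)) ∧ (∀ i f, (V i).D 0 (φ f)) ∧
    (∀ x, (∀ i, (V i).D 0 x) → φ.IsIntegralElem x) ∧ ∀ x, x ≠ 0 → {i | (V i).v x ≠ 0}.Finite := by
  let _ : Algebra ℚ[X] F := φ.toAlgebra
  have hφ : ∀ f, algebraMap ℚ[X] F f = φ f := fun _ => rfl
  have hinj : Function.Injective (algebraMap ℚ[X] F) := h.inj
  let _ : Algebra (FractionRing ℚ[X]) F := (IsFractionRing.lift hinj).toAlgebra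
  have hK : ∀ f : ℚ[X], algebraMap (FractionRing ℚ[X]) F (algebraMap ℚ[X] (FractionRing ℚ[X]) f) =
      φ f := fun f => IsFractionRing.lift_algebraMap hinj f
  have : IsScalarTower ℚ[X] (FractionRing ℚ[X]) F := IsScalarTower.of_algebraMap_eq fun f =>
    (hK f).symm
  have hfin : FiniteDimensional (FractionRing ℚ[X]) F := by
    obtain ⟨n, w, hw⟩ := h.fin
    refine Module.Finite.of_surjective (Fintype.linearCombination (FractionRing ℚ[X]) w) ?_
    intro x
    obtain ⟨c, d, hd, e⟩ := hw x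
    have hd' : φ d ≠ 0 := by
      rw [Ne, ← map_zero φ]
      exact fun h1 => hd (h.inj h1)
    refine ⟨fun i => algebraMap ℚ[X] (FractionRing ℚ[X]) (c i) /
      algebraMap ℚ[X] (FractionRing ℚ[X]) d, ?_⟩
    rw [Fintype.linearCombination_apply]
    apply mul_left_cancel₀ hd'
    rw [e, Finset.mul_sum]
    refine Finset.sum_congr rfl fun i _ => ?_
    rw [Algebra.smul_def, map_div₀, hK, hK]
    field_simp
  have : CharZero (FractionRing ℚ[X]) := charZero_of_injective_algebraMap
    (IsFractionRing.injective ℚ[X] (FractionRing ℚ[X]))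
  have hded : IsDedekindDomain (integralClosure ℚ[X] F) :=
    integralClosure.isDedekindDomain ℚ[X] (FractionRing ℚ[X]) F
  have hfr : IsFractionRing (integralClosure ℚ[X] F) F :=
    integralClosure.isFractionRing_of_finite_extension (FractionRing ℚ[X]) F
  have hfinB : Module.Finite ℚ[X] (integralClosure ℚ[X] F) :=
    IsIntegralClosure.finite ℚ[X] (FractionRing ℚ[X]) F (integralClosure ℚ[X] F)
  have : IsScalarTower ℚ ℚ[X] F := IsScalarTower.of_algebraMap_eq' (Subsingleton.elim _ _)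
  have hφB : ∀ f, algebraMap (integralClosure ℚ[X] F) F
      (algebraMap ℚ[X] (integralClosure ℚ[X] F) f) = φ f := fun _ => rfl
  choose hh hh0 hhL using fun P : IsDedekindDomain.HeightOneSpectrum (integralClosure ℚ[X] F) =>
    plc_place P h hφB
  refine ⟨_, plcV, hh, hh0, hhL, ?_, ?_, ?_⟩
  · intro P f
    rw [← hφB]
    exact plc_D0_map P _
  · intro x hx
    obtain ⟨b, hb⟩ := IsDedekindDomain.HeightOneSpectrum.mem_integers_of_valuation_le_one F x
      (fun P => (plc_D0 P x).1 (hx P))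
    rw [← hb]
    exact b.2
  · intro x hx
    exact plc_fin hx

end Pool.Agent.Lib.MP_3550b5_nt.AC
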