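import Mathlib
import Pool.Agent.Lib.MP_3550b5_nt.AC.PlC

/-!
PROJECT AC, block K (places): finite extensions `F` of `ℚ(X)` with a derivation, and their places.
READ G/Val.lean and SV/Loc.lean FIRST.
-/

namespace Pool.Agent.Lib.MP_3550b5_nt.AC

open G SV Polynomial

variable {F : Type} [Field F] [CharZero F] {φ : ℚ[X] →+* F} {D : Derivation ℤ F F}

private theorem plx_norm {R K E : Type} [CommRing R] [Field K] [Field E] [Algebra K E]
    (ψ : R →+* K) {x : E} (hx : ((algebraMap K E).comp ψ).IsIntegralElem x) :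
    ψ.IsIntegralElem (Algebra.norm K x) := by
  let := ψ.toAlgebra
  let := ((algebraMap K E).comp ψ).toAlgebra
  have : IsScalarTower R K E := IsScalarTower.of_algebraMap_eq' rfl
  exact Algebra.isIntegral_norm K hx

open Classical in
private theorem plx_inf {R : Type} [CommRing R] (ψ : R →+* RatFunc ℚ)
    (hψ : ∀ r, RatFunc.inftyValuation ℚ (ψ r) ≤ 1) {z : RatFunc ℚ} (hz : ψ.IsIntegralElem z) :
    RatFunc.inftyValuation ℚ z ≤ 1 := by
  have h1 : ψ = ((RatFunc.inftyValuation ℚ).integer.subtype).comp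
      (ψ.codRestrict (RatFunc.inftyValuation ℚ).integer hψ) := rfl
  rw [h1] at hz
  have h2 : ((RatFunc.inftyValuation ℚ).integer.subtype).IsIntegralElem z := hz.of_comp
  exact (Valuation.integer.integers (RatFunc.inftyValuation ℚ)).mem_of_integral h2

/-- NOTHING IS INTEGRAL AND SMALL AT INFINITY. PROOF. Let `n = [F : ℚ(X)]` and `N_F` the norm to `K = Frac ℚ[X]`. `N_F(e)` is integral over `ℚ[X]`, so equal to a
polynomial `P ≠ 0`. `N_F(e^N X) = P^N X^n` is integral over `ℚ[1/X]`, so it lies in `ℚ[1/X]` (integrally closed): but its degree in `X` is at least `n ≥ 1`. -/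
theorem not_small (h : FX φ D) {φ' : ℚ[X] →+* F} (hφ' : φ' X = (φ X)⁻¹) {e : F} (he : e ≠ 0)
    (h1 : φ.IsIntegralElem e) {N : ℕ} (h2 : φ'.IsIntegralElem (e ^ N * φ X)) : False := by
  classical
  let iA : Algebra (RatFunc ℚ) F :=
    (IsFractionRing.lift (A := ℚ[X]) (K := RatFunc ℚ) h.inj).toAlgebra
  have hφ : ∀ p : ℚ[X], algebraMap (RatFunc ℚ) F (algebraMap ℚ[X] (RatFunc ℚ) p) = φ p :=
    fun p => IsFractionRing.lift_algebraMap h.inj p
  have hφc : φ = (algebraMap (RatFunc ℚ) F).comp (algebraMap ℚ[X] (RatFunc ℚ)) :=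
    RingHom.ext fun p => (hφ p).symm
  have hfin : FiniteDimensional (RatFunc ℚ) F := by
    obtain ⟨n, w, hw⟩ := h.fin
    refine ⟨⟨Finset.univ.image w, ?_⟩⟩
    rw [eq_top_iff]
    intro x _
    obtain ⟨c, d, hd, hx⟩ := hw x
    have hd' : φ d ≠ 0 := fun h0 => hd (h.inj (h0.trans (map_zero φ).symm))
    have hx' : x = ∑ i, ((algebraMap ℚ[X] (RatFunc ℚ) d)⁻¹ *
        algebraMap ℚ[X] (RatFunc ℚ) (c i)) • w i := by
      have h3 : ∀ i, ((algebraMap ℚ[X] (RatFunc ℚ) d)⁻¹ *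
          algebraMap ℚ[X] (RatFunc ℚ) (c i)) • w i = (φ d)⁻¹ * (φ (c i) * w i) := by
        intro i
        rw [Algebra.smul_def, map_mul, map_inv₀, hφ, hφ, mul_assoc]
      rw [Finset.sum_congr rfl fun i _ => h3 i, ← Finset.mul_sum, ← hx, inv_mul_cancel_left₀ hd']
    rw [hx']
    exact Submodule.sum_mem _ fun i _ => Submodule.smul_mem _ _
      (Submodule.subset_span (Finset.mem_coe.2 (Finset.mem_image.2 ⟨i, Finset.mem_univ i, rfl⟩)))
  obtain ⟨ψ, hψC, hψX⟩ : ∃ ψ : ℚ[X] →+* RatFunc ℚ, (∀ a, ψ (C a) = RatFunc.C a) ∧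
      ψ X = (RatFunc.X)⁻¹ :=
    ⟨Polynomial.eval₂RingHom RatFunc.C (RatFunc.X)⁻¹, fun a => Polynomial.eval₂_C _ _,
      Polynomial.eval₂_X _ _⟩
  have hφ'c : φ' = (algebraMap (RatFunc ℚ) F).comp ψ := by
    refine Polynomial.ringHom_ext (fun a => ?_) ?_
    · exact RingHom.congr_fun (Subsingleton.elim (φ'.comp C)
        (((algebraMap (RatFunc ℚ) F).comp ψ).comp C)) a
    · rw [hφ', RingHom.comp_apply, hψX, map_inv₀, ← hφ, RatFunc.algebraMap_X]
  have hvψ : ∀ r, RatFunc.inftyValuation ℚ (ψ r) ≤ 1 := by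
    intro r
    induction r using Polynomial.induction_on' with
    | add p q hp hq =>
      rw [map_add]
      exact (Valuation.map_add _ _ _).trans (max_le hp hq)
    | monomial k a =>
      rw [← Polynomial.C_mul_X_pow_eq_monomial, map_mul, map_pow, hψC, hψX, map_mul, map_pow,
        map_inv₀, RatFunc.inftyValuation.X]
      refine mul_le_one' ?_ (pow_le_one' ?_ _)
      · by_cases ha : a = 0
        · rw [ha, map_zero, map_zero]
          exact zero_le_one
        · rw [RatFunc.inftyValuation.C ℚ ha]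
      · rw [← WithZero.exp_neg, ← WithZero.exp_zero, WithZero.exp_le_exp]
        norm_num
  have h3 : (algebraMap ℚ[X] (RatFunc ℚ)).IsIntegralElem (Algebra.norm (RatFunc ℚ) e) :=
    plx_norm _ (hφc ▸ h1)
  obtain ⟨p, hp⟩ := (IsIntegrallyClosed.isIntegral_iff (R := ℚ[X]) (K := RatFunc ℚ)).1 h3
  have hp0 : p ≠ 0 := by
    rintro rfl
    rw [map_zero] at hp
    exact he (Algebra.norm_eq_zero_iff.1 hp.symm)
  have h4 : ψ.IsIntegralElem (Algebra.norm (RatFunc ℚ) (e ^ N * φ X)) :=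
    plx_norm _ (hφ'c ▸ h2)
  have h5 := plx_inf ψ hvψ h4
  rw [map_mul, map_pow, ← hφ X, Algebra.norm_algebraMap, ← hp, RatFunc.algebraMap_X, map_mul,
    map_pow, map_pow, RatFunc.inftyValuation.X] at h5
  have h6 : 1 ≤ RatFunc.inftyValuation ℚ (algebraMap ℚ[X] (RatFunc ℚ) p) := by
    rw [RatFunc.inftyValuation_apply, RatFunc.inftyValuation.polynomial ℚ hp0,
      ← WithZero.exp_zero, WithZero.exp_le_exp]
    positivity
  have h7 : (1 : WithZero (Multiplicative ℤ)) <
      WithZero.exp (1 : ℤ) ^ Module.finrank (RatFunc ℚ) F := by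
    refine one_lt_pow₀ ?_ Module.finrank_pos.ne'
    rw [← WithZero.exp_zero, WithZero.exp_lt_exp]
    norm_num
  refine absurd h5 (not_le.2 (h7.trans_le ?_))
  exact le_mul_of_one_le_left' (one_le_pow_of_one_le' h6 N)

end Pool.Agent.Lib.MP_3550b5_nt.AC
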