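import Mathlib
import Pool.Agent.Lib.MP_3550b5_nt.SV.Add
import Pool.Agent.Lib.MP_3550b5_nt.SV.MB

/-!
PROJECT AC, block K: the quadratic identity of `E` and the elements `e_m`.
-/

namespace Pool.Agent.Lib.MP_3550b5_nt.AC

open G SV

variable {F : Type} [Field F] [CharZero F] (D : Derivation ℤ F F)

/-- `E` of a point, for the solution `(0, om / k1)` of (Sys). -/
def E0 (a b x y : F) : F :=
  om D a b x y ^ 2 / (2 * k1 D a b) - k1 D a b * x / 2 - g1 D a b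

/-- PROOF. Definitions (`Ee`, `Sys`, `tau`). -/
lemma sys_zero {a b x y : F} (hk : k1 D a b ≠ 0) (ht : tau D a b x y = 0) :
    Sys D a b x y 0 (om D a b x y / k1 D a b) ∧ Ee D a b x y 0 (om D a b x y / k1 D a b) = E0 D a b x y := by
  refine ⟨⟨?_, ?_⟩, ?_⟩
  · rw [map_zero, mul_div_cancel₀ _ hk]
    ring
  · unfold tau at ht
    linear_combination -ht
  · unfold Ee E0
    field_simp
    ring

/-- CHORDS. PROOF. With `o3 = o1 + o2 + k l`, `o4 = o1 - o2 + k l'` (`om_add`, `om_neg`), `x3 = l^2 - x1 - x2`, `x4 = l'^2 - x1 - x2`: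
`E3 + E4 - 2 E1 - 2 E2 = 2 k (x1+x2) + 2 g + l (o1+o2) + l' (o1-o2)`, `l + l' = 2 y1/(x1-x2)`, `l - l' = -2 y2/(x1-x2)`, and
`2 y o = x' - 2 k x^2 - 2 g x - 4 k a/3` (`D_xy`). -/
theorem E0_add {a b x1 y1 x2 y2 l x3 y3 l' x4 y4 : F} (hk : k1 D a b ≠ 0)
    (h1 : y1 ^ 2 = x1 ^ 3 + a * x1 + b) (h2 : y2 ^ 2 = x2 ^ 3 + a * x2 + b) (hx : x1 ≠ x2)
    (hl : l * (x1 - x2) = y1 - y2) (hx3 : x3 = l ^ 2 - x1 - x2) (hy3 : y3 = -y1 - l * (x3 - x1))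
    (hl' : l' * (x1 - x2) = y1 + y2) (hx4 : x4 = l' ^ 2 - x1 - x2) (hy4 : y4 = -y1 - l' * (x4 - x1))
    (n1 : y1 ≠ 0) (n2 : y2 ≠ 0) (n3 : y3 ≠ 0) (n4 : y4 ≠ 0) :
    E0 D a b x3 y3 + E0 D a b x4 y4 = 2 * E0 D a b x1 y1 + 2 * E0 D a b x2 y2 + D (x1 - x2) / (x1 - x2) := by
  have hΔ : dl a b ≠ 0 := (ne_of_k1 D hk).1
  have hx' : x1 - x2 ≠ 0 := sub_ne_zero.2 hx
  have o3 := om_add D hΔ h1 h2 hx hl hx3 hy3 n1 n2 n3
  have o4 := om_add D hΔ h1 (show (-y2) ^ 2 = x2 ^ 3 + a * x2 + b by rw [neg_sq]; exact h2) hx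
    (show l' * (x1 - x2) = y1 - -y2 by rw [sub_neg_eq_add]; exact hl') hx4 hy4 n1 (neg_ne_zero.2 n2) n4
  rw [om_neg] at o4
  have d1 := (D_xy D hΔ n1 h1).1
  have d2 := (D_xy D hΔ n2 h2).1
  have hD : D (x1 - x2) / (x1 - x2) = l * (om D a b x1 y1 + om D a b x2 y2) +
      l' * (om D a b x1 y1 - om D a b x2 y2) + 2 * k1 D a b * (x1 + x2) + 2 * g1 D a b := by
    rw [div_eq_iff hx', map_sub, d1, d2]
    linear_combination -(om D a b x1 y1 + om D a b x2 y2) * hl - (om D a b x1 y1 - om D a b x2 y2) * hl'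
  rw [hD]
  unfold E0
  rw [o3, o4, hx3, hx4]
  field_simp
  ring

/-- TANGENT. PROOF. `om_dbl`, `D_xy`: `E3 - 4 E1 = 2 l o + 3 k x + 3 g = D y / y`. -/
theorem E0_dbl {a b x1 y1 l x3 y3 : F} (hk : k1 D a b ≠ 0) (h1 : y1 ^ 2 = x1 ^ 3 + a * x1 + b)
    (hl : 2 * y1 * l = 3 * x1 ^ 2 + a) (hx3 : x3 = l ^ 2 - 2 * x1) (hy3 : y3 = -y1 - l * (x3 - x1))
    (n1 : y1 ≠ 0) (n3 : y3 ≠ 0) :
    E0 D a b x3 y3 = 4 * E0 D a b x1 y1 + D y1 / y1 := by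
  have hΔ : dl a b ≠ 0 := (ne_of_k1 D hk).1
  have o3 := om_dbl D hΔ h1 hl hx3 hy3 n1 n3
  have d1 := (D_xy D hΔ n1 h1).2
  have hD : D y1 / y1 = 2 * l * om D a b x1 y1 + 3 * (k1 D a b * x1 + g1 D a b) := by
    rw [div_eq_iff n1, d1]
    linear_combination -(om D a b x1 y1) * hl
  rw [hD]
  unfold E0
  rw [o3, hx3]
  field_simp
  ring

lemma E0_neg {a b x y : F} : E0 D a b x (-y) = E0 D a b x y := by
  unfold E0
  rw [om_neg, neg_sq]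

end Pool.Agent.Lib.MP_3550b5_nt.AC
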