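import Mathlib
import Pool.Agent.Lib.MP_3550b5_nt.AC.QeA

/-!
PROJECT AC, block K: the quadratic identity of `E` and the elements `e_m`.
-/

namespace Pool.Agent.Lib.MP_3550b5_nt.AC

open G SV

variable {F : Type} [Field F] [CharZero F] (D : Derivation ℤ F F)

private lemma ld_mul {u v : F} (hu : u ≠ 0) (hv : v ≠ 0) :
    D (u * v) / (u * v) = D u / u + D v / v := by
  rw [D.leibniz, smul_eq_mul, smul_eq_mul]
  field_simp
  ring

private lemma ld_inv {u : F} (hu : u ≠ 0) : D u⁻¹ / u⁻¹ = -(D u / u) := by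
  have h := ld_mul D hu (inv_ne_zero hu)
  rw [mul_inv_cancel₀ hu, D.map_one_eq_zero, zero_div] at h
  linear_combination -h

private lemma y_ne [DecidableEq F] {a b : F} {P : (scurve a b).Point}
    (hP : ∀ m : ℕ, 1 ≤ m → m • P ≠ 0) {m : ℕ} (hm : 1 ≤ m) {x y : F}
    {h : (scurve a b).Nonsingular x y} (e : m • P = .some x y h) : y ≠ 0 := by
  intro hy
  apply hP (2 * m) (by omega)
  rw [two_mul, add_smul, e]
  exact dbl_eq_zero h (by rw [hy, mul_zero])

private lemma tauP_smul [DecidableEq F] {a b : F} (hk : k1 D a b ≠ 0) {P : (scurve a b).Point}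
    (hP : ∀ m : ℕ, 1 ≤ m → m • P ≠ 0) (h0 : tauP D P = 0) (m : ℕ) (hm : 1 ≤ m) :
    tauP D (m • P) = 0 := by
  have hz : ∀ k : ℕ, 1 ≤ k → (k • P + k • P = 0 → k • P = 0) := by
    intro k hk1 h
    exfalso
    apply hP (2 * k) (by omega)
    rw [two_mul, add_smul, h]
  induction m, hm using Nat.le_induction with
  | base => rw [one_smul, h0]
  | succ m hm ih =>
    have h1 := hz 1 le_rfl
    rw [one_smul] at h1
    have h2 := hz (m + 1) (by omega)
    rw [add_smul, one_smul] at h2 ⊢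
    rw [tauP_add D hk (hz m hm) h1 h2, ih, h0, add_zero]

private lemma em_step [DecidableEq F] {a b : F} (hk : k1 D a b ≠ 0) {P : (scurve a b).Point}
    (hP : ∀ m : ℕ, 1 ≤ m → m • P ≠ 0)
    {x y : F} {hxy : (scurve a b).Nonsingular x y} (hPe : P = .some x y hxy)
    {e : F} (he : e ≠ 0) (hE : 2 * E0 D a b x y = D e / e) (m : ℕ) (hm : 1 ≤ m)
    (ih1 : ∃ (x' y' : F) (h' : (scurve a b).Nonsingular x' y') (e' : F),
      m • P = .some x' y' h' ∧ e' ≠ 0 ∧ 2 * E0 D a b x' y' = D e' / e')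
    (ih2 : ∃ (x' y' : F) (h' : (scurve a b).Nonsingular x' y') (e' : F),
      (m + 1) • P = .some x' y' h' ∧ e' ≠ 0 ∧ 2 * E0 D a b x' y' = D e' / e') :
    ∃ (x' y' : F) (h' : (scurve a b).Nonsingular x' y') (e' : F),
      (m + 2) • P = .some x' y' h' ∧ e' ≠ 0 ∧ 2 * E0 D a b x' y' = D e' / e' := by
  obtain ⟨x0, y0, h0, e0, q0, ne0, E0'⟩ := ih1
  obtain ⟨x1, y1, h1, e1, q1, ne1, E1'⟩ := ih2
  have hx : x1 ≠ x := by
    intro hx
    rcases eq_or_neg_of_x h1 hxy hx with hh | hh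
    · rw [← q1, ← hPe, add_smul, one_smul] at hh
      exact hP m hm (by simpa using hh)
    · rw [← q1, ← hPe] at hh
      apply hP (m + 2) (by omega)
      rw [show m + 2 = (m + 1) + 1 by ring, add_smul (m + 1) 1 P, hh, one_smul, neg_add_cancel]
  obtain ⟨l, x3, y3, h3, hl, hx3, hy3, s3⟩ := add_coord h1 hxy hx
  obtain ⟨l', x4, y4, h4, hl', hx4, hy4, s4⟩ := sub_coord h1 hxy hx
  rw [← q1, ← hPe] at s3 s4
  have t3 : (m + 2) • P = .some x3 y3 h3 := by
    rw [← s3, show m + 2 = (m + 1) + 1 by ring, add_smul (m + 1) 1 P, one_smul]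
  have t4 : m • P = .some x4 y4 h4 := by
    rw [← s4, add_smul m 1 P, one_smul, add_sub_cancel_right]
  have hinj : x0 = x4 ∧ y0 = y4 := by
    have := q0.symm.trans t4
    simpa using this
  have n : y ≠ 0 := y_ne hP (m := 1) le_rfl (by rw [one_smul]; exact hPe)
  have n1 : y1 ≠ 0 := y_ne hP (by omega) q1
  have n3 : y3 ≠ 0 := y_ne hP (by omega) t3
  have n4 : y4 ≠ 0 := y_ne hP hm t4
  have key := E0_add D hk (nonsing_iff.1 h1).1 (nonsing_iff.1 hxy).1 hx hl hx3 hy3 hl' hx4 hy4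
    n1 n n3 n4
  rw [← hinj.1, ← hinj.2] at key
  have hd : x1 - x ≠ 0 := sub_ne_zero.2 hx
  have ha : e1 * e * (x1 - x) ≠ 0 := mul_ne_zero (mul_ne_zero ne1 he) hd
  refine ⟨x3, y3, h3, e1 * e * (x1 - x) * (e1 * e * (x1 - x)) * e0⁻¹, t3,
    mul_ne_zero (mul_ne_zero ha ha) (inv_ne_zero ne0), ?_⟩
  rw [ld_mul D (mul_ne_zero ha ha) (inv_ne_zero ne0), ld_mul D ha ha, ld_inv D ne0,
    ld_mul D (mul_ne_zero ne1 he) hd, ld_mul D ne1 he, ← E0', ← E1', ← hE]
  linear_combination 2 * key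

/-- THE ELEMENTS `e_m`. PROOF. Induction on `m` for the pair `m, m + 1`: `e_1 = e`, `e_2 = e^4 y^2` (`E0_dbl`), and for `m ≥ 2`: `x_m ≠ x_1` (else
`(m ± 1) P = 0`), `add_coord` for `m P + P` and `m P - P`, `E0_add`: `e_(m+1) = e_m^2 e_1^2 (x_m - x_1)^2 / e_(m-1)`. All `y`-coordinates are nonzero since
`2 (k P) ≠ 0`. `tau`: `tauP_add`. -/
theorem exists_em [DecidableEq F] {a b : F} (hk : k1 D a b ≠ 0) {P : (scurve a b).Point} (hP : ∀ m : ℕ, 1 ≤ m → m • P ≠ 0)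
    {x y : F} {hxy : (scurve a b).Nonsingular x y} (hPe : P = .some x y hxy) (ht : tau D a b x y = 0)
    {e : F} (he : e ≠ 0) (hE : 2 * E0 D a b x y = D e / e) (m : ℕ) (hm : 1 ≤ m) :
    ∃ (x' y' : F) (h' : (scurve a b).Nonsingular x' y') (e' : F), m • P = .some x' y' h' ∧ y' ≠ 0 ∧ e' ≠ 0 ∧
      tau D a b x' y' = 0 ∧ 2 * E0 D a b x' y' = D e' / e' := by
  have hall : ∀ m : ℕ, 1 ≤ m → (∃ (x' y' : F) (h' : (scurve a b).Nonsingular x' y') (e' : F),
      m • P = .some x' y' h' ∧ e' ≠ 0 ∧ 2 * E0 D a b x' y' = D e' / e') ∧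
      ∃ (x' y' : F) (h' : (scurve a b).Nonsingular x' y') (e' : F),
      (m + 1) • P = .some x' y' h' ∧ e' ≠ 0 ∧ 2 * E0 D a b x' y' = D e' / e' := by
    intro m hm
    induction m, hm using Nat.le_induction with
    | base =>
      refine ⟨⟨x, y, hxy, e, by rw [one_smul]; exact hPe, he, hE⟩, ?_⟩
      have n : y ≠ 0 := y_ne hP (m := 1) le_rfl (by rw [one_smul]; exact hPe)
      obtain ⟨l, x3, y3, h3, hl, hx3, hy3, s3⟩ := dbl_coord hxy (mul_ne_zero two_ne_zero n)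
      have t3 : (1 + 1) • P = .some x3 y3 h3 := by
        rw [← s3, add_smul, one_smul, hPe]
      have n3 : y3 ≠ 0 := y_ne hP (by omega) t3
      have key := E0_dbl D hk (nonsing_iff.1 hxy).1 hl hx3 hy3 n n3
      have h2 : e * e ≠ 0 := mul_ne_zero he he
      have h3' : e * e * y ≠ 0 := mul_ne_zero h2 n
      refine ⟨x3, y3, h3, e * e * y * (e * e * y), t3, mul_ne_zero h3' h3', ?_⟩
      rw [ld_mul D h3' h3', ld_mul D h2 n, ld_mul D he he, ← hE, key]
      ring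
    | succ m hm ih =>
      exact ⟨ih.2, em_step D hk hP hPe he hE m hm ih.1 ih.2⟩
  obtain ⟨x', y', h', e', q, ne, E'⟩ := (hall m hm).1
  refine ⟨x', y', h', e', q, y_ne hP hm q, ne, ?_, E'⟩
  have h0 : tauP D P = 0 := by rw [hPe]; exact ht
  have := tauP_smul D hk hP h0 m hm
  rw [q] at this
  exact this

end Pool.Agent.Lib.MP_3550b5_nt.AC
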