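import Mathlib
import Pool.Agent.Lib.MP_3550b5_nt.SV.Glo
import Pool.Agent.Lib.MP_3550b5_nt.SV.Desc
import Pool.Agent.Lib.MP_3550b5_nt.AC.Pl
import Pool.Agent.Lib.MP_3550b5_nt.AC.Qe

/-!
PROJECT AC, block K: the theorem of the kernel for algebraic points of `y^2 = x^3 + a x + X`.
-/

namespace Pool.Agent.Lib.MP_3550b5_nt.AC

open G SV Polynomial

variable {F : Type} [Field F] [CharZero F] {φ : ℚ[X] →+* F} {D : Derivation ℤ F F}

/-- `k1 = -3 a / (4 a^3 + 27 X^2)` is not zero. -/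
lemma k1_ne (h : FX φ D) {a : ℚ} (ha : a ≠ 0) : k1 D (φ (C a)) (φ X) ≠ 0 := by
  have h1 : φ (C a) = ((a : ℚ) : F) := eq_ratCast (φ.comp C) a
  have h2 : D (φ (C a)) = 0 := by
    rw [h1]
    exact D_ratCast D a
  have h3 : φ (C a) ≠ 0 := by
    rw [h1]
    exact_mod_cast ha
  have hd : dl (φ (C a)) (φ X) ≠ 0 := by
    have e : dl (φ (C a)) (φ X) = φ (4 * C a ^ 3 + 27 * X ^ 2) := by
      unfold dl
      simp only [map_add, map_mul, map_pow, map_ofNat]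
    rw [e]
    intro h0
    have h4 : (4 * C a ^ 3 + 27 * X ^ 2 : ℚ[X]) = 0 := h.inj (by rw [h0, map_zero])
    have h5 := congrArg (fun q : ℚ[X] => q.coeff 2) h4
    have e4 : (4 * C a ^ 3 + 27 * X ^ 2 : ℚ[X]) = C (4 * a ^ 3) + C 27 * X ^ 2 := by
      rw [C_mul, C_pow]
      rfl
    rw [e4] at h5
    simp only [coeff_add, coeff_C_mul, coeff_X_pow, coeff_zero, if_true, coeff_C] at h5
    norm_num at h5
  unfold k1 wr
  rw [h2, h.DX, mul_zero, zero_sub, mul_one]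
  refine div_ne_zero (mul_ne_zero three_ne_zero (neg_ne_zero.2 (mul_ne_zero two_ne_zero h3)))
    (mul_ne_zero two_ne_zero hd)

/-- A FINITE PLACE. PROOF. `LC V (hh • D) (φ (C a)) (φ X)`: `ha`, `hb` by `hφ`; `hmin`: `a` is a unit; `hk`: `k1_smul`, `k1_ne`. `sys_zero`, `sys_smul`, `LC.main`
(a nonsingular point), `Ee_smul`: `hh E0 = n` modulo `𝔪`, `n : ℕ`. `LD.log` for `e`: `hh D e / e = V.v e` modulo `𝔪`. So `V.v e = 2 n` (`LD.nat`). -/
theorem loc_fin (h : FX φ D) {a : ℚ} (ha : a ≠ 0) {V : DVal F} {hh : F} (hh0 : hh ≠ 0) (hV : SV.LD V (hh • D))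
    (hφ : ∀ f, V.D 0 (φ f)) {x y e : F} (hxy : y ^ 2 = x ^ 3 + φ (C a) * x + φ X) (hy : y ≠ 0)
    (hns : ¬ V.Sing (φ (C a)) x y) (ht : tau D (φ (C a)) (φ X) x y = 0) (he : e ≠ 0)
    (hE : 2 * E0 D (φ (C a)) (φ X) x y = D e / e) : V.D 0 e := by
  have hk := k1_ne h ha
  obtain ⟨hΔ, -, ha0, hb0⟩ := ne_of_k1 D hk
  have hva : V.v (φ (C a)) = 0 := by
    have h1 : φ (C a) = ((a : ℚ) : F) := eq_ratCast (φ.comp C) a
    rw [h1]
    exact hV.v_rat ha
  have hLC : LC V (hh • D) (φ (C a)) (φ X) := by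
    refine ⟨hV, hφ _, hφ _, ?_, ?_⟩
    · rintro ⟨h4, -⟩
      rw [DVal.D_iff ha0, hva] at h4
      omega
    · rw [k1_smul]
      exact mul_ne_zero hh0 hk
  obtain ⟨hs1, hs2⟩ := sys_zero D hk ht
  obtain ⟨m, hm⟩ := hLC.main hxy hy hns (sys_smul D hh hs1)
  rw [Ee_smul, hs2] at hm
  have hle := hV.log he
  rw [Derivation.smul_apply, smul_eq_mul] at hle
  have key : V.D 1 ((V.v e - 2 * m : ℤ) : F) := by
    have e1 : ((V.v e - 2 * m : ℤ) : F) =
        2 * (hh * E0 D (φ (C a)) (φ X) x y - (m : F)) - (hh * D e / e - ((V.v e : ℤ) : F)) := by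
      have e2 : hh * D e / e = hh * (2 * E0 D (φ (C a)) (φ X) x y) := by
        rw [hE]
        ring
      rw [e2]
      push_cast
      ring
    rw [e1]
    exact DVal.D_sub (DVal.D_mul' (DVal.D_ofNat 2) hm (by norm_num)) hle
  have hv : V.v e - 2 * m = 0 := by
    by_contra h0
    exact hV.nat _ h0 key
  rw [DVal.D_iff he]
  omega

end Pool.Agent.Lib.MP_3550b5_nt.AC
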