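import Mathlib
import Pool.Agent.Lib.MP_3550b5_nt.AC.KlA

/-!
PROJECT AC, block K: the theorem of the kernel for algebraic points of `y^2 = x^3 + a x + X`.
-/

namespace Pool.Agent.Lib.MP_3550b5_nt.AC

open G SV Polynomial

variable {F : Type} [Field F] [CharZero F] {φ : ℚ[X] →+* F} {D : Derivation ℤ F F}

/-- A PLACE AT INFINITY, `V.v u = j ≥ 1`, `V.v (φ X) = -n`, `6 j - 6 < n ≤ 6 j`. PROOF. The curve `(u^4 a, u^6 X)` is integral and minimal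
(`4 j ≥ 4`, `6 j - n < 6`). `k1_scale`, `sys_scale`, `sys_smul`, `Ee_scale`, `LC.main`: `hh (E0 - D u / u) = n'` modulo `𝔪`, and `hh D u / u = j` modulo `𝔪`
(`LD.log`): `V.v e = 2 (n' + j) ≥ 2`. See the proof of `RF1.no_sys` (SV/Glo). -/
theorem loc_inf (h : FX φ D) {a : ℚ} (ha : a ≠ 0) {V : DVal F} {hh : F} (hh0 : hh ≠ 0) (hV : SV.LD V (hh • D))
    {u : F} (hu : u ≠ 0) {j n : ℕ} (hj : 1 ≤ j) (huj : V.v u = j) (hn : V.v (φ X) = -(n : ℤ)) (hj1 : n ≤ 6 * j)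
    (hj2 : 6 * j < n + 6) {x y e : F} (hxy : y ^ 2 = x ^ 3 + φ (C a) * x + φ X) (hy : y ≠ 0)
    (hns : ¬ V.Sing (u ^ 4 * φ (C a)) (u ^ 2 * x) (u ^ 3 * y)) (ht : tau D (φ (C a)) (φ X) x y = 0) (he : e ≠ 0)
    (hE : 2 * E0 D (φ (C a)) (φ X) x y = D e / e) : V.D 2 e := by
  have hk := k1_ne h ha
  obtain ⟨hΔ, -, ha0, hb0⟩ := ne_of_k1 D hk
  have hva : V.v (φ (C a)) = 0 := by
    have h1 : φ (C a) = ((a : ℚ) : F) := eq_ratCast (φ.comp C) a
    rw [h1]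
    exact hV.v_rat ha
  have hu4 : u ^ 4 * φ (C a) ≠ 0 := mul_ne_zero (pow_ne_zero 4 hu) ha0
  have hu6 : u ^ 6 * φ X ≠ 0 := mul_ne_zero (pow_ne_zero 6 hu) hb0
  have v4 : V.v (u ^ 4 * φ (C a)) = 4 * j := by
    rw [V.map_mul (pow_ne_zero 4 hu) ha0, DVal.v_pow hu, huj, hva]
    push_cast
    ring
  have v6 : V.v (u ^ 6 * φ X) = 6 * j - n := by
    rw [V.map_mul (pow_ne_zero 6 hu) hb0, DVal.v_pow hu, huj, hn]
    push_cast
    ring
  have hLC : LC V (hh • D) (u ^ 4 * φ (C a)) (u ^ 6 * φ X) := by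
    refine ⟨hV, ?_, ?_, ?_, ?_⟩
    · rw [DVal.D_iff hu4, v4]
      omega
    · rw [DVal.D_iff hu6, v6]
      omega
    · rintro ⟨-, h6⟩
      rw [DVal.D_iff hu6, v6] at h6
      omega
    · rw [k1_smul, k1_scale D hu]
      exact mul_ne_zero hh0 (div_ne_zero hk (pow_ne_zero 2 hu))
  have hxy' : (u ^ 3 * y) ^ 2 = (u ^ 2 * x) ^ 3 + u ^ 4 * φ (C a) * (u ^ 2 * x) + u ^ 6 * φ X := by
    linear_combination u ^ 6 * hxy
  obtain ⟨hs1, hs2⟩ := sys_zero D hk ht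
  obtain ⟨m, hm⟩ := hLC.main hxy' (mul_ne_zero (pow_ne_zero 3 hu) hy) hns
    (sys_smul D hh (sys_scale D hu hΔ hs1))
  rw [Ee_smul, Ee_scale D hu hΔ, hs2] at hm
  have hlu := hV.log hu
  have hle := hV.log he
  rw [Derivation.smul_apply, smul_eq_mul, huj] at hlu
  rw [Derivation.smul_apply, smul_eq_mul] at hle
  have key : V.D 1 ((V.v e - 2 * (m + j) : ℤ) : F) := by
    have e1 : ((V.v e - 2 * (m + j) : ℤ) : F) =
        2 * (hh * (E0 D (φ (C a)) (φ X) x y - D u / u) - (m : F)) +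
          2 * (hh * D u / u - ((j : ℤ) : F)) - (hh * D e / e - ((V.v e : ℤ) : F)) := by
      have e2 : hh * D e / e = hh * (2 * E0 D (φ (C a)) (φ X) x y) := by
        rw [hE]
        ring
      rw [e2]
      push_cast
      ring
    rw [e1]
    exact DVal.D_sub (DVal.D_add (DVal.D_mul' (DVal.D_ofNat 2) hm (by norm_num))
      (DVal.D_mul' (DVal.D_ofNat 2) hlu (by norm_num))) hle
  have hv : V.v e - 2 * (m + j) = 0 := by
    by_contra h0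
    exact hV.nat _ h0 key
  rw [DVal.D_iff he]
  omega

end Pool.Agent.Lib.MP_3550b5_nt.AC
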