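import Mathlib
import Pool.Agent.Lib.MP_3550b5_nt.AC.KlB

/-!
PROJECT AC, block K: the theorem of the kernel for algebraic points of `y^2 = x^3 + a x + X`.
-/

namespace Pool.Agent.Lib.MP_3550b5_nt.AC

open G SV Polynomial

variable {F : Type} [Field F] [CharZero F] {φ : ℚ[X] →+* F} {D : Derivation ℤ F F}

/-- A multiple is nonsingular at a finite place; at the places with `V.v (4 a^3 + 27 X^2) = 0` every point is. PROOF. `exists_ns_mult` (`a` is a unit at `V`).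
Good places: `3 x^2 + a`, `y ∈ 𝔪` implies `4 a^3 + 27 X^2 ∈ 𝔪` (a polynomial identity). -/
theorem ns_fin [DecidableEq F] (h : FX φ D) {a : ℚ} (ha : a ≠ 0) {V : DVal F} {hh : F} (hV : SV.LD V (hh • D))
    (hφ : ∀ f, V.D 0 (φ f)) (P : (scurve (φ (C a)) (φ X)).Point) :
    (∃ m : ℕ, 1 ≤ m ∧ V.NS (m • P)) ∧ (V.v (φ (C (4 * a ^ 3) + 27 * X ^ 2)) = 0 → V.NS P) := by
  have hk := k1_ne h ha
  obtain ⟨hΔ, -, ha0, hb0⟩ := ne_of_k1 D hk
  have hva : V.v (φ (C a)) = 0 := by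
    have h1 : φ (C a) = ((a : ℚ) : F) := eq_ratCast (φ.comp C) a
    rw [h1]
    exact hV.v_rat ha
  have hnat : ∀ n : ℕ, n ≠ 0 → ¬ V.D 1 (n : F) := by
    intro n hn h1
    have h2 := hV.nat (n : ℤ) (Int.natCast_ne_zero.2 hn)
    rw [Int.cast_natCast] at h2
    exact h2 h1
  have h2' : ¬ V.D 1 (2 : F) := by exact_mod_cast hnat 2 (by norm_num)
  have h3' : ¬ V.D 1 (3 : F) := by exact_mod_cast hnat 3 (by norm_num)
  have ha1 : ¬ V.D 1 (φ (C a)) := by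
    rw [DVal.D_iff ha0, hva]
    norm_num
  have hΔ' : 4 * (φ (C a)) ^ 3 + 27 * (φ X) ^ 2 ≠ 0 := by
    intro h0
    apply hΔ
    rw [← h0]
    rfl
  refine ⟨exists_ns_mult h2' h3' ha1 (hφ _) hΔ' P, fun hv0 => ?_⟩
  intro x y hxy _ hs
  obtain ⟨s1, s2, s3⟩ := hs
  have he : y ^ 2 = x ^ 3 + φ (C a) * x + φ X := (nonsing_iff.1 hxy).1
  have hmap : φ (C (4 * a ^ 3) + 27 * X ^ 2) = 4 * (φ (C a)) ^ 3 + 27 * (φ X) ^ 2 := by
    have h4 : (C (4 : ℚ) : ℚ[X]) = 4 := rfl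
    rw [C_mul, C_pow, h4, map_add, map_mul, map_mul, map_pow, map_pow, map_ofNat, map_ofNat]
  have key : V.D 1 (4 * (φ (C a)) ^ 3 + 27 * (φ X) ^ 2) := by
    have e1 : 4 * (φ (C a)) ^ 3 + 27 * (φ X) ^ 2 =
        (27 * φ X - 18 * φ (C a) * x) * y ^ 2 +
          (6 * φ (C a) * x ^ 2 - 9 * φ X * x + 4 * (φ (C a)) ^ 2) * (3 * x ^ 2 + φ (C a)) := by
      rw [he]
      ring
    have A0 : V.D 0 (φ (C a)) := hφ _
    have B0 : V.D 0 (φ X) := hφ _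
    have t1 : V.D 0 (27 * φ X - 18 * φ (C a) * x) :=
      DVal.D_sub (DVal.D_mul' (DVal.D_ofNat 27) B0 (by norm_num))
        (DVal.D_mul' (DVal.D_mul' (DVal.D_ofNat 18) A0 (le_refl (0 : ℤ))) s1 (by norm_num))
    have t2 : V.D 1 (y ^ 2) := DVal.D_pow' s2 2 (by norm_num)
    have t3 : V.D 0 (6 * φ (C a) * x ^ 2 - 9 * φ X * x + 4 * (φ (C a)) ^ 2) :=
      DVal.D_add (DVal.D_sub
        (DVal.D_mul' (DVal.D_mul' (DVal.D_ofNat 6) A0 (le_refl (0 : ℤ)))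
          (DVal.D_pow' (l := 0) s1 2 (by norm_num)) (by norm_num))
        (DVal.D_mul' (DVal.D_mul' (DVal.D_ofNat 9) B0 (le_refl (0 : ℤ))) s1 (by norm_num)))
        (DVal.D_mul' (DVal.D_ofNat 4) (DVal.D_pow' (l := 0) A0 2 (by norm_num)) (by norm_num))
    rw [e1]
    exact DVal.D_add (DVal.D_mul' t1 t2 (by norm_num)) (DVal.D_mul' t3 s3 (by norm_num))
  rw [hmap] at hv0
  rw [DVal.D_iff hΔ', hv0] at key
  norm_num at key

/-- A multiple is nonsingular on the minimal model at infinity. PROOF. `exists_scaleHom` with `f = id`, `exists_ns_additive` (`V.D 1 (u^4 a)`), see the proof of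
`RF1.exists_ns` (SV/Desc). -/
theorem ns_inf [DecidableEq F] (h : FX φ D) {a : ℚ} (ha : a ≠ 0) {V : DVal F} {hh : F} (hV : SV.LD V (hh • D))
    {u : F} (hu : u ≠ 0) {j n : ℕ} (hj : 1 ≤ j) (huj : V.v u = j) (hn : V.v (φ X) = -(n : ℤ)) (hj1 : n ≤ 6 * j)
    (hj2 : 6 * j < n + 6) (P : (scurve (φ (C a)) (φ X)).Point) :
    ∃ m : ℕ, 1 ≤ m ∧ ∀ m' : ℕ, ∀ x y hxy, (m' * m) • P = .some x y hxy →
      ¬ V.Sing (u ^ 4 * φ (C a)) (u ^ 2 * x) (u ^ 3 * y) := by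
  have hk := k1_ne h ha
  obtain ⟨-, -, ha0, hb0⟩ := ne_of_k1 D hk
  have hva : V.v (φ (C a)) = 0 := by
    have h1 : φ (C a) = ((a : ℚ) : F) := eq_ratCast (φ.comp C) a
    rw [h1]
    exact hV.v_rat ha
  have hnat : ∀ n : ℕ, n ≠ 0 → ¬ V.D 1 (n : F) := by
    intro n hn h1
    have h2 := hV.nat (n : ℤ) (Int.natCast_ne_zero.2 hn)
    rw [Int.cast_natCast] at h2
    exact h2 h1
  have h2' : ¬ V.D 1 (2 : F) := by exact_mod_cast hnat 2 (by norm_num)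
  have h3' : ¬ V.D 1 (3 : F) := by exact_mod_cast hnat 3 (by norm_num)
  have hu4 : u ^ 4 * φ (C a) ≠ 0 := mul_ne_zero (pow_ne_zero 4 hu) ha0
  have hu6 : u ^ 6 * φ X ≠ 0 := mul_ne_zero (pow_ne_zero 6 hu) hb0
  have v4 : V.v (u ^ 4 * φ (C a)) = 4 * j := by
    rw [V.map_mul (pow_ne_zero 4 hu) ha0, DVal.v_pow hu, huj, hva]
    push_cast
    ring
  have v6 : V.v (u ^ 6 * φ X) = 6 * j - n := by
    rw [V.map_mul (pow_ne_zero 6 hu) hb0, DVal.v_pow hu, huj, hn]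
    push_cast
    ring
  have hscale : ∃ J : (scurve (φ (C a)) (φ X)).Point →+
      (scurve (u ^ 4 * φ (C a)) (u ^ 6 * φ X)).Point,
      ∀ (x y : F) (hh : (scurve (φ (C a)) (φ X)).Nonsingular x y),
        ∃ h' : (scurve (u ^ 4 * φ (C a)) (u ^ 6 * φ X)).Nonsingular (u ^ 2 * x) (u ^ 3 * y),
          J (.some x y hh) = .some _ _ h' :=
    exists_scaleHom (RingHom.id F) hu two_ne_zero (φ (C a)) (φ X)
  obtain ⟨J, hJ⟩ := hscale
  have ha1 : V.D 1 (u ^ 4 * φ (C a)) := by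
    rw [DVal.D_iff hu4, v4]
    omega
  obtain ⟨m, hm, hns⟩ := exists_ns_additive (V := V) h2' h3' ha1 (by
    rintro ⟨-, h6⟩
    rw [DVal.D_iff hu6, v6] at h6
    omega) (J P)
  refine ⟨m, hm, fun m' x y hxy e => ?_⟩
  have h1 : V.NS ((m' * m) • J P) := by
    rw [mul_smul]
    exact DVal.NS_nsmul hns m'
  obtain ⟨h', hJx⟩ := hJ x y hxy
  rw [← map_nsmul, e, hJx, DVal.NS_some] at h1
  exact h1

end Pool.Agent.Lib.MP_3550b5_nt.AC
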