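import Mathlib
import Pool.Agent.Lib.MP_3550b5_nt.AC.KlC

/-!
PROJECT AC, block K: the theorem of the kernel for algebraic points of `y^2 = x^3 + a x + X`.
-/

namespace Pool.Agent.Lib.MP_3550b5_nt.AC

open G SV Polynomial

variable {F : Type} [Field F] [CharZero F] {φ : ℚ[X] →+* F} {D : Derivation ℤ F F}

/-- Every pair of a kernel point equal to `m • P` and its `e` has the property `R e`. -/
private def klQ [DecidableEq F] (D : Derivation ℤ F F) (a b : F) (P : (scurve a b).Point) (R : F → Prop)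
    (m : ℕ) : Prop :=
  ∀ (x y : F) (hxy : (scurve a b).Nonsingular x y) (e : F), m • P = .some x y hxy → y ≠ 0 → e ≠ 0 →
    tau D a b x y = 0 → 2 * E0 D a b x y = D e / e → R e

omit [CharZero F] in
private lemma kl_mono [DecidableEq F] {D : Derivation ℤ F F} {a b : F} {P : (scurve a b).Point} {R S : F → Prop}
    (hRS : ∀ e, R e → S e) {m : ℕ} (h : klQ D a b P R m) : klQ D a b P S m :=
  fun x y hxy e h1 h2 h3 h4 h5 => hRS e (h x y hxy e h1 h2 h3 h4 h5)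

/-- A finite place. -/
private lemma kl_fin [DecidableEq F] (h : FX φ D) {a : ℚ} (ha : a ≠ 0) {V : DVal F} {hh : F} (hh0 : hh ≠ 0)
    (hV : SV.LD V (hh • D)) (hφ : ∀ f, V.D 0 (φ f)) (P : (scurve (φ (C a)) (φ X)).Point) :
    (∃ m : ℕ, 1 ≤ m ∧ ∀ k : ℕ, klQ D (φ (C a)) (φ X) P (V.D 0) (k * m)) ∧
      (V.v (φ (C (4 * a ^ 3) + 27 * X ^ 2)) = 0 → ∀ k : ℕ, klQ D (φ (C a)) (φ X) P (V.D 0) k) := by
  obtain ⟨⟨m, hm, hns⟩, h2⟩ := ns_fin h ha hV hφ P
  have key : ∀ k : ℕ, V.NS (k • P) → klQ D (φ (C a)) (φ X) P (V.D 0) k := by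
    intro k hk x y hxy e h3 hy he ht hE
    rw [h3, DVal.NS_some] at hk
    exact loc_fin h ha hh0 hV hφ (nonsing_iff.1 hxy).1 hy hk ht he hE
  refine ⟨⟨m, hm, fun k => key _ ?_⟩, fun h0 k => key _ (DVal.NS_nsmul (h2 h0) k)⟩
  rw [mul_smul]
  exact DVal.NS_nsmul hns k

/-- A place at infinity. -/
private lemma kl_inf [DecidableEq F] (h : FX φ D) {a : ℚ} (ha : a ≠ 0) {V : DVal F} {hh : F} (hh0 : hh ≠ 0)
    (hV : SV.LD V (hh • D)) (hn : V.v (φ X) < 0) (P : (scurve (φ (C a)) (φ X)).Point) :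
    ∃ m : ℕ, 1 ≤ m ∧ ∀ k : ℕ, klQ D (φ (C a)) (φ X) P (V.D 2) (k * m) := by
  obtain ⟨π, hπ0, hπ1, -⟩ := hV.unif
  obtain ⟨n, hn'⟩ : ∃ n : ℕ, V.v (φ X) = -(n : ℤ) := ⟨(-(V.v (φ X))).toNat, by omega⟩
  have hn1 : 1 ≤ n := by omega
  have hj : 1 ≤ (n + 5) / 6 := by omega
  have hj1 : n ≤ 6 * ((n + 5) / 6) := by omega
  have hj2 : 6 * ((n + 5) / 6) < n + 6 := by omega
  have hu : π ^ ((n + 5) / 6) ≠ 0 := pow_ne_zero _ hπ0
  have huj : V.v (π ^ ((n + 5) / 6)) = (((n + 5) / 6 : ℕ) : ℤ) := by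
    rw [DVal.v_pow hπ0, hπ1, mul_one]
  obtain ⟨m, hm, hns⟩ := ns_inf h ha hV hu hj huj hn' hj1 hj2 P
  refine ⟨m, hm, fun k x y hxy e h3 hy he ht hE => ?_⟩
  exact loc_inf h ha hh0 hV hu hj huj hn' hj1 hj2 (nonsing_iff.1 hxy).1 hy (hns k x y hxy h3) ht he hE

omit [CharZero F] in
/-- The product of the multiples over the finitely many bad places. -/
private lemma kl_prod {ι : Type} {Q : ι → ℕ → Prop} (hm : ∀ i, ∃ m : ℕ, 1 ≤ m ∧ ∀ k : ℕ, Q i (k * m))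
    (hS : {i | ¬ ∀ k : ℕ, Q i k}.Finite) : ∃ m : ℕ, 1 ≤ m ∧ ∀ i, ∀ k : ℕ, Q i (k * m) := by
  classical
  choose m hm1 hm2 using hm
  refine ⟨∏ i ∈ hS.toFinset, m i, Nat.succ_le_of_lt (Finset.prod_pos fun i _ => hm1 i), fun i k => ?_⟩
  by_cases hi : ∀ k : ℕ, Q i k
  · exact hi _
  · have hmem : i ∈ hS.toFinset := hS.mem_toFinset.2 hi
    obtain ⟨c, hc⟩ := Finset.dvd_prod_of_mem m hmem
    rw [hc, mul_comm (m i) c, ← mul_assoc]
    exact hm2 i _

omit [CharZero F] in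
private lemma kl_D0 {V : DVal F} (hr : ∀ q : ℚ, V.D 0 (φ (C q))) (hx : V.D 0 (φ X)) (f : ℚ[X]) :
    V.D 0 (φ f) := by
  induction f using Polynomial.induction_on' with
  | add p q hp hq =>
    rw [map_add]
    exact DVal.D_add hp hq
  | monomial n q =>
    rw [← C_mul_X_pow_eq_monomial, map_mul, map_pow]
    exact DVal.D_mul' (hr q) (DVal.D_pow' (l := 0) hx n (by norm_num)) (by norm_num)

/-- THE KERNEL THEOREM. PROOF. `exists_places` for `φ` and (`FX.inv`) for `φ'`. The places of the second family: at `V` with `V.v (φ X) = 0` the ring contains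
`φ f` for all `f`, and `hh' • D' = (hh' (-(φ X)^2)) • D`: `loc_fin`, `ns_fin` apply; at `V` with `V.v (φ X) < 0` take `π` with `V.v π = 1` (`LD.unif`),
`n = - V.v (φ X)`, `j = ⌈n/6⌉`, `u = π^j`. (`V.v (φ X) > 0` is impossible, `V.D 0 (φ' X)`.) Finitely many places have `V.v (4 a^3 + 27 X^2) ≠ 0` or
`V.v (φ X) ≠ 0`: let `m` be the product of the multiples of `ns_fin`, `ns_inf` over them (`DVal.NS_nsmul`). `exists_em` for this `m`: `e' ≠ 0` is integral over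
`φ` (`loc_fin` at all places), and with `N ≥ - V.v (φ X)` for all (finitely many) places at infinity `e'^N φ X` is integral over `φ'` (`loc_inf`). `not_small`. -/
theorem kernel [DecidableEq F] (h : FX φ D) {a : ℚ} (ha : a ≠ 0) {P : (scurve (φ (C a)) (φ X)).Point}
    (hP : ∀ m : ℕ, 1 ≤ m → m • P ≠ 0) {x y : F} {hxy : (scurve (φ (C a)) (φ X)).Nonsingular x y}
    (hPe : P = .some x y hxy) (ht : tau D (φ (C a)) (φ X) x y = 0) {e : F} (he : e ≠ 0)
    (hE : 2 * E0 D (φ (C a)) (φ X) x y = D e / e) : False := by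
  have hk := k1_ne h ha
  obtain ⟨-, -, -, hb0⟩ := ne_of_k1 D hk
  -- the discriminant polynomial
  have hd0 : (C (4 * a ^ 3) + 27 * X ^ 2 : ℚ[X]) ≠ 0 := by
    intro h0
    have h5 := congrArg (fun q : ℚ[X] => q.coeff 2) h0
    have e4 : (C (4 * a ^ 3) + 27 * X ^ 2 : ℚ[X]) = C (4 * a ^ 3) + C 27 * X ^ 2 := rfl
    rw [e4] at h5
    simp only [coeff_add, coeff_C_mul, coeff_X_pow, coeff_zero, if_true, coeff_C] at h5
    norm_num at h5
  have hd : φ (C (4 * a ^ 3) + 27 * X ^ 2) ≠ 0 := by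
    intro h0
    exact hd0 (h.inj (by rw [h0, map_zero]))
  obtain ⟨ι, V, hh, hh0, hV, hφ, hint, hfin⟩ := exists_places h
  obtain ⟨φ', hφ', h'⟩ := h.inv
  obtain ⟨κ, W, gg, gg0, hW, hWφ, hWint, hWfin⟩ := exists_places h'
  have hg0 : ∀ i, gg i * (-(φ X) ^ 2) ≠ 0 := fun i =>
    mul_ne_zero (gg0 i) (neg_ne_zero.2 (pow_ne_zero 2 hb0))
  have hW' : ∀ i, SV.LD (W i) ((gg i * (-(φ X) ^ 2)) • D) := by
    intro i
    rw [← smul_smul]
    exact hW i
  have hneg : ∀ i, (W i).v (φ X) ≤ 0 := by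
    intro i
    have h1 := hWφ i X
    rw [hφ', DVal.D_iff (inv_ne_zero hb0), DVal.v_inv hb0] at h1
    omega
  have hWD : ∀ i, (W i).v (φ X) = 0 → ∀ f, (W i).D 0 (φ f) := by
    intro i h0
    refine kl_D0 (fun q => ?_) ?_
    · have h1 : φ (C q) = ((q : ℚ) : F) := eq_ratCast (φ.comp C) q
      rw [h1]
      exact (hW i).D_rat q
    · rw [DVal.D_iff hb0, h0]
  -- the multiples
  obtain ⟨M1, hM1, hQ1⟩ := kl_prod (Q := fun i => klQ D (φ (C a)) (φ X) P ((V i).D 0))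
    (fun i => (kl_fin h ha (hh0 i) (hV i) (hφ i) P).1) (by
      refine (hfin _ hd).subset fun i hi => ?_
      intro h0
      exact hi ((kl_fin h ha (hh0 i) (hV i) (hφ i) P).2 h0))
  obtain ⟨M2, hM2, hQ2⟩ := kl_prod
    (Q := fun i => klQ D (φ (C a)) (φ X) P fun e => (W i).D 0 e ∧ ((W i).v (φ X) ≠ 0 → (W i).D 2 e))
    (fun i => by
      by_cases h0 : (W i).v (φ X) = 0
      · obtain ⟨m, hm, hm'⟩ := (kl_fin h ha (hg0 i) (hW' i) (hWD i h0) P).1
        exact ⟨m, hm, fun k => kl_mono (fun e he => ⟨he, fun h1 => absurd h0 h1⟩) (hm' k)⟩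
      · obtain ⟨m, hm, hm'⟩ := kl_inf h ha (hg0 i) (hW' i) (lt_of_le_of_ne (hneg i) h0) P
        exact ⟨m, hm, fun k => kl_mono
          (fun e he => ⟨DVal.D_mono (by norm_num) he, fun _ => he⟩) (hm' k)⟩) (by
      refine ((hWfin _ hd).union (hWfin _ hb0)).subset fun i hi => ?_
      by_cases h1 : (W i).v (φ (C (4 * a ^ 3) + 27 * X ^ 2)) = 0
      · by_cases h3 : (W i).v (φ X) = 0
        · exact absurd (fun k => kl_mono (fun e he => ⟨he, fun h2 => absurd h3 h2⟩)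
            ((kl_fin h ha (hg0 i) (hW' i) (hWD i h3) P).2 h1 k)) hi
        · exact Or.inr h3
      · exact Or.inl h1)
  -- the element
  obtain ⟨x', y', h2, e', he1, hy', he', ht', hE'⟩ := exists_em D hk hP hPe ht he hE (M1 * M2)
    (Nat.mul_pos hM1 hM2)
  have hI : φ.IsIntegralElem e' := by
    refine hint e' fun i => ?_
    have h3 := hQ1 i M2
    rw [mul_comm] at h3
    exact h3 x' y' h2 e' he1 hy' he' ht' hE'
  have hJ : ∀ i, (W i).D 0 e' ∧ ((W i).v (φ X) ≠ 0 → (W i).D 2 e') := fun i =>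
    hQ2 i M1 x' y' h2 e' he1 hy' he' ht' hE'
  -- the exponent
  obtain ⟨N, hN⟩ : ∃ N : ℕ, ∀ i, -((W i).v (φ X)) ≤ (N : ℤ) := by
    classical
    refine ⟨∑ i ∈ (hWfin _ hb0).toFinset, (-((W i).v (φ X))).toNat, fun i => ?_⟩
    by_cases h0 : (W i).v (φ X) = 0
    · rw [h0, neg_zero]
      exact Int.natCast_nonneg _
    · have hmem : i ∈ (hWfin _ hb0).toFinset := (hWfin _ hb0).mem_toFinset.2 h0
      have h3 : (-((W i).v (φ X))).toNat ≤
          ∑ i ∈ (hWfin _ hb0).toFinset, (-((W i).v (φ X))).toNat :=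
        Finset.single_le_sum (f := fun i => (-((W i).v (φ X))).toNat) (fun _ _ => Nat.zero_le _) hmem
      omega
  refine not_small h hφ' he' hI (N := N) (hWint _ fun i => ?_)
  by_cases h0 : (W i).v (φ X) = 0
  · exact DVal.D_mul' (DVal.D_pow' (l := 0) (hJ i).1 N (by norm_num)) (hWD i h0 X) (by norm_num)
  · have h3 := hN i
    refine DVal.D_mul' (DVal.D_pow ((hJ i).2 h0) N) (DVal.exists_exact hb0).1 ?_
    omega

end Pool.Agent.Lib.MP_3550b5_nt.AC
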