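import Mathlib
import Pool.Agent.Lib.MP_3550b5_nt.G.Coord
import Pool.Agent.Lib.MP_3550b5_nt.AC.LfA

/-!
PROJECT AC, block K: a point of infinite order on one fibre gives a point of infinite order over the function field.
-/

namespace Pool.Agent.Lib.MP_3550b5_nt.AC

open G MvPolynomial

private lemma KtA_add {F κ : Type} [Field F] [DecidableEq F] [Field κ] [DecidableEq κ]
    (V : Subring F) (ρ : V →+* κ) (hρ : ∀ x : V, ρ x ≠ 0 → ∃ z : V, x * z = 1)
    {a b x y u w : V} (h : (scurve (a : F) (b : F)).Nonsingular (x : F) (y : F))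
    (h' : (scurve (ρ a) (ρ b)).Nonsingular (ρ x) (ρ y))
    (g : (scurve (a : F) (b : F)).Nonsingular (u : F) (w : F))
    (g' : (scurve (ρ a) (ρ b)).Nonsingular (ρ u) (ρ w)) (hne : ρ u ≠ ρ x) :
    ∃ (s t : V) (k : (scurve (a : F) (b : F)).Nonsingular (s : F) (t : F))
      (k' : (scurve (ρ a) (ρ b)).Nonsingular (ρ s) (ρ t)),
      (.some _ _ g + .some _ _ h : (scurve (a : F) (b : F)).Point) = .some _ _ k ∧
      (.some _ _ g' + .some _ _ h' : (scurve (ρ a) (ρ b)).Point) = .some _ _ k' := by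
  obtain ⟨z, hz⟩ := hρ (u - x) (by rw [map_sub]; exact sub_ne_zero.2 hne)
  have hzF : ((u : F) - x) * z = 1 := by exact_mod_cast congrArg (Subtype.val : V → F) hz
  have hzκ : (ρ u - ρ x) * ρ z = 1 := by rw [← map_sub, ← map_mul, hz, map_one]
  have hneF : (u : F) ≠ x := fun h0 => by
    rw [h0, sub_self, zero_mul] at hzF
    exact zero_ne_one hzF
  obtain ⟨l, x3, y3, h3, e1, e2, e3, e4⟩ := add_coord g h hneF
  obtain ⟨l', x3', y3', h3', f1, f2, f3, f4⟩ := add_coord g' h' hne
  have hl : l = (((w - y) * z : V) : F) := by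
    push_cast
    rw [← e1, mul_assoc, hzF, mul_one]
  have hl' : l' = ρ ((w - y) * z) := by
    rw [map_mul, map_sub, ← f1, mul_assoc, hzκ, mul_one]
  generalize (w - y) * z = L at hl hl'
  subst hl hl'
  have hx : x3 = ((L ^ 2 - u - x : V) : F) := by
    rw [e2]
    push_cast
    ring
  have hx' : x3' = ρ (L ^ 2 - u - x) := by
    rw [f2, map_sub, map_sub, map_pow]
  generalize L ^ 2 - u - x = s at hx hx'
  subst hx hx'
  have hy : y3 = ((-w - L * (s - u) : V) : F) := by
    rw [e3]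
    push_cast
    ring
  have hy' : y3' = ρ (-w - L * (s - u)) := by
    rw [f3, map_sub, map_neg, map_mul, map_sub]
  generalize -w - L * (s - u) = t at hy hy'
  subst hy hy'
  exact ⟨s, t, h3, h3', e4, f4⟩

private lemma KtA_dbl {F κ : Type} [Field F] [DecidableEq F] [Field κ] [DecidableEq κ]
    (V : Subring F) (ρ : V →+* κ) (hρ : ∀ x : V, ρ x ≠ 0 → ∃ z : V, x * z = 1)
    {a b x y : V} (h : (scurve (a : F) (b : F)).Nonsingular (x : F) (y : F))
    (h' : (scurve (ρ a) (ρ b)).Nonsingular (ρ x) (ρ y)) (hne : 2 * ρ y ≠ 0) :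
    ∃ (s t : V) (k : (scurve (a : F) (b : F)).Nonsingular (s : F) (t : F))
      (k' : (scurve (ρ a) (ρ b)).Nonsingular (ρ s) (ρ t)),
      (.some _ _ h + .some _ _ h : (scurve (a : F) (b : F)).Point) = .some _ _ k ∧
      (.some _ _ h' + .some _ _ h' : (scurve (ρ a) (ρ b)).Point) = .some _ _ k' := by
  obtain ⟨z, hz⟩ := hρ (2 * y) (by rw [map_mul, map_ofNat]; exact hne)
  have c2 : ((2 : V) : F) = 2 := map_ofNat V.subtype 2
  have c3 : ((3 : V) : F) = 3 := map_ofNat V.subtype 3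
  have hzF : 2 * (y : F) * z = 1 := by
    have h0 := congrArg (Subtype.val : V → F) hz
    push_cast at h0
    rwa [c2] at h0
  have hzκ : 2 * ρ y * ρ z = 1 := by rw [← map_ofNat ρ 2, ← map_mul, ← map_mul, hz, map_one]
  have hneF : 2 * (y : F) ≠ 0 := fun h0 => by
    rw [h0, zero_mul] at hzF
    exact zero_ne_one hzF
  obtain ⟨l, x3, y3, h3, e1, e2, e3, e4⟩ := dbl_coord h hneF
  obtain ⟨l', x3', y3', h3', f1, f2, f3, f4⟩ := dbl_coord h' hne
  have hl : l = (((3 * x ^ 2 + a) * z : V) : F) := by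
    push_cast
    rw [c3, ← e1]
    linear_combination -l * hzF
  have hl' : l' = ρ ((3 * x ^ 2 + a) * z) := by
    rw [map_mul, map_add, map_mul, map_pow, map_ofNat, ← f1]
    linear_combination -l' * hzκ
  generalize (3 * x ^ 2 + a) * z = L at hl hl'
  subst hl hl'
  have hx : x3 = ((L ^ 2 - 2 * x : V) : F) := by
    rw [e2]
    push_cast
    rw [c2]
  have hx' : x3' = ρ (L ^ 2 - 2 * x) := by
    rw [f2, map_sub, map_mul, map_pow, map_ofNat]
  generalize L ^ 2 - 2 * x = s at hx hx'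
  subst hx hx'
  have hy : y3 = ((-y - L * (s - x) : V) : F) := by
    rw [e3]
    push_cast
    ring
  have hy' : y3' = ρ (-y - L * (s - x)) := by
    rw [f3, map_sub, map_neg, map_mul, map_sub]
  generalize -y - L * (s - x) = t at hy hy'
  subst hy hy'
  exact ⟨s, t, h3, h3', e4, f4⟩

private lemma KtA_main {F κ : Type} [Field F] [DecidableEq F] [Field κ] [DecidableEq κ]
    (V : Subring F) (ρ : V →+* κ) (hρ : ∀ x : V, ρ x ≠ 0 → ∃ z : V, x * z = 1)
    {a b x y : V} (h : (scurve (a : F) (b : F)).Nonsingular (x : F) (y : F))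
    (h' : (scurve (ρ a) (ρ b)).Nonsingular (ρ x) (ρ y))
    (hinf : ∀ m : ℕ, 1 ≤ m → m • (.some _ _ h' : (scurve (ρ a) (ρ b)).Point) ≠ 0) (m : ℕ)
    (hm : 1 ≤ m) :
    ∃ (s t : V) (k : (scurve (a : F) (b : F)).Nonsingular (s : F) (t : F))
      (k' : (scurve (ρ a) (ρ b)).Nonsingular (ρ s) (ρ t)),
      m • (.some _ _ h : (scurve (a : F) (b : F)).Point) = .some _ _ k ∧
      m • (.some _ _ h' : (scurve (ρ a) (ρ b)).Point) = .some _ _ k' := by
  induction m, hm using Nat.le_induction with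
  | base => exact ⟨x, y, h, h', one_smul _ _, one_smul _ _⟩
  | succ m hm ih =>
    obtain ⟨u, w, g, g', hg, hg'⟩ := ih
    rcases Nat.lt_or_ge 1 m with h1 | h1
    · have hne : ρ u ≠ ρ x := by
        intro h0
        rcases eq_or_neg_of_x g' h' h0 with h2 | h2
        · rw [← hg'] at h2
          obtain ⟨j, rfl⟩ : ∃ j, m = j + 1 := ⟨m - 1, by omega⟩
          rw [succ_nsmul, add_eq_right] at h2
          exact hinf j (by omega) h2
        · rw [← hg'] at h2
          refine hinf (m + 1) (by omega) ?_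
          rw [succ_nsmul, h2, neg_add_cancel]
      obtain ⟨s, t, k, k', e1, e2⟩ := KtA_add V ρ hρ h h' g g' hne
      exact ⟨s, t, k, k', by rw [succ_nsmul, hg, e1], by rw [succ_nsmul, hg', e2]⟩
    · obtain rfl : m = 1 := by omega
      have hne : 2 * ρ y ≠ 0 := by
        intro h0
        have h2 := dbl_eq_zero h' h0
        rw [← two_nsmul] at h2
        exact hinf 2 (by norm_num) h2
      obtain ⟨s, t, k, k', e1, e2⟩ := KtA_dbl V ρ hρ h h' hne
      exact ⟨s, t, k, k', by rw [succ_nsmul, one_smul, e1], by rw [succ_nsmul, one_smul, e2]⟩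

/-- The inductive step over a valuation ring. `V` is a valuation subring of `F` (every element or its inverse is in `V`), `ρ : V → κ` its residue map. A point `(x, y)` with `x, y ∈ V`
of `y^2 = x^3 + a x + b`, `a, b ∈ V`, reduces to `(ρ x, ρ y)`. If the reduction has infinite order so has the point. PROOF. Claim: for all `m ≥ 1` the point `m P` is affine with
coordinates in `V` which reduce to those of `m ρ(P)`. `m = 1` clear. `m = 2`: `2 y` is a unit (`2 ρ(P) ≠ 0`), `dbl_coord`. `m ≥ 2`: the residues of `x_m` and `x_1` differ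
(`(m ± 1) ρ(P) ≠ 0`), so `x_m - x_1` is a unit, `add_coord`. -/
theorem inf_order_res {F κ : Type} [Field F] [DecidableEq F] [Field κ] [CharZero κ] [DecidableEq κ] (V : Subring F) (ρ : V →+* κ)
    (hρ : ∀ x : V, ρ x ≠ 0 → ∃ z : V, x * z = 1) {a b x y : V} (h : (scurve (a : F) (b : F)).Nonsingular (x : F) (y : F))
    (h' : (scurve (ρ a) (ρ b)).Nonsingular (ρ x) (ρ y))
    (hinf : ∀ m : ℕ, 1 ≤ m → m • (.some _ _ h' : (scurve (ρ a) (ρ b)).Point) ≠ 0) (m : ℕ) (hm : 1 ≤ m) :
    m • (.some _ _ h : (scurve (a : F) (b : F)).Point) ≠ 0 := by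
  obtain ⟨s, t, k, k', e1, e2⟩ := KtA_main V ρ hρ h h' hinf m hm
  rw [e1]
  exact WeierstrassCurve.Affine.Point.some_ne_zero k

end Pool.Agent.Lib.MP_3550b5_nt.AC
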