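import Mathlib
import Pool.Agent.Lib.MP_3550b5_nt.AC.KtA

/-!
PROJECT AC, block K: a point of infinite order on one fibre gives a point of infinite order over the function field.
-/

namespace Pool.Agent.Lib.MP_3550b5_nt.AC

open G MvPolynomial

/-- A valuation ring which dominates the local ring of the fibre. -/
private lemma kt_val {F' : Type} [Field F'] (π : Q3 →+* F') (v : Fin 3 → ℤ)
    (hπ : ∀ G, π G = 0 → eval v G = 0) :
    ∃ (V : Subring F') (κ : Type) (_ : Field κ) (_ : CharZero κ) (ρ : V →+* κ),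
      (∀ x : V, ρ x ≠ 0 → ∃ z : V, x * z = 1) ∧ (∀ x : F', x ∈ V ∨ x⁻¹ ∈ V) ∧
        ∀ G, ∃ h : π G ∈ V, ρ ⟨π G, h⟩ = ((eval v G : ℤ) : κ) := by
  have hpr : (RingHom.ker (eval v)).IsPrime := RingHom.ker_isPrime _
  have hunit : ∀ s : (RingHom.ker (eval v)).primeCompl, IsUnit (π s) := fun s => by
    rw [isUnit_iff_ne_zero]
    intro h
    exact s.2 (RingHom.mem_ker.2 (hπ _ h))
  obtain ⟨f, hf⟩ : ∃ f : Localization.AtPrime (RingHom.ker (eval v)) →+* F',
      ∀ G, f (algebraMap Q3 _ G) = π G :=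
    ⟨IsLocalization.lift (M := (RingHom.ker (eval v)).primeCompl) hunit,
      IsLocalization.lift_eq hunit⟩
  obtain ⟨A, hA, hloc⟩ := IsLocalRing.exists_factor_valuationRing f
  have hmem : ∀ G, π G ∈ A := fun G => by
    rw [← hf]
    exact hA _
  have hcod : ∀ G, f.codRestrict A.toSubring hA (algebraMap Q3 _ G) = (⟨π G, hmem G⟩ : A) :=
    fun G => Subtype.ext (hf G)
  have hun : ∀ G, eval v G ≠ 0 → IsUnit (⟨π G, hmem G⟩ : A) := by
    intro G hG
    rw [← hcod]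
    refine RingHom.isUnit_map _ ?_
    rw [IsLocalization.AtPrime.isUnit_to_map_iff _ (RingHom.ker (eval v))]
    exact fun h => hG (RingHom.mem_ker.1 h)
  have hnon : ∀ G, eval v G = 0 → ¬ IsUnit (⟨π G, hmem G⟩ : A) := by
    intro G hG h
    rw [← hcod] at h
    have h1 := hloc.map_nonunit _ h
    rw [IsLocalization.AtPrime.isUnit_to_map_iff _ (RingHom.ker (eval v))] at h1
    exact h1 (RingHom.mem_ker.2 hG)
  have hint : ∀ c : ℤ, π (C c) = (c : F') := fun c => eq_intCast (π.comp C) c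
  have hres : ∀ G, IsLocalRing.residue A ⟨π G, hmem G⟩ =
      ((eval v G : ℤ) : IsLocalRing.ResidueField A) := by
    intro G
    have h1 : eval v (G - C (eval v G)) = 0 := by rw [map_sub, eval_C, sub_self]
    have h2 := hnon _ h1
    rw [← mem_nonunits_iff, ← IsLocalRing.mem_maximalIdeal, ← IsLocalRing.residue_eq_zero_iff] at h2
    have h3 : (⟨π (G - C (eval v G)), hmem _⟩ : A) = ⟨π G, hmem G⟩ - ((eval v G : ℤ) : A) := by
      refine Subtype.ext ?_
      change π (G - C (eval v G)) = π G - (((eval v G : ℤ) : A) : F')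
      have h4 : (((eval v G : ℤ) : A) : F') = ((eval v G : ℤ) : F') :=
        map_intCast A.subtype _
      rw [map_sub, hint, h4]
    rw [h3, map_sub, map_intCast, sub_eq_zero] at h2
    exact h2
  have hu : ∀ x : A, IsLocalRing.residue A x ≠ 0 → ∃ z : A, x * z = 1 := by
    intro x hx
    have h1 : IsUnit x := by
      by_contra h
      rw [← mem_nonunits_iff, ← IsLocalRing.mem_maximalIdeal,
        ← IsLocalRing.residue_eq_zero_iff] at h
      exact hx h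
    exact h1.exists_right_inv
  refine ⟨A.toSubring, IsLocalRing.ResidueField A, inferInstance, ?_, IsLocalRing.residue A, hu,
    A.mem_or_inv_mem, fun G => ⟨hmem G, hres G⟩⟩
  refine charZero_of_inj_zero fun n hn => ?_
  by_contra h0
  have h1 : eval v (C (n : ℤ)) ≠ 0 := by
    rw [eval_C]
    exact_mod_cast h0
  have h2 := (hun _ h1).map (IsLocalRing.residue A)
  rw [hres, eval_C, Int.cast_natCast, hn] at h2
  exact not_isUnit_zero h2

/-- Points of infinite order over a larger field. -/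
private lemma kt_map {κ : Type} [Field κ] [CharZero κ] [DecidableEq κ] (W' : WeierstrassCurve ℤ)
    (W1 : WeierstrassCurve.Affine ℚ) (W2 : WeierstrassCurve.Affine κ)
    (hW1 : W1 = W'.map (algebraMap ℤ ℚ)) (hW2 : W2 = W'.map (algebraMap ℤ κ)) {x y : ℚ}
    (h : W1.Nonsingular x y) (h' : W2.Nonsingular (x : κ) (y : κ))
    (hinf : ∀ m : ℕ, 1 ≤ m → m • (.some _ _ h : W1.Point) ≠ 0) (m : ℕ) (hm : 1 ≤ m) :
    m • (.some _ _ h' : W2.Point) ≠ 0 := by
  subst hW1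
  subst hW2
  have h1 : (.some _ _ h' : (W'.map (algebraMap ℤ κ)).toAffine.Point) =
      WeierstrassCurve.Affine.Point.map (W' := W') (Rat.castHom κ).toIntAlgHom (.some _ _ h) :=
    rfl
  intro h2
  apply hinf m hm
  apply WeierstrassCurve.Affine.Point.map_injective (W' := W') (f := (Rat.castHom κ).toIntAlgHom)
  have h3 := map_nsmul (WeierstrassCurve.Affine.Point.map (W' := W')
    (Rat.castHom κ).toIntAlgHom) m (.some _ _ h)
  refine h3.trans ?_
  rw [h1] at h2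
  exact h2

/-- PROOF. The local subring of `F'` (localization of `π(ℤ[b, D, A])` at the kernel of `eval v`, well defined by `hπ`) is dominated by a valuation subring `V`
(`LocalSubring.exists_le_valuationSubring`); its residue field `κ` contains `ℚ` (`CharZero`), `ρ(π G) = eval v G`. `x ∈ V` since `π (X 1)` is a unit, `y ∈ V` since `y^2 ∈ V`
and `V` is integrally closed; `ρ(x) = x₀`, `ρ(y)^2 = y₀^2`, so `ρ(y) = ± y₀`. The point `(x₀, ± y₀)` of the curve over `κ` has infinite order (`Point.map` of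
`ℚ → κ` is injective, `neg_coord`). `inf_order_res`. -/
theorem inf_order {F' : Type} [Field F'] [CharZero F'] [DecidableEq F'] (π : Q3 →+* F') (v : Fin 3 → ℤ)
    (hπ : ∀ G, π G = 0 → eval v G = 0) (a : ℤ) (hD : v 1 ≠ 0) {x y : F'} (hx : π (X 2) = x * π (X 1) ^ 2)
    (h : (scurve (a : F') (π (X 0))).Nonsingular x y) {x₀ y₀ : ℚ} (h0 : (scurve (a : ℚ) (v 0 : ℚ)).Nonsingular x₀ y₀)
    (hx0 : (v 2 : ℚ) = x₀ * (v 1) ^ 2)
    (hinf : ∀ m : ℕ, 1 ≤ m → m • (.some _ _ h0 : (scurve (a : ℚ) (v 0 : ℚ)).Point) ≠ 0) (m : ℕ) (hm : 1 ≤ m) :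
    m • (.some _ _ h : (scurve (a : F') (π (X 0))).Point) ≠ 0 := by
  classical
  obtain ⟨V, κ, _, _, ρ, hρ, hval, hev⟩ := kt_val π v hπ
  obtain ⟨hb, hb'⟩ := hev (X 0)
  obtain ⟨hd, hd'⟩ := hev (X 1)
  obtain ⟨he, he'⟩ := hev (X 2)
  rw [eval_X] at hb' hd' he'
  have hv1 : ((v 1 : ℤ) : κ) ≠ 0 := by exact_mod_cast hD
  obtain ⟨z, hz⟩ := hρ ⟨π (X 1), hd⟩ (by rw [hd']; exact hv1)
  have hz1 : π (X 1) * (z : F') = 1 := congrArg Subtype.val hz
  have hxz : x = π (X 2) * (z : F') ^ 2 := by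
    rw [hx]
    linear_combination (-x * (1 + π (X 1) * (z : F'))) * hz1
  have hxV : x ∈ V := by
    rw [hxz]
    exact V.mul_mem he (V.pow_mem z.2 2)
  have hρz : ((v 1 : ℤ) : κ) * ρ z = 1 := by
    rw [← hd', ← map_mul, hz, map_one]
  have hρx : ρ ⟨x, hxV⟩ = (x₀ : κ) := by
    have h1 : (⟨x, hxV⟩ : V) = ⟨π (X 2), he⟩ * z ^ 2 := Subtype.ext hxz
    have h2 : ((((v 2 : ℤ) : ℚ)) : κ) = ((x₀ * ((v 1 : ℤ) : ℚ) ^ 2 : ℚ) : κ) := by rw [hx0]
    push_cast at h2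
    rw [h1, map_mul, map_pow, he', h2]
    linear_combination ((x₀ : κ) * (1 + ((v 1 : ℤ) : κ) * ρ z)) * hρz
  have hy2 := scurve_eq h
  have haV : (a : F') ∈ V := intCast_mem V a
  have hy2V : y ^ 2 ∈ V := by
    rw [hy2]
    exact V.add_mem (V.add_mem (V.pow_mem hxV 3) (V.mul_mem haV hxV)) hb
  have hyV : y ∈ V := by
    rcases hval y with h1 | h1
    · exact h1
    · by_cases hy0 : y = 0
      · rw [hy0]
        exact V.zero_mem
      · have h2 : y = y ^ 2 * y⁻¹ := by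
          field_simp
        rw [h2]
        exact V.mul_mem hy2V h1
  have hρa : ρ ⟨(a : F'), haV⟩ = (a : κ) := by
    have h1 : (⟨(a : F'), haV⟩ : V) = (a : V) := Subtype.ext (map_intCast V.subtype a).symm
    rw [h1, map_intCast]
  have hρy : ρ ⟨y, hyV⟩ ^ 2 = (y₀ : κ) ^ 2 := by
    have h1 : (⟨y, hyV⟩ : V) ^ 2 = ⟨x, hxV⟩ ^ 3 + ⟨(a : F'), haV⟩ * ⟨x, hxV⟩ + ⟨π (X 0), hb⟩ :=
      Subtype.ext hy2
    have h2 := congrArg ρ h1
    rw [map_pow, map_add, map_add, map_pow, map_mul, hρx, hρa, hb'] at h2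
    have h3 : ((y₀ ^ 2 : ℚ) : κ) = ((x₀ ^ 3 + (a : ℚ) * x₀ + ((v 0 : ℤ) : ℚ) : ℚ) : κ) := by
      rw [scurve_eq h0]
    push_cast at h3
    rw [h2, h3]
  -- the point over the residue field
  have hns : (scurve (a : κ) ((v 0 : ℤ) : κ)).Nonsingular (x₀ : κ) (y₀ : κ) := by
    rw [nonsing_iff] at h0 ⊢
    obtain ⟨e1, e2⟩ := h0
    refine ⟨by exact_mod_cast e1, ?_⟩
    rcases e2 with e2 | e2
    · left
      exact_mod_cast e2
    · right
      exact_mod_cast e2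
  have hinf' : ∀ m : ℕ, 1 ≤ m →
      m • (.some _ _ hns : (scurve (a : κ) ((v 0 : ℤ) : κ)).Point) ≠ 0 := by
    refine kt_map ⟨0, 0, 0, a, v 0⟩ _ _ ?_ ?_ h0 hns hinf
    · ext <;> simp [scurve]
    · ext <;> simp [scurve]
  have key : ∃ (yy : κ) (hn : (scurve (a : κ) ((v 0 : ℤ) : κ)).Nonsingular (x₀ : κ) yy),
      ρ ⟨y, hyV⟩ = yy ∧ ∀ m : ℕ, 1 ≤ m →
        m • (.some _ _ hn : (scurve (a : κ) ((v 0 : ℤ) : κ)).Point) ≠ 0 := by
    rcases sq_eq_sq_iff_eq_or_eq_neg.1 hρy with h1 | h1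
    · exact ⟨_, hns, h1, hinf'⟩
    · obtain ⟨hn, e⟩ := neg_coord hns
      refine ⟨_, hn, h1, fun m hm h2 => ?_⟩
      rw [← e, smul_neg, neg_eq_zero] at h2
      exact hinf' m hm h2
  obtain ⟨yy, hn, hyy, hinf2⟩ := key
  have gen : ∀ (aa bb xx : κ) (h1 : ρ ⟨(a : F'), haV⟩ = aa) (h2 : ρ ⟨π (X 0), hb⟩ = bb)
      (h3 : ρ ⟨x, hxV⟩ = xx) (hn : (scurve aa bb).Nonsingular xx yy)
      (hi : ∀ m : ℕ, 1 ≤ m → m • (.some _ _ hn : (scurve aa bb).Point) ≠ 0),
      m • (.some _ _ h : (scurve (a : F') (π (X 0))).Point) ≠ 0 := by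
    intro aa bb xx h1 h2 h3
    subst h1 h2 h3 hyy
    intro hn hi
    exact inf_order_res V ρ hρ (a := ⟨(a : F'), haV⟩) (b := ⟨π (X 0), hb⟩) (x := ⟨x, hxV⟩)
      (y := ⟨y, hyV⟩) h hn hi m hm
  exact gen _ _ _ hρa hb' hρx hn hinf2

end Pool.Agent.Lib.MP_3550b5_nt.AC
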