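import Mathlib
import Pool.Agent.Lib.MP_3550b5_nt.SV.Sum
import Pool.Agent.Lib.MP_3550b5_nt.SV.Cmp
import Pool.Agent.Lib.MP_3550b5_nt.SV.FFormX
import Pool.Agent.Lib.MP_3550b5_nt.AC.PlA

/-!
PROJECT AC, block R: the Riccati equation of `y^2 = x^3 + a x + X` has no algebraic solution.
-/

namespace Pool.Agent.Lib.MP_3550b5_nt.AC

open G SV Polynomial

variable {F : Type} [Field F] [CharZero F] {φ : ℚ[X] →+* F} {D : Derivation ℤ F F}

private lemma rc_map {E E' : Type*} [Field E] [Field E'] {D : Derivation ℤ E E}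
    {D' : Derivation ℤ E' E'} (f : E →+* E') (hf : ∀ x, f (D x) = D' (f x)) (a b : E) :
    f (k1 D a b) = k1 D' (f a) (f b) ∧ f (g1 D a b) = g1 D' (f a) (f b) := by
  have h1 : f (wr D a b) = wr D' (f a) (f b) := by
    unfold wr
    rw [map_sub, map_mul, map_mul, map_mul, map_mul, hf, hf, map_ofNat, map_ofNat]
  have h2 : f (dl a b) = dl (f a) (f b) := by
    unfold dl
    rw [map_add, map_mul, map_mul, map_pow, map_pow, map_ofNat, map_ofNat]
  constructor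
  · unfold k1
    rw [map_div₀, map_mul, map_mul, h1, h2, map_ofNat, map_ofNat]
  · unfold g1
    rw [map_div₀, hf, map_mul, h2, map_ofNat]

omit [CharZero F] in
/-- The embedding of the field of rational functions. -/
private lemma rc_emb {F₀ : Type} [Field F₀] {φ₀ : ℚ[X] →+* F₀} (h0 : IsFrac φ₀)
    (hφ : Function.Injective φ) : ∃ j : F₀ →+* F, ∀ f, j (φ₀ f) = φ f := by
  let _ : Algebra ℚ[X] F₀ := φ₀.toAlgebra
  have hfs : FaithfulSMul ℚ[X] F₀ := (faithfulSMul_iff_algebraMap_injective ℚ[X] F₀).2 h0.inj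
  have hfr : IsFractionRing ℚ[X] F₀ := IsFractionRing.of_field ℚ[X] F₀ fun z => by
    obtain ⟨u, v, -, h1⟩ := h0.surj z
    exact ⟨u, v, h1⟩
  exact ⟨IsFractionRing.lift hφ, fun f => IsFractionRing.lift_algebraMap hφ f⟩

private lemma rc_k1 {F₀ : Type} [Field F₀] [CharZero F₀] {φ₀ : ℚ[X] →+* F₀}
    {D₀ : Derivation ℤ F₀ F₀} (h0 : RF1 φ₀ D₀) {a : ℚ} (ha : a ≠ 0) :
    k1 D₀ (φ₀ (C a)) (φ₀ X) ≠ 0 := by
  have h1 : dl (φ₀ (C a)) (φ₀ X) = φ₀ (C (4 * a ^ 3) + C 27 * X ^ 2) := by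
    unfold dl
    rw [map_add, C_mul, C_pow, map_mul, map_pow, map_mul, map_pow]
    have h4 : φ₀ (C 4) = 4 := by
      rw [show (C 4 : ℚ[X]) = 4 from rfl, map_ofNat]
    have h27 : φ₀ (C 27) = 27 := by
      rw [show (C 27 : ℚ[X]) = 27 from rfl, map_ofNat]
    rw [h4, h27]
  have h2 : dl (φ₀ (C a)) (φ₀ X) ≠ 0 := by
    rw [h1]
    refine h0.ne fun h => ?_
    have h3 := congrArg (fun p : ℚ[X] => p.coeff 2) h
    simp only [coeff_add, coeff_C_mul, coeff_X_pow, coeff_C, coeff_zero] at h3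
    norm_num at h3
  have h3 : wr D₀ (φ₀ (C a)) (φ₀ X) = -(2 * φ₀ (C a)) := by
    unfold wr
    rw [h0.map_C, h0.map_X]
    ring
  have h4 : φ₀ (C a) ≠ 0 := h0.ne (C_ne_zero.2 ha)
  unfold k1
  rw [h3]
  exact div_ne_zero (mul_ne_zero (by norm_num) (neg_ne_zero.2 (mul_ne_zero two_ne_zero h4)))
    (mul_ne_zero two_ne_zero h2)

/-- PROOF. `F₀ = FractionRing ℚ[X]`, `φ₀ = algebraMap`, `D₀` the extension of `derivative` (`exists_fracDer` of SV/Cmp), `RF1 φ₀ D₀`; `j : F₀ → F`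
(`IsFractionRing.lift`, `φ` injective), `D (j x) = j (D₀ x)`. `c` is algebraic over `F₀` (`FinX`: the powers `1, c, .., c^n` are dependent). Let `Q` be its
minimal polynomial over `F₀` (`j.toAlgebra`). By `D_eval₂` (SV/Base) the polynomial `dx D₀ (ric D₀ ..) Q` vanishes at `c`, so `Q` divides it: against
`RF1.riccati` (SV/Sum); `k1 D₀ (φ₀ (C a)) (φ₀ X) = -3 a / (4 a^3 + 27 X^2) ≠ 0`. -/
theorem no_riccati (h : FX φ D) {a : ℚ} (ha : a ≠ 0) (c : F) :
    D c ≠ k1 D (φ (C a)) (φ X) * c ^ 2 + 2 * g1 D (φ (C a)) (φ X) * c - k1 D (φ (C a)) (φ X) * φ (C a) / 3 := by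
  classical
  intro hc
  obtain ⟨F₀, i1, i2, φ₀, D₀, h0⟩ := fformX_exists_RF1
  obtain ⟨j, hj⟩ := rc_emb h0.frac h.inj
  have hjD : ∀ x, j (D₀ x) = D (j x) := by
    intro x
    obtain ⟨u, v, hv, rfl⟩ := h0.frac.surj x
    rw [map_div₀ j, hj, hj, Derivation.leibniz_div, Derivation.leibniz_div, h0.D_map, h0.D_map,
      h.D_map, h.D_map]
    simp only [smul_eq_mul, map_mul, map_inv₀, map_pow, map_sub, hj]
  let _ : Algebra F₀ F := j.toAlgebra
  have hfin : Module.Finite F₀ F := by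
    obtain ⟨n, w, hw⟩ := h.fin
    refine ⟨⟨Finset.univ.image w, ?_⟩⟩
    rw [eq_top_iff]
    intro x _
    obtain ⟨c, d, hd, hx⟩ := hw x
    have hφd : φ d ≠ 0 := fun h1 => hd (h.inj (h1.trans (map_zero φ).symm))
    have h2 : x = ∑ i, (φ₀ (c i) / φ₀ d) • w i := by
      apply mul_left_cancel₀ hφd
      rw [hx, Finset.mul_sum]
      refine Finset.sum_congr rfl fun i _ => ?_
      rw [Algebra.smul_def]
      change _ = φ d * (j (φ₀ (c i) / φ₀ d) * w i)
      rw [map_div₀, hj, hj]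
      field_simp
    rw [h2]
    refine Submodule.sum_mem _ fun i _ => Submodule.smul_mem _ _ (Submodule.subset_span ?_)
    rw [Finset.coe_image]
    exact ⟨i, Finset.mem_coe.2 (Finset.mem_univ i), rfl⟩
  have hint : IsIntegral F₀ c := Algebra.IsIntegral.isIntegral c
  obtain ⟨hk', hg'⟩ := rc_map j hjD (φ₀ (C a)) (φ₀ X)
  rw [hj, hj] at hk' hg'
  have hw : D c = eval₂ j c (ric D₀ (φ₀ (C a)) (φ₀ X)) := by
    unfold ric
    rw [hc, eval₂_sub, eval₂_add, eval₂_mul, eval₂_mul, eval₂_C, eval₂_C, eval₂_C, eval₂_pow,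
      eval₂_X, map_mul, map_div₀, map_mul, hk', hg', hj, map_ofNat, map_ofNat]
  have h1 := D_eval₂ D₀ D j (fun x => (hjD x).symm) hw (minpoly F₀ c)
  have h2 : eval₂ j c (minpoly F₀ c) = 0 := minpoly.aeval F₀ c
  rw [h2, map_zero] at h1
  exact h0.riccati (rc_k1 h0 ha) (minpoly F₀ c) (minpoly.monic hint) (minpoly.natDegree_pos hint)
    (minpoly.dvd F₀ c h1.symm)

end Pool.Agent.Lib.MP_3550b5_nt.AC
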