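import Mathlib
import Pool.Agent.Lib.MP_3550b5_nt.AC.Uj

/-!
PROJECT AC, block ADE: the identity `EE = 0` and its converse; comparison with `om`, `tau` of SV/Base.
-/

namespace Pool.Agent.Lib.MP_3550b5_nt.AC

open SV

variable {K : Type} [Field K] [CharZero K] (δ : Dr K) (v : Fin 4 → K)

/-- PROOF. `2 y y' = Y'`. -/
lemma der_y (hY : fY v ≠ 0) {y : K} (hy : y ^ 2 = fY v) : δ y = y * (δ (fY v) / (2 * fY v)) := by
  have hy0 : y ≠ 0 := by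
    rintro rfl
    exact hY (by rw [← hy]; ring)
  have h1 : δ (y ^ 2) = 2 * y * δ y := by
    rw [pow_two, Derivation.leibniz, smul_eq_mul]
    ring
  rw [← hy, h1]
  field_simp

/-- PROOF. Definitions, `der_y`. -/
theorem om_eq (hY : fY v ≠ 0) {y : K} (hy : y ^ 2 = fY v) : om δ (v 3) (v 0) (fx v) y = y * fom δ v := by
  have hy0 : y ≠ 0 := by
    rintro rfl
    exact hY (by rw [← hy]; ring)
  rw [om, fom, ← hy]
  generalize δ (fx v) - 2 * k1 δ (v 3) (v 0) * fx v ^ 2 - 2 * g1 δ (v 3) (v 0) * fx v -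
    4 * k1 δ (v 3) (v 0) * v 3 / 3 = A
  field_simp

theorem tau_eq (hY : fY v ≠ 0) {y : K} (hy : y ^ 2 = fY v) : tau δ (v 3) (v 0) (fx v) y = y * ftau δ v := by
  have h1 : δ (y * fom δ v / k1 δ (v 3) (v 0)) =
      y * (δ (fY v) / (2 * fY v)) * (fom δ v / k1 δ (v 3) (v 0)) +
        y * δ (fom δ v / k1 δ (v 3) (v 0)) := by
    rw [mul_div_assoc, Derivation.leibniz, smul_eq_mul, smul_eq_mul, ← der_y δ v hY hy]
    ring
  rw [tau, ftau, om_eq δ v hY hy, h1]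
  ring

/-- `mu ≠ 0` means that everything is defined. PROOF. `jev_muJ`; `Y = BB / D^6`, `k1 = 3 wr / (2 dl)`. -/
theorem of_mu (h : jev δ v muJ ≠ 0) : dl (v 3) (v 0) ≠ 0 ∧ k1 δ (v 3) (v 0) ≠ 0 ∧ v 1 ≠ 0 ∧ fY v ≠ 0 := by
  rw [jev_muJ] at h
  obtain ⟨h1, hB⟩ := mul_ne_zero_iff.1 h
  obtain ⟨h2, hv⟩ := mul_ne_zero_iff.1 h1
  obtain ⟨h3, hw⟩ := mul_ne_zero_iff.1 h2
  obtain ⟨-, hd⟩ := mul_ne_zero_iff.1 h3
  refine ⟨hd, ?_, hv, ?_⟩
  · rw [k1]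
    exact div_ne_zero (mul_ne_zero three_ne_zero hw) (mul_ne_zero two_ne_zero hd)
  · have h4 : fY v = (v 2 ^ 3 + v 3 * v 2 * v 1 ^ 4 + v 0 * v 1 ^ 6) / v 1 ^ 6 := by
      rw [fY, fx]
      field_simp
    rw [h4]
    exact div_ne_zero hB (pow_ne_zero 6 hv)

end Pool.Agent.Lib.MP_3550b5_nt.AC
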