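import Mathlib
import Pool.Agent.Lib.MP_3550b5_nt.AC.UaA

/-!
PROJECT AC, block ADE: the identity `EE = 0` and its converse; comparison with `om`, `tau` of SV/Base.
-/

namespace Pool.Agent.Lib.MP_3550b5_nt.AC

open SV

variable {K : Type} [Field K] [CharZero K] (δ : Dr K) (v : Fin 4 → K)

/-- THE ALGEBRAIC DIFFERENTIAL EQUATION. PROOF. Let `k = k1`, `g = g1`, `a = v 3`, `r = frr = W^2`, `s = y fs` (so `y ftau = k s`), `s' = y (fs' + Y'/(2Y) fs)`
(`der_y`), `r' = 2 W W'`. Then `q = c r + s W`, `q' = c' r + c r' + s' W + s W'`, and `fB0 = q' r - q r' - k q^2 - k s^2 r - 2 g q r + (k a/3) r^2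
= s' W r - 3 s r W' = -W (y fB1)`, `y fB1 = -s' r + (3/2) s r'`. So `fEE = W^2 (y fB1)^2 - r Y fB1^2 = 0`. -/
theorem ade (hk : k1 δ (v 3) (v 0) ≠ 0) (hY : fY v ≠ 0) {y W c : K} (hy : y ^ 2 = fY v)
    (hW : W ^ 2 = frr δ v) (hW' : δ W = (k1 δ (v 3) (v 0) * c + g1 δ (v 3) (v 0)) * W + y * ftau δ v)
    (hc : δ c = k1 δ (v 3) (v 0) * c ^ 2 + 2 * g1 δ (v 3) (v 0) * c - k1 δ (v 3) (v 0) * v 3 / 3) :
    fEE δ v = 0 := by
  have hdy : δ y = y * (δ (fY v) / (2 * fY v)) := der_y δ v hY hy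
  have hYs : fY v * fs δ v ^ 2 = (y * fs δ v) ^ 2 := by rw [← hy]; ring
  have hs : y * ftau δ v = k1 δ (v 3) (v 0) * (y * fs δ v) := by
    unfold fs
    field_simp
  have hW1 : δ W = (k1 δ (v 3) (v 0) * c + g1 δ (v 3) (v 0)) * W +
      k1 δ (v 3) (v 0) * (y * fs δ v) := by rw [hW', hs]
  have hr : δ (frr δ v) = 2 * W * δ W := by
    rw [← hW, pow_two, Derivation.leibniz, smul_eq_mul]
    ring
  have hq : fq δ v = c * frr δ v + y * fs δ v * W := by
    unfold fq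
    rw [hr, hW1, ← hW]
    field_simp
    ring
  have hds : δ (y * fs δ v) = y * (δ (fs δ v) + δ (fY v) / (2 * fY v) * fs δ v) := by
    rw [Derivation.leibniz, smul_eq_mul, smul_eq_mul, hdy]
    ring
  have hdq : δ (fq δ v) = δ c * frr δ v + c * δ (frr δ v) + δ (y * fs δ v) * W +
      y * fs δ v * δ W := by
    rw [hq, map_add, Derivation.leibniz, Derivation.leibniz, smul_eq_mul, smul_eq_mul,
      smul_eq_mul, smul_eq_mul]
    ring
  have hB1 : y * fB1 δ v = -δ (y * fs δ v) * frr δ v + 3 / 2 * (y * fs δ v) * δ (frr δ v) := by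
    unfold fB1
    rw [hds]
    ring
  have hB0 : fB0 δ v = -(W * (y * fB1 δ v)) := by
    rw [hB1]
    unfold fB0
    rw [hdq, hYs, hr, hq, hc]
    generalize δ (y * fs δ v) = s'
    generalize y * fs δ v = s at *
    rw [← hW, hW1]
    ring
  unfold fEE
  rw [hB0, ← hy, ← hW]
  ring

end Pool.Agent.Lib.MP_3550b5_nt.AC
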