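import Mathlib
import Pool.Agent.Lib.MP_3550b5_nt.AC.UaB

/-!
PROJECT AC, block ADE: the identity `EE = 0` and its converse; comparison with `om`, `tau` of SV/Base.
-/

namespace Pool.Agent.Lib.MP_3550b5_nt.AC

open SV

variable {K : Type} [Field K] [CharZero K] (δ : Dr K) (v : Fin 4 → K)

/-- THE CONVERSE. PROOF. `fB0^2 = r (y fB1)^2 = (w y fB1)^2`, so `fB0 = -W (y fB1)` for `W = w` or `W = -w`, `W ≠ 0`. Put `s = y fs`, `c = (q - s W) / r`. Then
`W' = W r' / (2 r)` and, reversing the computation of `ade`, `r^2 (c' - k c^2 - 2 g c + k a / 3) = fB0 + W (y fB1) = 0`. -/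
theorem ade_conv (hk : k1 δ (v 3) (v 0) ≠ 0) (hY : fY v ≠ 0) {y w : K} (hy : y ^ 2 = fY v)
    (hw : w ^ 2 = frr δ v) (hr : frr δ v ≠ 0) (hE : fEE δ v = 0) :
    ∃ c : K, δ c = k1 δ (v 3) (v 0) * c ^ 2 + 2 * g1 δ (v 3) (v 0) * c - k1 δ (v 3) (v 0) * v 3 / 3 := by
  obtain ⟨W, h3, h6⟩ : ∃ W, W * W = frr δ v ∧ fB0 δ v + W * (y * fB1 δ v) = 0 := by
    have h1 : (fB0 δ v - w * y * fB1 δ v) * (fB0 δ v + w * y * fB1 δ v) = 0 := by
      unfold fEE at hE
      linear_combination hE - fB1 δ v ^ 2 * w ^ 2 * hy - fY v * fB1 δ v ^ 2 * hw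
    rcases mul_eq_zero.1 h1 with h2 | h2
    · exact ⟨-w, by linear_combination hw, by linear_combination h2⟩
    · exact ⟨w, by linear_combination hw, by linear_combination h2⟩
  have hdy := der_y δ v hY hy
  have h4 : 2 * W * δ W = δ (frr δ v) := by
    rw [← h3, Derivation.leibniz, smul_eq_mul]
    ring
  have h5 : δ (frr δ v) = 2 * k1 δ (v 3) (v 0) * fq δ v + 2 * g1 δ (v 3) (v 0) * frr δ v := by
    have h7 : fq δ v * (2 * k1 δ (v 3) (v 0)) =
        δ (frr δ v) - 2 * g1 δ (v 3) (v 0) * frr δ v :=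
      div_mul_cancel₀ _ (mul_ne_zero two_ne_zero hk)
    linear_combination -h7
  obtain ⟨c, hc⟩ : ∃ c, c = (fq δ v - y * fs δ v * W) / frr δ v := ⟨_, rfl⟩
  have h1 : c * frr δ v = fq δ v - y * fs δ v * W := by
    rw [hc]
    exact div_mul_cancel₀ _ hr
  have h2 : δ c * frr δ v + c * δ (frr δ v) = δ (fq δ v) -
      (y * δ (fs δ v) + fs δ v * (y * (δ (fY v) / (2 * fY v)))) * W - y * fs δ v * δ W := by
    have h8 := congrArg δ h1
    rw [map_sub, Derivation.leibniz, Derivation.leibniz, Derivation.leibniz, hdy, smul_eq_mul,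
      smul_eq_mul, smul_eq_mul, smul_eq_mul, smul_eq_mul, smul_eq_mul] at h8
    linear_combination h8
  refine ⟨c, ?_⟩
  have hfin : frr δ v ^ 2 * (δ c - (k1 δ (v 3) (v 0) * c ^ 2 + 2 * g1 δ (v 3) (v 0) * c -
      k1 δ (v 3) (v 0) * v 3 / 3)) = 0 := by
    unfold fB0 fB1 at h6
    generalize frr δ v = r at *
    generalize fq δ v = q at *
    generalize fs δ v = fs at *
    generalize k1 δ (v 3) (v 0) = k at *
    generalize g1 δ (v 3) (v 0) = g at *
    linear_combination r * h2 + (-δ r - k * (c * r + (q - y * fs * W)) - 2 * g * r) * h1 +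
      (-k * (y * fs) ^ 2 + y * fs * δ W) * h3 - k * r * fs ^ 2 * hy - y * fs * W / 2 * h4 -
      y * fs * W * h5 + h6
  exact sub_eq_zero.1 ((mul_eq_zero.1 hfin).resolve_left (pow_ne_zero 2 hr))

end Pool.Agent.Lib.MP_3550b5_nt.AC
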