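import Mathlib
import Pool.Agent.Lib.MP_3550b5_nt.AC.Rc
import Pool.Agent.Lib.MP_3550b5_nt.AC.Ext
import Pool.Agent.Lib.MP_3550b5_nt.AC.Ua
import Pool.Agent.Lib.MP_3550b5_nt.AC.Kl
import Pool.Agent.Lib.MP_3550b5_nt.AC.Kt
import Pool.Agent.Lib.MP_3550b5_nt.AC.Cv

/-!
PROJECT AC, block CURVE: on a curve through a good point `r ≠ 0` implies `EE ≠ 0`, and `r = 0` implies `tau ≠ 0`.
-/

namespace Pool.Agent.Lib.MP_3550b5_nt.AC

open SV Polynomial G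

/-- A good point: the fibre is nonsingular, `D ≠ 0`, `y ≠ 0`, and the point has infinite order. -/
structure Good (a : ℤ) (v : Fin 3 → ℤ) : Prop where
  D_ne : v 1 ≠ 0
  dl_ne : 4 * a ^ 3 + 27 * v 0 ^ 2 ≠ 0
  B_ne : v 2 ^ 3 + a * v 2 * v 1 ^ 4 + v 0 * v 1 ^ 6 ≠ 0
  inf : ∃ (x₀ y₀ : ℚ) (h : (scurve (a : ℚ) (v 0 : ℚ)).Nonsingular x₀ y₀), (v 2 : ℚ) = x₀ * (v 1) ^ 2 ∧
    ∀ m : ℕ, 1 ≤ m → m • (.some _ _ h : (scurve (a : ℚ) (v 0 : ℚ)).Point) ≠ 0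

variable {F : Type} [Field F] [CharZero F] {φ : ℚ[X] →+* F} {D : Derivation ℤ F F}

section Map

variable {K K' : Type} [Field K] [Field K'] {δ : Dr K} {δ' : Dr K'} (f : K →+* K')
  (hf : ∀ x, f (δ x) = δ' (f x)) (v : Fin 4 → K)

include hf

private lemma fkA_kg (a b : K) :
    f (k1 δ a b) = k1 δ' (f a) (f b) ∧ f (g1 δ a b) = g1 δ' (f a) (f b) := by
  have h1 : f (wr δ a b) = wr δ' (f a) (f b) := by
    unfold wr
    rw [map_sub, map_mul, map_mul, map_mul, map_mul, hf, hf, map_ofNat, map_ofNat]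
  have h2 : f (dl a b) = dl (f a) (f b) := by
    unfold dl
    rw [map_add, map_mul, map_mul, map_pow, map_pow, map_ofNat, map_ofNat]
  constructor
  · unfold k1
    rw [map_div₀, map_mul, map_mul, h1, h2, map_ofNat, map_ofNat]
  · unfold g1
    rw [map_div₀, hf, map_mul, h2, map_ofNat]

omit hf in
private lemma fkA_x : f (fx v) = fx (fun i => f (v i)) := by
  unfold fx
  rw [map_div₀, map_pow]

omit hf in
private lemma fkA_Y : f (fY v) = fY (fun i => f (v i)) := by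
  unfold fY
  rw [map_add, map_add, map_pow, map_mul, fkA_x]

private lemma fkA_om : f (fom δ v) = fom δ' (fun i => f (v i)) := by
  obtain ⟨h1, h2⟩ := fkA_kg f hf (v 3) (v 0)
  unfold fom
  simp only [map_div₀, map_sub, map_mul, map_pow, map_ofNat, hf, h1, h2, fkA_x, fkA_Y]

private lemma fkA_r : f (frr δ v) = frr δ' (fun i => f (v i)) := by
  obtain ⟨h1, h2⟩ := fkA_kg f hf (v 3) (v 0)
  unfold frr
  simp only [map_div₀, map_sub, map_mul, map_pow, map_ofNat, hf, h1, h2, fkA_x, fkA_Y,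
    fkA_om f hf]

private lemma fkA_tau : f (ftau δ v) = ftau δ' (fun i => f (v i)) := by
  obtain ⟨h1, h2⟩ := fkA_kg f hf (v 3) (v 0)
  unfold ftau
  simp only [map_div₀, map_sub, map_add, map_mul, map_pow, map_ofNat, hf, h1, h2, fkA_x, fkA_Y,
    fkA_om f hf]

private lemma fkA_s : f (fs δ v) = fs δ' (fun i => f (v i)) := by
  obtain ⟨h1, h2⟩ := fkA_kg f hf (v 3) (v 0)
  unfold fs
  rw [map_div₀, fkA_tau f hf, h1]

private lemma fkA_q : f (fq δ v) = fq δ' (fun i => f (v i)) := by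
  obtain ⟨h1, h2⟩ := fkA_kg f hf (v 3) (v 0)
  unfold fq
  simp only [map_div₀, map_sub, map_mul, map_ofNat, hf, h1, h2, fkA_r f hf]

private lemma fkA_B0 : f (fB0 δ v) = fB0 δ' (fun i => f (v i)) := by
  obtain ⟨h1, h2⟩ := fkA_kg f hf (v 3) (v 0)
  unfold fB0
  simp only [map_div₀, map_sub, map_add, map_mul, map_pow, map_ofNat, hf, h1, h2, fkA_Y,
    fkA_r f hf, fkA_q f hf, fkA_s f hf]

private lemma fkA_B1 : f (fB1 δ v) = fB1 δ' (fun i => f (v i)) := by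
  unfold fB1
  simp only [map_div₀, map_neg, map_add, map_mul, map_ofNat, hf, fkA_Y,
    fkA_r f hf, fkA_s f hf]

private lemma fkA_EE : f (fEE δ v) = fEE δ' (fun i => f (v i)) := by
  unfold fEE
  simp only [map_sub, map_mul, map_pow, fkA_Y, fkA_r f hf, fkA_B0 f hf, fkA_B1 f hf]

end Map

/-- CASE `r ≠ 0`. PROOF. Suppose `fEE = 0` and `frr ≠ 0`. Adjoin `y` with `y^2 = fY` and `w` with `w^2 = frr` (`exists_sqrt_ext` twice, `ι : F → F'`, derivation `D'`,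
`δ' = ι h • D'` extends `h • D`; all of `fx, fY, fom, frr, .., fEE, jev, k1, g1` commute with `ι`). `of_mu`, `ade_conv`: `c` with `δ' c = k1 δ' c^2 + ..`; `k1 (h • D') = h k1 D'`
(`k1_smul`, `g1_smul`): divide by `h`: against `no_riccati` for `F'`, as `ι (a) = (ι.comp φ) (C a)`. -/
theorem frr_zero (h : FX φ D) {a : ℤ} (ha : a ≠ 0) {hh : F} (hh0 : hh ≠ 0) {v : Fin 4 → F} (hv0 : v 0 = φ X) (hv3 : v 3 = a)
    (hmu : jev (hh • D) v muJ ≠ 0) (hE : fEE (hh • D) v = 0) : frr (hh • D) v = 0 := by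
  by_contra hr
  obtain ⟨hdl, hk, hv1, hY⟩ := of_mu (hh • D) v hmu
  obtain ⟨F₁, i1, i2, ι₁, D₁, y, hF₁, hD₁, hy⟩ := exists_sqrt_ext h (fY v)
  obtain ⟨F₂, i3, i4, ι₂, D₂, w, hF₂, hD₂, hw⟩ := exists_sqrt_ext hF₁ (ι₁ (frr (hh • D) v))
  obtain ⟨ι, hι⟩ : ∃ ι : F →+* F₂, ι = ι₂.comp ι₁ := ⟨_, rfl⟩
  have hιa : ∀ x, ι x = ι₂ (ι₁ x) := fun x => by rw [hι]; rfl
  have hιD : ∀ x, ι (D x) = D₂ (ι x) := fun x => by rw [hιa, hιa, hD₂, hD₁]
  have hFX : FX (ι.comp φ) D₂ := by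
    rw [hι]
    exact hF₂
  have hδ : ∀ x, ι ((hh • D) x) = ((ι hh) • D₂) (ι x) := fun x => by
    rw [Derivation.smul_apply, Derivation.smul_apply, smul_eq_mul, smul_eq_mul, map_mul, hιD]
  have hιi : Function.Injective ι := ι.injective
  have hne : ∀ x, x ≠ 0 → ι x ≠ 0 := fun x hx h0 => hx (hιi (h0.trans (map_zero ι).symm))
  obtain ⟨ek, eg⟩ := fkA_kg ι hδ (v 3) (v 0)
  have eY := fkA_Y ι v
  have er := fkA_r ι hδ v
  have eE := fkA_EE ι hδ v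
  obtain ⟨c, hc⟩ := ade_conv ((ι hh) • D₂) (fun i => ι (v i)) (y := ι₂ y) (w := w)
    (by rw [← ek]; exact hne _ hk) (by rw [← eY]; exact hne _ hY)
    (by rw [← eY, ← map_pow, hy, hιa]) (by rw [← er, hw, hιa])
    (by rw [← er]; exact hne _ hr) (by rw [← eE, hE, map_zero])
  have hc1 : ι hh * D₂ c = ι hh * (k1 D₂ (ι (v 3)) (ι (v 0)) * c ^ 2 +
      2 * g1 D₂ (ι (v 3)) (ι (v 0)) * c - k1 D₂ (ι (v 3)) (ι (v 0)) * ι (v 3) / 3) := by
    rw [k1_smul, g1_smul, Derivation.smul_apply, smul_eq_mul] at hc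
    rw [hc]
    ring
  have hc2 := mul_left_cancel₀ (hne _ hh0) hc1
  have e3 : ι (v 3) = (ι.comp φ) (C (a : ℚ)) := by
    rw [hv3, map_intCast]
    have e4 : (C (a : ℚ) : ℚ[X]) = (a : ℚ[X]) := map_intCast C a
    rw [e4, map_intCast]
  have e0 : ι (v 0) = (ι.comp φ) X := by
    rw [hv0]
    rfl
  rw [e3, e0] at hc2
  exact no_riccati hFX (Int.cast_ne_zero.2 ha) c hc2

end Pool.Agent.Lib.MP_3550b5_nt.AC
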