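import Mathlib
import Pool.Agent.Lib.MP_3550b5_nt.AC.FkA

/-!
PROJECT AC, block CURVE: on a curve through a good point `r ≠ 0` implies `EE ≠ 0`, and `r = 0` implies `tau ≠ 0`.
-/

namespace Pool.Agent.Lib.MP_3550b5_nt.AC

open SV Polynomial G

/-- A homomorphism of differential fields. -/
private lemma fk_map {F F' : Type} [Field F] [Field F'] {δ : Dr F} {δ' : Dr F'} (f : F →+* F')
    (hf : ∀ x, f (δ x) = δ' (f x)) (v : Fin 4 → F) :
    f (frr δ v) = frr δ' (fun i => f (v i)) ∧ f (ftau δ v) = ftau δ' (fun i => f (v i)) ∧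
      f (fY v) = fY (fun i => f (v i)) ∧ f (fx v) = fx (fun i => f (v i)) ∧
      f (k1 δ (v 3) (v 0)) = k1 δ' (f (v 3)) (f (v 0)) := by
  have h1 : f (wr δ (v 3) (v 0)) = wr δ' (f (v 3)) (f (v 0)) := by
    unfold wr
    rw [map_sub, map_mul, map_mul, map_mul, map_mul, hf, hf, map_ofNat, map_ofNat]
  have h2 : f (dl (v 3) (v 0)) = dl (f (v 3)) (f (v 0)) := by
    unfold dl
    rw [map_add, map_mul, map_mul, map_pow, map_pow, map_ofNat, map_ofNat]
  have hk : f (k1 δ (v 3) (v 0)) = k1 δ' (f (v 3)) (f (v 0)) := by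
    unfold k1
    rw [map_div₀, map_mul, map_mul, h1, h2, map_ofNat, map_ofNat]
  have hg : f (g1 δ (v 3) (v 0)) = g1 δ' (f (v 3)) (f (v 0)) := by
    unfold g1
    rw [map_div₀, hf, map_mul, h2, map_ofNat]
  have hx : f (fx v) = fx (fun i => f (v i)) := by
    unfold fx
    rw [map_div₀, map_pow]
  have hY : f (fY v) = fY (fun i => f (v i)) := by
    unfold fY
    rw [map_add, map_add, map_pow, map_mul, hx]
  have ho : f (fom δ v) = fom δ' (fun i => f (v i)) := by
    unfold fom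
    simp only [map_div₀, map_sub, map_mul, map_pow, map_ofNat, hf, hk, hg, hx, hY]
  have hr : f (frr δ v) = frr δ' (fun i => f (v i)) := by
    unfold frr
    simp only [map_div₀, map_sub, map_mul, map_pow, map_ofNat, hf, hk, hg, hx, hY, ho]
  have ht : f (ftau δ v) = ftau δ' (fun i => f (v i)) := by
    unfold ftau
    simp only [map_div₀, map_sub, map_add, map_mul, map_ofNat, hf, hk, hg, hx, hY, ho]
  exact ⟨hr, ht, hY, hx, hk⟩

private lemma fk_tau_smul {F : Type} [Field F] [CharZero F] (D : Dr F) {c : F} (hc : c ≠ 0) (a b x y : F) :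
    tau (c • D) a b x y = c * tau D a b x y := by
  unfold tau
  rw [om_smul, k1_smul, g1_smul, mul_div_mul_left _ _ hc, Derivation.smul_apply, smul_eq_mul]
  ring

private lemma fk_E0_smul {F : Type} [Field F] [CharZero F] (D : Dr F) {c : F} (hc : c ≠ 0) (a b x y : F) :
    E0 (c • D) a b x y = c * E0 D a b x y := by
  unfold E0
  rw [om_smul, k1_smul, g1_smul]
  have h1 : (c * om D a b x y) ^ 2 / (2 * (c * k1 D a b)) =
      c * (om D a b x y ^ 2 / (2 * k1 D a b)) := by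
    rw [show (c * om D a b x y) ^ 2 = c * (c * om D a b x y ^ 2) by ring,
      show 2 * (c * k1 D a b) = c * (2 * k1 D a b) by ring, mul_div_mul_left _ _ hc, mul_div_assoc]
  rw [h1]
  ring

variable {F : Type} [Field F] [CharZero F] {φ : ℚ[X] →+* F} {D : Derivation ℤ F F}

/-- CASE `r = 0`, `tau = 0`. PROOF. Adjoin `y` with `y^2 = fY` (`exists_sqrt_ext`). `x = fx v`, `tau D = y ftau / h^..`: `tau (hh • D) = hh tau D`, `om`, `k1`, `g1` scale by `hh` (`om_smul` etc.), so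
`tau D a X x y = 0` (`tau_eq`), and `frr = 0` means `2 E0 = 2 D d / d = D (d^2) / d^2`, `d = v 1` (`om_eq`; `E0` scales by `hh`). The point `(x, y)` has infinite order by `inf_order` (`π` composed with `F → F'`).
`kernel` with `e = d^2`. -/
theorem ftau_ne (h : FX φ D) {a : ℤ} (ha : a ≠ 0) {hh : F} (hh0 : hh ≠ 0) {π : Q3 →+* F} (hπ0 : π (MvPolynomial.X 0) = φ X)
    {u : Fin 3 → ℤ} (hu : Good a u) (hπ : ∀ G, π G = 0 → MvPolynomial.eval u G = 0) {v : Fin 4 → F}
    (hv : v = ![π (MvPolynomial.X 0), π (MvPolynomial.X 1), π (MvPolynomial.X 2), (a : F)])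
    (hmu : jev (hh • D) v muJ ≠ 0) (hr : frr (hh • D) v = 0) : fT2 (hh • D) v ≠ 0 := by
  classical
  intro hT
  obtain ⟨hd, hk, hv1, hY⟩ := of_mu (hh • D) v hmu
  have htau : ftau (hh • D) v = 0 := by
    rcases mul_eq_zero.1 hT with h1 | h1
    · exact absurd h1 hY
    · exact pow_eq_zero_iff two_ne_zero |>.1 h1
  obtain ⟨F', i1, i2, ι, D', y, h', hD', hy⟩ := exists_sqrt_ext h (fY v)
  have hι0 : ι hh ≠ 0 := (map_ne_zero ι).2 hh0
  have hf : ∀ x, ι ((hh • D) x) = (ι hh • D') (ι x) := by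
    intro x
    rw [Derivation.smul_apply, Derivation.smul_apply, smul_eq_mul, smul_eq_mul, map_mul, hD']
  obtain ⟨m1, m2, m3, m4, m5⟩ := fk_map ι hf v
  obtain ⟨w, hw⟩ : ∃ w : Fin 4 → F', w = fun i => ι (v i) := ⟨_, rfl⟩
  have hw0 : w 0 = ι (π (MvPolynomial.X 0)) := by
    rw [hw, hv]
    rfl
  have hw1 : w 1 = ι (π (MvPolynomial.X 1)) := by
    rw [hw, hv]
    rfl
  have hw2 : w 2 = ι (π (MvPolynomial.X 2)) := by
    rw [hw, hv]
    rfl
  have hw3 : w 3 = (a : F') := by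
    rw [hw, hv]
    exact map_intCast ι a
  have e1 : w 1 = ι (v 1) := by rw [hw]
  have e3 : ι (v 3) = w 3 := by rw [hw]
  have e0 : ι (v 0) = w 0 := by rw [hw]
  rw [← hw] at m1 m2 m3 m4
  rw [hr, map_zero] at m1
  rw [htau, map_zero] at m2
  rw [m3] at hy
  have hYw : fY w ≠ 0 := by
    rw [← m3]
    exact (map_ne_zero ι).2 hY
  have hkw : k1 (ι hh • D') (w 3) (w 0) ≠ 0 := by
    rw [← e3, ← e0, ← m5]
    exact (map_ne_zero ι).2 hk
  have hw1' : w 1 ≠ 0 := by
    rw [e1]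
    exact (map_ne_zero ι).2 hv1
  have hy0 : y ≠ 0 := by
    rintro rfl
    exact hYw (by rw [← hy]; ring)
  -- the values of `tau` and `E0`
  have t1 : tau D' (w 3) (w 0) (fx w) y = 0 := by
    have h1 := tau_eq (ι hh • D') w hYw hy
    rw [← m2, mul_zero, fk_tau_smul D' hι0] at h1
    exact (mul_eq_zero.1 h1).resolve_left hι0
  have t2 : 2 * E0 D' (w 3) (w 0) (fx w) y = D' (w 1 ^ 2) / w 1 ^ 2 := by
    have h1 := om_eq (ι hh • D') w hYw hy
    have h2 : fom (ι hh • D') w ^ 2 * fY w / k1 (ι hh • D') (w 3) (w 0) -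
        k1 (ι hh • D') (w 3) (w 0) * fx w - 2 * g1 (ι hh • D') (w 3) (w 0) -
          2 * (ι hh • D') (w 1) / w 1 = 0 := by
      have h3 := m1.symm
      unfold frr at h3
      exact (div_eq_zero_iff.1 h3).resolve_right hkw
    have h4 : 2 * E0 (ι hh • D') (w 3) (w 0) (fx w) y = 2 * (ι hh • D') (w 1) / w 1 := by
      unfold E0
      rw [h1, mul_pow, hy]
      have h5 : fY w * fom (ι hh • D') w ^ 2 / (2 * k1 (ι hh • D') (w 3) (w 0)) =
          fom (ι hh • D') w ^ 2 * fY w / k1 (ι hh • D') (w 3) (w 0) / 2 := by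
        rw [mul_comm (2 : F'), ← div_div, mul_comm (fY w)]
      rw [h5]
      linear_combination h2
    rw [fk_E0_smul D' hι0, Derivation.smul_apply, smul_eq_mul] at h4
    have h6 : D' (w 1 ^ 2) / w 1 ^ 2 = 2 * D' (w 1) / w 1 := by
      rw [pow_two, Derivation.leibniz, smul_eq_mul]
      field_simp
      ring
    rw [h6]
    apply mul_left_cancel₀ hι0
    rw [show ι hh * (2 * E0 D' (w 3) (w 0) (fx w) y) =
      2 * (ι hh * E0 D' (w 3) (w 0) (fx w) y) by ring, h4]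
    ring
  -- the point
  have hns : (scurve (a : F') ((ι.comp π) (MvPolynomial.X 0))).Nonsingular (fx w) y := by
    rw [nonsing_iff]
    refine ⟨?_, Or.inl (mul_ne_zero two_ne_zero hy0)⟩
    rw [hy, RingHom.comp_apply, ← hw0, ← hw3]
    rfl
  obtain ⟨x₀, y₀, h0, hx0, hinf⟩ := hu.inf
  have hord := inf_order (ι.comp π) u
    (fun G hG => hπ G ((map_eq_zero ι).1 hG)) a hu.D_ne (x := fx w) (y := y) (by
      rw [RingHom.comp_apply, RingHom.comp_apply, ← hw1, ← hw2]
      unfold fx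
      rw [div_mul_cancel₀ _ (pow_ne_zero 2 hw1')]) hns h0 hx0 hinf
  have hA : (a : F') = (ι.comp φ) (C (a : ℚ)) := by
    have h1 : (ι.comp φ) (C (a : ℚ)) = ((a : ℚ) : F') := eq_ratCast ((ι.comp φ).comp C) (a : ℚ)
    rw [h1]
    norm_cast
  have hB : (ι.comp π) (MvPolynomial.X 0) = (ι.comp φ) X := by
    rw [RingHom.comp_apply, RingHom.comp_apply, hπ0]
  have key : ∀ A B : F', A = (ι.comp φ) (C (a : ℚ)) → B = (ι.comp φ) X →
      ∀ hn : (scurve A B).Nonsingular (fx w) y,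
        (∀ m : ℕ, 1 ≤ m → m • (.some _ _ hn : (scurve A B).Point) ≠ 0) →
          tau D' A B (fx w) y = 0 → 2 * E0 D' A B (fx w) y = D' (w 1 ^ 2) / w 1 ^ 2 → False := by
    rintro _ _ rfl rfl hn h1 h2 h3
    exact kernel h' (a := (a : ℚ)) (by exact_mod_cast ha) h1 rfl h2 (pow_ne_zero 2 hw1') h3
  refine key (a : F') ((ι.comp π) (MvPolynomial.X 0)) hA hB hns hord ?_ ?_
  · rw [RingHom.comp_apply, ← hw0, ← hw3]
    exact t1
  · rw [RingHom.comp_apply, ← hw0, ← hw3]
    exact t2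

end Pool.Agent.Lib.MP_3550b5_nt.AC
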