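import Mathlib
import Pool.Agent.Lib.MP_3550b5_nt.AC.HcA

/-!
PROJECT AC, block COUNT: counting points with distinct first coordinate on the curves `F = G = 0`, with degrees only.
-/

namespace Pool.Agent.Lib.MP_3550b5_nt.AC

open MvPolynomial

private theorem hcB_lin {E : Type} [AddCommGroup E] [Module ℚ E] {E' : Type} [AddCommGroup E']
    [Module ℚ E'] (π : E →ₗ[ℚ] E') (B A₁ A₂ C : Submodule ℚ E) [Module.Finite ℚ B]
    [Module.Finite ℚ C] (h1 : A₁ ≤ B) (h2 : A₂ ≤ B) (hk1 : ∀ x ∈ A₁, π x = 0)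
    (hk2 : ∀ x ∈ A₂, π x = 0) (hC : A₁ ⊓ A₂ ≤ C) :
    Module.finrank ℚ (B.map π) + Module.finrank ℚ A₁ + Module.finrank ℚ A₂ ≤
      Module.finrank ℚ B + Module.finrank ℚ C := by
  have hA1 : Module.Finite ℚ A₁ := Submodule.finiteDimensional_of_le h1
  have hA2 : Module.Finite ℚ A₂ := Submodule.finiteDimensional_of_le h2
  have e1 := (π.domRestrict B).finrank_range_add_finrank_ker
  rw [LinearMap.range_domRestrict] at e1
  have e2 := Submodule.finrank_sup_add_finrank_inf_eq A₁ A₂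
  have e3 : Module.finrank ℚ ↥(A₁ ⊓ A₂) ≤ Module.finrank ℚ C := Submodule.finrank_mono hC
  have hs : A₁ ⊔ A₂ ≤ B := sup_le h1 h2
  have e4 : Module.finrank ℚ ↥(Submodule.comap B.subtype (A₁ ⊔ A₂)) =
      Module.finrank ℚ ↥(A₁ ⊔ A₂) := (Submodule.comapSubtypeEquivOfLe hs).finrank_eq
  have e5 : Submodule.comap B.subtype (A₁ ⊔ A₂) ≤ LinearMap.ker (π.domRestrict B) := by
    intro x hx
    rw [Submodule.mem_comap] at hx
    rw [LinearMap.mem_ker, LinearMap.domRestrict_apply]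
    obtain ⟨y, hy, z, hz, hyz⟩ := Submodule.mem_sup.1 hx
    have : (x : E) = y + z := hyz.symm
    rw [this, map_add, hk1 y hy, hk2 z hz, add_zero]
  have e6 : Module.finrank ℚ ↥(Submodule.comap B.subtype (A₁ ⊔ A₂)) ≤
      Module.finrank ℚ ↥(LinearMap.ker (π.domRestrict B)) := Submodule.finrank_mono e5
  omega

private theorem hcB_map {F : R3} (hF : F ≠ 0) (K : Fin 3 → ℕ) :
    Module.finrank ℚ ((Bx K).map (LinearMap.mulLeft ℚ F)) = (K 0 + 1) * (K 1 + 1) * (K 2 + 1) := by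
  have hinj : Function.Injective (LinearMap.mulLeft ℚ F) := by
    intro a b hab
    rw [LinearMap.mulLeft_apply, LinearMap.mulLeft_apply] at hab
    exact mul_left_cancel₀ hF hab
  rw [← (finrank_Bx K).2]
  exact (Submodule.equivMapOfInjective _ hinj (Bx K)).finrank_eq.symm

private theorem hcB_mul {F : R3} {A K : Fin 3 → ℕ} (h : ∀ i, A i + F.degreeOf i ≤ K i) :
    (Bx A).map (LinearMap.mulLeft ℚ F) ≤ Bx K := by
  rintro _ ⟨U, hU, rfl⟩ i
  rw [LinearMap.mulLeft_apply]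
  have h1 := degreeOf_mul_le i F U
  have h2 : U.degreeOf i ≤ A i := hU i
  have h3 := h i
  omega

private theorem hcB_ker {F : R3} {I : Ideal R3} (hF : F ∈ I) (A : Fin 3 → ℕ) :
    ∀ x ∈ (Bx A).map (LinearMap.mulLeft ℚ F), (Ideal.Quotient.mkₐ ℚ I).toLinearMap x = 0 := by
  rintro _ ⟨U, -, rfl⟩
  rw [LinearMap.mulLeft_apply]
  exact Ideal.Quotient.eq_zero_iff_mem.2 (I.mul_mem_right U hF)

private theorem hcB_inf {F G : R3} (hF : Prime F) (hG : ¬ F ∣ G) {K : Fin 3 → ℕ}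
    (hK : ∀ i, F.degreeOf i + G.degreeOf i ≤ K i) :
    (Bx fun i => K i - F.degreeOf i).map (LinearMap.mulLeft ℚ F) ⊓
      (Bx fun i => K i - G.degreeOf i).map (LinearMap.mulLeft ℚ G) ≤
      (Bx fun i => K i - F.degreeOf i - G.degreeOf i).map (LinearMap.mulLeft ℚ (F * G)) := by
  have hG0 : G ≠ 0 := fun h => hG (h ▸ dvd_zero F)
  rintro x ⟨⟨U, hU, rfl⟩, ⟨V, hV, hUV⟩⟩
  rw [LinearMap.mulLeft_apply, LinearMap.mulLeft_apply] at hUV
  have hd : F ∣ G * V := ⟨U, hUV⟩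
  obtain ⟨W, rfl⟩ := (hF.dvd_or_dvd hd).resolve_left hG
  have hU' : U = G * W := by
    apply mul_left_cancel₀ hF.ne_zero
    rw [← hUV]
    ring
  subst hU'
  refine ⟨W, ?_, ?_⟩
  · by_cases hW : W = 0
    · rw [hW]
      exact Submodule.zero_mem _
    · intro i
      have h1 : (G * W).degreeOf i ≤ K i - F.degreeOf i := hU i
      rw [degreeOf_mul_eq hG0 hW] at h1
      have h2 := hK i
      change W.degreeOf i ≤ K i - F.degreeOf i - G.degreeOf i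
      omega
  · rw [LinearMap.mulLeft_apply, LinearMap.mulLeft_apply]
    ring

private theorem hcB_num (x0 x1 x2 a0 a1 a2 b0 b1 b2 h : ℕ)
    (hh : h + (x0 + b0 + 1) * (x1 + b1 + 1) * (x2 + b2 + 1) +
      (x0 + a0 + 1) * (x1 + a1 + 1) * (x2 + a2 + 1) ≤
      (x0 + a0 + b0 + 1) * (x1 + a1 + b1 + 1) * (x2 + a2 + b2 + 1) +
      (x0 + 1) * (x1 + 1) * (x2 + 1)) :
    h ≤ (a1 * b2 + a2 * b1) * (x0 + a0 + b0 + 1) + (a0 * b2 + a2 * b0) * (x1 + a1 + b1 + 1) +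
      (a0 * b1 + a1 * b0) * (x2 + a2 + b2 + 1) := by
  have key : (x0 + a0 + b0 + 1) * (x1 + a1 + b1 + 1) * (x2 + a2 + b2 + 1) +
      (x0 + 1) * (x1 + 1) * (x2 + 1) +
      ((a0 + b0) * (a1 + b1) * (a2 + b2)) =
      (x0 + b0 + 1) * (x1 + b1 + 1) * (x2 + b2 + 1) +
      (x0 + a0 + 1) * (x1 + a1 + 1) * (x2 + a2 + 1) +
      ((a1 * b2 + a2 * b1) * (x0 + a0 + b0 + 1) + (a0 * b2 + a2 * b0) * (x1 + a1 + b1 + 1) +
      (a0 * b1 + a1 * b0) * (x2 + a2 + b2 + 1)) + (a0 * a1 * a2 + b0 * b1 * b2) := by ring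
  have h2 : a0 * a1 * a2 + b0 * b1 * b2 ≤ (a0 + b0) * (a1 + b1) * (a2 + b2) := by
    have : (a0 + b0) * (a1 + b1) * (a2 + b2) = a0 * a1 * a2 + b0 * b1 * b2 +
      (a0 * a1 * b2 + a0 * b1 * a2 + a0 * b1 * b2 + b0 * a1 * a2 + b0 * a1 * b2 + b0 * b1 * a2) := by
      ring
    omega
  omega

/-- THE HILBERT FUNCTION OF `(F, G)`. PROOF. The kernel of `Bx K → R3 / I` contains `F U + G V`, `U ∈ Bx (K - α)`, `V ∈ Bx (K - β)`
(`α i = degreeOf i F`, `β i = degreeOf i G`, degrees of products are additive); `F U = G V` implies `F ∣ V` (`F` is prime), `V = F W`, `U = G W`,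
`W ∈ Bx (K - α - β)`. So `Hil ≤ N K - N (K - α) - N (K - β) + N (K - α - β)`, `N K = ∏ (K i + 1)`, and with `x i = K i + 1` this is
`∑ (α_i β_j + α_j β_i) x_k - (∏ (α_i + β_i) - ∏ α_i - ∏ β_i)`. -/
theorem Hil_le {F G : R3} (hF : Prime F) (hG : ¬ F ∣ G) {I : Ideal R3} (hFI : F ∈ I) (hGI : G ∈ I) (K : Fin 3 → ℕ)
    (hK : ∀ i, F.degreeOf i + G.degreeOf i ≤ K i) :
    Hil I K ≤ (F.degreeOf 1 * G.degreeOf 2 + F.degreeOf 2 * G.degreeOf 1) * (K 0 + 1) +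
      (F.degreeOf 0 * G.degreeOf 2 + F.degreeOf 2 * G.degreeOf 0) * (K 1 + 1) +
      (F.degreeOf 0 * G.degreeOf 1 + F.degreeOf 1 * G.degreeOf 0) * (K 2 + 1) := by
  have hG0 : G ≠ 0 := fun h => hG (h ▸ dvd_zero F)
  have := (finrank_Bx K).1
  have := (finrank_Bx fun i => K i - F.degreeOf i - G.degreeOf i).1
  have : Module.Finite ℚ ((Bx fun i => K i - F.degreeOf i - G.degreeOf i).map
      (LinearMap.mulLeft ℚ (F * G))) := Module.Finite.map _ _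
  have h := hcB_lin (Ideal.Quotient.mkₐ ℚ I).toLinearMap (Bx K)
    ((Bx fun i => K i - F.degreeOf i).map (LinearMap.mulLeft ℚ F))
    ((Bx fun i => K i - G.degreeOf i).map (LinearMap.mulLeft ℚ G))
    ((Bx fun i => K i - F.degreeOf i - G.degreeOf i).map (LinearMap.mulLeft ℚ (F * G)))
    (hcB_mul fun i => by have := hK i; omega) (hcB_mul fun i => by have := hK i; omega)
    (hcB_ker hFI _) (hcB_ker hGI _) (hcB_inf hF hG hK)
  rw [hcB_map hF.ne_zero, hcB_map hG0, hcB_map (mul_ne_zero hF.ne_zero hG0), (finrank_Bx K).2] at h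
  change Hil I K + _ + _ ≤ _ at h
  obtain ⟨x0, hx0⟩ := Nat.exists_eq_add_of_le (hK 0)
  obtain ⟨x1, hx1⟩ := Nat.exists_eq_add_of_le (hK 1)
  obtain ⟨x2, hx2⟩ := Nat.exists_eq_add_of_le (hK 2)
  have key := hcB_num x0 x1 x2 (F.degreeOf 0) (F.degreeOf 1) (F.degreeOf 2) (G.degreeOf 0)
    (G.degreeOf 1) (G.degreeOf 2) (Hil I K)
  have s0 : K 0 = x0 + F.degreeOf 0 + G.degreeOf 0 := by omega
  have s1 : K 1 = x1 + F.degreeOf 1 + G.degreeOf 1 := by omega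
  have s2 : K 2 = x2 + F.degreeOf 2 + G.degreeOf 2 := by omega
  have t0 : K 0 - F.degreeOf 0 = x0 + G.degreeOf 0 := by omega
  have t1 : K 1 - F.degreeOf 1 = x1 + G.degreeOf 1 := by omega
  have t2 : K 2 - F.degreeOf 2 = x2 + G.degreeOf 2 := by omega
  have u0 : K 0 - G.degreeOf 0 = x0 + F.degreeOf 0 := by omega
  have u1 : K 1 - G.degreeOf 1 = x1 + F.degreeOf 1 := by omega
  have u2 : K 2 - G.degreeOf 2 = x2 + F.degreeOf 2 := by omega
  have v0 : K 0 - F.degreeOf 0 - G.degreeOf 0 = x0 := by omega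
  have v1 : K 1 - F.degreeOf 1 - G.degreeOf 1 = x1 := by omega
  have v2 : K 2 - F.degreeOf 2 - G.degreeOf 2 = x2 := by omega
  rw [v0, v1, v2, t0, t1, t2, u0, u1, u2, s0, s1, s2] at h
  rw [s0, s1, s2]
  exact key h

end Pool.Agent.Lib.MP_3550b5_nt.AC
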