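import Mathlib
import Pool.Agent.Lib.MP_3550b5_nt.AC.HcB

/-!
PROJECT AC, block COUNT: counting points with distinct first coordinate on the curves `F = G = 0`, with degrees only.
-/

namespace Pool.Agent.Lib.MP_3550b5_nt.AC

open MvPolynomial

private lemma HcC_poly_mem (p : Polynomial ℚ) (K : Fin 3 → ℕ) (h : p.natDegree ≤ K 0) :
    Polynomial.aeval (X 0 : R3) p ∈ Bx K := by
  rw [Polynomial.aeval_eq_sum_range]
  refine Submodule.sum_mem _ fun j hj => Submodule.smul_mem _ _ ?_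
  have hj' : j ≤ K 0 := by
    have h1 := Finset.mem_range.1 hj
    omega
  intro i
  refine (degreeOf_pow_le i _ j).trans ?_
  rw [degreeOf_X]
  split_ifs with h0
  · rw [h0, mul_one]
    exact hj'
  · rw [mul_zero]
    exact Nat.zero_le _

/-- One step. `Θ` is not a zero divisor modulo `I` and vanishes at the points of `S`, whose first coordinates are distinct. PROOF. Let
`Im K` be the image of `Bx K` in `R3 / I`. `Θ Im K ⊆ Im (K + θ)` has dimension `Hil I K`, and the evaluation `Im (K + θ) → (S → ℚ)` is well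
defined (`I` vanishes on `S`), vanishes on `Θ Im K`, and is surjective if `S.card ≤ K 0 + 1` (Lagrange interpolation in `X 0`). -/
theorem Hil_step {I : Ideal R3} {Θ : R3} (hΘ : ∀ g, Θ * g ∈ I → g ∈ I) (S : Finset (Fin 3 → ℚ))
    (hinj : ∀ v ∈ S, ∀ w ∈ S, v 0 = w 0 → v = w) (hI : ∀ v ∈ S, ∀ g ∈ I, eval v g = 0)
    (hΘS : ∀ v ∈ S, eval v Θ = 0) (K : Fin 3 → ℕ) (hK : S.card ≤ K 0 + 1) :
    Hil I K + S.card ≤ Hil I (fun i => K i + Θ.degreeOf i) := by
  classical
  obtain ⟨K', hK'⟩ : ∃ K' : Fin 3 → ℕ, K' = fun i => K i + Θ.degreeOf i := ⟨_, rfl⟩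
  rw [← hK']
  have hfin : Module.Finite ℚ (Bx K') := (finrank_Bx K').1
  unfold Hil
  obtain ⟨π, hπ⟩ : ∃ π : R3 →ₐ[ℚ] R3 ⧸ I, π = Ideal.Quotient.mkₐ ℚ I := ⟨_, rfl⟩
  rw [← hπ]
  have hW : Module.Finite ℚ ((Bx K').map π.toLinearMap) := Module.Finite.map (Bx K') _
  -- the evaluation
  let f : R3 →ₐ[ℚ] (S → ℚ) := AlgHom.pi fun v => MvPolynomial.aeval v.1
  have hf : ∀ (g : R3) (v : S), f g v = eval v.1 g := by
    intro g v
    simp only [f, AlgHom.pi_apply]
    rw [MvPolynomial.aeval_eq_eval]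
  have hfI : ∀ a ∈ I, f a = 0 := by
    intro a ha
    funext v
    rw [hf]
    exact hI v.1 v.2 a ha
  let ev : (R3 ⧸ I) →ₐ[ℚ] (S → ℚ) := Ideal.Quotient.liftₐ I f hfI
  have hev : ∀ g : R3, ev (π g) = f g := by
    intro g
    rw [hπ]
    rfl
  -- multiplication by `Θ`
  let mu : (R3 ⧸ I) →ₗ[ℚ] (R3 ⧸ I) := LinearMap.mulLeft ℚ (π Θ)
  have hmu : Function.Injective mu := by
    rw [injective_iff_map_eq_zero]
    intro x hx
    obtain ⟨g, rfl⟩ : ∃ g, π g = x := by
      rw [hπ]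
      exact Ideal.Quotient.mkₐ_surjective ℚ I x
    have h1 : π (Θ * g) = 0 := by
      rw [map_mul]
      exact hx
    rw [hπ] at h1 ⊢
    exact Ideal.Quotient.eq_zero_iff_mem.2 (hΘ g (Ideal.Quotient.eq_zero_iff_mem.1 h1))
  obtain ⟨V, hV⟩ : ∃ V : Submodule ℚ (R3 ⧸ I), V = (Bx K).map π.toLinearMap := ⟨_, rfl⟩
  obtain ⟨W, hWd⟩ : ∃ W : Submodule ℚ (R3 ⧸ I), W = (Bx K').map π.toLinearMap := ⟨_, rfl⟩
  rw [← hWd] at hW ⊢
  rw [← hV]
  have hVW : V.map mu ≤ W := by
    rw [hV, hWd]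
    rintro _ ⟨_, ⟨g, hg, rfl⟩, rfl⟩
    refine ⟨Θ * g, ?_, ?_⟩
    · intro i
      refine (degreeOf_mul_le i _ _).trans ?_
      rw [hK', add_comm]
      exact Nat.add_le_add_right (hg i) _
    · exact map_mul π Θ g
  -- the restriction of the evaluation
  let evW : W →ₗ[ℚ] (S → ℚ) := ev.toLinearMap.domRestrict W
  have hsurj : LinearMap.range evW = ⊤ := by
    rw [LinearMap.range_eq_top]
    intro c
    have hinj' : Set.InjOn (fun w : Fin 3 → ℚ => w 0) (S : Set (Fin 3 → ℚ)) :=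
      fun v hv w hw h => hinj v hv w hw h
    obtain ⟨P, hP⟩ : ∃ P : Polynomial ℚ, P = Lagrange.interpolate S (fun w : Fin 3 → ℚ => w 0)
      (fun w => if h : w ∈ S then c ⟨w, h⟩ else 0) := ⟨_, rfl⟩
    have hdeg : P.natDegree ≤ K' 0 := by
      rcases eq_or_ne P 0 with h0 | h0
      · rw [h0, Polynomial.natDegree_zero]
        exact Nat.zero_le _
      · have h1 : P.degree < S.card := by
          rw [hP]
          exact Lagrange.degree_interpolate_lt _ hinj'
        rw [← Polynomial.natDegree_lt_iff_degree_lt h0] at h1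
        rw [hK']
        simp only
        omega
    refine ⟨⟨π (Polynomial.aeval (X 0 : R3) P), ?_⟩, ?_⟩
    · rw [hWd]
      exact ⟨_, HcC_poly_mem P K' hdeg, rfl⟩
    · change ev (π (Polynomial.aeval (X 0 : R3) P)) = c
      rw [hev]
      funext v
      rw [hf, ← MvPolynomial.aeval_eq_eval, ← Polynomial.aeval_algHom_apply, MvPolynomial.aeval_X,
        Polynomial.aeval_def, Algebra.algebraMap_self, Polynomial.eval₂_id, hP,
        Lagrange.eval_interpolate_at_node _ hinj' v.2, dif_pos v.2]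
  have hker : (V.map mu).comap W.subtype ≤ LinearMap.ker evW := by
    intro x hx
    rw [LinearMap.mem_ker]
    obtain ⟨y, _, hy⟩ := hx
    change ev x.1 = 0
    have h1 : (x.1 : R3 ⧸ I) = π Θ * y := hy.symm
    rw [h1, map_mul, hev]
    have h2 : f Θ = 0 := by
      funext v
      rw [hf]
      exact hΘS v.1 v.2
    rw [h2, zero_mul]
  have e1 : Module.finrank ℚ ((V.map mu).comap W.subtype) = Module.finrank ℚ V := by
    rw [(Submodule.comapSubtypeEquivOfLe hVW).finrank_eq]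
    exact (Submodule.equivMapOfInjective mu hmu V).finrank_eq.symm
  have e2 := LinearMap.finrank_range_add_finrank_ker evW
  rw [hsurj, finrank_top, Module.finrank_fintype_fun_eq_card, Fintype.card_coe] at e2
  have e3 := Submodule.finrank_mono hker
  rw [e1] at e3
  omega

end Pool.Agent.Lib.MP_3550b5_nt.AC
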