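import Mathlib
import Pool.Agent.Lib.MP_3550b5_nt.AC.HcC

/-!
PROJECT AC, block COUNT: counting points with distinct first coordinate on the curves `F = G = 0`, with degrees only.
-/

namespace Pool.Agent.Lib.MP_3550b5_nt.AC

open MvPolynomial

/-- THE COUNT. PROOF. For `v ∈ S` choose `𝔭 v`; `I = ⨅ v ∈ S, 𝔭 v` contains `F`, `G`, vanishes on `S`, and `Θ` is not a zero divisor modulo `I`.
Iterate `Hil_step` `n` times from `K₀` (all coordinates `≥ S.card + α + β`): `n S.card ≤ Hil I (K₀ + n θ)`, `Hil_le`, divide by `n → ∞`. -/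
theorem count_main {F G Θ : R3} (hF : Prime F) (hG : ¬ F ∣ G) (S : Finset (Fin 3 → ℚ))
    (hinj : ∀ v ∈ S, ∀ w ∈ S, v 0 = w 0 → v = w)
    (h : ∀ v ∈ S, ∃ 𝔭 : Ideal R3, 𝔭.IsPrime ∧ F ∈ 𝔭 ∧ G ∈ 𝔭 ∧ Θ ∉ 𝔭 ∧ ∀ g ∈ 𝔭, eval v g = 0)
    (hΘ : ∀ v ∈ S, eval v Θ = 0) :
    S.card ≤ (F.degreeOf 1 * G.degreeOf 2 + F.degreeOf 2 * G.degreeOf 1) * Θ.degreeOf 0 +
      (F.degreeOf 0 * G.degreeOf 2 + F.degreeOf 2 * G.degreeOf 0) * Θ.degreeOf 1 +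
      (F.degreeOf 0 * G.degreeOf 1 + F.degreeOf 1 * G.degreeOf 0) * Θ.degreeOf 2 := by
  choose! 𝔭 hp hpF hpG hpΘ hpv using h
  have hmem : ∀ g : R3, g ∈ (⨅ v ∈ S, 𝔭 v) ↔ ∀ v ∈ S, g ∈ 𝔭 v := fun g => by
    simp only [Submodule.mem_iInf]
  obtain ⟨I, hI⟩ : ∃ I : Ideal R3, ∀ g, g ∈ I ↔ ∀ v ∈ S, g ∈ 𝔭 v := ⟨_, hmem⟩
  have hΘI : ∀ g, Θ * g ∈ I → g ∈ I := by
    intro g hg
    rw [hI] at hg ⊢
    intro v hv
    exact ((hp v hv).mem_or_mem (hg v hv)).resolve_left (hpΘ v hv)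
  have hIS : ∀ v ∈ S, ∀ g ∈ I, eval v g = 0 := fun v hv g hg => hpv v hv g ((hI g).1 hg v hv)
  obtain ⟨α, hα⟩ : ∃ α : Fin 3 → ℕ, ∀ i, α i = F.degreeOf i + G.degreeOf i := ⟨_, fun _ => rfl⟩
  have hiter : ∀ n : ℕ, n * S.card ≤
      Hil I (fun i => S.card + α i + n * Θ.degreeOf i) := by
    intro n
    induction n with
    | zero =>
      rw [zero_mul]
      exact Nat.zero_le _
    | succ n ih =>
      have h1 := Hil_step hΘI S hinj hIS hΘ (fun i => S.card + α i + n * Θ.degreeOf i)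
        (by show S.card ≤ S.card + α 0 + n * Θ.degreeOf 0 + 1; omega)
      have h2 : (fun i => S.card + α i + n * Θ.degreeOf i + Θ.degreeOf i) =
          fun i => S.card + α i + (n + 1) * Θ.degreeOf i := by
        funext i
        ring
      rw [h2] at h1
      calc (n + 1) * S.card = n * S.card + S.card := by ring
        _ ≤ Hil I (fun i => S.card + α i + n * Θ.degreeOf i) + S.card :=
            Nat.add_le_add_right ih _
        _ ≤ _ := h1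
  obtain ⟨A, hA⟩ : ∃ A : ℕ, A = F.degreeOf 1 * G.degreeOf 2 + F.degreeOf 2 * G.degreeOf 1 :=
    ⟨_, rfl⟩
  obtain ⟨B, hB⟩ : ∃ B : ℕ, B = F.degreeOf 0 * G.degreeOf 2 + F.degreeOf 2 * G.degreeOf 0 :=
    ⟨_, rfl⟩
  obtain ⟨C', hC⟩ : ∃ C' : ℕ, C' = F.degreeOf 0 * G.degreeOf 1 + F.degreeOf 1 * G.degreeOf 0 :=
    ⟨_, rfl⟩
  rw [← hA, ← hB, ← hC]
  obtain ⟨D, hD⟩ : ∃ D : ℕ, D = A * (S.card + α 0 + 1) + B * (S.card + α 1 + 1) +
      C' * (S.card + α 2 + 1) := ⟨_, rfl⟩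
  have hle : ∀ n : ℕ, n * S.card ≤
      n * (A * Θ.degreeOf 0 + B * Θ.degreeOf 1 + C' * Θ.degreeOf 2) + D := by
    intro n
    refine (hiter n).trans ?_
    have hFI : F ∈ I := (hI F).2 fun v hv => hpF v hv
    have hGI : G ∈ I := (hI G).2 fun v hv => hpG v hv
    have h1 := Hil_le hF hG hFI hGI (fun i => S.card + α i + n * Θ.degreeOf i) (fun i => by
      show F.degreeOf i + G.degreeOf i ≤ S.card + α i + n * Θ.degreeOf i
      rw [hα]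
      omega)
    rw [← hA, ← hB, ← hC] at h1
    refine h1.trans (le_of_eq ?_)
    rw [hD]
    ring
  by_contra hcon
  rw [not_le] at hcon
  have h1 := hle (D + 1)
  have h2 : (D + 1) * (A * Θ.degreeOf 0 + B * Θ.degreeOf 1 + C' * Θ.degreeOf 2 + 1) ≤
      (D + 1) * S.card := Nat.mul_le_mul_left _ hcon
  have h3 : (D + 1) * (A * Θ.degreeOf 0 + B * Θ.degreeOf 1 + C' * Θ.degreeOf 2 + 1) =
      (D + 1) * (A * Θ.degreeOf 0 + B * Θ.degreeOf 1 + C' * Θ.degreeOf 2) + (D + 1) := by ring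
  omega

end Pool.Agent.Lib.MP_3550b5_nt.AC
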