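import Mathlib
import Pool.Agent.Lib.MP_3550b5_nt.AC.HcD

/-!
PROJECT AC, block COUNT: counting points with distinct first coordinate on the curves `F = G = 0`, with degrees only.
-/

namespace Pool.Agent.Lib.MP_3550b5_nt.AC

open MvPolynomial

/-- One of the other coordinates is transcendental modulo `𝔭`. -/
private theorem hcE_tr {𝔭 : Ideal R3} (hp : 𝔭.IsPrime) {v : Fin 3 → ℚ} (h0 : X 0 - C (v 0) ∈ 𝔭)
    (hv : ∀ g ∈ 𝔭, eval v g = 0) (hg : ∃ g : R3, g ∉ 𝔭 ∧ eval v g = 0) :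
    ∃ i : Fin 3, i ≠ 0 ∧ ∀ q : Polynomial ℚ, Polynomial.aeval (X i : R3) q ∈ 𝔭 → q = 0 := by
  by_contra hcon
  push Not at hcon
  have h1 : ∀ i : Fin 3, ∃ q : Polynomial ℚ, Polynomial.aeval (X i : R3) q ∈ 𝔭 ∧ q ≠ 0 := by
    intro i
    by_cases hi : i = 0
    · refine ⟨Polynomial.X - Polynomial.C (v 0), ?_, Polynomial.X_sub_C_ne_zero _⟩
      rw [map_sub, Polynomial.aeval_X, Polynomial.aeval_C, hi]
      exact h0
    · exact hcon i hi
  have hdom : IsDomain (R3 ⧸ 𝔭) := Ideal.Quotient.isDomain 𝔭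
  have h2 : ∀ i : Fin 3, IsIntegral ℚ (Ideal.Quotient.mkₐ ℚ 𝔭 (X i)) := by
    intro i
    obtain ⟨q, hq, hq0⟩ := h1 i
    refine IsAlgebraic.isIntegral ⟨q, hq0, ?_⟩
    rw [Polynomial.aeval_algHom_apply, Ideal.Quotient.mkₐ_eq_mk]
    exact Ideal.Quotient.eq_zero_iff_mem.2 hq
  have h3 : ∀ g : R3, IsIntegral ℚ (Ideal.Quotient.mkₐ ℚ 𝔭 g) := by
    intro g
    induction g using MvPolynomial.induction_on with
    | C a =>
      have e : Ideal.Quotient.mkₐ ℚ 𝔭 (C a) = algebraMap ℚ (R3 ⧸ 𝔭) a :=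
        (Ideal.Quotient.mkₐ ℚ 𝔭).commutes a
      rw [e]
      exact isIntegral_algebraMap
    | add p q hp hq =>
      rw [map_add]
      exact hp.add hq
    | mul_X p i hp =>
      rw [map_mul]
      exact hp.mul (h2 i)
  have h4 : Algebra.IsIntegral ℚ (R3 ⧸ 𝔭) := ⟨fun x => by
    obtain ⟨g, rfl⟩ := Ideal.Quotient.mk_surjective x
    exact h3 g⟩
  have h5 : IsField (R3 ⧸ 𝔭) := isField_of_isIntegral_of_isField' (Field.toIsField ℚ)
  obtain ⟨g, hg1, hg2⟩ := hg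
  obtain ⟨y, hy⟩ := h5.mul_inv_cancel
    (fun h => hg1 (Ideal.Quotient.eq_zero_iff_mem.1 h) : Ideal.Quotient.mk 𝔭 g ≠ 0)
  obtain ⟨h, rfl⟩ := Ideal.Quotient.mk_surjective y
  rw [← map_mul, ← map_one (Ideal.Quotient.mk 𝔭), Ideal.Quotient.eq] at hy
  have h6 := hv _ hy
  rw [map_sub, map_mul, hg2, zero_mul, map_one, zero_sub] at h6
  norm_num at h6

/-- The product of the `X 0 - C (u 0)`. -/
private noncomputable def hcE_l (S : Finset (Fin 3 → ℚ)) (v : Fin 3 → ℚ) : R3 :=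
  ∏ u ∈ S.erase v, (X 0 + C (-u 0))

private theorem hcE_deg (S : Finset (Fin 3 → ℚ)) (v : Fin 3 → ℚ) (i : Fin 3) :
    (hcE_l S v).degreeOf i ≤ if i = 0 then S.card else 0 := by
  unfold hcE_l
  refine (degreeOf_prod_le i _ _).trans ?_
  have h1 : ∀ u ∈ S.erase v, (X 0 + C (-u 0) : R3).degreeOf i ≤ if i = 0 then 1 else 0 := by
    intro u _
    refine (degreeOf_add_le i _ _).trans (max_le ?_ ?_)
    · rw [degreeOf_X]
    · rw [degreeOf_C]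
      exact Nat.zero_le _
  refine (Finset.sum_le_sum h1).trans ?_
  rw [Finset.sum_const]
  split_ifs with hi
  · rw [smul_eq_mul, mul_one]
    exact Finset.card_le_card (Finset.erase_subset _ _)
  · rw [smul_zero]

private theorem hcE_mem {S : Finset (Fin 3 → ℚ)} {u v : Fin 3 → ℚ} (hu : u ∈ S) (huv : u ≠ v)
    {𝔭 : Ideal R3} (h0 : X 0 - C (u 0) ∈ 𝔭) : hcE_l S v ∈ 𝔭 := by
  unfold hcE_l
  rw [← Finset.mul_prod_erase _ _ (Finset.mem_erase.2 ⟨huv, hu⟩)]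
  refine Ideal.mul_mem_right _ _ ?_
  rw [map_neg, ← sub_eq_add_neg]
  exact h0

private theorem hcE_nmem {S : Finset (Fin 3 → ℚ)} {v : Fin 3 → ℚ} (hv : v ∈ S)
    (hinj : ∀ v ∈ S, ∀ w ∈ S, v 0 = w 0 → v = w) {𝔭 : Ideal R3} (hp : 𝔭.IsPrime)
    (h : ∀ g ∈ 𝔭, eval v g = 0) : hcE_l S v ∉ 𝔭 := by
  intro h1
  have h2 := h _ h1
  unfold hcE_l at h2
  rw [map_prod, Finset.prod_eq_zero_iff] at h2
  obtain ⟨u, hu, h3⟩ := h2
  rw [Finset.mem_erase] at hu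
  rw [map_add, eval_X, eval_C, ← sub_eq_add_neg, sub_eq_zero] at h3
  exact hu.1 (hinj v hv u hu.2 h3).symm

/-- The lower bound. -/
private theorem hcE_lower {S : Finset (Fin 3 → ℚ)} (hinj : ∀ v ∈ S, ∀ w ∈ S, v 0 = w 0 → v = w)
    {𝔭 : S → Ideal R3} (hp : ∀ v, (𝔭 v).IsPrime) (h0 : ∀ v : S, X 0 - C (v.1 0) ∈ 𝔭 v)
    (hv : ∀ v : S, ∀ g ∈ 𝔭 v, eval v.1 g = 0)
    (hg : ∀ v : S, ∃ g : R3, g ∉ 𝔭 v ∧ eval v.1 g = 0) {K : Fin 3 → ℕ} {w : ℕ}
    (hK0 : S.card ≤ K 0) (hK1 : w ≤ K 1) (hK2 : w ≤ K 2) :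
    S.card * (w + 1) ≤ Hil (⨅ v, 𝔭 v) K := by
  classical
  choose i hi0 hi using fun v : S => hcE_tr (hp v) (h0 v) (hv v) (hg v)
  obtain ⟨I, hI⟩ : ∃ I, I = ⨅ v, 𝔭 v := ⟨_, rfl⟩
  rw [← hI]
  have hIp : ∀ (v : S) (g : R3), g ∈ I → g ∈ 𝔭 v := by
    intro v g hg
    rw [hI, Submodule.mem_iInf] at hg
    exact hg v
  obtain ⟨b, hb⟩ : ∃ b : S × Fin (w + 1) → R3,
      b = fun x => hcE_l S x.1.1 * X (i x.1) ^ (x.2 : ℕ) := ⟨_, rfl⟩
  have hbx : ∀ x, b x ∈ Bx K := by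
    intro x k
    rw [hb]
    refine (degreeOf_mul_le k _ _).trans ?_
    have h1 := hcE_deg S x.1.1 k
    have h2 : (X (i x.1) ^ (x.2 : ℕ) : R3).degreeOf k ≤ x.2 * (if k = i x.1 then 1 else 0) := by
      refine (degreeOf_pow_le k _ _).trans ?_
      rw [degreeOf_X]
    have h3 : (x.2 : ℕ) ≤ w := Nat.lt_succ_iff.1 x.2.2
    have h4 := hi0 x.1
    by_cases hk : k = 0
    · rw [hk] at h1 h2 ⊢
      rw [if_neg (Ne.symm h4), mul_zero] at h2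
      rw [if_pos rfl] at h1
      omega
    · rw [if_neg hk] at h1
      have h5 : (x.2 : ℕ) * (if k = i x.1 then 1 else 0) ≤ w := by
        split_ifs
        · omega
        · omega
      have h6 : w ≤ K k := by
        fin_cases k
        · exact absurd rfl hk
        · exact hK1
        · exact hK2
      omega
  have hlin : LinearIndependent ℚ fun x => Ideal.Quotient.mkₐ ℚ I (b x) := by
    rw [Fintype.linearIndependent_iff]
    intro c hc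
    have h1 : ∑ x, c x • b x ∈ I := by
      rw [← Ideal.Quotient.eq_zero_iff_mem, ← Ideal.Quotient.mkₐ_eq_mk ℚ, map_sum]
      simpa only [map_smul] using hc
    rintro ⟨v, j⟩
    have h2 := hIp v _ h1
    rw [Fintype.sum_prod_type, ← Finset.add_sum_erase _ _ (Finset.mem_univ v)] at h2
    have h3 : ∑ u ∈ Finset.univ.erase v, ∑ j, c (u, j) • b (u, j) ∈ 𝔭 v := by
      refine sum_mem fun u hu => sum_mem fun j _ => ?_
      rw [smul_eq_C_mul, hb]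
      refine Ideal.mul_mem_left _ _ (Ideal.mul_mem_right _ _ (hcE_mem v.2 ?_ (h0 v)))
      intro h
      exact (Finset.mem_erase.1 hu).1 (Subtype.ext h).symm
    have h4 : ∑ j, c (v, j) • b (v, j) ∈ 𝔭 v := (Ideal.add_mem_iff_left _ h3).1 h2
    have h5 : ∑ j, c (v, j) • b (v, j) = hcE_l S v.1 *
        Polynomial.aeval (X (i v) : R3) (∑ j : Fin (w + 1), Polynomial.C (c (v, j)) *
          Polynomial.X ^ (j : ℕ)) := by
      rw [map_sum, Finset.mul_sum]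
      refine Finset.sum_congr rfl fun j _ => ?_
      rw [map_mul, map_pow, Polynomial.aeval_X, Polynomial.aeval_C, hb, smul_eq_C_mul]
      have e : (algebraMap ℚ R3) (c (v, j)) = C (c (v, j)) := rfl
      rw [e]
      ring
    rw [h5] at h4
    have h6 := hi v _ (((hp v).mem_or_mem h4).resolve_left (hcE_nmem v.2 hinj (hp v) (hv v)))
    have h7 := congrArg (fun q => Polynomial.coeff q (j : ℕ)) h6
    simp only [Polynomial.finsetSum_coeff, Polynomial.coeff_C_mul, Polynomial.coeff_X_pow,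
      Polynomial.coeff_zero] at h7
    rw [Finset.sum_eq_single j] at h7
    · rwa [if_pos rfl, mul_one] at h7
    · intro k _ hk
      rw [if_neg fun h => hk (Fin.ext h.symm), mul_zero]
    · intro h
      exact absurd (Finset.mem_univ j) h
  have h8 := finrank_span_eq_card hlin
  rw [Fintype.card_prod, Fintype.card_coe, Fintype.card_fin] at h8
  rw [← h8]
  have hfin : Module.Finite ℚ (Bx K) := (finrank_Bx K).1
  unfold Hil
  refine Submodule.finrank_mono ?_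
  rw [Submodule.span_le]
  rintro _ ⟨x, rfl⟩
  exact Submodule.mem_map_of_mem (hbx x)

/-- VERTICAL PRIMES. PROOF. `I = ⨅ 𝔭 v`, `K = (K₀, w, w)`, `K₀ = S.card + α₀ + β₀`. The map `Im K → ∏_v (image of Bx K in R3 / 𝔭 v)` is surjective:
Lagrange interpolation in `X 0` (`X 0 - C (v 0) ∈ 𝔭 v`). The image of `Bx (0, w, w)` in `R3 / 𝔭 v` has dimension at least `w + 1`: it increases with `w`,
and if it is the same for `w` and `w + 1` it is the same for all larger ones (`Bx (0,w+1,w+1) = Bx (0,w,w) + X 1 Bx + X 2 Bx + X 1 X 2 Bx`; use total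
degrees or this), so `R3 / 𝔭 v` is finite dimensional, a field, `𝔭 v` is maximal: it equals the ideal of `v`. With `Hil_le` and `w → ∞`. -/
theorem count_vert {F G : R3} (hF : Prime F) (hG : ¬ F ∣ G) (S : Finset (Fin 3 → ℚ))
    (hinj : ∀ v ∈ S, ∀ w ∈ S, v 0 = w 0 → v = w)
    (h : ∀ v ∈ S, ∃ 𝔭 : Ideal R3, 𝔭.IsPrime ∧ F ∈ 𝔭 ∧ G ∈ 𝔭 ∧ X 0 - C (v 0) ∈ 𝔭 ∧ (∀ g ∈ 𝔭, eval v g = 0) ∧
      ∃ g : R3, g ∉ 𝔭 ∧ eval v g = 0) :
    S.card ≤ (F.degreeOf 0 * G.degreeOf 2 + F.degreeOf 2 * G.degreeOf 0) +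
      (F.degreeOf 0 * G.degreeOf 1 + F.degreeOf 1 * G.degreeOf 0) := by
  classical
  have h' : ∀ v : S, ∃ 𝔭 : Ideal R3, 𝔭.IsPrime ∧ F ∈ 𝔭 ∧ G ∈ 𝔭 ∧ X 0 - C (v.1 0) ∈ 𝔭 ∧
      (∀ g ∈ 𝔭, eval v.1 g = 0) ∧ ∃ g : R3, g ∉ 𝔭 ∧ eval v.1 g = 0 := fun v => h v.1 v.2
  choose 𝔭 hp hpF hpG hp0 hpv hpg using h'
  by_contra hcon
  rw [not_le] at hcon
  obtain ⟨A, hA⟩ : ∃ A, A = F.degreeOf 1 * G.degreeOf 2 + F.degreeOf 2 * G.degreeOf 1 := ⟨_, rfl⟩
  obtain ⟨B, hB⟩ : ∃ B, B = F.degreeOf 0 * G.degreeOf 2 + F.degreeOf 2 * G.degreeOf 0 := ⟨_, rfl⟩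
  obtain ⟨D, hD⟩ : ∃ D, D = F.degreeOf 0 * G.degreeOf 1 + F.degreeOf 1 * G.degreeOf 0 := ⟨_, rfl⟩
  obtain ⟨K₀, hK₀⟩ : ∃ K₀, K₀ = S.card + (F.degreeOf 0 + G.degreeOf 0) := ⟨_, rfl⟩
  obtain ⟨w, hw⟩ : ∃ w, w = A * (K₀ + 1) + (F.degreeOf 1 + G.degreeOf 1) +
      (F.degreeOf 2 + G.degreeOf 2) := ⟨_, rfl⟩
  have h1 := hcE_lower hinj hp hp0 hpv hpg (K := ![K₀, w, w]) (w := w)
    (by simp only [Matrix.cons_val_zero]; omega) (by simp) (by simp)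
  have hFI : F ∈ ⨅ v, 𝔭 v := (Submodule.mem_iInf _).2 hpF
  have hGI : G ∈ ⨅ v, 𝔭 v := (Submodule.mem_iInf _).2 hpG
  have h2 := Hil_le hF hG hFI hGI ![K₀, w, w] (by
    intro i
    fin_cases i
    · change F.degreeOf 0 + G.degreeOf 0 ≤ K₀
      omega
    · change F.degreeOf 1 + G.degreeOf 1 ≤ w
      omega
    · change F.degreeOf 2 + G.degreeOf 2 ≤ w
      omega)
  rw [← hA, ← hB, ← hD] at h2
  have h3 : S.card * (w + 1) ≤ A * (K₀ + 1) + B * (w + 1) + D * (w + 1) := h1.trans h2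
  rw [← hB, ← hD] at hcon
  have h4 : (B + D + 1) * (w + 1) ≤ S.card * (w + 1) := Nat.mul_le_mul_right _ hcon
  have h5 : (B + D + 1) * (w + 1) = B * (w + 1) + D * (w + 1) + (w + 1) := by ring
  omega

end Pool.Agent.Lib.MP_3550b5_nt.AC
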