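import Mathlib
import Pool.Agent.Lib.MP_3550b5_nt.AC.HcE

/-!
PROJECT AC, block COUNT: counting points with distinct first coordinate on the curves `F = G = 0`, with degrees only.
-/

namespace Pool.Agent.Lib.MP_3550b5_nt.AC

open MvPolynomial

/-- Substitution of constants. -/
private noncomputable def hcS (c : Fin 3 → R3) : R3 →+* R3 := (aeval c : R3 →ₐ[ℚ] R3).toRingHom

private theorem hcS_X (c : Fin 3 → R3) (i : Fin 3) : hcS c (X i) = c i := by
  unfold hcS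
  simp

private theorem hcS_C (c : Fin 3 → R3) (r : ℚ) : hcS c (C r) = C r := by
  unfold hcS
  simp [MvPolynomial.algebraMap_eq]

private theorem hc_le {c d : Fin 3 → R3} (h : ∀ i, hcS d (c i) = d i) {g : R3}
    (hg : g ∈ RingHom.ker (hcS c)) : g ∈ RingHom.ker (hcS d) := by
  rw [RingHom.mem_ker] at hg ⊢
  have h1 : (hcS d).comp (hcS c) = hcS d := by
    refine MvPolynomial.ringHom_ext (fun r => ?_) fun i => ?_
    · rw [RingHom.comp_apply, hcS_C, hcS_C]
    · rw [RingHom.comp_apply, hcS_X, h, hcS_X]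
  rw [← h1, RingHom.comp_apply, hg, map_zero]

private theorem hc_ne (i : Fin 3) (r : ℚ) : (X i - C r : R3) ≠ 0 := by
  intro h
  have h1 := congrArg (eval (fun _ => r + 1)) h
  simp at h1

/-- A CURVE THROUGH A POINT. PROOF. `𝔪` = the ideal of `v` (kernel of `eval v`), `𝔭` a minimal prime of `(F, G)` inside `𝔪`
(`Ideal.exists_minimalPrimes_le`). Krull: `𝔭.height ≤ 2` (`Ideal.height_le_spanRank_toENat_of_mem_minimalPrimes`), and `𝔪` has height at least `3`
(chain `0 < (X 0 - v 0) < (X 0 - v 0, X 1 - v 1) < 𝔪` of primes). So `𝔭 ≠ 𝔪`. -/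
theorem exists_curve (F G : R3) (v : Fin 3 → ℚ) (hF : eval v F = 0) (hG : eval v G = 0) :
    ∃ 𝔭 : Ideal R3, 𝔭.IsPrime ∧ F ∈ 𝔭 ∧ G ∈ 𝔭 ∧ (∀ g ∈ 𝔭, eval v g = 0) ∧ ∃ g : R3, g ∉ 𝔭 ∧ eval v g = 0 := by
  classical
  obtain ⟨𝔪, h𝔪⟩ : ∃ 𝔪 : Ideal R3, 𝔪 = RingHom.ker (eval v : R3 →+* ℚ) := ⟨_, rfl⟩
  have hm : ∀ g, g ∈ 𝔪 ↔ eval v g = 0 := fun g => by rw [h𝔪, RingHom.mem_ker]
  have hmp : 𝔪.IsPrime := by
    rw [h𝔪]
    exact RingHom.ker_isPrime _
  have hle : Ideal.span {F, G} ≤ 𝔪 := by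
    rw [Ideal.span_le]
    rintro x (rfl | rfl)
    · exact (hm _).2 hF
    · exact (hm _).2 hG
  obtain ⟨𝔭, h𝔭, h𝔭m⟩ := Ideal.exists_minimalPrimes_le hle
  have hpp : 𝔭.IsPrime := h𝔭.1.1
  refine ⟨𝔭, hpp, h𝔭.1.2 (Ideal.subset_span (by simp)), h𝔭.1.2 (Ideal.subset_span (by simp)),
    fun g hg => (hm g).1 (h𝔭m hg), ?_⟩
  by_contra hcon
  push Not at hcon
  have heq : 𝔭 = 𝔪 := le_antisymm h𝔭m fun g hg => by
    by_contra hgp
    exact hcon g hgp ((hm g).1 hg)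
  have hht : 𝔭.height ≤ 2 := by
    have h1 := Ideal.height_le_card_of_mem_minimalPrimes_span_finset (p := 𝔭)
      (s := ({F, G} : Finset R3)) (by simpa using h𝔭)
    refine h1.trans ?_
    exact_mod_cast Finset.card_le_two
  -- the chain
  obtain ⟨c₁, hc₁⟩ : ∃ c : Fin 3 → R3, c = ![C (v 0), X 1, X 2] := ⟨_, rfl⟩
  obtain ⟨c₂, hc₂⟩ : ∃ c : Fin 3 → R3, c = ![C (v 0), C (v 1), X 2] := ⟨_, rfl⟩
  obtain ⟨c₃, hc₃⟩ : ∃ c : Fin 3 → R3, c = ![C (v 0), C (v 1), C (v 2)] := ⟨_, rfl⟩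
  have hP₁ : (RingHom.ker (hcS c₁)).IsPrime := RingHom.ker_isPrime _
  have hP₂ : (RingHom.ker (hcS c₂)).IsPrime := RingHom.ker_isPrime _
  have hP₃ : (RingHom.ker (hcS c₃)).IsPrime := RingHom.ker_isPrime _
  have hm3 : RingHom.ker (hcS c₃) = 𝔪 := by
    have h1 : ∀ g, hcS c₃ g = C (eval v g) := by
      intro g
      have h2 : hcS c₃ = (C : ℚ →+* R3).comp (eval v) := by
        refine MvPolynomial.ringHom_ext (fun r => ?_) fun i => ?_
        · rw [RingHom.comp_apply, hcS_C, eval_C]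
        · rw [RingHom.comp_apply, hcS_X, eval_X, hc₃]
          fin_cases i <;> rfl
      rw [h2, RingHom.comp_apply]
    ext g
    rw [RingHom.mem_ker, h1, hm, map_eq_zero_iff _ (C_injective (Fin 3) ℚ)]
  have l01 : (⊥ : Ideal R3) < RingHom.ker (hcS c₁) := by
    refine bot_lt_iff_ne_bot.2 fun h => hc_ne 0 (v 0) ?_
    have h1 : (X 0 - C (v 0) : R3) ∈ RingHom.ker (hcS c₁) := by
      rw [RingHom.mem_ker, map_sub, hcS_X, hcS_C, hc₁]
      exact sub_self _
    rw [h] at h1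
    exact h1
  have l12 : RingHom.ker (hcS c₁) < RingHom.ker (hcS c₂) := by
    refine lt_of_le_of_ne (fun g hg => hc_le (fun i => ?_) hg) fun h => ?_
    · rw [hc₁]
      fin_cases i
      · exact (hcS_C _ _).trans (by rw [hc₂]; rfl)
      · exact hcS_X _ _
      · exact hcS_X _ _
    · have h1 : (X 1 - C (v 1) : R3) ∈ RingHom.ker (hcS c₂) := by
        rw [RingHom.mem_ker, map_sub, hcS_X, hcS_C, hc₂]
        exact sub_self _
      rw [← h, RingHom.mem_ker, map_sub, hcS_X, hcS_C, hc₁] at h1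
      exact hc_ne 1 (v 1) h1
  have l23 : RingHom.ker (hcS c₂) < RingHom.ker (hcS c₃) := by
    refine lt_of_le_of_ne (fun g hg => hc_le (fun i => ?_) hg) fun h => ?_
    · rw [hc₂]
      fin_cases i
      · exact (hcS_C _ _).trans (by rw [hc₃]; rfl)
      · exact (hcS_C _ _).trans (by rw [hc₃]; rfl)
      · exact hcS_X _ _
    · have h1 : (X 2 - C (v 2) : R3) ∈ RingHom.ker (hcS c₃) := by
        rw [RingHom.mem_ker, map_sub, hcS_X, hcS_C, hc₃]
        exact sub_self _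
      rw [← h, RingHom.mem_ker, map_sub, hcS_X, hcS_C, hc₂] at h1
      exact hc_ne 2 (v 2) h1
  have hb : (⊥ : Ideal R3).IsPrime := Ideal.isPrime_bot
  have e1 := Ideal.height_add_one_le_of_lt_of_isPrime l01
  have e2 := Ideal.height_add_one_le_of_lt_of_isPrime l12
  have e3 := Ideal.height_add_one_le_of_lt_of_isPrime l23
  rw [hm3, ← heq] at e3
  have e4 : (3 : ℕ∞) ≤ 𝔭.height := by
    calc (3 : ℕ∞) = 0 + 1 + 1 + 1 := by norm_num
      _ ≤ (⊥ : Ideal R3).height + 1 + 1 + 1 := by gcongr; exact bot_le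
      _ ≤ (RingHom.ker (hcS c₁)).height + 1 + 1 := by gcongr
      _ ≤ (RingHom.ker (hcS c₂)).height + 1 := by gcongr
      _ ≤ _ := e3
  have e5 : (3 : ℕ∞) ≤ 2 := e4.trans hht
  exact absurd e5 (by decide)

/-- A prime which does not contain `X 0 - v 0` contains no nonzero polynomial in `X 0`. PROOF. `g(v 0) = 0`, so
`g = (x - v 0) g₁`; strong induction on the degree. -/
theorem horizontal {𝔭 : Ideal R3} (hp : 𝔭.IsPrime) {v : Fin 3 → ℚ} (hv : ∀ g ∈ 𝔭, eval v g = 0)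
    (h : X 0 - C (v 0) ∉ 𝔭) (g : Polynomial ℚ) (hg : Polynomial.aeval (X 0 : R3) g ∈ 𝔭) : g = 0 := by
  induction hn : g.natDegree using Nat.strong_induction_on generalizing g with
  | _ n ih =>
    by_contra hg0
    have h1 : g.eval (v 0) = 0 := by
      have h2 := hv _ hg
      have h3 : eval v (Polynomial.aeval (X 0 : R3) g) = g.eval (v 0) := by
        have h4 : ((eval v : R3 →+* ℚ).comp (Polynomial.aeval (X 0 : R3) : Polynomial ℚ →ₐ[ℚ] R3).toRingHom) =
            Polynomial.evalRingHom (v 0) := by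
          refine Polynomial.ringHom_ext (fun r => ?_) ?_
          · simp [MvPolynomial.algebraMap_eq]
          · simp
        exact DFunLike.congr_fun h4 g
      rw [← h3, h2]
    obtain ⟨g₁, hg₁⟩ := Polynomial.dvd_iff_isRoot.2 h1
    have h5 : Polynomial.aeval (X 0 : R3) g = (X 0 - C (v 0)) * Polynomial.aeval (X 0 : R3) g₁ := by
      rw [hg₁, map_mul, map_sub, Polynomial.aeval_X, Polynomial.aeval_C]
      rfl
    rw [h5] at hg
    have h6 : Polynomial.aeval (X 0 : R3) g₁ ∈ 𝔭 := (hp.mem_or_mem hg).resolve_left h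
    have hg₁0 : g₁ ≠ 0 := fun h0 => hg0 (by rw [hg₁, h0, mul_zero])
    have h7 : g₁.natDegree < n := by
      rw [← hn, hg₁, Polynomial.natDegree_mul (Polynomial.X_sub_C_ne_zero _) hg₁0,
        Polynomial.natDegree_X_sub_C]
      omega
    exact hg₁0 (ih _ h7 g₁ h6 rfl)

end Pool.Agent.Lib.MP_3550b5_nt.AC
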