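import Mathlib
import Pool.Agent.Lib.MP_3550b5_nt.AC.Fk
import Pool.Agent.Lib.MP_3550b5_nt.AC.Hc

/-!
PROJECT AC, block COUNT: the points on one factor `f` of `F`.
-/

namespace Pool.Agent.Lib.MP_3550b5_nt.AC

open SV MvPolynomial

/-- The degree form of `count_main`. -/
noncomputable def cnt (f G Θ : Q3) : ℕ :=
  (f.degreeOf 1 * G.degreeOf 2 + f.degreeOf 2 * G.degreeOf 1) * Θ.degreeOf 0 +
    (f.degreeOf 0 * G.degreeOf 2 + f.degreeOf 2 * G.degreeOf 0) * Θ.degreeOf 1 +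
    (f.degreeOf 0 * G.degreeOf 1 + f.degreeOf 1 * G.degreeOf 0) * Θ.degreeOf 2

private theorem fcA_eval (u : Fin 3 → ℤ) (g : Q3) :
    eval (fun i => (u i : ℚ)) (toQ g) = ((eval u g : ℤ) : ℚ) := by
  have h : (eval (fun i => (u i : ℚ))).comp toQ = (Int.castRingHom ℚ).comp (eval u) := by
    refine MvPolynomial.ringHom_ext (fun c => ?_) fun i => ?_
    · rw [RingHom.comp_apply, RingHom.comp_apply, toQ, map_C, eval_C, eval_C]
    · rw [RingHom.comp_apply, RingHom.comp_apply, toQ, map_X, eval_X, eval_X]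
      rfl
  exact DFunLike.congr_fun h g

/-- THE CLASSIFICATION OF A POINT. PROOF. `exists_curve` for `toQ f`, `toQ G` at `u` gives `𝔭`. If `X 0 - u 0 ∈ 𝔭`: first case. Otherwise `horizontal`. If `toQ Θ ∉ 𝔭` for one of the four
polynomials: that case. Otherwise `exists_curve_field` (`pderiv_em`: `Ψ₀_D`, `Ψ₁_A` do not vanish at `u`, so are not in `𝔭`): `F, φ, D, π`, `hh = q π(Ψ₀_D) π(Ψ₁_A) ≠ 0`, `δ = hh • D`, `δ (π G) = π (dL G)`, so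
`jev δ (π ∘ vQ a) g = π (jev (dL ..) (vQ a) g)` (`jev_map`). `jev muJ ∉ 𝔭`: its value at `u` is `6 (4a^3+27b^2)(-2 a q Ψ₀_D Ψ₁_A) D BB ≠ 0`. `NE ∈ 𝔭`: `fEE = 0`, so `frr = 0` (`frr_zero`), so `Nr`, and (apply `δ`)
`dJ Nr`, `dJ (dJ Nr)` are in `𝔭`, so vanish at `u`: by `hT` the polynomial `muJ^m₀ NT` vanishes at `u`; it is in `𝔭` (last case excluded), so `fT2 = 0`: against `ftau_ne`. -/
theorem classify {a q : ℤ} (ha : a ≠ 0) (hq : q ≠ 0) {f G : Q3} {P₀ P₁ : Polynomial (Polynomial ℤ)} {nE nr nT m₀ : ℕ} {NE Nr NT : J}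
    (hE : ∀ (K : Type) [Field K] [CharZero K] (δ : Dr K) (v : Fin 4 → K), jev δ v muJ ≠ 0 → jev δ v muJ ^ nE * fEE δ v = jev δ v NE)
    (hr : ∀ (K : Type) [Field K] [CharZero K] (δ : Dr K) (v : Fin 4 → K), jev δ v muJ ≠ 0 → jev δ v muJ ^ nr * frr δ v = jev δ v Nr)
    (hT : ∀ (K : Type) [Field K] [CharZero K] (δ : Dr K) (v : Fin 4 → K), jev δ v muJ ≠ 0 → jev δ v muJ ^ nT * fT2 δ v = jev δ v NT)
    {u : Fin 3 → ℤ} (hu : Good a u) (hf : eval u f = 0) (hG : eval u G = 0)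
    (h0 : eval u (em 1 P₀) = 0) (h0' : eval u (em 1 (Polynomial.derivative P₀)) ≠ 0)
    (h1 : eval u (em 2 P₁) = 0) (h1' : eval u (em 2 (Polynomial.derivative P₁)) ≠ 0)
    (hEu : eval u (jev (dL q (em 1 P₀) (em 2 P₁)) (vQ a) NE) = 0)
    (hTu : eval u (jev (dL q (em 1 P₀) (em 2 P₁)) (vQ a) Nr) = 0 → eval u (jev (dL q (em 1 P₀) (em 2 P₁)) (vQ a) (dJ Nr)) = 0 →
      eval u (jev (dL q (em 1 P₀) (em 2 P₁)) (vQ a) (dJ (dJ Nr))) = 0 →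
      eval u (jev (dL q (em 1 P₀) (em 2 P₁)) (vQ a) (muJ ^ m₀ * NT)) = 0) :
    ∃ 𝔭 : Ideal R3, 𝔭.IsPrime ∧ toQ f ∈ 𝔭 ∧ toQ G ∈ 𝔭 ∧ (∀ g ∈ 𝔭, eval (fun i => (u i : ℚ)) g = 0) ∧
      (∃ g : R3, g ∉ 𝔭 ∧ eval (fun i => (u i : ℚ)) g = 0) ∧
      (X 0 - C (u 0 : ℚ) ∈ 𝔭 ∨ toQ (em 1 P₀) ∉ 𝔭 ∨ toQ (em 2 P₁) ∉ 𝔭 ∨
        toQ (jev (dL q (em 1 P₀) (em 2 P₁)) (vQ a) NE) ∉ 𝔭 ∨
        (toQ (jev (dL q (em 1 P₀) (em 2 P₁)) (vQ a) (muJ ^ m₀ * NT)) ∉ 𝔭 ∧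
          eval u (jev (dL q (em 1 P₀) (em 2 P₁)) (vQ a) (muJ ^ m₀ * NT)) = 0)) := by
  obtain ⟨𝔭, hp, hf𝔭, hG𝔭, hv, g, hg, hg0⟩ := exists_curve (toQ f) (toQ G) (fun i => (u i : ℚ))
    (by rw [fcA_eval, hf, Int.cast_zero]) (by rw [fcA_eval, hG, Int.cast_zero])
  refine ⟨𝔭, hp, hf𝔭, hG𝔭, hv, ⟨g, hg, hg0⟩, ?_⟩
  have hvz : ∀ g : Q3, toQ g ∈ 𝔭 → eval u g = 0 := by
    intro g hg
    have h2 := hv _ hg
    rw [fcA_eval] at h2
    exact_mod_cast h2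
  by_contra hcon
  push Not at hcon
  obtain ⟨n0, n1, n2, n3, n4⟩ := hcon
  have hor : ∀ g : Polynomial ℚ, Polynomial.aeval (X 0 : R3) g ∈ 𝔭 → g = 0 :=
    fun g hg => horizontal hp hv n0 g hg
  have hA : toQ (pderiv 1 (em 1 P₀)) ∉ 𝔭 := by
    intro h
    have h2 := hvz _ h
    rw [(pderiv_em P₀ (j := 1) (by decide)).1] at h2
    exact h0' h2
  have hB : toQ (pderiv 2 (em 2 P₁)) ∉ 𝔭 := by
    intro h
    have h2 := hvz _ h
    rw [(pderiv_em P₁ (j := 2) (by decide)).1] at h2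
    exact h1' h2
  obtain ⟨F, iF, iC, φ, D, π, hFX, hπ, hπ0, hδ⟩ := exists_curve_field hp hor q P₀ P₁ n1 hA n2 hB
  have hπz : ∀ G, π G = 0 → eval u G = 0 := fun G hG => hvz _ ((hπ G).1 hG)
  have hπn : ∀ G, eval u G ≠ 0 → π G ≠ 0 := fun G hG h => hG (hπz G h)
  obtain ⟨hh, hhe⟩ : ∃ hh : F, hh = (q : F) * π (pderiv 1 (em 1 P₀)) * π (pderiv 2 (em 2 P₁)) :=
    ⟨_, rfl⟩
  have hh0 : hh ≠ 0 := by
    rw [hhe]
    refine mul_ne_zero (mul_ne_zero (Int.cast_ne_zero.2 hq) ?_) ?_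
    · exact fun h => hA ((hπ _).1 h)
    · exact fun h => hB ((hπ _).1 h)
  have hδ' : ∀ x, (hh • D : Dr F) (π x) = π (dL q (em 1 P₀) (em 2 P₁) x) := by
    intro x
    rw [hδ, Derivation.smul_apply, smul_eq_mul, hhe]
  obtain ⟨v, hve⟩ : ∃ v : Fin 4 → F, v = fun i => π (vQ a i) := ⟨_, rfl⟩
  have hCa : π (C a) = (a : F) := eq_intCast (π.comp C) a
  have v0 : v 0 = π (X 0) := by rw [hve]; rfl
  have v1 : v 1 = π (X 1) := by rw [hve]; rfl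
  have v2 : v 2 = π (X 2) := by rw [hve]; rfl
  have v3 : v 3 = (a : F) := by
    rw [hve, ← hCa]
    rfl
  have hvl : v = ![π (X 0), π (X 1), π (X 2), (a : F)] := by
    funext i
    fin_cases i
    · exact v0
    · exact v1
    · exact v2
    · exact v3
  have hjev : ∀ g, jev (hh • D : Dr F) v g = π (jev (dL q (em 1 P₀) (em 2 P₁)) (vQ a) g) := by
    intro g
    rw [hve]
    exact jev_map π _ _ hδ' (vQ a) g
  have ha' : (a : F) ≠ 0 := Int.cast_ne_zero.2 ha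
  have hda : (hh • D : Dr F) (a : F) = 0 := by
    have h2 := (hh • D : Dr F).map_algebraMap a
    rwa [eq_intCast] at h2
  have hmu : jev (hh • D : Dr F) v muJ ≠ 0 := by
    rw [jev_muJ]
    refine mul_ne_zero (mul_ne_zero (mul_ne_zero (mul_ne_zero (by norm_num) ?_) ?_) ?_) ?_
    · have h2 : dl (v 3) (v 0) = π (4 * C a ^ 3 + 27 * X 0 ^ 2) := by
        rw [dl, v3, v0, map_add, map_mul, map_mul, map_pow, map_pow, hCa, map_ofNat, map_ofNat]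
      rw [h2]
      refine hπn _ ?_
      simp only [map_add, map_mul, map_pow, map_ofNat, eval_C, eval_X]
      exact hu.dl_ne
    · have h2 : wr (hh • D : Dr F) (v 3) (v 0) = -(2 * (a : F) * hh) := by
        rw [wr, v3, hda, v0, hπ0, Derivation.smul_apply, hFX.DX, smul_eq_mul]
        ring
      rw [h2]
      exact neg_ne_zero.2 (mul_ne_zero (mul_ne_zero two_ne_zero ha') hh0)
    · rw [v1]
      refine hπn _ ?_
      rw [eval_X]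
      exact hu.D_ne
    · have h2 : v 2 ^ 3 + v 3 * v 2 * v 1 ^ 4 + v 0 * v 1 ^ 6 =
          π (X 2 ^ 3 + C a * X 2 * X 1 ^ 4 + X 0 * X 1 ^ 6) := by
        rw [v2, v3, v1, v0]
        simp only [map_add, map_mul, map_pow, hCa]
      rw [h2]
      refine hπn _ ?_
      simp only [map_add, map_mul, map_pow, eval_C, eval_X]
      exact hu.B_ne
  have hEE : fEE (hh • D : Dr F) v = 0 := by
    have h2 := hE F (hh • D) v hmu
    rw [hjev NE, (hπ _).2 n3] at h2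
    exact (mul_eq_zero.1 h2).resolve_left (pow_ne_zero _ hmu)
  have hrr := frr_zero hFX ha hh0 (v0.trans hπ0) v3 hmu hEE
  have hNr : jev (hh • D : Dr F) v Nr = 0 := by
    rw [← hr F (hh • D) v hmu, hrr, mul_zero]
  have hNr1 : jev (hh • D : Dr F) v (dJ Nr) = 0 := by
    rw [jev_dJ, hNr, map_zero]
  have hNr2 : jev (hh • D : Dr F) v (dJ (dJ Nr)) = 0 := by
    rw [jev_dJ, hNr1, map_zero]
  have hz : ∀ g, jev (hh • D : Dr F) v g = 0 →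
      eval u (jev (dL q (em 1 P₀) (em 2 P₁)) (vQ a) g) = 0 := by
    intro g hg
    rw [hjev] at hg
    exact hπz _ hg
  have hTz := hTu (hz _ hNr) (hz _ hNr1) (hz _ hNr2)
  have hTm : toQ (jev (dL q (em 1 P₀) (em 2 P₁)) (vQ a) (muJ ^ m₀ * NT)) ∈ 𝔭 := by
    by_contra h
    exact n4 h hTz
  have hT2 := (hπ _).2 hTm
  rw [← hjev, map_mul, map_pow] at hT2
  have hNT := (mul_eq_zero.1 hT2).resolve_left (pow_ne_zero _ hmu)
  refine ftau_ne hFX ha hh0 hπ0 hu hπz hvl hmu hrr ?_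
  have h2 := hT F (hh • D) v hmu
  rw [hNT] at h2
  exact (mul_eq_zero.1 h2).resolve_left (pow_ne_zero _ hmu)

end Pool.Agent.Lib.MP_3550b5_nt.AC
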