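import Mathlib
import Pool.Agent.Lib.MP_3550b5_nt.AC.FcA

/-!
PROJECT AC, block COUNT: the points on one factor `f` of `F`.
-/

namespace Pool.Agent.Lib.MP_3550b5_nt.AC

open SV MvPolynomial

/-- Clearing denominators. -/
private theorem fc_clear (g : R3) : ∃ (n : ℤ) (g' : Q3), n ≠ 0 ∧ C (n : ℚ) * g = toQ g' := by
  induction g using MvPolynomial.induction_on with
  | C a =>
    refine ⟨(a.den : ℤ), C a.num, Int.natCast_ne_zero.2 a.den_nz, ?_⟩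
    rw [toQ, map_C, ← C_mul, eq_intCast]
    congr 1
    rw [mul_comm, Int.cast_natCast]
    exact Rat.mul_den_eq_num a
  | add p q hp hq =>
    obtain ⟨n, p', hn, hp'⟩ := hp
    obtain ⟨m, q', hm, hq'⟩ := hq
    refine ⟨n * m, C m * p' + C n * q', mul_ne_zero hn hm, ?_⟩
    rw [map_add, map_mul, map_mul, ← hp', ← hq', toQ, map_C, map_C, eq_intCast, eq_intCast,
      Int.cast_mul, C_mul]
    ring
  | mul_X p i hp =>
    obtain ⟨n, p', hn, hp'⟩ := hp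
    refine ⟨n, p' * X i, hn, ?_⟩
    rw [map_mul, ← hp', toQ, map_X]
    ring

private theorem fc_coeff (Φ : Q3) (m : Fin 3 →₀ ℕ) : (toQ Φ).coeff m = ((Φ.coeff m : ℤ) : ℚ) := by
  rw [toQ, coeff_map]
  rfl

private theorem fc_deg (Φ : Q3) (i : Fin 3) : (toQ Φ).degreeOf i = Φ.degreeOf i := by
  have h : (toQ Φ).support = Φ.support := by
    ext m
    rw [mem_support_iff, mem_support_iff, fc_coeff, Ne, Ne, Int.cast_eq_zero]
  rw [degreeOf_eq_sup, degreeOf_eq_sup, h]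

private theorem fc_inj : Function.Injective (toQ : Q3 → R3) :=
  map_injective (Int.castRingHom ℚ) Int.cast_injective

private theorem fc_eval (u : Fin 3 → ℤ) (g : Q3) :
    eval (fun i => (u i : ℚ)) (toQ g) = ((eval u g : ℤ) : ℚ) := by
  rw [toQ, eval_map]
  have h := eval₂_comp_left (Int.castRingHom ℚ) (RingHom.id ℤ) u g
  rw [RingHom.comp_id] at h
  exact h.symm

private theorem fc_dvd {f g : Q3} {G : R3} {n : ℤ} (hn : n ≠ 0) (h : f ∣ g)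
    (hG : C (n : ℚ) * G = toQ g) : toQ f ∣ G := by
  have h1 : toQ f ∣ C (n : ℚ) * G := hG ▸ map_dvd toQ h
  have h2 : G = C ((n : ℚ)⁻¹) * (C (n : ℚ) * G) := by
    rw [← mul_assoc, ← C_mul, inv_mul_cancel₀ (Int.cast_ne_zero.2 hn), C_1, one_mul]
  rw [h2]
  exact h1.mul_left _

/-- THE LEMMA OF GAUSS. -/
private theorem fc_prime {f : Q3} (hfi : Irreducible f)
    (hf1 : f.degreeOf 1 ≠ 0 ∨ f.degreeOf 2 ≠ 0) : Prime (toQ f : R3) := by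
  have hf0 : (toQ f : R3) ≠ 0 := fun h => hfi.ne_zero (fc_inj (h.trans (map_zero toQ).symm))
  obtain ⟨i, hi⟩ : ∃ i : Fin 3, f.degreeOf i ≠ 0 := by
    rcases hf1 with h | h
    exacts [⟨1, h⟩, ⟨2, h⟩]
  refine ⟨hf0, ?_, ?_⟩
  · intro hu
    obtain ⟨g, hg⟩ := hu.exists_right_inv
    have hg0 : g ≠ 0 := by
      rintro rfl
      rw [mul_zero] at hg
      exact zero_ne_one hg
    have h1 := degreeOf_mul_eq (n := i) hf0 hg0
    rw [hg, fc_deg] at h1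
    have h2 : (1 : R3).degreeOf i = 0 := by
      rw [← C_1, degreeOf_C]
    omega
  · rintro g h ⟨k, hk⟩
    obtain ⟨n, g', hn, hg'⟩ := fc_clear g
    obtain ⟨m, h', hm, hh'⟩ := fc_clear h
    obtain ⟨l, k', hl, hk'⟩ := fc_clear k
    have h1 : C l * (g' * h') = f * (C (n * m) * k') := by
      apply fc_inj
      rw [map_mul, map_mul, map_mul, map_mul, ← hg', ← hh', ← hk', toQ, map_C, map_C, eq_intCast,
        eq_intCast, Int.cast_mul, C_mul]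
      have h2 := hk
      rw [toQ] at h2
      linear_combination (C (l : ℚ) * C (n : ℚ) * C (m : ℚ) : R3) * h2
    have hfp : Prime f := hfi.prime
    rcases hfp.dvd_or_dvd (Dvd.intro _ h1.symm) with h2 | h2
    · exfalso
      obtain ⟨r, hr⟩ := h2
      have hl0 : (C l : Q3) ≠ 0 := fun h => hl (by rwa [← C_0, C_inj] at h)
      have hr0 : r ≠ 0 := by
        rintro rfl
        rw [mul_zero] at hr
        exact hl0 hr
      have h3 := degreeOf_mul_eq (n := i) hfi.ne_zero hr0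
      rw [← hr, degreeOf_C] at h3
      omega
    · rcases hfp.dvd_or_dvd h2 with h3 | h3
      · exact Or.inl (fc_dvd hn h3 hg')
      · exact Or.inr (fc_dvd hm h3 hh')

/-- The rational point. -/
private def fc_pt (u : Fin 3 → ℤ) : Fin 3 → ℚ := fun i => (u i : ℚ)

private theorem fc_pt_inj : Function.Injective fc_pt := fun u w h =>
  funext fun i => Int.cast_injective (congrFun h i)

open Classical in
/-- One class of points. -/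
private theorem fc_main {f G Θ : Q3} (hf : Prime (toQ f : R3)) (hfG : ¬ toQ f ∣ toQ G)
    (S : Finset (Fin 3 → ℤ)) (hinj : ∀ u ∈ S, ∀ w ∈ S, u 0 = w 0 → u = w)
    (h : ∀ u ∈ S, (∃ 𝔭 : Ideal R3, 𝔭.IsPrime ∧ toQ f ∈ 𝔭 ∧ toQ G ∈ 𝔭 ∧ toQ Θ ∉ 𝔭 ∧
      ∀ g ∈ 𝔭, eval (fun i => (u i : ℚ)) g = 0) ∧ eval u Θ = 0) : S.card ≤ cnt f G Θ := by
  have h1 := count_main (Θ := toQ Θ) hf hfG (S.image fc_pt) (by
    intro v hv w hw hvw
    obtain ⟨u, hu, rfl⟩ := Finset.mem_image.1 hv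
    obtain ⟨t, ht, rfl⟩ := Finset.mem_image.1 hw
    rw [hinj u hu t ht (Int.cast_injective hvw)]) (by
    intro v hv
    obtain ⟨u, hu, rfl⟩ := Finset.mem_image.1 hv
    exact (h u hu).1) (by
    intro v hv
    obtain ⟨u, hu, rfl⟩ := Finset.mem_image.1 hv
    have h2 := fc_eval u Θ
    rw [(h u hu).2, Int.cast_zero] at h2
    exact h2)
  rw [Finset.card_image_of_injective _ fc_pt_inj] at h1
  simp only [fc_deg] at h1
  exact h1

open Classical in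
/-- The vertical class. -/
private theorem fc_vert {f G : Q3} (hf : Prime (toQ f : R3)) (hfG : ¬ toQ f ∣ toQ G)
    (S : Finset (Fin 3 → ℤ)) (hinj : ∀ u ∈ S, ∀ w ∈ S, u 0 = w 0 → u = w)
    (h : ∀ u ∈ S, ∃ 𝔭 : Ideal R3, 𝔭.IsPrime ∧ toQ f ∈ 𝔭 ∧ toQ G ∈ 𝔭 ∧ X 0 - C (u 0 : ℚ) ∈ 𝔭 ∧
      (∀ g ∈ 𝔭, eval (fun i => (u i : ℚ)) g = 0) ∧
      ∃ g : R3, g ∉ 𝔭 ∧ eval (fun i => (u i : ℚ)) g = 0) :
    S.card ≤ (f.degreeOf 0 * G.degreeOf 2 + f.degreeOf 2 * G.degreeOf 0) +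
      (f.degreeOf 0 * G.degreeOf 1 + f.degreeOf 1 * G.degreeOf 0) := by
  have h1 := count_vert hf hfG (S.image fc_pt) (by
    intro v hv w hw hvw
    obtain ⟨u, hu, rfl⟩ := Finset.mem_image.1 hv
    obtain ⟨t, ht, rfl⟩ := Finset.mem_image.1 hw
    rw [hinj u hu t ht (Int.cast_injective hvw)]) (by
    intro v hv
    obtain ⟨u, hu, rfl⟩ := Finset.mem_image.1 hv
    exact h u hu)
  rw [Finset.card_image_of_injective _ fc_pt_inj] at h1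
  simp only [fc_deg] at h1
  exact h1

private theorem fc_filter {S : Finset (Fin 3 → ℤ)} {p : (Fin 3 → ℤ) → Prop} [DecidablePred p]
    (hinj : ∀ u ∈ S, ∀ w ∈ S, u 0 = w 0 → u = w) :
    ∀ u ∈ S.filter p, ∀ w ∈ S.filter p, u 0 = w 0 → u = w := fun u hu w hw =>
  hinj u (Finset.mem_filter.1 hu).1 w (Finset.mem_filter.1 hw).1

/-- THE POINTS ON ONE FACTOR. PROOF. `toQ f` is prime (Gauss; `f` irreducible of positive degree), `classify` for every `u ∈ S`, five classes, `count_vert` and four times `count_main`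
(`degreeOf i (toQ f) = degreeOf i f`), points `fun i => (u i : ℚ)`. -/
theorem factor_count {a q : ℤ} (ha : a ≠ 0) (hq : q ≠ 0) {f G : Q3} (hfi : Irreducible f) (hf1 : f.degreeOf 1 ≠ 0 ∨ f.degreeOf 2 ≠ 0)
    (hfG : ¬ toQ f ∣ toQ G) {P₀ P₁ : Polynomial (Polynomial ℤ)} {nE nr nT m₀ : ℕ} {NE Nr NT : J}
    (hE : ∀ (K : Type) [Field K] [CharZero K] (δ : Dr K) (v : Fin 4 → K), jev δ v muJ ≠ 0 → jev δ v muJ ^ nE * fEE δ v = jev δ v NE)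
    (hr : ∀ (K : Type) [Field K] [CharZero K] (δ : Dr K) (v : Fin 4 → K), jev δ v muJ ≠ 0 → jev δ v muJ ^ nr * frr δ v = jev δ v Nr)
    (hT : ∀ (K : Type) [Field K] [CharZero K] (δ : Dr K) (v : Fin 4 → K), jev δ v muJ ≠ 0 → jev δ v muJ ^ nT * fT2 δ v = jev δ v NT)
    (S : Finset (Fin 3 → ℤ)) (hinj : ∀ u ∈ S, ∀ w ∈ S, u 0 = w 0 → u = w)
    (hS : ∀ u ∈ S, Good a u ∧ eval u f = 0 ∧ eval u G = 0 ∧ eval u (em 1 P₀) = 0 ∧ eval u (em 1 (Polynomial.derivative P₀)) ≠ 0 ∧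
      eval u (em 2 P₁) = 0 ∧ eval u (em 2 (Polynomial.derivative P₁)) ≠ 0 ∧
      eval u (jev (dL q (em 1 P₀) (em 2 P₁)) (vQ a) NE) = 0 ∧
      (eval u (jev (dL q (em 1 P₀) (em 2 P₁)) (vQ a) Nr) = 0 → eval u (jev (dL q (em 1 P₀) (em 2 P₁)) (vQ a) (dJ Nr)) = 0 →
        eval u (jev (dL q (em 1 P₀) (em 2 P₁)) (vQ a) (dJ (dJ Nr))) = 0 →
        eval u (jev (dL q (em 1 P₀) (em 2 P₁)) (vQ a) (muJ ^ m₀ * NT)) = 0)) :
    S.card ≤ ((f.degreeOf 0 * G.degreeOf 2 + f.degreeOf 2 * G.degreeOf 0) + (f.degreeOf 0 * G.degreeOf 1 + f.degreeOf 1 * G.degreeOf 0)) +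
      cnt f G (em 1 P₀) + cnt f G (em 2 P₁) + cnt f G (jev (dL q (em 1 P₀) (em 2 P₁)) (vQ a) NE) +
      cnt f G (jev (dL q (em 1 P₀) (em 2 P₁)) (vQ a) (muJ ^ m₀ * NT)) := by
  classical
  have hf : Prime (toQ f : R3) := fc_prime hfi hf1
  obtain ⟨Θ₂, hΘ₂⟩ : ∃ Θ : Q3, Θ = jev (dL q (em 1 P₀) (em 2 P₁)) (vQ a) NE := ⟨_, rfl⟩
  obtain ⟨Θ₃, hΘ₃⟩ : ∃ Θ : Q3, Θ = jev (dL q (em 1 P₀) (em 2 P₁)) (vQ a) (muJ ^ m₀ * NT) :=
    ⟨_, rfl⟩
  have hcl := fun u (hu : u ∈ S) => classify ha hq hE hr hT (hS u hu).1 (hS u hu).2.1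
    (hS u hu).2.2.1 (hS u hu).2.2.2.1 (hS u hu).2.2.2.2.1 (hS u hu).2.2.2.2.2.1
    (hS u hu).2.2.2.2.2.2.1 (hS u hu).2.2.2.2.2.2.2.1 (hS u hu).2.2.2.2.2.2.2.2
  have h2S : ∀ u ∈ S, eval u Θ₂ = 0 := fun u hu => by
    rw [hΘ₂]
    exact (hS u hu).2.2.2.2.2.2.2.1
  rw [← hΘ₂, ← hΘ₃]
  rw [← hΘ₂, ← hΘ₃] at hcl
  -- the five classes
  obtain ⟨A, hA⟩ : ∃ A, A = S.filter fun u => ∃ 𝔭 : Ideal R3, 𝔭.IsPrime ∧ toQ f ∈ 𝔭 ∧ toQ G ∈ 𝔭 ∧
      X 0 - C (u 0 : ℚ) ∈ 𝔭 ∧ (∀ g ∈ 𝔭, eval (fun i => (u i : ℚ)) g = 0) ∧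
      ∃ g : R3, g ∉ 𝔭 ∧ eval (fun i => (u i : ℚ)) g = 0 := ⟨_, rfl⟩
  obtain ⟨B, hB⟩ : ∃ B : Q3 → Finset (Fin 3 → ℤ), ∀ Θ, B Θ = S.filter fun u =>
      (∃ 𝔭 : Ideal R3, 𝔭.IsPrime ∧ toQ f ∈ 𝔭 ∧ toQ G ∈ 𝔭 ∧ toQ Θ ∉ 𝔭 ∧
      ∀ g ∈ 𝔭, eval (fun i => (u i : ℚ)) g = 0) ∧ eval u Θ = 0 := ⟨_, fun _ => rfl⟩
  have hAc : A.card ≤ _ := fc_vert hf hfG A (by rw [hA]; exact fc_filter hinj) (by
    intro u hu
    rw [hA] at hu
    exact (Finset.mem_filter.1 hu).2)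
  have hBc : ∀ Θ, (B Θ).card ≤ cnt f G Θ := fun Θ =>
    fc_main hf hfG (B Θ) (by rw [hB]; exact fc_filter hinj) (by
      intro u hu
      rw [hB] at hu
      exact (Finset.mem_filter.1 hu).2)
  have hsub : S ⊆ A ∪ B (em 1 P₀) ∪ B (em 2 P₁) ∪ B Θ₂ ∪ B Θ₃ := by
    intro u hu
    obtain ⟨𝔭, hp, h1, h2, h3, h4, h5⟩ := hcl u hu
    simp only [Finset.mem_union]
    rcases h5 with h5 | h5 | h5 | h5 | h5
    · left; left; left; left
      rw [hA, Finset.mem_filter]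
      exact ⟨hu, 𝔭, hp, h1, h2, h5, h3, h4⟩
    · left; left; left; right
      rw [hB, Finset.mem_filter]
      exact ⟨hu, ⟨𝔭, hp, h1, h2, h5, h3⟩, (hS u hu).2.2.2.1⟩
    · left; left; right
      rw [hB, Finset.mem_filter]
      exact ⟨hu, ⟨𝔭, hp, h1, h2, h5, h3⟩, (hS u hu).2.2.2.2.2.1⟩
    · left; right
      rw [hB, Finset.mem_filter]
      exact ⟨hu, ⟨𝔭, hp, h1, h2, h5, h3⟩, h2S u hu⟩
    · right
      rw [hB, Finset.mem_filter]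
      exact ⟨hu, ⟨𝔭, hp, h1, h2, h5.1, h3⟩, h5.2⟩
  have h1 := (Finset.card_le_card hsub).trans ((Finset.card_union_le _ _).trans
    (Nat.add_le_add_right ((Finset.card_union_le _ _).trans (Nat.add_le_add_right
      ((Finset.card_union_le _ _).trans (Nat.add_le_add_right (Finset.card_union_le _ _) _)) _)) _))
  exact h1.trans (Nat.add_le_add (Nat.add_le_add (Nat.add_le_add (Nat.add_le_add hAc (hBc _))
    (hBc _)) (hBc _)) (hBc _))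

end Pool.Agent.Lib.MP_3550b5_nt.AC
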