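import Mathlib
import Pool.Agent.Lib.MP_3550b5_nt.AC.RgEv

/-!
PROJECT AC, block J: LEMMA J and the chain of Jacobian determinants.
-/

namespace Pool.Agent.Lib.MP_3550b5_nt.AC

open PowerSeries SV

variable {p : ℕ} [hp : Fact p.Prime]

private lemma JlA_dvd {ν : ℕ} {g : ℤ_[p]} (r : ℕ) : ∀ x : ℤ_[p], (p : ℤ_[p]) ^ (ν + r) ∣ x * g →
    ¬ (p : ℤ_[p]) ^ (r + 1) ∣ x → (p : ℤ_[p]) ^ ν ∣ g := by
  induction r with
  | zero =>
    intro x h hx
    rw [add_zero] at h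
    rw [zero_add, pow_one] at hx
    exact PadicInt.prime_p.pow_dvd_of_dvd_mul_left ν hx h
  | succ r ih =>
    intro x h hx
    by_cases hpx : (p : ℤ_[p]) ∣ x
    · obtain ⟨y, hy⟩ := hpx
      refine ih y ?_ fun hc => hx ?_
      · rw [hy, ← add_assoc, pow_succ', mul_assoc] at h
        exact (mul_dvd_mul_iff_left PadicInt.prime_p.ne_zero).1 h
      · rw [hy, pow_succ']
        exact mul_dvd_mul_left _ hc
    · exact (pow_dvd_pow _ (by omega)).trans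
        (PadicInt.prime_p.pow_dvd_of_dvd_mul_left (ν + (r + 1)) hpx h)

/-- Step 1: an element of `O p` which is `≡ 0 (p^ν)` at all points but `P`, and has there the value of the Jacobian
determinant. PROOF. `exists_dd` at `P`: `f = f(P) + (s - s_P) f1 + (T - t_P) f2`, the same for `h`; `g = f1 h2 - f2 h1`,
`(s - s_P) g = (f - f(P)) h2 - (h - h(P)) f2`. At `Q`: `(s_Q - s_P) g(Q)` is divisible by `p^(ν + r)` and `s_Q - s_P` is not
divisible by `p^(r+1)`, so `p^ν ∣ g(Q)` (`PadicInt.prime_p`, valuations). `g(P)`: the values of `exists_dd`. -/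
theorem exists_sep {f h : O p} {P : Pt p} {ν r : ℕ} (hf : (p : ℤ_[p]) ^ (ν + r) ∣ P.ev f)
    (hh : (p : ℤ_[p]) ^ (ν + r) ∣ P.ev h) : ∃ g : O p, P.ev g = P.ev (Jac f h) ∧
      ∀ Q : Pt p, (p : ℤ_[p]) ^ (ν + r) ∣ Q.ev f → (p : ℤ_[p]) ^ (ν + r) ∣ Q.ev h →
        ¬ (p : ℤ_[p]) ^ (r + 1) ∣ Q.s - P.s → (p : ℤ_[p]) ^ ν ∣ Q.ev g := by
  obtain ⟨f1, f2, ef, ef1, ef2⟩ := exists_dd P f
  obtain ⟨h1, h2, eh, eh1, eh2⟩ := exists_dd P h
  refine ⟨f1 * h2 - f2 * h1, ?_, fun Q qf qh qs => ?_⟩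
  · unfold Jac
    rw [map_sub, map_sub, map_mul, map_mul, map_mul, map_mul, ef1, ef2, eh1, eh2]
  · have e1 := congrArg Q.ev ef
    have e2 := congrArg Q.ev eh
    rw [map_add, map_add, map_mul, map_mul, map_sub, map_sub, Pt.ev_cc, Pt.ev_cc, Pt.ev_cc,
      Pt.ev_vs, Pt.ev_vt] at e1 e2
    refine JlA_dvd r (Q.s - P.s) ?_ qs
    have e3 : (Q.s - P.s) * Q.ev (f1 * h2 - f2 * h1) =
        (Q.ev f - P.ev f) * Q.ev h2 - (Q.ev h - P.ev h) * Q.ev f2 := by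
      rw [map_sub, map_mul, map_mul, e1, e2]
      ring
    rw [e3]
    exact dvd_sub (Dvd.dvd.mul_right (dvd_sub qf hf) _) (Dvd.dvd.mul_right (dvd_sub qh hh) _)

end Pool.Agent.Lib.MP_3550b5_nt.AC
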