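import Mathlib
import Pool.Agent.Lib.MP_3550b5_nt.AC.JlA

/-!
PROJECT AC, block J: LEMMA J and the chain of Jacobian determinants.
-/

namespace Pool.Agent.Lib.MP_3550b5_nt.AC

open PowerSeries SV

variable {p : ℕ} [hp : Fact p.Prime]

private lemma jlb_aux {ν m' k : ℕ} {a : ℤ} {x : ℤ_[p]} (hk : k ≤ m') (hm : m' ≤ ν)
    (h : ¬ (p : ℤ_[p]) ^ (k + 1) ∣ x) (h' : (p : ℤ_[p]) ^ k ∣ x)
    (hx : (p : ℤ_[p]) ^ ν ∣ (a : ℤ_[p]) * x) : (p : ℤ) ^ (ν - m') ∣ a := by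
  obtain ⟨u, hu⟩ := h'
  have hu' : ¬ (p : ℤ_[p]) ∣ u := by
    rintro ⟨t, ht⟩
    exact h ⟨t, by rw [hu, ht, pow_succ]; ring⟩
  have hp0 : (p : ℤ_[p]) ^ k ≠ 0 := pow_ne_zero _ PadicInt.prime_p.ne_zero
  have h4 : (p : ℤ_[p]) ^ (ν - k) ∣ (a : ℤ_[p]) * u := by
    rw [hu, show ν = (ν - k) + k by omega, pow_add, show (a : ℤ_[p]) * ((p : ℤ_[p]) ^ k * u) =
      ((a : ℤ_[p]) * u) * (p : ℤ_[p]) ^ k by ring] at hx
    exact (mul_dvd_mul_iff_right hp0).1 hx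
  have h5 := PadicInt.prime_p.pow_dvd_of_dvd_mul_right _ hu' h4
  rw [PadicInt.pow_p_dvd_int_iff] at h5
  exact (pow_dvd_pow _ (by omega)).trans h5

/-- Step 2: if the evaluation `O p → ∏ ℤ_p / p^ν` hits `p^m'` times every coordinate vector then the image has at least
`p^(R (ν - m'))` elements. PROOF. The image `Im` of the additive map `f ↦ (P_i.ev f mod p^ν)_i` in `Fin R → ZMod (p^ν)` is closed
under multiplication by the image of `ℤ_[p]` (`cc`), so it contains `p^m' w` for all `w` (the sum of `cc (w_i) * g_i * unit`), and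
the number of elements of `{p^m' w}` is `(p^(ν - m'))^R`. The kernel contains `Fl p ν ⊔ span {F₀}` (`Pt.dvd_ev`), so
`Nat.card Im ≤ Nat.card (O p ⧸ (Fl p ν ⊔ span {F₀}))` (`finite_quot_sup`), and `card_quot_span`. -/
theorem card_image {R e ν m' : ℕ} {F₀ : O p} (hF : F₀ ∉ Fl p (e + 1)) (P : Fin R → Pt p)
    (h0 : ∀ i, (P i).ev F₀ = 0) (hm : m' ≤ ν) (g : Fin R → O p) (v : Fin R → ℕ) (hv : ∀ i, v i ≤ m')
    (hg : ∀ i, ¬ (p : ℤ_[p]) ^ (v i + 1) ∣ (P i).ev (g i)) (hg' : ∀ i, (p : ℤ_[p]) ^ v i ∣ (P i).ev (g i))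
    (hij : ∀ i j, i ≠ j → (p : ℤ_[p]) ^ ν ∣ (P j).ev (g i)) :
    R * (ν - m') ≤ e * (ν * (ν + 1) / 2) := by
  classical
  haveI := finite_quot_sup (p := p) ν (Ideal.span {F₀})
  have hp1 : 1 < p := hp.out.one_lt
  have key : Nat.card (Fin R → Fin (p ^ (ν - m'))) ≤
      Nat.card (O p ⧸ (Fl p ν ⊔ Ideal.span {F₀})) := by
    refine Nat.card_le_card_of_injective
      (fun w : Fin R → Fin (p ^ (ν - m')) => (Ideal.Quotient.mk (Fl p ν ⊔ Ideal.span {F₀})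
        (∑ i, cc (((w i : ℕ) : ℤ) : ℤ_[p]) * g i))) ?_
    intro w w' h
    simp only at h
    rw [Ideal.Quotient.eq] at h
    funext j
    have h1 : (p : ℤ_[p]) ^ ν ∣
        (P j).ev (∑ i, cc (((w i : ℕ) : ℤ) : ℤ_[p]) * g i -
          ∑ i, cc (((w' i : ℕ) : ℤ) : ℤ_[p]) * g i) := by
      obtain ⟨a, ha, b, hb, hab⟩ := Submodule.mem_sup.1 h
      obtain ⟨c, hc⟩ := Ideal.mem_span_singleton'.1 hb
      rw [← hab, ← hc, map_add, map_mul, h0 j, mul_zero, add_zero]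
      exact (P j).dvd_ev ha
    rw [map_sub, map_sum, map_sum, ← Finset.sum_sub_distrib,
      ← Finset.add_sum_erase _ _ (Finset.mem_univ j)] at h1
    have h2 : (p : ℤ_[p]) ^ ν ∣ ∑ i ∈ Finset.univ.erase j,
        ((P j).ev (cc (((w i : ℕ) : ℤ) : ℤ_[p]) * g i) -
          (P j).ev (cc (((w' i : ℕ) : ℤ) : ℤ_[p]) * g i)) := by
      refine Finset.dvd_sum fun i hi => ?_
      rw [map_mul, map_mul, ← sub_mul]
      exact Dvd.dvd.mul_left (hij i j (Finset.ne_of_mem_erase hi)) _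
    have h3 := (dvd_add_left h2).1 h1
    rw [map_mul, map_mul, ← sub_mul, Pt.ev_cc, Pt.ev_cc, ← Int.cast_sub] at h3
    have h6 := jlb_aux (hv j) hm (hg j) (hg' j) h3
    have h7 : (((w j : ℕ) : ℤ)) < (p : ℤ) ^ (ν - m') := by
      exact_mod_cast (w j).isLt
    have h8 : (((w' j : ℕ) : ℤ)) < (p : ℤ) ^ (ν - m') := by
      exact_mod_cast (w' j).isLt
    have h9 := Int.eq_zero_of_abs_lt_dvd h6 (by rw [abs_lt]; constructor <;> omega)
    apply Fin.ext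
    omega
  have h10 := key.trans (card_quot_span hF ν)
  rw [Nat.card_eq_fintype_card, Fintype.card_fun, Fintype.card_fin, Fintype.card_fin,
    ← pow_mul, Nat.pow_le_pow_iff_right hp1] at h10
  rw [mul_comm]
  exact h10

end Pool.Agent.Lib.MP_3550b5_nt.AC
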