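import Mathlib
import Pool.Agent.Lib.MP_3550b5_nt.AC.JlB

/-!
PROJECT AC, block J: LEMMA J and the chain of Jacobian determinants.
-/

namespace Pool.Agent.Lib.MP_3550b5_nt.AC

open PowerSeries SV

variable {p : ℕ} [hp : Fact p.Prime]

/-- LEMMA J. PROOF. `card_image` with `ν = 2 m'` and `exists_sep` (an enumeration of `X`, `Finset.equivFin`); `v i` is the exact
order of the Jacobian determinant at the point `i`, `R m' ≤ e m' (2 m' + 1)`. -/
theorem lemma_J {ι : Type*} {e M m' r : ℕ} {F₀ f h : O p} (hF : F₀ ∉ Fl p (e + 1)) (X : Finset ι) (P : ι → Pt p)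
    (h0 : ∀ i ∈ X, (P i).ev F₀ = 0) (hf : ∀ i ∈ X, (p : ℤ_[p]) ^ M ∣ (P i).ev f)
    (hh : ∀ i ∈ X, (p : ℤ_[p]) ^ M ∣ (P i).ev h)
    (hs : ∀ i ∈ X, ∀ j ∈ X, i ≠ j → ¬ (p : ℤ_[p]) ^ (r + 1) ∣ (P j).s - (P i).s)
    (hm : 1 ≤ m') (hM : 2 * m' + r ≤ M)
    (hJ : ∀ i ∈ X, ¬ (p : ℤ_[p]) ^ (m' + 1) ∣ (P i).ev (Jac f h)) :
    X.card ≤ e * (2 * m' + 1) := by
  classical
  have hg : ∀ i : Fin X.card, ∃ g : O p,
      (P (X.equivFin.symm i)).ev g = (P (X.equivFin.symm i)).ev (Jac f h) ∧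
      ∀ j : Fin X.card, i ≠ j → (p : ℤ_[p]) ^ (2 * m') ∣ (P (X.equivFin.symm j)).ev g := by
    intro i
    have hi : (X.equivFin.symm i : ι) ∈ X := (X.equivFin.symm i).2
    obtain ⟨g, hg1, hg2⟩ := exists_sep (ν := 2 * m') (r := r)
      ((pow_dvd_pow _ hM).trans (hf _ hi)) ((pow_dvd_pow _ hM).trans (hh _ hi))
    refine ⟨g, hg1, fun j hij => ?_⟩
    have hj : (X.equivFin.symm j : ι) ∈ X := (X.equivFin.symm j).2
    refine hg2 _ ((pow_dvd_pow _ hM).trans (hf _ hj)) ((pow_dvd_pow _ hM).trans (hh _ hj))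
      (hs _ hi _ hj fun h0 => hij ?_)
    exact X.equivFin.symm.injective (Subtype.ext h0)
  choose g hg1 hg2 using hg
  have hv : ∀ i : Fin X.card, ∃ v ≤ m',
      (¬ (p : ℤ_[p]) ^ (v + 1) ∣ (P (X.equivFin.symm i)).ev (g i)) ∧
      (p : ℤ_[p]) ^ v ∣ (P (X.equivFin.symm i)).ev (g i) := by
    intro i
    have hi : (X.equivFin.symm i : ι) ∈ X := (X.equivFin.symm i).2
    have hJi := hJ _ hi
    rw [← hg1 i] at hJi
    have hex : ∃ v, ¬ (p : ℤ_[p]) ^ (v + 1) ∣ (P (X.equivFin.symm i)).ev (g i) := ⟨m', hJi⟩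
    refine ⟨Nat.find hex, Nat.find_min' hex hJi, Nat.find_spec hex, ?_⟩
    rcases Nat.eq_zero_or_pos (Nat.find hex) with h1 | h1
    · rw [h1, pow_zero]
      exact one_dvd _
    · have h2 := Nat.find_min hex (m := Nat.find hex - 1) (by omega)
      rw [not_not, Nat.sub_add_cancel h1] at h2
      exact h2
  choose v hv1 hv2 hv3 using hv
  have h1 := card_image (m' := m') hF (fun i => P (X.equivFin.symm i))
    (fun i => h0 _ (X.equivFin.symm i).2) (show m' ≤ 2 * m' by omega) g v hv1 hv2 hv3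
    (fun i j hij => hg2 i j hij)
  have h2 : 2 * m' * (2 * m' + 1) / 2 = m' * (2 * m' + 1) := by
    rw [mul_assoc, Nat.mul_div_cancel_left _ (by norm_num)]
  have h3 : 2 * m' - m' = m' := by omega
  rw [h2, h3] at h1
  refine Nat.le_of_mul_le_mul_right (c := m') ?_ hm
  calc X.card * m' ≤ e * (m' * (2 * m' + 1)) := h1
    _ = e * (2 * m' + 1) * m' := by ring

/-- THE CHAIN. PROOF. `M3 = M`, `M2 = 2 M + r`, `M1 = 2 M2 + r`. `X1` = the indices in `X` where `p^M1` does not divide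
`h1 = Jac f h0`: `lemma_J` with `m' = M1 - 1`, as `f(P) = h0(P) = 0`: at most `e (2 M1)`. On the rest: `X2` = those where `p^M2` does
not divide `h2`, `lemma_J` with `M = M1`, `m' = M2 - 1`; then `X3`. The sum is at most `2 e (M1 + M2 + M3) = e (14 M + 8 r)`; drop the
three sets. -/
theorem chain {ι : Type*} {e M r : ℕ} {F₀ f h0 : O p} (hF : F₀ ∉ Fl p (e + 1)) (X : Finset ι) (P : ι → Pt p)
    (hX : ∀ i ∈ X, (P i).ev F₀ = 0) (hf : ∀ i ∈ X, (P i).ev f = 0) (hh : ∀ i ∈ X, (P i).ev h0 = 0)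
    (hs : ∀ i ∈ X, ∀ j ∈ X, i ≠ j → ¬ (p : ℤ_[p]) ^ (r + 1) ∣ (P j).s - (P i).s) (hM : 2 ≤ M) :
    ∃ Y ⊆ X, X.card ≤ Y.card + e * (14 * M + 8 * r) ∧ ∀ i ∈ Y,
      (p : ℤ_[p]) ^ M ∣ (P i).ev (Jac f h0) ∧ (p : ℤ_[p]) ^ M ∣ (P i).ev (Jac f (Jac f h0)) ∧
      (p : ℤ_[p]) ^ M ∣ (P i).ev (Jac f (Jac f (Jac f h0))) := by
  classical
  have hstep : ∀ (Z : Finset ι) (N m : ℕ) (h : O p), Z ⊆ X → 2 ≤ m → 2 * m + r ≤ N + 2 →
      (∀ i ∈ Z, (p : ℤ_[p]) ^ N ∣ (P i).ev h) →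
      Z.card ≤ (Z.filter fun i => (p : ℤ_[p]) ^ m ∣ (P i).ev (Jac f h)).card + e * (2 * m) := by
    intro Z N m h hZ hm hN hd
    have h1 := lemma_J (M := N) (m' := m - 1) (r := r) (f := f) (h := h) hF
      (Z.filter fun i => ¬ (p : ℤ_[p]) ^ m ∣ (P i).ev (Jac f h)) P
      (fun i hi => hX i (hZ (Finset.mem_filter.1 hi).1))
      (fun i hi => by rw [hf i (hZ (Finset.mem_filter.1 hi).1)]; exact dvd_zero _)
      (fun i hi => hd i (Finset.mem_filter.1 hi).1)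
      (fun i hi j hj hij => hs i (hZ (Finset.mem_filter.1 hi).1) j
        (hZ (Finset.mem_filter.1 hj).1) hij) (by omega) (by omega)
      (fun i hi => by
        have h2 := (Finset.mem_filter.1 hi).2
        rwa [Nat.sub_add_cancel (show 1 ≤ m by omega)])
    have h3 := Finset.card_filter_add_card_filter_not (s := Z)
      (fun i => (p : ℤ_[p]) ^ m ∣ (P i).ev (Jac f h))
    have h4 : e * (2 * (m - 1) + 1) ≤ e * (2 * m) := Nat.mul_le_mul_left e (by omega)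
    omega
  have a1 := hstep X (2 * (2 * (2 * M + r) + r) + r) (2 * (2 * M + r) + r) h0 (Finset.Subset.refl X)
    (by omega) (by omega) (fun i hi => by rw [hh i hi]; exact dvd_zero _)
  obtain ⟨X1, hX1⟩ : ∃ X1, X1 = X.filter
      fun i => (p : ℤ_[p]) ^ (2 * (2 * M + r) + r) ∣ (P i).ev (Jac f h0) := ⟨_, rfl⟩
  rw [← hX1] at a1
  have b1 : X1 ⊆ X := by
    rw [hX1]
    exact Finset.filter_subset _ _
  have c1 : ∀ i ∈ X1, (p : ℤ_[p]) ^ (2 * (2 * M + r) + r) ∣ (P i).ev (Jac f h0) := by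
    intro i hi
    rw [hX1] at hi
    exact (Finset.mem_filter.1 hi).2
  have a2 := hstep X1 (2 * (2 * M + r) + r) (2 * M + r) (Jac f h0) b1 (by omega) (by omega) c1
  obtain ⟨X2, hX2⟩ : ∃ X2, X2 = X1.filter
      fun i => (p : ℤ_[p]) ^ (2 * M + r) ∣ (P i).ev (Jac f (Jac f h0)) := ⟨_, rfl⟩
  rw [← hX2] at a2
  have b2 : X2 ⊆ X1 := by
    rw [hX2]
    exact Finset.filter_subset _ _
  have c2 : ∀ i ∈ X2, (p : ℤ_[p]) ^ (2 * M + r) ∣ (P i).ev (Jac f (Jac f h0)) := by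
    intro i hi
    rw [hX2] at hi
    exact (Finset.mem_filter.1 hi).2
  have a3 := hstep X2 (2 * M + r) M (Jac f (Jac f h0)) (b2.trans b1) hM (by omega) c2
  refine ⟨X2.filter fun i => (p : ℤ_[p]) ^ M ∣ (P i).ev (Jac f (Jac f (Jac f h0))),
    (Finset.filter_subset _ _).trans (b2.trans b1), ?_, fun i hi => ?_⟩
  · have h1 : e * (14 * M + 8 * r) = e * (2 * (2 * (2 * M + r) + r)) + e * (2 * (2 * M + r)) +
        e * (2 * M) := by ring
    omega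
  · have h1 := Finset.mem_filter.1 hi
    exact ⟨(pow_dvd_pow _ (by omega)).trans (c1 i (b2 h1.1)),
      (pow_dvd_pow _ (by omega)).trans (c2 i h1.1), h1.2⟩

end Pool.Agent.Lib.MP_3550b5_nt.AC
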