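import Mathlib
import Pool.Agent.Lib.MP_3550b5_nt.AC.Dl
import Pool.Agent.Lib.MP_3550b5_nt.AC.Ua

/-!
PROJECT AC, block JET: at the points where `h₁, h₂, h₃` are divisible by `p^M` the algebraic expression is divisible by `p^M`.
-/

namespace Pool.Agent.Lib.MP_3550b5_nt.AC

open MvPolynomial SV

variable {p : ℕ} [hp : Fact p.Prime]

/-- THE DIFFERENTIAL STRUCTURE OF THE LEAF: along every derivation `α ∂_s + β ∂_T` the leaf satisfies the system of the sigma function. -/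
def Leaf.ADE (L : Leaf p) (a : ℤ) : Prop :=
  ∀ (K : Type) [Field K] [CharZero K] (ι : O p →+* K) (δ : Dr K) (α β : O p), Function.Injective ι →
    (∀ f, δ (ι f) = ι α * ι (dS p f) + ι β * ι (dT p f)) → jev δ (fun i => ι (L.vO a i)) muJ ≠ 0 →
    ∃ (y W : K) (W' c : O p), y ^ 2 = fY (fun i => ι (L.vO a i)) ∧ W ^ 2 = frr δ (fun i => ι (L.vO a i)) ∧
      δ W = (k1 δ (ι (L.vO a 3)) (ι (L.vO a 0)) * ι c + g1 δ (ι (L.vO a 3)) (ι (L.vO a 0))) * W +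
        y * ftau δ (fun i => ι (L.vO a i)) ∧
      δ (ι c) = k1 δ (ι (L.vO a 3)) (ι (L.vO a 0)) * ι c ^ 2 + 2 * g1 δ (ι (L.vO a 3)) (ι (L.vO a 0)) * ι c -
        k1 δ (ι (L.vO a 3)) (ι (L.vO a 0)) * ι (L.vO a 3) / 3 ∧
      jev δ (fun i => ι (L.vO a i)) muJ ^ 4 * W = ι W'

variable (L : Leaf p) {Ψ₀ Ψ₁ : Q3} {l T M : ℕ} {a : ℤ}

private lemma jma_X0 {K : Type*} [CommRing K] (δ : Dr K) (v : Fin 4 → K) (i : Fin 4) :
    jev δ v (X (i, 0)) = v i := by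
  unfold jev
  rw [coe_eval₂Hom, eval₂_X, Function.iterate_zero, id]

private lemma jma_X1 {K : Type*} [CommRing K] (δ : Dr K) (v : Fin 4 → K) (i : Fin 4) :
    jev δ v (X (i, 1)) = δ (v i) := by
  unfold jev
  rw [coe_eval₂Hom, eval₂_X, Function.iterate_one]

private lemma jma_int {R : Type*} [CommRing R] (d : Dr R) (a : ℤ) : d (a : R) = 0 := by
  have h := d.map_algebraMap a
  rwa [eq_intCast] at h

private lemma jma_vO (a : ℤ) (i : Fin 4) : L.vO a i = L.rs (vQ a i) := by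
  fin_cases i
  · change L.bb = L.rs (X 0)
    rw [Leaf.rs, eval₂Hom_X']
    rfl
  · change L.DD = L.rs (X 1)
    rw [Leaf.rs, eval₂Hom_X']
    rfl
  · change L.AA = L.rs (X 2)
    rw [Leaf.rs, eval₂Hom_X']
    rfl
  · change (a : O p) = L.rs (C a)
    rw [Leaf.rs, eval₂Hom_C]
    rfl

/-- PROOF. `muJ` contains only `b, b', D, A, a, a'`; `dLL_bb_DD`, `dLL (a) = 0`. -/
theorem mu_eq (h0 : pderiv 2 Ψ₀ = 0) (h0' : L.rs (pderiv 1 Ψ₀) ≠ 0) (a : ℤ) :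
    jev (dLL L Ψ₀ Ψ₁) (L.vO a) muJ = L.rs (jev (dL p Ψ₀ Ψ₁) (vQ a) muJ) := by
  have h3 : dLL L Ψ₀ Ψ₁ (L.vO a 3) = 0 := by
    exact jma_int (dLL L Ψ₀ Ψ₁) a
  have h3' : dL p Ψ₀ Ψ₁ (vQ a 3) = 0 := by
    change dL p Ψ₀ Ψ₁ (C a) = 0
    rw [dL_apply, pderiv_C, pderiv_C, pderiv_C]
    ring
  have h4 : dLL L Ψ₀ Ψ₁ (L.vO a 0) = L.rs (dL p Ψ₀ Ψ₁ (vQ a 0)) := (dLL_bb_DD L h0 h0').1
  unfold muJ
  simp only [map_mul, map_add, map_sub, map_pow, map_ofNat, jma_X0, jma_X1]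
  rw [h3, h3', h4, jma_vO L a 0, jma_vO L a 1, jma_vO L a 2, jma_vO L a 3, map_zero]

/-- The leaf in its field of fractions. PROOF. `K = FractionRing (O p)`, `exists_fracDer` (SV/Cmp) for `dLL`; `Jac`, `dLL_apply`: `α = X Ψ_T..`, `jev_map`. -/
theorem leaf_frac (hA : L.ADE a) (h : jev (dLL L Ψ₀ Ψ₁) (L.vO a) muJ ≠ 0) :
    ∃ (K : Type) (_ : Field K) (_ : CharZero K) (ι : O p →+* K) (δ : Dr K) (y W : K) (W' c : O p), Function.Injective ι ∧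
      (∀ f, δ (ι f) = ι (dLL L Ψ₀ Ψ₁ f)) ∧ (∀ g, jev δ (fun i => ι (L.vO a i)) g = ι (jev (dLL L Ψ₀ Ψ₁) (L.vO a) g)) ∧
      y ^ 2 = fY (fun i => ι (L.vO a i)) ∧ W ^ 2 = frr δ (fun i => ι (L.vO a i)) ∧
      δ W = (k1 δ (ι (L.vO a 3)) (ι (L.vO a 0)) * ι c + g1 δ (ι (L.vO a 3)) (ι (L.vO a 0))) * W +
        y * ftau δ (fun i => ι (L.vO a i)) ∧
      δ (ι c) = k1 δ (ι (L.vO a 3)) (ι (L.vO a 0)) * ι c ^ 2 + 2 * g1 δ (ι (L.vO a 3)) (ι (L.vO a 0)) * ι c -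
        k1 δ (ι (L.vO a 3)) (ι (L.vO a 0)) * ι (L.vO a 3) / 3 ∧
      ι (jev (dLL L Ψ₀ Ψ₁) (L.vO a) muJ) ^ 4 * W = ι W' := by
  obtain ⟨δ, hδ⟩ := exists_fracDer (dLL L Ψ₀ Ψ₁)
  have hι : Function.Injective (algebraMap (O p) (FractionRing (O p))) :=
    IsFractionRing.injective _ _
  have hc : CharZero (FractionRing (O p)) := by
    obtain ⟨θ, hθ⟩ : ∃ θ : ℤ_[p] →+* O p, Function.Injective θ :=
      ⟨(PowerSeries.C (R := PowerSeries ℤ_[p])).comp (PowerSeries.C (R := ℤ_[p])),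
        PowerSeries.C_injective.comp PowerSeries.C_injective⟩
    refine ⟨fun m n hmn => ?_⟩
    have h2 : algebraMap (O p) (FractionRing (O p)) (m : O p) =
        algebraMap (O p) (FractionRing (O p)) (n : O p) := by
      rw [map_natCast, map_natCast]
      exact hmn
    have h3 := hι h2
    rw [← map_natCast θ, ← map_natCast θ] at h3
    exact Nat.cast_injective (hθ h3)
  have hj : ∀ g, jev δ (fun i => algebraMap (O p) (FractionRing (O p)) (L.vO a i)) g =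
      algebraMap (O p) (FractionRing (O p)) (jev (dLL L Ψ₀ Ψ₁) (L.vO a) g) := fun g =>
    jev_map _ _ _ hδ _ g
  obtain ⟨y, W, W', c, h1, h2, h3, h4, h5⟩ := hA (FractionRing (O p))
    (algebraMap (O p) (FractionRing (O p))) δ
    (L.rs (pderiv 2 Ψ₁) * L.iD * dT p (L.rs Ψ₀)) (-(L.rs (pderiv 2 Ψ₁) * L.iD * dS p (L.rs Ψ₀)))
    hι (fun f => by
      rw [hδ, dLL_apply, Jac, ← map_mul, ← map_mul, ← map_add]
      congr 1
      ring) (by
      rw [hj]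
      exact fun h0 => h (hι (h0.trans (map_zero _).symm)))
  rw [hj] at h5
  exact ⟨FractionRing (O p), inferInstance, hc, algebraMap (O p) (FractionRing (O p)), δ, y, W,
    W', c, hι, hδ, hj, h1, h2, h3, h4, h5⟩

end Pool.Agent.Lib.MP_3550b5_nt.AC
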