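import Mathlib
import Pool.Agent.Lib.MP_3550b5_nt.AC.JmA

/-!
PROJECT AC, block JET: at the points where `h₁, h₂, h₃` are divisible by `p^M` the algebraic expression is divisible by `p^M`.
-/

namespace Pool.Agent.Lib.MP_3550b5_nt.AC

open MvPolynomial SV

variable {p : ℕ} [hp : Fact p.Prime]

variable (L : Leaf p) {Ψ₀ Ψ₁ : Q3} {l T M : ℕ} {a : ℤ}

/-- PROOF. `leaf_frac`, `ade` (`of_mu`): `fEE = 0` on the leaf, so `jev (dLL) N = 0` in `O p`; `jets_congr`: `L.rs (jev dL N) ∈ I3`; evaluate at `P` (`ev_rs`). -/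
theorem EE_dvd (hA : L.ADE a) (h0 : pderiv 2 Ψ₀ = 0) (h0' : L.rs (pderiv 1 Ψ₀) ≠ 0) (h1 : pderiv 1 Ψ₁ = 0)
    (h1' : L.rs (pderiv 2 Ψ₁) ≠ 0) (hmu : jev (dLL L Ψ₀ Ψ₁) (L.vO a) muJ ≠ 0) (P : BP L l T)
    (hP : ∀ f ∈ L.I3 Ψ₀ Ψ₁, (p : ℤ_[p]) ^ M ∣ P.pt.ev f) {n : ℕ} {N : J} (hN : ∀ x ∈ N.vars, x.2 ≤ 3)
    (hNE : ∀ (K : Type) [Field K] [CharZero K] (δ : Dr K) (v : Fin 4 → K), jev δ v muJ ≠ 0 →
      jev δ v muJ ^ n * fEE δ v = jev δ v N) :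
    (p : ℤ) ^ M ∣ eval P.v (jev (dL p Ψ₀ Ψ₁) (vQ a) N) := by
  obtain ⟨K, iK, iC, ι, δ, y, W, W', c, hι, -, hjev, hy, hW, hW', hc, -⟩ := leaf_frac L hA hmu
  have hm : jev δ (fun i => ι (L.vO a i)) muJ ≠ 0 := by
    rw [hjev]
    exact fun h => hmu (hι (h.trans (map_zero ι).symm))
  obtain ⟨-, hk, -, hY⟩ := of_mu δ (fun i => ι (L.vO a i)) hm
  have hE : fEE δ (fun i => ι (L.vO a i)) = 0 :=
    ade δ (fun i => ι (L.vO a i)) hk hY hy hW hW' hc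
  have hz : jev (dLL L Ψ₀ Ψ₁) (L.vO a) N = 0 := by
    apply hι
    rw [← hjev, ← hNE K δ (fun i => ι (L.vO a i)) hm, hE, mul_zero, map_zero]
  have hI := jets_congr L h0 h0' h1 h1' a N hN
  rw [hz, sub_zero] at hI
  have hd := hP _ hI
  rw [P.ev_rs] at hd
  have h5 : ‖((eval P.v (jev (dL p Ψ₀ Ψ₁) (vQ a) N) : ℤ) : ℤ_[p])‖ ≤ (p : ℝ) ^ (-(M : ℤ)) := by
    rw [PadicInt.norm_le_pow_iff_mem_span_pow, Ideal.mem_span_singleton]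
    exact hd
  exact PadicInt.norm_int_le_pow_iff_dvd.1 h5

end Pool.Agent.Lib.MP_3550b5_nt.AC
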