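import Mathlib
import Pool.Agent.Lib.MP_3550b5_nt.AC.Dl

/-!
PROJECT AC, block JET: degrees and coefficients of differential polynomials evaluated in `ℤ[b, D, A]`.
-/

namespace Pool.Agent.Lib.MP_3550b5_nt.AC

open MvPolynomial SV

/-- The sum of the absolute values of the coefficients. -/
noncomputable def nn (F : Q3) : ℕ := ∑ m ∈ F.support, (F.coeff m).natAbs

/-- `F` has size at most `c`: degree at most `c κ` in `b`, at most `c ω` in `D` and `A`, coefficient sum at most `2^(c σ)`. -/
structure Bd (κ ω σ c : ℕ) (F : Q3) : Prop where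
  d0 : F.degreeOf 0 ≤ c * κ
  d1 : F.degreeOf 1 ≤ c * ω
  d2 : F.degreeOf 2 ≤ c * ω
  n : nn F ≤ 2 ^ (c * σ)

private lemma szA_sub (F : Q3) (T : Finset (Fin 3 →₀ ℕ)) (h : F.support ⊆ T) :
    nn F = ∑ m ∈ T, (F.coeff m).natAbs := by
  unfold nn
  refine Finset.sum_subset h fun m _ hm => ?_
  rw [MvPolynomial.notMem_support_iff.mp hm]
  rfl

lemma nn_add (F G : Q3) : nn (F + G) ≤ nn F + nn G := by
  classical
  rw [szA_sub (F + G) (F.support ∪ G.support) MvPolynomial.support_add,
    szA_sub F (F.support ∪ G.support) Finset.subset_union_left,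
    szA_sub G (F.support ∪ G.support) Finset.subset_union_right, ← Finset.sum_add_distrib]
  refine Finset.sum_le_sum fun m _ => ?_
  rw [MvPolynomial.coeff_add]
  exact Int.natAbs_add_le _ _

private lemma szA_zero : nn (0 : Q3) = 0 := by
  simp [nn]

private lemma szA_sum {ι : Type} (T : Finset ι) (f : ι → Q3) :
    nn (∑ i ∈ T, f i) ≤ ∑ i ∈ T, nn (f i) := by
  classical
  induction T using Finset.induction_on with
  | empty => simp [szA_zero]
  | insert a T ha ih =>
    rw [Finset.sum_insert ha, Finset.sum_insert ha]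
    exact (nn_add _ _).trans (Nat.add_le_add_left ih _)

private lemma szA_mon (m : Fin 3 →₀ ℕ) (a : ℤ) : nn (monomial m a : Q3) = a.natAbs := by
  classical
  rw [szA_sub (monomial m a) {m} MvPolynomial.support_monomial_subset, Finset.sum_singleton,
    MvPolynomial.coeff_monomial, if_pos rfl]

lemma nn_neg (F : Q3) : nn (-F) = nn F := by
  unfold nn
  rw [MvPolynomial.support_neg]
  refine Finset.sum_congr rfl fun m _ => ?_
  rw [MvPolynomial.coeff_neg, Int.natAbs_neg]

lemma nn_mul (F G : Q3) : nn (F * G) ≤ nn F * nn G := by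
  classical
  have e : F * G = ∑ m ∈ F.support, ∑ n ∈ G.support,
      monomial (m + n) (F.coeff m * G.coeff n) := by
    conv_lhs => rw [← MvPolynomial.support_sum_monomial_coeff F,
      ← MvPolynomial.support_sum_monomial_coeff G, Finset.sum_mul_sum]
    refine Finset.sum_congr rfl fun m _ => Finset.sum_congr rfl fun n _ => ?_
    rw [MvPolynomial.monomial_mul]
  rw [e]
  refine (szA_sum _ _).trans ?_
  unfold nn
  rw [Finset.sum_mul_sum]
  refine Finset.sum_le_sum fun m _ => ?_
  refine (szA_sum _ _).trans ?_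
  refine Finset.sum_le_sum fun n _ => ?_
  rw [szA_mon, Int.natAbs_mul]

lemma nn_C (a : ℤ) : nn (C a) = a.natAbs := by
  exact szA_mon 0 a

lemma nn_X (i : Fin 3) : nn (X i) = 1 := by
  exact szA_mon (Finsupp.single i 1) 1

private lemma szA_pd (i : Fin 3) (F : Q3) : pderiv i F =
    ∑ m ∈ F.support, monomial (m - Finsupp.single i 1) (F.coeff m * (m i : ℤ)) := by
  conv_lhs => rw [← MvPolynomial.support_sum_monomial_coeff F, map_sum]
  refine Finset.sum_congr rfl fun m _ => ?_
  rw [MvPolynomial.pderiv_monomial]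
  try rfl

/-- PROOF. The coefficients of `pderiv i F` are those of `F` times the exponents. -/
lemma nn_pderiv (i : Fin 3) (F : Q3) : nn (pderiv i F) ≤ F.degreeOf i * nn F := by
  rw [szA_pd]
  refine (szA_sum _ _).trans ?_
  unfold nn
  rw [Finset.mul_sum]
  refine Finset.sum_le_sum fun m hm => ?_
  have h := szA_mon (m - Finsupp.single i 1) (F.coeff m * (m i : ℤ))
  unfold nn at h
  rw [h, Int.natAbs_mul, Int.natAbs_natCast, mul_comm]
  exact Nat.mul_le_mul_right _ (MvPolynomial.monomial_le_degreeOf i hm)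

lemma degreeOf_pderiv_le (i j : Fin 3) (F : Q3) : (pderiv i F).degreeOf j ≤ F.degreeOf j := by
  classical
  rw [szA_pd]
  refine (MvPolynomial.degreeOf_sum_le j _ _).trans ?_
  refine Finset.sup_le fun m hm => ?_
  rw [MvPolynomial.degreeOf_le_iff]
  intro n hn
  have h1 := MvPolynomial.support_monomial_subset hn
  rw [Finset.mem_singleton] at h1
  subst h1
  have h2 : ((m - Finsupp.single i 1 : Fin 3 →₀ ℕ)) j ≤ m j := by
    rw [Finsupp.tsub_apply]
    exact Nat.sub_le _ _
  exact h2.trans (MvPolynomial.monomial_le_degreeOf j hm)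

end Pool.Agent.Lib.MP_3550b5_nt.AC
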