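import Mathlib
import Pool.Agent.Lib.MP_3550b5_nt.AC.SzA

/-!
PROJECT AC, block JET: degrees and coefficients of differential polynomials evaluated in `ℤ[b, D, A]`.
-/

namespace Pool.Agent.Lib.MP_3550b5_nt.AC

open MvPolynomial SV

/-- The value at an integral point. PROOF. `MvPolynomial.eval_eq'`, every monomial has absolute value at most `2^(l d₀ + T d₁ + 2 T d₂)`. -/
theorem abs_eval_le_nn {F : Q3} {v : Fin 3 → ℤ} {l T d e : ℕ} (hb : |v 0| ≤ 2 ^ l) (hD : |v 1| ≤ 2 ^ T) (hA : |v 2| ≤ 4 ^ T)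
    (h0 : F.degreeOf 0 ≤ d) (h1 : F.degreeOf 1 ≤ e) (h2 : F.degreeOf 2 ≤ e) :
    |eval v F| ≤ nn F * 2 ^ (l * d + 3 * T * e) := by
  rw [MvPolynomial.eval_eq', nn, Nat.cast_sum, Finset.sum_mul]
  refine (Finset.abs_sum_le_sum_abs _ _).trans (Finset.sum_le_sum fun m hm => ?_)
  rw [abs_mul, Nat.cast_natAbs, Int.cast_id]
  refine mul_le_mul_of_nonneg_left ?_ (abs_nonneg _)
  rw [Fin.prod_univ_three, abs_mul, abs_mul, abs_pow, abs_pow, abs_pow]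
  have key : ∀ {x B : ℤ} {a b : ℕ}, |x| ≤ B → 1 ≤ B → a ≤ b → |x| ^ a ≤ B ^ b := by
    intro x B a b hx hB hab
    exact (pow_le_pow_left₀ (abs_nonneg x) hx a).trans (pow_le_pow_right₀ hB hab)
  have e0 := key hb (one_le_pow₀ (by norm_num)) ((MvPolynomial.monomial_le_degreeOf 0 hm).trans h0)
  have e1 := key hD (one_le_pow₀ (by norm_num)) ((MvPolynomial.monomial_le_degreeOf 1 hm).trans h1)
  have e2 := key hA (one_le_pow₀ (by norm_num)) ((MvPolynomial.monomial_le_degreeOf 2 hm).trans h2)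
  have e3 : (2 : ℤ) ^ (l * d + 3 * T * e) = (2 ^ l) ^ d * (2 ^ T) ^ e * (4 ^ T) ^ e := by
    have h4 : (4 : ℤ) = 2 ^ 2 := by norm_num
    rw [h4, ← pow_mul, ← pow_mul, ← pow_mul, ← pow_mul, ← pow_add, ← pow_add]
    congr 1
    ring
  rw [e3]
  have p0 := pow_nonneg (abs_nonneg (v 0)) (m 0)
  have p1 := pow_nonneg (abs_nonneg (v 1)) (m 1)
  have p2 := pow_nonneg (abs_nonneg (v 2)) (m 2)
  exact mul_le_mul (mul_le_mul e0 e1 p1 (p0.trans e0)) e2 p2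
    (mul_nonneg (p0.trans e0) (p1.trans e1))

variable {κ ω σ : ℕ}

/-- PROOF. `c = c₁ + c₂ + 1` absorbs the sum, `σ ≥ 1`. -/
lemma Bd.add {c₁ c₂ : ℕ} (hσ : 1 ≤ σ) {F G : Q3} (hF : Bd κ ω σ c₁ F) (hG : Bd κ ω σ c₂ G) :
    Bd κ ω σ (c₁ + c₂ + 1) (F + G) := by
  have hle : ∀ k : ℕ, c₁ * k ≤ (c₁ + c₂ + 1) * k ∧ c₂ * k ≤ (c₁ + c₂ + 1) * k := fun k =>
    ⟨Nat.mul_le_mul_right k (by omega), Nat.mul_le_mul_right k (by omega)⟩
  refine ⟨?_, ?_, ?_, ?_⟩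
  · exact (MvPolynomial.degreeOf_add_le 0 F G).trans
      (max_le (hF.d0.trans (hle κ).1) (hG.d0.trans (hle κ).2))
  · exact (MvPolynomial.degreeOf_add_le 1 F G).trans
      (max_le (hF.d1.trans (hle ω).1) (hG.d1.trans (hle ω).2))
  · exact (MvPolynomial.degreeOf_add_le 2 F G).trans
      (max_le (hF.d2.trans (hle ω).1) (hG.d2.trans (hle ω).2))
  · refine (nn_add F G).trans ((add_le_add hF.n hG.n).trans ?_)
    have h1 : 1 ≤ 2 ^ (c₁ * σ) := Nat.one_le_two_pow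
    have h2 : 1 ≤ 2 ^ (c₂ * σ) := Nat.one_le_two_pow
    have h3 : 2 ≤ 2 ^ σ := by
      calc 2 = 2 ^ 1 := (pow_one 2).symm
        _ ≤ 2 ^ σ := Nat.pow_le_pow_right (by norm_num) hσ
    have h4 : 2 ^ ((c₁ + c₂ + 1) * σ) = 2 ^ (c₁ * σ) * 2 ^ (c₂ * σ) * 2 ^ σ := by
      rw [← pow_add, ← pow_add]
      congr 1
      ring
    rw [h4]
    generalize 2 ^ (c₁ * σ) = a at *
    generalize 2 ^ (c₂ * σ) = b at *
    generalize 2 ^ σ = c at *
    have h5 : a + b ≤ a * b * 2 := by nlinarith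
    exact h5.trans (Nat.mul_le_mul_left _ h3)

lemma Bd.mul {c₁ c₂ : ℕ} {F G : Q3} (hF : Bd κ ω σ c₁ F) (hG : Bd κ ω σ c₂ G) : Bd κ ω σ (c₁ + c₂) (F * G) := by
  refine ⟨?_, ?_, ?_, ?_⟩
  · rw [add_mul]
    exact (MvPolynomial.degreeOf_mul_le 0 F G).trans (add_le_add hF.d0 hG.d0)
  · rw [add_mul]
    exact (MvPolynomial.degreeOf_mul_le 1 F G).trans (add_le_add hF.d1 hG.d1)
  · rw [add_mul]
    exact (MvPolynomial.degreeOf_mul_le 2 F G).trans (add_le_add hF.d2 hG.d2)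
  · rw [add_mul, pow_add]
    exact (nn_mul F G).trans (Nat.mul_le_mul hF.n hG.n)

end Pool.Agent.Lib.MP_3550b5_nt.AC
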