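import Mathlib
import Pool.Agent.Lib.MP_3550b5_nt.AC.SzB

/-!
PROJECT AC, block JET: degrees and coefficients of differential polynomials evaluated in `ℤ[b, D, A]`.
-/

namespace Pool.Agent.Lib.MP_3550b5_nt.AC

open MvPolynomial SV

variable {κ ω σ : ℕ}

private lemma szc_mono {c c' : ℕ} (h : c ≤ c') {F : Q3} (hF : Bd κ ω σ c F) : Bd κ ω σ c' F :=
  ⟨hF.d0.trans (Nat.mul_le_mul_right κ h), hF.d1.trans (Nat.mul_le_mul_right ω h),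
    hF.d2.trans (Nat.mul_le_mul_right ω h),
    hF.n.trans (Nat.pow_le_pow_right (by norm_num) (Nat.mul_le_mul_right σ h))⟩

private lemma szc_neg {c : ℕ} {F : Q3} (hF : Bd κ ω σ c F) : Bd κ ω σ c (-F) := by
  refine ⟨?_, ?_, ?_, ?_⟩
  · rw [degreeOf_neg]
    exact hF.d0
  · rw [degreeOf_neg]
    exact hF.d1
  · rw [degreeOf_neg]
    exact hF.d2
  · rw [nn_neg]
    exact hF.n

private lemma szc_add {c : ℕ} (hσ : 1 ≤ σ) {F G : Q3} (hF : Bd κ ω σ c F) (hG : Bd κ ω σ c G) :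
    Bd κ ω σ (c + 1) (F + G) := by
  have hF' := szc_mono (Nat.le_succ c) hF
  have hG' := szc_mono (Nat.le_succ c) hG
  refine ⟨(degreeOf_add_le 0 F G).trans (max_le hF'.d0 hG'.d0),
    (degreeOf_add_le 1 F G).trans (max_le hF'.d1 hG'.d1),
    (degreeOf_add_le 2 F G).trans (max_le hF'.d2 hG'.d2), ?_⟩
  calc nn (F + G) ≤ nn F + nn G := nn_add F G
    _ ≤ 2 ^ (c * σ) + 2 ^ (c * σ) := Nat.add_le_add hF.n hG.n
    _ = 2 ^ (c * σ + 1) := by rw [pow_succ, Nat.mul_two]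
    _ ≤ 2 ^ ((c + 1) * σ) := by
      refine Nat.pow_le_pow_right (by norm_num) ?_
      rw [Nat.succ_mul]
      omega

private lemma szc_sub {c : ℕ} (hσ : 1 ≤ σ) {F G : Q3} (hF : Bd κ ω σ c F) (hG : Bd κ ω σ c G) :
    Bd κ ω σ (c + 1) (F - G) := by
  rw [sub_eq_add_neg]
  exact szc_add hσ hF (szc_neg hG)

private lemma szc_pd {c : ℕ} (hκσ : κ ≤ 2 ^ σ) (hωσ : ω ≤ 2 ^ σ) {F : Q3} (hF : Bd κ ω σ c F)
    (i : Fin 3) : nn (pderiv i F) ≤ c * 2 ^ ((c + 1) * σ) := by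
  have hd : F.degreeOf i ≤ c * 2 ^ σ := by
    fin_cases i
    · exact hF.d0.trans (Nat.mul_le_mul_left c hκσ)
    · exact hF.d1.trans (Nat.mul_le_mul_left c hωσ)
    · exact hF.d2.trans (Nat.mul_le_mul_left c hωσ)
  calc nn (pderiv i F) ≤ F.degreeOf i * nn F := nn_pderiv i F
    _ ≤ (c * 2 ^ σ) * 2 ^ (c * σ) := Nat.mul_le_mul hd hF.n
    _ = c * 2 ^ ((c + 1) * σ) := by
      rw [Nat.succ_mul, pow_add]
      ring

private lemma szc_d1 (hκσ : κ ≤ 2 ^ σ) (hωσ : ω ≤ 2 ^ σ) {F : Q3} (hF : Bd κ ω σ 1 F)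
    (i : Fin 3) : Bd κ ω σ 2 (pderiv i F) := by
  have hF' := szc_mono one_le_two hF
  refine ⟨(degreeOf_pderiv_le i 0 F).trans hF'.d0, (degreeOf_pderiv_le i 1 F).trans hF'.d1,
    (degreeOf_pderiv_le i 2 F).trans hF'.d2, ?_⟩
  have h1 := szc_pd hκσ hωσ hF i
  rwa [one_mul] at h1

private lemma szc_dG {c : ℕ} (hσ : 1 ≤ σ) (hκσ : κ ≤ 2 ^ σ) (hωσ : ω ≤ 2 ^ σ) {F : Q3}
    (hF : Bd κ ω σ c F) (i : Fin 3) : Bd κ ω σ (2 * c + 1) (pderiv i F) := by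
  have hF' := szc_mono (show c ≤ 2 * c + 1 by omega) hF
  refine ⟨(degreeOf_pderiv_le i 0 F).trans hF'.d0, (degreeOf_pderiv_le i 1 F).trans hF'.d1,
    (degreeOf_pderiv_le i 2 F).trans hF'.d2, ?_⟩
  calc nn (pderiv i F) ≤ c * 2 ^ ((c + 1) * σ) := szc_pd hκσ hωσ hF i
    _ ≤ 2 ^ (c * σ) * 2 ^ ((c + 1) * σ) := by
      refine Nat.mul_le_mul_right _ (Nat.lt_two_pow_self.le.trans ?_)
      exact Nat.pow_le_pow_right (by norm_num) (Nat.le_mul_of_pos_right c hσ)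
    _ = 2 ^ ((2 * c + 1) * σ) := by
      rw [← pow_add]
      congr 1
      ring

private lemma szc_C {q : ℤ} (hq : |q| ≤ 2 ^ σ) : Bd κ ω σ 1 (q : Q3) := by
  have e : (q : Q3) = C q := (eq_intCast (C : ℤ →+* Q3) q).symm
  rw [e]
  refine ⟨?_, ?_, ?_, ?_⟩
  · rw [degreeOf_C]
    exact Nat.zero_le _
  · rw [degreeOf_C]
    exact Nat.zero_le _
  · rw [degreeOf_C]
    exact Nat.zero_le _
  · rw [nn_C, one_mul]
    rw [Int.abs_eq_natAbs] at hq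
    exact_mod_cast hq

/-- PROOF. `dL_apply`; `nn (pderiv i F) ≤ (c κ or c ω) nn F ≤ 2^((c + 1) σ + ..)` with `c ≤ 2^c`; `nn (dL G) ≤ |q| 3 (..)`. Any explicit linear function of `c` will do: the degrees are
at most `(c + 2) κ`, `(c + 2) ω`, the norm at most `2^σ * 3 * (2^(2σ) * 2^(2σ)) * (c 2^σ 2^(cσ))`. -/
theorem Bd.dL {c : ℕ} (hκ : 1 ≤ κ) (hω : 1 ≤ ω) (hσ : 1 ≤ σ) (hκσ : κ ≤ 2 ^ σ) (hωσ : ω ≤ 2 ^ σ) {q : ℤ} (hq : |q| ≤ 2 ^ σ)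
    {Ψ₀ Ψ₁ G : Q3} (h0 : Bd κ ω σ 1 Ψ₀) (h1 : Bd κ ω σ 1 Ψ₁) (hG : Bd κ ω σ c G) :
    Bd κ ω σ (2 * c + 10) (dL q Ψ₀ Ψ₁ G) := by
  rw [dL_apply]
  have t : ∀ {P Q R : Q3}, Bd κ ω σ 2 P → Bd κ ω σ 2 Q → Bd κ ω σ (2 * c + 1) R →
      Bd κ ω σ (2 * c + 5) (P * Q * R) := by
    intro P Q R hP hQ hR
    exact szc_mono (by omega) (Bd.mul (Bd.mul hP hQ) hR)
  have e1 := t (szc_d1 hκσ hωσ h0 1) (szc_d1 hκσ hωσ h1 2) (szc_dG hσ hκσ hωσ hG 0)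
  have e2 := t (szc_d1 hκσ hωσ h0 0) (szc_d1 hκσ hωσ h1 2) (szc_dG hσ hκσ hωσ hG 1)
  have e3 := t (szc_d1 hκσ hωσ h1 0) (szc_d1 hκσ hωσ h0 1) (szc_dG hσ hκσ hωσ hG 2)
  exact szc_mono (by omega) (Bd.mul (szc_C hq)
    (szc_sub hσ (szc_sub hσ e1 e2) (szc_mono (Nat.le_succ _) e3)))

end Pool.Agent.Lib.MP_3550b5_nt.AC
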