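import Mathlib
import Pool.Agent.Lib.MP_3550b5_nt.AC.SzC

/-!
PROJECT AC, block JET: degrees and coefficients of differential polynomials evaluated in `ℤ[b, D, A]`.
-/

namespace Pool.Agent.Lib.MP_3550b5_nt.AC

open MvPolynomial SV

variable {κ ω σ : ℕ}

private lemma Sz_X (i : Fin 3) (hκ : 1 ≤ κ) (hω : 1 ≤ ω) : Bd κ ω σ 1 (X i : Q3) := by
  refine ⟨?_, ?_, ?_, ?_⟩
  · rw [degreeOf_X]; split_ifs <;> omega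
  · rw [degreeOf_X]; split_ifs <;> omega
  · rw [degreeOf_X]; split_ifs <;> omega
  · rw [nn_X]; exact Nat.one_le_two_pow

private lemma Sz_C (a : ℤ) {c : ℕ} (ha : a.natAbs ≤ 2 ^ (c * σ)) : Bd κ ω σ c (C a : Q3) := by
  refine ⟨?_, ?_, ?_, ?_⟩
  · rw [degreeOf_C]; exact Nat.zero_le _
  · rw [degreeOf_C]; exact Nat.zero_le _
  · rw [degreeOf_C]; exact Nat.zero_le _
  · rw [nn_C]; exact ha

private lemma Sz_v (a : ℤ) (i : Fin 4) (hκ : 1 ≤ κ) (hω : 1 ≤ ω) (ha : |a| ≤ 2 ^ σ) :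
    Bd κ ω σ 1 (vQ a i) := by
  fin_cases i
  · exact Sz_X 0 hκ hω
  · exact Sz_X 1 hκ hω
  · exact Sz_X 2 hκ hω
  · refine Sz_C a ?_
    rw [one_mul]
    have h : ((a.natAbs : ℕ) : ℤ) ≤ ((2 ^ σ : ℕ) : ℤ) := by
      rw [Int.natCast_natAbs]
      exact_mod_cast ha
    exact_mod_cast h

private lemma Sz_it (i : Fin 4) (n : ℕ) : ∃ c : ℕ, 1 ≤ c ∧ ∀ (κ ω σ : ℕ) (q a : ℤ) (Ψ₀ Ψ₁ : Q3), 1 ≤ κ → 1 ≤ ω →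
    1 ≤ σ → κ ≤ 2 ^ σ → ω ≤ 2 ^ σ → |q| ≤ 2 ^ σ → |a| ≤ 2 ^ σ → Bd κ ω σ 1 Ψ₀ → Bd κ ω σ 1 Ψ₁ →
    Bd κ ω σ c ((dL q Ψ₀ Ψ₁)^[n] (vQ a i)) := by
  induction n with
  | zero =>
      refine ⟨1, le_rfl, ?_⟩
      intro κ ω σ q a Ψ₀ Ψ₁ hκ hω hσ hκσ hωσ hq ha h0 h1
      exact Sz_v a i hκ hω ha
  | succ n ih =>
      obtain ⟨c, hc, h⟩ := ih
      refine ⟨2 * c + 10, by omega, ?_⟩
      intro κ ω σ q a Ψ₀ Ψ₁ hκ hω hσ hκσ hωσ hq ha h0 h1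
      rw [Function.iterate_succ_apply']
      exact Bd.dL hκ hω hσ hκσ hωσ hq h0 h1 (h κ ω σ q a Ψ₀ Ψ₁ hκ hω hσ hκσ hωσ hq ha h0 h1)

/-- UNIVERSAL BOUND. PROOF. `MvPolynomial.induction_on` for `g` (sums, products by a variable, integer constants: `|m| ≤ 2^|m|`); the jets `dL^[n] (X i)` by `Bd.dL`. -/
theorem Bd_jev (g : J) : ∃ c : ℕ, 1 ≤ c ∧ ∀ (κ ω σ : ℕ) (q a : ℤ) (Ψ₀ Ψ₁ : Q3), 1 ≤ κ → 1 ≤ ω → 1 ≤ σ → κ ≤ 2 ^ σ → ω ≤ 2 ^ σ →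
    |q| ≤ 2 ^ σ → |a| ≤ 2 ^ σ → Bd κ ω σ 1 Ψ₀ → Bd κ ω σ 1 Ψ₁ → Bd κ ω σ c (jev (dL q Ψ₀ Ψ₁) (vQ a) g) := by
  induction g using MvPolynomial.induction_on with
  | C m =>
      refine ⟨m.natAbs + 1, by omega, ?_⟩
      intro κ ω σ q a Ψ₀ Ψ₁ hκ hω hσ hκσ hωσ hq ha h0 h1
      have e : jev (dL q Ψ₀ Ψ₁) (vQ a) (C m) = (C m : Q3) := by
        rw [jev, coe_eval₂Hom, eval₂_C]
        exact (eq_intCast (C : ℤ →+* Q3) m).symm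
      rw [e]
      refine Sz_C m ?_
      calc m.natAbs ≤ 2 ^ m.natAbs := Nat.lt_two_pow_self.le
        _ ≤ 2 ^ ((m.natAbs + 1) * σ) := by
            refine Nat.pow_le_pow_right (by norm_num) ?_
            calc m.natAbs ≤ (m.natAbs + 1) * 1 := by omega
              _ ≤ (m.natAbs + 1) * σ := Nat.mul_le_mul_left _ hσ
  | add f g hf hg =>
      obtain ⟨c₁, hc₁, h₁⟩ := hf
      obtain ⟨c₂, hc₂, h₂⟩ := hg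
      refine ⟨c₁ + c₂ + 1, by omega, ?_⟩
      intro κ ω σ q a Ψ₀ Ψ₁ hκ hω hσ hκσ hωσ hq ha h0 h1
      rw [map_add]
      exact Bd.add hσ (h₁ κ ω σ q a Ψ₀ Ψ₁ hκ hω hσ hκσ hωσ hq ha h0 h1)
        (h₂ κ ω σ q a Ψ₀ Ψ₁ hκ hω hσ hκσ hωσ hq ha h0 h1)
  | mul_X f x hf =>
      obtain ⟨c₁, hc₁, h₁⟩ := hf
      obtain ⟨c₂, hc₂, h₂⟩ := Sz_it x.1 x.2
      refine ⟨c₁ + c₂, by omega, ?_⟩
      intro κ ω σ q a Ψ₀ Ψ₁ hκ hω hσ hκσ hωσ hq ha h0 h1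
      have e : jev (dL q Ψ₀ Ψ₁) (vQ a) (X x) = (dL q Ψ₀ Ψ₁)^[x.2] (vQ a x.1) := by
        rw [jev, coe_eval₂Hom, eval₂_X]
      rw [map_mul, e]
      exact Bd.mul (h₁ κ ω σ q a Ψ₀ Ψ₁ hκ hω hσ hκσ hωσ hq ha h0 h1)
        (h₂ κ ω σ q a Ψ₀ Ψ₁ hκ hω hσ hκσ hωσ hq ha h0 h1)

end Pool.Agent.Lib.MP_3550b5_nt.AC
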