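import Mathlib
import Pool.Agent.Lib.MP_3550b5_nt.AC.Ua

/-!
PROJECT AC, block ADE: representation by universal differential polynomials.
-/

namespace Pool.Agent.Lib.MP_3550b5_nt.AC

open MvPolynomial SV

/-- `mu^n z = N(b, D, A, a and their derivatives of order at most j)` for all fields with derivation and all functions with `mu ≠ 0`. -/
def Repr (j : ℕ) (z : ∀ (K : Type) [Field K], Dr K → (Fin 4 → K) → K) : Prop :=
  ∃ (n : ℕ) (N : J), (∀ x ∈ N.vars, x.2 ≤ j) ∧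
    ∀ (K : Type) [Field K] [CharZero K] (δ : Dr K) (v : Fin 4 → K), jev δ v muJ ≠ 0 →
      jev δ v muJ ^ n * z K δ v = jev δ v N

variable {i j : ℕ} {z w : ∀ (K : Type) [Field K], Dr K → (Fin 4 → K) → K}

private lemma ord_iff {N : J} {j : ℕ} :
    (∀ x ∈ N.vars, x.2 ≤ j) ↔ N ∈ supported ℤ {x : Fin 4 × ℕ | x.2 ≤ j} := by
  rw [mem_supported]
  exact ⟨fun h x hx => h x hx, fun h x hx => h hx⟩

private lemma X_sup {x : Fin 4 × ℕ} {j : ℕ} (h : x.2 ≤ j) :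
    (X x : J) ∈ supported ℤ {x : Fin 4 × ℕ | x.2 ≤ j} := by
  rw [mem_supported, vars_X, Finset.coe_singleton]
  exact Set.singleton_subset_iff.2 h

private lemma muJ_sup {j : ℕ} (h : 1 ≤ j) : muJ ∈ supported ℤ {x : Fin 4 × ℕ | x.2 ≤ j} := by
  have h0 : ∀ i : Fin 4, (X (i, 0) : J) ∈ supported ℤ {x : Fin 4 × ℕ | x.2 ≤ j} :=
    fun i => X_sup (Nat.zero_le j)
  have h1 : ∀ i : Fin 4, (X (i, 1) : J) ∈ supported ℤ {x : Fin 4 × ℕ | x.2 ≤ j} :=
    fun i => X_sup h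
  unfold muJ
  refine mul_mem (mul_mem (mul_mem (mul_mem (ofNat_mem _ 6) ?_) ?_) (h0 1)) ?_
  · exact add_mem (mul_mem (ofNat_mem _ 4) (pow_mem (h0 3) 3))
      (mul_mem (ofNat_mem _ 27) (pow_mem (h0 0) 2))
  · exact sub_mem (mul_mem (mul_mem (ofNat_mem _ 3) (h0 0)) (h1 3))
      (mul_mem (mul_mem (ofNat_mem _ 2) (h0 3)) (h1 0))
  · exact add_mem (add_mem (pow_mem (h0 2) 3) (mul_mem (mul_mem (h0 3) (h0 2)) (pow_mem (h0 1) 4)))
      (mul_mem (h0 0) (pow_mem (h0 1) 6))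

lemma Repr.mono (h : Repr i z) (hij : i ≤ j) : Repr j z := by
  obtain ⟨n, N, hN, h⟩ := h
  exact ⟨n, N, fun x hx => (hN x hx).trans hij, h⟩

lemma Repr.congr (h : Repr j z) (hzw : ∀ (K : Type) [Field K] [CharZero K] (δ : Dr K) (v : Fin 4 → K), jev δ v muJ ≠ 0 →
    z K δ v = w K δ v) : Repr j w := by
  obtain ⟨n, N, hN, h⟩ := h
  refine ⟨n, N, hN, fun K _ _ δ v hv => ?_⟩
  rw [← hzw K δ v hv]
  exact h K δ v hv

/-- PROOF. Exponent the sum; `MvPolynomial.vars_add_subset`, `vars_mul`, `muJ` has order `1`. -/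
lemma Repr.add (hj : 1 ≤ j) (hz : Repr j z) (hw : Repr j w) : Repr j fun K _ δ v => z K δ v + w K δ v := by
  obtain ⟨n, N, hN, h⟩ := hz
  obtain ⟨n', N', hN', h'⟩ := hw
  refine ⟨n + n', muJ ^ n' * N + muJ ^ n * N', ?_, fun K _ _ δ v hv => ?_⟩
  · rw [ord_iff] at hN hN' ⊢
    exact add_mem (mul_mem (pow_mem (muJ_sup hj) _) hN) (mul_mem (pow_mem (muJ_sup hj) _) hN')
  · rw [map_add, map_mul, map_mul, map_pow, map_pow, ← h K δ v hv, ← h' K δ v hv]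
    ring

lemma Repr.mul (hz : Repr j z) (hw : Repr j w) : Repr j fun K _ δ v => z K δ v * w K δ v := by
  obtain ⟨n, N, hN, h⟩ := hz
  obtain ⟨n', N', hN', h'⟩ := hw
  refine ⟨n + n', N * N', ?_, fun K _ _ δ v hv => ?_⟩
  · rw [ord_iff] at hN hN' ⊢
    exact mul_mem hN hN'
  · rw [map_mul, ← h K δ v hv, ← h' K δ v hv]
    ring

lemma Repr.neg (hz : Repr j z) : Repr j fun K _ δ v => -z K δ v := by
  obtain ⟨n, N, hN, h⟩ := hz
  refine ⟨n, -N, ?_, fun K _ _ δ v hv => ?_⟩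
  · rw [ord_iff] at hN ⊢
    exact neg_mem hN
  · rw [map_neg, ← h K δ v hv]
    ring

lemma Repr.sub (hj : 1 ≤ j) (hz : Repr j z) (hw : Repr j w) : Repr j fun K _ δ v => z K δ v - w K δ v :=
  (Repr.add hj hz hw.neg).congr fun _ _ _ _ _ _ => (sub_eq_add_neg _ _).symm

lemma Repr.pow (hj : 1 ≤ j) (hz : Repr j z) (n : ℕ) : Repr j fun K _ δ v => z K δ v ^ n := by
  obtain ⟨m, N, hN, h⟩ := hz
  refine ⟨m * n, N ^ n, ?_, fun K _ _ δ v hv => ?_⟩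
  · rw [ord_iff] at hN ⊢
    exact pow_mem hN n
  · rw [map_pow, ← h K δ v hv, mul_pow, pow_mul]

/-- Differential polynomials. -/
lemma repr_jev (N : J) (hN : ∀ x ∈ N.vars, x.2 ≤ j) : Repr j fun K _ δ v => jev δ v N := by
  refine ⟨0, N, hN, fun K _ _ δ v _ => ?_⟩
  rw [pow_zero, one_mul]

/-- Factors of `mu` are invertible. -/
lemma repr_inv (N N' : J) (hN : ∀ x ∈ N'.vars, x.2 ≤ j) (h : N * N' = muJ) : Repr j fun K _ δ v => (jev δ v N)⁻¹ := by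
  refine ⟨1, N', hN, fun K _ _ δ v hv => ?_⟩
  rw [← h, map_mul] at hv
  rw [← h, map_mul, pow_one]
  have h1 : jev δ v N ≠ 0 := left_ne_zero_of_mul hv
  rw [mul_comm, ← mul_assoc, inv_mul_cancel₀ h1, one_mul]

end Pool.Agent.Lib.MP_3550b5_nt.AC
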