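import Mathlib
import Pool.Agent.Lib.MP_3550b5_nt.AC.UrA

/-!
PROJECT AC, block ADE: representation by universal differential polynomials.
-/

namespace Pool.Agent.Lib.MP_3550b5_nt.AC

open MvPolynomial SV

variable {i j : ℕ} {z w : ∀ (K : Type) [Field K], Dr K → (Fin 4 → K) → K}

private lemma mem_supp {j : ℕ} {N : J} :
    N ∈ supported ℤ {x : Fin 4 × ℕ | x.2 ≤ j} ↔ ∀ x ∈ N.vars, x.2 ≤ j := by
  rw [mem_supported]
  exact Iff.rfl

private lemma supp_mono {i j : ℕ} (h : i ≤ j) {N : J}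
    (hN : N ∈ supported ℤ {x : Fin 4 × ℕ | x.2 ≤ i}) :
    N ∈ supported ℤ {x : Fin 4 × ℕ | x.2 ≤ j} :=
  mem_supp.2 fun x hx => (mem_supp.1 hN x hx).trans h

private lemma dJ_X (x : Fin 4 × ℕ) : dJ (X x : J) = X (x.1, x.2 + 1) :=
  MvPolynomial.mkDerivation_X ℤ (fun x : Fin 4 × ℕ => (X (x.1, x.2 + 1) : J)) x

private lemma dJ_supp {j : ℕ} {N : J} (hN : N ∈ supported ℤ {x : Fin 4 × ℕ | x.2 ≤ j}) :
    dJ N ∈ supported ℤ {x : Fin 4 × ℕ | x.2 ≤ j + 1} := by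
  have key : N ∈ supported ℤ {x : Fin 4 × ℕ | x.2 ≤ j + 1} ∧
      dJ N ∈ supported ℤ {x : Fin 4 × ℕ | x.2 ≤ j + 1} := by
    refine ⟨supp_mono (Nat.le_succ j) hN, ?_⟩
    rw [supported_eq_adjoin_X] at hN
    refine (Algebra.adjoin_induction (p := fun q _ =>
      q ∈ supported ℤ {x : Fin 4 × ℕ | x.2 ≤ j + 1} ∧
        dJ q ∈ supported ℤ {x : Fin 4 × ℕ | x.2 ≤ j + 1}) ?_ ?_ ?_ ?_ hN).2
    · rintro _ ⟨x, hx, rfl⟩
      have hx' : x.2 ≤ j := hx
      refine ⟨X_mem_supported.2 ?_, ?_⟩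
      · show x.2 ≤ j + 1
        omega
      · rw [dJ_X]
        refine X_mem_supported.2 ?_
        show x.2 + 1 ≤ j + 1
        omega
    · intro r
      refine ⟨Subalgebra.algebraMap_mem _ r, ?_⟩
      have h0 : dJ (algebraMap ℤ J r) = 0 := by
        have h1 : algebraMap ℤ J r = r • (1 : J) := by
          rw [Algebra.algebraMap_eq_smul_one]
        rw [h1, map_zsmul, dJ.map_one_eq_zero, smul_zero]
      rw [h0]
      exact zero_mem _
    · intro p q _ _ hp hq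
      refine ⟨add_mem hp.1 hq.1, ?_⟩
      rw [map_add]
      exact add_mem hp.2 hq.2
    · intro p q _ _ hp hq
      refine ⟨mul_mem hp.1 hq.1, ?_⟩
      rw [dJ.leibniz, smul_eq_mul, smul_eq_mul]
      exact add_mem (mul_mem hp.1 hq.2) (mul_mem hq.1 hp.2)
  exact key.2

private lemma muJ_supp : muJ ∈ supported ℤ {x : Fin 4 × ℕ | x.2 ≤ 1} := by
  have hX : ∀ (i : Fin 4) (n : ℕ), n ≤ 1 → (X (i, n) : J) ∈
      supported ℤ {x : Fin 4 × ℕ | x.2 ≤ 1} := fun i n hn => X_mem_supported.2 hn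
  have hn : ∀ n : ℕ, (n : J) ∈ supported ℤ {x : Fin 4 × ℕ | x.2 ≤ 1} := fun n =>
    natCast_mem _ n
  have h6 := hn 6
  have h4 := hn 4
  have h27 := hn 27
  have h3 := hn 3
  have h2 := hn 2
  push_cast at h6 h4 h27 h3 h2
  unfold muJ
  refine mul_mem (mul_mem (mul_mem (mul_mem h6 (add_mem (mul_mem h4 ?_) (mul_mem h27 ?_)))
    (sub_mem (mul_mem (mul_mem h3 ?_) ?_) (mul_mem (mul_mem h2 ?_) ?_))) ?_)
    (add_mem (add_mem ?_ (mul_mem (mul_mem ?_ ?_) ?_)) (mul_mem ?_ ?_))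
  · exact pow_mem (hX 3 0 (by omega)) _
  · exact pow_mem (hX 0 0 (by omega)) _
  · exact hX 0 0 (by omega)
  · exact hX 3 1 (by omega)
  · exact hX 3 0 (by omega)
  · exact hX 0 1 (by omega)
  · exact hX 1 0 (by omega)
  · exact pow_mem (hX 2 0 (by omega)) _
  · exact hX 3 0 (by omega)
  · exact hX 2 0 (by omega)
  · exact pow_mem (hX 1 0 (by omega)) _
  · exact hX 0 0 (by omega)
  · exact pow_mem (hX 1 0 (by omega)) _

/-- DERIVATIVES. PROOF. From `mu^n z = N`: `mu^(n+1) z' = mu N' - n mu' N` (`jev_dJ`); `vars` of `dJ N`: the order increases by at most one. -/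
theorem Repr.der (hj : 1 ≤ j) (hz : Repr j z) : Repr (j + 1) fun K _ δ v => δ (z K δ v) := by
  obtain ⟨n, N, hN, h⟩ := hz
  have hN' := mem_supp.2 hN
  refine ⟨n + 1, muJ * dJ N - (n : J) * dJ muJ * N, mem_supp.1 ?_, ?_⟩
  · refine sub_mem (mul_mem (supp_mono (by omega) muJ_supp) (dJ_supp hN'))
      (mul_mem (mul_mem (natCast_mem _ n) (supp_mono (by omega) (dJ_supp muJ_supp)))
        (supp_mono (by omega) hN'))
  · intro K _ _ δ v hmu
    have e := h K δ v hmu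
    have e' : δ (jev δ v muJ ^ n * z K δ v) = jev δ v (dJ N) := by rw [e, jev_dJ]
    rw [δ.leibniz, smul_eq_mul, smul_eq_mul] at e'
    have hp : jev δ v muJ * δ (jev δ v muJ ^ n) = n * jev δ v muJ ^ n * δ (jev δ v muJ) := by
      rw [δ.leibniz_pow, smul_eq_mul, nsmul_eq_mul]
      rcases n with _ | n
      · simp
      · rw [Nat.add_sub_cancel]
        ring
    simp only [map_sub, map_mul, map_natCast]
    rw [jev_dJ δ v muJ, ← e, ← e']
    linear_combination (-z K δ v) * hp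

end Pool.Agent.Lib.MP_3550b5_nt.AC
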