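import Mathlib
import Pool.Agent.Lib.MP_3550b5_nt.AC.UrB

/-!
PROJECT AC, block ADE: representation by universal differential polynomials.
-/

namespace Pool.Agent.Lib.MP_3550b5_nt.AC

open MvPolynomial SV

variable {i j : ℕ} {z w : ∀ (K : Type) [Field K], Dr K → (Fin 4 → K) → K}

/-- the differential polynomials of order at most one -/
private noncomputable abbrev urS : Subalgebra ℤ J := supported ℤ {x : Fin 4 × ℕ | x.2 ≤ 1}

private lemma urS_vars {N : J} (h : N ∈ urS) : ∀ x ∈ N.vars, x.2 ≤ 1 := by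
  intro x hx
  exact (mem_supported.1 h) hx

private lemma urS_X0 (i : Fin 4) : (X (i, 0) : J) ∈ urS :=
  X_mem_supported.2 (by simp)

private lemma urS_X1 (i : Fin 4) : (X (i, 1) : J) ∈ urS :=
  X_mem_supported.2 (by simp)

private lemma urS_num (n : ℕ) [n.AtLeastTwo] : (OfNat.ofNat n : J) ∈ urS := by
  have h : ((n : ℕ) : J) ∈ urS := natCast_mem urS n
  rwa [← Nat.cast_ofNat (R := J)]

private noncomputable def urDl : J := 4 * X (3, 0) ^ 3 + 27 * X (0, 0) ^ 2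

private noncomputable def urWr : J := 3 * X (0, 0) * X (3, 1) - 2 * X (3, 0) * X (0, 1)

private noncomputable def urB : J :=
  X (2, 0) ^ 3 + X (3, 0) * X (2, 0) * X (1, 0) ^ 4 + X (0, 0) * X (1, 0) ^ 6

private noncomputable def urG : J :=
  12 * X (3, 0) ^ 2 * X (3, 1) + 54 * X (0, 0) * X (0, 1)

private lemma urDl_mem : urDl ∈ urS :=
  add_mem (mul_mem (urS_num 4) (pow_mem (urS_X0 3) 3)) (mul_mem (urS_num 27) (pow_mem (urS_X0 0) 2))

private lemma urWr_mem : urWr ∈ urS :=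
  sub_mem (mul_mem (mul_mem (urS_num 3) (urS_X0 0)) (urS_X1 3))
    (mul_mem (mul_mem (urS_num 2) (urS_X0 3)) (urS_X1 0))

private lemma urB_mem : urB ∈ urS :=
  add_mem (add_mem (pow_mem (urS_X0 2) 3)
    (mul_mem (mul_mem (urS_X0 3) (urS_X0 2)) (pow_mem (urS_X0 1) 4)))
    (mul_mem (urS_X0 0) (pow_mem (urS_X0 1) 6))

private lemma urG_mem : urG ∈ urS :=
  add_mem (mul_mem (mul_mem (urS_num 12) (pow_mem (urS_X0 3) 2)) (urS_X1 3))
    (mul_mem (mul_mem (urS_num 54) (urS_X0 0)) (urS_X1 0))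

private lemma ur_mu : muJ = 6 * urDl * urWr * X (1, 0) * urB := rfl

section ev

variable {K : Type} [Field K] (δ : Dr K) (v : Fin 4 → K)

private lemma ur_X0 (i : Fin 4) : jev δ v (X (i, 0)) = v i := by
  show eval₂Hom (Int.castRingHom K) (fun x : Fin 4 × ℕ => δ^[x.2] (v x.1)) (X (i, 0)) = v i
  rw [eval₂Hom_X']
  rfl

private lemma ur_X1 (i : Fin 4) : jev δ v (X (i, 1)) = δ (v i) := by
  show eval₂Hom (Int.castRingHom K) (fun x : Fin 4 × ℕ => δ^[x.2] (v x.1)) (X (i, 1)) = δ (v i)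
  rw [eval₂Hom_X']
  rfl

private lemma ur_dl : jev δ v urDl = dl (v 3) (v 0) := by
  unfold urDl dl
  rw [map_add, map_mul, map_mul, map_pow, map_pow, ur_X0, ur_X0, map_ofNat, map_ofNat]

private lemma ur_wr : jev δ v urWr = wr δ (v 3) (v 0) := by
  unfold urWr wr
  rw [map_sub, map_mul, map_mul, map_mul, map_mul, ur_X0, ur_X0, ur_X1, ur_X1, map_ofNat,
    map_ofNat]

private lemma ur_B : jev δ v urB = v 2 ^ 3 + v 3 * v 2 * v 1 ^ 4 + v 0 * v 1 ^ 6 := by
  unfold urB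
  simp only [map_add, map_mul, map_pow, ur_X0]

private lemma ur_G : jev δ v urG = δ (dl (v 3) (v 0)) := by
  have h4 : δ (4 : K) = 0 := by
    have h := δ.map_natCast 4
    simpa using h
  have h27 : δ (27 : K) = 0 := by
    have h := δ.map_natCast 27
    simpa using h
  unfold urG dl
  simp only [map_add, map_mul, map_pow, ur_X0, ur_X1, map_ofNat, Derivation.leibniz,
    Derivation.leibniz_pow, h4, h27, smul_eq_mul, nsmul_eq_mul, mul_zero, add_zero]
  push_cast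
  ring

private lemma ur_v1 (h : jev δ v muJ ≠ 0) : v 1 ≠ 0 := by
  intro h0
  apply h
  rw [jev_muJ, h0]
  ring

end ev

/-- `k1`, `1 / k1`, `g1`, `x`, `Y`, `1 / Y`. PROOF. `k1 = 3 wr / (2 dl)`, `g1 = dl' / (12 dl)`, `x = A D^(-2)`, `Y = BB D^(-6)`, `1/Y = D^6 / BB`; the rational constants
`1/2`, `1/3` are `repr_inv` (`6 ∣ mu`). -/
theorem repr_base : Repr 1 (fun K _ δ v => k1 δ (v 3) (v 0)) ∧ Repr 1 (fun K _ δ v => (k1 δ (v 3) (v 0))⁻¹) ∧
    Repr 1 (fun K _ δ v => g1 δ (v 3) (v 0)) ∧ Repr 1 (fun K _ _ v => fx v) ∧ Repr 1 (fun K _ _ v => fY v) ∧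
    Repr 1 (fun K _ _ v => (fY v)⁻¹) ∧ Repr 1 (fun K _ _ v => (v 1)⁻¹) ∧ Repr 1 (fun K _ _ _ => (2 : K)⁻¹) ∧
    Repr 1 (fun K _ _ _ => (3 : K)⁻¹) := by
  have i2 : Repr 1 (fun K _ _ _ => (2 : K)⁻¹) := by
    refine (repr_inv (j := 1) 2 (3 * urDl * urWr * X (1, 0) * urB) (urS_vars ?_) ?_).congr ?_
    · exact mul_mem (mul_mem (mul_mem (mul_mem (urS_num 3) urDl_mem) urWr_mem) (urS_X0 1)) urB_mem
    · rw [ur_mu]
      ring
    · intro K _ _ δ v _
      rw [map_ofNat]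
  have i3 : Repr 1 (fun K _ _ _ => (3 : K)⁻¹) := by
    refine (repr_inv (j := 1) 3 (2 * urDl * urWr * X (1, 0) * urB) (urS_vars ?_) ?_).congr ?_
    · exact mul_mem (mul_mem (mul_mem (mul_mem (urS_num 2) urDl_mem) urWr_mem) (urS_X0 1)) urB_mem
    · rw [ur_mu]
      ring
    · intro K _ _ δ v _
      rw [map_ofNat]
  have iD : Repr 1 (fun K _ _ v => (v 1)⁻¹) := by
    refine (repr_inv (j := 1) (X (1, 0)) (6 * urDl * urWr * urB) (urS_vars ?_) ?_).congr ?_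
    · exact mul_mem (mul_mem (mul_mem (urS_num 6) urDl_mem) urWr_mem) urB_mem
    · rw [ur_mu]
      ring
    · intro K _ _ δ v _
      rw [ur_X0]
  have idl : Repr 1 (fun K _ _ v => (dl (v 3) (v 0))⁻¹) := by
    refine (repr_inv (j := 1) urDl (6 * urWr * X (1, 0) * urB) (urS_vars ?_) ?_).congr ?_
    · exact mul_mem (mul_mem (mul_mem (urS_num 6) urWr_mem) (urS_X0 1)) urB_mem
    · rw [ur_mu]
      ring
    · intro K _ _ δ v _
      rw [ur_dl]
  have iwr : Repr 1 (fun K _ δ v => (wr δ (v 3) (v 0))⁻¹) := by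
    refine (repr_inv (j := 1) urWr (6 * urDl * X (1, 0) * urB) (urS_vars ?_) ?_).congr ?_
    · exact mul_mem (mul_mem (mul_mem (urS_num 6) urDl_mem) (urS_X0 1)) urB_mem
    · rw [ur_mu]
      ring
    · intro K _ _ δ v _
      rw [ur_wr]
  have iB : Repr 1 (fun K _ _ v => (v 2 ^ 3 + v 3 * v 2 * v 1 ^ 4 + v 0 * v 1 ^ 6)⁻¹) := by
    refine (repr_inv (j := 1) urB (6 * urDl * urWr * X (1, 0)) (urS_vars ?_) ?_).congr ?_
    · exact mul_mem (mul_mem (mul_mem (urS_num 6) urDl_mem) urWr_mem) (urS_X0 1)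
    · rw [ur_mu]
      ring
    · intro K _ _ δ v _
      rw [ur_B]
  have rX : ∀ i : Fin 4, Repr 1 (fun K _ _ v => v i) := fun i =>
    (repr_jev (j := 1) (X (i, 0)) (urS_vars (urS_X0 i))).congr fun K _ _ δ v _ => ur_X0 δ v i
  have r3wr : Repr 1 (fun K _ δ v => 3 * wr δ (v 3) (v 0)) :=
    (repr_jev (j := 1) (3 * urWr) (urS_vars (mul_mem (urS_num 3) urWr_mem))).congr
      fun K _ _ δ v _ => by rw [map_mul, map_ofNat, ur_wr]
  have r2dl : Repr 1 (fun K _ _ v => 2 * dl (v 3) (v 0)) :=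
    (repr_jev (j := 1) (2 * urDl) (urS_vars (mul_mem (urS_num 2) urDl_mem))).congr
      fun K _ _ δ v _ => by rw [map_mul, map_ofNat, ur_dl]
  have rG : Repr 1 (fun K _ δ v => δ (dl (v 3) (v 0))) :=
    (repr_jev (j := 1) urG (urS_vars urG_mem)).congr fun K _ _ δ v _ => ur_G δ v
  have rx : Repr 1 (fun K _ _ v => fx v) :=
    (((rX 2).mul iD).mul iD).congr fun K _ _ δ v _ => by
      unfold fx
      rw [div_eq_mul_inv, pow_two, mul_inv, mul_assoc]
  have rY : Repr 1 (fun K _ _ v => fY v) :=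
    (((rx.pow le_rfl 3).add le_rfl ((rX 3).mul rx)).add le_rfl (rX 0)).congr
      fun K _ _ δ v _ => rfl
  refine ⟨?_, ?_, ?_, rx, rY, ?_, iD, i2, i3⟩
  · exact (r3wr.mul (i2.mul idl)).congr fun K _ _ δ v _ => by
      unfold k1
      rw [div_eq_mul_inv, mul_inv]
  · exact (r2dl.mul (i3.mul iwr)).congr fun K _ _ δ v _ => by
      unfold k1
      rw [inv_div, div_eq_mul_inv, mul_inv]
  · exact (rG.mul (((i2.mul i2).mul i3).mul idl)).congr fun K _ _ δ v _ => by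
      unfold g1
      rw [div_eq_mul_inv, mul_inv]
      have h12 : (12 : K)⁻¹ = 2⁻¹ * 2⁻¹ * 3⁻¹ := by
        rw [← mul_inv, ← mul_inv]
        norm_num
      rw [h12]
  · exact (((rX 1).pow le_rfl 6).mul iB).congr fun K _ _ δ v hv => by
      have h1 : v 1 ≠ 0 := ur_v1 δ v hv
      have h2 : fY v = (v 2 ^ 3 + v 3 * v 2 * v 1 ^ 4 + v 0 * v 1 ^ 6) / v 1 ^ 6 := by
        unfold fY fx
        field_simp
      rw [h2, inv_div, div_eq_mul_inv]

end Pool.Agent.Lib.MP_3550b5_nt.AC
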