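import Mathlib
import Pool.Agent.Lib.MP_3550b5_nt.AC.UrC

/-!
PROJECT AC, block ADE: representation by universal differential polynomials.
-/

namespace Pool.Agent.Lib.MP_3550b5_nt.AC

open MvPolynomial SV

variable {i j : ℕ} {z w : ∀ (K : Type) [Field K], Dr K → (Fin 4 → K) → K}

private lemma urD_nat (n : ℕ) : Repr 1 (fun K _ _ _ => (n : K)) := by
  refine Repr.congr (repr_jev (j := 1) (C (n : ℤ)) ?_) ?_
  · intro x hx
    rw [vars_C] at hx
    simp at hx
  · intro K _ _ δ v _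
    simp [jev]

private lemma urD_var (i : Fin 4) (m : ℕ) (hm : m ≤ 1) :
    Repr 1 (fun K _ δ v => δ^[m] (v i)) := by
  refine Repr.congr (repr_jev (j := 1) (X (i, m)) ?_) ?_
  · intro x hx
    rw [vars_X, Finset.mem_singleton] at hx
    rw [hx]
    exact hm
  · intro K _ _ δ v _
    simp [jev]

private lemma urD_fx {K : Type} [Field K] (δ : Dr K) (v : Fin 4 → K) (h : v 1 ≠ 0) :
    δ (fx v) = δ (v 2) * (v 1)⁻¹ ^ 2 - 2 * v 2 * (δ (v 1) * (v 1)⁻¹ ^ 3) := by
  unfold fx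
  rw [Derivation.leibniz_div, Derivation.leibniz_pow]
  simp only [smul_eq_mul, nsmul_eq_mul]
  field_simp
  ring

private lemma urD_ne {K : Type} [Field K] (δ : Dr K) (v : Fin 4 → K)
    (h : jev δ v muJ ≠ 0) : v 1 ≠ 0 := by
  intro h0
  apply h
  rw [jev_muJ, h0]
  ring

/-- PROOF. `δ x` has order `1`: `δ (A/D^2) = (A' D - 2 A D') / D^3` (not `Repr.der`). -/
theorem repr_om : Repr 1 (fun K _ δ v => fom δ v) ∧ Repr 1 (fun K _ δ v => frr δ v) := by
  obtain ⟨hk, hki, hg, hx, hY, hYi, hDi, h2, h3⟩ := repr_base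
  have hn : ∀ n : ℕ, Repr 1 (fun K _ _ _ => (n : K)) := urD_nat
  have hD1 : Repr 1 (fun K _ δ v => δ (v 1)) := urD_var 1 1 le_rfl
  have hA1 : Repr 1 (fun K _ δ v => δ (v 2)) := urD_var 2 1 le_rfl
  have hA : Repr 1 (fun K _ _ v => v 2) := urD_var 2 0 zero_le_one
  have ha : Repr 1 (fun K _ _ v => v 3) := urD_var 3 0 zero_le_one
  have hdx : Repr 1 (fun K _ δ v => δ (fx v)) := by
    refine Repr.congr ((hA1.mul (hDi.pow le_rfl 2)).sub le_rfl
      (((hn 2).mul hA).mul (hD1.mul (hDi.pow le_rfl 3)))) ?_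
    intro K _ _ δ v h
    rw [urD_fx δ v (urD_ne δ v h)]
    push_cast
    ring
  have hom : Repr 1 (fun K _ δ v => fom δ v) := by
    refine Repr.congr ((((hdx.sub le_rfl (((hn 2).mul hk).mul (hx.pow le_rfl 2))).sub le_rfl
      (((hn 2).mul hg).mul hx)).sub le_rfl ((((hn 4).mul hk).mul ha).mul h3)).mul
      (h2.mul hYi)) ?_
    intro K _ _ δ v _
    unfold fom
    simp only [div_eq_mul_inv, mul_inv]
    push_cast
    ring
  refine ⟨hom, ?_⟩
  refine Repr.congr ((((((hom.pow le_rfl 2).mul hY).mul hki).sub le_rfl (hk.mul hx)).sub le_rfl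
    ((hn 2).mul hg)).sub le_rfl ((((hn 2).mul hD1).mul hDi)) |>.mul hki) ?_
  intro K _ _ δ v _
  unfold frr
  simp only [div_eq_mul_inv]
  push_cast
  ring

end Pool.Agent.Lib.MP_3550b5_nt.AC
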