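import Mathlib
import Pool.Agent.Lib.MP_3550b5_nt.AC.UrD

/-!
PROJECT AC, block ADE: representation by universal differential polynomials.
-/

namespace Pool.Agent.Lib.MP_3550b5_nt.AC

open MvPolynomial SV

variable {i j : ℕ} {z w : ∀ (K : Type) [Field K], Dr K → (Fin 4 → K) → K}

/-- PROOF. The closure properties; `Repr.der` for `fom / k1`, `fY`. -/
theorem repr_tau : Repr 2 (fun K _ δ v => ftau δ v) ∧ Repr 2 (fun K _ δ v => fT2 δ v) := by
  have h12 : 1 ≤ 2 := one_le_two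
  obtain ⟨hk, hki, hg, hx, hY, hYi, -, h2, -⟩ := repr_base
  have hom : Repr 1 (fun K _ δ v => fom δ v) := repr_om.1
  have hq : Repr 1 (fun K _ δ v => fom δ v / k1 δ (v 3) (v 0)) :=
    (hom.mul hki).congr fun K _ _ δ v _ => (div_eq_mul_inv _ _).symm
  have hdY : Repr 2 (fun K _ δ v => δ (fY v)) := hY.der le_rfl
  have hdq : Repr 2 (fun K _ δ v => δ (fom δ v / k1 δ (v 3) (v 0))) := hq.der le_rfl
  have hq2 := hq.mono h12
  have ht : Repr 2 (fun K _ δ v => ftau δ v) := by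
    refine Repr.congr (((((hg.mono h12).mul hq2).sub h12 ((hx.mono h12).mul (hom.mono h12))).sub
      h12 (hk.mono h12)).sub h12 (((hdY.mul ((h2.mono h12).mul (hYi.mono h12))).mul hq2).add
        h12 hdq)) fun K _ _ δ v _ => ?_
    change _ = ftau δ v
    rw [ftau, div_eq_mul_inv (δ (fY v)) (2 * fY v), mul_inv (2 : K) (fY v)]
  exact ⟨ht, ((hY.mono h12).mul (ht.pow h12 2)).congr fun K _ _ δ v _ => rfl⟩

end Pool.Agent.Lib.MP_3550b5_nt.AC
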