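import Mathlib
import Pool.Agent.Lib.MP_3550b5_nt.AC.UrE

/-!
PROJECT AC, block ADE: representation by universal differential polynomials.
-/

namespace Pool.Agent.Lib.MP_3550b5_nt.AC

open MvPolynomial SV

variable {i j : ℕ} {z w : ∀ (K : Type) [Field K], Dr K → (Fin 4 → K) → K}

private lemma ur_int (c : ℤ) : Repr 1 fun K _ _ _ => ((c : ℤ) : K) := by
  refine (repr_jev (j := 1) (C c) ?_).congr fun K _ _ δ v _ => ?_
  · intro x hx
    rw [vars_C] at hx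
    exact absurd hx (Finset.notMem_empty x)
  · rw [jev, coe_eval₂Hom, eval₂_C]
    rfl

private lemma ur_var (i : Fin 4) : Repr 1 fun K _ _ v => v i := by
  refine (repr_jev (j := 1) (X (i, 0)) ?_).congr fun K _ _ δ v _ => ?_
  · intro x hx
    rw [vars_X] at hx
    rw [Finset.mem_singleton.1 hx]
    exact Nat.zero_le 1
  · rw [jev, coe_eval₂Hom, eval₂_X]
    rfl

theorem repr_EE : Repr 3 (fun K _ δ v => fEE δ v) := by
  obtain ⟨hk, hki, hg, _, hY, hYi, _, h2, h3⟩ := repr_base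
  obtain ⟨_, hr⟩ := repr_om
  obtain ⟨hT, _⟩ := repr_tau
  have ha : Repr 1 fun K _ _ v => v 3 := ur_var 3
  have hc2 : Repr 1 fun K _ _ _ => (2 : K) :=
    (ur_int 2).congr fun K _ _ δ v _ => by norm_num
  have hc3 : Repr 1 fun K _ _ _ => (3 : K) :=
    (ur_int 3).congr fun K _ _ δ v _ => by norm_num
  -- level two
  have s2 : Repr 2 fun K _ δ v => fs δ v := by
    have h1 : Repr 2 fun K _ δ v => ftau δ v * (k1 δ (v 3) (v 0))⁻¹ :=
      hT.mul (hki.mono (by norm_num))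
    exact h1.congr fun K _ _ δ v _ => by rw [fs, div_eq_mul_inv]
  have dr2 : Repr 2 fun K _ δ v => δ (frr δ v) := hr.der le_rfl
  have dY2 : Repr 2 fun K _ δ v => δ (fY v) := hY.der le_rfl
  have q2 : Repr 2 fun K _ δ v => fq δ v := by
    have h4 : Repr 1 fun K _ δ v => (2 : K) * g1 δ (v 3) (v 0) := hc2.mul hg
    have h5 : Repr 2 fun K _ δ v => (2 : K) * g1 δ (v 3) (v 0) * frr δ v :=
      (h4.mul hr).mono (by norm_num)
    have h6 : Repr 2 fun K _ δ v => δ (frr δ v) - (2 : K) * g1 δ (v 3) (v 0) * frr δ v :=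
      Repr.sub (by norm_num) dr2 h5
    have h7 : Repr 2 fun K _ δ v => (2 : K)⁻¹ * (k1 δ (v 3) (v 0))⁻¹ :=
      (h2.mul hki).mono (by norm_num)
    have h8 : Repr 2 fun K _ δ v => (δ (frr δ v) - (2 : K) * g1 δ (v 3) (v 0) * frr δ v) *
        ((2 : K)⁻¹ * (k1 δ (v 3) (v 0))⁻¹) := h6.mul h7
    exact h8.congr fun K _ _ δ v _ => by rw [fq, div_eq_mul_inv, mul_inv]
  -- level three
  have hk' : Repr 3 fun K _ δ v => k1 δ (v 3) (v 0) := hk.mono (by norm_num)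
  have hg' : Repr 3 fun K _ δ v => g1 δ (v 3) (v 0) := hg.mono (by norm_num)
  have hY' : Repr 3 fun K _ _ v => fY v := hY.mono (by norm_num)
  have hYi' : Repr 3 fun K _ _ v => (fY v)⁻¹ := hYi.mono (by norm_num)
  have h2' : Repr 3 fun K _ _ _ => (2 : K)⁻¹ := h2.mono (by norm_num)
  have h3' : Repr 3 fun K _ _ _ => (3 : K)⁻¹ := h3.mono (by norm_num)
  have ha' : Repr 3 fun K _ _ v => v 3 := ha.mono (by norm_num)
  have hc2' : Repr 3 fun K _ _ _ => (2 : K) := hc2.mono (by norm_num)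
  have hc3' : Repr 3 fun K _ _ _ => (3 : K) := hc3.mono (by norm_num)
  have hr' : Repr 3 fun K _ δ v => frr δ v := hr.mono (by norm_num)
  have dr' : Repr 3 fun K _ δ v => δ (frr δ v) := dr2.mono (by norm_num)
  have dY' : Repr 3 fun K _ δ v => δ (fY v) := dY2.mono (by norm_num)
  have hs' : Repr 3 fun K _ δ v => fs δ v := s2.mono (by norm_num)
  have ds' : Repr 3 fun K _ δ v => δ (fs δ v) := s2.der (by norm_num)
  have hq' : Repr 3 fun K _ δ v => fq δ v := q2.mono (by norm_num)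
  have dq' : Repr 3 fun K _ δ v => δ (fq δ v) := q2.der (by norm_num)
  have one3 : 1 ≤ 3 := by norm_num
  have B0 : Repr 3 fun K _ δ v => fB0 δ v := by
    have t1 : Repr 3 fun K _ δ v => δ (fq δ v) * frr δ v := dq'.mul hr'
    have t2 : Repr 3 fun K _ δ v => fq δ v * δ (frr δ v) := hq'.mul dr'
    have t3 : Repr 3 fun K _ δ v => k1 δ (v 3) (v 0) * fq δ v ^ 2 := hk'.mul (hq'.pow one3 2)
    have t4a : Repr 3 fun K _ δ v => fY v * fs δ v ^ 2 := hY'.mul (hs'.pow one3 2)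
    have t4b : Repr 3 fun K _ δ v => k1 δ (v 3) (v 0) * (fY v * fs δ v ^ 2) := hk'.mul t4a
    have t4 : Repr 3 fun K _ δ v => k1 δ (v 3) (v 0) * (fY v * fs δ v ^ 2) * frr δ v :=
      t4b.mul hr'
    have t5a : Repr 3 fun K _ δ v => (2 : K) * g1 δ (v 3) (v 0) := hc2'.mul hg'
    have t5b : Repr 3 fun K _ δ v => (2 : K) * g1 δ (v 3) (v 0) * fq δ v := t5a.mul hq'
    have t5 : Repr 3 fun K _ δ v => (2 : K) * g1 δ (v 3) (v 0) * fq δ v * frr δ v := t5b.mul hr'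
    have t6a : Repr 3 fun K _ δ v => k1 δ (v 3) (v 0) * v 3 := hk'.mul ha'
    have t6b : Repr 3 fun K _ δ v => k1 δ (v 3) (v 0) * v 3 * (3 : K)⁻¹ := t6a.mul h3'
    have t6 : Repr 3 fun K _ δ v => k1 δ (v 3) (v 0) * v 3 * (3 : K)⁻¹ * frr δ v ^ 2 :=
      t6b.mul (hr'.pow one3 2)
    have u1 : Repr 3 fun K _ δ v => δ (fq δ v) * frr δ v - fq δ v * δ (frr δ v) :=
      Repr.sub one3 t1 t2
    have u2 : Repr 3 fun K _ δ v => δ (fq δ v) * frr δ v - fq δ v * δ (frr δ v) -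
        k1 δ (v 3) (v 0) * fq δ v ^ 2 := Repr.sub one3 u1 t3
    have u3 : Repr 3 fun K _ δ v => δ (fq δ v) * frr δ v - fq δ v * δ (frr δ v) -
        k1 δ (v 3) (v 0) * fq δ v ^ 2 - k1 δ (v 3) (v 0) * (fY v * fs δ v ^ 2) * frr δ v :=
      Repr.sub one3 u2 t4
    have u4 : Repr 3 fun K _ δ v => δ (fq δ v) * frr δ v - fq δ v * δ (frr δ v) -
        k1 δ (v 3) (v 0) * fq δ v ^ 2 - k1 δ (v 3) (v 0) * (fY v * fs δ v ^ 2) * frr δ v -
        2 * g1 δ (v 3) (v 0) * fq δ v * frr δ v := Repr.sub one3 u3 t5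
    exact (Repr.add one3 u4 t6).congr fun K _ _ δ v _ => by rw [fB0, div_eq_mul_inv]
  have B1 : Repr 3 fun K _ δ v => fB1 δ v := by
    have t1 : Repr 3 fun K _ δ v => (2 : K)⁻¹ * (fY v)⁻¹ := h2'.mul hYi'
    have t2 : Repr 3 fun K _ δ v => δ (fY v) * ((2 : K)⁻¹ * (fY v)⁻¹) := dY'.mul t1
    have t3 : Repr 3 fun K _ δ v => δ (fY v) * ((2 : K)⁻¹ * (fY v)⁻¹) * fs δ v := t2.mul hs'
    have t4 : Repr 3 fun K _ δ v => δ (fs δ v) + δ (fY v) * ((2 : K)⁻¹ * (fY v)⁻¹) * fs δ v :=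
      Repr.add one3 ds' t3
    have t5 : Repr 3 fun K _ δ v =>
        -(δ (fs δ v) + δ (fY v) * ((2 : K)⁻¹ * (fY v)⁻¹) * fs δ v) := t4.neg
    have t6 : Repr 3 fun K _ δ v =>
        -(δ (fs δ v) + δ (fY v) * ((2 : K)⁻¹ * (fY v)⁻¹) * fs δ v) * frr δ v := t5.mul hr'
    have t7 : Repr 3 fun K _ _ _ => (3 : K) * (2 : K)⁻¹ := hc3'.mul h2'
    have t8 : Repr 3 fun K _ δ v => (3 : K) * (2 : K)⁻¹ * fs δ v := t7.mul hs'
    have t9 : Repr 3 fun K _ δ v => (3 : K) * (2 : K)⁻¹ * fs δ v * δ (frr δ v) := t8.mul dr'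
    exact (Repr.add one3 t6 t9).congr fun K _ _ δ v _ => by
      rw [fB1, div_eq_mul_inv, div_eq_mul_inv, mul_inv]
  have e1 : Repr 3 fun K _ δ v => fB0 δ v ^ 2 := B0.pow one3 2
  have e2 : Repr 3 fun K _ δ v => fY v * fB1 δ v ^ 2 := hY'.mul (B1.pow one3 2)
  have e3 : Repr 3 fun K _ δ v => frr δ v * (fY v * fB1 δ v ^ 2) := hr'.mul e2
  exact (Repr.sub one3 e1 e3).congr fun K _ _ δ v _ => by rw [fEE]

end Pool.Agent.Lib.MP_3550b5_nt.AC
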