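import Mathlib
import Pool.Agent.Lib.MP_3550b5_nt.AC.Fc
import Pool.Agent.Lib.MP_3550b5_nt.AC.Xp
import Pool.Agent.Lib.MP_3550b5_nt.AC.Sz
import Pool.Agent.Lib.MP_3550b5_nt.AC.Jm
import Pool.Agent.Lib.MP_3550b5_nt.AC.Jl
import Pool.Agent.Lib.MP_3550b5_nt.AC.Ur

/-!
PROJECT AC, block CLASS: the number of good points of one leaf.
-/

namespace Pool.Agent.Lib.MP_3550b5_nt.AC

open SV MvPolynomial

variable {p : ℕ} [hp : Fact p.Prime]

private lemma ClA_zero : nn (0 : Q3) = 0 := by
  simp [nn]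

private lemma ClA_sum (T : Finset ℕ) (f : ℕ → Q3) :
    nn (∑ i ∈ T, f i) ≤ ∑ i ∈ T, nn (f i) := by
  classical
  induction T using Finset.induction_on with
  | empty => simp [ClA_zero]
  | insert a T ha ih =>
    rw [Finset.sum_insert ha, Finset.sum_insert ha]
    exact (nn_add _ _).trans (Nat.add_le_add_left ih _)

private lemma ClA_nn (m : Fin 3 →₀ ℕ) (a : ℤ) : nn (monomial m a : Q3) = a.natAbs := by
  classical
  have h : (monomial m a : Q3).support ⊆ {m} := MvPolynomial.support_monomial_subset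
  unfold nn
  rw [Finset.sum_subset h (fun k _ hk => by rw [MvPolynomial.notMem_support_iff.mp hk]; rfl),
    Finset.sum_singleton, MvPolynomial.coeff_monomial, if_pos rfl]

private lemma ClA_dg (m : Fin 3 →₀ ℕ) (a : ℤ) (i : Fin 3) :
    (monomial m a : Q3).degreeOf i ≤ m i := by
  rw [MvPolynomial.degreeOf_le_iff]
  intro n hn
  have h1 := MvPolynomial.support_monomial_subset hn
  rw [Finset.mem_singleton] at h1
  rw [h1]

private lemma ClA_dgs (T : Finset ℕ) (f : ℕ → Q3) (i : Fin 3) {d : ℕ}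
    (h : ∀ k ∈ T, (f k).degreeOf i ≤ d) : (∑ k ∈ T, f k).degreeOf i ≤ d :=
  (MvPolynomial.degreeOf_sum_le i _ _).trans (Finset.sup_le h)

private lemma ClA_mon (j : Fin 3) (i k : ℕ) (a : ℤ) :
    em j (Polynomial.monomial k (Polynomial.monomial i a)) =
      monomial (Finsupp.single 0 i + Finsupp.single j k) a := by
  unfold em
  rw [Polynomial.coe_eval₂RingHom, Polynomial.eval₂_monomial, Polynomial.coe_eval₂RingHom,
    Polynomial.eval₂_monomial, MvPolynomial.X_pow_eq_monomial, MvPolynomial.X_pow_eq_monomial,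
    MvPolynomial.C_mul_monomial, MvPolynomial.monomial_mul, mul_one, mul_one]

private lemma ClA_eq (j : Fin 3) {Q : Polynomial (Polynomial ℤ)} {K w : ℕ} (h1 : Q.natDegree ≤ w)
    (h2 : ∀ n, (Q.coeff n).natDegree ≤ K) :
    em j Q = ∑ n ∈ Finset.range (w + 1), ∑ i ∈ Finset.range (K + 1),
      monomial (Finsupp.single 0 i + Finsupp.single j n) ((Q.coeff n).coeff i) := by
  have e := Polynomial.as_sum_range' Q (w + 1) (by omega)
  calc em j Q = em j (∑ n ∈ Finset.range (w + 1), Polynomial.monomial n (Q.coeff n)) := by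
        rw [← e]
    _ = _ := by
        rw [map_sum]
        refine Finset.sum_congr rfl fun n _ => ?_
        have e2 := Polynomial.as_sum_range' (Q.coeff n) (K + 1) (by have := h2 n; omega)
        calc em j (Polynomial.monomial n (Q.coeff n)) =
              em j (Polynomial.monomial n (∑ i ∈ Finset.range (K + 1),
                Polynomial.monomial i ((Q.coeff n).coeff i))) := by rw [← e2]
          _ = _ := by
              rw [map_sum, map_sum]
              exact Finset.sum_congr rfl fun i _ => ClA_mon j i n _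

private lemma ClA_single_le (j i : Fin 3) (n : ℕ) : (Finsupp.single j n : Fin 3 →₀ ℕ) i ≤ n := by
  by_cases h : i = j
  · rw [h, Finsupp.single_eq_same]
  · rw [Finsupp.single_eq_of_ne h]; exact Nat.zero_le _

/-- The size of `em j Q`. PROOF. `em j Q = ∑ n i, ((Q.coeff n).coeff i) (X 0)^i (X j)^n`, `nn ≤ (w + 1) (K + 1) 2^la`, `n + 1 ≤ 2^n`. -/
theorem Bd_em {j : Fin 3} (hj : j ≠ 0) {Q : Polynomial (Polynomial ℤ)} {K w la : ℕ} (h1 : Q.natDegree ≤ w)
    (h2 : ∀ n, (Q.coeff n).natDegree ≤ K) (h3 : ∀ i n, |(Q.coeff n).coeff i| ≤ 2 ^ la) {σ : ℕ} (hσ : K + w + la ≤ σ) :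
    Bd K w σ 1 (em j Q) := by
  have e := ClA_eq j h1 h2
  have hd : ∀ t : Fin 3, t ≠ 0 → (em j Q).degreeOf t ≤ 1 * w := by
    intro t ht
    rw [e, one_mul]
    refine ClA_dgs _ _ _ fun n hn => ClA_dgs _ _ _ fun i _ => (ClA_dg _ _ _).trans ?_
    rw [Finset.mem_range] at hn
    rw [Finsupp.add_apply, Finsupp.single_eq_of_ne ht, zero_add]
    exact (ClA_single_le j t n).trans (by omega)
  refine ⟨?_, hd 1 (by decide), hd 2 (by decide), ?_⟩
  · rw [e, one_mul]
    refine ClA_dgs _ _ _ fun n _ => ClA_dgs _ _ _ fun i hi => (ClA_dg _ _ _).trans ?_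
    rw [Finset.mem_range] at hi
    rw [Finsupp.add_apply, Finsupp.single_eq_same, Finsupp.single_eq_of_ne hj.symm, add_zero]
    omega
  · rw [e, one_mul]
    have hb : ∀ i n : ℕ, ((Q.coeff n).coeff i).natAbs ≤ 2 ^ la := by
      intro i n
      have h := h3 i n
      have h' : (((Q.coeff n).coeff i).natAbs : ℤ) ≤ ((2 ^ la : ℕ) : ℤ) := by
        rw [Int.natCast_natAbs]
        exact_mod_cast h
      exact_mod_cast h'
    calc nn (∑ n ∈ Finset.range (w + 1), ∑ i ∈ Finset.range (K + 1),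
          monomial (Finsupp.single 0 i + Finsupp.single j n) ((Q.coeff n).coeff i))
        ≤ ∑ n ∈ Finset.range (w + 1), ∑ i ∈ Finset.range (K + 1), 2 ^ la := by
          refine (ClA_sum _ _).trans (Finset.sum_le_sum fun n _ => ?_)
          refine (ClA_sum _ _).trans (Finset.sum_le_sum fun i _ => ?_)
          rw [ClA_nn]
          exact hb i n
      _ = (w + 1) * ((K + 1) * 2 ^ la) := by
          rw [Finset.sum_const, Finset.sum_const, Finset.card_range, Finset.card_range,
            smul_eq_mul, smul_eq_mul]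
      _ ≤ 2 ^ w * (2 ^ K * 2 ^ la) := by
          refine Nat.mul_le_mul (Nat.lt_two_pow_self) ?_
          exact Nat.mul_le_mul_right _ (Nat.lt_two_pow_self)
      _ = 2 ^ (K + w + la) := by
          rw [pow_add, pow_add]
          ring
      _ ≤ 2 ^ σ := Nat.pow_le_pow_right (by norm_num) hσ

/-- `Ψ₀(b, D)` does not contain `A`, `Ψ₁(b, A)` does not contain `D`. -/
lemma pderiv_em_ne {i j : Fin 3} (hi : i ≠ 0) (hij : i ≠ j) (Q : Polynomial (Polynomial ℤ)) : pderiv i (em j Q) = 0 := by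
  have h2 : ∀ n, (Q.coeff n).natDegree ≤ (Finset.range (Q.natDegree + 1)).sup
      (fun n => (Q.coeff n).natDegree) := by
    intro n
    by_cases hn : n ≤ Q.natDegree
    · exact Finset.le_sup (f := fun n => (Q.coeff n).natDegree)
        (Finset.mem_range.mpr (Nat.lt_succ_of_le hn))
    · rw [Polynomial.coeff_eq_zero_of_natDegree_lt (not_le.mp hn), Polynomial.natDegree_zero]
      exact Nat.zero_le _
  rw [ClA_eq j le_rfl h2, map_sum]
  refine Finset.sum_eq_zero fun n _ => ?_
  rw [map_sum]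
  refine Finset.sum_eq_zero fun k _ => ?_
  rw [MvPolynomial.pderiv_monomial, Finsupp.add_apply, Finsupp.single_eq_of_ne hi,
    Finsupp.single_eq_of_ne hij, add_zero, Nat.cast_zero, mul_zero, MvPolynomial.monomial_zero]

end Pool.Agent.Lib.MP_3550b5_nt.AC
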