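import Mathlib
import Pool.Agent.Lib.MP_3550b5_nt.AC.ClA

/-!
PROJECT AC, block CLASS: the number of good points of one leaf.
-/

namespace Pool.Agent.Lib.MP_3550b5_nt.AC

open SV MvPolynomial

variable {p : ℕ} [hp : Fact p.Prime]

/-- The data of the auxiliary polynomials. -/
structure PsB (k₀ l T : ℕ) (Q : Polynomial (Polynomial ℤ)) : Prop where
  deg : Q.natDegree ≤ k₀ * (T ^ 2 * l ^ 3)
  degc : ∀ i, (Q.coeff i).natDegree ≤ k₀ * (T ^ 3 * l ^ 2)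
  co : ∀ i n, |(Q.coeff n).coeff i| ≤ 2 ^ (k₀ * (T ^ 3 * l ^ 3))

/-- A UNIFORM PRECISION. PROOF. `c` from `Bd_jev` for `g`; `κ = k₀ T^3 l^2`, `ω = k₀ T^2 l^3`, `σ = (3 k₀ + p) T^3 l^3` (`Bd_em`; `p ≤ 2^p`, `|a| ≤ 2^T`),
`abs_eval_le_nn`: the value is less than `2^(C T^3 l^3)`, `C = c (7 k₀ + p) + 1`, and divisible by `p^(C T^3 l^3)` (`Int.eq_zero_of_abs_lt_dvd`). -/
theorem prec (p : ℕ) [Fact p.Prime] (k₀ : ℕ) (hk : 1 ≤ k₀) (g : J) : ∃ C : ℕ, 1 ≤ C ∧ ∀ (l T : ℕ) (a : ℤ), 1 ≤ l → 1 ≤ T → |a| ≤ 2 ^ T →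
    ∀ P₀ P₁ : Polynomial (Polynomial ℤ), PsB k₀ l T P₀ → PsB k₀ l T P₁ → ∀ u : Fin 3 → ℤ, |u 0| ≤ 2 ^ l → |u 1| ≤ 2 ^ T → |u 2| ≤ 4 ^ T →
      ∀ N : ℕ, C * (T ^ 3 * l ^ 3) ≤ N → (p : ℤ) ^ N ∣ eval u (jev (dL p (em 1 P₀) (em 2 P₁)) (vQ a) g) →
        eval u (jev (dL p (em 1 P₀) (em 2 P₁)) (vQ a) g) = 0 := by
  obtain ⟨c, hc, hcb⟩ := Bd_jev g
  have hp2 : 2 ≤ p := (Fact.out : p.Prime).two_le
  refine ⟨c * (7 * k₀ + p) + 1, by omega, ?_⟩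
  intro l T a hl hT ha P₀ P₁ h₀ h₁ u hu0 hu1 hu2 N hN hdvd
  have hM : 1 ≤ T ^ 3 * l ^ 3 := Nat.mul_pos (pow_pos hT 3) (pow_pos hl 3)
  obtain ⟨M, hMe⟩ : ∃ M : ℕ, M = T ^ 3 * l ^ 3 := ⟨_, rfl⟩
  have hTM : T ≤ M := by
    rw [hMe]
    calc T = T ^ 1 * 1 := by rw [pow_one, mul_one]
      _ ≤ T ^ 3 * l ^ 3 := Nat.mul_le_mul (Nat.pow_le_pow_right hT (by omega))
          (Nat.one_le_pow _ _ hl)
  have hκM : k₀ * (T ^ 3 * l ^ 2) ≤ k₀ * M := by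
    rw [hMe]
    exact Nat.mul_le_mul_left _ (Nat.mul_le_mul_left _ (Nat.pow_le_pow_right hl (by omega)))
  have hωM : k₀ * (T ^ 2 * l ^ 3) ≤ k₀ * M := by
    rw [hMe]
    exact Nat.mul_le_mul_left _ (Nat.mul_le_mul_right _ (Nat.pow_le_pow_right hT (by omega)))
  have hκ1 : 1 ≤ k₀ * (T ^ 3 * l ^ 2) := Nat.mul_pos hk (Nat.mul_pos (pow_pos hT 3) (pow_pos hl 2))
  have hω1 : 1 ≤ k₀ * (T ^ 2 * l ^ 3) := Nat.mul_pos hk (Nat.mul_pos (pow_pos hT 2) (pow_pos hl 3))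
  rw [← hMe] at hM hN
  obtain ⟨σ, hσ⟩ : ∃ σ : ℕ, σ = (3 * k₀ + p) * M := ⟨_, rfl⟩
  have hσe : σ = 3 * (k₀ * M) + p * M := by rw [hσ]; ring
  have hkM : M ≤ k₀ * M := Nat.le_mul_of_pos_left _ hk
  have hpM : p ≤ p * M := Nat.le_mul_of_pos_right _ hM
  have hσ1 : 1 ≤ σ := by omega
  have hpow : ∀ n : ℕ, n ≤ σ → n ≤ 2 ^ σ := fun n hn =>
    hn.trans Nat.lt_two_pow_self.le
  have hB0 : Bd (k₀ * (T ^ 3 * l ^ 2)) (k₀ * (T ^ 2 * l ^ 3)) σ 1 (em 1 P₀) :=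
    Bd_em (by decide) h₀.deg h₀.degc h₀.co (by rw [← hMe]; omega)
  have hB1 : Bd (k₀ * (T ^ 3 * l ^ 2)) (k₀ * (T ^ 2 * l ^ 3)) σ 1 (em 2 P₁) :=
    Bd_em (by decide) h₁.deg h₁.degc h₁.co (by rw [← hMe]; omega)
  have hpz : |(p : ℤ)| ≤ 2 ^ σ := by
    rw [abs_of_nonneg (Int.natCast_nonneg p)]
    exact_mod_cast hpow p (by omega)
  have haz : |a| ≤ 2 ^ σ := ha.trans (pow_le_pow_right₀ (by norm_num) (by omega))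
  have hB := hcb _ _ σ (p : ℤ) a (em 1 P₀) (em 2 P₁) hκ1 hω1 hσ1 (hpow _ (by omega))
    (hpow _ (by omega)) hpz haz hB0 hB1
  obtain ⟨F, hF⟩ : ∃ F : Q3, F = jev (dL p (em 1 P₀) (em 2 P₁)) (vQ a) g := ⟨_, rfl⟩
  rw [← hF] at hB hdvd ⊢
  have h1 := abs_eval_le_nn (v := u) hu0 hu1 hu2 hB.d0 hB.d1 hB.d2
  have h2 : (nn F : ℤ) ≤ 2 ^ (c * σ) := by exact_mod_cast hB.n
  have h3 : |eval u F| ≤ 2 ^ (c * (7 * k₀ + p) * M) := by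
    refine h1.trans ((mul_le_mul_of_nonneg_right h2 (by positivity)).trans (le_of_eq ?_))
    rw [← pow_add]
    congr 1
    rw [hσ, hMe]
    ring
  refine Int.eq_zero_of_abs_lt_dvd hdvd (lt_of_le_of_lt h3 ?_)
  have h4 : (2 : ℤ) ^ (c * (7 * k₀ + p) * M) < 2 ^ N := by
    refine pow_lt_pow_right₀ (by norm_num) (lt_of_lt_of_le ?_ hN)
    have h5 : (c * (7 * k₀ + p) + 1) * M = c * (7 * k₀ + p) * M + M := by ring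
    rw [h5]
    omega
  refine h4.trans_le (pow_le_pow_left₀ (by norm_num) ?_ N)
  exact_mod_cast hp2

end Pool.Agent.Lib.MP_3550b5_nt.AC
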