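import Mathlib
import Pool.Agent.Lib.MP_3550b5_nt.AC.ClB

/-!
PROJECT AC, block CLASS: the number of good points of one leaf.
-/

namespace Pool.Agent.Lib.MP_3550b5_nt.AC

open SV MvPolynomial

variable {p : ℕ} [hp : Fact p.Prime]

/-- Degrees of the universal polynomials. PROOF. `Bd_jev` as in `prec`. -/
theorem jev_deg (p : ℕ) [Fact p.Prime] (k₀ : ℕ) (hk : 1 ≤ k₀) (g : J) : ∃ c : ℕ, 1 ≤ c ∧ ∀ (l T : ℕ) (a : ℤ), 1 ≤ l → 1 ≤ T → |a| ≤ 2 ^ T →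
    ∀ P₀ P₁ : Polynomial (Polynomial ℤ), PsB k₀ l T P₀ → PsB k₀ l T P₁ →
      (jev (dL p (em 1 P₀) (em 2 P₁)) (vQ a) g).degreeOf 0 ≤ c * (T ^ 3 * l ^ 2) ∧
      (jev (dL p (em 1 P₀) (em 2 P₁)) (vQ a) g).degreeOf 1 ≤ c * (T ^ 2 * l ^ 3) ∧
      (jev (dL p (em 1 P₀) (em 2 P₁)) (vQ a) g).degreeOf 2 ≤ c * (T ^ 2 * l ^ 3) := by
  obtain ⟨c, hc, h⟩ := Bd_jev g
  refine ⟨c * k₀, Nat.mul_pos hc hk, ?_⟩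
  intro l T a hl hT ha P₀ P₁ hP₀ hP₁
  have e1 : T ^ 3 * l ^ 2 ≤ T ^ 3 * l ^ 3 :=
    Nat.mul_le_mul_left _ (Nat.pow_le_pow_right hl (by norm_num))
  have e2 : T ^ 2 * l ^ 3 ≤ T ^ 3 * l ^ 3 :=
    Nat.mul_le_mul_right _ (Nat.pow_le_pow_right hT (by norm_num))
  have e3 : 1 ≤ T ^ 3 * l ^ 2 := Nat.mul_pos (Nat.pow_pos hT) (Nat.pow_pos hl)
  have e4 : 1 ≤ T ^ 2 * l ^ 3 := Nat.mul_pos (Nat.pow_pos hT) (Nat.pow_pos hl)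
  have e5 : 1 ≤ T ^ 3 * l ^ 3 := Nat.mul_pos (Nat.pow_pos hT) (Nat.pow_pos hl)
  have e6 : T ≤ T ^ 3 * l ^ 3 := by
    calc T = T ^ 1 * 1 := by ring
      _ ≤ T ^ 3 * l ^ 3 := Nat.mul_le_mul (Nat.pow_le_pow_right hT (by norm_num)) (Nat.pow_pos hl)
  have k1 : k₀ * (T ^ 3 * l ^ 2) ≤ k₀ * (T ^ 3 * l ^ 3) := Nat.mul_le_mul_left _ e1
  have k2 : k₀ * (T ^ 2 * l ^ 3) ≤ k₀ * (T ^ 3 * l ^ 3) := Nat.mul_le_mul_left _ e2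
  have k3 : T ^ 3 * l ^ 3 ≤ k₀ * (T ^ 3 * l ^ 3) := Nat.le_mul_of_pos_left _ hk
  have k4 : p ≤ p * (T ^ 3 * l ^ 3) := Nat.le_mul_of_pos_right _ e5
  have hs : (3 * k₀ + p) * (T ^ 3 * l ^ 3) =
      3 * (k₀ * (T ^ 3 * l ^ 3)) + p * (T ^ 3 * l ^ 3) := by ring
  have hlt : ∀ n : ℕ, n ≤ 2 ^ n := fun n => Nat.lt_two_pow_self.le
  have hmon : ∀ {m n : ℕ}, m ≤ n → 2 ^ m ≤ 2 ^ n := fun hmn => Nat.pow_le_pow_right (by norm_num) hmn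
  have hb : ∀ (j : Fin 3), j ≠ 0 → ∀ Q : Polynomial (Polynomial ℤ), PsB k₀ l T Q →
      Bd (k₀ * (T ^ 3 * l ^ 2)) (k₀ * (T ^ 2 * l ^ 3)) ((3 * k₀ + p) * (T ^ 3 * l ^ 3)) 1
        (em j Q) := fun j hj Q hQ => Bd_em hj hQ.deg hQ.degc hQ.co (by omega)
  have hp' : |((p : ℕ) : ℤ)| ≤ 2 ^ ((3 * k₀ + p) * (T ^ 3 * l ^ 3)) := by
    rw [Nat.abs_cast]
    have h1 : p ≤ 2 ^ ((3 * k₀ + p) * (T ^ 3 * l ^ 3)) := (hlt p).trans (hmon (by omega))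
    exact_mod_cast h1
  have ha' : |a| ≤ 2 ^ ((3 * k₀ + p) * (T ^ 3 * l ^ 3)) :=
    ha.trans (pow_le_pow_right₀ (by norm_num) (by omega))
  have hB := h (k₀ * (T ^ 3 * l ^ 2)) (k₀ * (T ^ 2 * l ^ 3)) ((3 * k₀ + p) * (T ^ 3 * l ^ 3)) p a
    (em 1 P₀) (em 2 P₁) (Nat.mul_pos hk e3) (Nat.mul_pos hk e4) (by omega)
    ((hlt _).trans (hmon (by omega))) ((hlt _).trans (hmon (by omega))) hp' ha'
    (hb 1 (by decide) P₀ hP₀) (hb 2 (by decide) P₁ hP₁)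
  refine ⟨?_, ?_, ?_⟩
  · rw [mul_assoc]
    exact hB.d0
  · rw [mul_assoc]
    exact hB.d1
  · rw [mul_assoc]
    exact hB.d2

end Pool.Agent.Lib.MP_3550b5_nt.AC
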