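import Mathlib
import Pool.Agent.Lib.MP_3550b5_nt.AC.ClC

/-!
PROJECT AC, block CLASS: the number of good points of one leaf.
-/

namespace Pool.Agent.Lib.MP_3550b5_nt.AC

open SV MvPolynomial

variable {p : ℕ} [hp : Fact p.Prime]

private lemma clD_X0 {K : Type*} [CommRing K] (δ : Dr K) (v : Fin 4 → K) (i : Fin 4) :
    jev δ v (X (i, 0)) = v i := by
  unfold jev
  rw [coe_eval₂Hom, eval₂_X, Function.iterate_zero, id]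

private lemma clD_X1 {K : Type*} [CommRing K] (δ : Dr K) (v : Fin 4 → K) (i : Fin 4) :
    jev δ v (X (i, 1)) = δ (v i) := by
  unfold jev
  rw [coe_eval₂Hom, eval₂_X, Function.iterate_one]

/-- `mu` at a good point. -/
private lemma clD_mu {p : ℕ} [hp : Fact p.Prime] {a : ℤ} (ha : a ≠ 0) {Ψ₀ Ψ₁ : Q3} {u : Fin 3 → ℤ} (hu : Good a u)
    (h0 : eval u (pderiv 1 Ψ₀) ≠ 0) (h1 : eval u (pderiv 2 Ψ₁) ≠ 0) :
    eval u (jev (dL p Ψ₀ Ψ₁) (vQ a) muJ) ≠ 0 := by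
  have h3 : dL p Ψ₀ Ψ₁ (vQ a 3) = 0 := by
    change dL p Ψ₀ Ψ₁ (C a) = 0
    rw [dL_apply, pderiv_C, pderiv_C, pderiv_C]
    ring
  have h4 : dL p Ψ₀ Ψ₁ (vQ a 0) = ((p : ℤ) : Q3) * (pderiv 1 Ψ₀ * pderiv 2 Ψ₁) := by
    change dL p Ψ₀ Ψ₁ (X 0) = _
    rw [dL_apply, pderiv_X_self, pderiv_X_of_ne (by decide), pderiv_X_of_ne (by decide)]
    ring
  have h5 : eval u (jev (dL p Ψ₀ Ψ₁) (vQ a) muJ) =
      6 * (4 * a ^ 3 + 27 * u 0 ^ 2) * (-2 * a * (p * (eval u (pderiv 1 Ψ₀) * eval u (pderiv 2 Ψ₁)))) * u 1 *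
        (u 2 ^ 3 + a * u 2 * u 1 ^ 4 + u 0 * u 1 ^ 6) := by
    unfold muJ
    simp only [map_mul, map_add, map_sub, map_pow, map_ofNat, clD_X0, clD_X1, h3, h4, map_intCast, mul_zero, map_zero]
    have e0 : eval u (vQ a 0) = u 0 := by
      change eval u (X 0) = _
      rw [eval_X]
    have e1 : eval u (vQ a 1) = u 1 := by
      change eval u (X 1) = _
      rw [eval_X]
    have e2 : eval u (vQ a 2) = u 2 := by
      change eval u (X 2) = _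
      rw [eval_X]
    have e3 : eval u (vQ a 3) = a := by
      change eval u (C a) = _
      rw [eval_C]
    rw [e0, e1, e2, e3]
    simp only [Int.cast_id]
    ring
  rw [h5]
  have hp0 : (p : ℤ) ≠ 0 := by exact_mod_cast hp.out.ne_zero
  refine mul_ne_zero (mul_ne_zero (mul_ne_zero (mul_ne_zero (by norm_num) hu.dl_ne)
    (mul_ne_zero (mul_ne_zero (by norm_num) ha) (mul_ne_zero hp0 (mul_ne_zero h0 h1)))) hu.D_ne) hu.B_ne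

/-- The numerical bound. -/
private lemma clD_num (k C₀ C l T : ℕ) (hl : 1 ≤ l) (hT : 1 ≤ T) :
    (2 * (k * T ^ 2) + C₀ * (k * T * l + 1) ^ 2) * (14 * (4 * C * (T ^ 3 * l ^ 3)) + 8 * l) ≤
      ((2 * k + C₀ * (k + 1) ^ 2) * (56 * C + 8)) * (T ^ 5 * l ^ 5) := by
  have h1 : 2 * (k * T ^ 2) + C₀ * (k * T * l + 1) ^ 2 ≤ (2 * k + C₀ * (k + 1) ^ 2) * (T ^ 2 * l ^ 2) := by
    have a1 : 2 * (k * T ^ 2) ≤ 2 * (k * (T ^ 2 * l ^ 2)) :=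
      Nat.mul_le_mul_left _ (Nat.mul_le_mul_left _ (Nat.le_mul_of_pos_right _ (by positivity)))
    have a2 : k * T * l + 1 ≤ (k + 1) * (T * l) := by
      have a3 : 1 ≤ T * l := Nat.mul_pos hT hl
      calc k * T * l + 1 ≤ k * T * l + T * l := by omega
        _ = (k + 1) * (T * l) := by ring
    have a4 : C₀ * (k * T * l + 1) ^ 2 ≤ C₀ * ((k + 1) * (T * l)) ^ 2 :=
      Nat.mul_le_mul_left _ (Nat.pow_le_pow_left a2 2)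
    calc 2 * (k * T ^ 2) + C₀ * (k * T * l + 1) ^ 2 ≤ 2 * (k * (T ^ 2 * l ^ 2)) + C₀ * ((k + 1) * (T * l)) ^ 2 :=
          Nat.add_le_add a1 a4
      _ = (2 * k + C₀ * (k + 1) ^ 2) * (T ^ 2 * l ^ 2) := by ring
  have h2 : 14 * (4 * C * (T ^ 3 * l ^ 3)) + 8 * l ≤ (56 * C + 8) * (T ^ 3 * l ^ 3) := by
    have a1 : l ≤ T ^ 3 * l ^ 3 := by
      calc l ≤ l ^ 3 := Nat.le_self_pow (by norm_num) l
        _ ≤ T ^ 3 * l ^ 3 := Nat.le_mul_of_pos_left _ (by positivity)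
    calc 14 * (4 * C * (T ^ 3 * l ^ 3)) + 8 * l ≤ 14 * (4 * C * (T ^ 3 * l ^ 3)) + 8 * (T ^ 3 * l ^ 3) := by omega
      _ = (56 * C + 8) * (T ^ 3 * l ^ 3) := by ring
  calc (2 * (k * T ^ 2) + C₀ * (k * T * l + 1) ^ 2) * (14 * (4 * C * (T ^ 3 * l ^ 3)) + 8 * l)
      ≤ ((2 * k + C₀ * (k + 1) ^ 2) * (T ^ 2 * l ^ 2)) * ((56 * C + 8) * (T ^ 3 * l ^ 3)) := Nat.mul_le_mul h1 h2
    _ = ((2 * k + C₀ * (k + 1) ^ 2) * (56 * C + 8)) * (T ^ 5 * l ^ 5) := by ring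

/-- THE ALGEBRAIC EQUATIONS AT ALL BUT FEW POINTS. PROOF. `Y` empty: clear. `M = 4 C T^3 l^3`, `C` the maximum of the constants of `prec` for `NE`, `muJ^(2 nr + 10) NT`. `chain` with `F₀ = L.rs F`
(`L.Ord C₀`: `e = k T^2 + C₀ (k T l + 1)^2 ≤ (k + C₀ (k + 1)^2) T^2 l^2`), `f = L.rs (em 1 P₀)`, `h0 = L.rs (em 2 P₁)`, `r = l` (`BP.sep`, `BP.ev_rs`, `eval_em`): all but `e (14 M + 8 l)` points. On the rest
every element of `L.I3` is divisible by `p^M` (`Submodule.span_induction`). The hypotheses `L.rs (pderiv ..) ≠ 0`: the value at a point of `Y` (`pderiv_em`); `mu ≠ 0`: `mu_eq`, the value at the point is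
`6 (4a^3+27b^2) (-2 a p Ψ₀_D Ψ₁_A) D BB ≠ 0` (`jev_muJ`-like computation with `dL_apply`). `EE_dvd`, `T2_dvd`, then `prec`. -/
theorem good_points (p : ℕ) [Fact p.Prime] (hp5 : 5 ≤ p) (C₀ k k₀ : ℕ) (hk : 1 ≤ k₀) {nE nr nT : ℕ} {NE Nr NT : J}
    (vE : ∀ x ∈ NE.vars, x.2 ≤ 3) (vr : ∀ x ∈ Nr.vars, x.2 ≤ 1) (vT : ∀ x ∈ NT.vars, x.2 ≤ 2)
    (hE : ∀ (K : Type) [Field K] [CharZero K] (δ : Dr K) (v : Fin 4 → K), jev δ v muJ ≠ 0 → jev δ v muJ ^ nE * fEE δ v = jev δ v NE)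
    (hr : ∀ (K : Type) [Field K] [CharZero K] (δ : Dr K) (v : Fin 4 → K), jev δ v muJ ≠ 0 → jev δ v muJ ^ nr * frr δ v = jev δ v Nr)
    (hT : ∀ (K : Type) [Field K] [CharZero K] (δ : Dr K) (v : Fin 4 → K), jev δ v muJ ≠ 0 → jev δ v muJ ^ nT * fT2 δ v = jev δ v NT) :
    ∃ C : ℕ, ∀ (L : Leaf p) (a : ℤ), a ≠ 0 → L.Ord C₀ → L.ADE a → ∀ (l T : ℕ), 1 ≤ l → 1 ≤ T → |a| ≤ 2 ^ T →
      ∀ F : Q3, (∃ m, ¬ (p : ℤ) ∣ F.coeff m) → F.degreeOf 0 ≤ k * T ^ 2 → F.degreeOf 1 ≤ k * T * l → F.degreeOf 2 ≤ k * T * l →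
      (∀ P : BP L l T, eval P.v F = 0) → ∀ P₀ P₁ : Polynomial (Polynomial ℤ), PsB k₀ l T P₀ → PsB k₀ l T P₁ →
      ∀ Y : Finset (BP L l T), (∀ P ∈ Y, ∀ Q ∈ Y, P.v 0 = Q.v 0 → P = Q) →
      (∀ P ∈ Y, Good a P.v ∧ eval P.v (em 1 P₀) = 0 ∧ eval P.v (em 1 (Polynomial.derivative P₀)) ≠ 0 ∧
        eval P.v (em 2 P₁) = 0 ∧ eval P.v (em 2 (Polynomial.derivative P₁)) ≠ 0) →
      ∃ Y' ⊆ Y, Y.card ≤ Y'.card + C * (T ^ 5 * l ^ 5) ∧ ∀ P ∈ Y',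
        eval P.v (jev (dL p (em 1 P₀) (em 2 P₁)) (vQ a) NE) = 0 ∧
        (eval P.v (jev (dL p (em 1 P₀) (em 2 P₁)) (vQ a) Nr) = 0 → eval P.v (jev (dL p (em 1 P₀) (em 2 P₁)) (vQ a) (dJ Nr)) = 0 →
          eval P.v (jev (dL p (em 1 P₀) (em 2 P₁)) (vQ a) (dJ (dJ Nr))) = 0 →
          eval P.v (jev (dL p (em 1 P₀) (em 2 P₁)) (vQ a) (muJ ^ (2 * nr + 10) * NT)) = 0) := by
  obtain ⟨c₁, hc₁, H1⟩ := prec p k₀ hk NE
  obtain ⟨c₂, hc₂, H2⟩ := prec p k₀ hk (muJ ^ (2 * nr + 10) * NT)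
  refine ⟨(2 * k + C₀ * (k + 1) ^ 2) * (56 * (c₁ + c₂) + 8), ?_⟩
  intro L a ha hOrd hADE l T hl hT1 haT F hFp hF0 hF1 hF2 hFv P₀ P₁ hP₀ hP₁ Y hinj hY
  obtain ⟨M, hM⟩ : ∃ M, M = 4 * (c₁ + c₂) * (T ^ 3 * l ^ 3) := ⟨_, rfl⟩
  have hTl : 1 ≤ T ^ 3 * l ^ 3 := Nat.mul_pos (by positivity) (by positivity)
  have hM4 : M / 4 = (c₁ + c₂) * (T ^ 3 * l ^ 3) := by
    rw [hM, mul_assoc]
    exact Nat.mul_div_cancel_left _ (by norm_num)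
  have hM2 : 2 ≤ M := by
    have h1 : 1 ≤ (c₁ + c₂) * (T ^ 3 * l ^ 3) := Nat.mul_pos (by omega) hTl
    rw [← hM4] at h1
    omega
  have hr1 : ∀ P ∈ Y, ∀ Q ∈ Y, P ≠ Q → ¬ (p : ℤ_[p]) ^ (l + 1) ∣ Q.pt.s - P.pt.s := by
    intro P hP Q hQ hPQ
    exact P.sep Q fun h => hPQ (hinj P hP Q hQ h)
  have hz : ∀ (P : BP L l T) (G : Q3), eval P.v G = 0 → P.pt.ev (L.rs G) = 0 := by
    intro P G h
    rw [P.ev_rs, h, Int.cast_zero]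
  obtain ⟨Y', hY', hcard, hdvd⟩ := chain (e := 2 * (k * T ^ 2) + C₀ * (k * T * l + 1) ^ 2) (M := M) (r := l)
    (F₀ := L.rs F) (f := L.rs (em 1 P₀)) (h0 := L.rs (em 2 P₁)) (hOrd F _ _ hFp hF0 hF1 hF2) Y
    (fun P => P.pt) (fun P _ => hz P F (hFv P)) (fun P hP => hz P _ (hY P hP).2.1)
    (fun P hP => hz P _ (hY P hP).2.2.2.1) hr1 hM2
  refine ⟨Y', hY', hcard.trans ?_, ?_⟩
  · refine Nat.add_le_add_left ?_ _
    rw [hM]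
    exact clD_num k C₀ (c₁ + c₂) l T hl hT1
  intro P hP
  obtain ⟨hgood, h0, h0', h1, h1'⟩ := hY P (hY' hP)
  obtain ⟨d1, d2, d3⟩ := hdvd P hP
  have hI : ∀ f ∈ L.I3 (em 1 P₀) (em 2 P₁), (p : ℤ_[p]) ^ M ∣ P.pt.ev f := by
    have h5 : L.I3 (em 1 P₀) (em 2 P₁) ≤ Ideal.comap P.pt.ev (Ideal.span {(p : ℤ_[p]) ^ M}) := by
      unfold Leaf.I3
      rw [Ideal.span_le]
      rintro f (rfl | rfl | rfl)
      · exact Ideal.mem_comap.2 (Ideal.mem_span_singleton.2 d1)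
      · exact Ideal.mem_comap.2 (Ideal.mem_span_singleton.2 d2)
      · exact Ideal.mem_comap.2 (Ideal.mem_span_singleton.2 d3)
    intro f hf
    exact Ideal.mem_span_singleton.1 (Ideal.mem_comap.1 (h5 hf))
  have q0 : pderiv 1 (em 1 P₀) = em 1 (Polynomial.derivative P₀) :=
    (pderiv_em P₀ (by decide)).1
  have q1 : pderiv 2 (em 2 P₁) = em 2 (Polynomial.derivative P₁) :=
    (pderiv_em P₁ (by decide)).1
  have e0' : eval P.v (pderiv 1 (em 1 P₀)) ≠ 0 := by rw [q0]; exact h0'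
  have e1' : eval P.v (pderiv 2 (em 2 P₁)) ≠ 0 := by rw [q1]; exact h1'
  have hne : ∀ G : Q3, eval P.v G ≠ 0 → L.rs G ≠ 0 := by
    intro G hG h
    have h6 := P.ev_rs G
    rw [h, map_zero] at h6
    exact hG (by exact_mod_cast h6.symm)
  have n0 : pderiv 2 (em 1 P₀) = 0 := pderiv_em_ne (by decide) (by decide) P₀
  have n1 : pderiv 1 (em 2 P₁) = 0 := pderiv_em_ne (by decide) (by decide) P₁
  have hmu : jev (dLL L (em 1 P₀) (em 2 P₁)) (L.vO a) muJ ≠ 0 := by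
    rw [mu_eq L n0 (hne _ e0') a]
    exact hne _ (clD_mu ha hgood e0' e1')
  refine ⟨?_, fun f0 f1 f2 => ?_⟩
  · refine H1 l T a hl hT1 haT P₀ P₁ hP₀ hP₁ P.v P.hb P.hD P.hA M ?_
      (EE_dvd L hADE n0 (hne _ e0') n1 (hne _ e1') hmu P hI vE hE)
    rw [hM]
    exact Nat.mul_le_mul_right _ (by omega)
  · refine H2 l T a hl hT1 haT P₀ P₁ hP₀ hP₁ P.v P.hb P.hD P.hA (M / 4) ?_
      (T2_dvd L hp5 hADE n0 (hne _ e0') n1 (hne _ e1') hmu P hI vr vT hr hT f0 f1 f2)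
    rw [hM4]
    exact Nat.mul_le_mul_right _ (by omega)

end Pool.Agent.Lib.MP_3550b5_nt.AC
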