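import Mathlib
import Pool.Agent.Lib.MP_3550b5_nt.AC.ClD

/-!
PROJECT AC, block CLASS: the number of good points of one leaf.
-/

namespace Pool.Agent.Lib.MP_3550b5_nt.AC

open SV MvPolynomial

variable {p : ℕ} [hp : Fact p.Prime]

omit hp in
private lemma clE_unit {u : Q3} (hu : IsUnit u) (i : Fin 3) : degreeOf i u = 0 := by
  obtain ⟨v, hv⟩ := hu.exists_right_inv
  have h0 : u * v ≠ 0 := by
    rw [hv]
    exact one_ne_zero
  have h1 := degreeOf_mul_eq (n := i) (left_ne_zero_of_mul h0) (right_ne_zero_of_mul h0)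
  rw [hv, degreeOf_one] at h1
  omega

omit hp in
private lemma clE_deg (s : Multiset Q3) (hs : ∀ f ∈ s, f ≠ 0) (i : Fin 3) :
    degreeOf i s.prod = (s.map fun f => f.degreeOf i).sum := by
  induction s using Multiset.induction_on with
  | empty => rw [Multiset.prod_zero, degreeOf_one, Multiset.map_zero, Multiset.sum_zero]
  | cons a s ih =>
    have h1 : s.prod ≠ 0 := by
      intro h
      exact hs 0 (Multiset.mem_cons_of_mem (Multiset.prod_eq_zero_iff.1 h)) rfl
    rw [Multiset.prod_cons, degreeOf_mul_eq (hs a (Multiset.mem_cons_self a s)) h1,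
      ih fun f hf => hs f (Multiset.mem_cons_of_mem hf), Multiset.map_cons, Multiset.sum_cons]

/-- FACTORS. PROOF. `UniqueFactorizationMonoid.exists_prime_factors` / `factors` (`MvPolynomial` over `ℤ` is factorial), a unit has degrees `0` and no zeros; degrees are additive
(`MvPolynomial.degreeOf_mul_eq`); if `p` divides all coefficients of a factor then of `F`. -/
theorem exists_factors {F : Q3} (hF : ∃ m, ¬ (p : ℤ) ∣ F.coeff m) : ∃ s : Multiset Q3,
    (∀ f ∈ s, Irreducible f ∧ ∃ m, ¬ (p : ℤ) ∣ f.coeff m) ∧ (∀ i, (s.map fun f => f.degreeOf i).sum = F.degreeOf i) ∧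
      ∀ u : Fin 3 → ℤ, eval u F = 0 → ∃ f ∈ s, eval u f = 0 := by
  obtain ⟨m, hm⟩ := hF
  have hF0 : F ≠ 0 := by
    rintro rfl
    rw [coeff_zero] at hm
    exact hm (dvd_zero _)
  obtain ⟨s, hs, v, hv⟩ := UniqueFactorizationMonoid.exists_prime_factors F hF0
  refine ⟨s, fun f hf => ⟨(hs f hf).irreducible, ?_⟩, fun i => ?_, fun u hu => ?_⟩
  · by_contra hcon
    push Not at hcon
    have h1 : (C (p : ℤ) : Q3) ∣ F := by
      refine ((C_dvd_iff_dvd_coeff _ _).2 hcon).trans ?_
      rw [← hv]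
      exact (Multiset.dvd_prod hf).trans (dvd_mul_right _ _)
    exact hm ((C_dvd_iff_dvd_coeff _ _).1 h1 m)
  · have h1 : s.prod ≠ 0 := by
      intro h
      rw [h, zero_mul] at hv
      exact hF0 hv.symm
    rw [← hv, degreeOf_mul_eq h1 v.ne_zero, clE_unit v.isUnit, add_zero]
    exact (clE_deg s (fun f hf => (hs f hf).ne_zero) i).symm
  · rw [← hv, map_mul] at hu
    have h1 : eval u (v : Q3) ≠ 0 := (v.isUnit.map (eval u)).ne_zero
    have h2 := (mul_eq_zero.1 hu).resolve_right h1
    rw [map_multiset_prod, Multiset.prod_eq_zero_iff, Multiset.mem_map] at h2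
    exact h2

end Pool.Agent.Lib.MP_3550b5_nt.AC
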