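import Mathlib
import Pool.Agent.Lib.MP_3550b5_nt.AC.ClE

/-!
PROJECT AC, block CLASS: the number of good points of one leaf.
-/

namespace Pool.Agent.Lib.MP_3550b5_nt.AC

open SV MvPolynomial

variable {p : ℕ} [hp : Fact p.Prime]

/-- A polynomial of degree `0` in `D` and `A` has few zeros with distinct `b`. PROOF. `f = ∑ i, c_i (X 0)^i`, `Polynomial.card_roots'`. -/
theorem count_b {f : Q3} (hf : f ≠ 0) (h1 : f.degreeOf 1 = 0) (h2 : f.degreeOf 2 = 0) (S : Finset (Fin 3 → ℤ))
    (hinj : ∀ u ∈ S, ∀ w ∈ S, u 0 = w 0 → u = w) (hS : ∀ u ∈ S, eval u f = 0) : S.card ≤ f.degreeOf 0 := by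
  classical
  have d1 : ∀ d ∈ f.support, d 1 = 0 := fun d hd =>
    Nat.le_zero.1 (h1 ▸ monomial_le_degreeOf 1 hd)
  have d2 : ∀ d ∈ f.support, d 2 = 0 := fun d hd =>
    Nat.le_zero.1 (h2 ▸ monomial_le_degreeOf 2 hd)
  obtain ⟨g, hg⟩ : ∃ g : Polynomial ℤ, g = ∑ d ∈ f.support, Polynomial.monomial (d 0) (f.coeff d) :=
    ⟨_, rfl⟩
  have hext : ∀ d ∈ f.support, ∀ d' ∈ f.support, d 0 = d' 0 → d = d' := by
    intro d hd d' hd' h
    ext i
    fin_cases i
    · exact h
    · exact (d1 d hd).trans (d1 d' hd').symm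
    · exact (d2 d hd).trans (d2 d' hd').symm
  have hc : ∀ d ∈ f.support, g.coeff (d 0) = f.coeff d := by
    intro d hd
    rw [hg, Polynomial.finsetSum_coeff, Finset.sum_eq_single d]
    · rw [Polynomial.coeff_monomial, if_pos rfl]
    · intro d' hd' hne
      rw [Polynomial.coeff_monomial, if_neg]
      exact fun h => hne (hext d' hd' d hd h)
    · intro h
      exact absurd hd h
  have hg0 : g ≠ 0 := by
    intro h
    obtain ⟨d, hd⟩ := Finset.nonempty_iff_ne_empty.2 (mt MvPolynomial.support_eq_empty.1 hf)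
    have h3 := hc d hd
    rw [h, Polynomial.coeff_zero] at h3
    exact (MvPolynomial.mem_support_iff.1 hd) h3.symm
  have hdeg : g.natDegree ≤ f.degreeOf 0 := by
    rw [hg]
    exact Polynomial.natDegree_sum_le_of_forall_le _ _ fun d hd =>
      (Polynomial.natDegree_monomial_le _).trans (monomial_le_degreeOf 0 hd)
  have hev : ∀ u : Fin 3 → ℤ, g.eval (u 0) = eval u f := by
    intro u
    rw [hg, Polynomial.eval_finsetSum, MvPolynomial.eval_eq']
    refine Finset.sum_congr rfl fun d hd => ?_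
    rw [Polynomial.eval_monomial, Fin.prod_univ_three, d1 d hd, d2 d hd, pow_zero, pow_zero,
      mul_one, mul_one]
  calc S.card ≤ g.roots.toFinset.card := by
        refine Finset.card_le_card_of_injOn (fun u => u 0) ?_ ?_
        · intro u hu
          rw [Finset.mem_coe, Multiset.mem_toFinset, Polynomial.mem_roots hg0,
            Polynomial.IsRoot.def]
          exact (hev u).trans (hS u hu)
        · intro u hu w hw h
          exact hinj u hu w hw h
    _ ≤ Multiset.card g.roots := Multiset.toFinset_card_le _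
    _ ≤ g.natDegree := Polynomial.card_roots' g
    _ ≤ f.degreeOf 0 := hdeg

end Pool.Agent.Lib.MP_3550b5_nt.AC
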