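import Mathlib
import Pool.Agent.Lib.MP_3550b5_nt.AC.ClF

/-!
PROJECT AC, block CLASS: the number of good points of one leaf.
-/

namespace Pool.Agent.Lib.MP_3550b5_nt.AC

open SV MvPolynomial

variable {p : ℕ} [hp : Fact p.Prime]

/-- The bound of one degree form. -/
private lemma clG_cnt {f G Θ : Q3} {g c l T : ℕ} (hG0 : G.degreeOf 0 ≤ g * (T ^ 2 * l))
    (hG1 : G.degreeOf 1 ≤ g * (T * l ^ 2)) (hG2 : G.degreeOf 2 ≤ g * (T * l ^ 2))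
    (h0 : Θ.degreeOf 0 ≤ c * (T ^ 3 * l ^ 2)) (h1 : Θ.degreeOf 1 ≤ c * (T ^ 2 * l ^ 3))
    (h2 : Θ.degreeOf 2 ≤ c * (T ^ 2 * l ^ 3)) :
    cnt f G Θ ≤ 2 * g * c * ((f.degreeOf 1 + f.degreeOf 2) * (T ^ 4 * l ^ 4) + f.degreeOf 0 * (T ^ 3 * l ^ 5)) := by
  unfold cnt
  calc (f.degreeOf 1 * G.degreeOf 2 + f.degreeOf 2 * G.degreeOf 1) * Θ.degreeOf 0 +
      (f.degreeOf 0 * G.degreeOf 2 + f.degreeOf 2 * G.degreeOf 0) * Θ.degreeOf 1 +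
      (f.degreeOf 0 * G.degreeOf 1 + f.degreeOf 1 * G.degreeOf 0) * Θ.degreeOf 2
      ≤ (f.degreeOf 1 * (g * (T * l ^ 2)) + f.degreeOf 2 * (g * (T * l ^ 2))) * (c * (T ^ 3 * l ^ 2)) +
      (f.degreeOf 0 * (g * (T * l ^ 2)) + f.degreeOf 2 * (g * (T ^ 2 * l))) * (c * (T ^ 2 * l ^ 3)) +
      (f.degreeOf 0 * (g * (T * l ^ 2)) + f.degreeOf 1 * (g * (T ^ 2 * l))) * (c * (T ^ 2 * l ^ 3)) := by
        refine Nat.add_le_add (Nat.add_le_add (Nat.mul_le_mul (Nat.add_le_add ?_ ?_) h0)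
          (Nat.mul_le_mul (Nat.add_le_add ?_ ?_) h1)) (Nat.mul_le_mul (Nat.add_le_add ?_ ?_) h2)
        · exact Nat.mul_le_mul_left _ hG2
        · exact Nat.mul_le_mul_left _ hG1
        · exact Nat.mul_le_mul_left _ hG2
        · exact Nat.mul_le_mul_left _ hG0
        · exact Nat.mul_le_mul_left _ hG1
        · exact Nat.mul_le_mul_left _ hG0
    _ = 2 * g * c * ((f.degreeOf 1 + f.degreeOf 2) * (T ^ 4 * l ^ 4) + f.degreeOf 0 * (T ^ 3 * l ^ 5)) := by ring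

/-- The two vertical terms. -/
private lemma clG_vert {f G : Q3} {g l T : ℕ} (hl : 1 ≤ l) (hT : 1 ≤ T) (hG0 : G.degreeOf 0 ≤ g * (T ^ 2 * l))
    (hG1 : G.degreeOf 1 ≤ g * (T * l ^ 2)) (hG2 : G.degreeOf 2 ≤ g * (T * l ^ 2)) :
    (f.degreeOf 0 * G.degreeOf 2 + f.degreeOf 2 * G.degreeOf 0) + (f.degreeOf 0 * G.degreeOf 1 + f.degreeOf 1 * G.degreeOf 0)
      ≤ 2 * g * ((f.degreeOf 1 + f.degreeOf 2) * (T ^ 4 * l ^ 4) + f.degreeOf 0 * (T ^ 3 * l ^ 5)) := by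
  have hA : T * l ^ 2 ≤ T ^ 3 * l ^ 5 := by
    refine Nat.mul_le_mul ?_ (Nat.pow_le_pow_right hl (by norm_num))
    calc T = T ^ 1 := (pow_one T).symm
      _ ≤ T ^ 3 := Nat.pow_le_pow_right hT (by norm_num)
  have hB : T ^ 2 * l ≤ T ^ 4 * l ^ 4 := by
    refine Nat.mul_le_mul (Nat.pow_le_pow_right hT (by norm_num)) ?_
    calc l = l ^ 1 := (pow_one l).symm
      _ ≤ l ^ 4 := Nat.pow_le_pow_right hl (by norm_num)
  have e1 : G.degreeOf 1 ≤ g * (T ^ 3 * l ^ 5) := hG1.trans (Nat.mul_le_mul_left _ hA)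
  have e2 : G.degreeOf 2 ≤ g * (T ^ 3 * l ^ 5) := hG2.trans (Nat.mul_le_mul_left _ hA)
  have e0 : G.degreeOf 0 ≤ g * (T ^ 4 * l ^ 4) := hG0.trans (Nat.mul_le_mul_left _ hB)
  calc (f.degreeOf 0 * G.degreeOf 2 + f.degreeOf 2 * G.degreeOf 0) + (f.degreeOf 0 * G.degreeOf 1 + f.degreeOf 1 * G.degreeOf 0)
      ≤ (f.degreeOf 0 * (g * (T ^ 3 * l ^ 5)) + f.degreeOf 2 * (g * (T ^ 4 * l ^ 4))) +
        (f.degreeOf 0 * (g * (T ^ 3 * l ^ 5)) + f.degreeOf 1 * (g * (T ^ 4 * l ^ 4))) :=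
        Nat.add_le_add (Nat.add_le_add (Nat.mul_le_mul_left _ e2) (Nat.mul_le_mul_left _ e0))
          (Nat.add_le_add (Nat.mul_le_mul_left _ e1) (Nat.mul_le_mul_left _ e0))
    _ = g * ((f.degreeOf 1 + f.degreeOf 2) * (T ^ 4 * l ^ 4) + 2 * (f.degreeOf 0 * (T ^ 3 * l ^ 5))) := by ring
    _ ≤ g * (2 * ((f.degreeOf 1 + f.degreeOf 2) * (T ^ 4 * l ^ 4)) + 2 * (f.degreeOf 0 * (T ^ 3 * l ^ 5))) :=
        Nat.mul_le_mul_left _ (Nat.add_le_add_right (Nat.le_mul_of_pos_left _ (by norm_num)) _)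
    _ = 2 * g * ((f.degreeOf 1 + f.degreeOf 2) * (T ^ 4 * l ^ 4) + f.degreeOf 0 * (T ^ 3 * l ^ 5)) := by ring

/-- The degrees of `em j Q`. -/
private lemma clG_em {j : Fin 3} (hj : j ≠ 0) {k₀ l T : ℕ} {Q : Polynomial (Polynomial ℤ)} (h : PsB k₀ l T Q) :
    (em j Q).degreeOf 0 ≤ k₀ * (T ^ 3 * l ^ 2) ∧ (em j Q).degreeOf 1 ≤ k₀ * (T ^ 2 * l ^ 3) ∧
      (em j Q).degreeOf 2 ≤ k₀ * (T ^ 2 * l ^ 3) := by
  have hb := Bd_em hj h.deg h.degc h.co le_rfl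
  refine ⟨hb.d0.trans_eq (one_mul _), hb.d1.trans_eq (one_mul _), hb.d2.trans_eq (one_mul _)⟩

/-- THE POINTS ON ONE FACTOR. PROOF. `f.degreeOf 1 = f.degreeOf 2 = 0`: `count_b`. Otherwise `exists_G`, `factor_count`, `jev_deg` (and `em 1 P₀`, `em 2 P₁` by `Bd_em`). -/
theorem per_factor (p : ℕ) [Fact p.Prime] (C₀ k k₀ : ℕ) (hk : 1 ≤ k₀) {nE nr nT : ℕ} {NE Nr NT : J}
    (hE : ∀ (K : Type) [Field K] [CharZero K] (δ : Dr K) (v : Fin 4 → K), jev δ v muJ ≠ 0 → jev δ v muJ ^ nE * fEE δ v = jev δ v NE)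
    (hr : ∀ (K : Type) [Field K] [CharZero K] (δ : Dr K) (v : Fin 4 → K), jev δ v muJ ≠ 0 → jev δ v muJ ^ nr * frr δ v = jev δ v Nr)
    (hT : ∀ (K : Type) [Field K] [CharZero K] (δ : Dr K) (v : Fin 4 → K), jev δ v muJ ≠ 0 → jev δ v muJ ^ nT * fT2 δ v = jev δ v NT) :
    ∃ C : ℕ, ∀ (L : Leaf p) (a : ℤ), a ≠ 0 → L.Ord C₀ → ∀ (l T : ℕ), 1 ≤ l → 1 ≤ T → |a| ≤ 2 ^ T →
      ∀ P₀ P₁ : Polynomial (Polynomial ℤ), PsB k₀ l T P₀ → PsB k₀ l T P₁ →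
      ∀ Y : Finset (BP L l T), (∀ P ∈ Y, ∀ Q ∈ Y, P.v 0 = Q.v 0 → P = Q) →
      (∀ P ∈ Y, Good a P.v ∧ eval P.v (em 1 P₀) = 0 ∧ eval P.v (em 1 (Polynomial.derivative P₀)) ≠ 0 ∧
        eval P.v (em 2 P₁) = 0 ∧ eval P.v (em 2 (Polynomial.derivative P₁)) ≠ 0 ∧
        eval P.v (jev (dL p (em 1 P₀) (em 2 P₁)) (vQ a) NE) = 0 ∧
        (eval P.v (jev (dL p (em 1 P₀) (em 2 P₁)) (vQ a) Nr) = 0 → eval P.v (jev (dL p (em 1 P₀) (em 2 P₁)) (vQ a) (dJ Nr)) = 0 →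
          eval P.v (jev (dL p (em 1 P₀) (em 2 P₁)) (vQ a) (dJ (dJ Nr))) = 0 →
          eval P.v (jev (dL p (em 1 P₀) (em 2 P₁)) (vQ a) (muJ ^ (2 * nr + 10) * NT)) = 0)) →
      ∀ f : Q3, Irreducible f → (∃ m, ¬ (p : ℤ) ∣ f.coeff m) → f.degreeOf 0 ≤ k * T ^ 2 → f.degreeOf 1 ≤ k * T * l →
        f.degreeOf 2 ≤ k * T * l → (∀ P ∈ Y, eval P.v f = 0) →
        Y.card ≤ C * ((f.degreeOf 1 + f.degreeOf 2) * (T ^ 4 * l ^ 4) + f.degreeOf 0 * (T ^ 3 * l ^ 5)) := by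
  classical
  obtain ⟨g, hg1, hg⟩ := exists_G p C₀ k
  obtain ⟨c₂, -, hc₂⟩ := jev_deg p k₀ hk NE
  obtain ⟨c₃, -, hc₃⟩ := jev_deg p k₀ hk (muJ ^ (2 * nr + 10) * NT)
  refine ⟨2 * g * (1 + 2 * k₀ + c₂ + c₃) + 1, ?_⟩
  intro L a ha hL l T hl hT' haT P₀ P₁ hP₀ hP₁ Y hYinj hY f hfi hfp hf0 hf1 hf2 hYf
  have hcard : (Y.image fun P => P.v).card = Y.card := by
    refine Finset.card_image_of_injOn fun P hP Q hQ h => ?_
    exact hYinj P hP Q hQ (congrFun h 0)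
  have hinj : ∀ u ∈ Y.image fun P => P.v, ∀ w ∈ Y.image fun P => P.v, u 0 = w 0 → u = w := by
    intro u hu w hw h
    obtain ⟨P, hP, rfl⟩ := Finset.mem_image.1 hu
    obtain ⟨Q, hQ, rfl⟩ := Finset.mem_image.1 hw
    rw [hYinj P hP Q hQ h]
  rw [← hcard]
  by_cases h12 : f.degreeOf 1 = 0 ∧ f.degreeOf 2 = 0
  · have h := count_b hfi.ne_zero h12.1 h12.2 (Y.image fun P => P.v) hinj (by
      intro u hu
      obtain ⟨P, hP, rfl⟩ := Finset.mem_image.1 hu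
      exact hYf P hP)
    refine h.trans ?_
    have h1 : 1 ≤ T ^ 3 * l ^ 5 := Nat.mul_pos (pow_pos hT' 3) (pow_pos hl 5)
    calc f.degreeOf 0 = 1 * (f.degreeOf 0 * 1) := by ring
      _ ≤ (2 * g * (1 + 2 * k₀ + c₂ + c₃) + 1) *
          ((f.degreeOf 1 + f.degreeOf 2) * (T ^ 4 * l ^ 4) + f.degreeOf 0 * (T ^ 3 * l ^ 5)) :=
          Nat.mul_le_mul (Nat.le_add_left _ _) ((Nat.mul_le_mul_left _ h1).trans (Nat.le_add_left _ _))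
  · have h12' : f.degreeOf 1 ≠ 0 ∨ f.degreeOf 2 ≠ 0 := by
      by_cases h : f.degreeOf 1 = 0
      · exact Or.inr fun h' => h12 ⟨h, h'⟩
      · exact Or.inl h
    obtain ⟨G, hGd, hG0, hG1, hG2, hGP⟩ := hg L hL l T hl hT' f hfp hf0 hf1 hf2 h12'
    have hq : (p : ℤ) ≠ 0 := Int.natCast_ne_zero.2 (Fact.out (p := p.Prime)).ne_zero
    have h := factor_count ha hq hfi h12' hGd hE hr hT (Y.image fun P => P.v) hinj (P₀ := P₀) (P₁ := P₁)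
      (m₀ := 2 * nr + 10) (by
      intro u hu
      obtain ⟨P, hP, rfl⟩ := Finset.mem_image.1 hu
      obtain ⟨a1, a2, a3, a4, a5, a6, a7⟩ := hY P hP
      exact ⟨a1, hYf P hP, hGP P (hYf P hP), a2, a3, a4, a5, a6, a7⟩)
    refine h.trans ?_
    have e0 := clG_vert (f := f) hl hT' hG0 hG1 hG2
    have p0 := clG_em (j := 1) (by decide) hP₀
    have p1 := clG_em (j := 2) (by decide) hP₁
    have p2 := hc₂ l T a hl hT' haT P₀ P₁ hP₀ hP₁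
    have p3 := hc₃ l T a hl hT' haT P₀ P₁ hP₀ hP₁
    have e1 := clG_cnt (f := f) hG0 hG1 hG2 p0.1 p0.2.1 p0.2.2
    have e2 := clG_cnt (f := f) hG0 hG1 hG2 p1.1 p1.2.1 p1.2.2
    have e3 := clG_cnt (f := f) hG0 hG1 hG2 p2.1 p2.2.1 p2.2.2
    have e4 := clG_cnt (f := f) hG0 hG1 hG2 p3.1 p3.2.1 p3.2.2
    refine (Nat.add_le_add (Nat.add_le_add (Nat.add_le_add (Nat.add_le_add e0 e1) e2) e3) e4).trans ?_
    generalize (f.degreeOf 1 + f.degreeOf 2) * (T ^ 4 * l ^ 4) + f.degreeOf 0 * (T ^ 3 * l ^ 5) = E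
    calc 2 * g * E + 2 * g * k₀ * E + 2 * g * k₀ * E + 2 * g * c₂ * E + 2 * g * c₃ * E
        = 2 * g * (1 + 2 * k₀ + c₂ + c₃) * E := by ring
      _ ≤ (2 * g * (1 + 2 * k₀ + c₂ + c₃) + 1) * E := Nat.mul_le_mul_right _ (Nat.le_succ _)

end Pool.Agent.Lib.MP_3550b5_nt.AC
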