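import Mathlib
import Pool.Agent.Lib.MP_3550b5_nt.AC.Lf

/-!
PROJECT AC, block ORD: the order on the leaf of a polynomial which is not divisible by `p`.
-/

namespace Pool.Agent.Lib.MP_3550b5_nt.AC

open PowerSeries

variable {p : ℕ} [hp : Fact p.Prime]

/-- the coefficients of the Taylor expansion, as sums -/
private lemma olA_coeff (G : Polynomial (MvPolynomial (Fin 2) ℤ)) (c : ℤ) (u : ℕ) :
    (Polynomial.taylor (MvPolynomial.C c) G).coeff u =
      ∑ i ∈ Finset.range ((Polynomial.hasseDeriv u G).natDegree + 1),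
        MvPolynomial.C (((i + u).choose u : ℤ) * c ^ i) * G.coeff (i + u) := by
  rw [Polynomial.taylor_coeff, Polynomial.eval_eq_sum_range]
  refine Finset.sum_congr rfl fun i _ => ?_
  rw [Polynomial.hasseDeriv_coeff, map_mul, map_pow, map_natCast]
  ring

/-- EXPANSION AT `b₀`. PROOF. `MvPolynomial.finSuccEquiv ℤ 2`, `Polynomial.taylor b₀`: `f u` = the coefficient of `(b - b₀)^u`. The Taylor map is bijective (inverse `taylor (-b₀)`), so `p` does not divide all `f u`;
`f u = 0` for `u > K`. -/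
theorem exists_shift (F : Q3) (b0 : ℤ) {K w : ℕ} (h0 : F.degreeOf 0 ≤ K) (h1 : F.degreeOf 1 ≤ w) (h2 : F.degreeOf 2 ≤ w)
    (hF : ∃ m, ¬ (p : ℤ) ∣ F.coeff m) : ∃ f : ℕ → MvPolynomial (Fin 2) ℤ, (∀ u i, (f u).degreeOf i ≤ w) ∧
      (∃ u ≤ K, ∃ m, ¬ (p : ℤ) ∣ (f u).coeff m) ∧ ∀ (R : Type) [CommRing R] (x : Fin 3 → R),
        MvPolynomial.eval₂ (Int.castRingHom R) x F = ∑ u ∈ Finset.range (K + 1),
          (x 0 - (b0 : R)) ^ u * MvPolynomial.eval₂ (Int.castRingHom R) ![x 1, x 2] (f u) := by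
  obtain ⟨G, hG⟩ : ∃ G, G = MvPolynomial.finSuccEquiv ℤ 2 F := ⟨_, rfl⟩
  obtain ⟨H, hH⟩ : ∃ H, H = Polynomial.taylor (MvPolynomial.C b0) G := ⟨_, rfl⟩
  have hdeg : G.natDegree ≤ K := by
    rw [hG, MvPolynomial.natDegree_finSuccEquiv]
    exact h0
  have hdegH : H.natDegree ≤ K := by
    rw [hH, Polynomial.natDegree_taylor]
    exact hdeg
  have hGc : ∀ (i : Fin 2) (n : ℕ), (G.coeff n).degreeOf i ≤ w := by
    intro i n
    rw [hG]
    refine (MvPolynomial.degreeOf_coeff_finSuccEquiv F i n).trans ?_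
    fin_cases i
    · exact h1
    · exact h2
  refine ⟨fun u => H.coeff u, ?_, ?_, ?_⟩
  · intro u i
    change (H.coeff u).degreeOf i ≤ w
    rw [hH, olA_coeff]
    refine (MvPolynomial.degreeOf_sum_le _ _ _).trans (Finset.sup_le fun n _ => ?_)
    refine (MvPolynomial.degreeOf_mul_le _ _ _).trans ?_
    rw [MvPolynomial.degreeOf_C, zero_add]
    exact hGc i (n + u)
  · by_contra hcon
    push Not at hcon
    obtain ⟨m, hm⟩ := hF
    apply hm
    have hall : ∀ u, (MvPolynomial.C (p : ℤ) : MvPolynomial (Fin 2) ℤ) ∣ H.coeff u := by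
      intro u
      rcases le_or_gt u K with hu | hu
      · exact (MvPolynomial.C_dvd_iff_dvd_coeff _ _).2 (hcon u hu)
      · rw [Polynomial.coeff_eq_zero_of_natDegree_lt (by omega)]
        exact dvd_zero _
    have hGH : G = Polynomial.taylor (MvPolynomial.C (-b0)) H := by
      rw [hH, Polynomial.taylor_taylor, map_neg, neg_add_cancel, Polynomial.taylor_zero]
    have hdvd : (MvPolynomial.C (p : ℤ) : MvPolynomial (Fin 2) ℤ) ∣ G.coeff (m 0) := by
      rw [hGH, olA_coeff]
      exact Finset.dvd_sum fun i _ => (hall (i + m 0)).mul_left _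
    have h3 := (MvPolynomial.C_dvd_iff_dvd_coeff _ _).1 hdvd (Finsupp.tail m)
    rw [hG, MvPolynomial.finSuccEquiv_coeff_coeff, Finsupp.cons_tail] at h3
    exact h3
  · intro R _ x
    obtain ⟨φ, hφ⟩ : ∃ φ : MvPolynomial (Fin 2) ℤ →+* R,
      φ = MvPolynomial.eval₂Hom (Int.castRingHom R) ![x 1, x 2] := ⟨_, rfl⟩
    have e1 : MvPolynomial.eval₂ (Int.castRingHom R) x F = Polynomial.eval₂ φ (x 0) G := by
      have key : MvPolynomial.eval₂Hom (Int.castRingHom R) x =
          (Polynomial.eval₂RingHom φ (x 0)).comp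
            (MvPolynomial.finSuccEquiv ℤ 2 : MvPolynomial (Fin 3) ℤ →+* _) := by
        refine MvPolynomial.ringHom_ext' (RingHom.ext_int _ _) fun i => ?_
        refine Fin.cases ?_ (fun j => ?_) i
        · rw [MvPolynomial.eval₂Hom_X', RingHom.comp_apply, RingHom.coe_coe,
            MvPolynomial.finSuccEquiv_X_zero, Polynomial.coe_eval₂RingHom, Polynomial.eval₂_X]
        · rw [MvPolynomial.eval₂Hom_X', RingHom.comp_apply, RingHom.coe_coe,
            MvPolynomial.finSuccEquiv_X_succ, Polynomial.coe_eval₂RingHom, Polynomial.eval₂_C, hφ,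
            MvPolynomial.eval₂Hom_X']
          fin_cases j <;> rfl
      rw [hG]
      exact DFunLike.congr_fun key F
    have e2 : Polynomial.eval₂ φ (x 0) G = Polynomial.eval₂ φ (x 0 - (b0 : R)) H := by
      rw [hH, Polynomial.taylor_apply, Polynomial.eval₂_comp, Polynomial.eval₂_add,
        Polynomial.eval₂_X, Polynomial.eval₂_C]
      congr 1
      rw [hφ, MvPolynomial.coe_eval₂Hom, MvPolynomial.eval₂_C, eq_intCast, sub_add_cancel]
    rw [e1, e2, Polynomial.eval₂_eq_sum_range' φ (show H.natDegree < K + 1 by omega)]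
    refine Finset.sum_congr rfl fun u _ => ?_
    rw [hφ, MvPolynomial.coe_eval₂Hom, mul_comm]

end Pool.Agent.Lib.MP_3550b5_nt.AC
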