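import Mathlib
import Pool.Agent.Lib.MP_3550b5_nt.AC.OlA

/-!
PROJECT AC, block ORD: the order on the leaf of a polynomial which is not divisible by `p`.
-/

namespace Pool.Agent.Lib.MP_3550b5_nt.AC

open PowerSeries

variable {p : ℕ} [hp : Fact p.Prime]

/-- PROOF. `la` = the largest number with `p^la ∣ p^u f u` for all `u ≤ K` (it is at most `K`); `g u` the quotients for `u ≤ K`, `0` for `u > K`. -/
theorem exists_lambda {f : ℕ → MvPolynomial (Fin 2) ℤ} {K w : ℕ} (hw : ∀ u i, (f u).degreeOf i ≤ w)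
    (h : ∃ u ≤ K, ∃ m, ¬ (p : ℤ) ∣ (f u).coeff m) : ∃ (la u0 : ℕ) (g : ℕ → MvPolynomial (Fin 2) ℤ), la ≤ K ∧ u0 ≤ la ∧
      (∀ u ≤ K, MvPolynomial.C ((p : ℤ) ^ u) * f u = MvPolynomial.C ((p : ℤ) ^ la) * g u) ∧
      (∃ m, ¬ (p : ℤ) ∣ (g u0).coeff m) ∧ ∀ i, (g u0).degreeOf i ≤ w := by
  classical
  have hp0 : (p : ℤ) ≠ 0 := by exact_mod_cast hp.out.ne_zero
  obtain ⟨P, hP⟩ : ∃ P : ℕ → Prop, P = fun l => ∀ u ≤ K, ∀ m, (p : ℤ) ^ l ∣ (p : ℤ) ^ u * (f u).coeff m :=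
    ⟨_, rfl⟩
  have hP0 : P 0 := by
    rw [hP]
    intro u _ m
    rw [pow_zero]
    exact one_dvd _
  have hPK : ∀ l, P l → l ≤ K := by
    intro l hl
    obtain ⟨u, huK, m, hm⟩ := h
    rw [hP] at hl
    have h1 := hl u huK m
    by_contra hlt
    push Not at hlt
    have h2 : (p : ℤ) ^ (u + 1) ∣ (p : ℤ) ^ u * (f u).coeff m :=
      (pow_dvd_pow _ (by omega)).trans h1
    rw [pow_succ] at h2
    exact hm ((mul_dvd_mul_iff_left (pow_ne_zero u hp0)).mp h2)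
  obtain ⟨la, hla⟩ : ∃ la, la = Nat.findGreatest P K := ⟨_, rfl⟩
  have hla1 : P la := by
    rw [hla]
    exact Nat.findGreatest_spec (Nat.zero_le K) hP0
  have hla2 : ¬ P (la + 1) := by
    intro hc
    have h1 := hPK _ hc
    exact Nat.findGreatest_is_greatest (P := P) (n := K) (k := la + 1) (by omega) h1 hc
  have hlaK : la ≤ K := hPK _ hla1
  rw [hP] at hla1 hla2
  push Not at hla2
  obtain ⟨u0, hu0K, m0, hm0⟩ := hla2
  have hu0 : u0 ≤ la := by
    by_contra hlt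
    push Not at hlt
    exact hm0 ((pow_dvd_pow (p : ℤ) hlt).mul_right _)
  have hg : ∀ u, ∃ g : MvPolynomial (Fin 2) ℤ, u ≤ K →
      MvPolynomial.C ((p : ℤ) ^ u) * f u = MvPolynomial.C ((p : ℤ) ^ la) * g := by
    intro u
    by_cases hu : u ≤ K
    · have h1 : MvPolynomial.C ((p : ℤ) ^ la) ∣ MvPolynomial.C ((p : ℤ) ^ u) * f u := by
        rw [MvPolynomial.C_dvd_iff_dvd_coeff]
        intro m
        rw [MvPolynomial.coeff_C_mul]
        exact hla1 u hu m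
      obtain ⟨g, hg⟩ := h1
      exact ⟨g, fun _ => hg⟩
    · exact ⟨0, fun h1 => absurd h1 hu⟩
  choose g hg using hg
  have hc : ∀ m, (p : ℤ) ^ u0 * (f u0).coeff m = (p : ℤ) ^ la * (g u0).coeff m := by
    intro m
    have h1 := congrArg (MvPolynomial.coeff m) (hg u0 hu0K)
    rwa [MvPolynomial.coeff_C_mul, MvPolynomial.coeff_C_mul] at h1
  refine ⟨la, u0, g, hlaK, hu0, hg, ⟨m0, fun hd => hm0 ?_⟩, fun i => ?_⟩
  · rw [hc, pow_succ]
    exact mul_dvd_mul_left _ hd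
  · rw [MvPolynomial.degreeOf_le_iff]
    intro m hm
    have h1 : (g u0).coeff m ≠ 0 := MvPolynomial.mem_support_iff.mp hm
    have h2 : (f u0).coeff m ≠ 0 := by
      intro h3
      have h4 := hc m
      rw [h3, mul_zero] at h4
      exact h1 ((mul_eq_zero.mp h4.symm).resolve_left (pow_ne_zero _ hp0))
    exact (MvPolynomial.monomial_le_degreeOf i (MvPolynomial.mem_support_iff.mpr h2)).trans
      (hw u0 i)

end Pool.Agent.Lib.MP_3550b5_nt.AC
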