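import Mathlib
import Pool.Agent.Lib.MP_3550b5_nt.AC.OlB

/-!
PROJECT AC, block ORD: the order on the leaf of a polynomial which is not divisible by `p`.
-/

namespace Pool.Agent.Lib.MP_3550b5_nt.AC

open PowerSeries

variable {p : ℕ} [hp : Fact p.Prime]

private theorem ol_cc (n : ℤ) : ((n : ℤ) : O p) = cc (n : ℤ_[p]) := by
  unfold cc
  rw [map_intCast, map_intCast]

private theorem ol_cc_mul (x y : ℤ_[p]) : (cc (x * y) : O p) = cc x * cc y := by
  unfold cc
  rw [map_mul, map_mul]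

private theorem ol_cc_pow (x : ℤ_[p]) (n : ℕ) : (cc (x ^ n) : O p) = cc x ^ n := by
  unfold cc
  rw [map_pow, map_pow]

/-- The coefficient of `s^u0 T^m` of the sum of the `s^u h_u(T)`. -/
private theorem ol_coeff {R : Type*} [CommRing R] (G : ℕ → R⟦X⟧) {K u0 : ℕ} (hu : u0 ≤ K) (m : ℕ) :
    coeff u0 (coeff m (∑ u ∈ Finset.range (K + 1),
      (C (X : R⟦X⟧) : R⟦X⟧⟦X⟧) ^ u * PowerSeries.map (C (R := R)) (G u))) = coeff m (G u0) := by
  rw [map_sum, map_sum, Finset.sum_eq_single u0]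
  · rw [← map_pow, coeff_C_mul, coeff_map, mul_comm, coeff_C_mul, coeff_X_pow, if_pos rfl, mul_one]
  · intro u _ hne
    rw [← map_pow, coeff_C_mul, coeff_map, mul_comm, coeff_C_mul, coeff_X_pow, if_neg (Ne.symm hne),
      mul_zero]
  · intro h
    exact absurd (Finset.mem_range.2 (Nat.lt_succ_of_le hu)) h

/-- THE ORDER ON THE LEAF. PROOF. `exists_shift`, `exists_lambda`: `L.rs F = ∑ u, (p s)^u f u(DD, AA) = p^la f1`, `f1 = ∑ u ≤ K, s^u g u(DD, AA)`. Modulo `p` (`PowerSeries.map (PowerSeries.map toZMod)`) the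
value `g u(DD, AA)` is `PowerSeries.map C` of `g u(D0, A0)`, so the coefficient of `s^u0 T^m` of `f1` is modulo `p` the coefficient of `T^m` of `g u0(D0, A0)`: not `0` for some `m ≤ C₁ (w + 1)^2`. If `L.rs F ∈ Fl p ν`,
`ν = 2 K + C₁ (w + 1)^2 + 1`, then `p^(ν - u0 - m)` divides `p^la` times a unit: `ν ≤ la + u0 + m`. -/
theorem leaf_ord {L : Leaf p} {C₁ : ℕ} {D0 A0 : (ZMod p)⟦X⟧}
    (hD : PowerSeries.map (PowerSeries.map (PadicInt.toZMod (p := p))) L.DD = PowerSeries.map (C (R := ZMod p)) D0)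
    (hA : PowerSeries.map (PowerSeries.map (PadicInt.toZMod (p := p))) L.AA = PowerSeries.map (C (R := ZMod p)) A0)
    (hO : ∀ (w : ℕ) (G : MvPolynomial (Fin 2) (ZMod p)), G ≠ 0 → (∀ i, G.degreeOf i ≤ w) →
      ∃ m ≤ C₁ * (w + 1) ^ 2, coeff m (MvPolynomial.aeval ![D0, A0] G) ≠ 0) : L.Ord C₁ := by
  intro F K w hF h0 h1 h2 hmem
  obtain ⟨f, hfw, hfu, hfe⟩ := exists_shift F L.b0 h0 h1 h2 hF
  obtain ⟨la, u0, g, hla, hu0, hg, ⟨n0, hn0⟩, hgw⟩ := exists_lambda hfw hfu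
  obtain ⟨E, hE⟩ : ∃ E : MvPolynomial (Fin 2) ℤ →+* O p,
      ∀ q, E q = MvPolynomial.eval₂ (Int.castRingHom (O p)) ![L.DD, L.AA] q :=
    ⟨MvPolynomial.eval₂Hom (Int.castRingHom (O p)) ![L.DD, L.AA], fun q => rfl⟩
  have hEC : ∀ n : ℤ, E (MvPolynomial.C n) = cc (n : ℤ_[p]) := by
    intro n
    rw [hE, MvPolynomial.eval₂_C, eq_intCast, ol_cc]
  -- the factor `p ^ la`
  have hrs : L.rs F = cc ((p : ℤ_[p]) ^ la) *
      ∑ u ∈ Finset.range (K + 1), vs p ^ u * E (g u) := by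
    have e1 : L.rs F = MvPolynomial.eval₂ (Int.castRingHom (O p)) ![L.bb, L.DD, L.AA] F := rfl
    rw [e1, hfe, Finset.mul_sum]
    refine Finset.sum_congr rfl fun u hu => ?_
    have hu' : u ≤ K := Nat.lt_succ_iff.1 (Finset.mem_range.1 hu)
    have e2 : (![L.bb, L.DD, L.AA] : Fin 3 → O p) 0 - (L.b0 : O p) = cc (p : ℤ_[p]) * vs p := by
      have e3 : (![L.bb, L.DD, L.AA] : Fin 3 → O p) 0 = L.bb := rfl
      rw [e3, Leaf.bb, ol_cc, add_sub_cancel_left]
    have e4 : MvPolynomial.eval₂ (Int.castRingHom (O p))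
        ![(![L.bb, L.DD, L.AA] : Fin 3 → O p) 1, (![L.bb, L.DD, L.AA] : Fin 3 → O p) 2] (f u) =
        E (f u) := (hE _).symm
    have e5 := congrArg E (hg u hu')
    rw [map_mul, map_mul, hEC, hEC] at e5
    push_cast at e5
    rw [ol_cc_pow] at e5
    rw [e2, e4, mul_pow]
    linear_combination (vs p ^ u) * e5
  -- reduction modulo `p`
  obtain ⟨π, hπ⟩ : ∃ π : O p →+* (ZMod p)⟦X⟧⟦X⟧,
      ∀ x, π x = PowerSeries.map (PowerSeries.map (PadicInt.toZMod (p := p))) x :=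
    ⟨PowerSeries.map (PowerSeries.map (PadicInt.toZMod (p := p))), fun _ => rfl⟩
  have hπE : ∀ q : MvPolynomial (Fin 2) ℤ, π (E q) = PowerSeries.map (C (R := ZMod p))
      (MvPolynomial.aeval ![D0, A0] (MvPolynomial.map (Int.castRingHom (ZMod p)) q)) := by
    have h3 : π.comp E = (PowerSeries.map (C (R := ZMod p))).comp
        ((MvPolynomial.aeval ![D0, A0] : MvPolynomial (Fin 2) (ZMod p) →ₐ[ZMod p] _).toRingHom.comp
          (MvPolynomial.map (Int.castRingHom (ZMod p)))) := by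
      refine MvPolynomial.ringHom_ext (fun r => ?_) (fun i => ?_)
      · rw [eq_intCast (MvPolynomial.C : ℤ →+* MvPolynomial (Fin 2) ℤ) r, map_intCast,
          map_intCast]
      · have e1 : (MvPolynomial.aeval ![D0, A0] : MvPolynomial (Fin 2) (ZMod p) →ₐ[ZMod p] _)
            (MvPolynomial.map (Int.castRingHom (ZMod p)) (MvPolynomial.X i)) = ![D0, A0] i := by
          rw [MvPolynomial.map_X, MvPolynomial.aeval_X]
        have e2 : E (MvPolynomial.X i) = ![L.DD, L.AA] i := by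
          rw [hE, MvPolynomial.eval₂_X]
        change π (E (MvPolynomial.X i)) = PowerSeries.map (C (R := ZMod p))
          ((MvPolynomial.aeval ![D0, A0] : MvPolynomial (Fin 2) (ZMod p) →ₐ[ZMod p] _)
            (MvPolynomial.map (Int.castRingHom (ZMod p)) (MvPolynomial.X i)))
        rw [e1, e2, hπ]
        fin_cases i
        · exact hD
        · exact hA
    exact fun q => DFunLike.congr_fun h3 q
  have hπs : π (vs p) = C (X : (ZMod p)⟦X⟧) := by
    rw [hπ, vs, PowerSeries.map_C, PowerSeries.map_X]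
  have hne : MvPolynomial.map (Int.castRingHom (ZMod p)) (g u0) ≠ 0 := by
    intro h
    apply hn0
    have h3 := congrArg (MvPolynomial.coeff n0) h
    rw [MvPolynomial.coeff_map, MvPolynomial.coeff_zero, eq_intCast] at h3
    exact (ZMod.intCast_zmod_eq_zero_iff_dvd _ _).1 h3
  obtain ⟨m, hm, hcm⟩ := hO w _ hne fun i => MvPolynomial.degreeOf_le_iff.2 fun n hn =>
    MvPolynomial.degreeOf_le_iff.1 (hgw i) n (MvPolynomial.support_map_subset _ _ hn)
  have hred : PadicInt.toZMod (cf (∑ u ∈ Finset.range (K + 1), vs p ^ u * E (g u)) u0 m) ≠ 0 := by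
    have h3 : PadicInt.toZMod (cf (∑ u ∈ Finset.range (K + 1), vs p ^ u * E (g u)) u0 m) =
        coeff u0 (coeff m (π (∑ u ∈ Finset.range (K + 1), vs p ^ u * E (g u)))) := by
      rw [hπ, coeff_map, coeff_map, cf]
    rw [h3, map_sum]
    have h4 : ∀ u, π (vs p ^ u * E (g u)) = (C (X : (ZMod p)⟦X⟧) : (ZMod p)⟦X⟧⟦X⟧) ^ u *
        PowerSeries.map (C (R := ZMod p)) (MvPolynomial.aeval ![D0, A0]
          (MvPolynomial.map (Int.castRingHom (ZMod p)) (g u))) := by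
      intro u
      rw [map_mul, map_pow, hπs, hπE]
    rw [Finset.sum_congr rfl fun u _ => h4 u, ol_coeff _ (hu0.trans hla)]
    exact hcm
  apply hred
  have h5 := hmem u0 m
  rw [hrs, cf_cc_mul] at h5
  have h6 : (p : ℤ_[p]) ^ la * p ∣ (p : ℤ_[p]) ^ la *
      cf (∑ u ∈ Finset.range (K + 1), vs p ^ u * E (g u)) u0 m := by
    rw [← pow_succ]
    exact (pow_dvd_pow _ (by omega)).trans h5
  have hp0 : (p : ℤ_[p]) ^ la ≠ 0 := pow_ne_zero _ (Nat.cast_ne_zero.2 hp.out.ne_zero)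
  obtain ⟨y, hy⟩ := (mul_dvd_mul_iff_left hp0).1 h6
  rw [hy, map_mul, map_natCast, ZMod.natCast_self, zero_mul]

end Pool.Agent.Lib.MP_3550b5_nt.AC
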