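import Mathlib
import Pool.Agent.Lib.MP_3550b5_nt.TP.Ver.ZB
import Pool.Agent.Lib.MP_3550b5_nt.TP.L1Form
import Pool.Agent.Lib.MP_3550b5_nt.SV.FLoc

/-!
PROJECT AC, block ORD: the sigma function modulo `p` depends on the curve modulo `p` only.
-/

namespace Pool.Agent.Lib.MP_3550b5_nt.AC

open PowerSeries

variable {p : ℕ} [hp : Fact p.Prime]

/-- PROOF. Induction: `QQ (..)` has constant coefficient `1` (`Vr.IsMT.Q_const`), so it can be cancelled (it is a unit: `PowerSeries.isUnit_iff_constantCoeff`). -/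
theorem isMT_unique {R : Type*} [CommRing R] {a b : R} {M T M' T' : ℕ → R⟦X⟧} (h : Vr.IsMT a b M T)
    (h' : Vr.IsMT a b M' T') (n : ℕ) : M n = M' n ∧ T n = T' n := by
  induction n with
  | zero => exact ⟨h.M0.trans h'.M0.symm, h.T0.trans h'.T0.symm⟩
  | succ n ih =>
    obtain ⟨ih1, ih2⟩ := ih
    have hu : IsUnit (Vr.QQ (C a) (C b) X (M n)) := by
      rw [PowerSeries.isUnit_iff_constantCoeff, h.Q_const n]
      exact isUnit_one
    constructor
    · refine hu.mul_left_cancel ?_
      rw [h.hM n]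
      have e := h'.hM n
      rw [← ih1, ← ih2] at e
      exact e.symm
    · refine (hu.pow 2).mul_left_cancel ?_
      rw [h.hT n]
      have e := h'.hT n
      rw [← ih1, ← ih2] at e
      exact e.symm

end Pool.Agent.Lib.MP_3550b5_nt.AC
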