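import Mathlib
import Pool.Agent.Lib.MP_3550b5_nt.AC.ZuA

/-!
PROJECT AC, block ORD: the sigma function modulo `p` depends on the curve modulo `p` only.
-/

namespace Pool.Agent.Lib.MP_3550b5_nt.AC

open PowerSeries

variable {p : ℕ} [hp : Fact p.Prime]

/-- The three term relation modulo `p`. -/
private theorem zuB_three {a b : ℤ} {c : ℤ_[p]} {U : ℤ_[p]⟦X⟧} {M T : ℕ → ℤ_[p]⟦X⟧}
    (hMT : Vr.IsMT (a : ℤ_[p]) (b : ℤ_[p]) M T) (hU : IsSigmaU (a : ℤ_[p]) (b : ℤ_[p]) c U) (n : ℕ) :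
    (PowerSeries.map (PadicInt.toZMod (p := p)) U).subst
        (PowerSeries.map (PadicInt.toZMod (p := p)) (M (n + 2))) *
      (PowerSeries.map (PadicInt.toZMod (p := p)) U).subst
        (PowerSeries.map (PadicInt.toZMod (p := p)) (M n)) =
      (PowerSeries.map (PadicInt.toZMod (p := p)) U).subst
        (PowerSeries.map (PadicInt.toZMod (p := p)) (M (n + 1))) ^ 2 *
      PowerSeries.map (PadicInt.toZMod (p := p)) U ^ 2 *
      PowerSeries.map (PadicInt.toZMod (p := p)) (Vr.QQ (C (a : ℤ_[p])) (C (b : ℤ_[p])) X (M (n + 1))) := by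
  obtain ⟨v, hv⟩ := Vr.exists_isVU_dom hU
  have h1 := congrArg (PowerSeries.map (PadicInt.toZMod (p := p))) (Vr.three_term hMT hv n)
  have h2 : ∀ k, PowerSeries.map (PadicInt.toZMod (p := p)) (U.subst (M k)) =
      (PowerSeries.map (PadicInt.toZMod (p := p)) U).subst
        (PowerSeries.map (PadicInt.toZMod (p := p)) (M k)) := fun k =>
    PowerSeries.map_subst (PowerSeries.HasSubst.of_constantCoeff_zero' (hMT.M_const k)) U
  rw [map_mul, map_mul, map_mul, map_pow, map_pow, h2, h2, h2] at h1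
  exact h1

/-- A power series `R` with `R(h ^ p) = R ^ (p ^ 2)` is `1`. -/
private theorem zuB_one {R h : (ZMod p)⟦X⟧} (h0 : constantCoeff h = 0) (h1 : coeff 1 h ≠ 0)
    (hR0 : constantCoeff R = 1) (hR : R.subst (h ^ p) = R ^ p ^ 2) : R = 1 := by
  by_contra hne
  have hs : PowerSeries.HasSubst (h ^ p) := PowerSeries.HasSubst.of_constantCoeff_zero' (by
    rw [map_pow, h0, zero_pow hp.out.ne_zero])
  obtain ⟨D, hD⟩ : ∃ D, D = R - 1 := ⟨_, rfl⟩
  have hD0 : D ≠ 0 := by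
    rw [hD]
    exact sub_ne_zero.2 hne
  have hRD : R = D + 1 := by
    rw [hD, sub_add_cancel]
  have hchar : CharP (ZMod p)⟦X⟧ p :=
    charP_of_injective_ringHom (f := (C : ZMod p →+* (ZMod p)⟦X⟧)) C_injective p
  have hDs : D.subst (h ^ p) = D ^ p ^ 2 := by
    have e1 : R.subst (h ^ p) = D.subst (h ^ p) + 1 := by
      rw [hRD, PowerSeries.subst_add hs]
      congr 1
      rw [← PowerSeries.coe_substAlgHom hs, map_one]
    have e2 : R ^ p ^ 2 = D ^ p ^ 2 + 1 := by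
      rw [hRD, add_pow_char_pow, one_pow]
    rw [e1, e2] at hR
    exact add_right_cancel hR
  -- the order
  obtain ⟨n, hn⟩ : ∃ n : ℕ, D.order = n := by
    exact ⟨D.order.toNat, (ENat.natCast_toNat (ne_of_lt (order_finite_iff_ne_zero.mpr hD0))).symm⟩
  have hlt : ∀ i < n, coeff i D = 0 := fun i hi =>
    coeff_of_lt_order i (by rw [hn]; exact_mod_cast hi)
  have hcn : coeff n D ≠ 0 := by
    have h2 := coeff_order hD0
    rw [show D.order.toNat = n by rw [hn]; rfl] at h2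
    exact h2
  obtain ⟨E, hE⟩ := X_pow_dvd_iff.mpr hlt
  have hE0 : constantCoeff E ≠ 0 := by
    intro h2
    apply hcn
    rw [hE, coeff_X_pow_mul', if_pos le_rfl, Nat.sub_self, coeff_zero_eq_constantCoeff_apply, h2]
  have hn0 : n ≠ 0 := by
    rintro rfl
    apply hcn
    rw [coeff_zero_eq_constantCoeff_apply, hD, map_sub, hR0, map_one, sub_self]
  obtain ⟨g, hg⟩ : ∃ g, h = X * g := by
    have h2 := X_dvd_iff.mpr h0
    exact h2
  have hg0 : constantCoeff g ≠ 0 := by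
    intro h2
    apply h1
    rw [hg, show (1 : ℕ) = 0 + 1 from rfl, coeff_succ_X_mul, coeff_zero_eq_constantCoeff_apply, h2]
  have e3 : D.subst (h ^ p) = X ^ (p * n) * (g ^ (p * n) * E.subst (h ^ p)) := by
    have e0 : h ^ (p * n) = X ^ (p * n) * g ^ (p * n) := by rw [hg, mul_pow]
    rw [hE, PowerSeries.subst_mul hs, ← PowerSeries.coe_substAlgHom hs, map_pow,
      PowerSeries.substAlgHom_X hs, ← pow_mul, e0, mul_assoc]
  have e4 : D ^ p ^ 2 = X ^ (n * p ^ 2) * E ^ p ^ 2 := by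
    rw [hE, mul_pow, ← pow_mul]
  have e5 : coeff (p * n) (D ^ p ^ 2) = 0 := by
    rw [e4, coeff_X_pow_mul', if_neg]
    rw [not_le]
    have h2 := hp.out.two_le
    have h3 : 1 ≤ n := Nat.pos_of_ne_zero hn0
    have h4 : 1 ≤ p * n := Nat.mul_pos hp.out.pos h3
    nlinarith
  rw [← hDs, e3, coeff_X_pow_mul', if_pos le_rfl, Nat.sub_self,
    coeff_zero_eq_constantCoeff_apply, map_mul, map_pow, Vr.const_subst (by
      rw [map_pow, h0, zero_pow hp.out.ne_zero])] at e5
  exact (mul_ne_zero (pow_ne_zero _ hg0) hE0) e5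

/-- THE SIGMA FUNCTION MODULO `p` IS DETERMINED BY THE CURVE MODULO `p`. PROOF. `Vr.exists_isMT` for both, the reductions modulo `p` of `M n` agree (`Vr.IsMT.map`, `isMT_unique`).
`φ_n = U(M_n) / U^(n^2)` modulo `p` satisfies `φ_0 = φ_1 = 1`, `φ_(n+2) φ_n = φ_(n+1)^2 QQ(X, M_(n+1))` (`Vr.three_term` reduced modulo `p`, `PowerSeries.map_subst`; see the proofs of
`Vr.exists_phi`, `Vr.exists_FE`), so it is the same for both (strong induction, all series have constant coefficient `1`). So `R = U / U'` modulo `p` has `R(M_p) = R^(p^2)`, and `M_p = h^p`, `h = h₁ X + ..`,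
`h₁ ≠ 0` (`Vr.exists_h`, `hasse_of_goodOrdinary`). If `R = 1 + r X^n + ..`, `r ≠ 0`, `n ≥ 1`: the coefficient of `X^(p n)` is `r h₁^(p n)` on the left and `0` on the right. -/
theorem sigU_unique (hp5 : 5 ≤ p) {a b a' b' : ℤ} (h1 : GoodOrdinary p a b) (h2 : GoodOrdinary p a' b')
    (ha : (a : ZMod p) = (a' : ZMod p)) (hb : (b : ZMod p) = (b' : ZMod p)) {c c' : ℤ_[p]} {U U' : ℤ_[p]⟦X⟧}
    (hU : IsSigmaU (a : ℤ_[p]) (b : ℤ_[p]) c U) (hU' : IsSigmaU (a' : ℤ_[p]) (b' : ℤ_[p]) c' U') :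
    PowerSeries.map (PadicInt.toZMod (p := p)) U = PowerSeries.map (PadicInt.toZMod (p := p)) U' := by
  obtain ⟨q, hpq⟩ : ∃ q, p = 2 * q + 1 := by
    rcases hp.out.eq_two_or_odd' with h | h
    · omega
    · exact h
  have hq : 1 ≤ q := by omega
  obtain ⟨M, T, hMT⟩ := Vr.exists_isMT (a : ℤ_[p]) (b : ℤ_[p])
  obtain ⟨M', T', hMT'⟩ := Vr.exists_isMT (a' : ℤ_[p]) (b' : ℤ_[p])
  have hta : PadicInt.toZMod (p := p) (a : ℤ_[p]) = PadicInt.toZMod (p := p) (a' : ℤ_[p]) := by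
    rw [map_intCast, map_intCast, ha]
  have htb : PadicInt.toZMod (p := p) (b : ℤ_[p]) = PadicInt.toZMod (p := p) (b' : ℤ_[p]) := by
    rw [map_intCast, map_intCast, hb]
  have hMM : ∀ n, PowerSeries.map (PadicInt.toZMod (p := p)) (M n) =
      PowerSeries.map (PadicInt.toZMod (p := p)) (M' n) := by
    intro n
    have e1 := hMT.map (PadicInt.toZMod (p := p))
    have e2 := hMT'.map (PadicInt.toZMod (p := p))
    rw [hta, htb] at e1
    exact (isMT_unique e1 e2 n).1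
  obtain ⟨m, hm⟩ : ∃ m : ℕ → (ZMod p)⟦X⟧, m = fun n =>
      PowerSeries.map (PadicInt.toZMod (p := p)) (M n) := ⟨_, rfl⟩
  have hm1 : ∀ n, PowerSeries.map (PadicInt.toZMod (p := p)) (M n) = m n := fun n => by rw [hm]
  have hm2 : ∀ n, PowerSeries.map (PadicInt.toZMod (p := p)) (M' n) = m n := fun n => by
    rw [← hMM, hm1]
  have hm0 : ∀ n, constantCoeff (m n) = 0 := fun n => by
    rw [← hm1]
    exact (hMT.map (PadicInt.toZMod (p := p))).M_const n
  have hms : ∀ n, PowerSeries.HasSubst (m n) := fun n =>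
    PowerSeries.HasSubst.of_constantCoeff_zero' (hm0 n)
  obtain ⟨Q, hQ⟩ : ∃ Q : ℕ → (ZMod p)⟦X⟧, Q = fun n => PowerSeries.map (PadicInt.toZMod (p := p))
      (Vr.QQ (C (a : ℤ_[p])) (C (b : ℤ_[p])) X (M (n + 1))) := ⟨_, rfl⟩
  have hQ1 : ∀ n, PowerSeries.map (PadicInt.toZMod (p := p))
      (Vr.QQ (C (a : ℤ_[p])) (C (b : ℤ_[p])) X (M (n + 1))) = Q n := fun n => by rw [hQ]
  have hQ2 : ∀ n, PowerSeries.map (PadicInt.toZMod (p := p))
      (Vr.QQ (C (a' : ℤ_[p])) (C (b' : ℤ_[p])) X (M' (n + 1))) = Q n := by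
    intro n
    rw [← hQ1]
    have e1 : ∀ (x y : ℤ_[p]) (N : ℤ_[p]⟦X⟧), PowerSeries.map (PadicInt.toZMod (p := p))
        (Vr.QQ (C x) (C y) X N) = Vr.QQ (C (PadicInt.toZMod (p := p) x))
          (C (PadicInt.toZMod (p := p) y)) X (PowerSeries.map (PadicInt.toZMod (p := p)) N) := by
      intro x y N
      unfold Vr.QQ
      simp only [map_sub, map_mul, map_pow, map_add, map_one, map_ofNat, PowerSeries.map_C,
        PowerSeries.map_X]
    rw [e1, e1, hta, htb, hMM]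
  have hQc : ∀ n, constantCoeff (Q n) = 1 := by
    intro n
    rw [← hQ1, ← coeff_zero_eq_constantCoeff_apply, coeff_map, coeff_zero_eq_constantCoeff_apply,
      hMT.Q_const, map_one]
  obtain ⟨u, hu⟩ : ∃ u, u = PowerSeries.map (PadicInt.toZMod (p := p)) U := ⟨_, rfl⟩
  obtain ⟨u', hu'⟩ : ∃ u', u' = PowerSeries.map (PadicInt.toZMod (p := p)) U' := ⟨_, rfl⟩
  have huc : constantCoeff u = 1 := by
    rw [hu, ← coeff_zero_eq_constantCoeff_apply, coeff_map, coeff_zero_eq_constantCoeff_apply,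
      hU.1, map_one]
  have huc' : constantCoeff u' = 1 := by
    rw [hu', ← coeff_zero_eq_constantCoeff_apply, coeff_map, coeff_zero_eq_constantCoeff_apply,
      hU'.1, map_one]
  have h3 : ∀ n, u.subst (m (n + 2)) * u.subst (m n) =
      u.subst (m (n + 1)) ^ 2 * u ^ 2 * Q n := by
    intro n
    have e := zuB_three hMT hU n
    rw [hm1, hm1, hm1, hQ1, ← hu] at e
    exact e
  have h3' : ∀ n, u'.subst (m (n + 2)) * u'.subst (m n) =
      u'.subst (m (n + 1)) ^ 2 * u' ^ 2 * Q n := by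
    intro n
    have e := zuB_three hMT' hU' n
    rw [hm2, hm2, hm2, hQ2, ← hu'] at e
    exact e
  rw [← hu, ← hu']
  obtain ⟨w, hw⟩ := Vr.exists_inv huc'
  obtain ⟨R, hR⟩ : ∃ R, R = u * w := ⟨_, rfl⟩
  have hRu : u = R * u' := by
    rw [hR, mul_assoc, mul_comm w, hw, mul_one]
  have hRc : constantCoeff R = 1 := by
    have e := congrArg (constantCoeff (R := ZMod p)) hRu
    rw [huc, map_mul, huc', mul_one] at e
    exact e.symm
  have hne : ∀ f : (ZMod p)⟦X⟧, constantCoeff f = 1 → f ≠ 0 := by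
    rintro f hf rfl
    rw [map_zero] at hf
    exact zero_ne_one hf
  have hsc : ∀ (f : (ZMod p)⟦X⟧) (n : ℕ), constantCoeff f = 1 → constantCoeff (f.subst (m n)) = 1 :=
    fun f n hf => by rw [Vr.const_subst (hm0 n), hf]
  have hRn : ∀ n, u.subst (m n) = R.subst (m n) * u'.subst (m n) := fun n => by
    conv_lhs => rw [hRu]
    exact PowerSeries.subst_mul (hms n) R u'
  have hR3 : ∀ n, R.subst (m (n + 2)) * R.subst (m n) = R.subst (m (n + 1)) ^ 2 * R ^ 2 := by
    intro n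
    have e := h3 n
    rw [hRn, hRn, hRn] at e
    have e' := h3' n
    have hz : u'.subst (m (n + 2)) * u'.subst (m n) ≠ 0 :=
      mul_ne_zero (hne _ (hsc _ _ huc')) (hne _ (hsc _ _ huc'))
    apply mul_right_cancel₀ hz
    have e2 : u ^ 2 = R ^ 2 * u' ^ 2 := by rw [← mul_pow, ← hRu]
    rw [e2] at e
    linear_combination e - R.subst (m (n + 1)) ^ 2 * R ^ 2 * e'
  have hm00 : m 0 = 0 := by
    rw [← hm1, hMT.M0, map_zero]
  have hm11 : m 1 = X := by
    have e1 := hMT.hM 0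
    rw [hMT.M0, hMT.T0] at e1
    simp only [Vr.QQ, Vr.SS, Vr.EE] at e1
    have e2 : M 1 = X := by simpa using e1
    rw [← hm1, e2, PowerSeries.map_X]
  have key : ∀ n, R.subst (m n) = R ^ n ^ 2 ∧ R.subst (m (n + 1)) = R ^ (n + 1) ^ 2 := by
    intro n
    induction n with
    | zero =>
      constructor
      · have e1 : R.subst (m 0) = 1 := by
          rw [hm00]
          have e2 := PowerSeries.subst_zero_eq_C_constantCoeff (f := R) (τ := Unit) (S := ZMod p)
          rw [hRc] at e2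
          simpa using e2
        rw [e1, zero_pow two_ne_zero, pow_zero]
      · rw [zero_add, hm11, one_pow, pow_one]
        exact PowerSeries.X_subst R
    | succ n ih =>
      refine ⟨ih.2, ?_⟩
      have e := hR3 n
      rw [ih.1, ih.2] at e
      apply mul_right_cancel₀ (pow_ne_zero (n ^ 2) (hne R hRc))
      change R.subst (m (n + 2)) * R ^ n ^ 2 = _
      rw [e, ← pow_mul, ← pow_add, ← pow_add]
      congr 1
      ring
  obtain ⟨h, hh, hh0, hh1⟩ := Vr.exists_h hpq hq hMT (hasse_of_goodOrdinary hpq hq h1)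
  have hRp : R.subst (h ^ p) = R ^ p ^ 2 := by
    rw [← hh, hm1]
    exact (key p).1
  have hR1 := zuB_one hh0 hh1 hRc hRp
  rw [hRu, hR1, one_mul]

end Pool.Agent.Lib.MP_3550b5_nt.AC
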