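import Mathlib
import Pool.Agent.Lib.MP_3550b5_nt.AC.ZuB

/-!
PROJECT AC, block ORD: the sigma function modulo `p` depends on the curve modulo `p` only.
-/

namespace Pool.Agent.Lib.MP_3550b5_nt.AC

open PowerSeries

variable {p : ℕ} [hp : Fact p.Prime]

private theorem zuC_one (p : ℕ) [Fact p.Prime] (hp5 : 5 ≤ p) {a b : ℤ} (hord : GoodOrdinary p a b)
    {c : ℤ_[p]} {U : ℤ_[p]⟦X⟧} (hU : IsSigmaU (a : ℤ_[p]) (b : ℤ_[p]) c U) :
    ∃ D : ℕ, ∀ (I J : ℕ) (P : Polynomial (Polynomial (ZMod p))), P ≠ 0 → P.natDegree ≤ J →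
      (∀ j, (P.coeff j).natDegree ≤ I) → ∃ m ≤ D * (J * (I + J)) + I,
        coeff m (Vr.evY (PowerSeries.map (PadicInt.toZMod (p := p)) U) P) ≠ 0 := by
  obtain ⟨h, g, h0, h1, hh, hg, hg1, FE⟩ := Vr.exists_FE hp5 hord hU
  have hN := Vr.notRat_map hp5 hord hU
  have hf : constantCoeff (PowerSeries.map (PadicInt.toZMod (p := p)) U) = 1 := by
    rw [← coeff_zero_eq_constantCoeff_apply, coeff_map, coeff_zero_eq_constantCoeff_apply,
      hU.1, map_one]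
  exact Vr.order_bound_p hf h0 h1 hh hg hg1 FE hN

/-- A UNIFORM ORDER BOUND. PROOF. For every `(α, β) ∈ ZMod p × ZMod p` for which there are `a, b, c, U` as below with `a = α`, `b = β` choose one and take `D` of `Vr.order_bound_p`
(hypotheses as in the proof of `Vr.exists_unit_coeff`: `Vr.exists_FE`, `Vr.notRat_map`); the maximum over the finite set `ZMod p × ZMod p`; `sigU_unique`. -/
theorem uniform_order (p : ℕ) [Fact p.Prime] (hp5 : 5 ≤ p) : ∃ D : ℕ, ∀ a b : ℤ, GoodOrdinary p a b →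
    ∀ (c : ℤ_[p]) (U : ℤ_[p]⟦X⟧), IsSigmaU (a : ℤ_[p]) (b : ℤ_[p]) c U →
      ∀ (I J : ℕ) (P : Polynomial (Polynomial (ZMod p))), P ≠ 0 → P.natDegree ≤ J →
        (∀ j, (P.coeff j).natDegree ≤ I) → ∃ m ≤ D * (J * (I + J)) + I,
          coeff m (Vr.evY (PowerSeries.map (PadicInt.toZMod (p := p)) U) P) ≠ 0 := by
  have key : ∀ α : ZMod p × ZMod p, ∃ D : ℕ, ∀ a b : ℤ, GoodOrdinary p a b →
      ((a : ZMod p) = α.1) → ((b : ZMod p) = α.2) →
      ∀ (c : ℤ_[p]) (U : ℤ_[p]⟦X⟧), IsSigmaU (a : ℤ_[p]) (b : ℤ_[p]) c U →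
      ∀ (I J : ℕ) (P : Polynomial (Polynomial (ZMod p))), P ≠ 0 → P.natDegree ≤ J →
        (∀ j, (P.coeff j).natDegree ≤ I) → ∃ m ≤ D * (J * (I + J)) + I,
          coeff m (Vr.evY (PowerSeries.map (PadicInt.toZMod (p := p)) U) P) ≠ 0 := by
    intro α
    by_cases hα : ∃ a b : ℤ, GoodOrdinary p a b ∧ ((a : ZMod p) = α.1) ∧ ((b : ZMod p) = α.2) ∧
        ∃ (c : ℤ_[p]) (U : ℤ_[p]⟦X⟧), IsSigmaU (a : ℤ_[p]) (b : ℤ_[p]) c U
    · obtain ⟨a, b, hord, ha, hb, c, U, hU⟩ := hα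
      obtain ⟨D, hD⟩ := zuC_one p hp5 hord hU
      refine ⟨D, fun a' b' hord' ha' hb' c' U' hU' => ?_⟩
      rw [sigU_unique hp5 hord' hord (ha'.trans ha.symm) (hb'.trans hb.symm) hU' hU]
      exact hD
    · refine ⟨0, fun a' b' hord' ha' hb' c' U' hU' => ?_⟩
      exact absurd ⟨a', b', hord', ha', hb', c', U', hU'⟩ hα
  choose D hD using key
  refine ⟨Finset.univ.sup D, fun a b hord c U hU I J P hP hJ hI => ?_⟩
  obtain ⟨m, hm, hne⟩ := hD ((a : ZMod p), (b : ZMod p)) a b hord rfl rfl c U hU I J P hP hJ hI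
  refine ⟨m, hm.trans ?_, hne⟩
  have h1 : D ((a : ZMod p), (b : ZMod p)) ≤ Finset.univ.sup D :=
    Finset.le_sup (f := D) (Finset.mem_univ _)
  exact Nat.add_le_add_right (Nat.mul_le_mul_right _ h1) _

end Pool.Agent.Lib.MP_3550b5_nt.AC
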