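import Mathlib
import Pool.Agent.Lib.MP_3550b5_nt.TP.L1Form
import Pool.Agent.Lib.MP_3550b5_nt.SV.FLoc
import Pool.Agent.Lib.MP_3550b5_nt.AC.ZuC

/-!
PROJECT AC, block ORD: the sigma function modulo `p` depends on the curve modulo `p` only.
-/

namespace Pool.Agent.Lib.MP_3550b5_nt.AC

open PowerSeries

variable {p : ℕ} [hp : Fact p.Prime]

/-- `σ^2 / r` as a power series in `r = 1 / x = T^2 W`. PROOF. `sigmaData_of_SD`, `exists_evData`, `isSigmaU_of_evData` with `D = Di = 1`: `U = (subst (X Fi) S')^2 Fi`, `Fi = 1 / (1 + a X^2 + b X^3)`, `S = expand 2 S'`.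
Substitute `X ↦ r = X^2 W`: `1 + a r^2 + b r^3 = W` (`h.hW`), so `Fi ↦ V`, `X Fi ↦ X^2`, `subst (X^2) S' = expand 2 S' = S`. -/
theorem sd_U {a b c : ℤ_[p]} {W V Om S Z : ℤ_[p]⟦X⟧} (h : SV.SD a b c W V Om S Z) :
    ∃ U : ℤ_[p]⟦X⟧, IsSigmaU a b c U ∧ V * S ^ 2 = U.subst (X ^ 2 * W) := by
  obtain ⟨W₁, V₁, Om₁, S₁, Z₁, hS₁, hE⟩ := exists_evData (SV.sigmaData_of_SD h)
  have hFu : IsUnit (l1F a b) := by
    rw [PowerSeries.isUnit_iff_constantCoeff, l1F_const]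
    exact isUnit_one
  obtain ⟨Fi, hFi⟩ := hFu.exists_right_inv
  have hE' : EvData p (a * 1 ^ 2) (b * 1 ^ 3) c W₁ V₁ Om₁ S₁ Z₁ := by
    rw [one_pow, one_pow, mul_one, mul_one]
    exact hE
  have hU := isSigmaU_of_evData (D := 1) (Di := 1) (by rw [mul_one]) hFi hE'
  rw [mul_one] at hU
  refine ⟨_, hU, ?_⟩
  have hs : HasSubst (X ^ 2 * W : ℤ_[p]⟦X⟧) := by
    apply HasSubst.of_constantCoeff_zero'
    rw [map_mul, map_pow, constantCoeff_X]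
    simp
  have hs1 : HasSubst (C 1 * X * Fi : ℤ_[p]⟦X⟧) := l1_hasSubst Fi
  have hF : subst (X ^ 2 * W : ℤ_[p]⟦X⟧) (l1F a b) = W := by
    rw [l1F, subst_add hs, subst_add hs, subst_mul hs, subst_mul hs, subst_pow hs, subst_pow hs,
      subst_X hs, show subst (X ^ 2 * W : ℤ_[p]⟦X⟧) (1 : ℤ_[p]⟦X⟧) = 1 by
        rw [← coe_substAlgHom hs, map_one],
      show subst (X ^ 2 * W : ℤ_[p]⟦X⟧) (C a : ℤ_[p]⟦X⟧) = C a from subst_C _,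
      show subst (X ^ 2 * W : ℤ_[p]⟦X⟧) (C b : ℤ_[p]⟦X⟧) = C b from subst_C _]
    linear_combination -h.hW
  have hFi' : subst (X ^ 2 * W : ℤ_[p]⟦X⟧) Fi = V := by
    have e : subst (X ^ 2 * W : ℤ_[p]⟦X⟧) (l1F a b * Fi) =
        subst (X ^ 2 * W : ℤ_[p]⟦X⟧) (1 : ℤ_[p]⟦X⟧) := by rw [hFi]
    rw [subst_mul hs, hF, ← coe_substAlgHom hs, map_one, coe_substAlgHom hs] at e
    linear_combination V * e - (subst (X ^ 2 * W : ℤ_[p]⟦X⟧) Fi) * h.hV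
  have hG : subst (X ^ 2 * W : ℤ_[p]⟦X⟧) (C 1 * X * Fi : ℤ_[p]⟦X⟧) = X ^ 2 := by
    rw [subst_mul hs, subst_mul hs, subst_X hs, hFi',
      show subst (X ^ 2 * W : ℤ_[p]⟦X⟧) (C 1 : ℤ_[p]⟦X⟧) = C 1 from subst_C _, map_one]
    linear_combination (X ^ 2 : ℤ_[p]⟦X⟧) * h.hV
  have hSS : subst (X ^ 2 * W : ℤ_[p]⟦X⟧) (subst (C 1 * X * Fi : ℤ_[p]⟦X⟧) S₁ : ℤ_[p]⟦X⟧) = S := by
    rw [subst_comp_subst_apply hs1 hs, hG, hS₁, expand_apply]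
  rw [subst_mul hs, subst_pow hs, hSS, hFi']
  ring

end Pool.Agent.Lib.MP_3550b5_nt.AC
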