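import Mathlib
import Pool.Agent.Lib.MP_3550b5_nt.AC.ZuD

/-!
PROJECT AC, block ORD: the sigma function modulo `p` depends on the curve modulo `p` only.
-/

namespace Pool.Agent.Lib.MP_3550b5_nt.AC

open PowerSeries

variable {p : ℕ} [hp : Fact p.Prime]

section zue

variable {k : Type} [Field k]

/-- the monomial of index `s` -/
private noncomputable def zueM (v : k) (G : MvPolynomial (Fin 2) k) (s : Fin 2 →₀ ℕ) :
    Polynomial (Polynomial k) :=
  Polynomial.monomial (s 0 / 2 + s 1)
    (Polynomial.monomial (s 0 / 2) (G.coeff s * (v ^ 2) ^ (s 0 / 2 + s 1)))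

/-- the part of parity `ε` -/
private noncomputable def zueP (v : k) (G : MvPolynomial (Fin 2) k) (e : ℕ) :
    Polynomial (Polynomial k) :=
  ∑ s ∈ G.support.filter (fun s => s 0 % 2 = e), zueM v G s

private theorem zue_ne {v : k} (hv : v ≠ 0) {G : MvPolynomial (Fin 2) k} {e : ℕ} {s : Fin 2 →₀ ℕ}
    (hs : s ∈ G.support) (he : s 0 % 2 = e) : zueP v G e ≠ 0 := by
  intro h
  have h1 : ((zueP v G e).coeff (s 0 / 2 + s 1)).coeff (s 0 / 2) =
      G.coeff s * (v ^ 2) ^ (s 0 / 2 + s 1) := by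
    unfold zueP
    rw [Polynomial.finset_sum_coeff, Polynomial.finset_sum_coeff]
    rw [Finset.sum_eq_single s]
    · unfold zueM
      rw [Polynomial.coeff_monomial, if_pos rfl, Polynomial.coeff_monomial, if_pos rfl]
    · intro t ht hts
      unfold zueM
      rw [Polynomial.coeff_monomial]
      split_ifs with h1
      · rw [Polynomial.coeff_monomial, if_neg]
        intro h2
        apply hts
        have h3 := (Finset.mem_filter.1 ht).2
        ext i
        fin_cases i
        · change t 0 = s 0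
          omega
        · change t 1 = s 1
          omega
      · exact Polynomial.coeff_zero _
    · intro h2
      exact absurd (Finset.mem_filter.2 ⟨hs, he⟩) h2
  rw [h, Polynomial.coeff_zero, Polynomial.coeff_zero] at h1
  have h2 : G.coeff s ≠ 0 := MvPolynomial.mem_support_iff.1 hs
  exact mul_ne_zero h2 (pow_ne_zero _ (pow_ne_zero _ hv)) h1.symm

private theorem zue_le {v : k} {G : MvPolynomial (Fin 2) k} {w e : ℕ}
    (hw : ∀ i, G.degreeOf i ≤ w) : (zueP v G e).natDegree ≤ (w - e) / 2 + w ∧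
      ∀ j, ((zueP v G e).coeff j).natDegree ≤ (w - e) / 2 := by
  have hs : ∀ s ∈ G.support.filter (fun s => s 0 % 2 = e), s 0 / 2 ≤ (w - e) / 2 ∧ s 1 ≤ w := by
    intro s hs
    obtain ⟨h1, h2⟩ := Finset.mem_filter.1 hs
    have h3 := MvPolynomial.degreeOf_le_iff.1 (hw 0) s h1
    have h4 := MvPolynomial.degreeOf_le_iff.1 (hw 1) s h1
    omega
  constructor
  · unfold zueP
    refine Polynomial.natDegree_sum_le_of_forall_le _ _ fun s hs' => ?_
    refine (Polynomial.natDegree_monomial_le _).trans ?_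
    have := hs s hs'
    omega
  · intro j
    unfold zueP
    rw [Polynomial.finset_sum_coeff]
    refine Polynomial.natDegree_sum_le_of_forall_le _ _ fun s hs' => ?_
    unfold zueM
    rw [Polynomial.coeff_monomial]
    split_ifs
    · exact (Polynomial.natDegree_monomial_le _).trans (hs s hs').1
    · rw [Polynomial.natDegree_zero]
      exact Nat.zero_le _

private theorem zue_zero {v : k} {G : MvPolynomial (Fin 2) k} {w e : ℕ}
    (hw : ∀ i, G.degreeOf i ≤ w) (he : w < e) : zueP v G e = 0 := by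
  unfold zueP
  rw [Finset.filter_eq_empty_iff.2, Finset.sum_empty]
  intro s hs h2
  have h3 := MvPolynomial.degreeOf_le_iff.1 (hw 0) s hs
  omega

private theorem zue_mul {P Q : Polynomial (Polynomial k)} {a b : ℕ}
    (hP : ∀ j, (P.coeff j).natDegree ≤ a) (hQ : ∀ j, (Q.coeff j).natDegree ≤ b) (j : ℕ) :
    ((P * Q).coeff j).natDegree ≤ a + b := by
  rw [Polynomial.coeff_mul]
  refine Polynomial.natDegree_sum_le_of_forall_le _ _ fun x _ => ?_
  exact Polynomial.natDegree_mul_le_of_le (hP _) (hQ _)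

private theorem zue_eval {v : k} {G : MvPolynomial (Fin 2) k} {R : Type} [CommRing R] [Algebra k R]
    {r Y d : R} (hd : d ^ 2 = algebraMap k R (v ^ 2) * r * Y) :
    MvPolynomial.aeval ![d, algebraMap k R (v ^ 2) * Y] G =
      (zueP v G 0).eval₂ (Polynomial.aeval r : Polynomial k →ₐ[k] R).toRingHom Y +
        d * (zueP v G 1).eval₂ (Polynomial.aeval r : Polynomial k →ₐ[k] R).toRingHom Y := by
  have key : ∀ s : Fin 2 →₀ ℕ,
      (zueM v G s).eval₂ (Polynomial.aeval r : Polynomial k →ₐ[k] R).toRingHom Y =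
        algebraMap k R (G.coeff s) * (d ^ 2) ^ (s 0 / 2) * (algebraMap k R (v ^ 2) * Y) ^ s 1 := by
    intro s
    unfold zueM
    rw [Polynomial.eval₂_monomial]
    have h1 : (Polynomial.aeval r : Polynomial k →ₐ[k] R).toRingHom
        (Polynomial.monomial (s 0 / 2) (G.coeff s * (v ^ 2) ^ (s 0 / 2 + s 1))) =
        algebraMap k R (G.coeff s * (v ^ 2) ^ (s 0 / 2 + s 1)) * r ^ (s 0 / 2) :=
      Polynomial.aeval_monomial r
    rw [h1, hd, map_mul, map_pow]
    ring
  have h0 : ∀ e : ℕ, (zueP v G e).eval₂ (Polynomial.aeval r : Polynomial k →ₐ[k] R).toRingHom Y =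
      ∑ s ∈ G.support.filter (fun s => s 0 % 2 = e), algebraMap k R (G.coeff s) *
        (d ^ 2) ^ (s 0 / 2) * (algebraMap k R (v ^ 2) * Y) ^ s 1 := by
    intro e
    unfold zueP
    rw [Polynomial.eval₂_finset_sum]
    exact Finset.sum_congr rfl fun s _ => key s
  rw [h0, h0, MvPolynomial.aeval_def, MvPolynomial.eval₂_eq', Finset.mul_sum,
    ← Finset.sum_filter_add_sum_filter_not G.support (fun s => s 0 % 2 = 0)]
  have h2 : G.support.filter (fun s => ¬ s 0 % 2 = 0) =
      G.support.filter (fun s => s 0 % 2 = 1) :=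
    Finset.filter_congr fun s _ => by omega
  rw [h2]
  congr 1
  · refine Finset.sum_congr rfl fun s hs => ?_
    have h3 := (Finset.mem_filter.1 hs).2
    have h4 : d ^ (s 0) = (d ^ 2) ^ (s 0 / 2) := by
      rw [← pow_mul]
      congr 1
      omega
    rw [Fin.prod_univ_two, Matrix.cons_val_zero, Matrix.cons_val_one, h4, mul_assoc]
    rfl
  · refine Finset.sum_congr rfl fun s hs => ?_
    have h3 := (Finset.mem_filter.1 hs).2
    have h4 : d ^ (s 0) = d * (d ^ 2) ^ (s 0 / 2) := by
      rw [← pow_mul, ← pow_succ']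
      congr 1
      omega
    rw [Fin.prod_univ_two, Matrix.cons_val_zero, Matrix.cons_val_one, h4]
    change algebraMap k R (G.coeff s) * (d * (d ^ 2) ^ (s 0 / 2) *
      (algebraMap k R (v ^ 2) * Y) ^ s 1) = _
    ring

end zue

/-- THE NORM to the field of the curve modulo `± 1`. PROOF. `N = G(D, A) G(-D, A)` is invariant under `D ↦ -D`: only even powers of `D` (`p` odd is not needed: `G = G₀(D^2, A) + D G₁(D^2, A)`,
`N = G₀^2 - D^2 G₁^2`), nonzero, of degree at most `2 w` in `D` and in `A`. `P = ∑ N_(2i, j) v^(2i + 2j) X^i Y^(i + j)`; the map `(i, j) ↦ (i, i + j)` is injective. -/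
theorem exists_norm {k : Type} [Field k] {v : k} (hv : v ≠ 0) {G : MvPolynomial (Fin 2) k} (hG : G ≠ 0) {w : ℕ}
    (hw : ∀ i, G.degreeOf i ≤ w) : ∃ P : Polynomial (Polynomial k), P ≠ 0 ∧ P.natDegree ≤ 3 * w ∧
      (∀ j, (P.coeff j).natDegree ≤ w) ∧ ∀ (R : Type) [CommRing R] [Algebra k R] (r Y d : R),
        d ^ 2 = algebraMap k R (v ^ 2) * r * Y →
        MvPolynomial.aeval ![d, algebraMap k R (v ^ 2) * Y] G * MvPolynomial.aeval ![-d, algebraMap k R (v ^ 2) * Y] G =
          P.eval₂ (Polynomial.aeval r : Polynomial k →ₐ[k] R).toRingHom Y := by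
  obtain ⟨P₀, hP₀⟩ : ∃ P₀, P₀ = zueP v G 0 := ⟨_, rfl⟩
  obtain ⟨P₁, hP₁⟩ : ∃ P₁, P₁ = zueP v G 1 := ⟨_, rfl⟩
  obtain ⟨Q, hQ⟩ : ∃ Q : Polynomial (Polynomial k),
    Q = Polynomial.C (Polynomial.C (v ^ 2) * Polynomial.X) * Polynomial.X := ⟨_, rfl⟩
  have hc : Polynomial.C (v ^ 2) * Polynomial.X ≠ (0 : Polynomial k) :=
    mul_ne_zero (Polynomial.C_ne_zero.2 (pow_ne_zero 2 hv)) Polynomial.X_ne_zero
  have hQd : Q.natDegree = 1 := by
    rw [hQ]
    exact Polynomial.natDegree_C_mul_X _ hc
  have hQ0 : Q ≠ 0 := by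
    intro h
    rw [h, Polynomial.natDegree_zero] at hQd
    exact zero_ne_one hQd
  have hQi : ∀ j, (Q.coeff j).natDegree ≤ 1 := by
    intro j
    rw [hQ, Polynomial.coeff_C_mul, Polynomial.coeff_X]
    split_ifs
    · rw [mul_one]
      exact (Polynomial.natDegree_C_mul_X _ (pow_ne_zero 2 hv)).le
    · rw [mul_zero, Polynomial.natDegree_zero]
      exact Nat.zero_le _
  have a0 := zue_le (v := v) (e := 0) hw
  have a1 := zue_le (v := v) (e := 1) hw
  rw [← hP₀] at a0
  rw [← hP₁] at a1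
  -- the second summand
  have hsec : (Q * (P₁ * P₁)).natDegree ≤ 3 * w ∧
      ∀ j, ((Q * (P₁ * P₁)).coeff j).natDegree ≤ w := by
    rcases Nat.eq_zero_or_pos w with hw0 | hw1
    · have h1 : P₁ = 0 := by
        rw [hP₁]
        exact zue_zero hw (by omega)
      rw [h1, mul_zero, mul_zero]
      refine ⟨by rw [Polynomial.natDegree_zero]; exact Nat.zero_le _, fun j => ?_⟩
      rw [Polynomial.coeff_zero, Polynomial.natDegree_zero]
      exact Nat.zero_le _
    · constructor
      · have h1 := Polynomial.natDegree_mul_le (p := P₁) (q := P₁)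
        have h2 := Polynomial.natDegree_mul_le (p := Q) (q := P₁ * P₁)
        rw [hQd] at h2
        have h3 := a1.1
        omega
      · intro j
        have h1 := zue_mul hQi (zue_mul a1.2 a1.2) j
        omega
  refine ⟨P₀ * P₀ - Q * (P₁ * P₁), ?_, ?_, ?_, ?_⟩
  · intro h
    have h1 : P₀ * P₀ = Q * (P₁ * P₁) := sub_eq_zero.1 h
    have h2 : P₁ = 0 := by
      by_contra h3
      have h4 : P₀ ≠ 0 := by
        intro h5
        rw [h5, zero_mul] at h1
        exact mul_ne_zero hQ0 (mul_ne_zero h3 h3) h1.symm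
      have h5 := congrArg Polynomial.natDegree h1
      rw [Polynomial.natDegree_mul h4 h4, Polynomial.natDegree_mul hQ0 (mul_ne_zero h3 h3),
        Polynomial.natDegree_mul h3 h3, hQd] at h5
      omega
    have h3 : P₀ = 0 := by
      rw [h2, mul_zero, mul_zero] at h1
      exact mul_self_eq_zero.1 h1
    obtain ⟨s, hs⟩ : G.support.Nonempty := MvPolynomial.support_nonempty.2 hG
    rcases Nat.mod_two_eq_zero_or_one (s 0) with h4 | h4
    · exact zue_ne hv hs h4 (hP₀ ▸ h3)
    · exact zue_ne hv hs h4 (hP₁ ▸ h2)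
  · refine (Polynomial.natDegree_sub_le _ _).trans (max_le ?_ hsec.1)
    have h1 := Polynomial.natDegree_mul_le (p := P₀) (q := P₀)
    have h3 := a0.1
    omega
  · intro j
    rw [Polynomial.coeff_sub]
    refine (Polynomial.natDegree_sub_le _ _).trans (max_le ?_ (hsec.2 j))
    have h1 := zue_mul a0.2 a0.2 j
    omega
  · intro R _ _ r Y d hd
    have hd' : (-d) ^ 2 = algebraMap k R (v ^ 2) * r * Y := by
      rw [neg_sq]
      exact hd
    rw [zue_eval hd, zue_eval hd', ← hP₀, ← hP₁, Polynomial.eval₂_sub, Polynomial.eval₂_mul,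
      Polynomial.eval₂_mul, Polynomial.eval₂_mul, hQ, Polynomial.eval₂_mul, Polynomial.eval₂_C,
      Polynomial.eval₂_X]
    have h1 : (Polynomial.aeval r : Polynomial k →ₐ[k] R).toRingHom
        (Polynomial.C (v ^ 2) * Polynomial.X) = algebraMap k R (v ^ 2) * r := by
      change Polynomial.aeval r (Polynomial.C (v ^ 2) * Polynomial.X) = _
      rw [map_mul, Polynomial.aeval_C, Polynomial.aeval_X]
    rw [h1, ← hd]
    ring

end Pool.Agent.Lib.MP_3550b5_nt.AC
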