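import Mathlib
import Pool.Agent.Lib.MP_3550b5_nt.AC.ZuE

/-!
PROJECT AC, block ORD: the sigma function modulo `p` depends on the curve modulo `p` only.
-/

namespace Pool.Agent.Lib.MP_3550b5_nt.AC

open PowerSeries

variable {p : ℕ} [hp : Fact p.Prime]

/-- The value of a bivariate polynomial after a substitution. -/
private theorem zu_subst {k : Type} [Field k] {f r : k⟦X⟧} (hs : HasSubst r)
    (P : Polynomial (Polynomial k)) :
    (Vr.evY f P).subst r =
      P.eval₂ (Polynomial.aeval r : Polynomial k →ₐ[k] k⟦X⟧).toRingHom (f.subst r) := by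
  rw [Vr.evY, ← coe_substAlgHom hs]
  have h1 := Polynomial.hom_eval₂ P Polynomial.coeToPowerSeries.ringHom
    (substAlgHom hs).toRingHom f
  refine Eq.trans ?_ (h1.trans ?_)
  · rfl
  · have h2 : (substAlgHom hs).toRingHom.comp Polynomial.coeToPowerSeries.ringHom =
        (Polynomial.aeval r : Polynomial k →ₐ[k] k⟦X⟧).toRingHom := by
      ext q
      · exact congrArg _ (substAlgHom_coe hs (Polynomial.C q))
      · exact congrArg _ (substAlgHom_coe hs Polynomial.X)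
    rw [h2]
    rfl

/-- The first coefficient after the substitution of a series which starts with `X ^ 2`. -/
private theorem zu_coeff {k : Type} [Field k] {f g : k⟦X⟧} (hg : constantCoeff g = 1) {n : ℕ}
    (hn : coeff n f ≠ 0) (hlt : ∀ m < n, coeff m f = 0) :
    coeff (2 * n) (f.subst (X ^ 2 * g)) ≠ 0 := by
  have hs : HasSubst (X ^ 2 * g : k⟦X⟧) := HasSubst.of_constantCoeff_zero' (by simp)
  obtain ⟨q, rfl⟩ := (X_pow_dvd_iff (n := n) (φ := f)).2 hlt
  have hq : coeff 0 q ≠ 0 := by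
    have : coeff n (X ^ n * q) = coeff 0 q := by
      have h := coeff_X_pow_mul q n 0
      rwa [zero_add] at h
    rwa [this] at hn
  rw [← coe_substAlgHom hs, map_mul, map_pow, substAlgHom_X hs, mul_pow, ← pow_mul, mul_assoc]
  have h := coeff_X_pow_mul (g ^ n * substAlgHom hs q) (2 * n) 0
  rw [zero_add] at h
  rw [h, coeff_zero_eq_constantCoeff_apply, map_mul, map_pow, hg, one_pow, one_mul]
  have h3 : constantCoeff (substAlgHom hs q) = constantCoeff q := by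
    have h4 : X ∣ q - C (constantCoeff q) := by
      rw [X_dvd_iff, map_sub, constantCoeff_C, sub_self]
    obtain ⟨s, hs'⟩ := h4
    have h5 : q = C (constantCoeff q) + X * s := by rw [← hs']; ring
    have h6 : substAlgHom hs q = C (constantCoeff q) + (X ^ 2 * g) * substAlgHom hs s := by
      conv_lhs => rw [h5]
      rw [map_add, map_mul, substAlgHom_X hs]
      congr 1
      exact AlgHom.commutes (substAlgHom hs) _
    rw [h6]
    simp
  rw [h3]
  rwa [coeff_zero_eq_constantCoeff_apply] at hq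

/-- THE ORDER IN `T`. PROOF. `D` of `uniform_order`; `sd_U`, `U₁ = U` modulo `p`, `r = X^2 W` modulo `p`; `exists_norm` with `v` = `u` modulo `p`, `d = u X S`, `Y = U₁(r) = V S^2`: `d^2 = v^2 r Y` (`W V = 1`).
`G(d, A) G(-d, A) = (evY U₁ P)(r)` (`subst` is a ring homomorphism: `substAlgHom`). `evY U₁ P` has a nonzero coefficient of index at most `12 D w^2 + w`; the first one, `m₁`: after the substitution
the coefficient of `X^(2 m₁)` is not `0` (`W` has constant coefficient `1`). So the first factor has a nonzero coefficient of index at most `2 m₁ ≤ (24 D + 2) (w + 1)^2`. -/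
theorem order_DA (p : ℕ) [Fact p.Prime] (hp5 : 5 ≤ p) : ∃ C₁ : ℕ, ∀ a b : ℤ, GoodOrdinary p a b →
    ∀ (c : ℤ_[p]) (W V Om S Z : ℤ_[p]⟦X⟧), SV.SD (a : ℤ_[p]) (b : ℤ_[p]) c W V Om S Z → ∀ u : ℤ_[p], IsUnit u →
      ∀ (w : ℕ) (G : MvPolynomial (Fin 2) (ZMod p)), G ≠ 0 → (∀ i, G.degreeOf i ≤ w) → ∃ m ≤ C₁ * (w + 1) ^ 2,
        coeff m (MvPolynomial.aeval ![PowerSeries.map (PadicInt.toZMod (p := p)) (C u * X * S),
          PowerSeries.map (PadicInt.toZMod (p := p)) (C (u ^ 2) * V * S ^ 2)] G) ≠ 0 := by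
  classical
  obtain ⟨D, hD⟩ := uniform_order p hp5
  refine ⟨24 * D + 2, fun a b hab c W V Om S Z h u hu w G hG hw => ?_⟩
  obtain ⟨U, hU, hUS⟩ := sd_U h
  obtain ⟨v, hv⟩ : ∃ v : ZMod p, v = PadicInt.toZMod (p := p) u := ⟨_, rfl⟩
  have hv0 : v ≠ 0 := by
    rw [hv]
    exact (hu.map (PadicInt.toZMod (p := p))).ne_zero
  obtain ⟨P, hP0, hPJ, hPI, hPe⟩ := exists_norm hv0 hG hw
  obtain ⟨U₁, hU₁⟩ : ∃ U₁, U₁ = PowerSeries.map (PadicInt.toZMod (p := p)) U := ⟨_, rfl⟩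
  obtain ⟨W₁, hW₁⟩ : ∃ W₁, W₁ = PowerSeries.map (PadicInt.toZMod (p := p)) W := ⟨_, rfl⟩
  obtain ⟨V₁, hV₁⟩ : ∃ V₁, V₁ = PowerSeries.map (PadicInt.toZMod (p := p)) V := ⟨_, rfl⟩
  obtain ⟨S₁, hS₁⟩ : ∃ S₁, S₁ = PowerSeries.map (PadicInt.toZMod (p := p)) S := ⟨_, rfl⟩
  -- constant coefficients
  have hWc : constantCoeff W = 1 := by
    have h1 := congrArg constantCoeff h.hW
    simpa using h1
  have hW₁c : constantCoeff W₁ = 1 := by
    rw [hW₁, ← coeff_zero_eq_constantCoeff_apply, coeff_map, coeff_zero_eq_constantCoeff_apply,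
      hWc, map_one]
  have hWV : W₁ * V₁ = 1 := by
    rw [hW₁, hV₁, ← map_mul, h.hV, map_one]
  -- the reductions
  have hs : HasSubst (X ^ 2 * W : ℤ_[p]⟦X⟧) := HasSubst.of_constantCoeff_zero' (by simp)
  have hs₁ : HasSubst (X ^ 2 * W₁ : (ZMod p)⟦X⟧) := HasSubst.of_constantCoeff_zero' (by simp)
  have hY : U₁.subst (X ^ 2 * W₁ : (ZMod p)⟦X⟧) = V₁ * S₁ ^ 2 := by
    have h1 : PowerSeries.map (PadicInt.toZMod (p := p)) (U.subst (X ^ 2 * W : ℤ_[p]⟦X⟧)) =
        (PowerSeries.map (PadicInt.toZMod (p := p)) U).subst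
          (PowerSeries.map (PadicInt.toZMod (p := p)) (X ^ 2 * W)) :=
      PowerSeries.map_subst hs U
    rw [← hUS, map_mul, map_pow, map_mul, map_pow, map_X, ← hU₁, ← hW₁, ← hV₁, ← hS₁] at h1
    exact h1.symm
  have hd : PowerSeries.map (PadicInt.toZMod (p := p)) (C u * X * S) = C v * X * S₁ := by
    rw [map_mul, map_mul, map_X, map_C, ← hv, ← hS₁]
  have hA : PowerSeries.map (PadicInt.toZMod (p := p)) (C (u ^ 2) * V * S ^ 2) =
      algebraMap (ZMod p) (ZMod p)⟦X⟧ (v ^ 2) * (V₁ * S₁ ^ 2) := by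
    have e3 : PowerSeries.map (PadicInt.toZMod (p := p)) (S ^ 2) = S₁ ^ 2 := by
      rw [map_pow, ← hS₁]
    rw [map_mul, map_mul, map_C, e3, map_pow, ← hv, ← hV₁, mul_assoc]
    rfl
  rw [hd, hA]
  have hkey := hPe (ZMod p)⟦X⟧ (X ^ 2 * W₁) (V₁ * S₁ ^ 2) (C v * X * S₁) (by
    have e1 : algebraMap (ZMod p) (ZMod p)⟦X⟧ (v ^ 2) = C v ^ 2 := by
      rw [← map_pow]
      rfl
    rw [e1]
    linear_combination (-(C v ^ 2 * X ^ 2 * S₁ ^ 2)) * hWV)
  rw [← hY, ← zu_subst hs₁, hY] at hkey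
  -- the first coefficient
  obtain ⟨m, hm, hmc⟩ := hD a b hab c U hU w (3 * w) P hP0 hPJ hPI
  rw [← hU₁] at hmc
  have hex : ∃ n, coeff n (Vr.evY U₁ P) ≠ 0 := ⟨m, hmc⟩
  obtain ⟨n, hn⟩ : ∃ n, n = Nat.find hex := ⟨_, rfl⟩
  have hn1 : coeff n (Vr.evY U₁ P) ≠ 0 := by
    rw [hn]
    exact Nat.find_spec hex
  have hn2 : ∀ l < n, coeff l (Vr.evY U₁ P) = 0 := fun l hl => by
    have := Nat.find_min hex (hn ▸ hl)
    push Not at this
    exact this
  have hnm : n ≤ m := by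
    rw [hn]
    exact Nat.find_min' hex hmc
  have h1 := zu_coeff hW₁c hn1 hn2
  rw [← hkey] at h1
  -- the first factor
  by_contra hcon
  push Not at hcon
  have hdvd : X ^ (2 * n + 1) ∣ MvPolynomial.aeval ![C v * X * S₁,
      algebraMap (ZMod p) (ZMod p)⟦X⟧ (v ^ 2) * (V₁ * S₁ ^ 2)] G := by
    rw [X_pow_dvd_iff]
    intro l hl
    refine hcon l ?_
    have e2 : 2 * n ≤ (24 * D + 2) * (w + 1) ^ 2 := by
      calc 2 * n ≤ 2 * (D * (3 * w * (w + 3 * w)) + w) := by omega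
        _ ≤ (24 * D + 2) * (w + 1) ^ 2 := by nlinarith [Nat.zero_le (D * w), Nat.zero_le D]
    omega
  obtain ⟨q, hq⟩ := hdvd
  refine h1 ?_
  rw [hq, mul_assoc]
  exact X_pow_dvd_iff.1 (Dvd.intro _ rfl) (2 * n) (Nat.lt_succ_self _)

end Pool.Agent.Lib.MP_3550b5_nt.AC
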