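import Mathlib
import Pool.Agent.Lib.MP_3550b5_nt.AC.Jm
import Pool.Agent.Lib.MP_3550b5_nt.AC.Ol
import Pool.Agent.Lib.MP_3550b5_nt.AC.Zu
import Pool.Agent.Lib.MP_3550b5_nt.SV.EDisc
import Pool.Agent.Lib.MP_3550b5_nt.SV.NuMu

/-!
PROJECT AC, block LEAF OF A CLASS: the leaf `D = u T S`, `A = u^2 V S^2` of the deformation of the sigma function of
`y^2 = x^3 + a x + b₀` along `b = b₀ + p s`.
-/

namespace Pool.Agent.Lib.MP_3550b5_nt.AC

open PowerSeries SV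

variable {p : ℕ} [hp : Fact p.Prime]

/-- The leaf of a class. -/
structure SgL (a bs : ℤ) (u : ℤ_[p]) (L : Leaf p) (tay : Polynomial ℤ_[p] →+* Hz p) (rs : Hz p →+* ℤ_[p]⟦X⟧)
    (c k g h2 h3 : Hz p) (W V Om S Z N R : (Hz p)⟦X⟧) : Prop where
  tr : TR (bs : ℤ_[p]) (p : ℤ_[p]) tay rs
  df : Dfm (tay (Polynomial.C (a : ℤ_[p]))) (tay Polynomial.X) c k g h2 h3 W V Om S Z N R
  hu : IsUnit u
  eb : L.b0 = bs
  eD : L.DD = cc u * vt p * PowerSeries.map rs S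
  eA : L.AA = cc (u ^ 2) * PowerSeries.map rs V * PowerSeries.map rs S ^ 2

/-- PROOF. `exists_TR` with `g = p`, `disc_dfm` with the polynomials `C a`, `X`; `dT (u T S) = u (S + T S_T)` has constant coefficient (in `T`) `u`, a unit. -/
theorem exists_SgL (hp5 : 5 ≤ p) {a bs : ℤ} (hΔ : ¬ (p : ℤ) ∣ 4 * a ^ 3 + 27 * bs ^ 2) {c0 : ℤ_[p]}
    {W0 V0 Om0 S0 Z0 : ℤ_[p]⟦X⟧} (h : SD (a : ℤ_[p]) (bs : ℤ_[p]) c0 W0 V0 Om0 S0 Z0) {u : ℤ_[p]} (hu : IsUnit u) :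
    ∃ (L : Leaf p) (tay : Polynomial ℤ_[p] →+* Hz p) (rs : Hz p →+* ℤ_[p]⟦X⟧) (c k g h2 h3 : Hz p)
      (W V Om S Z N R : (Hz p)⟦X⟧), SgL a bs u L tay rs c k g h2 h3 W V Om S Z N R := by
  obtain ⟨tay, rs, ht⟩ := exists_TR hp5 (bs : ℤ_[p]) (g := (p : ℤ_[p]))
    ((PadicInt.norm_lt_one_iff_dvd _).2 dvd_rfl)
  have hU : IsUnit (4 * (a : ℤ_[p]) ^ 3 + 27 * (bs : ℤ_[p]) ^ 2) := by
    rw [PadicInt.isUnit_iff]
    by_contra hn
    apply hΔ
    rw [← PadicInt.norm_int_lt_one_iff_dvd]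
    refine lt_of_le_of_ne (PadicInt.norm_le_one _) ?_
    have e1 : (((4 * a ^ 3 + 27 * bs ^ 2 : ℤ)) : ℤ_[p]) =
        4 * (a : ℤ_[p]) ^ 3 + 27 * (bs : ℤ_[p]) ^ 2 := by
      push_cast
      ring
    rw [e1]
    exact hn
  obtain ⟨c, k, g, h2, h3, W, V, Om, S, Z, N, R, hd⟩ := disc_dfm hp5 ht
    (a := Polynomial.C (a : ℤ_[p])) (b := Polynomial.X)
    (by rw [Polynomial.eval_C, Polynomial.eval_X]; exact hU) (c0 := c0) (W0 := W0) (V0 := V0)
    (Om0 := Om0) (S0 := S0) (Z0 := Z0) (by rw [Polynomial.eval_C, Polynomial.eval_X]; exact h)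
  have hDD : IsUnit (dT p (cc u * vt p * PowerSeries.map rs S)) := by
    rw [isUnit_iff_constantCoeff]
    have e1 : constantCoeff (dT p (cc u * vt p * PowerSeries.map rs S)) = C u := by
      have e2 : dT p (cc u * vt p * PowerSeries.map rs S) =
          derivative ℤ_[p]⟦X⟧ (cc u * vt p * PowerSeries.map rs S) := rfl
      rw [e2, ← coeff_zero_eq_constantCoeff_apply, coeff_derivative, cc, vt, mul_assoc,
        coeff_C_mul, zero_add, show (1 : ℕ) = 0 + 1 from rfl, coeff_succ_X_mul, coeff_map,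
        coeff_zero_eq_constantCoeff_apply, hd.sd.S0, map_one]
      simp
    rw [e1]
    exact hu.map C
  exact ⟨⟨bs, _, cc (u ^ 2) * PowerSeries.map rs V * PowerSeries.map rs S ^ 2, hDD⟩, tay, rs, c, k,
    g, h2, h3, W, V, Om, S, Z, N, R, ⟨ht, hd, hu, rfl, rfl, rfl⟩⟩

variable {a bs : ℤ} {u : ℤ_[p]} {L : Leaf p} {tay : Polynomial ℤ_[p] →+* Hz p} {rs : Hz p →+* ℤ_[p]⟦X⟧}
  {c k g h2 h3 : Hz p} {W V Om S Z N R : (Hz p)⟦X⟧}

/-- PROOF. Coefficients (`rs_coeff`, `tay_C`, `tay_X`), as `h1`, `h2` in the proof of `disc_sc` (SV/EDisc). -/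
lemma SgL.rs_ab (h : SgL a bs u L tay rs c k g h2 h3 W V Om S Z N R) :
    (C (rs (tay (Polynomial.C (a : ℤ_[p])))) : O p) = (a : O p) ∧ (C (rs (tay Polynomial.X)) : O p) = L.bb := by
  have h1 : rs (tay (Polynomial.C (a : ℤ_[p]))) = C (a : ℤ_[p]) := by
    ext n
    apply Subtype.ext
    rw [h.tr.rs_coeff, h.tr.tay_C, coeff_C, coeff_C]
    split_ifs with hn
    · rw [hn, pow_zero, mul_one]
    · rw [zero_mul]
      rfl
  have h2 : rs (tay Polynomial.X) = C (bs : ℤ_[p]) + C (p : ℤ_[p]) * X := by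
    ext n
    apply Subtype.ext
    rw [h.tr.rs_coeff, h.tr.tay_X, map_add, map_add, coeff_C, coeff_C_mul, coeff_X, coeff_C,
      coeff_X]
    rcases Nat.lt_trichotomy n 1 with hn | hn | hn
    · obtain rfl : n = 0 := by omega
      simp
    · subst hn
      simp
    · rw [if_neg (by omega), if_neg (by omega), if_neg (by omega), if_neg (by omega)]
      simp
  rw [h1, h2, Leaf.bb, h.eb, cc, cc, vs, map_add, map_mul]
  refine ⟨?_, rfl⟩
  rw [map_intCast, map_intCast]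

end Pool.Agent.Lib.MP_3550b5_nt.AC
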