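import Mathlib
import Pool.Agent.Lib.MP_3550b5_nt.AC.LaA

/-!
PROJECT AC, block LEAF OF A CLASS: the leaf `D = u T S`, `A = u^2 V S^2` of the deformation of the sigma function of
`y^2 = x^3 + a x + b₀` along `b = b₀ + p s`.
-/

namespace Pool.Agent.Lib.MP_3550b5_nt.AC

open PowerSeries SV

variable {p : ℕ} [hp : Fact p.Prime]

variable {a bs : ℤ} {u : ℤ_[p]} {L : Leaf p} {tay : Polynomial ℤ_[p] →+* Hz p} {rs : Hz p →+* ℤ_[p]⟦X⟧}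
  {c k g h2 h3 : Hz p} {W V Om S Z N R : (Hz p)⟦X⟧}

/-- THE VALUES. PROOF. `evHom P.s`, `SD.map` for `rs` and for `evHom P.s`; `rs_ab` evaluated; `Pt.ev` is `evHom P.t` after `PowerSeries.map (evHom P.s)`. -/
theorem SgL.val (h : SgL a bs u L tay rs c k g h2 h3 W V Om S Z N R) (P : Pt p) :
    P.ev L.bb = (bs : ℤ_[p]) + p * P.s ∧ ∃ (c' : ℤ_[p]) (W' V' Om' S' Z' : ℤ_[p]⟦X⟧),
      SD (a : ℤ_[p]) ((bs : ℤ_[p]) + p * P.s) c' W' V' Om' S' Z' ∧ P.ev L.DD = u * (P.t * ev S' P.t) ∧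
      P.ev L.AA = u ^ 2 * ev V' P.t * ev S' P.t ^ 2 := by
  have hC : ∀ f : ℤ_[p]⟦X⟧, P.ev (C f : O p) = evHom P.s P.hs f := by
    intro f
    have h2 : P.ev (C f : O p) = evHom P.t P.ht (PowerSeries.map (evHom P.s P.hs) (C f)) := rfl
    rw [h2, PowerSeries.map_C, evHom_apply, ev_C]
  have hb : P.ev L.bb = (bs : ℤ_[p]) + p * P.s := by
    unfold Leaf.bb
    rw [map_add, map_mul, Pt.ev_cc, Pt.ev_cc, Pt.ev_vs, h.eb]
  obtain ⟨ha1, hb1⟩ := h.rs_ab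
  have ha2 : evHom P.s P.hs (rs (tay (Polynomial.C (a : ℤ_[p])))) = (a : ℤ_[p]) := by
    rw [← hC, ha1, map_intCast]
  have hb2 : evHom P.s P.hs (rs (tay Polynomial.X)) = (bs : ℤ_[p]) + p * P.s := by
    rw [← hC, hb1, hb]
  have hsd := (h.df.sd.map rs).map (evHom P.s P.hs)
  rw [ha2, hb2] at hsd
  have hev : ∀ F : (Hz p)⟦X⟧, P.ev (PowerSeries.map rs F) =
      ev (PowerSeries.map (evHom P.s P.hs) (PowerSeries.map rs F)) P.t := fun F => rfl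
  refine ⟨hb, _, _, _, _, _, _, hsd, ?_, ?_⟩
  · rw [h.eD, map_mul, map_mul, Pt.ev_cc, Pt.ev_vt, hev, mul_assoc]
  · rw [h.eA, map_mul, map_mul, map_pow, Pt.ev_cc, hev, hev]

end Pool.Agent.Lib.MP_3550b5_nt.AC
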