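import Mathlib
import Pool.Agent.Lib.MP_3550b5_nt.AC.LaB

/-!
PROJECT AC, block LEAF OF A CLASS: the leaf `D = u T S`, `A = u^2 V S^2` of the deformation of the sigma function of
`y^2 = x^3 + a x + b₀` along `b = b₀ + p s`.
-/

namespace Pool.Agent.Lib.MP_3550b5_nt.AC

open PowerSeries SV

variable {p : ℕ} [hp : Fact p.Prime]

variable {a bs : ℤ} {u : ℤ_[p]} {L : Leaf p} {tay : Polynomial ℤ_[p] →+* Hz p} {rs : Hz p →+* ℤ_[p]⟦X⟧}
  {c k g h2 h3 : Hz p} {W V Om S Z N R : (Hz p)⟦X⟧}

/-- Modulo `p` the series `rs f` is constant. PROOF. The coefficient of index `n ≥ 1` is `f_n p^n` with `n! f_n` integral, and `n!` is divisible at most by `p^((n - 1) / (p - 1))`,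
`(n - 1) / (p - 1) < n` (`sub_one_mul_padicValNat_factorial`). -/
lemma rs_const (hp5 : 5 ≤ p) (h : TR (bs : ℤ_[p]) (p : ℤ_[p]) tay rs) (f : Hz p) :
    PowerSeries.map (PadicInt.toZMod (p := p)) (rs f) = C (PadicInt.toZMod (constantCoeff (rs f))) := by
  ext n
  rw [PowerSeries.coeff_map, PowerSeries.coeff_C]
  split_ifs with hn
  · subst hn
    rw [PowerSeries.coeff_zero_eq_constantCoeff_apply]
  · by_contra hne
    have hu : ‖PowerSeries.coeff n (rs f)‖ = 1 := by
      by_contra hlt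
      apply hne
      have h1 : PowerSeries.coeff n (rs f) ∈ IsLocalRing.maximalIdeal ℤ_[p] := by
        rw [IsLocalRing.mem_maximalIdeal, PadicInt.mem_nonunits]
        exact lt_of_le_of_ne (PadicInt.norm_le_one _) hlt
      rw [← PadicInt.ker_toZMod] at h1
      exact h1
    have h2 := h.rs_coeff f n
    have h3 : ‖(n.factorial : ℚ_[p]) * PowerSeries.coeff n (f : PowerSeries ℚ_[p])‖ ≤ 1 := f.2 n
    have h4 : ‖((n.factorial : ℤ) : ℤ_[p])‖ ≤ (p : ℝ) ^ (-n : ℤ) := by
      have h5 : ((n.factorial : ℤ_[p]) : ℚ_[p]) * ((PowerSeries.coeff n (rs f) : ℤ_[p]) : ℚ_[p]) =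
          ((n.factorial : ℚ_[p]) * PowerSeries.coeff n (f : PowerSeries ℚ_[p])) * ((p : ℚ_[p]) ^ n) := by
        rw [h2]
        push_cast
        ring
      have h6 := congrArg norm h5
      rw [norm_mul, norm_mul _ ((p : ℚ_[p]) ^ n), norm_pow, Padic.norm_p, PadicInt.padic_norm_e_of_padicInt,
        PadicInt.padic_norm_e_of_padicInt, hu, mul_one] at h6
      rw [Int.cast_natCast, h6, zpow_neg, zpow_natCast, inv_pow]
      exact mul_le_of_le_one_left (by positivity) h3
    rw [PadicInt.norm_int_le_pow_iff_dvd] at h4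
    have h7 : p ^ n ∣ n.factorial := by exact_mod_cast h4
    have h8 := (padicValNat_dvd_iff_le (Nat.factorial_ne_zero n)).1 h7
    have h9 := sub_one_mul_padicValNat_factorial (p := p) n
    have h10 : (p - 1) * padicValNat p n.factorial ≤ n := by
      rw [h9]
      exact Nat.sub_le _ _
    have h11 : 4 * n ≤ (p - 1) * padicValNat p n.factorial := Nat.mul_le_mul (by omega) h8
    omega

end Pool.Agent.Lib.MP_3550b5_nt.AC
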