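import Mathlib
import Pool.Agent.Lib.MP_3550b5_nt.AC.LaC

/-!
PROJECT AC, block LEAF OF A CLASS: the leaf `D = u T S`, `A = u^2 V S^2` of the deformation of the sigma function of
`y^2 = x^3 + a x + b₀` along `b = b₀ + p s`.
-/

namespace Pool.Agent.Lib.MP_3550b5_nt.AC

open PowerSeries SV

variable {p : ℕ} [hp : Fact p.Prime]

variable {a bs : ℤ} {u : ℤ_[p]} {L : Leaf p} {tay : Polynomial ℤ_[p] →+* Hz p} {rs : Hz p →+* ℤ_[p]⟦X⟧}
  {c k g h2 h3 : Hz p} {W V Om S Z N R : (Hz p)⟦X⟧}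

/-- Both reductions of a series over `Hz p`. -/
private lemma lad_red (hp5 : 5 ≤ p) (h : TR (bs : ℤ_[p]) (p : ℤ_[p]) tay rs) (F : (Hz p)⟦X⟧) :
    PowerSeries.map (PowerSeries.map (PadicInt.toZMod (p := p))) (PowerSeries.map rs F) =
      PowerSeries.map (C (R := ZMod p)) (PowerSeries.map (PadicInt.toZMod (p := p))
        (PowerSeries.map ((constantCoeff (R := ℤ_[p])).comp rs) F)) := by
  ext1 n
  rw [coeff_map, coeff_map, coeff_map, coeff_map, coeff_map, rs_const hp5 h]
  rfl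

private lemma lad_cc (x : ℤ_[p]) :
    PowerSeries.map (PowerSeries.map (PadicInt.toZMod (p := p))) (cc x) =
      PowerSeries.map (C (R := ZMod p)) (PowerSeries.map (PadicInt.toZMod (p := p)) (C x)) := by
  unfold cc
  rw [map_C, map_C, map_C]

private lemma lad_vt :
    PowerSeries.map (PowerSeries.map (PadicInt.toZMod (p := p))) (vt p) =
      PowerSeries.map (C (R := ZMod p)) (PowerSeries.map (PadicInt.toZMod (p := p)) X) := by
  unfold vt
  rw [map_X, map_X, map_X]

/-- The data at `s = 0`. -/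
private lemma lad_sd (h : SgL a bs u L tay rs c k g h2 h3 W V Om S Z N R) :
    SD (a : ℤ_[p]) (bs : ℤ_[p]) (constantCoeff (rs c))
      (PowerSeries.map ((constantCoeff (R := ℤ_[p])).comp rs) W)
      (PowerSeries.map ((constantCoeff (R := ℤ_[p])).comp rs) V)
      (PowerSeries.map ((constantCoeff (R := ℤ_[p])).comp rs) Om)
      (PowerSeries.map ((constantCoeff (R := ℤ_[p])).comp rs) S)
      (PowerSeries.map ((constantCoeff (R := ℤ_[p])).comp rs) Z) := by
  have h1 := h.df.sd.map ((constantCoeff (R := ℤ_[p])).comp rs)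
  have e1 : ((constantCoeff (R := ℤ_[p])).comp rs) (tay (Polynomial.C (a : ℤ_[p]))) =
      (a : ℤ_[p]) := by
    have h2 : constantCoeff (constantCoeff (C (rs (tay (Polynomial.C (a : ℤ_[p])))) : O p)) =
        constantCoeff (constantCoeff ((a : ℤ) : O p)) :=
      congrArg (fun f : O p => constantCoeff (constantCoeff f)) h.rs_ab.1
    rw [constantCoeff_C] at h2
    refine h2.trans ?_
    rw [map_intCast, map_intCast]
  have e2 : ((constantCoeff (R := ℤ_[p])).comp rs) (tay Polynomial.X) = (bs : ℤ_[p]) := by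
    have h2 : constantCoeff (constantCoeff (C (rs (tay Polynomial.X)) : O p)) =
        constantCoeff (constantCoeff L.bb) :=
      congrArg (fun f : O p => constantCoeff (constantCoeff f)) h.rs_ab.2
    rw [constantCoeff_C] at h2
    have h3 : constantCoeff (constantCoeff L.bb) = (bs : ℤ_[p]) := by
      rw [Leaf.bb, map_add, map_add, map_mul, map_mul, vs, cc, cc, constantCoeff_C,
        constantCoeff_C, constantCoeff_C, constantCoeff_C, constantCoeff_C, constantCoeff_X,
        mul_zero, add_zero, h.eb]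
    rw [← h3, ← h2]
    rfl
  rw [e1, e2] at h1
  exact h1

/-- THE ORDER. PROOF. `C₁` of `order_DA`. `S0 = (S.map rs).map constantCoeff` etc.: `SD (a) (bs) .. S0 ..` (`SD.map` twice, `rs_ab`). `leaf_ord` with `D0 = map toZMod (C u * X * S0)`,
`A0 = map toZMod (C (u^2) * V0 * S0^2)`; the hypotheses by `rs_const` (coefficientwise). -/
theorem SgL_ord (p : ℕ) [Fact p.Prime] (hp5 : 5 ≤ p) : ∃ C₁ : ℕ, ∀ (a bs : ℤ) (u : ℤ_[p]) (L : Leaf p)
    (tay : Polynomial ℤ_[p] →+* Hz p) (rs : Hz p →+* ℤ_[p]⟦X⟧) (c k g h2 h3 : Hz p) (W V Om S Z N R : (Hz p)⟦X⟧),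
    GoodOrdinary p a bs → SgL a bs u L tay rs c k g h2 h3 W V Om S Z N R → L.Ord C₁ := by
  obtain ⟨C₁, hC⟩ := order_DA p hp5
  refine ⟨C₁, fun a bs u L tay rs c k g h2 h3 W V Om S Z N R hG h => ?_⟩
  have hsd := lad_sd h
  refine leaf_ord (D0 := PowerSeries.map (PadicInt.toZMod (p := p)) (C u * X *
      PowerSeries.map ((constantCoeff (R := ℤ_[p])).comp rs) S))
    (A0 := PowerSeries.map (PadicInt.toZMod (p := p)) (C (u ^ 2) *
      PowerSeries.map ((constantCoeff (R := ℤ_[p])).comp rs) V *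
      PowerSeries.map ((constantCoeff (R := ℤ_[p])).comp rs) S ^ 2)) ?_ ?_
    (hC a bs hG _ _ _ _ _ _ hsd u h.hu)
  · rw [h.eD, map_mul, map_mul, lad_red hp5 h.tr, lad_cc, lad_vt, map_mul, map_mul, map_mul,
      map_mul]
  · rw [h.eA, map_mul, map_mul, map_pow, lad_red hp5 h.tr, lad_red hp5 h.tr, lad_cc, map_mul,
      map_mul, map_mul, map_mul]
    simp only [map_pow]

variable {K : Type} [Field K] [CharZero K] {ι : O p →+* K} {v : Fin 4 → K}

end Pool.Agent.Lib.MP_3550b5_nt.AC
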