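import Mathlib
import Pool.Agent.Lib.MP_3550b5_nt.AC.LaD

/-!
PROJECT AC, block LEAF OF A CLASS: the leaf `D = u T S`, `A = u^2 V S^2` of the deformation of the sigma function of
`y^2 = x^3 + a x + b₀` along `b = b₀ + p s`.
-/

namespace Pool.Agent.Lib.MP_3550b5_nt.AC

open PowerSeries SV

variable {p : ℕ} [hp : Fact p.Prime]

variable {a bs : ℤ} {u : ℤ_[p]} {L : Leaf p} {tay : Polynomial ℤ_[p] →+* Hz p} {rs : Hz p →+* ℤ_[p]⟦X⟧}
  {c k g h2 h3 : Hz p} {W V Om S Z N R : (Hz p)⟦X⟧}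

variable {K : Type} [Field K] [CharZero K] {ι : O p →+* K} {v : Fin 4 → K}

private lemma LaE_mul {R : Type*} [CommRing R] (d : Dr R) (x y : R) :
    d (x * y) = x * d y + y * d x := by
  rw [Derivation.leibniz, smul_eq_mul, smul_eq_mul]

/-- THE CHAIN RULE. PROOF. `dS (F.map rs) = cc p * (cD F).map rs` (`TR.rs_D`, coefficientwise), `dT (F.map rs) = (F_T).map rs` (`map_derivative'`). -/
lemma SgL.chain (h : SgL a bs u L tay rs c k g h2 h3 W V Om S Z N R) (δ : Dr K) {α β : O p}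
    (hδ : ∀ f, δ (ι f) = ι α * ι (dS p f) + ι β * ι (dT p f)) (F : (Hz p)⟦X⟧) :
    δ (ι (PowerSeries.map rs F)) = ι (α * cc (p : ℤ_[p])) * ι (PowerSeries.map rs (cD (dH p) F)) +
      ι β * ι (PowerSeries.map rs (derivative (Hz p) F)) := by
  have h1 : dS p (PowerSeries.map rs F) = cc (p : ℤ_[p]) * PowerSeries.map rs (cD (dH p) F) := by
    refine PowerSeries.ext fun n => ?_
    rw [dS, dSg_apply, coeff_cD, coeff_map, ds_apply, h.tr.rs_D, cc, coeff_C_mul, coeff_map,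
      coeff_cD]
  have h2 : dT p (PowerSeries.map rs F) = PowerSeries.map rs (derivative (Hz p) F) := by
    rw [dT, dTg_apply]
    exact (map_derivative' rs F).symm
  rw [hδ, h1, h2, map_mul, map_mul]
  ring

/-- PROOF. `δ (a) = 0`, `δ (ι bb) = ι α * ι (cc p)`; if `α = 0` then `wr = 0` (`jev_muJ`). -/
lemma alpha_ne (δ : Dr K) {α β : O p} (hδ : ∀ f, δ (ι f) = ι α * ι (dS p f) + ι β * ι (dT p f))
    (hv : v = fun i => ι (L.vO a i)) (hmu : jev δ v muJ ≠ 0) : ι (α * cc (p : ℤ_[p])) ≠ 0 := by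
  intro h0
  apply hmu
  have hv3 : v 3 = ((a : ℤ) : K) := by
    rw [hv]
    change ι (a : O p) = _
    exact map_intCast ι a
  have hv0 : v 0 = ι L.bb := by
    rw [hv]
    rfl
  have h1 : δ (v 3) = 0 := by
    rw [hv3]
    exact Derivation.map_intCast δ a
  have h2 : δ (v 0) = 0 := by
    have h3 : dS p L.bb = cc (p : ℤ_[p]) := by
      rw [Leaf.bb, map_add, dS_cc, zero_add, LaE_mul, dS_cc, mul_zero, add_zero, dS_vs, mul_one]
    have h4 : dT p L.bb = 0 := by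
      rw [Leaf.bb, map_add, dT_cc, zero_add, LaE_mul, dT_cc, mul_zero, add_zero, dT_vs, mul_zero]
    rw [hv0, hδ, h3, h4, map_zero, mul_zero, add_zero, ← map_mul, h0]
  rw [jev_muJ, wr, h1, h2]
  ring

end Pool.Agent.Lib.MP_3550b5_nt.AC
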