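import Mathlib
import Pool.Agent.Lib.MP_3550b5_nt.AC.LaE

/-!
PROJECT AC, block LEAF OF A CLASS: the leaf `D = u T S`, `A = u^2 V S^2` of the deformation of the sigma function of
`y^2 = x^3 + a x + b₀` along `b = b₀ + p s`.
-/

namespace Pool.Agent.Lib.MP_3550b5_nt.AC

open PowerSeries SV

variable {p : ℕ} [hp : Fact p.Prime]

variable {a bs : ℤ} {u : ℤ_[p]} {L : Leaf p} {tay : Polynomial ℤ_[p] →+* Hz p} {rs : Hz p →+* ℤ_[p]⟦X⟧}
  {c k g h2 h3 : Hz p} {W V Om S Z N R : (Hz p)⟦X⟧}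

variable {K : Type} [Field K] [CharZero K] {ι : O p →+* K} {v : Fin 4 → K}

/-- THE SYSTEM ON THE LEAF, for a normalised derivation `D` (`D s = 1 / p`). PROOF. As the proof of `sec_main` (SV/ESec): `φ F = ι (F.map rs)`, `esecK_kg`/`DR` give `k1 D = φ (C k)`, `g1 D = φ (C g)`
(`rs_ab`; `D (φ (C f)) = φ (C (dH f))` by `hD`), `alg_om`, `alg_Z`, `alg_W`, `alg_M`, `alg_L` with `T = ι (vt p)`, `x = fx v = φ V / T^2` (`eD`, `eA`), `y = -(φ V / T^3)`; `y^2 = fY v` from `hW`, `hV`;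
`D (v 1) / v 1 = D (T φ S) / (T φ S)` (`u` is a constant: `hcu`). `ric` for `c`. -/
theorem SgL.sys (h : SgL a bs u L tay rs c k g h2 h3 W V Om S Z N R) (hι : Function.Injective ι) (D : Dr K)
    (hD : ∀ F : (Hz p)⟦X⟧, D (ι (PowerSeries.map rs F)) = ι (PowerSeries.map rs (cD (dH p) F)) +
      ι (PowerSeries.map rs (derivative (Hz p) F)) * D (ι (vt p))) (hcu : D (ι (cc u)) = 0)
    (hv : v = fun i => ι (L.vO a i)) (hk : k1 D (v 3) (v 0) ≠ 0) (hdl : dl (v 3) (v 0) ≠ 0) {y W₁ c₁ : K}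
    (hy : y = -(ι (PowerSeries.map rs V) / ι (vt p) ^ 3))
    (hW : W₁ = 1 / ι (vt p) + ι (PowerSeries.map rs Z) - om D (v 3) (v 0) (fx v) y / k1 D (v 3) (v 0))
    (hc : c₁ = ι (C (rs c))) :
    y ^ 2 = fY v ∧ D W₁ = (k1 D (v 3) (v 0) * c₁ + g1 D (v 3) (v 0)) * W₁ + tau D (v 3) (v 0) (fx v) y ∧
      D (v 1) / v 1 = -(k1 D (v 3) (v 0) * W₁ ^ 2 / 2) + (om D (v 3) (v 0) (fx v) y ^ 2 / (2 * k1 D (v 3) (v 0)) -
        k1 D (v 3) (v 0) * fx v / 2 - g1 D (v 3) (v 0)) ∧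
      D c₁ = k1 D (v 3) (v 0) * c₁ ^ 2 + 2 * g1 D (v 3) (v 0) * c₁ - k1 D (v 3) (v 0) * v 3 / 3 := by
  classical
  have hd := h.df
  obtain ⟨hra, hrb⟩ := h.rs_ab
  -- the ring homomorphism
  obtain ⟨φ, hφ⟩ : ∃ φ : (Hz p)⟦X⟧ →+* K, ∀ F, φ F = ι (PowerSeries.map rs F) :=
    ⟨ι.comp (PowerSeries.map rs), fun _ => rfl⟩
  have hφX : φ X = ι (vt p) := by
    rw [hφ, PowerSeries.map_X, vt]
  have chain : ∀ F, D (φ F) = φ (cD (dH p) F) + φ (derivative _ F) * D (φ X) := by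
    intro F
    rw [hφ, hφ, hφ, hφX]
    exact hD F
  have hφD : ∀ f, D (φ (C f)) = φ (C (dH p f)) := by
    intro f
    rw [chain, cD_C, PowerSeries.derivative_C, map_zero, zero_mul, add_zero]
  -- the functions on the leaf
  have hv3 : v 3 = φ (C (tay (Polynomial.C (a : ℤ_[p])))) := by
    rw [hφ, PowerSeries.map_C, hra, hv]
    rfl
  have hv0 : v 0 = φ (C (tay Polynomial.X)) := by
    rw [hφ, PowerSeries.map_C, hrb, hv]
    rfl
  have hv1 : v 1 = ι (cc u) * (φ X * φ S) := by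
    have h1 : v 1 = ι L.DD := by
      rw [hv]
      rfl
    rw [h1, h.eD, map_mul, map_mul, hφX, hφ, mul_assoc]
  have hv2 : v 2 = ι (cc u) ^ 2 * φ V * φ S ^ 2 := by
    have h1 : v 2 = ι L.AA := by
      rw [hv]
      rfl
    have h2 : (cc (u ^ 2) : O p) = cc u ^ 2 := by
      unfold cc
      rw [map_pow, map_pow]
    rw [h1, h.eA, h2, map_mul, map_mul, map_pow, map_pow, hφ, hφ]
  -- nonzero elements
  have hcu0 : ι (cc u) ≠ 0 := by
    rw [Ne, map_eq_zero_iff ι hι]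
    unfold cc
    rw [map_eq_zero_iff _ C_injective, map_eq_zero_iff _ C_injective]
    exact h.hu.ne_zero
  have hT0 : φ X ≠ 0 := by
    rw [hφX, Ne, map_eq_zero_iff ι hι, vt]
    exact X_ne_zero
  have hM0 : φ S ≠ 0 := by
    rw [hφ, Ne, map_eq_zero_iff ι hι]
    intro h5
    have h6 := congrArg (constantCoeff (R := PowerSeries ℤ_[p])) h5
    rw [map_zero, ← coeff_zero_eq_constantCoeff_apply, coeff_map, coeff_zero_eq_constantCoeff_apply,
      hd.sd.S0, map_one] at h6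
    exact one_ne_zero h6
  -- `k1`, `g1`
  obtain ⟨hk1, hg1⟩ : k1 D (v 3) (v 0) = φ (C k) ∧ g1 D (v 3) (v 0) = φ (C g) := by
    refine esecK_kg D (H := φ (C h3)) ?_ ?_ ?_ ?_
    · have h5 := congrArg (fun f => φ (C f)) hd.dr.three
      simp only [map_mul, map_one, map_ofNat] at h5
      exact h5
    · rw [hv3, hv0, hφD, hd.dr.Da]
      simp only [map_add, map_mul, map_ofNat]
    · rw [hv3, hv0, hφD, hd.dr.Db]
      simp only [map_sub, map_mul, map_ofNat, map_pow]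
    · exact hdl
  -- the point
  have hxT : fx v = φ V / φ X ^ 2 := by
    rw [fx, hv2, hv1]
    field_simp
  have hyT : y = -(φ V / φ X ^ 3) := by
    rw [hy, hφ, hφX]
  have hWV : φ W * φ V = 1 := by rw [← map_mul, hd.sd.hV, map_one]
  obtain ⟨-, -, -, -, hVT⟩ := dW (D := dH p) hd.sd.hW hd.sd.hV
  have e2 : φ (C h2) = 1 / 2 := by
    have h5 := congrArg (fun z : Hz p => φ (C z)) hd.dr.two
    simp only [map_mul, map_one, map_ofNat] at h5
    linear_combination h5 / 2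
  have e3 : φ (C h3) = 1 / 3 := by
    have h5 := congrArg (fun z : Hz p => φ (C z)) hd.dr.three
    simp only [map_mul, map_one, map_ofNat] at h5
    linear_combination h5 / 3
  have hOm : 2 * φ Om = 2 - φ X * φ (derivative _ V) * φ W := by
    have h5 := congrArg φ hd.sd.hOm
    have h6 := congrArg φ hVT
    simp only [map_add, map_mul, map_neg, map_pow, map_ofNat] at h5 h6
    linear_combination φ V * h5 - (2 * φ Om - 2 + φ X * φ (derivative _ W) * φ V) * hWV +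
      φ X * φ W * h6
  have hTe : φ (TT (dH p) (tay (Polynomial.C (a : ℤ_[p]))) k g h2 h3 W V) =
      k1 D (v 3) (v 0) * φ V + g1 D (v 3) (v 0) * φ X ^ 2 - φ X ^ 2 * φ W * φ (cD (dH p) V) / 2 +
      2 / 3 * k1 D (v 3) (v 0) * v 3 * φ X ^ 4 * φ W := by
    rw [TT]
    simp only [map_add, map_sub, map_mul, map_pow, map_ofNat]
    rw [e2, e3, hk1, hg1, hv3]
    ring
  have ho := alg_om D (a := v 3) (b := v 0) (x := fx v) (y := y) (T := φ X) (V := φ V) (W := φ W)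
    (Vt := φ (cD (dH p) V)) (VT := φ (derivative _ V)) (Om := φ Om)
    (Te := φ (TT (dH p) (tay (Polynomial.C (a : ℤ_[p]))) k g h2 h3 W V))
    (k := k1 D (v 3) (v 0)) (g := g1 D (v 3) (v 0)) rfl rfl hT0 hWV hxT hyT (chain V) hOm hTe
  -- the equation of `Z`
  have hcφ : c₁ = φ (C c) := by
    rw [hc, hφ, PowerSeries.map_C]
  have hN : φ X ^ 3 * (φ (cD (dH p) Z) - (k1 D (v 3) (v 0) * c₁ + g1 D (v 3) (v 0)) * φ Z) =
      (k1 D (v 3) (v 0) * c₁ + g1 D (v 3) (v 0)) * φ X ^ 2 -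
        (φ V + c₁ * φ X ^ 2) * φ (TT (dH p) (tay (Polynomial.C (a : ℤ_[p]))) k g h2 h3 W V) +
          k1 D (v 3) (v 0) * φ V := by
    have h5 := congrArg φ hd.hN
    have h6 := congrArg φ hd.hZ
    simp only [map_add, map_sub, map_mul, map_pow] at h5 h6
    rw [hk1, hg1, hcφ]
    linear_combination h5 + φ X ^ 3 * h6
  have hE2 : φ X ^ 2 * φ W * φ (derivative _ Z) =
      φ W - φ Om - c₁ * φ X ^ 2 * φ W * φ Om := by
    have h5 := congrArg φ hd.sd.E2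
    simp only [map_sub, map_mul, map_pow] at h5
    rw [hcφ]
    exact h5
  have hZ := alg_Z D (x := fx v) (y := y) (T := φ X)
    (V := φ V) (W := φ W) (Om := φ Om)
    (Te := φ (TT (dH p) (tay (Polynomial.C (a : ℤ_[p]))) k g h2 h3 W V))
    (k := k1 D (v 3) (v 0)) (g := g1 D (v 3) (v 0)) (c := c₁) (Z := φ Z)
    (Zc := φ (cD (dH p) Z)) (ZT := φ (derivative _ Z)) (o := om D (v 3) (v 0) (fx v) y)
    hT0 hWV hxT hyT ho (chain Z) hN hE2
  have hW₁ : W₁ = 1 / φ X + φ Z - om D (v 3) (v 0) (fx v) y / k1 D (v 3) (v 0) := by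
    rw [hW, hφX, hφ]
  have hWp := alg_W D (a := v 3) (b := v 0) (x := fx v)
    (y := y) (k := k1 D (v 3) (v 0)) (g := g1 D (v 3) (v 0)) (c := c₁)
    (Z := 1 / φ X + φ Z) rfl rfl hk hZ
  -- the series `S`
  have hDM : D (φ S) = φ S * φ (X ^ 2 * R) + φ (derivative _ S) * D (φ X) := by
    rw [chain, hd.hS, map_mul]
  have hR : φ X ^ 2 * φ (X ^ 2 * R) = -(k1 D (v 3) (v 0) / 2 * (1 + φ X * φ Z) ^ 2) +
      φ (TT (dH p) (tay (Polynomial.C (a : ℤ_[p]))) k g h2 h3 W V) * (1 + φ X * φ Z) -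
        k1 D (v 3) (v 0) / 2 * φ V - g1 D (v 3) (v 0) * φ X ^ 2 := by
    have h5 := congrArg φ hd.hR
    simp only [map_add, map_sub, map_mul, map_pow, map_neg, map_one] at h5
    rw [e2] at h5
    rw [map_mul, map_pow, hk1, hg1]
    linear_combination h5
  have hE1 : φ X * φ Om * φ S * φ Z = φ S - φ Om * φ S + φ X * φ (derivative _ S) := by
    have h5 := congrArg φ hd.sd.E1
    simpa only [map_add, map_sub, map_mul] using h5
  have hMM := alg_M D (x := fx v) (T := φ X) (V := φ V) (Om := φ Om)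
    (Te := φ (TT (dH p) (tay (Polynomial.C (a : ℤ_[p]))) k g h2 h3 W V)) (k := k1 D (v 3) (v 0))
    (g := g1 D (v 3) (v 0)) (Z := φ Z) (o := om D (v 3) (v 0) (fx v) y)
    (M := φ S) (MT := φ (derivative _ S)) (R := φ (X ^ 2 * R)) hT0 hM0 hxT ho hDM hR hE1
  refine ⟨?_, ?_, ?_, ?_⟩
  · have h5 := congrArg φ hd.sd.hW
    simp only [map_add, map_mul, map_pow, map_one] at h5
    rw [← hv3, ← hv0] at h5
    have h6 : φ V ^ 2 = φ V ^ 3 + v 3 * φ X ^ 4 * φ V + v 0 * φ X ^ 6 := by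
      linear_combination φ V ^ 3 * h5 - (φ V ^ 2 - v 3 * φ X ^ 4 * (φ V + φ W * φ V ^ 2) -
        v 0 * φ X ^ 6 * (1 + φ W * φ V + φ W ^ 2 * φ V ^ 2)) * hWV
    rw [fY, hxT, hyT]
    field_simp
    linear_combination h6
  · rw [hW₁]
    exact hWp
  · rw [alg_L hk] at hMM
    rw [hW₁, ← hMM, hv1, D.leibniz, hcu, smul_zero, add_zero, smul_eq_mul]
    exact mul_div_mul_left _ _ hcu0
  · rw [hcφ, hφD, hd.ric]
    simp only [map_add, map_sub, map_mul, map_pow, map_ofNat]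
    rw [e3, hk1, hg1, hv3]
    ring

end Pool.Agent.Lib.MP_3550b5_nt.AC
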