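import Mathlib
import Pool.Agent.Lib.MP_3550b5_nt.AC.LaF

/-!
PROJECT AC, block LEAF OF A CLASS: the leaf `D = u T S`, `A = u^2 V S^2` of the deformation of the sigma function of
`y^2 = x^3 + a x + b₀` along `b = b₀ + p s`.
-/

namespace Pool.Agent.Lib.MP_3550b5_nt.AC

open PowerSeries SV

variable {p : ℕ} [hp : Fact p.Prime]

variable {a bs : ℤ} {u : ℤ_[p]} {L : Leaf p} {tay : Polynomial ℤ_[p] →+* Hz p} {rs : Hz p →+* ℤ_[p]⟦X⟧}
  {c k g h2 h3 : Hz p} {W V Om S Z N R : (Hz p)⟦X⟧}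

variable {K : Type} [Field K] [CharZero K] {ι : O p →+* K} {v : Fin 4 → K}

/-- The algebra of the value of `mu om / k1`. -/
private lemma laG_alg {K : Type} [Field K] [CharZero K] {a b D A Dp Ap y x x' w d k g e B : K} (hd : d ≠ 0)
    (hw : w ≠ 0) (hD : D ≠ 0) (hy : y ≠ 0) (hx : x * D ^ 2 = A) (hx' : x' * D ^ 3 = Ap * D - 2 * A * Dp)
    (hB : y ^ 2 * D ^ 6 = B) (hk : k = 3 * w / (2 * d)) (hg : g = 3 * e / (12 * d)) :
    6 * d * w * D * B * ((x' - 2 * k * x ^ 2 - 2 * g * x - 4 * k * a / 3) / (2 * y) / k) =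
      (2 * d ^ 2 * D * (Ap * D - 2 * A * Dp) - 6 * d * w * A ^ 2 - e * d * A * D ^ 2 -
        4 * d * w * a * D ^ 4) * (y * D ^ 3) := by
  have h1 : 6 * d * w * D * B * ((x' - 2 * k * x ^ 2 - 2 * g * x - 4 * k * a / 3) / (2 * y) / k) =
      2 * d ^ 2 * D ^ 4 * (x' - 2 * k * x ^ 2 - 2 * g * x - 4 * k * a / 3) * (y * D ^ 3) := by
    obtain ⟨z, hz⟩ : ∃ z, z = x' - 2 * k * x ^ 2 - 2 * g * x - 4 * k * a / 3 := ⟨_, rfl⟩
    rw [← hz, ← hB, hk]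
    field_simp
    ring
  have h2 : d * k = 3 * w / 2 := by
    rw [hk]
    field_simp
  have h3 : 4 * (d * g) = e := by
    rw [hg]
    field_simp
    ring
  rw [h1]
  congr 1
  have h4 : 2 * d ^ 2 * D ^ 4 * (x' - 2 * k * x ^ 2 - 2 * g * x - 4 * k * a / 3) =
      2 * d ^ 2 * D * (x' * D ^ 3) - 4 * d * (d * k) * (x * D ^ 2) ^ 2 -
        d * (4 * (d * g)) * (x * D ^ 2) * D ^ 2 - 8 * d * (d * k) * a / 3 * D ^ 4 := by
    ring
  rw [h4, h2, h3, hx, hx']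
  ring

/-- DENOMINATORS. PROOF. The elements `z` of `K` with `z ∈ ι.range` form a subring, which contains `v i`, `δ (v i)` (`hδ`), `1/2`, `1/3` (units of `ℤ_[p]`, `p ≥ 5`). `mu = 6 dl wr v₁ BB` (`jev_muJ`),
`v₁ = ι (cc u) ι (vt p) φ S`: `mu / ι (vt p)` is in the range. `om / k1 = (x' - 2 k1 x^2 - 2 g1 x - 4 k1 a / 3) / (2 y k1)`, `1 / y = y / fY v = y v₁^6 / BB`, `y v₁^3 = -ι (cc u)^3 φ V φ S^3`, `1 / k1 = 2 dl / (3 wr)`,
`x' = (A' D - 2 A D') / D^3`: multiplied by `mu^4` it is in the range. -/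
theorem SgL.clear (hp5 : 5 ≤ p) (h : SgL a bs u L tay rs c k g h2 h3 W V Om S Z N R) (hι : Function.Injective ι)
    (δ : Dr K) {α β : O p} (hδ : ∀ f, δ (ι f) = ι α * ι (dS p f) + ι β * ι (dT p f))
    (hv : v = fun i => ι (L.vO a i)) (hmu : jev δ v muJ ≠ 0) {y : K} (hy : y = -(ι (PowerSeries.map rs V) / ι (vt p) ^ 3))
    (hy2 : y ^ 2 = fY v) : ∃ W' : O p, jev δ v muJ ^ 4 *
      (1 / ι (vt p) + ι (PowerSeries.map rs Z) - om δ (v 3) (v 0) (fx v) y / k1 δ (v 3) (v 0)) = ι W' := by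
  classical
  obtain ⟨T, hT⟩ : ∃ T, T = ι (vt p) := ⟨_, rfl⟩
  obtain ⟨d, hd⟩ : ∃ d, d = dl (v 3) (v 0) := ⟨_, rfl⟩
  obtain ⟨w, hw⟩ : ∃ w, w = wr δ (v 3) (v 0) := ⟨_, rfl⟩
  obtain ⟨B, hB⟩ : ∃ B, B = v 2 ^ 3 + v 3 * v 2 * v 1 ^ 4 + v 0 * v 1 ^ 6 := ⟨_, rfl⟩
  have hmuE : jev δ v muJ = 6 * d * w * v 1 * B := by
    rw [jev_muJ, ← hd, ← hw, ← hB]
  rw [hmuE] at hmu
  have hB0 : B ≠ 0 := fun h0 => hmu (by rw [h0, mul_zero])
  have hv1 : v 1 ≠ 0 := fun h0 => hmu (by rw [h0, mul_zero, zero_mul])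
  have hw0 : w ≠ 0 := fun h0 => hmu (by rw [h0, mul_zero, zero_mul, zero_mul])
  have hd0 : d ≠ 0 := fun h0 => hmu (by rw [h0, mul_zero, zero_mul, zero_mul, zero_mul])
  have hDD : v 1 = ι (cc u) * T * ι (PowerSeries.map rs S) := by
    rw [hv, hT, ← map_mul, ← map_mul, ← h.eD]
    rfl
  have hT0 : T ≠ 0 := fun h0 => hv1 (by rw [hDD, h0, mul_zero, zero_mul])
  have hx : fx v * v 1 ^ 2 = v 2 := by
    rw [fx, div_mul_cancel₀ _ (pow_ne_zero 2 hv1)]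
  have hYB : y ^ 2 * v 1 ^ 6 = B := by
    rw [hy2, fY, hB, ← hx]
    ring
  have hy0 : y ≠ 0 := fun h0 => hB0 (by rw [← hYB, h0]; ring)
  have hx' : δ (fx v) * v 1 ^ 3 = δ (v 2) * v 1 - 2 * v 2 * δ (v 1) := by
    have h1 : δ (v 2) = fx v * (2 * v 1 * δ (v 1)) + v 1 ^ 2 * δ (fx v) := by
      have h2 := congrArg δ hx
      rw [Derivation.leibniz, Derivation.leibniz_pow, smul_eq_mul, smul_eq_mul] at h2
      rw [← h2]
      simp only [nsmul_eq_mul, smul_eq_mul]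
      push_cast
      ring
    rw [h1]
    have h3 : 2 * v 2 = 2 * (fx v * v 1 ^ 2) := by rw [hx]
    rw [h3]
    ring
  have hde : δ d = 3 * (4 * v 3 ^ 2 * δ (v 3) + 18 * v 0 * δ (v 0)) := by
    have h4 : δ (4 : K) = 0 := δ.map_natCast 4
    have h27 : δ (27 : K) = 0 := δ.map_natCast 27
    rw [hd, dl, map_add, Derivation.leibniz, Derivation.leibniz, Derivation.leibniz_pow,
      Derivation.leibniz_pow, h4, h27]
    simp only [nsmul_eq_mul, smul_eq_mul]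
    push_cast
    ring
  have hom := laG_alg (a := v 3) (b := v 0) (D := v 1) (A := v 2) (Dp := δ (v 1)) (Ap := δ (v 2)) (y := y)
    (x := fx v) (x' := δ (fx v)) (w := w) (d := d) (k := k1 δ (v 3) (v 0)) (g := g1 δ (v 3) (v 0))
    (e := 4 * v 3 ^ 2 * δ (v 3) + 18 * v 0 * δ (v 0)) (B := B) hd0 hw0 hv1 hy0 hx hx' hYB
    (by rw [k1, ← hw, ← hd]) (by rw [g1, ← hd, hde])
  have hvm : ∀ i, v i ∈ ι.range := fun i => by
    rw [hv]
    exact ⟨_, rfl⟩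
  have hδm : ∀ i, δ (v i) ∈ ι.range := fun i => by
    rw [hv]
    change δ (ι (L.vO a i)) ∈ ι.range
    rw [hδ, ← map_mul, ← map_mul, ← map_add]
    exact ⟨_, rfl⟩
  have hnat : ∀ n : ℕ, (n : K) ∈ ι.range := fun n => ⟨(n : O p), map_natCast ι n⟩
  have hYm : y * v 1 ^ 3 ∈ ι.range := by
    refine ⟨-(PowerSeries.map rs V * cc u ^ 3 * PowerSeries.map rs S ^ 3), ?_⟩
    rw [hy, hDD, ← hT]
    simp only [map_neg, map_mul, map_pow]
    field_simp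
  have h2m : (2 : K) ∈ ι.range := by exact_mod_cast hnat 2
  have h3m : (3 : K) ∈ ι.range := by exact_mod_cast hnat 3
  have h4m : (4 : K) ∈ ι.range := by exact_mod_cast hnat 4
  have h6m : (6 : K) ∈ ι.range := by exact_mod_cast hnat 6
  have h18m : (18 : K) ∈ ι.range := by exact_mod_cast hnat 18
  have h27m : (27 : K) ∈ ι.range := by exact_mod_cast hnat 27
  have hdm : d ∈ ι.range := by
    rw [hd, dl]
    exact add_mem (mul_mem h4m (pow_mem (hvm 3) 3)) (mul_mem h27m (pow_mem (hvm 0) 2))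
  have hwm : w ∈ ι.range := by
    rw [hw, wr]
    exact sub_mem (mul_mem (mul_mem h3m (hvm 0)) (hδm 3)) (mul_mem (mul_mem h2m (hvm 3)) (hδm 0))
  have hBm : B ∈ ι.range := by
    rw [hB]
    exact add_mem (add_mem (pow_mem (hvm 2) 3) (mul_mem (mul_mem (hvm 3) (hvm 2)) (pow_mem (hvm 1) 4)))
      (mul_mem (hvm 0) (pow_mem (hvm 1) 6))
  have hem : 4 * v 3 ^ 2 * δ (v 3) + 18 * v 0 * δ (v 0) ∈ ι.range :=
    add_mem (mul_mem (mul_mem h4m (pow_mem (hvm 3) 2)) (hδm 3))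
      (mul_mem (mul_mem h18m (hvm 0)) (hδm 0))
  have hmum : 6 * d * w * v 1 * B ∈ ι.range :=
    mul_mem (mul_mem (mul_mem (mul_mem h6m hdm) hwm) (hvm 1)) hBm
  have hmuT : 6 * d * w * v 1 * B * (1 / T) ∈ ι.range := by
    have h1 : 6 * d * w * v 1 * B * (1 / T) = 6 * d * w * (ι (cc u) * ι (PowerSeries.map rs S)) * B := by
      rw [hDD]
      field_simp
    rw [h1]
    exact mul_mem (mul_mem (mul_mem (mul_mem h6m hdm) hwm) (mul_mem ⟨_, rfl⟩ ⟨_, rfl⟩)) hBm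
  have hEm : 6 * d * w * v 1 * B * (om δ (v 3) (v 0) (fx v) y / k1 δ (v 3) (v 0)) ∈ ι.range := by
    rw [om, hom]
    exact mul_mem (sub_mem (sub_mem (sub_mem
      (mul_mem (mul_mem (mul_mem h2m (pow_mem hdm 2)) (hvm 1))
        (sub_mem (mul_mem (hδm 2) (hvm 1)) (mul_mem (mul_mem h2m (hvm 2)) (hδm 1))))
      (mul_mem (mul_mem (mul_mem h6m hdm) hwm) (pow_mem (hvm 2) 2)))
      (mul_mem (mul_mem (mul_mem hem hdm) (hvm 2)) (pow_mem (hvm 1) 2)))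
      (mul_mem (mul_mem (mul_mem (mul_mem h4m hdm) hwm) (hvm 3)) (pow_mem (hvm 1) 4))) hYm
  have hfin : (6 * d * w * v 1 * B) ^ 4 *
      (1 / T + ι (PowerSeries.map rs Z) - om δ (v 3) (v 0) (fx v) y / k1 δ (v 3) (v 0)) ∈ ι.range := by
    obtain ⟨M, hM⟩ : ∃ M, M = 6 * d * w * v 1 * B := ⟨_, rfl⟩
    rw [← hM] at hmum hmuT hEm ⊢
    have h1 : M ^ 4 * (1 / T + ι (PowerSeries.map rs Z) - om δ (v 3) (v 0) (fx v) y / k1 δ (v 3) (v 0)) =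
        M ^ 3 * (M * (1 / T)) + M ^ 4 * ι (PowerSeries.map rs Z) -
          M ^ 3 * (M * (om δ (v 3) (v 0) (fx v) y / k1 δ (v 3) (v 0))) := by ring
    rw [h1]
    exact sub_mem (add_mem (mul_mem (pow_mem hmum 3) hmuT) (mul_mem (pow_mem hmum 4) ⟨_, rfl⟩))
      (mul_mem (pow_mem hmum 3) hEm)
  obtain ⟨W', hW'⟩ := hfin
  refine ⟨W', ?_⟩
  rw [hW', hmuE, ← hT]

end Pool.Agent.Lib.MP_3550b5_nt.AC
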