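import Mathlib
import Pool.Agent.Lib.MP_3550b5_nt.AC.LaG

/-!
PROJECT AC, block LEAF OF A CLASS: the leaf `D = u T S`, `A = u^2 V S^2` of the deformation of the sigma function of
`y^2 = x^3 + a x + b₀` along `b = b₀ + p s`.
-/

namespace Pool.Agent.Lib.MP_3550b5_nt.AC

open PowerSeries SV

variable {p : ℕ} [hp : Fact p.Prime]

variable {a bs : ℤ} {u : ℤ_[p]} {L : Leaf p} {tay : Polynomial ℤ_[p] →+* Hz p} {rs : Hz p →+* ℤ_[p]⟦X⟧}
  {c k g h2 h3 : Hz p} {W V Om S Z N R : (Hz p)⟦X⟧}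

variable {K : Type} [Field K] [CharZero K] {ι : O p →+* K} {v : Fin 4 → K}

private lemma la_tau {F : Type} [Field F] [CharZero F] (D : Dr F) {c : F} (hc : c ≠ 0) (a b x y : F) :
    tau (c • D) a b x y = c * tau D a b x y := by
  unfold tau
  rw [om_smul, k1_smul, g1_smul, mul_div_mul_left _ _ hc, Derivation.smul_apply, smul_eq_mul]
  ring

private lemma la_r {F : Type} [Field F] [CharZero F] {e κ γ O x d d' w : F} (he : e ≠ 0) (hκ : κ ≠ 0)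
    (h : d' / d = -(κ * w ^ 2 / 2) + (O ^ 2 / (2 * κ) - κ * x / 2 - γ)) :
    w ^ 2 = ((e * O) ^ 2 / (e * κ) - e * κ * x - 2 * (e * γ) - 2 * (e * d') / d) / (e * κ) := by
  have h1 : 2 * (e * d') / d = 2 * e * (d' / d) := by ring
  rw [h1, h, eq_div_iff (mul_ne_zero he hκ)]
  field_simp
  ring

/-- THE LEAF SATISFIES THE SYSTEM. PROOF. `D = (ι (α * cc p))⁻¹ • δ` (`alpha_ne`, `SgL.chain`: `D (ι (vt p))` is `ι β / ι (α cc p)`), `SgL.sys`; `δ = h • D`: `k1_smul`, `g1_smul`, `om_smul`, `tau` scales as well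
(definition), `W₁` is the same for `D` and `δ`. `frr δ v = W₁^2`: `om_eq` (`om δ = y fom δ`), from the third equation. `tau_eq`, `SgL.clear`, `of_mu`. -/
theorem SgL.ade (hp5 : 5 ≤ p) (h : SgL a bs u L tay rs c k g h2 h3 W V Om S Z N R) : L.ADE a := by
  intro K _ _ ι δ α β hι hδ hmu
  obtain ⟨v, hv⟩ : ∃ v : Fin 4 → K, v = fun i => ι (L.vO a i) := ⟨_, rfl⟩
  have hv3 : ι (L.vO a 3) = v 3 := by rw [hv]
  have hv0 : ι (L.vO a 0) = v 0 := by rw [hv]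
  rw [← hv] at hmu
  rw [← hv, hv3, hv0]
  obtain ⟨e, he⟩ : ∃ e, e = ι (α * cc (p : ℤ_[p])) := ⟨_, rfl⟩
  have he0 : e ≠ 0 := by
    rw [he]
    exact alpha_ne δ hδ hv hmu
  obtain ⟨D, hDd⟩ : ∃ D : Dr K, D = e⁻¹ • δ := ⟨_, rfl⟩
  have hδD : δ = e • D := by
    rw [hDd, smul_smul, mul_inv_cancel₀ he0, one_smul]
  have hδx : ∀ x, δ x = e * D x := by
    intro x
    rw [hδD, Derivation.smul_apply, smul_eq_mul]
  have hDx : ∀ x, D x = e⁻¹ * δ x := by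
    intro x
    rw [hDd, Derivation.smul_apply, smul_eq_mul]
  obtain ⟨h1, hk, hv1, hY⟩ := of_mu δ v hmu
  have hDt : D (ι (vt p)) = e⁻¹ * ι β := by
    rw [hDx, hδ, dS_vt, dT_vt, map_zero, map_one, mul_zero, zero_add, mul_one]
  have hD : ∀ F : (Hz p)⟦X⟧, D (ι (PowerSeries.map rs F)) =
      ι (PowerSeries.map rs (cD (dH p) F)) +
        ι (PowerSeries.map rs (derivative (Hz p) F)) * D (ι (vt p)) := by
    intro F
    rw [hDt, hDx, h.chain δ hδ F, ← he, mul_add, inv_mul_cancel_left₀ he0]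
    ring
  have hcu : D (ι (cc u)) = 0 := by
    rw [hDx, hδ, dS_cc, dT_cc, map_zero, mul_zero, mul_zero, add_zero, mul_zero]
  have ek : k1 δ (v 3) (v 0) = e * k1 D (v 3) (v 0) := by
    rw [hδD, k1_smul]
  have eg : g1 δ (v 3) (v 0) = e * g1 D (v 3) (v 0) := by
    rw [hδD, g1_smul]
  have hkD : k1 D (v 3) (v 0) ≠ 0 := by
    intro h0
    exact hk (by rw [ek, h0, mul_zero])
  obtain ⟨y, hy⟩ : ∃ y, y = -(ι (PowerSeries.map rs V) / ι (vt p) ^ 3) := ⟨_, rfl⟩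
  have eo : om δ (v 3) (v 0) (fx v) y = e * om D (v 3) (v 0) (fx v) y := by
    rw [hδD, om_smul]
  have et : tau δ (v 3) (v 0) (fx v) y = e * tau D (v 3) (v 0) (fx v) y := by
    rw [hδD, la_tau D he0]
  obtain ⟨W₁, hW⟩ : ∃ W₁, W₁ = 1 / ι (vt p) + ι (PowerSeries.map rs Z) -
      om D (v 3) (v 0) (fx v) y / k1 D (v 3) (v 0) := ⟨_, rfl⟩
  obtain ⟨s1, s2, s3, s4⟩ := h.sys hι D hD hcu hv hkD h1 hy hW rfl
  obtain ⟨W', hW'⟩ := h.clear hp5 hι δ hδ hv hmu hy s1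
  refine ⟨y, W₁, W', C (rs c), s1, ?_, ?_, ?_, ?_⟩
  · have h5 : fom δ v ^ 2 * fY v = om δ (v 3) (v 0) (fx v) y ^ 2 := by
      rw [om_eq δ v hY s1, mul_pow, s1]
      ring
    rw [frr, h5, eo, ek, eg, hδx]
    exact la_r he0 hkD s3
  · rw [hδx, s2, ← tau_eq δ v hY s1, et, ek, eg]
    ring
  · rw [hδx, s4, ek, eg]
    ring
  · rw [← hW', eo, ek, mul_div_mul_left _ _ he0, ← hW]

end Pool.Agent.Lib.MP_3550b5_nt.AC
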