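import Mathlib
import Pool.Agent.Lib.MP_3550b5_nt.SV.FLoc
import Pool.Agent.Lib.MP_3550b5_nt.TP.HtK
import Pool.Agent.Lib.MP_3550b5_nt.AC.La
import Pool.Agent.Lib.MP_3550b5_nt.AC.Cl

/-!
PROJECT AC, block ARITHMETIC: from the points of height zero to the points of the leaves, and the count.
-/

namespace Pool.Agent.Lib.MP_3550b5_nt.AC

open PowerSeries SV

variable {p : ℕ} [hp : Fact p.Prime]

/-- `b` is exceptional: `y^2 = x^3 + a x + b` is good ordinary at `p` and has a point `(A / D^2, B / D^3)`, `p ∣ D`, nonsingular modulo every prime, with `|D| ≤ 2^T`, `|A| ≤ 4^T`, of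
canonical cyclotomic `p`-adic height zero. -/
def Exc (p : ℕ) [Fact p.Prime] (a : ℤ) (T : ℕ) (b : ℤ) : Prop :=
  GoodOrdinary p a b ∧ ∃ Bh : (curve a b).Point → (curve a b).Point → ℚ_[p], IsCanonicalHeight p a b Bh ∧
    ∃ (A B D : ℤ) (h : (curve a b).Nonsingular ((A : ℚ) / (D : ℚ) ^ 2) ((B : ℚ) / (D : ℚ) ^ 3)),
      D ≠ 0 ∧ (p : ℤ) ∣ D ∧ IsCoprime (2 * B) (3 * A ^ 2 + a * D ^ 4) ∧ |D| ≤ 2 ^ T ∧ |A| ≤ 4 ^ T ∧
        Bh (.some _ _ h) (.some _ _ h) = 0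

/-- UNIQUENESS of the values. PROOF. `sigmaData_of_SD`, `ev_S_close` for all `k` (see the proof of `ht_unitH`, SV/FLocH; `hasse_of_goodOrdinary`). -/
theorem SD_ev_unique (hp5 : 5 ≤ p) {a b : ℤ} (hord : GoodOrdinary p a b) {c c' : ℤ_[p]}
    {W V Om S Z W' V' Om' S' Z' : ℤ_[p]⟦X⟧} (h : SD (a : ℤ_[p]) (b : ℤ_[p]) c W V Om S Z)
    (h' : SD (a : ℤ_[p]) (b : ℤ_[p]) c' W' V' Om' S' Z') {t : ℤ_[p]} (ht : ‖t‖ < 1) : ev S t = ev S' t := by
  obtain ⟨q, hpq⟩ : ∃ q, p = 2 * q + 1 := hp.out.odd_of_ne_two (by omega)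
  have hq : 1 ≤ q := by omega
  have hA := hasse_of_goodOrdinary hpq hq hord
  have key : ∀ k : ℕ, ‖ev S t - ev S' t‖ ≤ ((p : ℝ)⁻¹) ^ k := by
    intro k
    have := ev_S_close hpq hq k (sigmaData_of_SD h') (sigmaData_of_SD h) rfl rfl hA ht
    rwa [zpow_neg, zpow_natCast, ← inv_pow] at this
  have hp1 : ((p : ℝ)⁻¹) < 1 := by
    apply inv_lt_one_of_one_lt₀
    exact_mod_cast (Fact.out : p.Prime).one_lt
  have h0 := ge_of_tendsto' (tendsto_pow_atTop_nhds_zero_of_lt_one (by positivity) hp1) key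
  exact sub_eq_zero.mp (norm_le_zero_iff.mp h0)

end Pool.Agent.Lib.MP_3550b5_nt.AC
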