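import Mathlib
import Pool.Agent.Lib.MP_3550b5_nt.AC.ArA
import Pool.Agent.Lib.MP_3550b5_nt.RForm
import Pool.Agent.Lib.MP_3550b5_nt.SV.DT

/-!
PROJECT AC, block ARITHMETIC: from the points of height zero to the points of the leaves, and the count.
-/

namespace Pool.Agent.Lib.MP_3550b5_nt.AC

open PowerSeries SV

variable {p : ℕ} [hp : Fact p.Prime]

/-- The value of `V`. PROOF. `w = ev W t` and `w' = B^2 A^(-3)` satisfy `w = 1 + a t^4 w^2 + b t^6 w^3` (`B^2 = A^3 + a A D^4 + b D^6`); the difference times `1 - a t^4 (w + w') - b t^6 (w^2 + w w' + w'^2)`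
(a unit, `p ∣ t`) is `0`. `ev V t * ev W t = 1`. -/
theorem ev_V_eq {a b A B D : ℤ} (heq : B ^ 2 = A ^ 3 + a * A * D ^ 4 + b * D ^ 6) (hpD : (p : ℤ) ∣ D) {Ai Bi : ℤ_[p]}
    (hAi : (A : ℤ_[p]) * Ai = 1) (hBi : (B : ℤ_[p]) * Bi = 1) {c : ℤ_[p]} {W V Om S Z : ℤ_[p]⟦X⟧}
    (h : SD (a : ℤ_[p]) (b : ℤ_[p]) c W V Om S Z) :
    ev V (-((A : ℤ_[p]) * (D : ℤ_[p]) * Bi)) = (A : ℤ_[p]) ^ 3 * Bi ^ 2 := by
  obtain ⟨t, ht⟩ : ∃ t, t = -((A : ℤ_[p]) * (D : ℤ_[p]) * Bi) := ⟨_, rfl⟩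
  rw [← ht]
  have hDd : (p : ℤ_[p]) ∣ (D : ℤ_[p]) := by
    have h1 := (Int.castRingHom ℤ_[p]).map_dvd hpD
    simpa using h1
  have htd : (p : ℤ_[p]) ∣ t := by
    rw [ht]
    exact (Dvd.dvd.mul_right (Dvd.dvd.mul_left hDd _) _).neg_right
  have htn : ‖t‖ < 1 := dvd_iff_norm_lt.1 htd
  have hE : (B : ℤ_[p]) ^ 2 = (A : ℤ_[p]) ^ 3 + a * A * D ^ 4 + b * D ^ 6 := by
    have h1 := congrArg (Int.cast : ℤ → ℤ_[p]) heq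
    push_cast at h1
    exact h1
  have e2 : ev W t = 1 + a * t ^ 4 * ev W t ^ 2 + b * t ^ 6 * ev W t ^ 3 := by
    conv_lhs => rw [h.hW]
    rw [ev_add _ _ htn, ev_add _ _ htn, ev_mul _ _ htn, ev_mul _ _ htn, ev_mul _ _ htn,
      ev_mul _ _ htn, ev_pow _ htn, ev_pow _ htn, ev_pow _ htn, ev_pow _ htn, ev_one, ev_X, ev_C,
      ev_C]
  obtain ⟨v, hv⟩ : ∃ v, v = ev W t := ⟨_, rfl⟩
  obtain ⟨w, hw⟩ : ∃ w : ℤ_[p], w = (B : ℤ_[p]) ^ 2 * Ai ^ 3 := ⟨_, rfl⟩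
  rw [← hv] at e2
  have e4 : w = 1 + a * t ^ 4 * w ^ 2 + b * t ^ 6 * w ^ 3 := by
    have f1 : (a : ℤ_[p]) * t ^ 4 * w ^ 2 = a * D ^ 4 * Ai ^ 2 := by
      rw [hw, ht]
      have g1 : (a : ℤ_[p]) * (-((A : ℤ_[p]) * (D : ℤ_[p]) * Bi)) ^ 4 * ((B : ℤ_[p]) ^ 2 * Ai ^ 3) ^ 2 =
          a * D ^ 4 * ((A * Ai) ^ 4 * (B * Bi) ^ 4) * Ai ^ 2 := by ring
      rw [g1, hAi, hBi]
      ring
    have f2 : (b : ℤ_[p]) * t ^ 6 * w ^ 3 = b * D ^ 6 * Ai ^ 3 := by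
      rw [hw, ht]
      have g1 : (b : ℤ_[p]) * (-((A : ℤ_[p]) * (D : ℤ_[p]) * Bi)) ^ 6 * ((B : ℤ_[p]) ^ 2 * Ai ^ 3) ^ 3 =
          b * D ^ 6 * ((A * Ai) ^ 6 * (B * Bi) ^ 6) * Ai ^ 3 := by ring
      rw [g1, hAi, hBi]
      ring
    rw [f1, f2, hw, hE]
    have g2 : ((A : ℤ_[p]) ^ 3 + a * A * D ^ 4 + b * D ^ 6) * Ai ^ 3 =
        (A * Ai) ^ 3 + a * D ^ 4 * (A * Ai) * Ai ^ 2 + b * D ^ 6 * Ai ^ 3 := by ring
    rw [g2, hAi]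
    ring
  have e5 : (w - v) * (1 - (a * t ^ 4 * (w + v) + b * t ^ 6 * (w ^ 2 + w * v + v ^ 2))) = 0 := by
    linear_combination e4 - e2
  have hwv : w = v := by
    rcases mul_eq_zero.mp e5 with h6 | h6
    · exact sub_eq_zero.mp h6
    · exfalso
      have h7 : (p : ℤ_[p]) ∣ a * t ^ 4 * (w + v) + b * t ^ 6 * (w ^ 2 + w * v + v ^ 2) := by
        apply dvd_add
        · exact Dvd.dvd.mul_right (Dvd.dvd.mul_left (dvd_pow htd (by norm_num)) _) _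
        · exact Dvd.dvd.mul_right (Dvd.dvd.mul_left (dvd_pow htd (by norm_num)) _) _
      have h8 : (1 : ℤ_[p]) = a * t ^ 4 * (w + v) + b * t ^ 6 * (w ^ 2 + w * v + v ^ 2) :=
        sub_eq_zero.mp h6
      rw [← h8, dvd_iff_norm_lt, norm_one] at h7
      exact lt_irrefl _ h7
  have hWV : ev W t * ev V t = 1 := by
    rw [← ev_mul _ _ htn, h.hV, ev_one]
  rw [← hv, ← hwv, hw] at hWV
  have h9 : ev V t = ((B : ℤ_[p]) * Bi) ^ 2 * ((A : ℤ_[p]) * Ai) ^ 3 * ev V t := by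
    rw [hAi, hBi]
    ring
  rw [h9]
  linear_combination ((A : ℤ_[p]) ^ 3 * Bi ^ 2) * hWV

end Pool.Agent.Lib.MP_3550b5_nt.AC
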