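import Mathlib
import Pool.Agent.Lib.MP_3550b5_nt.AC.ArB

/-!
PROJECT AC, block ARITHMETIC: from the points of height zero to the points of the leaves, and the count.
-/

namespace Pool.Agent.Lib.MP_3550b5_nt.AC

open PowerSeries SV

variable {p : ℕ} [hp : Fact p.Prime]

/-- THE DATA OF AN EXCEPTIONAL CURVE. PROOF. `p ∤ A`, `p ∤ B` (as in `ht_unitH`), so `Ai`, `Bi`; `t = -(A D Bi)`. SD data: `hB.formula`, `sigmaData_of_sigma`, `SD_of_sigmaData`. For all of them `ht_unit`: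
`ulog (-(A Bi ev S t)) = 0 = ulog 1`, so `w = -(A Bi ev S t)` (a unit: `ev_isUnit`) has `w^(p-1) = 1` (`pow_eq_of_ulog_eq`), the same for all data (`SD_ev_unique`); `u = w^(p-2)`, `u w = 1`. `D = u t S(t)` as
`t S(t) = D w`; `A = u^2 V(t) S(t)^2` by `ev_V_eq`. `Good`: `D ≠ 0`; `p ∤ 4a^3 + 27b^2`; `A^3 + a A D^4 + b D^6 = B^2 ≠ 0`; infinite order: `ker_not_torsion` (`ptX = A / D^2` has norm `> 1`),
`nsmul_ne_of_not_tor`; `scurve (a : ℚ) b` and `curve a b` are the same by definition. -/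
theorem bad_data (hp5 : 5 ≤ p) {a b : ℤ} {T : ℕ} (h : Exc p a T b) : ∃ (A D : ℤ) (u t : ℤ_[p]), |D| ≤ 2 ^ T ∧ |A| ≤ 4 ^ T ∧
    Good a ![b, D, A] ∧ ‖t‖ < 1 ∧ u ^ (p - 1) = 1 ∧
    (∃ (c : ℤ_[p]) (W V Om S Z : ℤ_[p]⟦X⟧), SD (a : ℤ_[p]) (b : ℤ_[p]) c W V Om S Z) ∧
    ∀ (c : ℤ_[p]) (W V Om S Z : ℤ_[p]⟦X⟧), SD (a : ℤ_[p]) (b : ℤ_[p]) c W V Om S Z →
      (D : ℤ_[p]) = u * (t * ev S t) ∧ (A : ℤ_[p]) = u ^ 2 * ev V t * ev S t ^ 2 := by
  obtain ⟨hord, Bh, hB, A, B, D, hns, hD0, hpD, hcop, hDT, hAT, hz⟩ := h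
  have hQ : IsRep a b A B D (.some _ _ hns) := ⟨hD0, hns, rfl⟩
  have heq := hQ.eqn
  have hpZ : Prime (p : ℤ) := Nat.prime_iff_prime_int.mp hp.out
  have hAn : ¬ (p : ℤ) ∣ A := by
    intro hd
    have h1 : (p : ℤ) ∣ B ^ 2 := by
      rw [heq]
      exact dvd_add (dvd_add (dvd_pow hd (by norm_num))
        (Dvd.dvd.mul_left (dvd_pow hpD (by norm_num)) _))
        (Dvd.dvd.mul_left (dvd_pow hpD (by norm_num)) _)
    have h2 : (p : ℤ) ∣ 2 * B := Dvd.dvd.mul_left (hpZ.dvd_of_dvd_pow h1) _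
    have h3 : (p : ℤ) ∣ 3 * A ^ 2 + a * D ^ 4 :=
      dvd_add (Dvd.dvd.mul_left (dvd_pow hd (by norm_num)) _)
        (Dvd.dvd.mul_left (dvd_pow hpD (by norm_num)) _)
    exact hpZ.not_isUnit (hcop.isUnit_of_dvd' h2 h3)
  have hBn : ¬ (p : ℤ) ∣ B := by
    intro hd
    have h1 : (p : ℤ) ∣ A ^ 3 := by
      have h2 : A ^ 3 = B ^ 2 - a * A * D ^ 4 - b * D ^ 6 := by rw [heq]; ring
      rw [h2]
      exact dvd_sub (dvd_sub (dvd_pow hd (by norm_num))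
        (Dvd.dvd.mul_left (dvd_pow hpD (by norm_num)) _))
        (Dvd.dvd.mul_left (dvd_pow hpD (by norm_num)) _)
    exact hAn (hpZ.dvd_of_dvd_pow h1)
  have hAu : IsUnit (A : ℤ_[p]) := isUnit_intCast hAn
  obtain ⟨Ai, hAi⟩ := hAu.exists_right_inv
  obtain ⟨Bi, hBi⟩ := (isUnit_intCast hBn).exists_right_inv
  have hBiu : IsUnit Bi := IsUnit.of_mul_eq_one _ (by rw [mul_comm]; exact hBi)
  obtain ⟨t, ht⟩ : ∃ t, t = -((A : ℤ_[p]) * (D : ℤ_[p]) * Bi) := ⟨_, rfl⟩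
  have hDn : ‖(D : ℤ_[p])‖ < 1 := (PadicInt.norm_int_lt_one_iff_dvd D).mpr hpD
  have htn : ‖t‖ < 1 := by
    rw [ht, norm_neg, norm_mul, norm_mul]
    calc ‖(A : ℤ_[p])‖ * ‖(D : ℤ_[p])‖ * ‖Bi‖ ≤ 1 * ‖(D : ℤ_[p])‖ * 1 := by
          gcongr
          · exact PadicInt.norm_le_one _
          · exact PadicInt.norm_le_one _
      _ = ‖(D : ℤ_[p])‖ := by ring
      _ < 1 := hDn
  obtain ⟨σ, hσ, -⟩ := hB.formula
  obtain ⟨c, W, V, Om, S, Z, -, hS⟩ := sigmaData_of_sigma hσ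
  have hSD := SD_of_sigmaData hS
  obtain ⟨w, hw⟩ : ∃ w, w = -((A : ℤ_[p]) * Bi * ev S t) := ⟨_, rfl⟩
  have hwu : IsUnit w := by
    rw [hw]
    exact ((hAu.mul hBiu).mul (ev_isUnit hS.S0 htn)).neg
  have h1 := ht_unit hp5 hQ hcop hpD hord hB hSD hBi
  rw [← ht, ← hw, hz] at h1
  have hlog1 : ulog (1 : ℤ_[p]) = 0 := ulog_one
  have hw1 : w ^ (p - 1) = 1 := by
    have h2 := pow_eq_of_ulog_eq (p := p) (by omega) hwu isUnit_one (h1.symm.trans hlog1.symm)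
    rwa [one_pow] at h2
  have huw : w ^ (p - 2) * w = 1 := by
    rw [← pow_succ, show p - 2 + 1 = p - 1 by omega, hw1]
  have hB0 : B ≠ 0 := fun h0 => hBn (h0 ▸ dvd_zero _)
  refine ⟨A, D, w ^ (p - 2), t, hDT, hAT, ⟨hD0, ?_, ?_, ?_⟩, htn, ?_, ⟨c, W, V, Om, S, Z, hSD⟩, ?_⟩
  · intro h0
    change 4 * a ^ 3 + 27 * b ^ 2 = 0 at h0
    exact hord.1 (h0 ▸ dvd_zero _)
  · change A ^ 3 + a * A * D ^ 4 + b * D ^ 6 ≠ 0
    rw [← heq]
    exact pow_ne_zero 2 hB0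
  · have hDq : (D : ℚ) ≠ 0 := Int.cast_ne_zero.2 hD0
    refine ⟨(A : ℚ) / (D : ℚ) ^ 2, (B : ℚ) / (D : ℚ) ^ 3, hns, ?_, ?_⟩
    · change (A : ℚ) = (A : ℚ) / (D : ℚ) ^ 2 * (D : ℚ) ^ 2
      rw [div_mul_cancel₀ _ (pow_ne_zero 2 hDq)]
    · have hnt : ¬ IsOfFinAddOrder (.some _ _ hns : (curve a b).Point) := by
        refine ker_not_torsion (l := p) ?_
        have h2 : ptX (.some _ _ hns : (curve a b).Point) = (A : ℚ) / (D : ℚ) ^ 2 := rfl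
        rw [h2]
        push_cast
        rw [norm_div, norm_pow]
        have h3 : ‖(A : ℚ_[p])‖ = 1 := by
          have h4 := PadicInt.isUnit_iff.1 hAu
          rwa [PadicInt.norm_def, PadicInt.coe_intCast] at h4
        have h4 : ‖(D : ℚ_[p])‖ < 1 := by
          rwa [PadicInt.norm_def, PadicInt.coe_intCast] at hDn
        have h5 : (D : ℚ_[p]) ≠ 0 := Int.cast_ne_zero.2 hD0
        have h6 : 0 < ‖(D : ℚ_[p])‖ := norm_pos_iff.2 h5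
        rw [h3, one_lt_div (pow_pos h6 2)]
        exact pow_lt_one₀ h6.le h4 two_ne_zero
      exact fun m hm => nsmul_ne_of_not_tor hnt m (by omega)
  · rw [← pow_mul, mul_comm, pow_mul, hw1, one_pow]
  · intro c' W' V' Om' S' Z' h'
    have h2 : ev S t = ev S' t := SD_ev_unique hp5 hord hSD h' htn
    have h3 := ev_V_eq heq hpD hAi hBi h'
    rw [← ht] at h3
    rw [← h2, h3]
    constructor
    · calc (D : ℤ_[p]) = (w ^ (p - 2) * w) * D := by rw [huw, one_mul]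
        _ = w ^ (p - 2) * (t * ev S t) := by
          rw [mul_assoc]
          refine congrArg (fun z => w ^ (p - 2) * z) ?_
          rw [hw]
          linear_combination (-ev S t) * ht
    · calc (A : ℤ_[p]) = (w ^ (p - 2) * w) ^ 2 * A := by rw [huw, one_pow, one_mul]
        _ = (w ^ (p - 2)) ^ 2 * ((A : ℤ_[p]) ^ 3 * Bi ^ 2) * ev S t ^ 2 := by
          rw [mul_pow, mul_assoc, mul_assoc]
          refine congrArg (fun z => (w ^ (p - 2)) ^ 2 * z) ?_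
          rw [hw]
          ring

end Pool.Agent.Lib.MP_3550b5_nt.AC
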