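import Mathlib
import Pool.Agent.Lib.MP_3550b5_nt.AC.ArC

/-!
PROJECT AC, block ARITHMETIC: from the points of height zero to the points of the leaves, and the count.
-/

namespace Pool.Agent.Lib.MP_3550b5_nt.AC

open PowerSeries SV

variable {p : ℕ} [hp : Fact p.Prime]

/-- THE POINT OF THE LEAF. PROOF. `b - bs = p^2 m`, `s = p m`; `SgL.val` at `(s, t)`, `bs + p s = b`. -/
theorem exists_BP {a bs b A D : ℤ} {l T : ℕ} {u t : ℤ_[p]} {L : Leaf p} {tay : Polynomial ℤ_[p] →+* Hz p}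
    {rs : Hz p →+* ℤ_[p]⟦X⟧} {c k g h2 h3 : Hz p} {W V Om S Z N R : (Hz p)⟦X⟧}
    (h : SgL a bs u L tay rs c k g h2 h3 W V Om S Z N R) (hb : (p : ℤ) ^ 2 ∣ b - bs) (hl : |b| ≤ 2 ^ l)
    (hD : |D| ≤ 2 ^ T) (hA : |A| ≤ 4 ^ T) (ht : ‖t‖ < 1)
    (hd : ∀ (c : ℤ_[p]) (W V Om S Z : ℤ_[p]⟦X⟧), SD (a : ℤ_[p]) (b : ℤ_[p]) c W V Om S Z →
      (D : ℤ_[p]) = u * (t * ev S t) ∧ (A : ℤ_[p]) = u ^ 2 * ev V t * ev S t ^ 2) :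
    ∃ P : BP L l T, P.v = ![b, D, A] := by
  obtain ⟨m, hm⟩ := hb
  have hs : ‖(p : ℤ_[p]) * (m : ℤ_[p])‖ < 1 := by
    rw [norm_mul]
    refine (mul_le_of_le_one_right (norm_nonneg _) (PadicInt.norm_le_one _)).trans_lt ?_
    rw [PadicInt.norm_p]
    exact inv_lt_one_of_one_lt₀ (by exact_mod_cast hp.out.one_lt)
  obtain ⟨P, hP1, hP2⟩ : ∃ P : Pt p, P.s = (p : ℤ_[p]) * (m : ℤ_[p]) ∧ P.t = t :=
    ⟨⟨_, t, hs, ht⟩, rfl, rfl⟩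
  obtain ⟨e1, c', W', V', Om', S', Z', hSD, e2, e3⟩ := h.val P
  have hbs : (bs : ℤ_[p]) + p * P.s = (b : ℤ_[p]) := by
    have h1 : (b : ℤ_[p]) - bs = (p : ℤ_[p]) ^ 2 * m := by exact_mod_cast congrArg (Int.cast : ℤ → ℤ_[p]) hm
    rw [hP1]
    linear_combination -h1
  rw [hbs] at e1 hSD
  rw [hP2] at e2 e3
  obtain ⟨hD', hA'⟩ := hd _ _ _ _ _ _ hSD
  exact ⟨⟨![b, D, A], P, e1, e2.trans hD'.symm, e3.trans hA'.symm, hl, hD, hA⟩, rfl⟩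

end Pool.Agent.Lib.MP_3550b5_nt.AC
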