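import Mathlib
import Pool.Agent.Lib.MP_3550b5_nt.G.Mult
import Pool.Agent.Lib.MP_3550b5_nt.G.Additive
import Pool.Agent.Lib.MP_3550b5_nt.G.Quad
import Pool.Agent.Lib.MP_3550b5_nt.RMult
import Pool.Agent.Lib.MP_3550b5_nt.SV.FLoc
import Pool.Agent.Lib.MP_3550b5_nt.AC.Ar

/-!
PROJECT AC, block ALL POINTS: from arbitrary points of infinite order to the points which are nonsingular modulo every prime.
-/

namespace Pool.Agent.Lib.MP_3550b5_nt.AC

open WeierstrassCurve.Affine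

/-- EXPLICIT INDEX, multiplicative case. PROOF. The proof of `G.exists_ns_mult` (G/Mult.lean) with `m ≤ 4 n + 4` everywhere: suppose that no `m` with `1 ≤ m ≤ 4 n + 4` works. In the node data `N` with `ν : ℤ`:
`V.D ν Δ` as `4 a^2 d1 = Δ`, so `ν ≤ n`. For `m < 2 n + 1` the valuations `i_m` of `x((m + 1) P) - x0` lie in `[1, ν]`; `2 n + 1` numbers, `n` values: three have the same value
(`Finset.exists_lt_card_fiberwise_of_mul_lt_card_of_maps_to`); the multiples used are `2 (m + 1) ≤ 4 n + 2` and the differences. -/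
theorem ns_mult_le {K : Type*} [Field K] {V : G.DVal K} {a b : K} [DecidableEq K] (h2 : ¬ V.D 1 (2 : K)) (h3 : ¬ V.D 1 (3 : K)) (ha : ¬ V.D 1 a) (ha0 : V.D 0 a) {n : ℕ}
    (hn : ¬ V.D ((n : ℤ) + 1) (4 * a ^ 3 + 27 * b ^ 2)) (P : (scurve a b).Point) :
    ∃ m : ℕ, 1 ≤ m ∧ m ≤ 4 * n + 4 ∧ V.NS (m • P) := by
  classical
  have hΔ : 4 * a ^ 3 + 27 * b ^ 2 ≠ 0 := G.DVal.ne_zero_of_not_D hn
  by_contra hcon
  push Not at hcon
  have hpt : ∀ m : ℕ, 1 ≤ m → m ≤ 4 * n + 4 →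
      ∃ (x y : K) (h : (scurve a b).Nonsingular x y),
      m • P = Point.some x y h ∧ V.Sing a x y := by
    intro m hm hm'
    have h1 := hcon m hm hm'
    unfold G.DVal.NS at h1
    push Not at h1
    exact h1
  obtain ⟨x', y', h', -, hs'⟩ := hpt 1 le_rfl (by omega)
  obtain ⟨x0, c, d1, d0, ν, N⟩ :=
    G.exists_nodeData h2 h3 ha ha0 hΔ (G.nonsing_iff.mp h').1 hs'
  -- `ν ≤ n`
  have hνn : ν ≤ n := by
    by_contra hlt
    apply hn
    have e1 : 4 * a ^ 3 + 27 * b ^ 2 = 4 * (a ^ 2 * d1) := by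
      rw [N.hd1]
      linear_combination (-3 * (2 * a * x0 - 3 * b)) * N.hx0
    rw [e1]
    have k1 : V.D ν (a ^ 2 * d1) :=
      G.DVal.D_mul' (G.DVal.D_pow' ha0 2 (l := 0) (by norm_num)) N.d1_D (by omega)
    exact G.DVal.D_mono (by omega)
      (G.DVal.D_mul' (G.DVal.D_ofNat 4) k1 (l := ν) (by omega))
  have hdat : ∀ m : ℕ, m < 2 * n + 1 →
      ∃ (x y : K) (h : (scurve a b).Nonsingular x y) (i : ℤ) (r : K),
      (m + 1) • P = Point.some x y h ∧ 1 ≤ i ∧ 2 * i < ν ∧ V.D i (x - x0) ∧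
      ¬ V.D (i + 1) (x - x0) ∧ y = r * (x - x0) ∧ V.D 0 r ∧ V.D 1 (r ^ 2 - c) := by
    intro m hmn
    obtain ⟨x, y, h, e, hs⟩ := hpt (m + 1) (by omega) (by omega)
    have hmid : ∀ k : ℤ, ν ≤ 2 * k → ¬ V.D k (x - x0) := by
      intro k hk hD
      have h4 := N.ns_middle h hs hk hD
      rw [← e, smul_smul] at h4
      exact hcon _ (by omega) (by omega) h4
    have hX0 : x - x0 ≠ 0 := by
      intro h0
      apply hmid ν (by have := N.n_pos; omega)
      rw [h0]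
      exact G.DVal.D_zero ν
    obtain ⟨hD, hnD⟩ := G.DVal.exists_exact (V := V) hX0
    have hi1 : 1 ≤ V.v (x - x0) :=
      (G.DVal.D_iff hX0).mp (N.D_X (G.nonsing_iff.mp h).1 hs)
    have hi2 : 2 * V.v (x - x0) < ν := by
      by_contra hge
      exact hmid _ (by omega) hD
    obtain ⟨r, hr1, hr2, hr3⟩ := N.slope (G.nonsing_iff.mp h).1 hi1 hi2 hD hnD
    exact ⟨x, y, h, V.v (x - x0), r, e, hi1, hi2, hD, hnD, hr1, hr2, hr3⟩
  have hdat2 : ∀ m : Fin (2 * n + 1),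
      ∃ (x y : K) (h : (scurve a b).Nonsingular x y) (i : ℤ) (r : K),
      ((m : ℕ) + 1) • P = Point.some x y h ∧ 1 ≤ i ∧ 2 * i < ν ∧ V.D i (x - x0) ∧
      ¬ V.D (i + 1) (x - x0) ∧ y = r * (x - x0) ∧ V.D 0 r ∧ V.D 1 (r ^ 2 - c) :=
    fun m => hdat m.1 m.2
  choose xx yy hh ii rr hdat3 using hdat2
  have hpair : ∀ m m' : Fin (2 * n + 1), m < m' → ii m = ii m' →
      ¬ V.D 1 (rr m - rr m') := by
    intro m m' hlt hii hD
    have hlt' : (m : ℕ) < (m' : ℕ) := hlt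
    have hm' := m'.2
    obtain ⟨e1, a1, a2, a3, a4, a5, a6, a7⟩ := hdat3 m
    obtain ⟨f1, b1, b2, b3, b4, b5, b6, b7⟩ := hdat3 m'
    rw [hii] at a3 a4
    have e2 : yy m = (rr m' + (rr m - rr m')) * (xx m - x0) := by
      rw [add_sub_cancel]; exact a5
    have h4 := N.ns_sub (hh m') (hh m) b1 b3 b4 a3 a4 b5 e2 b6 b7 hD
    rw [← e1, ← f1, sub_eq_add_neg, ← sub_nsmul P (by omega : (m : ℕ) + 1 ≤ (m' : ℕ) + 1)] at h4
    exact hcon _ (by omega) (by omega) h4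
  have hsign : ∀ m m' : Fin (2 * n + 1),
      V.D 1 (rr m - rr m') ∨ V.D 1 (rr m + rr m') := by
    intro m m'
    by_contra hcon2
    push Not at hcon2
    obtain ⟨-, -, -, -, -, -, -, a7⟩ := hdat3 m
    obtain ⟨-, -, -, -, -, -, -, b7⟩ := hdat3 m'
    apply G.DVal.not_D_mul hcon2.1 hcon2.2
    have e1 : (rr m - rr m') * (rr m + rr m') = (rr m ^ 2 - c) - (rr m' ^ 2 - c) := by ring
    rw [e1]
    exact G.DVal.D_mono (by norm_num) (G.DVal.D_sub a7 b7)
  have hmaps : ∀ m ∈ (Finset.univ : Finset (Fin (2 * n + 1))),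
      ii m ∈ Finset.Icc (1 : ℤ) n := by
    intro m _
    have h5 := (hdat3 m).2.1
    have h6 := (hdat3 m).2.2.1
    rw [Finset.mem_Icc]
    constructor
    · exact h5
    · omega
  have hcard : (Finset.Icc (1 : ℤ) n).card * 2 < (Finset.univ : Finset (Fin (2 * n + 1))).card := by
    rw [Int.card_Icc, Finset.card_univ, Fintype.card_fin]
    omega
  obtain ⟨z, -, hz⟩ := Finset.exists_lt_card_fiber_of_mul_lt_card_of_maps_to hmaps hcard
  obtain ⟨A, B, C, hA, hB, hC, hAB, hAC, hBC⟩ := Finset.two_lt_card_iff.mp hz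
  rw [Finset.mem_filter] at hA hB hC
  -- the three indices in increasing order
  have key : ∀ m1 m2 m3 : Fin (2 * n + 1), m1 < m2 → m2 < m3 → ii m1 = z → ii m2 = z →
      ii m3 = z → False := by
    intro m1 m2 m3 h12 h23 q1 q2 q3
    have s12 := (hsign m1 m2).resolve_left (hpair m1 m2 h12 (q1.trans q2.symm))
    have s13 := (hsign m1 m3).resolve_left (hpair m1 m3 (h12.trans h23) (q1.trans q3.symm))
    apply hpair m2 m3 h23 (q2.trans q3.symm)
    have := G.DVal.D_sub s12 s13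
    rwa [add_sub_add_left_eq_sub] at this
  rcases lt_or_gt_of_ne hAB with h1 | h1 <;> rcases lt_or_gt_of_ne hAC with h4 | h4 <;>
    rcases lt_or_gt_of_ne hBC with h5 | h5
  · exact key A B C h1 h5 hA.2 hB.2 hC.2
  · exact key A C B h4 h5 hA.2 hC.2 hB.2
  · exact absurd (h1.trans h5) (not_lt.mpr h4.le)
  · exact key C A B h4 h1 hC.2 hA.2 hB.2
  · exact key B A C h1 h4 hB.2 hA.2 hC.2
  · exact absurd (h1.trans h4) (not_lt.mpr h5.le)
  · exact key B C A h5 h4 hB.2 hC.2 hA.2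
  · exact key C B A h5 h1 hC.2 hB.2 hA.2

end Pool.Agent.Lib.MP_3550b5_nt.AC
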