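import Mathlib
import Pool.Agent.Lib.MP_3550b5_nt.AC.ApA
import Pool.Agent.Lib.MP_3550b5_nt.G.Additive

/-!
PROJECT AC, block ALL POINTS: from arbitrary points of infinite order to the points which are nonsingular modulo every prime.
-/

namespace Pool.Agent.Lib.MP_3550b5_nt.AC

open WeierstrassCurve.Affine

/-- The third multiple is nonsingular (used with `k = 2` and `k = 3`). -/
private lemma apB_three {K : Type*} [Field K] {V : G.DVal K} {a b : K} [DecidableEq K] (h2 : ¬ V.D 1 (2 : K)) (h3 : ¬ V.D 1 (3 : K))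
    (ha : V.D 1 a) {x y x2 y2 : K} (hP : (scurve a b).Nonsingular x y)
    (hQ : (scurve a b).Nonsingular x2 y2)
    (e : (Point.some x y hP + Point.some x y hP : (scurve a b).Point) = Point.some x2 y2 hQ)
    {k : ℤ} (hx : V.D 1 x) (hx2 : V.D 1 x2) (hd : V.D (k - 1) (x2 - x)) (hs : V.D k (y2 + y))
    (hny : ¬ V.D k y) :
    ∃ m : ℕ, 1 ≤ m ∧ m ≤ 4 ∧ V.NS (m • (Point.some x y hP : (scurve a b).Point)) := by
  by_cases hxx : x2 = x
  · rcases G.eq_or_neg_of_x hQ hP hxx with h | h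
    · rw [h] at e
      have h0 : (Point.some x y hP : (scurve a b).Point) = 0 := by
        have := e
        rwa [add_eq_right] at this
      exact absurd h0 (Point.some_ne_zero hP)
    · refine ⟨3, by norm_num, by norm_num, ?_⟩
      have h4 : 3 • (Point.some x y hP : (scurve a b).Point) = 0 := by
        rw [succ_nsmul, two_nsmul, e, h, neg_add_cancel]
      rw [h4]
      exact G.DVal.NS_zero
  · obtain ⟨l3, x3, y3, hR, f1, f2, f3, f4⟩ := G.add_coord hQ hP hxx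
    refine ⟨3, by norm_num, by norm_num, ?_⟩
    rw [succ_nsmul, two_nsmul, e, f4, G.DVal.NS_some]
    intro hsing
    have g1 := G.D_of_sing h3 ha hsing
    have g2 : V.D 1 (l3 ^ 2) := by
      have h4 : l3 ^ 2 = x3 + x2 + x := by rw [f2]; ring
      rw [h4]
      exact G.DVal.D_add (G.DVal.D_add g1 hx2) hx
    have g3 : V.D 1 l3 := G.DVal.D_sq (k := 1) (G.DVal.D_mono (by norm_num) g2)
    have g4 : V.D k (y2 - y) := by
      rw [← f1]
      exact G.DVal.D_mul' g3 hd (by omega)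
    have g5 : V.D k (2 * y) := by
      have h4 : 2 * y = (y2 + y) - (y2 - y) := by ring
      rw [h4]
      exact G.DVal.D_sub hs g4
    exact hny (G.DVal.D_of_mul h2 (G.DVal.D_mono (by omega) g5))

/-- EXPLICIT INDEX, additive case. PROOF. The proof of `G.exists_ns_additive` (G/Additive.lean): `m ∈ {1, 2, 3, 4}`. -/
theorem ns_additive_le {K : Type*} [Field K] {V : G.DVal K} {a b : K} [DecidableEq K] (h2 : ¬ V.D 1 (2 : K)) (h3 : ¬ V.D 1 (3 : K)) (ha : V.D 1 a)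
    (hmin : ¬ (V.D 4 a ∧ V.D 6 b)) (P : (scurve a b).Point) : ∃ m : ℕ, 1 ≤ m ∧ m ≤ 4 ∧ V.NS (m • P) := by
  by_cases hns : V.NS P
  · exact ⟨1, le_rfl, by norm_num, by rwa [one_nsmul]⟩
  rcases P with _ | ⟨x, y, hP⟩
  · exact absurd G.DVal.NS_zero hns
  rw [G.DVal.NS_some, not_not] at hns
  have hx : V.D 1 x := G.D_of_sing h3 ha hns
  obtain ⟨-, hy, hq⟩ := hns
  have h20 : (2 : K) ≠ 0 := G.DVal.ne_zero_of_not_D h2
  have D02 : V.D 0 (2 : K) := G.DVal.D_ofNat 2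
  have D03 : V.D 0 (3 : K) := G.DVal.D_ofNat 3
  by_cases hy0 : y = 0
  · refine ⟨2, by norm_num, by norm_num, ?_⟩
    rw [two_nsmul, G.dbl_eq_zero hP (by rw [hy0, mul_zero])]
    exact G.DVal.NS_zero
  obtain ⟨l, x2, y2, hQ, e1, e2, e3, e4⟩ := G.dbl_coord hP (mul_ne_zero h20 hy0)
  by_cases hl : V.D 1 l
  swap
  · refine ⟨2, by norm_num, by norm_num, ?_⟩
    rw [two_nsmul, e4, G.DVal.NS_some]
    exact G.ns_dbl h3 ha hx e2 hl
  have hl2 : V.D 2 (l ^ 2) := G.DVal.D_pow' hl 2 (by norm_num)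
  have hx2 : V.D 1 x2 := by
    rw [e2]
    exact G.DVal.D_sub (G.DVal.D_mono (by norm_num) hl2) (G.DVal.D_mul' D02 hx (by norm_num))
  have ed : x2 - x = l ^ 2 - 3 * x := by rw [e2]; ring
  have es : y2 + y = -(l * (x2 - x)) := by rw [e3]; ring
  have hd1 : V.D 1 (x2 - x) := G.DVal.D_sub hx2 hx
  have hs2 : V.D 2 (y2 + y) := by
    rw [es]
    exact G.DVal.D_neg (G.DVal.D_mul' hl hd1 (by norm_num))
  by_cases hy2 : V.D 2 y
  swap
  · exact apB_three h2 h3 ha hP hQ e4 (k := 2) hx hx2 (G.DVal.D_mono (by norm_num) hd1) hs2 hy2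
  have hq3 : V.D 3 (3 * x ^ 2 + a) := by
    rw [← e1]
    exact G.DVal.D_mul' (G.DVal.D_mul' D02 hy2 (by norm_num) : V.D 2 (2 * y)) hl (by norm_num)
  by_cases hx' : V.D 2 x
  swap
  · -- case 2a
    by_cases hy20 : y2 = 0
    · refine ⟨4, by norm_num, by norm_num, ?_⟩
      have h4 : 4 • (Point.some x y hP : (scurve a b).Point) = 0 := by
        rw [show (4 : ℕ) = 2 * 2 by norm_num, mul_nsmul, two_nsmul, two_nsmul, e4]
        exact G.dbl_eq_zero hQ (by rw [hy20, mul_zero])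
      rw [h4]
      exact G.DVal.NS_zero
    obtain ⟨l', x4, y4, hR, f1, f2, f3, f4⟩ := G.dbl_coord hQ (mul_ne_zero h20 hy20)
    by_cases hl' : V.D 1 l'
    · exfalso
      have hy2' : V.D 2 y2 := by
        have h4 : y2 = (y2 + y) - y := by ring
        rw [h4]
        exact G.DVal.D_sub hs2 hy2
      have hq3' : V.D 3 (3 * x2 ^ 2 + a) := by
        rw [← f1]
        exact G.DVal.D_mul' (G.DVal.D_mul' D02 hy2' (by norm_num) : V.D 2 (2 * y2)) hl' (by norm_num)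
      have h9 : V.D 3 (3 * (3 * x ^ 2)) := by
        have h4 : 3 * (3 * x ^ 2) = (3 * x2 ^ 2 + a) - (3 * x ^ 2 + a) - 3 * (l ^ 2) ^ 2 +
            3 * (2 * (2 * (x * l ^ 2))) := by rw [e2]; ring
        rw [h4]
        refine G.DVal.D_add (G.DVal.D_sub (G.DVal.D_sub hq3' hq3) ?_) ?_
        · exact G.DVal.D_mul' D03 (G.DVal.D_pow' hl2 2 (by norm_num) : V.D 4 ((l ^ 2) ^ 2)) (by norm_num)
        · have k1 : V.D 3 (x * l ^ 2) := G.DVal.D_mul' hx hl2 (by norm_num)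
          have k2 : V.D 3 (2 * (x * l ^ 2)) := G.DVal.D_mul' D02 k1 (by norm_num)
          have k3 : V.D 3 (2 * (2 * (x * l ^ 2))) := G.DVal.D_mul' D02 k2 (by norm_num)
          exact G.DVal.D_mul' D03 k3 (by norm_num)
      have k1 : V.D 3 (3 * x ^ 2) := G.DVal.D_of_mul (k := 3) h3 (G.DVal.D_mono (by norm_num) h9)
      have k2 : V.D 3 (x ^ 2) := G.DVal.D_of_mul (k := 3) h3 (G.DVal.D_mono (by norm_num) k1)
      exact hx' (G.DVal.D_sq (k := 2) (G.DVal.D_mono (by norm_num) k2))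
    · refine ⟨4, by norm_num, by norm_num, ?_⟩
      rw [show (4 : ℕ) = 2 * 2 by norm_num, mul_nsmul, two_nsmul, two_nsmul, e4, f4, G.DVal.NS_some]
      exact G.ns_dbl h3 ha hx2 f2 hl'
  -- case 2b
  have hxx : V.D 4 (3 * x ^ 2) :=
    G.DVal.D_mul' D03 (G.DVal.D_pow' hx' 2 (by norm_num) : V.D 4 (x ^ 2)) (by norm_num)
  have hd2 : V.D 2 (x2 - x) := by
    rw [ed]
    exact G.DVal.D_sub hl2 (G.DVal.D_mul' D03 hx' (by norm_num))
  by_cases hy3 : V.D 3 y
  swap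
  · refine apB_three h2 h3 ha hP hQ e4 (k := 3) hx hx2 (G.DVal.D_mono (by norm_num) hd2) ?_ hy3
    rw [es]
    exact G.DVal.D_neg (G.DVal.D_mul' hl hd2 (by norm_num))
  exfalso
  have hq4 : V.D 4 (3 * x ^ 2 + a) := by
    rw [← e1]
    exact G.DVal.D_mul' (G.DVal.D_mul' D02 hy3 (by norm_num) : V.D 3 (2 * y)) hl (by norm_num)
  have ha4 : V.D 4 a := by
    have h4 : a = (3 * x ^ 2 + a) - 3 * x ^ 2 := by ring
    rw [h4]
    exact G.DVal.D_sub hq4 hxx
  refine hmin ⟨ha4, ?_⟩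
  have h4 : b = y ^ 2 - x ^ 3 - a * x := by
    linear_combination -(scurve_eq hP)
  rw [h4]
  refine G.DVal.D_sub (G.DVal.D_sub ?_ ?_) ?_
  · exact G.DVal.D_pow' hy3 2 (by norm_num)
  · exact G.DVal.D_pow' hx' 3 (by norm_num)
  · exact G.DVal.D_mul' ha4 hx' (by norm_num)


end Pool.Agent.Lib.MP_3550b5_nt.AC
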