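import Mathlib
import Pool.Agent.Lib.MP_3550b5_nt.AC.ApB

/-!
PROJECT AC, block ALL POINTS: from arbitrary points of infinite order to the points which are nonsingular modulo every prime.
-/

namespace Pool.Agent.Lib.MP_3550b5_nt.AC

open WeierstrassCurve.Affine

/-- The `l`-adic valuation of the rational numbers. -/
noncomputable def pV (l : ℕ) [Fact l.Prime] : G.DVal ℚ where
  v x := padicValRat l x
  map_mul := fun hx hy => padicValRat.mul hx hy
  map_add := fun _ _ hxy => padicValRat.min_le_padicValRat_add hxy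

/-- PROOF. `padicNorm`, `Padic.eq_padicNorm`. -/
lemma pV_D {l : ℕ} [hl : Fact l.Prime] (k : ℤ) (x : ℚ) : (pV l).D k x ↔ ‖((x : ℚ) : ℚ_[l])‖ ≤ (l : ℝ) ^ (-k) := by
  have hl1 : (1 : ℝ) < l := by exact_mod_cast hl.out.one_lt
  by_cases hx : x = 0
  · subst hx
    constructor
    · intro _
      rw [Rat.cast_zero, norm_zero]
      positivity
    · intro _
      exact Or.inl rfl
  · have hx' : ((x : ℚ) : ℚ_[l]) ≠ 0 := Rat.cast_ne_zero.2 hx
    rw [Padic.norm_eq_zpow_neg_valuation hx', Padic.valuation_ratCast,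
      zpow_le_zpow_iff_right₀ hl1, neg_le_neg_iff]
    constructor
    · rintro (h | h)
      · exact absurd h hx
      · exact h
    · intro h
      exact Or.inr h

end Pool.Agent.Lib.MP_3550b5_nt.AC
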