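import Mathlib
import Pool.Agent.Lib.MP_3550b5_nt.AC.ApC

/-!
PROJECT AC, block ALL POINTS: from arbitrary points of infinite order to the points which are nonsingular modulo every prime.
-/

namespace Pool.Agent.Lib.MP_3550b5_nt.AC

open WeierstrassCurve.Affine

private lemma ApD_int {l : ℕ} [hl : Fact l.Prime] (k : ℕ) (x : ℤ) :
    (pV l).D (k : ℤ) (x : ℚ) ↔ (l : ℤ) ^ k ∣ x := by
  rw [pV_D, Rat.cast_intCast, ← Padic.norm_int_le_pow_iff_dvd]

private lemma ApD_lt {l : ℕ} [hl : Fact l.Prime] {x : ℚ} (h : ‖((x : ℚ) : ℚ_[l])‖ < 1) :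
    (pV l).D 1 x := by
  rw [pV_D, Padic.norm_le_pow_iff_norm_lt_pow_add_one, neg_add_cancel, zpow_zero]
  exact h

private lemma ApD_sing {l : ℕ} [hl : Fact l.Prime] (hl5 : 5 ≤ l) {a b : ℤ} {x y : ℚ}
    (h : (curve a b).Nonsingular x y) (hs : SingAt l (Point.some x y h : (curve a b).Point)) :
    (pV l).Sing (a : ℚ) x y := by
  obtain ⟨h1, h2, h3⟩ := hs
  have e1 : ptX (Point.some x y h : (curve a b).Point) = x := rfl
  have e2 : ptY (Point.some x y h : (curve a b).Point) = y := rfl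
  rw [e1] at h1 h3
  rw [e2] at h2
  refine ⟨?_, ?_, ?_⟩
  · rw [pV_D, neg_zero, zpow_zero]
    exact h1
  · have hn2 : ‖(2 : ℚ_[l])‖ = 1 := by
      have h4 : ¬ (l : ℤ) ∣ 2 := by
        intro h5
        have := Int.le_of_dvd (by norm_num) h5
        omega
      have h6 := (Padic.norm_intCast_eq_one_iff (p := l) (z := 2)).2 (by
        have h7 : IsCoprime (2 : ℤ) l := by
          have h8 : Prime (l : ℤ) := Nat.prime_iff_prime_int.1 hl.out
          exact ((Prime.coprime_iff_not_dvd h8).2 h4).symm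
        exact h7)
      exact_mod_cast h6
    rw [norm_mul, hn2, one_mul] at h2
    exact ApD_lt h2
  · have e3 : (((3 * x ^ 2 + (a : ℚ) : ℚ)) : ℚ_[l]) = 3 * (x : ℚ_[l]) ^ 2 + (a : ℚ_[l]) := by
      push_cast
      ring
    rw [← e3] at h3
    exact ApD_lt h3

/-- THE LOCAL INDEX. PROOF. `V = pV l`; `pV_D` for `2`, `3`, `a`, `b`, `Δ` (integers: `Padic.norm_int_le_pow_iff_dvd`). `l ∣ a`: `ns_additive_le`, otherwise `ns_mult_le`. `m • P ≠ 0`; `V.NS (m • P)` is the negation of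
`V.Sing`: `D 0 x`, `D 1 y`, `D 1 (3 x^2 + a)`, which is `SingAt l` (`l ≠ 2`). `scurve (a : ℚ) (b : ℚ)` and `curve a b` are the same by definition. -/
theorem exists_local {l : ℕ} [hl : Fact l.Prime] (hl5 : 5 ≤ l) {a b : ℤ} (hmin : ¬ ((l : ℤ) ^ 4 ∣ a ∧ (l : ℤ) ^ 6 ∣ b)) {n : ℕ}
    (hn : ¬ (l : ℤ) ^ (n + 1) ∣ 4 * a ^ 3 + 27 * b ^ 2) {P : (curve a b).Point} (htor : ¬ IsOfFinAddOrder P) :
    ∃ m : ℕ, 1 ≤ m ∧ m ≤ 4 * n + 4 ∧ ¬ SingAt l (m • P) := by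
  have hno : ∀ q : ℤ, 1 ≤ q → q ≤ 3 → ¬ (pV l).D 1 (q : ℚ) := by
    intro q hq hq' h
    have h1 := (ApD_int (l := l) 1 q).1 h
    rw [pow_one] at h1
    have := Int.le_of_dvd (by omega) h1
    omega
  have h2 : ¬ (pV l).D 1 (2 : ℚ) := by
    have := hno 2 (by norm_num) (by norm_num)
    exact_mod_cast this
  have h3 : ¬ (pV l).D 1 (3 : ℚ) := by
    have := hno 3 (by norm_num) (by norm_num)
    exact_mod_cast this
  obtain ⟨P', hP'⟩ : ∃ P' : (scurve (a : ℚ) (b : ℚ)).Point, P' = P := ⟨P, rfl⟩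
  have key : ∃ m : ℕ, 1 ≤ m ∧ m ≤ 4 * n + 4 ∧ (pV l).NS (m • P') := by
    by_cases hla : (l : ℤ) ∣ a
    · have ha : (pV l).D 1 (a : ℚ) := (ApD_int (l := l) 1 a).2 (by rwa [pow_one])
      have hmin' : ¬ ((pV l).D 4 (a : ℚ) ∧ (pV l).D 6 (b : ℚ)) := fun h =>
        hmin ⟨(ApD_int (l := l) 4 a).1 h.1, (ApD_int (l := l) 6 b).1 h.2⟩
      obtain ⟨m, hm1, hm2, hm3⟩ := ns_additive_le h2 h3 ha hmin' P'
      exact ⟨m, hm1, by omega, hm3⟩
    · have ha : ¬ (pV l).D 1 (a : ℚ) := fun h => hla (by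
        have := (ApD_int (l := l) 1 a).1 h
        rwa [pow_one] at this)
      have ha0 : (pV l).D 0 (a : ℚ) := (ApD_int (l := l) 0 a).2 (by rw [pow_zero]; exact one_dvd _)
      have hn' : ¬ (pV l).D ((n : ℤ) + 1) (4 * (a : ℚ) ^ 3 + 27 * (b : ℚ) ^ 2) := by
        intro h
        apply hn
        rw [← ApD_int]
        push_cast
        exact h
      exact ns_mult_le h2 h3 ha ha0 hn' P'
  obtain ⟨m, hm1, hm2, hm3⟩ := key
  refine ⟨m, hm1, hm2, fun hs => ?_⟩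
  have hne : m • P ≠ 0 := fun h0 => htor (isOfFinAddOrder_iff_nsmul_eq_zero.2 ⟨m, hm1, h0⟩)
  rcases hQ : m • P with _ | ⟨x, y, h⟩
  · exact hne hQ
  · rw [hQ] at hs
    have h4 : m • P' = Point.some x y h := by
      rw [hP']
      exact hQ
    exact hm3 x y h h4 (ApD_sing hl5 h hs)

end Pool.Agent.Lib.MP_3550b5_nt.AC
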