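import Mathlib
import Pool.Agent.Lib.MP_3550b5_nt.AC.ApD

/-!
PROJECT AC, block ALL POINTS: from arbitrary points of infinite order to the points which are nonsingular modulo every prime.
-/

namespace Pool.Agent.Lib.MP_3550b5_nt.AC

open WeierstrassCurve.Affine

/-- polynomials against the powers of two -/
private lemma apE_pow (k c : ℕ) : ∃ N : ℕ, ∀ n, N ≤ n → (c * n + c) ^ k ≤ 2 ^ n := by
  have h := tendsto_pow_const_div_const_pow_of_one_lt k (one_lt_two : (1 : ℝ) < 2)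
  have hc : (0 : ℝ) < ((c : ℝ) + 1) ^ k := by positivity
  have hcc : (c : ℝ) ^ k ≤ ((c : ℝ) + 1) ^ k := pow_le_pow_left₀ (by positivity) (by linarith) k
  have h1 : (0 : ℝ) < 1 / (2 * ((c : ℝ) + 1) ^ k) := by positivity
  obtain ⟨N, hN⟩ := Filter.eventually_atTop.1 (h.eventually (gt_mem_nhds h1))
  refine ⟨N, fun n hn => ?_⟩
  have h2 := hN (n + 1) (by omega)
  have h4 : (0 : ℝ) < 2 ^ (n + 1) := by positivity
  rw [div_lt_div_iff₀ h4 (by positivity), one_mul] at h2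
  have h3 : ((c * n + c : ℕ) : ℝ) ^ k ≤ ((2 ^ n : ℕ) : ℝ) := by
    have e : ((c * n + c : ℕ) : ℝ) = c * ((n + 1 : ℕ) : ℝ) := by
      push_cast
      ring
    rw [e, mul_pow]
    push_cast at h2 ⊢
    rw [pow_succ (2 : ℝ) n] at h2
    have h5 : (0 : ℝ) ≤ ((n : ℝ) + 1) ^ k := by positivity
    have h6 := mul_le_mul_of_nonneg_right hcc h5
    nlinarith [h2, h6]
  exact_mod_cast h3

/-- THE MULTIPLIER. PROOF. `N` with `(c n + c)^k ≤ 2^n` for `n ≥ N`; `R₁ = max R (c N + c)`; `M = R₁! * ∏ m l` over the primes `l ∣ Δ` with `N ≤ v_l(Δ)`. The other `m l` divide `R₁!`.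
`M^k ≤ (R₁!)^k ∏ 2^(v_l) ≤ (R₁!)^k ∏ l^(v_l) ≤ (R₁!)^k |Δ|`. -/
theorem exists_mult (k R c : ℕ) : ∃ C : ℕ, ∀ Δ : ℤ, Δ ≠ 0 → ∀ m : ℕ → ℕ,
    (∀ l, l.Prime → 1 ≤ m l ∧ m l ≤ c * padicValInt l Δ + c) → ∃ M : ℕ, 1 ≤ M ∧ (∀ j, 1 ≤ j → j ≤ R → j ∣ M) ∧
      (∀ l, l.Prime → m l ∣ M) ∧ M ^ k ≤ C * Δ.natAbs := by
  obtain ⟨N, hN⟩ := apE_pow k c
  obtain ⟨R₁, hR₁⟩ : ∃ R₁, R₁ = max R (c * N + c) := ⟨_, rfl⟩
  have hRR : R ≤ R₁ := by
    rw [hR₁]
    exact le_max_left _ _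
  have hNR : c * N + c ≤ R₁ := by
    rw [hR₁]
    exact le_max_right _ _
  refine ⟨R₁.factorial ^ k, fun Δ hΔ m hm => ?_⟩
  have hD : Δ.natAbs ≠ 0 := Int.natAbs_ne_zero.2 hΔ
  have hv : ∀ l, l.Prime → Δ.natAbs.factorization l = padicValInt l Δ := fun l hl =>
    Nat.factorization_def _ hl
  let S : Finset ℕ := Δ.natAbs.primeFactors.filter (fun l => N ≤ Δ.natAbs.factorization l)
  have hSp : ∀ l ∈ S, l.Prime := fun l hl =>
    Nat.prime_of_mem_primeFactors (Finset.mem_filter.1 hl).1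
  have hSN : ∀ l ∈ S, N ≤ Δ.natAbs.factorization l := fun l hl => (Finset.mem_filter.1 hl).2
  refine ⟨R₁.factorial * ∏ l ∈ S, m l, ?_, ?_, ?_, ?_⟩
  · exact Nat.mul_pos (Nat.factorial_pos _) (Finset.prod_pos fun l hl => (hm l (hSp l hl)).1)
  · intro j hj1 hj2
    exact Dvd.dvd.mul_right (Nat.dvd_factorial hj1 (hj2.trans hRR)) _
  · intro l hl
    by_cases hlS : l ∈ S
    · exact Dvd.dvd.mul_left (Finset.dvd_prod_of_mem m hlS) _
    · have h1 : padicValInt l Δ ≤ N := by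
        rw [← hv l hl]
        by_cases h2 : l ∈ Δ.natAbs.primeFactors
        · by_contra h3
          exact hlS (Finset.mem_filter.2 ⟨h2, by omega⟩)
        · have h3 : Δ.natAbs.factorization l = 0 := by
            rw [← Finsupp.notMem_support_iff, Nat.support_factorization]
            exact h2
          omega
      have h2 := hm l hl
      have h3 := Nat.mul_le_mul_left c h1
      exact Dvd.dvd.mul_right (Nat.dvd_factorial h2.1 (by omega)) _
  · rw [mul_pow, ← Finset.prod_pow]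
    apply Nat.mul_le_mul_left
    calc ∏ l ∈ S, m l ^ k ≤ ∏ l ∈ S, l ^ Δ.natAbs.factorization l := by
          refine Finset.prod_le_prod' fun l hl => ?_
          have h1 := hm l (hSp l hl)
          rw [← hv l (hSp l hl)] at h1
          calc m l ^ k ≤ (c * Δ.natAbs.factorization l + c) ^ k := Nat.pow_le_pow_left h1.2 k
            _ ≤ 2 ^ Δ.natAbs.factorization l := hN _ (hSN l hl)
            _ ≤ l ^ Δ.natAbs.factorization l := Nat.pow_le_pow_left (hSp l hl).two_le _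
      _ ≤ ∏ l ∈ Δ.natAbs.primeFactors, l ^ Δ.natAbs.factorization l := by
          refine Finset.prod_le_prod_of_subset_of_one_le' (Finset.filter_subset _ _) ?_
          intro l hl _
          exact Nat.one_le_pow _ _ (Nat.prime_of_mem_primeFactors hl).pos
      _ = Δ.natAbs := by
          conv_rhs => rw [← Nat.prod_factorization_pow_eq_self hD]
          rfl

end Pool.Agent.Lib.MP_3550b5_nt.AC
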