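import Mathlib
import Pool.Agent.Lib.MP_3550b5_nt.AC.ApE

/-!
PROJECT AC, block ALL POINTS: from arbitrary points of infinite order to the points which are nonsingular modulo every prime.
-/

namespace Pool.Agent.Lib.MP_3550b5_nt.AC

open WeierstrassCurve.Affine

/-- a small multiple in the kernel of reduction -/
private theorem apF_ker {p : ℕ} [hp : Fact p.Prime] (hp5 : 5 ≤ p) {a b : ℤ} (hΔ : ¬ (p : ℤ) ∣ 4 * a ^ 3 + 27 * b ^ 2)
    {P : (curve a b).Point} (htor : ¬ IsOfFinAddOrder P) :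
    ∃ n, 1 ≤ n ∧ n ≤ 2 * p + 1 ∧ 1 < ‖((ptX (n • P) : ℚ) : ℚ_[p])‖ := by
  by_contra hcon
  push Not at hcon
  have hne : ∀ n, 1 ≤ n → n • P ≠ 0 := fun n hn => nsmul_ne_of_not_tor htor n (by omega)
  let f : Fin (p + 1) → ZMod p := fun i =>
    PadicInt.toZMod ⟨((ptX ((i.val + 1) • P) : ℚ) : ℚ_[p]), hcon (i.val + 1) (by omega) (by omega)⟩
  obtain ⟨i, j, hij, hee⟩ := Fintype.exists_ne_map_eq_of_card_lt f (by simp [ZMod.card])
  wlog hlt : i.val < j.val generalizing i j with H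
  · exact H j i hij.symm hee.symm (by
      have : i.val ≠ j.val := fun hh => hij (Fin.ext hh)
      omega)
  have hee' : PadicInt.toZMod
        (⟨((ptX ((j.val + 1) • P) : ℚ) : ℚ_[p]), hcon (j.val + 1) (by omega) (by omega)⟩ -
          ⟨((ptX ((i.val + 1) • P) : ℚ) : ℚ_[p]), hcon (i.val + 1) (by omega) (by omega)⟩) = 0 := by
    rw [map_sub, sub_eq_zero]
    exact hee.symm
  rw [← RingHom.mem_ker, PadicInt.ker_toZMod, IsLocalRing.mem_maximalIdeal,
    PadicInt.mem_nonunits] at hee'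
  have h3 := SV.ker_of_congr hp5 hΔ (hne (j.val + 1) (by omega)) (hne (i.val + 1) (by omega))
    (hcon (j.val + 1) (by omega) (by omega)) (hcon (i.val + 1) (by omega) (by omega)) hee'
  have e1 : (j.val + 1) • P + (i.val + 1) • P = (j.val + 1 + (i.val + 1)) • P := (add_smul _ _ _).symm
  have e2 : (j.val + 1) • P - (i.val + 1) • P = (j.val - i.val) • P := by
    rw [sub_eq_iff_eq_add, ← add_smul]
    congr 1
    omega
  rw [e1, e2] at h3
  rcases h3 with h3 | h3 | h3 | h3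
  · exact hne _ (by omega) h3
  · exact hne _ (by omega) h3
  · exact absurd (hcon _ (by omega) (by omega)) (not_le.2 h3)
  · exact absurd (hcon _ (by omega) (by omega)) (not_le.2 h3)

/-- THE GOOD MULTIPLE. PROOF. As `SV.good_mult` (SV/FLoc.lean): `exists_rep`, `exists_good_multiple_c` with `c = M`, `hMl` for the primes. `p ∣ D`: a multiple of index `≤ 2 p + 1` is in the kernel of reduction (pigeonhole
and `SV.ker_of_congr`, see the proof of `good_ker` there), `M • P` too (`ker_mult`). -/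
theorem exists_good {p : ℕ} [hp : Fact p.Prime] (hp5 : 5 ≤ p) {a b : ℤ} (hΔ : ¬ (p : ℤ) ∣ 4 * a ^ 3 + 27 * b ^ 2)
    {P : (curve a b).Point} (htor : ¬ IsOfFinAddOrder P) {M : ℕ} (hM : 1 ≤ M) (hMR : ∀ j, 1 ≤ j → j ≤ 2 * p + 1 → j ∣ M)
    (hMl : ∀ (l : ℕ) (_ : Fact l.Prime), ∃ m, 1 ≤ m ∧ m ∣ M ∧ ¬ SingAt l (m • P)) :
    ∃ A B D : ℤ, IsRep a b A B D (M • P) ∧ IsCoprime (2 * B) (3 * A ^ 2 + a * D ^ 4) ∧ (p : ℤ) ∣ D := by
  have hP0 : P ≠ 0 := by
    have h := nsmul_ne_of_not_tor htor 1 one_pos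
    rwa [one_nsmul] at h
  obtain ⟨A, B, D, hP, -, -⟩ := exists_rep hP0
  have hpos : 0 < 2 * p + 1 := by omega
  obtain ⟨G, A₁, B₁, D₁, -, hrep, hcop, -, -⟩ := exists_good_multiple_c hP htor hM
    (fun l hl _ _ => hMl l hl)
  refine ⟨A₁, B₁, D₁, hrep, hcop, ?_⟩
  obtain ⟨n, hn1, hn2, hn3⟩ := apF_ker hp5 hΔ htor
  obtain ⟨j, rfl⟩ := hMR n hn1 hn2
  have hj : 1 ≤ j := by
    rcases Nat.eq_zero_or_pos j with h0 | h0
    · rw [h0, mul_zero] at hM
      omega
    · exact h0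
  obtain ⟨h1, -⟩ := ker_mult hn3 (N := j + 1) (fun m hm _ => by
    rw [← mul_smul]
    exact nsmul_ne_of_not_tor htor _ (Nat.mul_pos hm hn1)) j hj (Nat.lt_succ_self j)
  rw [← mul_smul, mul_comm j n, hrep.ptX_eq] at h1
  by_contra hd
  have hDn : ‖(D₁ : ℚ_[p])‖ = 1 := by
    refine le_antisymm (Padic.norm_int_le_one D₁) ?_
    by_contra hlt
    exact hd (Padic.norm_intCast_lt_one_iff.mp (not_le.mp hlt))
  push_cast at h1
  rw [norm_div, norm_pow, hDn, one_pow, div_one] at h1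
  exact absurd (Padic.norm_int_le_one A₁) (not_le.2 h1)

end Pool.Agent.Lib.MP_3550b5_nt.AC
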