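import Mathlib
import Pool.Agent.Lib.MP_3550b5_nt.AC.ApF

/-!
PROJECT AC, block ALL POINTS: from arbitrary points of infinite order to the points which are nonsingular modulo every prime.
-/

namespace Pool.Agent.Lib.MP_3550b5_nt.AC

open WeierstrassCurve.Affine

/-- The height of the abscissa is at most `2^h`. -/
def Hx {a b : ℤ} (P : (curve a b).Point) (h : ℕ) : Prop :=
  |(ptX P).num| ≤ 2 ^ h ∧ (((ptX P).den : ℕ) : ℤ) ≤ 2 ^ h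

private lemma apG_num {n d : ℤ} (hd : d ≠ 0) : |((n : ℚ) / (d : ℚ)).num| ≤ |n| := by
  rw [← Rat.divInt_eq_div]
  have h1 : (Rat.divInt n d).num ∣ n := Rat.num_dvd n hd
  rcases eq_or_ne n 0 with rfl | hn
  · rw [Rat.zero_divInt]
    simp
  · exact Int.le_of_dvd (abs_pos.2 hn) ((abs_dvd_abs _ _).2 h1)

private lemma apG_den {n d : ℤ} (hd : d ≠ 0) : (((n : ℚ) / (d : ℚ)).den : ℤ) ≤ |d| := by
  rw [← Rat.divInt_eq_div]
  have h1 : ((Rat.divInt n d).den : ℤ) ∣ d := Rat.den_dvd n d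
  exact Int.le_of_dvd (abs_pos.2 hd) ((dvd_abs _ _).2 h1)

private lemma apG_bound {X Z a b H L : ℤ} (hX : |X| ≤ H) (hZ : |Z| ≤ H) (ha : |a| ≤ L)
    (hb : |b| ≤ L) (hL : 1 ≤ L) :
    |X ^ 4 - 2 * a * X ^ 2 * Z ^ 2 - 8 * b * X * Z ^ 3 + a ^ 2 * Z ^ 4| ≤ 16 * (L ^ 2 * H ^ 4) ∧
      |4 * Z * (X ^ 3 + a * X * Z ^ 2 + b * Z ^ 3)| ≤ 16 * (L ^ 2 * H ^ 4) := by
  have hX0 := abs_nonneg X
  have hZ0 := abs_nonneg Z
  have ha0 := abs_nonneg a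
  have hb0 := abs_nonneg b
  have hH0 : 0 ≤ H := hX0.trans hX
  have hL0 : 0 ≤ L := ha0.trans ha
  have t1 : |X ^ 4| ≤ H ^ 4 := by
    rw [abs_pow]
    gcongr
  have t2 : |2 * a * X ^ 2 * Z ^ 2| ≤ 2 * L * H ^ 2 * H ^ 2 := by
    rw [abs_mul, abs_mul, abs_mul, abs_pow, abs_pow, abs_two]
    gcongr
  have t3 : |8 * b * X * Z ^ 3| ≤ 8 * L * H * H ^ 3 := by
    rw [abs_mul, abs_mul, abs_mul, abs_pow, show |(8 : ℤ)| = 8 from rfl]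
    gcongr
  have t4 : |a ^ 2 * Z ^ 4| ≤ L ^ 2 * H ^ 4 := by
    rw [abs_mul, abs_pow, abs_pow]
    gcongr
  have t5 : |4 * Z * X ^ 3| ≤ 4 * H * H ^ 3 := by
    rw [abs_mul, abs_mul, abs_pow, show |(4 : ℤ)| = 4 from rfl]
    gcongr
  have t6 : |4 * Z * (a * X * Z ^ 2)| ≤ 4 * H * (L * H * H ^ 2) := by
    rw [abs_mul, abs_mul, abs_mul, abs_mul, abs_pow, show |(4 : ℤ)| = 4 from rfl]
    gcongr
  have t7 : |4 * Z * (b * Z ^ 3)| ≤ 4 * H * (L * H ^ 3) := by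
    rw [abs_mul, abs_mul, abs_mul, abs_pow, show |(4 : ℤ)| = 4 from rfl]
    gcongr
  have hH4 : 0 ≤ H ^ 4 := by positivity
  have hLL : L ≤ L ^ 2 := by nlinarith
  have q1 : 1 * H ^ 4 ≤ L ^ 2 * H ^ 4 := mul_le_mul_of_nonneg_right (by nlinarith) hH4
  have q2 : L * H ^ 4 ≤ L ^ 2 * H ^ 4 := mul_le_mul_of_nonneg_right hLL hH4
  constructor
  · have e1 := abs_add_le (X ^ 4 - 2 * a * X ^ 2 * Z ^ 2 - 8 * b * X * Z ^ 3) (a ^ 2 * Z ^ 4)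
    have e2 := abs_sub (X ^ 4 - 2 * a * X ^ 2 * Z ^ 2) (8 * b * X * Z ^ 3)
    have e3 := abs_sub (X ^ 4) (2 * a * X ^ 2 * Z ^ 2)
    have e4 : 2 * L * H ^ 2 * H ^ 2 = 2 * (L * H ^ 4) := by ring
    have e5 : 8 * L * H * H ^ 3 = 8 * (L * H ^ 4) := by ring
    linarith
  · have e0 : 4 * Z * (X ^ 3 + a * X * Z ^ 2 + b * Z ^ 3) =
        4 * Z * X ^ 3 + 4 * Z * (a * X * Z ^ 2) + 4 * Z * (b * Z ^ 3) := by ring
    rw [e0]
    have e1 := abs_add_le (4 * Z * X ^ 3 + 4 * Z * (a * X * Z ^ 2)) (4 * Z * (b * Z ^ 3))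
    have e2 := abs_add_le (4 * Z * X ^ 3) (4 * Z * (a * X * Z ^ 2))
    have e3 : 4 * H * H ^ 3 = 4 * H ^ 4 := by ring
    have e4 : 4 * H * (L * H * H ^ 2) = 4 * (L * H ^ 4) := by ring
    have e5 : 4 * H * (L * H ^ 3) = 4 * (L * H ^ 4) := by ring
    linarith

/-- PROOF. `x(2 P) = (X^4 - 2 a X^2 Z^2 - 8 b X Z^3 + a^2 Z^4) / (4 Z (X^3 + a X Z^2 + b Z^3))` for `x = X / Z` in lowest terms (`G.dbl_coord` or the addition formula); numerator and denominator in lowest terms divide these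
integers up to sign (`Rat.num_div_..`, `Rat.den_dvd`): at most `2^(4 h) (1 + 10 2^l + 2^(2 l))` and `2^(4 h) 4 (1 + 2 2^l)`. -/
theorem Hx.dbl {a b : ℤ} {l h : ℕ} (ha : |a| ≤ 2 ^ l) (hb : |b| ≤ 2 ^ l) {P : (curve a b).Point} (h0 : P ≠ 0) (h2 : 2 • P ≠ 0)
    (hP : Hx P h) : Hx (2 • P) (4 * h + 2 * l + 4) := by
  rcases P with _ | ⟨x, y, hns⟩
  · exact absurd rfl h0
  have hns' : (scurve (a : ℚ) (b : ℚ)).Nonsingular x y := hns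
  by_cases hy : 2 * y = 0
  · refine absurd ?_ h2
    rw [two_nsmul]
    exact G.dbl_eq_zero hns' hy
  obtain ⟨s, x3, y3, h3, e1, e2, -, e4⟩ := G.dbl_coord hns' hy
  have e5 : ptX (2 • (Point.some x y hns : (curve a b).Point)) = x3 := by
    rw [two_nsmul]
    exact congrArg ptX e4
  obtain ⟨heq, -⟩ := G.nonsing_iff.1 hns'
  have hy0 : y ≠ 0 := fun h => hy (by rw [h, mul_zero])
  have hn : |x.num| ≤ 2 ^ h := hP.1
  have hd : ((x.den : ℕ) : ℤ) ≤ 2 ^ h := hP.2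
  obtain ⟨X, hX⟩ : ∃ X : ℤ, X = x.num := ⟨_, rfl⟩
  obtain ⟨Z, hZ⟩ : ∃ Z : ℤ, Z = (x.den : ℤ) := ⟨_, rfl⟩
  have hZ0 : Z ≠ 0 := by
    rw [hZ]
    exact_mod_cast x.den_nz
  have hZq : (Z : ℚ) ≠ 0 := by exact_mod_cast hZ0
  have hZa : |Z| ≤ 2 ^ h := by
    rw [hZ, abs_of_nonneg (Int.natCast_nonneg _)]
    exact hd
  rw [← hX] at hn
  have hXx : (X : ℚ) = x * Z := by
    rw [hX, hZ, Int.cast_natCast]
    exact (Rat.mul_den_eq_num x).symm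
  have hden : ((4 * Z * (X ^ 3 + a * X * Z ^ 2 + b * Z ^ 3) : ℤ) : ℚ) = 4 * y ^ 2 * Z ^ 4 := by
    push_cast
    rw [hXx, heq]
    ring
  have hden0 : 4 * Z * (X ^ 3 + a * X * Z ^ 2 + b * Z ^ 3) ≠ 0 := by
    intro h0'
    rw [h0', Int.cast_zero] at hden
    have : 4 * y ^ 2 * (Z : ℚ) ^ 4 ≠ 0 := by positivity
    exact this hden.symm
  have key : x3 = ((X ^ 4 - 2 * a * X ^ 2 * Z ^ 2 - 8 * b * X * Z ^ 3 + a ^ 2 * Z ^ 4 : ℤ) : ℚ) /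
      ((4 * Z * (X ^ 3 + a * X * Z ^ 2 + b * Z ^ 3) : ℤ) : ℚ) := by
    have hden0' : ((4 * Z * (X ^ 3 + a * X * Z ^ 2 + b * Z ^ 3) : ℤ) : ℚ) ≠ 0 := by
      exact_mod_cast hden0
    rw [eq_div_iff hden0', hden]
    push_cast
    rw [hXx, e2]
    linear_combination (Z : ℚ) ^ 4 * (2 * y * s + 3 * x ^ 2 + a) * e1 -
      8 * x * (Z : ℚ) ^ 4 * heq
  obtain ⟨b1, b2⟩ := apG_bound hn hZa ha hb (one_le_pow₀ (by norm_num : (1 : ℤ) ≤ 2))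
  have hpow : 16 * (((2 : ℤ) ^ l) ^ 2 * ((2 : ℤ) ^ h) ^ 4) = 2 ^ (4 * h + 2 * l + 4) := by
    rw [pow_add, pow_add, pow_mul', pow_mul']
    ring
  rw [hpow] at b1 b2
  unfold Hx
  rw [e5, key]
  exact ⟨(apG_num hden0).trans b1, (apG_den hden0).trans b2⟩

end Pool.Agent.Lib.MP_3550b5_nt.AC
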