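import Mathlib
import Pool.Agent.Lib.MP_3550b5_nt.AC.ApG

/-!
PROJECT AC, block ALL POINTS: from arbitrary points of infinite order to the points which are nonsingular modulo every prime.
-/

namespace Pool.Agent.Lib.MP_3550b5_nt.AC

open WeierstrassCurve.Affine

private theorem apH_frac {x : ℚ} {N D : ℤ} (hD : D ≠ 0) (hx : x * D = N) : |x.num| ≤ |N| ∧ ((x.den : ℕ) : ℤ) ≤ |D| := by
  have hD' : (D : ℚ) ≠ 0 := Int.cast_ne_zero.2 hD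
  have e : x = Rat.divInt N D := by
    rw [Rat.divInt_eq_div, eq_div_iff hD', hx]
  constructor
  · rcases eq_or_ne N 0 with h0 | h0
    · subst h0
      have h1 : x = 0 := by
        rw [Int.cast_zero] at hx
        exact (mul_eq_zero.1 hx).resolve_right hD'
      rw [h1]
      simp
    · have h1 : x.num ∣ N := by
        rw [e]
        exact Rat.num_dvd N hD
      exact Int.le_of_dvd (abs_pos.2 h0) (((abs_dvd_abs _ _).2 h1))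
  · have h1 : ((x.den : ℕ) : ℤ) ∣ D := by
      rw [e]
      exact Rat.den_dvd N D
    exact Int.le_of_dvd (abs_pos.2 hD) ((dvd_abs _ _).2 h1)

private theorem apH_int {y : ℚ} {n : ℤ} (h : y ^ 2 = n) : ∃ m : ℤ, y = m := by
  obtain ⟨m, hm⟩ := IsIntegrallyClosed.exists_algebraMap_eq_of_isIntegral_pow (R := ℤ) (K := ℚ) (x := y) (n := 2) two_pos
    (by rw [h]; exact isIntegral_algebraMap (R := ℤ) (A := ℚ) (x := n))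
  exact ⟨m, hm.symm⟩

/-- The numbers `X`, `Z`, `Y` of a point. -/
private theorem apH_rep {a b : ℤ} {l h : ℕ} (ha : |a| ≤ 2 ^ l) (hb : |b| ≤ 2 ^ l) {x y : ℚ} (hxy : y ^ 2 = x ^ 3 + a * x + b)
    (hx : |x.num| ≤ 2 ^ h) (hz : ((x.den : ℕ) : ℤ) ≤ 2 ^ h) :
    ∃ X Z Y : ℤ, 0 < Z ∧ x = X / Z ∧ y = Y / Z ^ 2 ∧ |X| ≤ 2 ^ h ∧ |Z| ≤ 2 ^ h ∧ Y ^ 2 ≤ (1 + 2 * 2 ^ l) * (2 ^ h) ^ 4 := by
  have hZ0 : (0 : ℤ) < ((x.den : ℕ) : ℤ) := by exact_mod_cast x.den_pos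
  set Z : ℤ := ((x.den : ℕ) : ℤ) with hZ
  set X : ℤ := x.num with hX
  have hZq : (Z : ℚ) ≠ 0 := by exact_mod_cast hZ0.ne'
  have ex : x = X / Z := by
    rw [hX, hZ]
    push_cast
    exact (Rat.num_div_den x).symm
  have e1 : (y * Z ^ 2) ^ 2 = ((X ^ 3 * Z + a * X * Z ^ 3 + b * Z ^ 4 : ℤ) : ℚ) := by
    rw [mul_pow, hxy, ex]
    push_cast
    field_simp
  obtain ⟨Y, hY⟩ := apH_int e1
  refine ⟨X, Z, Y, hZ0, ex, ?_, hx, ?_, ?_⟩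
  · rw [← hY]
    field_simp
  · rw [abs_of_pos hZ0]
    exact hz
  · rw [hY] at e1
    have e2 : Y ^ 2 = X ^ 3 * Z + a * X * Z ^ 3 + b * Z ^ 4 := by exact_mod_cast e1
    rw [e2]
    set H : ℤ := 2 ^ h with hH
    set A : ℤ := 2 ^ l with hA
    have hZ' : |Z| ≤ H := by
      rw [abs_of_pos hZ0]
      exact hz
    have hH0 : 0 ≤ H := (abs_nonneg _).trans hx
    have hA0 : 0 ≤ A := (abs_nonneg _).trans ha
    calc X ^ 3 * Z + a * X * Z ^ 3 + b * Z ^ 4 ≤ |X ^ 3 * Z + a * X * Z ^ 3 + b * Z ^ 4| := le_abs_self _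
      _ ≤ |X ^ 3 * Z| + |a * X * Z ^ 3| + |b * Z ^ 4| := (abs_add_le _ _).trans (add_le_add_left (abs_add_le _ _) _)
      _ = |X| ^ 3 * |Z| + |a| * |X| * |Z| ^ 3 + |b| * |Z| ^ 4 := by
        simp only [abs_mul, abs_pow]
      _ ≤ H ^ 3 * H + A * H * H ^ 3 + A * H ^ 4 := by gcongr
      _ = (1 + 2 * A) * H ^ 4 := by ring

/-- PROOF. `exists_rep`: `x_i = X_i / Z_i`, `Z_i = D_i^2`, `y_i = B_i / D_i^3`. `x(P + Q) = ((x1 x2 + a)(x1 + x2) + 2 b - 2 y1 y2) / (x1 - x2)^2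
= ((X1 X2 + a Z1 Z2)(X1 Z2 + X2 Z1) + 2 b Z1^2 Z2^2 - 2 B1 B2 D1 D2) / (X1 Z2 - X2 Z1)^2`; `(B_i D_i)^2 = X_i^3 Z_i + a X_i Z_i^3 + b Z_i^4 ≤ (1 + |a| + |b|) H_i^4`. -/
theorem Hx.add {a b : ℤ} {l h h' : ℕ} (ha : |a| ≤ 2 ^ l) (hb : |b| ≤ 2 ^ l) {P Q : (curve a b).Point} (hP0 : P ≠ 0) (hQ0 : Q ≠ 0)
    (hne : ptX P ≠ ptX Q) (hP : Hx P h) (hQ : Hx Q h') : Hx (P + Q) (2 * h + 2 * h' + l + 4) := by
  obtain _ | ⟨x₁, y₁, h₁⟩ := P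
  · exact absurd rfl hP0
  obtain _ | ⟨x₂, y₂, h₂⟩ := Q
  · exact absurd rfl hQ0
  have hx12 : x₁ ≠ x₂ := hne
  have k₁ : y₁ ^ 2 = x₁ ^ 3 + a * x₁ + b := by
    have h3 := (equation_iff _ _).1 h₁.1
    simpa [curve] using h3
  have k₂ : y₂ ^ 2 = x₂ ^ 3 + a * x₂ + b := by
    have h3 := (equation_iff _ _).1 h₂.1
    simpa [curve] using h3
  obtain ⟨X₁, Z₁, Y₁, hZ₁, ex₁, ey₁, bX₁, bZ₁, bY₁⟩ := apH_rep ha hb k₁ hP.1 hP.2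
  obtain ⟨X₂, Z₂, Y₂, hZ₂, ex₂, ey₂, bX₂, bZ₂, bY₂⟩ := apH_rep ha hb k₂ hQ.1 hQ.2
  have q₁ : (Z₁ : ℚ) ≠ 0 := by exact_mod_cast hZ₁.ne'
  have q₂ : (Z₂ : ℚ) ≠ 0 := by exact_mod_cast hZ₂.ne'
  have hD : X₁ * Z₂ - X₂ * Z₁ ≠ 0 := by
    intro h0
    apply hx12
    rw [ex₁, ex₂, div_eq_div_iff q₁ q₂]
    have h1 : X₁ * Z₂ = X₂ * Z₁ := sub_eq_zero.1 h0
    exact_mod_cast h1
  have hDq : ((X₁ : ℚ) * Z₂ - X₂ * Z₁) ≠ 0 := by exact_mod_cast hD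
  set x₃ : ℚ := ((y₁ - y₂) / (x₁ - x₂)) ^ 2 - x₁ - x₂ with hx₃
  have e3 : ptX ((Point.some x₁ y₁ h₁ : (curve a b).Point) + Point.some x₂ y₂ h₂) = x₃ := by
    rw [Point.add_of_X_ne hx12]
    change (curve a b).addX x₁ x₂ ((curve a b).slope x₁ x₂ y₁ y₂) = x₃
    rw [slope_of_X_ne hx12]
    simp [addX, curve, hx₃]
  have hN : x₃ * ((X₁ * Z₂ - X₂ * Z₁) ^ 2 : ℤ) =
      ((X₁ * X₂ + a * Z₁ * Z₂) * (X₁ * Z₂ + X₂ * Z₁) + 2 * b * Z₁ ^ 2 * Z₂ ^ 2 - 2 * Y₁ * Y₂ : ℤ) := by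
    have hd : x₁ - x₂ ≠ 0 := sub_ne_zero.2 hx12
    have e4 : x₃ * (x₁ - x₂) ^ 2 = (x₁ * x₂ + a) * (x₁ + x₂) + 2 * b - 2 * y₁ * y₂ := by
      rw [hx₃]
      field_simp
      linear_combination k₁ + k₂
    have e5 : (X₁ : ℚ) * Z₂ - X₂ * Z₁ = (x₁ - x₂) * (Z₁ * Z₂) := by
      rw [ex₁, ex₂]
      field_simp
    push_cast
    rw [e5, mul_pow, ← mul_assoc, e4, ex₁, ex₂, ey₁, ey₂]
    field_simp
  have hb2 := apH_frac (pow_ne_zero 2 hD) hN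
  set H : ℤ := 2 ^ h with hH
  set H' : ℤ := 2 ^ h' with hH'
  set A : ℤ := 2 ^ l with hA
  have hH0 : 0 ≤ H := (abs_nonneg _).trans bX₁
  have hH0' : 0 ≤ H' := (abs_nonneg _).trans bX₂
  have hA1 : 1 ≤ A := one_le_pow₀ one_le_two
  have eB : (2 : ℤ) ^ (2 * h + 2 * h' + l + 4) = 16 * A * (H ^ 2 * H' ^ 2) := by
    rw [hA, hH, hH']
    ring
  have hY : |Y₁ * Y₂| ≤ (1 + 2 * A) * (H ^ 2 * H' ^ 2) := by
    have h1 : (Y₁ * Y₂) ^ 2 ≤ ((1 + 2 * A) * (H ^ 2 * H' ^ 2)) ^ 2 := by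
      calc (Y₁ * Y₂) ^ 2 = Y₁ ^ 2 * Y₂ ^ 2 := by ring
        _ ≤ ((1 + 2 * A) * H ^ 4) * ((1 + 2 * A) * H' ^ 4) := by gcongr
        _ = _ := by ring
    exact abs_le_of_sq_le_sq h1 (by positivity)
  constructor
  · rw [e3, eB]
    refine hb2.1.trans ?_
    calc |(X₁ * X₂ + a * Z₁ * Z₂) * (X₁ * Z₂ + X₂ * Z₁) + 2 * b * Z₁ ^ 2 * Z₂ ^ 2 - 2 * Y₁ * Y₂|
        ≤ |(X₁ * X₂ + a * Z₁ * Z₂) * (X₁ * Z₂ + X₂ * Z₁)| + |2 * b * Z₁ ^ 2 * Z₂ ^ 2| + |2 * Y₁ * Y₂| :=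
          (abs_sub _ _).trans (add_le_add_left (abs_add_le _ _) _)
      _ ≤ (|X₁| * |X₂| + |a| * |Z₁| * |Z₂|) * (|X₁| * |Z₂| + |X₂| * |Z₁|) + 2 * |b| * |Z₁| ^ 2 * |Z₂| ^ 2 + 2 * |Y₁ * Y₂| := by
        refine add_le_add (add_le_add ?_ ?_) ?_
        · rw [abs_mul]
          refine mul_le_mul ((abs_add_le _ _).trans ?_) ((abs_add_le _ _).trans ?_) (abs_nonneg _) (by positivity)
          · simp only [abs_mul]; exact le_rfl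
          · simp only [abs_mul]; exact le_rfl
        · simp only [abs_mul, abs_pow, abs_two]; exact le_rfl
        · rw [mul_assoc, abs_mul, abs_two]
      _ ≤ (H * H' + A * H * H') * (H * H' + H' * H) + 2 * A * H ^ 2 * H' ^ 2 + 2 * ((1 + 2 * A) * (H ^ 2 * H' ^ 2)) := by
        gcongr
      _ = (4 + 8 * A) * (H ^ 2 * H' ^ 2) := by ring
      _ ≤ 16 * A * (H ^ 2 * H' ^ 2) := by
        refine mul_le_mul_of_nonneg_right ?_ (by positivity)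
        linarith
  · rw [e3, eB]
    refine hb2.2.trans ?_
    have h1 : |X₁ * Z₂ - X₂ * Z₁| ≤ 2 * (H * H') := by
      calc |X₁ * Z₂ - X₂ * Z₁| ≤ |X₁| * |Z₂| + |X₂| * |Z₁| := by
            refine (abs_sub _ _).trans ?_
            simp only [abs_mul]; exact le_rfl
        _ ≤ H * H' + H' * H := by gcongr
        _ = 2 * (H * H') := by ring
    rw [abs_pow]
    calc |X₁ * Z₂ - X₂ * Z₁| ^ 2 ≤ (2 * (H * H')) ^ 2 := by gcongr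
      _ = 4 * (H ^ 2 * H' ^ 2) := by ring
      _ ≤ 16 * A * (H ^ 2 * H' ^ 2) := by
        refine mul_le_mul_of_nonneg_right ?_ (by positivity)
        linarith

end Pool.Agent.Lib.MP_3550b5_nt.AC
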