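import Mathlib
import Pool.Agent.Lib.MP_3550b5_nt.AC.ApH

/-!
PROJECT AC, block ALL POINTS: from arbitrary points of infinite order to the points which are nonsingular modulo every prime.
-/

namespace Pool.Agent.Lib.MP_3550b5_nt.AC

open WeierstrassCurve.Affine

private lemma apI_mono {a b : ℤ} {P : (curve a b).Point} {h h' : ℕ} (hh : h ≤ h') (hP : Hx P h) :
    Hx P h' :=
  ⟨hP.1.trans (pow_le_pow_right₀ (by norm_num) hh), hP.2.trans (pow_le_pow_right₀ (by norm_num) hh)⟩

private lemma apI_inf {a b : ℤ} {P : (curve a b).Point} (htor : ¬ IsOfFinAddOrder P) {n : ℕ}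
    (hn : 0 < n) : n • P ≠ 0 :=
  fun h => htor (isOfFinAddOrder_iff_nsmul_eq_zero.mpr ⟨n, hn, h⟩)

private lemma apI_zero {a b : ℤ} {P : (curve a b).Point} (htor : ¬ IsOfFinAddOrder P) : P ≠ 0 := by
  have := apI_inf htor one_pos
  rwa [one_nsmul] at this

private lemma apI_ne {a b : ℤ} {P : (curve a b).Point} (htor : ¬ IsOfFinAddOrder P) {n : ℕ}
    (hn : 2 ≤ n) : ptX (n • P) ≠ ptX P := by
  intro h0
  obtain ⟨hh, e⟩ := exists_eq_some (n • P) (apI_inf htor (by omega))
  obtain ⟨h, e'⟩ := exists_eq_some P (apI_zero htor)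
  have h2 := (Point.X_eq_iff (h₁ := hh) (h₂ := h)).mp h0
  rw [← e, ← e'] at h2
  rcases h2 with h1 | h1
  · apply apI_inf htor (n := n - 1) (by omega)
    have h3 : n • P = (n - 1) • P + P := by
      conv_lhs => rw [show n = (n - 1) + 1 by omega]
      rw [succ_nsmul]
    rw [h3] at h1
    simpa using h1
  · apply apI_inf htor (n := n + 1) (by omega)
    rw [succ_nsmul, h1]
    simp

private lemma apI_main {a b : ℤ} {l h : ℕ} (ha : |a| ≤ 2 ^ l) (hb : |b| ≤ 2 ^ l)
    {P : (curve a b).Point} (htor : ¬ IsOfFinAddOrder P) (hP : Hx P h) (n : ℕ) :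
    1 ≤ n → ∃ k, k + 1 = 2 * n ^ 3 ∧ Hx (n • P) (k * (h + 2 * l + 4)) := by
  induction n using Nat.strong_induction_on with
  | _ n ih =>
    intro hn
    obtain ⟨m, hm | hm⟩ := Nat.even_or_odd' n
    · have hm1 : 1 ≤ m := by omega
      obtain ⟨k, hk, h1⟩ := ih m (by omega) hm1
      have h2 : 2 • m • P ≠ 0 := by
        rw [← mul_nsmul']
        exact apI_inf htor (by omega)
      have h3 := Hx.dbl ha hb (apI_inf htor hm1) h2 h1
      rw [← mul_nsmul', ← hm] at h3
      refine ⟨8 * k + 7, ?_, apI_mono ?_ h3⟩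
      · rw [hm, mul_pow]
        omega
      · have h4 : (8 * k + 7) * (h + 2 * l + 4) =
            4 * (k * (h + 2 * l + 4)) + 4 * (k * (h + 2 * l + 4)) + 7 * (h + 2 * l + 4) := by ring
        omega
    · rcases Nat.eq_zero_or_pos m with h0 | hm1
      · rw [h0] at hm
        rw [hm]
        refine ⟨1, by norm_num, ?_⟩
        rw [mul_zero, zero_add, one_nsmul]
        exact apI_mono (by omega) hP
      · obtain ⟨k, hk, h1⟩ := ih m (by omega) hm1
        have h2 : 2 • m • P ≠ 0 := by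
          rw [← mul_nsmul']
          exact apI_inf htor (by omega)
        have h3 := Hx.dbl ha hb (apI_inf htor hm1) h2 h1
        rw [← mul_nsmul'] at h2 h3
        have h4 := Hx.add ha hb h2 (apI_zero htor) (apI_ne htor (by omega)) h3 hP
        rw [← succ_nsmul, ← hm] at h4
        refine ⟨8 * k + 9 + 24 * m ^ 2 + 12 * m, ?_, apI_mono ?_ h4⟩
        · have h5 : 2 * n ^ 3 = 8 * (2 * m ^ 3) + 24 * m ^ 2 + 12 * m + 2 := by
            rw [hm]
            ring
          omega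
        · have h5 : (8 * k + 9 + 24 * m ^ 2 + 12 * m) * (h + 2 * l + 4) =
              8 * (k * (h + 2 * l + 4)) + 9 * (h + 2 * l + 4) +
                (24 * m ^ 2 + 12 * m) * (h + 2 * l + 4) := by ring
          omega

/-- PROOF. Strong induction on `n` for the exponent `(2 n^3 - 1) (h + c)`, `c = 2 l + 4`: `n = 1`; `n = 2 m`: `Hx.dbl`; `n = 2 m + 1`: `Hx.dbl`, `Hx.add` (`x(2 m P) ≠ x(P)` as `P` has infinite order). -/
theorem Hx.mul {a b : ℤ} {l h : ℕ} (ha : |a| ≤ 2 ^ l) (hb : |b| ≤ 2 ^ l) {P : (curve a b).Point} (htor : ¬ IsOfFinAddOrder P)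
    (hP : Hx P h) {n : ℕ} (hn : 1 ≤ n) : Hx (n • P) (2 * n ^ 3 * (h + 2 * l + 4)) := by
  obtain ⟨k, hk, h1⟩ := apI_main ha hb htor hP n hn
  refine apI_mono (Nat.mul_le_mul_right _ ?_) h1
  omega

end Pool.Agent.Lib.MP_3550b5_nt.AC
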