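import Mathlib
import Pool.Agent.Lib.MP_3550b5_nt.AC.ArC

/-!
PROJECT AC, block ALL POINTS: the count for an arbitrary value of the height.
-/

namespace Pool.Agent.Lib.MP_3550b5_nt.AC

open PowerSeries SV

variable {p : ℕ} [hp : Fact p.Prime]

/-- `b` is exceptional for the value `v`: `y^2 = x^3 + a x + b` is good ordinary at `p` and has a point `(A / D^2, B / D^3)`, `p ∣ D`, nonsingular modulo every prime, with `|D| ≤ 2^T`, `|A| ≤ 4^T`, whose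
canonical cyclotomic `p`-adic height is `v`. -/
def ExcV (p : ℕ) [Fact p.Prime] (a : ℤ) (T : ℕ) (v : ℚ_[p]) (b : ℤ) : Prop :=
  GoodOrdinary p a b ∧ ∃ Bh : (curve a b).Point → (curve a b).Point → ℚ_[p], IsCanonicalHeight p a b Bh ∧
    ∃ (A B D : ℤ) (h : (curve a b).Nonsingular ((A : ℚ) / (D : ℚ) ^ 2) ((B : ℚ) / (D : ℚ) ^ 3)),
      D ≠ 0 ∧ (p : ℤ) ∣ D ∧ IsCoprime (2 * B) (3 * A ^ 2 + a * D ^ 4) ∧ |D| ≤ 2 ^ T ∧ |A| ≤ 4 ^ T ∧
        Bh (.some _ _ h) (.some _ _ h) = v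

/-- THE DATA OF AN EXCEPTIONAL CURVE, value `v`. PROOF. The proof of `bad_data` (ArC.lean): `w = -(A Bi ev S t)` is a unit with `ulog w = v` (`ht_unit`), `u = w⁻¹`, `ulog u = - v` (`ulog_mul` or `ulog` of `u w = 1`). -/
theorem bad_dataV (hp5 : 5 ≤ p) {a b : ℤ} {T : ℕ} {v : ℚ_[p]} (h : ExcV p a T v b) : ∃ (A D : ℤ) (u t : ℤ_[p]), |D| ≤ 2 ^ T ∧ |A| ≤ 4 ^ T ∧
    Good a ![b, D, A] ∧ ‖t‖ < 1 ∧ IsUnit u ∧ ulog u = - v ∧
    (∃ (c : ℤ_[p]) (W V Om S Z : ℤ_[p]⟦X⟧), SD (a : ℤ_[p]) (b : ℤ_[p]) c W V Om S Z) ∧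
    ∀ (c : ℤ_[p]) (W V Om S Z : ℤ_[p]⟦X⟧), SD (a : ℤ_[p]) (b : ℤ_[p]) c W V Om S Z →
      (D : ℤ_[p]) = u * (t * ev S t) ∧ (A : ℤ_[p]) = u ^ 2 * ev V t * ev S t ^ 2 := by
  obtain ⟨hord, Bh, hB, A, B, D, hns, hD0, hpD, hcop, hDT, hAT, hz⟩ := h
  have hQ : IsRep a b A B D (.some _ _ hns) := ⟨hD0, hns, rfl⟩
  have heq := hQ.eqn
  have hpZ : Prime (p : ℤ) := Nat.prime_iff_prime_int.mp hp.out
  have hAn : ¬ (p : ℤ) ∣ A := by
    intro hd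
    have h1 : (p : ℤ) ∣ B ^ 2 := by
      rw [heq]
      exact dvd_add (dvd_add (dvd_pow hd (by norm_num))
        (Dvd.dvd.mul_left (dvd_pow hpD (by norm_num)) _))
        (Dvd.dvd.mul_left (dvd_pow hpD (by norm_num)) _)
    have h2 : (p : ℤ) ∣ 2 * B := Dvd.dvd.mul_left (hpZ.dvd_of_dvd_pow h1) _
    have h3 : (p : ℤ) ∣ 3 * A ^ 2 + a * D ^ 4 :=
      dvd_add (Dvd.dvd.mul_left (dvd_pow hd (by norm_num)) _)
        (Dvd.dvd.mul_left (dvd_pow hpD (by norm_num)) _)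
    exact hpZ.not_isUnit (hcop.isUnit_of_dvd' h2 h3)
  have hBn : ¬ (p : ℤ) ∣ B := by
    intro hd
    have h1 : (p : ℤ) ∣ A ^ 3 := by
      have h2 : A ^ 3 = B ^ 2 - a * A * D ^ 4 - b * D ^ 6 := by rw [heq]; ring
      rw [h2]
      exact dvd_sub (dvd_sub (dvd_pow hd (by norm_num))
        (Dvd.dvd.mul_left (dvd_pow hpD (by norm_num)) _))
        (Dvd.dvd.mul_left (dvd_pow hpD (by norm_num)) _)
    exact hAn (hpZ.dvd_of_dvd_pow h1)
  have hAu : IsUnit (A : ℤ_[p]) := isUnit_intCast hAn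
  obtain ⟨Ai, hAi⟩ := hAu.exists_right_inv
  obtain ⟨Bi, hBi⟩ := (isUnit_intCast hBn).exists_right_inv
  have hBiu : IsUnit Bi := IsUnit.of_mul_eq_one _ (by rw [mul_comm]; exact hBi)
  obtain ⟨t, ht⟩ : ∃ t, t = -((A : ℤ_[p]) * (D : ℤ_[p]) * Bi) := ⟨_, rfl⟩
  have hDn : ‖(D : ℤ_[p])‖ < 1 := (PadicInt.norm_int_lt_one_iff_dvd D).mpr hpD
  have htn : ‖t‖ < 1 := by
    rw [ht, norm_neg, norm_mul, norm_mul]
    calc ‖(A : ℤ_[p])‖ * ‖(D : ℤ_[p])‖ * ‖Bi‖ ≤ 1 * ‖(D : ℤ_[p])‖ * 1 := by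
          gcongr
          · exact PadicInt.norm_le_one _
          · exact PadicInt.norm_le_one _
      _ = ‖(D : ℤ_[p])‖ := by ring
      _ < 1 := hDn
  obtain ⟨σ, hσ, -⟩ := hB.formula
  obtain ⟨c, W, V, Om, S, Z, -, hS⟩ := sigmaData_of_sigma hσ
  have hSD := SD_of_sigmaData hS
  obtain ⟨w, hw⟩ : ∃ w, w = -((A : ℤ_[p]) * Bi * ev S t) := ⟨_, rfl⟩
  have hwu : IsUnit w := by
    rw [hw]
    exact ((hAu.mul hBiu).mul (ev_isUnit hS.S0 htn)).neg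
  have h1 := ht_unit hp5 hQ hcop hpD hord hB hSD hBi
  rw [← ht, ← hw, hz] at h1
  obtain ⟨u, hwu1⟩ := hwu.exists_right_inv
  have huw : u * w = 1 := by rw [mul_comm]; exact hwu1
  have huu : IsUnit u := IsUnit.of_mul_eq_one _ huw
  have hlogu : ulog u = - v := by
    have h2 := ulog_mul huu hwu
    rw [huw, ulog_one, ← h1] at h2
    linear_combination -h2
  have hB0 : B ≠ 0 := fun h0 => hBn (h0 ▸ dvd_zero _)
  refine ⟨A, D, u, t, hDT, hAT, ⟨hD0, ?_, ?_, ?_⟩, htn, huu, hlogu, ⟨c, W, V, Om, S, Z, hSD⟩, ?_⟩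
  · intro h0
    change 4 * a ^ 3 + 27 * b ^ 2 = 0 at h0
    exact hord.1 (h0 ▸ dvd_zero _)
  · change A ^ 3 + a * A * D ^ 4 + b * D ^ 6 ≠ 0
    rw [← heq]
    exact pow_ne_zero 2 hB0
  · have hDq : (D : ℚ) ≠ 0 := Int.cast_ne_zero.2 hD0
    refine ⟨(A : ℚ) / (D : ℚ) ^ 2, (B : ℚ) / (D : ℚ) ^ 3, hns, ?_, ?_⟩
    · change (A : ℚ) = (A : ℚ) / (D : ℚ) ^ 2 * (D : ℚ) ^ 2
      rw [div_mul_cancel₀ _ (pow_ne_zero 2 hDq)]
    · have hnt : ¬ IsOfFinAddOrder (.some _ _ hns : (curve a b).Point) := by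
        refine ker_not_torsion (l := p) ?_
        have h2 : ptX (.some _ _ hns : (curve a b).Point) = (A : ℚ) / (D : ℚ) ^ 2 := rfl
        rw [h2]
        push_cast
        rw [norm_div, norm_pow]
        have h3 : ‖(A : ℚ_[p])‖ = 1 := by
          have h4 := PadicInt.isUnit_iff.1 hAu
          rwa [PadicInt.norm_def, PadicInt.coe_intCast] at h4
        have h4 : ‖(D : ℚ_[p])‖ < 1 := by
          rwa [PadicInt.norm_def, PadicInt.coe_intCast] at hDn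
        have h5 : (D : ℚ_[p]) ≠ 0 := Int.cast_ne_zero.2 hD0
        have h6 : 0 < ‖(D : ℚ_[p])‖ := norm_pos_iff.2 h5
        rw [h3, one_lt_div (pow_pos h6 2)]
        exact pow_lt_one₀ h6.le h4 two_ne_zero
      exact fun m hm => nsmul_ne_of_not_tor hnt m (by omega)
  · intro c' W' V' Om' S' Z' h'
    have h2 : ev S t = ev S' t := SD_ev_unique hp5 hord hSD h' htn
    have h3 := ev_V_eq heq hpD hAi hBi h'
    rw [← ht] at h3
    rw [← h2, h3]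
    constructor
    · calc (D : ℤ_[p]) = (u * w) * D := by rw [huw, one_mul]
        _ = u * (t * ev S t) := by
          rw [mul_assoc]
          refine congrArg (fun z => u * z) ?_
          rw [hw]
          linear_combination (-ev S t) * ht
    · calc (A : ℤ_[p]) = (u * w) ^ 2 * A := by rw [huw, one_pow, one_mul]
        _ = (u) ^ 2 * ((A : ℤ_[p]) ^ 3 * Bi ^ 2) * ev S t ^ 2 := by
          rw [mul_pow, mul_assoc, mul_assoc]
          refine congrArg (fun z => (u) ^ 2 * z) ?_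
          rw [hw]
          ring

end Pool.Agent.Lib.MP_3550b5_nt.AC
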