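import Mathlib
import Pool.Agent.Lib.MP_3550b5_nt.RMult
import Pool.Agent.Lib.MP_3550b5_nt.SIndex
import Pool.Agent.Lib.MP_3550b5_nt.SV.FLoc

/-!
PROJECT AC, block ALL POINTS: the local index at an arbitrary prime, by the pigeonhole principle.
-/

namespace Pool.Agent.Lib.MP_3550b5_nt.AC

open WeierstrassCurve.Affine

private lemma loa_int {l : ℕ} [hl : Fact l.Prime] {k : ℕ} {a : ℤ} (h : (l : ℤ_[l]) ^ k ∣ (a : ℤ_[l])) : (l : ℤ) ^ k ∣ a :=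
  (PadicInt.pow_p_dvd_int_iff k a).1 h

private lemma loa_cancel {l : ℕ} [hl : Fact l.Prime] {s k : ℕ} {u Y : ℤ_[l]} (hu : ¬ (l : ℤ_[l]) ∣ u)
    (h : (l : ℤ_[l]) ^ (s + k) ∣ (l : ℤ_[l]) ^ s * u * Y) : (l : ℤ_[l]) ^ k ∣ Y := by
  have hp : Prime (l : ℤ_[l]) := PadicInt.prime_p
  rw [pow_add, mul_assoc] at h
  have h1 := (mul_dvd_mul_iff_left (pow_ne_zero s hp.ne_zero)).1 h
  exact hp.pow_dvd_of_dvd_mul_left k hu h1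

private lemma loa_three {l : ℕ} [hl : Fact l.Prime] {w : ℕ} {x : ℤ_[l]} (h : (l : ℤ_[l]) ^ (w + 1) ∣ 3 * x) :
    (l : ℤ_[l]) ^ w ∣ x := by
  have hp : Prime (l : ℤ_[l]) := PadicInt.prime_p
  by_cases h3 : (l : ℤ_[l]) ∣ 3
  · have h4 : ((l : ℕ) : ℤ) ^ 1 ∣ 3 := by
      apply loa_int
      rw [pow_one]
      exact_mod_cast h3
    have h5 : l ∣ 3 := by
      rw [pow_one] at h4
      exact_mod_cast h4
    have h6 : l = 3 := (Nat.prime_dvd_prime_iff_eq hl.out Nat.prime_three).1 h5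
    have h7 : (3 : ℤ_[l]) = (l : ℤ_[l]) := by
      have h8 : ((3 : ℕ) : ℤ_[l]) = ((l : ℕ) : ℤ_[l]) := congrArg (fun n : ℕ => (n : ℤ_[l])) h6.symm
      exact_mod_cast h8
    rw [h7, pow_succ'] at h
    exact (mul_dvd_mul_iff_left hp.ne_zero).1 h
  · exact (pow_dvd_pow _ (Nat.le_succ w)).trans (hp.pow_dvd_of_dvd_mul_left _ h3 h)

/-- Two points of depth `j` are close. PROOF. `h = x' - x` with `v(h) = s`; suppose `s < j - 2`, `w = j - s ≥ 3`. `f(x + h) - f(x) = f'(x) h + 3 x h^2 + h^3` is divisible by `l^(2 j)`, so by `l^(j + s)`: `l^w ∣ 3 x + h`.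
`f'(x + h) - f'(x) = 3 h (2 x + h)`: `l^w ∣ 3 (2 x + h)`. `h = 3 (2 x + h) - 2 (3 x + h)`: `s ≥ w`, `j ≥ 2 w`. `l^(w - 1) ∣ 2 x + h` (`l^2 ∤ 3`), `l^(w - 1) ∣ x`; `3 x = (3 x + h) - h`: `l^w ∣ 3 x`, so `l^(2 w - 1) ∣ 3 x^2`, `l^(2 w - 1) ∣ a`,
`2 w - 1 ≥ 5`; `b = f(x) - x^3 - a x`: `2 j ≥ 12`, `3 (w - 1) ≥ 6`, `5 + (w - 1) ≥ 7`. Contradiction with `hmin`. (`Padic.norm_int_le_pow_iff_dvd` or the `ℤ_[l]` form for the integers `a`, `b`.) -/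
theorem lo_close {l : ℕ} [hl : Fact l.Prime] {a b : ℤ} (hmin : ¬ ((l : ℤ) ^ 4 ∣ a ∧ (l : ℤ) ^ 6 ∣ b)) {j : ℕ} {x x' : ℤ_[l]}
    (hf : (l : ℤ_[l]) ^ (2 * j) ∣ x ^ 3 + (a : ℤ_[l]) * x + (b : ℤ_[l])) (hf' : (l : ℤ_[l]) ^ (2 * j) ∣ x' ^ 3 + (a : ℤ_[l]) * x' + (b : ℤ_[l]))
    (hd : (l : ℤ_[l]) ^ j ∣ 3 * x ^ 2 + (a : ℤ_[l])) (hd' : (l : ℤ_[l]) ^ j ∣ 3 * x' ^ 2 + (a : ℤ_[l])) :
    (l : ℤ_[l]) ^ (j - 2) ∣ x - x' := by
  classical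
  have hp : Prime (l : ℤ_[l]) := PadicInt.prime_p
  by_contra hcon
  apply hmin
  obtain ⟨h, hh⟩ : ∃ h, h = x' - x := ⟨_, rfl⟩
  have hx' : x' = x + h := by rw [hh]; ring
  have hcon' : ¬ (l : ℤ_[l]) ^ (j - 2) ∣ h := by
    intro h1
    apply hcon
    rw [← dvd_neg, neg_sub, ← hh]
    exact h1
  have hex : ∃ s, ¬ (l : ℤ_[l]) ^ (s + 1) ∣ h :=
    ⟨j - 2, fun h1 => hcon' ((pow_dvd_pow _ (Nat.le_succ _)).trans h1)⟩
  obtain ⟨s, hs⟩ : ∃ s, s = Nat.find hex := ⟨_, rfl⟩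
  have hs1 : ¬ (l : ℤ_[l]) ^ (s + 1) ∣ h := hs ▸ Nat.find_spec hex
  have hs2 : (l : ℤ_[l]) ^ s ∣ h := by
    rcases Nat.eq_zero_or_pos s with h1 | h1
    · rw [h1, pow_zero]
      exact one_dvd _
    · have h2 := Nat.find_min hex (m := s - 1) (by omega)
      rw [not_not, Nat.sub_add_cancel h1] at h2
      exact h2
  have hsj : s < j - 2 := by
    by_contra h1
    exact hcon' ((pow_dvd_pow _ (not_lt.1 h1)).trans hs2)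
  obtain ⟨u, hu⟩ := hs2
  have hu1 : ¬ (l : ℤ_[l]) ∣ u := by
    rintro ⟨v, rfl⟩
    apply hs1
    rw [hu, pow_succ]
    exact ⟨v, by ring⟩
  obtain ⟨w, hw⟩ : ∃ w, j = s + w := ⟨j - s, by omega⟩
  have hw3 : 3 ≤ w := by omega
  -- the first relation
  have e1 : (l : ℤ_[l]) ^ w ∣ 3 * x + h := by
    have h1 : (l : ℤ_[l]) ^ (s + (s + 2 * w)) ∣ (l : ℤ_[l]) ^ s * u * ((3 * x ^ 2 + (a : ℤ_[l])) + h * (3 * x + h)) := by
      rw [← hu]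
      have h2 := dvd_sub hf' hf
      rw [hx'] at h2
      have h3 : (x + h) ^ 3 + (a : ℤ_[l]) * (x + h) + (b : ℤ_[l]) - (x ^ 3 + (a : ℤ_[l]) * x + (b : ℤ_[l])) =
          h * ((3 * x ^ 2 + (a : ℤ_[l])) + h * (3 * x + h)) := by ring
      rw [h3] at h2
      rw [show s + (s + 2 * w) = 2 * j by omega]
      exact h2
    have h4 := (pow_dvd_pow (l : ℤ_[l]) (show j ≤ s + 2 * w by omega)).trans (loa_cancel hu1 h1)
    have h5 := (dvd_add_right hd).1 h4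
    rw [hw] at h5
    have h6 : h * (3 * x + h) = (l : ℤ_[l]) ^ s * u * (3 * x + h) := by rw [← hu]
    rw [h6] at h5
    exact loa_cancel hu1 h5
  have e2 : (l : ℤ_[l]) ^ w ∣ 3 * (2 * x + h) := by
    have h2 := dvd_sub hd' hd
    rw [hx'] at h2
    have h3 : 3 * (x + h) ^ 2 + (a : ℤ_[l]) - (3 * x ^ 2 + (a : ℤ_[l])) = h * (3 * (2 * x + h)) := by ring
    have h6 : h * (3 * (2 * x + h)) = (l : ℤ_[l]) ^ s * u * (3 * (2 * x + h)) := by rw [← hu]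
    rw [h3, h6, hw] at h2
    exact loa_cancel hu1 h2
  have e3 : (l : ℤ_[l]) ^ w ∣ h := by
    have h3 : h = 3 * (2 * x + h) - 2 * (3 * x + h) := by ring
    rw [h3]
    exact dvd_sub e2 (Dvd.dvd.mul_left e1 2)
  have hws : w ≤ s := by
    by_contra h1
    exact hs1 ((pow_dvd_pow _ (by omega)).trans e3)
  have e4 : (l : ℤ_[l]) ^ w ∣ 3 * x := by
    have h3 : 3 * x = (3 * x + h) - h := by ring
    rw [h3]
    exact dvd_sub e1 e3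
  obtain ⟨w', hw'⟩ : ∃ w', w = w' + 1 := ⟨w - 1, by omega⟩
  have e5 : (l : ℤ_[l]) ^ w' ∣ x := by
    rw [hw'] at e4
    exact loa_three e4
  have e6 : (l : ℤ_[l]) ^ 5 ∣ (a : ℤ_[l]) := by
    have h1 : (l : ℤ_[l]) ^ 5 ∣ 3 * x ^ 2 := by
      have h2 : 3 * x ^ 2 = (3 * x) * x := by ring
      rw [h2]
      refine (pow_dvd_pow _ (show 5 ≤ w + w' by omega)).trans ?_
      rw [pow_add]
      exact mul_dvd_mul e4 e5
    exact (dvd_add_right h1).1 ((pow_dvd_pow _ (by omega)).trans hd)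
  refine ⟨loa_int ((pow_dvd_pow _ (by norm_num)).trans e6), loa_int ?_⟩
  have e7 : (l : ℤ_[l]) ^ 6 ∣ x ^ 3 + (a : ℤ_[l]) * x := by
    refine dvd_add ?_ ?_
    · refine (pow_dvd_pow _ (show 6 ≤ w' * 3 by omega)).trans ?_
      rw [pow_mul]
      exact pow_dvd_pow_of_dvd e5 3
    · refine (pow_dvd_pow _ (show 6 ≤ 5 + w' by omega)).trans ?_
      rw [pow_add]
      exact mul_dvd_mul e6 e5
  exact (dvd_add_right e7).1 ((pow_dvd_pow _ (by omega)).trans hf)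

/-- The depth is at most half the valuation of the discriminant. PROOF. `(3 x^2 + 4 a) ((3 x^2 + a)^2 - 8 x f) - (3 x^3 - 5 a x - 27 b) f = 4 a^3 + 27 b^2` for `f = x^3 + a x + b` (`ring`). -/
theorem lo_disc {l : ℕ} [hl : Fact l.Prime] {a b : ℤ} {j : ℕ} {x : ℤ_[l]}
    (hf : (l : ℤ_[l]) ^ (2 * j) ∣ x ^ 3 + (a : ℤ_[l]) * x + (b : ℤ_[l])) (hd : (l : ℤ_[l]) ^ j ∣ 3 * x ^ 2 + (a : ℤ_[l])) :
    (l : ℤ) ^ (2 * j) ∣ 4 * a ^ 3 + 27 * b ^ 2 := by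
  apply loa_int
  push_cast
  have h1 : 4 * (a : ℤ_[l]) ^ 3 + 27 * (b : ℤ_[l]) ^ 2 = (3 * x ^ 2 + 4 * (a : ℤ_[l])) * ((3 * x ^ 2 + (a : ℤ_[l])) ^ 2 -
      8 * x * (x ^ 3 + (a : ℤ_[l]) * x + (b : ℤ_[l]))) - (3 * x ^ 3 - 5 * (a : ℤ_[l]) * x - 27 * (b : ℤ_[l])) *
      (x ^ 3 + (a : ℤ_[l]) * x + (b : ℤ_[l])) := by ring
  rw [h1]
  have h2 : (l : ℤ_[l]) ^ (2 * j) ∣ (3 * x ^ 2 + (a : ℤ_[l])) ^ 2 := by
    rw [mul_comm 2 j, pow_mul]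
    exact pow_dvd_pow_of_dvd hd 2
  exact dvd_sub (Dvd.dvd.mul_left (dvd_sub h2 (Dvd.dvd.mul_left hf _)) _) (Dvd.dvd.mul_left hf _)

end Pool.Agent.Lib.MP_3550b5_nt.AC
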