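import Mathlib
import Pool.Agent.Lib.MP_3550b5_nt.AC.LoA

/-!
PROJECT AC, block ALL POINTS: the local index at an arbitrary prime, by the pigeonhole principle.
-/

namespace Pool.Agent.Lib.MP_3550b5_nt.AC

open WeierstrassCurve.Affine

/-- PROOF. `x(2 Q) = ((3 x^2 + a) / (2 y))^2 - 2 x` and `‖x(2 Q)‖ ≤ 1`, `‖x‖ ≤ 1`. -/
theorem lo_dbl {l : ℕ} [hl : Fact l.Prime] {a b : ℤ} {Q : (curve a b).Point} (h0 : Q ≠ 0) (h2 : 2 • Q ≠ 0) (hs : SingAt l Q) (hs2 : SingAt l (2 • Q)) :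
    ‖3 * ((ptX Q : ℚ) : ℚ_[l]) ^ 2 + (a : ℚ_[l])‖ ≤ ‖((ptY Q : ℚ) : ℚ_[l])‖ := by
  obtain ⟨hh, e⟩ := exists_eq_some Q h0
  obtain ⟨h1, -, -⟩ := hs
  obtain ⟨h3, -, -⟩ := hs2
  have hY : ptY Q ≠ 0 := by
    intro hy
    apply h2
    have h4 : Q = -Q := by
      conv_rhs => rw [e]
      rw [Point.neg_some]
      conv_lhs => rw [e]
      simp only [Point.some.injEq, true_and]
      rw [curve_negY, hy, neg_zero]
    rw [two_nsmul]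
    nth_rw 2 [h4]
    exact add_neg_cancel _
  have hYne : ptY Q ≠ (curve a b).negY (ptX Q) (ptY Q) := by
    rw [curve_negY]
    intro h4
    apply hY
    linarith
  have hx : ptX (2 • Q) = ((3 * ptX Q ^ 2 + a) / (2 * ptY Q)) ^ 2 - 2 * ptX Q := by
    have e3 : 2 • Q = Point.some _ _ hh + Point.some _ _ hh := by
      rw [← e, two_nsmul]
    rw [e3, Point.add_self_of_Y_ne hYne, ptX_some,
      WeierstrassCurve.Affine.slope_of_Y_ne rfl hYne, curve_negY]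
    generalize ptX Q = X
    generalize ptY Q = Y
    simp only [WeierstrassCurve.Affine.addX, curve]
    have e4 : Y - -Y = 2 * Y := by ring
    rw [e4]
    ring
  have ed := congrArg (fun z : ℚ => (z : ℚ_[l])) hx
  push_cast at ed
  rw [ed] at h3
  have hy0 : ((ptY Q : ℚ) : ℚ_[l]) ≠ 0 := by exact_mod_cast hY
  set x := ((ptX Q : ℚ) : ℚ_[l]) with hxd
  set y := ((ptY Q : ℚ) : ℚ_[l]) with hyd
  have h2n : ‖(2 : ℚ_[l])‖ ≤ 1 := by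
    have := Padic.norm_int_le_one (p := l) 2
    push_cast at this
    exact this
  have h20 : (2 : ℚ_[l]) ≠ 0 := two_ne_zero
  have h5 : ‖((3 * x ^ 2 + (a : ℚ_[l])) / (2 * y)) ^ 2‖ ≤ 1 := by
    have e4 : ((3 * x ^ 2 + (a : ℚ_[l])) / (2 * y)) ^ 2 =
      (((3 * x ^ 2 + (a : ℚ_[l])) / (2 * y)) ^ 2 - 2 * x) + 2 * x := by ring
    rw [e4]
    refine (Padic.nonarchimedean _ _).trans (max_le h3 ?_)
    rw [norm_mul]
    exact mul_le_one₀ h2n (norm_nonneg _) h1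
  rw [norm_pow] at h5
  have h6 := (pow_le_one_iff_of_nonneg (norm_nonneg _) (by norm_num)).mp h5
  rw [norm_div] at h6
  have h7 := (div_le_one (norm_pos_iff.mpr (mul_ne_zero h20 hy0))).mp h6
  refine h7.trans ?_
  rw [norm_mul]
  calc ‖(2 : ℚ_[l])‖ * ‖y‖ ≤ 1 * ‖y‖ := by gcongr
    _ = ‖y‖ := one_mul _

/-- PROOF. `‖y + y'‖ = ‖2 y‖ ≥ l^(-1) ‖y‖ ≥ l^(-(j + 1))` (`y + y' = 2 y - (y - y')`), `‖x - x'‖ ≤ l^(-(j + 2))`, so the slope of the chord of `Q` and `-Q'` has norm `> 1` (`x ≠ x'`, otherwise `Q = Q'` or `Q = -Q'`, `y = - y'`), and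
`x(Q - Q')` has norm `> 1`. -/
theorem lo_diff {l : ℕ} [hl : Fact l.Prime] {a b : ℤ} {Q Q' : (curve a b).Point} (h0 : Q ≠ 0) (h0' : Q' ≠ 0) (hne : Q ≠ Q') {j : ℕ}
    (hx : ‖((ptX Q : ℚ) : ℚ_[l])‖ ≤ 1) (hx' : ‖((ptX Q' : ℚ) : ℚ_[l])‖ ≤ 1)
    (hy : (l : ℝ) ^ (-(j : ℤ)) ≤ ‖((ptY Q : ℚ) : ℚ_[l])‖)
    (hxx : ‖((ptX Q : ℚ) : ℚ_[l]) - ((ptX Q' : ℚ) : ℚ_[l])‖ ≤ (l : ℝ) ^ (-((j : ℤ) + 2)))
    (hyy : ‖((ptY Q : ℚ) : ℚ_[l]) - ((ptY Q' : ℚ) : ℚ_[l])‖ ≤ (l : ℝ) ^ (-((j : ℤ) + 2))) : ¬ SingAt l (Q - Q') := by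
  rintro ⟨hs, -, -⟩
  obtain ⟨hh, e⟩ := exists_eq_some Q h0
  obtain ⟨hh', e'⟩ := exists_eq_some Q' h0'
  have hl0 : (0 : ℝ) < l := by exact_mod_cast hl.out.pos
  have hl1 : (1 : ℝ) < l := by exact_mod_cast hl.out.one_lt
  -- the sum of the second coordinates
  have h2n : (l : ℝ) ^ (-(1 : ℤ)) ≤ ‖(2 : ℚ_[l])‖ := by
    by_contra hlt
    rw [not_le] at hlt
    have h3 : ‖((2 : ℤ) : ℚ_[l])‖ ≤ (l : ℝ) ^ (-((2 : ℕ) : ℤ)) := by
      rw [Padic.norm_le_pow_iff_norm_lt_pow_add_one]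
      push_cast
      exact hlt
    have h4 := (Padic.norm_int_le_pow_iff_dvd (2 : ℤ) 2).mp h3
    have h5 : (l ^ 2 : ℕ) ∣ 2 := by exact_mod_cast h4
    have h6 := Nat.le_of_dvd (by norm_num) h5
    have h7 := hl.out.two_le
    nlinarith
  have hyy2 : (l : ℝ) ^ (-((j : ℤ) + 1)) ≤ ‖((ptY Q : ℚ) : ℚ_[l]) + ((ptY Q' : ℚ) : ℚ_[l])‖ := by
    by_contra hlt
    rw [not_le] at hlt
    have e3 : 2 * ((ptY Q : ℚ) : ℚ_[l]) = (((ptY Q : ℚ) : ℚ_[l]) + ((ptY Q' : ℚ) : ℚ_[l])) +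
        (((ptY Q : ℚ) : ℚ_[l]) - ((ptY Q' : ℚ) : ℚ_[l])) := by ring
    have h3 : ‖2 * ((ptY Q : ℚ) : ℚ_[l])‖ < (l : ℝ) ^ (-((j : ℤ) + 1)) := by
      rw [e3]
      refine (Padic.nonarchimedean _ _).trans_lt (max_lt hlt (hyy.trans_lt ?_))
      exact zpow_lt_zpow_right₀ hl1 (by omega)
    have h4 : (l : ℝ) ^ (-((j : ℤ) + 1)) ≤ ‖2 * ((ptY Q : ℚ) : ℚ_[l])‖ := by
      rw [norm_mul]
      calc (l : ℝ) ^ (-((j : ℤ) + 1)) = (l : ℝ) ^ (-(1 : ℤ)) * (l : ℝ) ^ (-(j : ℤ)) := by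
            rw [← zpow_add₀ hl0.ne']
            congr 1
            ring
        _ ≤ _ := by gcongr
    exact absurd h4 (not_le.mpr h3)
  have hpos : 0 < (l : ℝ) ^ (-((j : ℤ) + 1)) := by positivity
  have hne0 : ((ptY Q : ℚ) : ℚ_[l]) + ((ptY Q' : ℚ) : ℚ_[l]) ≠ 0 := by
    intro h3
    rw [h3, norm_zero] at hyy2
    exact absurd hyy2 (not_le.mpr hpos)
  have hxne : ptX Q ≠ ptX Q' := by
    intro h3
    have h4 := (Point.X_eq_iff (h₁ := hh) (h₂ := hh')).mp h3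
    rw [← e, ← e'] at h4
    rcases h4 with h4 | h4
    · exact hne h4
    · apply hne0
      have h5 : ptY Q = -ptY Q' := by
        conv_lhs => rw [h4, e']
        rw [Point.neg_some, ptY_some, curve_negY]
      rw [h5]
      push_cast
      ring
  have hdiff : ptX (Q - Q') = ((ptY Q + ptY Q') / (ptX Q - ptX Q')) ^ 2 - ptX Q - ptX Q' := by
    have e3 : Q - Q' = Point.some _ _ hh + -Point.some _ _ hh' := by
      rw [← e, ← e', sub_eq_add_neg]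
    rw [e3, Point.neg_some, Point.add_of_X_ne hxne, ptX_some,
      WeierstrassCurve.Affine.slope_of_X_ne hxne, curve_negY]
    simp [WeierstrassCurve.Affine.addX, curve]
  have ed := congrArg (fun z : ℚ => (z : ℚ_[l])) hdiff
  push_cast at ed
  rw [ed] at hs
  have hxne' : ((ptX Q : ℚ) : ℚ_[l]) - ((ptX Q' : ℚ) : ℚ_[l]) ≠ 0 := by
    intro h3
    exact hxne (by exact_mod_cast sub_eq_zero.mp h3)
  set x := ((ptX Q : ℚ) : ℚ_[l]) with hxd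
  set x' := ((ptX Q' : ℚ) : ℚ_[l]) with hxd'
  set y := ((ptY Q : ℚ) : ℚ_[l]) with hyd
  set y' := ((ptY Q' : ℚ) : ℚ_[l]) with hyd'
  have h5 : ‖((y + y') / (x - x')) ^ 2‖ ≤ 1 := by
    have e4 : ((y + y') / (x - x')) ^ 2 = (((y + y') / (x - x')) ^ 2 - x - x') + (x + x') := by ring
    rw [e4]
    refine (Padic.nonarchimedean _ _).trans (max_le hs ?_)
    exact (Padic.nonarchimedean _ _).trans (max_le hx hx')
  rw [norm_pow] at h5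
  have h6 := (pow_le_one_iff_of_nonneg (norm_nonneg _) (by norm_num)).mp h5
  rw [norm_div] at h6
  have h7 := (div_le_one (norm_pos_iff.mpr hxne')).mp h6
  have h8 : (l : ℝ) ^ (-((j : ℤ) + 1)) ≤ (l : ℝ) ^ (-((j : ℤ) + 2)) := hyy2.trans (h7.trans hxx)
  have h9 : (l : ℝ) ^ (-((j : ℤ) + 2)) < (l : ℝ) ^ (-((j : ℤ) + 1)) :=
    zpow_lt_zpow_right₀ hl1 (by omega)
  exact absurd h8 (not_le.mpr h9)

end Pool.Agent.Lib.MP_3550b5_nt.AC
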