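import Mathlib
import Pool.Agent.Lib.MP_3550b5_nt.AC.LoB

/-!
PROJECT AC, block ALL POINTS: the local index at an arbitrary prime, by the pigeonhole principle.
-/

namespace Pool.Agent.Lib.MP_3550b5_nt.AC

open WeierstrassCurve.Affine

private lemma lo_dvd_iff {l : ℕ} [hl : Fact l.Prime] (x : ℤ_[l]) (k : ℕ) :
    (l : ℤ_[l]) ^ k ∣ x ↔ ‖x‖ ≤ (l : ℝ) ^ (-(k : ℤ)) := by
  rw [PadicInt.norm_le_pow_iff_mem_span_pow, Ideal.mem_span_singleton]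

/-- THE LOCAL INDEX AT AN ARBITRARY PRIME. PROOF. Suppose that all `m • P`, `1 ≤ m ≤ 2 J`, `J = l^6 (n + 1) + 1`, are `SingAt`. For `m ≤ J`: `x_m, y_m ∈ ℤ_l`, `y_m ≠ 0`, `j_m = v(y_m)`; `l^(2 j) ∣ f(x) = y^2`, `l^j ∣ f'(x)` (`lo_dbl`), so `2 j ≤ n`
(`lo_disc`), `j_m ≤ n`. Pigeonhole (`Finset.exists_lt_card_fiberwise_of_mul_lt_card_of_maps_to`): more than `l^6` numbers `m` with the same `j`; fix one of them, `m₀`. `lo_close`: `x_m - x_(m₀) = l^(j - 2) z_m`, `y_m = l^j w_m`;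
`(z_m mod l^4, w_m mod l^2)` (`PadicInt.toZModPow`): two are the same, `l^(j - 2 + 4)` divides `x_m - x_m'`, `l^(j + 2)` divides `y_m - y_m'`. `lo_diff`: `(m - m') • P` is not `SingAt`, contradiction. -/
theorem lo_index {l : ℕ} [hl : Fact l.Prime] {a b : ℤ} (hmin : ¬ ((l : ℤ) ^ 4 ∣ a ∧ (l : ℤ) ^ 6 ∣ b)) {n : ℕ}
    (hn : ¬ (l : ℤ) ^ (n + 1) ∣ 4 * a ^ 3 + 27 * b ^ 2) {P : (curve a b).Point} (htor : ¬ IsOfFinAddOrder P) :
    ∃ m : ℕ, 1 ≤ m ∧ m ≤ 2 * (l ^ 6 * (n + 1) + 1) ∧ ¬ SingAt l (m • P) := by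
  by_contra hcon
  push Not at hcon
  have hl0 : 0 < l := hl.out.pos
  have hl0' : (0 : ℝ) < l := by exact_mod_cast hl0
  obtain ⟨J, hJ⟩ : ∃ J : ℕ, J = l ^ 6 * (n + 1) + 1 := ⟨_, rfl⟩
  rw [← hJ] at hcon
  have hne0 : ∀ m, 1 ≤ m → m • P ≠ 0 := fun m hm => nsmul_ne_of_not_tor htor m (by omega)
  have heqn : ∀ m, 1 ≤ m → ((ptY (m • P) : ℚ) : ℚ_[l]) ^ 2 =
      ((ptX (m • P) : ℚ) : ℚ_[l]) ^ 3 + (a : ℚ_[l]) * ((ptX (m • P) : ℚ) : ℚ_[l]) +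
        (b : ℚ_[l]) := by
    intro m hm
    obtain ⟨hh, -⟩ := exists_eq_some _ (hne0 m hm)
    have e := congrArg (fun z : ℚ => (z : ℚ_[l])) (curve_eq hh)
    push_cast at e
    exact e
  have hX1 : ∀ m, 1 ≤ m → m ≤ J → ‖((ptX (m • P) : ℚ) : ℚ_[l])‖ ≤ 1 :=
    fun m h1 h2 => (hcon m h1 (by omega)).1
  have hY1 : ∀ m, 1 ≤ m → m ≤ J → ‖((ptY (m • P) : ℚ) : ℚ_[l])‖ ≤ 1 := by
    intro m h1 h2
    have h3 := hX1 m h1 h2
    have e2 : ‖((ptY (m • P) : ℚ) : ℚ_[l])‖ ^ 2 ≤ 1 := by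
      rw [← norm_pow, heqn m h1]
      refine (Padic.nonarchimedean _ _).trans (max_le ((Padic.nonarchimedean _ _).trans
        (max_le ?_ ?_)) (Padic.norm_int_le_one b))
      · rw [norm_pow]; exact pow_le_one₀ (norm_nonneg _) h3
      · rw [norm_mul]; exact mul_le_one₀ (Padic.norm_int_le_one a) (norm_nonneg _) h3
    exact (pow_le_one_iff_of_nonneg (norm_nonneg _) (by norm_num)).mp e2
  have hXex : ∀ m : ℕ, ∃ x : ℤ_[l], 1 ≤ m → m ≤ J → (x : ℚ_[l]) = ((ptX (m • P) : ℚ) : ℚ_[l]) := by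
    intro m
    by_cases h : 1 ≤ m ∧ m ≤ J
    · exact ⟨⟨_, hX1 m h.1 h.2⟩, fun _ _ => rfl⟩
    · exact ⟨0, fun h1 h2 => absurd ⟨h1, h2⟩ h⟩
  have hYex : ∀ m : ℕ, ∃ x : ℤ_[l], 1 ≤ m → m ≤ J → (x : ℚ_[l]) = ((ptY (m • P) : ℚ) : ℚ_[l]) := by
    intro m
    by_cases h : 1 ≤ m ∧ m ≤ J
    · exact ⟨⟨_, hY1 m h.1 h.2⟩, fun _ _ => rfl⟩
    · exact ⟨0, fun h1 h2 => absurd ⟨h1, h2⟩ h⟩
  choose X hX using hXex
  choose Y hY using hYex
  -- the equation and the derivative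
  have hE : ∀ m, 1 ≤ m → m ≤ J → X m ^ 3 + (a : ℤ_[l]) * X m + (b : ℤ_[l]) = Y m ^ 2 := by
    intro m h1 h2
    apply Subtype.coe_injective
    have e := heqn m h1
    rw [← hX m h1 h2, ← hY m h1 h2] at e
    push_cast
    exact e.symm
  have hD : ∀ m, 1 ≤ m → m ≤ J → ‖3 * X m ^ 2 + (a : ℤ_[l])‖ ≤ ‖Y m‖ := by
    intro m h1 h2
    have e := lo_dbl (hne0 m h1) (by rw [← mul_smul]; exact hne0 (2 * m) (by omega))
      (hcon m h1 (by omega)) (by rw [← mul_smul]; exact hcon (2 * m) (by omega) (by omega))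
    rw [← hX m h1 h2, ← hY m h1 h2] at e
    rw [PadicInt.norm_def, PadicInt.norm_def]
    push_cast
    exact e
  have hfj : ∀ m, 1 ≤ m → m ≤ J → ∀ j : ℕ, (l : ℤ_[l]) ^ j ∣ Y m →
      (l : ℤ_[l]) ^ (2 * j) ∣ X m ^ 3 + (a : ℤ_[l]) * X m + (b : ℤ_[l]) ∧
      (l : ℤ_[l]) ^ j ∣ 3 * X m ^ 2 + (a : ℤ_[l]) := by
    intro m h1 h2 j hj
    refine ⟨?_, ?_⟩
    · rw [hE m h1 h2, mul_comm 2 j, pow_mul]
      exact pow_dvd_pow_of_dvd hj 2
    · rw [lo_dvd_iff] at hj ⊢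
      exact (hD m h1 h2).trans hj
  have hnd : ∀ m, 1 ≤ m → m ≤ J → ¬ (l : ℤ_[l]) ^ (n + 1) ∣ Y m := by
    intro m h1 h2 hj
    obtain ⟨h3, h4⟩ := hfj m h1 h2 _ hj
    exact hn ((pow_dvd_pow _ (by omega)).trans (lo_disc h3 h4))
  have hY0 : ∀ m, 1 ≤ m → m ≤ J → Y m ≠ 0 := by
    intro m h1 h2 h0
    exact hnd m h1 h2 (h0 ▸ dvd_zero _)
  have hYn : ∀ m, 1 ≤ m → m ≤ J → ‖Y m‖ = (l : ℝ) ^ (-((Y m).valuation : ℤ)) :=
    fun m h1 h2 => PadicInt.norm_eq_zpow_neg_valuation (hY0 m h1 h2)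
  have hval : ∀ m, 1 ≤ m → m ≤ J → (Y m).valuation < n + 1 := by
    intro m h1 h2
    by_contra h3
    push Not at h3
    apply hnd m h1 h2
    refine (pow_dvd_pow _ h3).trans ?_
    rw [lo_dvd_iff, hYn m h1 h2]
  -- the first pigeonhole
  obtain ⟨j, -, hj⟩ := Finset.exists_lt_card_fiber_of_mul_lt_card_of_maps_to
    (s := Finset.Icc 1 J) (t := Finset.range (n + 1)) (f := fun m => (Y m).valuation)
    (n := l ^ 6) (by
      intro m hm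
      rw [Finset.mem_Icc] at hm
      exact Finset.mem_range.2 (hval m hm.1 hm.2)) (by
      rw [Finset.card_range, Nat.card_Icc, hJ, mul_comm]
      omega)
  set S := (Finset.Icc 1 J).filter (fun m => (Y m).valuation = j) with hS
  have hSmem : ∀ m ∈ S, 1 ≤ m ∧ m ≤ J ∧ (Y m).valuation = j := by
    intro m hm
    rw [hS, Finset.mem_filter, Finset.mem_Icc] at hm
    exact ⟨hm.1.1, hm.1.2, hm.2⟩
  obtain ⟨m₀, hm₀⟩ : S.Nonempty := by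
    rw [← Finset.card_pos]
    omega
  have hYj : ∀ m ∈ S, (l : ℤ_[l]) ^ j ∣ Y m := by
    intro m hm
    obtain ⟨h1, h2, h3⟩ := hSmem m hm
    rw [lo_dvd_iff, hYn m h1 h2, h3]
  have hzex : ∀ m : ℕ, ∃ z : ℤ_[l], m ∈ S → X m - X m₀ = (l : ℤ_[l]) ^ (j - 2) * z := by
    intro m
    by_cases hm : m ∈ S
    · obtain ⟨h1, h2, h3⟩ := hSmem m hm
      obtain ⟨h4, h5, h6⟩ := hSmem m₀ hm₀
      obtain ⟨h7, h8⟩ := hfj m h1 h2 j (hYj m hm)
      obtain ⟨h9, h10⟩ := hfj m₀ h4 h5 j (hYj m₀ hm₀)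
      obtain ⟨z, hz⟩ := lo_close hmin h7 h9 h8 h10
      exact ⟨z, fun _ => hz⟩
    · exact ⟨0, fun h => absurd h hm⟩
  have hwex : ∀ m : ℕ, ∃ w : ℤ_[l], m ∈ S → Y m = (l : ℤ_[l]) ^ j * w := by
    intro m
    by_cases hm : m ∈ S
    · obtain ⟨w, hw⟩ := hYj m hm
      exact ⟨w, fun _ => hw⟩
    · exact ⟨0, fun h => absurd h hm⟩
  choose z hz using hzex
  choose w hw using hwex
  -- the second pigeonhole
  have key : ∀ m ∈ S, ∀ m' ∈ S, m' < m → PadicInt.toZModPow 4 (z m) = PadicInt.toZModPow 4 (z m') →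
      PadicInt.toZModPow 2 (w m) = PadicInt.toZModPow 2 (w m') → False := by
    intro m hm m' hm' hlt e1 e2
    obtain ⟨h1, h2, h3⟩ := hSmem m hm
    obtain ⟨h4, h5, h6⟩ := hSmem m' hm'
    rw [toZModPow_eq_iff, ← lo_dvd_iff] at e1 e2
    have h7 : (l : ℤ_[l]) ^ (j + 2) ∣ X m - X m' := by
      have e3 : X m - X m' = (l : ℤ_[l]) ^ (j - 2) * (z m - z m') := by
        rw [mul_sub, ← hz m hm, ← hz m' hm']
        ring
      rw [e3]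
      refine (pow_dvd_pow _ (by omega : j + 2 ≤ (j - 2) + 4)).trans ?_
      rw [pow_add]
      exact mul_dvd_mul_left _ e1
    have h8 : (l : ℤ_[l]) ^ (j + 2) ∣ Y m - Y m' := by
      rw [hw m hm, hw m' hm', ← mul_sub, pow_add]
      exact mul_dvd_mul_left _ e2
    rw [lo_dvd_iff, PadicInt.norm_def] at h7 h8
    push_cast at h7 h8
    rw [hX m h1 h2, hX m' h4 h5] at h7
    rw [hY m h1 h2, hY m' h4 h5] at h8
    have h9 : (l : ℝ) ^ (-(j : ℤ)) ≤ ‖((ptY (m • P) : ℚ) : ℚ_[l])‖ := by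
      rw [← hY m h1 h2, ← PadicInt.norm_def, hYn m h1 h2, h3]
    have hsub : m • P - m' • P = (m - m') • P := by
      rw [sub_eq_iff_eq_add, ← add_smul]
      congr 1
      omega
    have hne : m • P ≠ m' • P := by
      intro h0
      rw [← sub_eq_zero, hsub] at h0
      exact hne0 (m - m') (by omega) h0
    have h10 := lo_diff (hne0 m h1) (hne0 m' h4) hne (hX1 m h1 h2) (hX1 m' h4 h5) h9 h7 h8
    rw [hsub] at h10
    exact h10 (hcon (m - m') (by omega) (by omega))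
  have hNZ4 : NeZero (l ^ 4) := ⟨pow_ne_zero _ hl0.ne'⟩
  have hNZ2 : NeZero (l ^ 2) := ⟨pow_ne_zero _ hl0.ne'⟩
  obtain ⟨m, hm, m', hm', hne, hee⟩ := Finset.exists_ne_map_eq_of_card_lt_of_maps_to
    (s := S) (t := (Finset.univ : Finset (ZMod (l ^ 4) × ZMod (l ^ 2))))
    (f := fun m => ((PadicInt.toZModPow 4 (z m) : ZMod (l ^ 4)),
      (PadicInt.toZModPow 2 (w m) : ZMod (l ^ 2)))) (by
      rw [Finset.card_univ, Fintype.card_prod, ZMod.card, ZMod.card, ← pow_add]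
      exact hj) (by
      intro m _
      exact Finset.mem_coe.2 (Finset.mem_univ _))
  have e1 : PadicInt.toZModPow 4 (z m) = PadicInt.toZModPow 4 (z m') := congrArg Prod.fst hee
  have e2 : PadicInt.toZModPow 2 (w m) = PadicInt.toZModPow 2 (w m') := congrArg Prod.snd hee
  rcases lt_or_gt_of_ne hne with h | h
  · exact key m' hm' m hm h e1.symm e2.symm
  · exact key m hm m' hm' h e1 e2

end Pool.Agent.Lib.MP_3550b5_nt.AC
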