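import Mathlib
import Pool.Agent.Lib.MP_3550b5_nt.AC.ApI
import Pool.Agent.Lib.MP_3550b5_nt.AC.Lo
import Pool.Agent.Lib.MP_3550b5_nt.AC.AvA

/-!
PROJECT AC, block ALL POINTS: from arbitrary points of infinite order to the points which are nonsingular modulo every prime.
-/

namespace Pool.Agent.Lib.MP_3550b5_nt.AC

open WeierstrassCurve.Affine

/-- `b` is exceptional, for all points: `y^2 = x^3 + a x + b` is good ordinary at `p`, minimal at every prime, and it has a rational point of infinite order of height at most `2^T` whose canonical cyclotomic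
`p`-adic height is `v`. -/
def ExA (p : ℕ) [Fact p.Prime] (a : ℤ) (T : ℕ) (v : ℚ_[p]) (b : ℤ) : Prop :=
  GoodOrdinary p a b ∧ (∀ q : ℕ, q.Prime → ¬ ((q : ℤ) ^ 4 ∣ a ∧ (q : ℤ) ^ 6 ∣ b)) ∧
    ∃ Bh : (curve a b).Point → (curve a b).Point → ℚ_[p], IsCanonicalHeight p a b Bh ∧
      ∃ P : (curve a b).Point, ¬ IsOfFinAddOrder P ∧ Hx P T ∧ Bh P P = v

/-- the coprimality of the numerator and the denominator -/
private lemma apJ_coprime {a b A B D : ℤ} (he : B ^ 2 = A ^ 3 + a * A * D ^ 4 + b * D ^ 6)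
    (hc : IsCoprime (2 * B) (3 * A ^ 2 + a * D ^ 4)) : IsCoprime A D := by
  obtain ⟨u, v, h⟩ := hc
  refine ⟨4 * u ^ 2 * (A ^ 2 + a * D ^ 4) + 3 * v * A * (1 + 2 * u * B),
    4 * u ^ 2 * b * D ^ 5 + v * a * D ^ 3 * (1 + 2 * u * B), ?_⟩
  linear_combination (1 + 2 * u * B) * h - 4 * u ^ 2 * he

/-- numerator and denominator of the abscissa -/
private lemma apJ_bound {a b A B D : ℤ} {Q : (curve a b).Point} (hQ : IsRep a b A B D Q)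
    (hc : IsCoprime A D) {h : ℕ} (hH : Hx Q h) : |A| ≤ 2 ^ h ∧ D ^ 2 ≤ 2 ^ h := by
  have hD0 : D ≠ 0 := hQ.1
  have hD2 : 0 < D ^ 2 := by positivity
  have hcop : IsCoprime A (D ^ 2) := hc.pow_right
  have hcop' : A.natAbs.Coprime (D ^ 2).natAbs := Int.isCoprime_iff_gcd_eq_one.mp hcop
  have e : ptX Q = (A : ℚ) / ((D ^ 2 : ℤ) : ℚ) := by
    rw [hQ.ptX_eq]
    push_cast
    rfl
  obtain ⟨h1, h2⟩ := hH
  rw [e] at h1 h2
  rw [Rat.num_div_eq_of_coprime hD2 hcop'] at h1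
  rw [Rat.den_div_eq_of_coprime hD2 hcop'] at h2
  exact ⟨h1, h2⟩

/-- the multiplicities at all the primes -/
private lemma apJ_loc {a b : ℤ} (hΔ : 4 * a ^ 3 + 27 * b ^ 2 ≠ 0)
    (hmin : ∀ q : ℕ, q.Prime → ¬ ((q : ℤ) ^ 4 ∣ a ∧ (q : ℤ) ^ 6 ∣ b)) {P : (curve a b).Point}
    (htor : ¬ IsOfFinAddOrder P) (l : ℕ) :
    ∃ m : ℕ, (1 ≤ m ∧ m ≤ 2000 * padicValInt l (4 * a ^ 3 + 27 * b ^ 2) + 2000) ∧
      ∀ (_ : Fact l.Prime), ¬ SingAt l (m • P) := by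
  by_cases hl : l.Prime
  · haveI : Fact l.Prime := ⟨hl⟩
    have hn : ¬ (l : ℤ) ^ (padicValInt l (4 * a ^ 3 + 27 * b ^ 2) + 1) ∣
        4 * a ^ 3 + 27 * b ^ 2 := by
      intro hd
      rw [padicValInt_dvd_iff] at hd
      rcases hd with hd | hd
      · exact hΔ hd
      · omega
    by_cases h5 : 5 ≤ l
    · obtain ⟨m, h1, h2, h3⟩ := exists_local h5 (hmin l hl) hn htor
      exact ⟨m, ⟨h1, by omega⟩, fun _ => h3⟩
    · obtain ⟨m, h1, h2, h3⟩ := lo_index (hmin l hl) hn htor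
      refine ⟨m, ⟨h1, h2.trans ?_⟩, fun _ => h3⟩
      have h4 : l ≤ 3 := by
        have h6 : l ≠ 4 := by
          rintro rfl
          exact absurd hl (by norm_num)
        omega
      have h6 : l ^ 6 ≤ 3 ^ 6 := Nat.pow_le_pow_left h4 6
      have h7 : l ^ 6 * (padicValInt l (4 * a ^ 3 + 27 * b ^ 2) + 1) ≤
          3 ^ 6 * (padicValInt l (4 * a ^ 3 + 27 * b ^ 2) + 1) := Nat.mul_le_mul_right _ h6
      omega
  · exact ⟨1, ⟨le_refl 1, by omega⟩, fun h => absurd h.out hl⟩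

/-- THE REDUCTION. PROOF. `C` of `exists_mult` for `k₁`, `R = 2 p + 1`, `c = 2000`. For `b` with `ExA`: for a prime `l ≥ 5` `m l` of `exists_local` (`n = padicValInt l Δ`, `m l ≤ 4 n + 4`), for `l = 2, 3` of `lo_index`
(`m l ≤ 2 (3^6 (n + 1) + 1)`); `M`, `M^k₁ ≤ C |Δ|`; `exists_good`, `Hx.mul`: `A / D^2` in lowest terms (`IsCoprime A D` from the coprimality), so `|A| ≤ 2^h`, `D^2 ≤ 2^h`. `Bh (M • P) (M • P) = M^2 Bh P P`
(`IsCanonicalHeight.nsmul`). -/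
theorem exc_of_exA {p : ℕ} [hp : Fact p.Prime] (hp5 : 5 ≤ p) (k₁ : ℕ) : ∃ C : ℕ, 1 ≤ C ∧ ∀ (a b : ℤ) (l T : ℕ) (v : ℚ_[p]), |a| ≤ 2 ^ l → |b| ≤ 2 ^ l →
    ExA p a T v b → ∃ M : ℕ, 1 ≤ M ∧ M ^ k₁ ≤ C * (4 * a ^ 3 + 27 * b ^ 2).natAbs ∧
      ∀ T' : ℕ, 2 * M ^ 3 * (T + 2 * l + 4) ≤ T' → ExcV p a T' ((M : ℚ_[p]) ^ 2 * v) b := by
  obtain ⟨C, hC⟩ := exists_mult k₁ (2 * p + 1) 2000
  refine ⟨C + 1, by omega, ?_⟩
  intro a b l T v ha hb hE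
  obtain ⟨hgo, hmin, Bh, hBh, P, htor, hPx, hBP⟩ := hE
  have hΔ : 4 * a ^ 3 + 27 * b ^ 2 ≠ 0 := by
    intro h0
    apply hgo.1
    rw [h0]
    exact dvd_zero _
  choose m hm hm' using apJ_loc hΔ hmin htor
  obtain ⟨M, hM, hMR, hMl, hMk⟩ := hC _ hΔ m (fun l _ => hm l)
  obtain ⟨A, B, D, hrep, hcop, hpD⟩ := exists_good hp5 hgo.1 htor hM hMR
    (fun q hq => ⟨m q, (hm q).1, hMl q hq.out, hm' q hq⟩)
  refine ⟨M, hM, hMk.trans (Nat.mul_le_mul_right _ (Nat.le_succ C)), ?_⟩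
  intro T' hT'
  have hAD := apJ_coprime hrep.eqn hcop
  obtain ⟨hA, hD⟩ := apJ_bound hrep hAD (Hx.mul ha hb htor hPx hM)
  have hpow : (2 : ℤ) ^ (2 * M ^ 3 * (T + 2 * l + 4)) ≤ 2 ^ T' :=
    pow_le_pow_right₀ (by norm_num) hT'
  have hBM : Bh (M • P) (M • P) = (M : ℚ_[p]) ^ 2 * v := by
    rw [hBh.nsmul, hBh.symm, hBh.nsmul, hBP]
    ring
  obtain ⟨hD0, hh, heq⟩ := hrep
  refine ⟨hgo, Bh, hBh, A, B, D, hh, hD0, hpD, hcop, ?_, ?_, ?_⟩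
  · have h1 : |D| ≤ D ^ 2 := by
      rw [← sq_abs]
      have h4 : 1 ≤ |D| := Int.one_le_abs hD0
      nlinarith
    exact h1.trans (hD.trans hpow)
  · refine hA.trans (hpow.trans ?_)
    exact pow_le_pow_left₀ (by norm_num) (by norm_num) T'
  · rw [← heq]
    exact hBM

end Pool.Agent.Lib.MP_3550b5_nt.AC
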