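import Mathlib
import Pool.Agent.Lib.MP_3550b5_nt.TP.HtK
import Pool.Agent.Lib.MP_3550b5_nt.AC.Ar
import Pool.Agent.Lib.MP_3550b5_nt.AC.AvA

/-!
PROJECT AC, block ALL POINTS: the count for an arbitrary value of the height.
-/

namespace Pool.Agent.Lib.MP_3550b5_nt.AC

open PowerSeries SV

variable {p : ℕ} [hp : Fact p.Prime]

/-- THE COUNT for an arbitrary value. PROOF. The proof of `main_count` (Ar.lean) with `bad_dataV`. `X` empty: clear. Otherwise `u₀` of one `b₀ ∈ X`: for all `b ∈ X`, `u_b^(p-1) = u₀^(p-1)` (`pow_eq_of_ulog_eq`), so `u_b` is one of at most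
`p - 1` roots (`Polynomial.card_nthRoots`); the map `b ↦ (b mod p^2, u_b)`. -/
theorem main_countV (p : ℕ) [Fact p.Prime] (hp5 : 5 ≤ p) : ∃ C : ℕ, ∀ a : ℤ, a ≠ 0 → ∀ v : ℚ_[p], ∀ l T : ℕ, 1 ≤ l → 1 ≤ T → |a| ≤ 2 ^ T →
    ∀ X : Finset ℤ, (∀ b ∈ X, |b| ≤ 2 ^ l ∧ ExcV p a T v b) → X.card ≤ C * (T ^ 5 * l ^ 5) := by
  classical
  obtain ⟨C₁, hord⟩ := SgL_ord p hp5
  obtain ⟨C, hC⟩ := class_count p hp5 C₁
  refine ⟨3 + C * p ^ 3, fun a ha v l T hl hT haT X hX => ?_⟩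
  have hone : 1 ≤ T ^ 5 * l ^ 5 := Nat.mul_pos (by positivity) (by positivity)
  by_cases hTl : T ≤ 2 ^ l
  · -- the main case
    choose! A D u t hD hA hgood ht hu hlog hSD hd using fun b (hb : b ∈ X) =>
      bad_dataV hp5 (hX b hb).2
    obtain ⟨r, hr⟩ : ∃ r : ℤ_[p], ∀ b ∈ X, u b ^ (p - 1) = r := by
      rcases Finset.eq_empty_or_nonempty X with he | ⟨b₀, hb₀⟩
      · exact ⟨1, fun b hb => absurd hb (by rw [he]; exact Finset.notMem_empty b)⟩
      · exact ⟨u b₀ ^ (p - 1), fun b hb => pow_eq_of_ulog_eq (p := p) (by omega) (hu b hb) (hu b₀ hb₀)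
          ((hlog b hb).trans (hlog b₀ hb₀).symm)⟩
    obtain ⟨tt, htt⟩ : ∃ tt : Finset (ZMod (p ^ 2) × ℤ_[p]),
      tt = (Finset.univ : Finset (ZMod (p ^ 2))) ×ˢ Polynomial.nthRootsFinset (p - 1) r :=
      ⟨_, rfl⟩
    have hp1 : 0 < p - 1 := by omega
    have htc : tt.card ≤ p ^ 3 := by
      rw [htt, Finset.card_product, Finset.card_univ, ZMod.card]
      have h1 : (Polynomial.nthRootsFinset (p - 1) r).card ≤ p - 1 := by
        rw [Polynomial.nthRootsFinset]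
        exact (Multiset.toFinset_card_le _).trans (Polynomial.card_nthRoots _ _)
      calc p ^ 2 * (Polynomial.nthRootsFinset (p - 1) r).card ≤ p ^ 2 * p :=
            Nat.mul_le_mul_left _ (h1.trans (Nat.sub_le p 1))
        _ = p ^ 3 := by ring
    have hfib : ∀ β ∈ tt, (X.filter fun b : ℤ => (((b : ℤ) : ZMod (p ^ 2)), u b) = β).card
        ≤ C * (T ^ 5 * l ^ 5) := by
      intro β _
      obtain ⟨Y₀, hY₀⟩ : ∃ Y₀ : Finset ℤ,
        Y₀ = X.filter fun b : ℤ => (((b : ℤ) : ZMod (p ^ 2)), u b) = β := ⟨_, rfl⟩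
      rw [← hY₀]
      rcases Finset.eq_empty_or_nonempty Y₀ with he | ⟨bs, hbs⟩
      · rw [he, Finset.card_empty]
        exact Nat.zero_le _
      have hm : ∀ b ∈ Y₀, b ∈ X ∧ (p : ℤ) ^ 2 ∣ b - bs ∧ u b = u bs := by
        intro b hb
        rw [hY₀, Finset.mem_filter] at hb hbs
        have h1 := hb.2.trans hbs.2.symm
        rw [Prod.mk.injEq] at h1
        refine ⟨hb.1, ?_, h1.2⟩
        have h2 : ((p ^ 2 : ℕ) : ℤ) ∣ b - bs :=
          (ZMod.intCast_eq_intCast_iff_dvd_sub bs b (p ^ 2)).1 h1.1.symm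
        rwa [Nat.cast_pow] at h2
      have hbsX := (hm bs hbs).1
      have hub : IsUnit (u bs) := hu bs hbsX
      obtain ⟨c0, W0, V0, Om0, S0, Z0, h0⟩ := hSD bs hbsX
      have hGO : GoodOrdinary p a bs := (hX bs hbsX).2.1
      obtain ⟨L, tay, rs, c, k, g, h2, h3, W, V, Om, S, Z, N, R, hL⟩ :=
        exists_SgL hp5 hGO.1 h0 hub
      have hOrd := hord a bs (u bs) L tay rs c k g h2 h3 W V Om S Z N R hGO hL
      have hADE := hL.ade hp5
      have hP : ∀ b ∈ Y₀, ∃ P : BP L l T, P.v = ![b, D b, A b] := by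
        intro b hb
        obtain ⟨hbX, hbd, hbu⟩ := hm b hb
        have h4 := hd b hbX
        rw [hbu] at h4
        exact exists_BP hL hbd (hX b hbX).1 (hD b hbX) (hA b hbX) (ht b hbX) h4
      have hne : Nonempty (BP L l T) := (hP bs hbs).nonempty
      choose! P hPv using hP
      have hP0 : ∀ b ∈ Y₀, (P b).v 0 = b := by
        intro b hb
        rw [hPv b hb]
        rfl
      have hcard : (Y₀.image P).card = Y₀.card := by
        apply Finset.card_image_of_injOn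
        intro b hb b' hb' h
        rw [← hP0 b hb, ← hP0 b' hb']
        exact congrArg (fun Q : BP L l T => Q.v 0) h
      rw [← hcard]
      refine hC L a ha hOrd hADE l T hl hT hTl haT (Y₀.image P) ?_ ?_
      · intro Q hQ Q' hQ' h
        obtain ⟨b, hb, rfl⟩ := Finset.mem_image.1 hQ
        obtain ⟨b', hb', rfl⟩ := Finset.mem_image.1 hQ'
        rw [hP0 b hb, hP0 b' hb'] at h
        rw [h]
      · intro Q hQ
        obtain ⟨b, hb, rfl⟩ := Finset.mem_image.1 hQ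
        rw [hPv b hb]
        exact hgood b (hm b hb).1
    have hmaps : ∀ b ∈ X, (((b : ℤ) : ZMod (p ^ 2)), u b) ∈ tt := by
      intro b hb
      rw [htt, Finset.mem_product]
      exact ⟨Finset.mem_univ _, (Polynomial.mem_nthRootsFinset hp1 r).2 (hr b hb)⟩
    have h1 := Finset.card_le_mul_card_image_of_maps_to hmaps (C * (T ^ 5 * l ^ 5)) hfib
    calc X.card ≤ C * (T ^ 5 * l ^ 5) * tt.card := h1
      _ ≤ C * (T ^ 5 * l ^ 5) * p ^ 3 := Nat.mul_le_mul_left _ htc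
      _ = C * p ^ 3 * (T ^ 5 * l ^ 5) := by ring
      _ ≤ (3 + C * p ^ 3) * (T ^ 5 * l ^ 5) := Nat.mul_le_mul_right _ (Nat.le_add_left _ _)
  · -- `b` is small
    rw [not_le] at hTl
    have h1 : X ⊆ Finset.Icc (-(2 ^ l : ℤ)) (2 ^ l) := by
      intro b hb
      rw [Finset.mem_Icc]
      exact abs_le.1 (hX b hb).1
    have h2 := Finset.card_le_card h1
    rw [Int.card_Icc] at h2
    have h3 : (2 ^ l + 1 - -(2 ^ l : ℤ)).toNat = 2 * 2 ^ l + 1 := by
      have h4 : (2 ^ l + 1 - -(2 ^ l : ℤ)) = ((2 * 2 ^ l + 1 : ℕ) : ℤ) := by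
        push_cast
        ring
      rw [h4, Int.toNat_natCast]
    rw [h3] at h2
    have h4 : T ≤ T ^ 5 * l ^ 5 := by
      calc T = T * 1 := (mul_one T).symm
        _ ≤ T ^ 5 * l ^ 5 := Nat.mul_le_mul (Nat.le_self_pow (by norm_num) T) (Nat.one_le_pow 5 l hl)
    calc X.card ≤ 2 * 2 ^ l + 1 := h2
      _ ≤ 3 * T := by omega
      _ ≤ 3 * (T ^ 5 * l ^ 5) := Nat.mul_le_mul_left _ h4
      _ ≤ (3 + C * p ^ 3) * (T ^ 5 * l ^ 5) := Nat.mul_le_mul_right _ (Nat.le_add_right _ _)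

end Pool.Agent.Lib.MP_3550b5_nt.AC
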