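import Mathlib
import Pool.Agent.Lib.MP_3550b5_nt.AC.ApJ
import Pool.Agent.Lib.MP_3550b5_nt.AC.Av

/-!
PROJECT AC, block ALL POINTS: from arbitrary points of infinite order to the points which are nonsingular modulo every prime.
-/

namespace Pool.Agent.Lib.MP_3550b5_nt.AC

open WeierstrassCurve.Affine

/-- Powers of the exponent. -/
private lemma ap_pow_le {ε : ℝ} (hε : 0 < ε) : ∃ C : ℝ, 0 < C ∧ ∀ l : ℕ,
    (l : ℝ) ^ 10 ≤ C * ((2 : ℝ) ^ l) ^ (ε / 2) := by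
  have hlog : 0 < Real.log 2 := Real.log_pos one_lt_two
  set c : ℝ := ε / 2 * Real.log 2 with hc
  have hc0 : 0 < c := mul_pos (half_pos hε) hlog
  refine ⟨(Nat.factorial 10 : ℝ) / c ^ 10, by positivity, fun l => ?_⟩
  have h1 := Real.pow_div_factorial_le_exp (c * l) (by positivity) 10
  have h2 : ((2 : ℝ) ^ l) ^ (ε / 2) = Real.exp (c * l) := by
    rw [Real.rpow_def_of_pos (by positivity), Real.log_pow]
    congr 1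
    rw [hc]
    ring
  have hf : (0 : ℝ) < (Nat.factorial 10 : ℝ) := by exact_mod_cast Nat.factorial_pos 10
  rw [h2, div_mul_eq_mul_div, le_div_iff₀ (pow_pos hc0 10)]
  rw [div_le_iff₀ hf, mul_pow] at h1
  calc (l : ℝ) ^ 10 * c ^ 10 = c ^ 10 * (l : ℝ) ^ 10 := mul_comm _ _
    _ ≤ Real.exp (c * l) * (Nat.factorial 10 : ℝ) := h1
    _ = (Nat.factorial 10 : ℝ) * Real.exp (c * l) := mul_comm _ _

/-- The size of the multiplier. -/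
private lemma ap_mu_le {ε : ℝ} (hε : 0 < ε) {k₁ : ℕ} (hk : 96 / ε ≤ k₁) {C₁ μ l : ℕ} (hμ : 1 ≤ μ)
    (h : μ ^ k₁ ≤ C₁ * 2 ^ (3 * l + 5)) :
    (μ : ℝ) ^ 16 ≤ (32 * (C₁ : ℝ)) ^ (ε / 6) * ((2 : ℝ) ^ l) ^ (ε / 2) := by
  have hμ' : (1 : ℝ) ≤ μ := by exact_mod_cast hμ
  have h1 : (16 : ℝ) ≤ k₁ * (ε / 6) := by
    rw [div_le_iff₀ hε] at hk
    linarith
  have h2 : ((μ : ℝ) ^ k₁) ≤ 32 * (C₁ : ℝ) * ((2 : ℝ) ^ l) ^ 3 := by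
    have h3 : ((μ ^ k₁ : ℕ) : ℝ) ≤ ((C₁ * 2 ^ (3 * l + 5) : ℕ) : ℝ) := by exact_mod_cast h
    push_cast at h3
    refine h3.trans (le_of_eq ?_)
    rw [pow_add, mul_comm 3 l, pow_mul]
    ring
  calc (μ : ℝ) ^ 16 = (μ : ℝ) ^ (16 : ℝ) := by
        rw [← Real.rpow_natCast]
        norm_num
    _ ≤ (μ : ℝ) ^ ((k₁ : ℝ) * (ε / 6)) := Real.rpow_le_rpow_of_exponent_le hμ' h1
    _ = ((μ : ℝ) ^ k₁) ^ (ε / 6) := by
        rw [Real.rpow_mul (by positivity), Real.rpow_natCast]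
    _ ≤ (32 * (C₁ : ℝ) * ((2 : ℝ) ^ l) ^ 3) ^ (ε / 6) :=
        Real.rpow_le_rpow (by positivity) h2 (by positivity)
    _ = (32 * (C₁ : ℝ)) ^ (ε / 6) * ((2 : ℝ) ^ l) ^ (ε / 2) := by
        rw [Real.mul_rpow (by positivity) (by positivity), ← Real.rpow_natCast (((2 : ℝ) ^ l)) 3,
          ← Real.rpow_mul (by positivity)]
        congr 2
        push_cast
        ring

/-- ALL POINTS. PROOF. `k₁ ≥ 100 / ε`, `C₁` of `exc_of_exA`, `C` of `main_countV`; `l` with `B < 2^l ≤ 2 B`; `|Δ| ≤ 2^(3 l + 5)`, so `M ≤ μ = ⌊(C₁ 2^(3 l + 5))^(1 / k₁)⌋` for all `b ∈ X`; `T' = 2 μ^3 (T + 2 l + 4)`,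
`|a| ≤ 2^l ≤ 2^T'`. For every `M ≤ μ` the `b ∈ X` with this `M` are at most `C T'^5 l^5` (`main_countV` for the value `M^2 v`), in all `μ C T'^5 l^5`; `μ^16 ≤ (C₁ 2^(3 l + 5))^(16 / k₁) ≤ C 2^(l ε / 2)`,
`(T + 2 l + 4)^5 ≤ (7 T l)^5`, `l^10 ≤ C 2^(l ε / 2)`. -/
theorem main_all (p : ℕ) [Fact p.Prime] (hp5 : 5 ≤ p) (ε : ℝ) (hε : 0 < ε) : ∃ C : ℝ, ∀ a : ℤ, a ≠ 0 → ∀ v : ℚ_[p], ∀ B T : ℕ, 1 ≤ B → 1 ≤ T →
    |a| ≤ B → ∀ X : Finset ℤ, (∀ b ∈ X, |b| ≤ B ∧ ExA p a T v b) → (X.card : ℝ) ≤ C * (T : ℝ) ^ 5 * (B : ℝ) ^ ε := by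
  obtain ⟨k₁, hk₁⟩ := exists_nat_ge (96 / ε)
  obtain ⟨C₁, -, h₁⟩ := exc_of_exA hp5 k₁
  obtain ⟨C₂, h₂⟩ := main_countV p hp5
  obtain ⟨C₃, hC₃, h₃⟩ := ap_pow_le hε
  set K : ℝ := C₂ * 32 * 7 ^ 5 * (32 * (C₁ : ℝ)) ^ (ε / 6) * C₃ * 2 ^ ε with hK
  have hK0 : 0 ≤ K := by positivity
  refine ⟨K, fun a ha v B T hB hT haB X hX => ?_⟩
  have hB' : (1 : ℝ) ≤ B := by exact_mod_cast hB
  have hTr : (1 : ℝ) ≤ T := by exact_mod_cast hT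
  rcases X.eq_empty_or_nonempty with hX0 | hne
  · rw [hX0, Finset.card_empty, Nat.cast_zero]
    positivity
  -- the exponent
  set l := Nat.log 2 B + 1 with hl
  have hl1 : 1 ≤ l := Nat.le_add_left 1 _
  have hBl : B < 2 ^ l := Nat.lt_pow_succ_log_self one_lt_two B
  have hlB : 2 ^ l ≤ 2 * B := by
    rw [hl, pow_succ, mul_comm]
    exact Nat.mul_le_mul_left 2 (Nat.pow_log_le_self 2 (by omega))
  have hBlz : (B : ℤ) ≤ 2 ^ l := by exact_mod_cast hBl.le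
  have hal : |a| ≤ 2 ^ l := haB.trans hBlz
  -- the multipliers
  have hM : ∀ b : ℤ, ∃ M : ℕ, b ∈ X → 1 ≤ M ∧ M ^ k₁ ≤ C₁ * 2 ^ (3 * l + 5) ∧
      ∀ T' : ℕ, 2 * M ^ 3 * (T + 2 * l + 4) ≤ T' → ExcV p a T' ((M : ℚ_[p]) ^ 2 * v) b := by
    intro b
    by_cases hb : b ∈ X
    · have hbl : |b| ≤ 2 ^ l := (hX b hb).1.trans hBlz
      obtain ⟨M, hM1, hM2, hM3⟩ := h₁ a b l T v hal hbl (hX b hb).2
      refine ⟨M, fun _ => ⟨hM1, hM2.trans (Nat.mul_le_mul_left _ ?_), hM3⟩⟩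
      have hΔ : |4 * a ^ 3 + 27 * b ^ 2| ≤ (2 : ℤ) ^ (3 * l + 5) := by
        have e1 : |4 * a ^ 3 + 27 * b ^ 2| ≤ 4 * |a| ^ 3 + 27 * |b| ^ 2 := by
          refine (abs_add_le _ _).trans (le_of_eq ?_)
          rw [abs_mul, abs_mul, abs_pow, abs_pow]
          norm_num
        have e2 : |a| ^ 3 ≤ ((2 : ℤ) ^ l) ^ 3 := pow_le_pow_left₀ (abs_nonneg _) hal 3
        have e3 : |b| ^ 2 ≤ ((2 : ℤ) ^ l) ^ 2 := pow_le_pow_left₀ (abs_nonneg _) hbl 2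
        have e4 : ((2 : ℤ) ^ l) ^ 2 ≤ ((2 : ℤ) ^ l) ^ 3 :=
          pow_le_pow_right₀ (one_le_pow₀ (by norm_num)) (by norm_num)
        have e5 : (2 : ℤ) ^ (3 * l + 5) = 32 * ((2 : ℤ) ^ l) ^ 3 := by
          rw [pow_add, mul_comm 3 l, pow_mul]
          ring
        have e6 : (0 : ℤ) ≤ ((2 : ℤ) ^ l) ^ 3 := by positivity
        rw [e5]
        linarith
      have h4 : ((4 * a ^ 3 + 27 * b ^ 2).natAbs : ℤ) ≤ ((2 ^ (3 * l + 5) : ℕ) : ℤ) := by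
        rw [Int.natCast_natAbs]
        push_cast
        exact hΔ
      exact_mod_cast h4
    · exact ⟨0, fun h => absurd h hb⟩
  choose M hM using hM
  obtain ⟨b₀, hb₀, hmax⟩ := Finset.exists_max_image X M hne
  obtain ⟨hμ1, hμ2, -⟩ := hM b₀ hb₀
  set μ := M b₀ with hμ
  set T' := 2 * μ ^ 3 * (T + 2 * l + 4) with hT'
  have hμ3 : 1 ≤ μ ^ 3 := Nat.one_le_pow _ _ hμ1
  have hT'1 : T + 2 * l + 4 ≤ T' := by
    rw [hT']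
    exact Nat.le_mul_of_pos_left _ (by omega)
  have haT : |a| ≤ 2 ^ T' := hal.trans (pow_le_pow_right₀ (by norm_num) (by omega))
  have hfib : ∀ m : ℕ, (X.filter fun b => M b = m).card ≤ C₂ * (T' ^ 5 * l ^ 5) := by
    intro m
    refine h₂ a ha ((m : ℚ_[p]) ^ 2 * v) l T' hl1 (by omega) haT _ fun b hb => ?_
    obtain ⟨hbX, hbm⟩ := Finset.mem_filter.1 hb
    rw [← hbm]
    refine ⟨(hX b hbX).1.trans hBlz, (hM b hbX).2.2 T' ?_⟩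
    rw [hT']
    exact Nat.mul_le_mul_right _ (Nat.mul_le_mul_left _ (Nat.pow_le_pow_left (hmax b hbX) 3))
  have hcount : X.card ≤ μ * (C₂ * (T' ^ 5 * l ^ 5)) := by
    have h4 : ∀ b ∈ X, M b ∈ Finset.Icc 1 μ := fun b hb =>
      Finset.mem_Icc.2 ⟨(hM b hb).1, hmax b hb⟩
    rw [Finset.card_eq_sum_card_fiberwise h4]
    refine (Finset.sum_le_card_nsmul _ _ (C₂ * (T' ^ 5 * l ^ 5)) fun m _ => hfib m).trans ?_
    rw [Nat.card_Icc, smul_eq_mul, Nat.add_sub_cancel]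
  have hcount' : (X.card : ℝ) ≤ μ * (C₂ * ((T' : ℝ) ^ 5 * (l : ℝ) ^ 5)) := by exact_mod_cast hcount
  have hl' : (1 : ℝ) ≤ l := by exact_mod_cast hl1
  have h7 : (T : ℝ) + 2 * l + 4 ≤ 7 * (T * l) := by
    have i1 : (T : ℝ) ≤ T * l := le_mul_of_one_le_right (by positivity) hl'
    have i2 : (l : ℝ) ≤ T * l := le_mul_of_one_le_left (by positivity) hTr
    have i3 : (1 : ℝ) ≤ T * l := hTr.trans i1
    linarith
  have hTT : (T' : ℝ) ≤ 2 * (μ : ℝ) ^ 3 * (7 * (T * l)) := by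
    rw [hT']
    push_cast
    exact mul_le_mul_of_nonneg_left h7 (by positivity)
  have hmu := ap_mu_le hε hk₁ hμ1 hμ2
  have hY : ((2 : ℝ) ^ l) ^ (ε / 2) * ((2 : ℝ) ^ l) ^ (ε / 2) ≤ 2 ^ ε * (B : ℝ) ^ ε := by
    rw [← Real.rpow_add (by positivity), add_halves, ← Real.mul_rpow (by norm_num) (by positivity)]
    refine Real.rpow_le_rpow (by positivity) ?_ hε.le
    exact_mod_cast hlB
  have hl10 := h₃ l
  calc (X.card : ℝ) ≤ μ * (C₂ * ((T' : ℝ) ^ 5 * (l : ℝ) ^ 5)) := hcount'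
    _ ≤ μ * (C₂ * ((2 * (μ : ℝ) ^ 3 * (7 * (T * l))) ^ 5 * (l : ℝ) ^ 5)) := by gcongr
    _ = C₂ * 32 * 7 ^ 5 * (T : ℝ) ^ 5 * ((μ : ℝ) ^ 16 * (l : ℝ) ^ 10) := by ring
    _ ≤ C₂ * 32 * 7 ^ 5 * (T : ℝ) ^ 5 * (((32 * (C₁ : ℝ)) ^ (ε / 6) * ((2 : ℝ) ^ l) ^ (ε / 2)) *
          (C₃ * ((2 : ℝ) ^ l) ^ (ε / 2))) := by gcongr
    _ = C₂ * 32 * 7 ^ 5 * (32 * (C₁ : ℝ)) ^ (ε / 6) * C₃ * (T : ℝ) ^ 5 *
          (((2 : ℝ) ^ l) ^ (ε / 2) * ((2 : ℝ) ^ l) ^ (ε / 2)) := by ring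
    _ ≤ C₂ * 32 * 7 ^ 5 * (32 * (C₁ : ℝ)) ^ (ε / 6) * C₃ * (T : ℝ) ^ 5 *
          (2 ^ ε * (B : ℝ) ^ ε) := by gcongr
    _ = K * (T : ℝ) ^ 5 * (B : ℝ) ^ ε := by
        rw [hK]
        ring

end Pool.Agent.Lib.MP_3550b5_nt.AC
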