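import Mathlib
import Pool.Agent.Lib.MP_3550b5_nt.AC.ClC

/-!
PROJECT AC, block CONSTANTS: the counts of the block NEAR with constants explicit in `p`.
-/

namespace Pool.Agent.Lib.MP_3550b5_nt.AC

open SV MvPolynomial

/-- A UNIFORM PRECISION, as `prec`. PROOF. `c` from `Bd_jev` for `g`; `κ = k₀ T^3 l^2`, `ω = k₀ T^2 l^3`, `σ = (3 k₀ + p) T^3 l^3` (`Bd_em`; `p ≤ 2^p`, `|a| ≤ 2^T`),
`abs_eval_le_nn`: the value is less than `2^(C T^3 l^3)`, `C = c (7 k₀ + p) + 1`, and divisible by `p^(C T^3 l^3)` (`Int.eq_zero_of_abs_lt_dvd`). -/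
theorem precU (g : J) : ∃ c : ℕ, 1 ≤ c ∧ ∀ (p : ℕ) [Fact p.Prime] (k₀ : ℕ), 1 ≤ k₀ → ∀ (l T : ℕ) (a : ℤ), 1 ≤ l → 1 ≤ T → |a| ≤ 2 ^ T →
    ∀ P₀ P₁ : Polynomial (Polynomial ℤ), PsB k₀ l T P₀ → PsB k₀ l T P₁ → ∀ u : Fin 3 → ℤ, |u 0| ≤ 2 ^ l → |u 1| ≤ 2 ^ T → |u 2| ≤ 4 ^ T →
      ∀ N : ℕ, (c * (7 * k₀ + p) + 1) * (T ^ 3 * l ^ 3) ≤ N → (p : ℤ) ^ N ∣ eval u (jev (dL p (em 1 P₀) (em 2 P₁)) (vQ a) g) →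
        eval u (jev (dL p (em 1 P₀) (em 2 P₁)) (vQ a) g) = 0 := by
  obtain ⟨c, hc, hcb⟩ := Bd_jev g
  refine ⟨c, hc, ?_⟩
  intro p _ k₀ hk l T a hl hT ha P₀ P₁ h₀ h₁ u hu0 hu1 hu2 N hN hdvd
  have hp2 : 2 ≤ p := (Fact.out : p.Prime).two_le
  have hM : 1 ≤ T ^ 3 * l ^ 3 := Nat.mul_pos (pow_pos hT 3) (pow_pos hl 3)
  obtain ⟨M, hMe⟩ : ∃ M : ℕ, M = T ^ 3 * l ^ 3 := ⟨_, rfl⟩
  have hTM : T ≤ M := by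
    rw [hMe]
    calc T = T ^ 1 * 1 := by rw [pow_one, mul_one]
      _ ≤ T ^ 3 * l ^ 3 := Nat.mul_le_mul (Nat.pow_le_pow_right hT (by omega))
          (Nat.one_le_pow _ _ hl)
  have hκM : k₀ * (T ^ 3 * l ^ 2) ≤ k₀ * M := by
    rw [hMe]
    exact Nat.mul_le_mul_left _ (Nat.mul_le_mul_left _ (Nat.pow_le_pow_right hl (by omega)))
  have hωM : k₀ * (T ^ 2 * l ^ 3) ≤ k₀ * M := by
    rw [hMe]
    exact Nat.mul_le_mul_left _ (Nat.mul_le_mul_right _ (Nat.pow_le_pow_right hT (by omega)))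
  have hκ1 : 1 ≤ k₀ * (T ^ 3 * l ^ 2) := Nat.mul_pos hk (Nat.mul_pos (pow_pos hT 3) (pow_pos hl 2))
  have hω1 : 1 ≤ k₀ * (T ^ 2 * l ^ 3) := Nat.mul_pos hk (Nat.mul_pos (pow_pos hT 2) (pow_pos hl 3))
  rw [← hMe] at hM hN
  obtain ⟨σ, hσ⟩ : ∃ σ : ℕ, σ = (3 * k₀ + p) * M := ⟨_, rfl⟩
  have hσe : σ = 3 * (k₀ * M) + p * M := by rw [hσ]; ring
  have hkM : M ≤ k₀ * M := Nat.le_mul_of_pos_left _ hk
  have hpM : p ≤ p * M := Nat.le_mul_of_pos_right _ hM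
  have hσ1 : 1 ≤ σ := by omega
  have hpow : ∀ n : ℕ, n ≤ σ → n ≤ 2 ^ σ := fun n hn =>
    hn.trans Nat.lt_two_pow_self.le
  have hB0 : Bd (k₀ * (T ^ 3 * l ^ 2)) (k₀ * (T ^ 2 * l ^ 3)) σ 1 (em 1 P₀) :=
    Bd_em (by decide) h₀.deg h₀.degc h₀.co (by rw [← hMe]; omega)
  have hB1 : Bd (k₀ * (T ^ 3 * l ^ 2)) (k₀ * (T ^ 2 * l ^ 3)) σ 1 (em 2 P₁) :=
    Bd_em (by decide) h₁.deg h₁.degc h₁.co (by rw [← hMe]; omega)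
  have hpz : |(p : ℤ)| ≤ 2 ^ σ := by
    rw [abs_of_nonneg (Int.natCast_nonneg p)]
    exact_mod_cast hpow p (by omega)
  have haz : |a| ≤ 2 ^ σ := ha.trans (pow_le_pow_right₀ (by norm_num) (by omega))
  have hB := hcb _ _ σ (p : ℤ) a (em 1 P₀) (em 2 P₁) hκ1 hω1 hσ1 (hpow _ (by omega))
    (hpow _ (by omega)) hpz haz hB0 hB1
  obtain ⟨F, hF⟩ : ∃ F : Q3, F = jev (dL p (em 1 P₀) (em 2 P₁)) (vQ a) g := ⟨_, rfl⟩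
  rw [← hF] at hB hdvd ⊢
  have h1 := abs_eval_le_nn (v := u) hu0 hu1 hu2 hB.d0 hB.d1 hB.d2
  have h2 : (nn F : ℤ) ≤ 2 ^ (c * σ) := by exact_mod_cast hB.n
  have h3 : |eval u F| ≤ 2 ^ (c * (7 * k₀ + p) * M) := by
    refine h1.trans ((mul_le_mul_of_nonneg_right h2 (by positivity)).trans (le_of_eq ?_))
    rw [← pow_add]
    congr 1
    rw [hσ, hMe]
    ring
  refine Int.eq_zero_of_abs_lt_dvd hdvd (lt_of_le_of_lt h3 ?_)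
  have h4 : (2 : ℤ) ^ (c * (7 * k₀ + p) * M) < 2 ^ N := by
    refine pow_lt_pow_right₀ (by norm_num) (lt_of_lt_of_le ?_ hN)
    have h5 : (c * (7 * k₀ + p) + 1) * M = c * (7 * k₀ + p) * M + M := by ring
    rw [h5]
    omega
  refine h4.trans_le (pow_le_pow_left₀ (by norm_num) ?_ N)
  exact_mod_cast hp2

/-- Degrees of the universal polynomials. PROOF. `Bd_jev` as in `prec`. -/
theorem jev_degU (g : J) : ∃ c : ℕ, 1 ≤ c ∧ ∀ (p : ℕ) [Fact p.Prime] (k₀ : ℕ), 1 ≤ k₀ → ∀ (l T : ℕ) (a : ℤ), 1 ≤ l → 1 ≤ T → |a| ≤ 2 ^ T →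
    ∀ P₀ P₁ : Polynomial (Polynomial ℤ), PsB k₀ l T P₀ → PsB k₀ l T P₁ →
      (jev (dL p (em 1 P₀) (em 2 P₁)) (vQ a) g).degreeOf 0 ≤ c * k₀ * (T ^ 3 * l ^ 2) ∧
      (jev (dL p (em 1 P₀) (em 2 P₁)) (vQ a) g).degreeOf 1 ≤ c * k₀ * (T ^ 2 * l ^ 3) ∧
      (jev (dL p (em 1 P₀) (em 2 P₁)) (vQ a) g).degreeOf 2 ≤ c * k₀ * (T ^ 2 * l ^ 3) := by
  obtain ⟨c, hc, h⟩ := Bd_jev g
  refine ⟨c, hc, ?_⟩
  intro p _ k₀ hk l T a hl hT ha P₀ P₁ hP₀ hP₁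
  have e1 : T ^ 3 * l ^ 2 ≤ T ^ 3 * l ^ 3 :=
    Nat.mul_le_mul_left _ (Nat.pow_le_pow_right hl (by norm_num))
  have e2 : T ^ 2 * l ^ 3 ≤ T ^ 3 * l ^ 3 :=
    Nat.mul_le_mul_right _ (Nat.pow_le_pow_right hT (by norm_num))
  have e3 : 1 ≤ T ^ 3 * l ^ 2 := Nat.mul_pos (Nat.pow_pos hT) (Nat.pow_pos hl)
  have e4 : 1 ≤ T ^ 2 * l ^ 3 := Nat.mul_pos (Nat.pow_pos hT) (Nat.pow_pos hl)
  have e5 : 1 ≤ T ^ 3 * l ^ 3 := Nat.mul_pos (Nat.pow_pos hT) (Nat.pow_pos hl)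
  have e6 : T ≤ T ^ 3 * l ^ 3 := by
    calc T = T ^ 1 * 1 := by ring
      _ ≤ T ^ 3 * l ^ 3 := Nat.mul_le_mul (Nat.pow_le_pow_right hT (by norm_num)) (Nat.pow_pos hl)
  have k1 : k₀ * (T ^ 3 * l ^ 2) ≤ k₀ * (T ^ 3 * l ^ 3) := Nat.mul_le_mul_left _ e1
  have k2 : k₀ * (T ^ 2 * l ^ 3) ≤ k₀ * (T ^ 3 * l ^ 3) := Nat.mul_le_mul_left _ e2
  have k3 : T ^ 3 * l ^ 3 ≤ k₀ * (T ^ 3 * l ^ 3) := Nat.le_mul_of_pos_left _ hk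
  have k4 : p ≤ p * (T ^ 3 * l ^ 3) := Nat.le_mul_of_pos_right _ e5
  have hs : (3 * k₀ + p) * (T ^ 3 * l ^ 3) =
      3 * (k₀ * (T ^ 3 * l ^ 3)) + p * (T ^ 3 * l ^ 3) := by ring
  have hlt : ∀ n : ℕ, n ≤ 2 ^ n := fun n => Nat.lt_two_pow_self.le
  have hmon : ∀ {m n : ℕ}, m ≤ n → 2 ^ m ≤ 2 ^ n := fun hmn => Nat.pow_le_pow_right (by norm_num) hmn
  have hb : ∀ (j : Fin 3), j ≠ 0 → ∀ Q : Polynomial (Polynomial ℤ), PsB k₀ l T Q →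
      Bd (k₀ * (T ^ 3 * l ^ 2)) (k₀ * (T ^ 2 * l ^ 3)) ((3 * k₀ + p) * (T ^ 3 * l ^ 3)) 1
        (em j Q) := fun j hj Q hQ => Bd_em hj hQ.deg hQ.degc hQ.co (by omega)
  have hp' : |((p : ℕ) : ℤ)| ≤ 2 ^ ((3 * k₀ + p) * (T ^ 3 * l ^ 3)) := by
    rw [Nat.abs_cast]
    have h1 : p ≤ 2 ^ ((3 * k₀ + p) * (T ^ 3 * l ^ 3)) := (hlt p).trans (hmon (by omega))
    exact_mod_cast h1
  have ha' : |a| ≤ 2 ^ ((3 * k₀ + p) * (T ^ 3 * l ^ 3)) :=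
    ha.trans (pow_le_pow_right₀ (by norm_num) (by omega))
  have hB := h (k₀ * (T ^ 3 * l ^ 2)) (k₀ * (T ^ 2 * l ^ 3)) ((3 * k₀ + p) * (T ^ 3 * l ^ 3)) p a
    (em 1 P₀) (em 2 P₁) (Nat.mul_pos hk e3) (Nat.mul_pos hk e4) (by omega)
    ((hlt _).trans (hmon (by omega))) ((hlt _).trans (hmon (by omega))) hp' ha'
    (hb 1 (by decide) P₀ hP₀) (hb 2 (by decide) P₁ hP₁)
  refine ⟨?_, ?_, ?_⟩
  · rw [mul_assoc]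
    exact hB.d0
  · rw [mul_assoc]
    exact hB.d1
  · rw [mul_assoc]
    exact hB.d2

end Pool.Agent.Lib.MP_3550b5_nt.AC
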