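import Mathlib
import Pool.Agent.Lib.MP_3550b5_nt.AC.Lf

/-!
PROJECT AC, block NEAR: the points near the leaf (`D` and `A` are congruent modulo `p^N` to the values on the leaf).
-/

namespace Pool.Agent.Lib.MP_3550b5_nt.AC

open PowerSeries SV

variable {p : ℕ} [hp : Fact p.Prime]

/-- A point near the leaf, up to `p^N`, with integral coordinates of size `|b| ≤ 2^l`, `|D| ≤ 2^T`, `|A| ≤ 4^T`. -/
structure BN (L : Leaf p) (l T N : ℕ) where
  v : Fin 3 → ℤ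
  pt : Pt p
  eb : pt.ev L.bb = (v 0 : ℤ_[p])
  eD : (p : ℤ_[p]) ^ N ∣ pt.ev L.DD - (v 1 : ℤ_[p])
  eA : (p : ℤ_[p]) ^ N ∣ pt.ev L.AA - (v 2 : ℤ_[p])
  hb : |v 0| ≤ 2 ^ l
  hD : |v 1| ≤ 2 ^ T
  hA : |v 2| ≤ 4 ^ T

variable {L : Leaf p} {l T N : ℕ}

/-- The value at a point near the leaf. PROOF. The two ring homomorphisms to `ℤ_p / p^N`. -/
theorem BN.ev_rs (P : BN L l T N) (F : Q3) :
    (p : ℤ_[p]) ^ N ∣ P.pt.ev (L.rs F) - ((MvPolynomial.eval P.v F : ℤ) : ℤ_[p]) := by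
  obtain ⟨I, hI⟩ : ∃ I : Ideal ℤ_[p], I = Ideal.span {(p : ℤ_[p]) ^ N} := ⟨_, rfl⟩
  have hmk : ∀ x y : ℤ_[p], Ideal.Quotient.mk I x = Ideal.Quotient.mk I y ↔ (p : ℤ_[p]) ^ N ∣ x - y := by
    intro x y
    rw [Ideal.Quotient.eq, hI, Ideal.mem_span_singleton]
  have h : ((Ideal.Quotient.mk I).comp P.pt.ev).comp L.rs =
      ((Ideal.Quotient.mk I).comp (Int.castRingHom ℤ_[p])).comp (MvPolynomial.eval P.v) := by
    refine MvPolynomial.ringHom_ext (fun r => ?_) (fun i => ?_)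
    · rw [RingHom.comp_apply, RingHom.comp_apply, RingHom.comp_apply, RingHom.comp_apply, Leaf.rs,
        MvPolynomial.eval₂Hom_C, MvPolynomial.eval_C]
      exact congrArg _ (map_intCast P.pt.ev r)
    · rw [RingHom.comp_apply, RingHom.comp_apply, RingHom.comp_apply, RingHom.comp_apply, Leaf.rs,
        MvPolynomial.eval₂Hom_X', MvPolynomial.eval_X]
      fin_cases i
      · exact congrArg _ P.eb
      · exact (hmk _ _).2 P.eD
      · exact (hmk _ _).2 P.eA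
  exact (hmk _ _).1 (DFunLike.congr_fun h F)

/-- The value at a point near the leaf. -/
theorem BN.dvd_iff (P : BN L l T N) (F : Q3) {k : ℕ} (hk : k ≤ N) :
    (p : ℤ_[p]) ^ k ∣ P.pt.ev (L.rs F) ↔ (p : ℤ_[p]) ^ k ∣ ((MvPolynomial.eval P.v F : ℤ) : ℤ_[p]) := by
  have h := (pow_dvd_pow (p : ℤ_[p]) hk).trans (P.ev_rs F)
  exact dvd_iff_dvd_of_dvd_sub h

/-- PROOF. `Pt.ev` of `L.bb` is `b₀ + p s`; `|b - b'| ≤ 2^(l+1) < p^(l+2)`, `b ≠ b'`. -/
theorem BN.sep (P Q : BN L l T N) (h : P.v 0 ≠ Q.v 0) :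
    ¬ (p : ℤ_[p]) ^ (l + 1) ∣ Q.pt.s - P.pt.s := by
  intro hd
  have hb : ∀ R : BN L l T N, (R.v 0 : ℤ_[p]) = L.b0 + p * R.pt.s := fun R => by
    rw [← R.eb, Leaf.bb, map_add, map_mul, Pt.ev_cc, Pt.ev_cc, Pt.ev_vs]
  have h1 : (p : ℤ_[p]) ^ (l + 2) ∣ ((Q.v 0 - P.v 0 : ℤ) : ℤ_[p]) := by
    have h2 : ((Q.v 0 - P.v 0 : ℤ) : ℤ_[p]) = p * (Q.pt.s - P.pt.s) := by
      rw [Int.cast_sub, hb, hb]
      ring
    rw [h2, pow_succ']
    exact mul_dvd_mul_left _ hd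
  have h3 : ((p ^ (l + 2) : ℕ) : ℤ) ∣ Q.v 0 - P.v 0 := by
    have h5 : ‖((Q.v 0 - P.v 0 : ℤ) : ℤ_[p])‖ ≤ (p : ℝ) ^ (-((l + 2 : ℕ) : ℤ)) := by
      rw [PadicInt.norm_le_pow_iff_mem_span_pow, Ideal.mem_span_singleton]
      exact h1
    have h6 := PadicInt.norm_int_le_pow_iff_dvd.1 h5
    rw [Nat.cast_pow]
    exact h6
  have h7 : |Q.v 0 - P.v 0| < ((p ^ (l + 2) : ℕ) : ℤ) := by
    have h8 : |Q.v 0 - P.v 0| ≤ 2 ^ l + 2 ^ l := by
      refine (abs_sub _ _).trans (add_le_add Q.hb P.hb)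
    have h9 : (2 : ℤ) ^ (l + 2) ≤ ((p ^ (l + 2) : ℕ) : ℤ) := by
      rw [Nat.cast_pow]
      refine pow_le_pow_left₀ (by norm_num) ?_ _
      exact_mod_cast hp.out.two_le
    have h10 : (0 : ℤ) < 2 ^ l := by positivity
    have h11 : (2 : ℤ) ^ (l + 2) = 2 ^ l * 4 := by
      rw [pow_add]
      norm_num
    linarith
  have h12 := Int.eq_zero_of_abs_lt_dvd h3 h7
  exact h (sub_eq_zero.1 h12).symm

/-- The size of the value of a polynomial. PROOF. `MvPolynomial.eval_eq'` and the triangle inequality. -/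
theorem BN.abs_eval_le (P : BN L l T N) {F : Q3} {K w la M : ℕ} (hF : ∀ m ∈ F.support, m 0 ≤ K ∧ m 1 ≤ w ∧ m 2 ≤ w)
    (hc : ∀ m, |F.coeff m| ≤ 2 ^ la) (hM : F.support.card ≤ M) :
    |MvPolynomial.eval P.v F| ≤ M * 2 ^ (la + l * K + 3 * T * w) := by
  have key : ∀ m ∈ F.support, |F.coeff m * ∏ i, P.v i ^ m i| ≤ 2 ^ (la + l * K + 3 * T * w) := by
    intro m hm
    obtain ⟨h0, h1, h2⟩ := hF m hm
    have e0 : |P.v 0 ^ m 0| ≤ 2 ^ (l * K) := by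
      rw [abs_pow, pow_mul]
      exact (pow_le_pow_left₀ (abs_nonneg _) P.hb _).trans
        (pow_le_pow_right₀ (one_le_pow₀ (by norm_num)) h0)
    have e1 : |P.v 1 ^ m 1| ≤ 2 ^ (T * w) := by
      rw [abs_pow, pow_mul]
      exact (pow_le_pow_left₀ (abs_nonneg _) P.hD _).trans
        (pow_le_pow_right₀ (one_le_pow₀ (by norm_num)) h1)
    have e2 : |P.v 2 ^ m 2| ≤ 4 ^ (T * w) := by
      rw [abs_pow, pow_mul]
      exact (pow_le_pow_left₀ (abs_nonneg _) P.hA _).trans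
        (pow_le_pow_right₀ (one_le_pow₀ (by norm_num)) h2)
    rw [Fin.prod_univ_three, abs_mul, abs_mul, abs_mul]
    calc |F.coeff m| * (|P.v 0 ^ m 0| * |P.v 1 ^ m 1| * |P.v 2 ^ m 2|)
        ≤ 2 ^ la * (2 ^ (l * K) * 2 ^ (T * w) * 4 ^ (T * w)) := by
          refine mul_le_mul (hc m) (mul_le_mul (mul_le_mul e0 e1 (abs_nonneg _) (by positivity)) e2
            (abs_nonneg _) (by positivity)) (by positivity) (by positivity)
      _ = 2 ^ (la + l * K + 3 * T * w) := by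
          have h4 : (4 : ℤ) ^ (T * w) = 2 ^ (2 * (T * w)) := by
            rw [pow_mul 2 2 (T * w)]
            norm_num
          rw [h4, ← pow_add, ← pow_add, ← pow_add]
          congr 1
          ring
  rw [MvPolynomial.eval_eq']
  calc |∑ m ∈ F.support, F.coeff m * ∏ i, P.v i ^ m i|
      ≤ ∑ m ∈ F.support, |F.coeff m * ∏ i, P.v i ^ m i| := Finset.abs_sum_le_sum_abs _ _
    _ ≤ ∑ _m ∈ F.support, (2 : ℤ) ^ (la + l * K + 3 * T * w) := Finset.sum_le_sum key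
    _ = F.support.card * 2 ^ (la + l * K + 3 * T * w) := by
        rw [Finset.sum_const, nsmul_eq_mul]
    _ ≤ M * 2 ^ (la + l * K + 3 * T * w) := by
        refine mul_le_mul_of_nonneg_right ?_ (by positivity)
        exact_mod_cast hM

end Pool.Agent.Lib.MP_3550b5_nt.AC
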