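import Mathlib
import Pool.Agent.Lib.MP_3550b5_nt.AC.NvA

/-!
PROJECT AC, block NEAR: the points near the leaf (`D` and `A` are congruent modulo `p^N` to the values on the leaf).
-/

namespace Pool.Agent.Lib.MP_3550b5_nt.AC

open PowerSeries SV

variable {p : ℕ} [hp : Fact p.Prime]

variable {L : Leaf p} {l T N : ℕ}

/-- the polynomial of a vector of coefficients -/
private noncomputable def lfPoly (MM : Finset (Fin 3 →₀ ℕ)) (c : MM → ℤ) : Q3 :=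
  ∑ j : MM, MvPolynomial.monomial (j : Fin 3 →₀ ℕ) (c j)

private theorem lf_coeff (MM : Finset (Fin 3 →₀ ℕ)) (c : MM → ℤ) (m : Fin 3 →₀ ℕ) :
    (lfPoly MM c).coeff m = ∑ j : MM, if (j : Fin 3 →₀ ℕ) = m then c j else 0 := by
  unfold lfPoly
  rw [MvPolynomial.coeff_sum]
  exact Finset.sum_congr rfl fun j _ => MvPolynomial.coeff_monomial m (j : Fin 3 →₀ ℕ) (c j)

private theorem lf_coeff_mem (MM : Finset (Fin 3 →₀ ℕ)) (c : MM → ℤ) (m : MM) :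
    (lfPoly MM c).coeff (m : Fin 3 →₀ ℕ) = c m := by
  rw [lf_coeff, Finset.sum_eq_single m]
  · exact if_pos rfl
  · intro j _ hj
    exact if_neg fun h => hj (Subtype.ext h)
  · intro h
    exact absurd (Finset.mem_univ m) h

private theorem lf_coeff_notMem (MM : Finset (Fin 3 →₀ ℕ)) (c : MM → ℤ) {m : Fin 3 →₀ ℕ}
    (hm : m ∉ MM) : (lfPoly MM c).coeff m = 0 := by
  rw [lf_coeff]
  refine Finset.sum_eq_zero fun j _ => if_neg ?_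
  rintro rfl
  exact hm j.2

private theorem lf_rs (L : Leaf p) (MM : Finset (Fin 3 →₀ ℕ)) (c : MM → ℤ) :
    L.rs (lfPoly MM c) = ∑ j : MM, ((c j : ℤ) : O p) *
      L.rs (MvPolynomial.monomial (j : Fin 3 →₀ ℕ) 1) := by
  unfold lfPoly
  rw [map_sum]
  refine Finset.sum_congr rfl fun j _ => ?_
  have h1 : MvPolynomial.monomial (j : Fin 3 →₀ ℕ) (c j) =
      (((c j : ℤ) : Q3)) * MvPolynomial.monomial (j : Fin 3 →₀ ℕ) 1 := by
    rw [← eq_intCast (MvPolynomial.C : ℤ →+* Q3) (c j), MvPolynomial.C_mul_monomial, mul_one]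
  rw [h1, map_mul, map_intCast]

private theorem lf_main (L : Leaf p) {K w la : ℕ} (MM : Finset (Fin 3 →₀ ℕ))
    (hM : ∀ m ∈ MM, m 0 ≤ K ∧ m 1 ≤ w ∧ m 2 ≤ w) (h2 : l * K + 3 * T * w ≤ la)
    (h3 : MM.card ≤ 2 ^ la) (c : MM → ℤ) (hc0 : c ≠ 0) (hc : ∀ j, |c j| ≤ 2 ^ la)
    (Z : Pt p → Prop) (hN : 3 * la + 1 ≤ N)
    (hZ : ∀ P : Pt p, Z P → (p : ℤ_[p]) ^ (3 * la + 1) ∣ P.ev (∑ j : MM, ((c j : ℤ) : O p) *
      L.rs (MvPolynomial.monomial (j : Fin 3 →₀ ℕ) 1))) :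
    ∃ Φ : Q3, Φ ≠ 0 ∧ Φ.support ⊆ MM ∧ (∀ m, |Φ.coeff m| ≤ 2 ^ la) ∧
      ∀ P : BN L l T N, Z P.pt → MvPolynomial.eval P.v Φ = 0 := by
  have hsup : (lfPoly MM c).support ⊆ MM := by
    intro m hm
    by_contra h
    exact (MvPolynomial.mem_support_iff.1 hm) (lf_coeff_notMem MM c h)
  have hco : ∀ m, |(lfPoly MM c).coeff m| ≤ 2 ^ la := by
    intro m
    by_cases h : m ∈ MM
    · rw [lf_coeff_mem MM c ⟨m, h⟩]
      exact hc _
    · rw [lf_coeff_notMem MM c h, abs_zero]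
      positivity
  refine ⟨lfPoly MM c, ?_, hsup, hco, fun P hP => ?_⟩
  · intro h0
    apply hc0
    funext j
    rw [← lf_coeff_mem MM c j, h0, MvPolynomial.coeff_zero]
    rfl
  · have h5 := hZ P.pt hP
    rw [← lf_rs, P.dvd_iff _ hN] at h5
    have h6 : ((p : ℤ) ^ (3 * la + 1)) ∣ MvPolynomial.eval P.v (lfPoly MM c) := by
      have h7 := (PadicInt.pow_p_dvd_int_iff (3 * la + 1)
        (MvPolynomial.eval P.v (lfPoly MM c))).1 h5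
      exact_mod_cast h7
    have h8 : |MvPolynomial.eval P.v (lfPoly MM c)| ≤
        ((MM.card : ℕ) : ℤ) * 2 ^ (la + l * K + 3 * T * w) :=
      P.abs_eval_le (fun m hm => hM m (hsup hm)) hco (Finset.card_le_card hsup)
    have h9 : ((MM.card : ℕ) : ℤ) * 2 ^ (la + l * K + 3 * T * w) ≤ 2 ^ (3 * la) := by
      have h10 : ((MM.card : ℕ) : ℤ) ≤ 2 ^ la := by exact_mod_cast h3
      calc ((MM.card : ℕ) : ℤ) * 2 ^ (la + l * K + 3 * T * w) ≤ 2 ^ la * 2 ^ (2 * la) :=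
            mul_le_mul h10 (pow_le_pow_right₀ (by norm_num) (by omega)) (by positivity)
              (by positivity)
        _ = 2 ^ (3 * la) := by rw [← pow_add]; congr 1; ring
    have hp2 : (2 : ℤ) ≤ p := by exact_mod_cast hp.out.two_le
    have h11 : (2 : ℤ) ^ (3 * la) < (p : ℤ) ^ (3 * la + 1) := by
      calc (2 : ℤ) ^ (3 * la) < 2 ^ (3 * la + 1) := pow_lt_pow_right₀ (by norm_num) (by omega)
        _ ≤ (p : ℤ) ^ (3 * la + 1) := pow_le_pow_left₀ (by norm_num) hp2 _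
    exact Int.eq_zero_of_abs_lt_dvd h6 ((h8.trans h9).trans_lt h11)

/-- SIEGEL ON THE LEAF, on a subvariety `f = 0` of order at most `e`. PROOF. `siegel_f` for the monomials `L.rs (monomial m 1)`,
`m ∈ MM`: `Φ = ∑ c_m monomial m`; at a point with `f = 0` the value is divisible by `p^(3λ+1)` (`Pt.dvd_ev`, the multiple of `f` vanishes)
and has absolute value at most `2^(3λ)` (`abs_eval_le`, `MM.card ≤ 2^λ`): so it is `0`. -/
theorem leaf_siegel_fN (L : Leaf p) {K w la e : ℕ} (MM : Finset (Fin 3 →₀ ℕ))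
    (hM : ∀ m ∈ MM, m 0 ≤ K ∧ m 1 ≤ w ∧ m 2 ≤ w) (h1 : 1 ≤ la) (h2 : l * K + 3 * T * w ≤ la)
    (h3 : MM.card ≤ 2 ^ la) {f : O p} (hf : f ∉ Fl p (e + 1)) (h4 : 10 * p * e * la < MM.card)
    (hN : 3 * la + 1 ≤ N) :
    ∃ Φ : Q3, Φ ≠ 0 ∧ Φ.support ⊆ MM ∧ (∀ m, |Φ.coeff m| ≤ 2 ^ la) ∧
      ∀ P : BN L l T N, (p : ℤ_[p]) ^ (3 * la + 1) ∣ P.pt.ev f → MvPolynomial.eval P.v Φ = 0 := by
  obtain ⟨c, hc0, hc, hI⟩ := siegel_f
    (fun j : MM => L.rs (MvPolynomial.monomial (j : Fin 3 →₀ ℕ) 1)) h1 hf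
    (by rwa [Fintype.card_coe])
  refine lf_main L MM hM h2 h3 c hc0 hc (fun P => (p : ℤ_[p]) ^ (3 * la + 1) ∣ P.ev f) hN ?_
  intro P hP
  obtain ⟨g, hg, r, hr, hgr⟩ := Submodule.mem_sup.1 hI
  obtain ⟨a, ha⟩ := Ideal.mem_span_singleton.1 hr
  rw [← hgr, map_add, ha, map_mul]
  exact dvd_add (P.dvd_ev hg) (Dvd.dvd.mul_right hP _)

/-- SIEGEL ON THE WHOLE LEAF (`siegel_all`). -/
theorem leaf_siegel_allN (L : Leaf p) {K w la : ℕ} (MM : Finset (Fin 3 →₀ ℕ))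
    (hM : ∀ m ∈ MM, m 0 ≤ K ∧ m 1 ≤ w ∧ m 2 ≤ w) (h1 : 1 ≤ la) (h2 : l * K + 3 * T * w ≤ la)
    (h3 : MM.card ≤ 2 ^ la) (h4 : 20 * p * la ^ 2 < MM.card)
    (hN : 3 * la + 1 ≤ N) :
    ∃ Φ : Q3, Φ ≠ 0 ∧ Φ.support ⊆ MM ∧ (∀ m, |Φ.coeff m| ≤ 2 ^ la) ∧
      ∀ P : BN L l T N, MvPolynomial.eval P.v Φ = 0 := by
  obtain ⟨c, hc0, hc, hI⟩ := siegel_all
    (fun j : MM => L.rs (MvPolynomial.monomial (j : Fin 3 →₀ ℕ) 1)) h1
    (by rwa [Fintype.card_coe])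
  obtain ⟨Φ, hΦ0, hs, hco, hev⟩ := lf_main (l := l) (T := T) L MM hM h2 h3 c hc0 hc
    (fun _ => True) hN (fun P _ => P.dvd_ev hI)
  exact ⟨Φ, hΦ0, hs, hco, fun P => hev P trivial⟩

end Pool.Agent.Lib.MP_3550b5_nt.AC
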