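import Mathlib
import Pool.Agent.Lib.MP_3550b5_nt.AC.NvB

/-!
PROJECT AC, block NEAR: the points near the leaf (`D` and `A` are congruent modulo `p^N` to the values on the leaf).
-/

namespace Pool.Agent.Lib.MP_3550b5_nt.AC

open MvPolynomial

variable {p : ℕ} [hp : Fact p.Prime]

private theorem xfa_div (p : ℕ) [Fact p.Prime] (Φ : Q3) (h0 : Φ ≠ 0) :
    ∃ (n : ℕ) (F : Q3), Φ = C ((p : ℤ) ^ n) * F ∧ ∃ m, ¬ (p : ℤ) ∣ F.coeff m := by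
  obtain ⟨m₀, hm₀⟩ := ne_zero_iff.1 h0
  obtain ⟨N, hN⟩ : ∃ N, (Φ.coeff m₀).natAbs ≤ N := ⟨_, le_rfl⟩
  clear h0
  induction N generalizing Φ with
  | zero => exact absurd (Int.natAbs_eq_zero.1 (Nat.le_zero.1 hN)) hm₀
  | succ N ih =>
    by_cases h : ∃ m, ¬ (p : ℤ) ∣ Φ.coeff m
    · exact ⟨0, Φ, by rw [pow_zero, C_1, one_mul], h⟩
    · push Not at h
      obtain ⟨Ψ, hΨ⟩ := (C_dvd_iff_dvd_coeff (p : ℤ) Φ).2 h
      have hc : Φ.coeff m₀ = p * Ψ.coeff m₀ := by rw [hΨ, coeff_C_mul]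
      have hΨ0 : Ψ.coeff m₀ ≠ 0 := by
        intro h1
        exact hm₀ (by rw [hc, h1, mul_zero])
      have hlt : (Ψ.coeff m₀).natAbs ≤ N := by
        rw [hc, Int.natAbs_mul, Int.natAbs_natCast] at hN
        have h2 := (Fact.out : p.Prime).two_le
        have h3 : 1 ≤ (Ψ.coeff m₀).natAbs := Int.natAbs_pos.2 hΨ0
        nlinarith
      obtain ⟨n, F, hF, hm⟩ := ih Ψ hΨ0 hlt
      refine ⟨n + 1, F, ?_, hm⟩
      rw [hΨ, hF, ← mul_assoc, ← C_mul, pow_succ']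

/-- THE POLYNOMIAL `F`. PROOF. `k = 321 p`: `leaf_siegel_all` for `MM = box (k T^2) (k T l)`, `λ = 4 k T^2 l`:
`20 p λ^2 = 320 p k^2 T^4 l^2 < k^3 T^4 l^2 ≤ card`, `card ≤ 2^λ` (`n + 1 ≤ 2^n`). Then divide by the largest power of `p` dividing all
coefficients. -/
theorem exists_FN (p : ℕ) [Fact p.Prime] : ∃ k : ℕ, 1 ≤ k ∧ ∀ (L : Leaf p) (l T N : ℕ), 1 ≤ l → 1 ≤ T →
    12 * (k * T ^ 2 * l) + 1 ≤ N → ∃ F : Q3, F ≠ 0 ∧ (∃ m, ¬ (p : ℤ) ∣ F.coeff m) ∧ F.degreeOf 0 ≤ k * T ^ 2 ∧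
      F.degreeOf 1 ≤ k * T * l ∧ F.degreeOf 2 ≤ k * T * l ∧ ∀ P : BN L l T N, eval P.v F = 0 := by
  have hp1 : 1 ≤ p := (Fact.out : p.Prime).one_le
  refine ⟨321 * p, by omega, ?_⟩
  intro L l T N hl hT hN
  obtain ⟨k, hk⟩ : ∃ k, k = 321 * p := ⟨_, rfl⟩
  rw [← hk] at hN ⊢
  have hk1 : 1 ≤ k := by omega
  have hK : k * T ^ 2 ≤ k * T ^ 2 * l := Nat.le_mul_of_pos_right _ hl
  have hW : k * T * l ≤ k * T ^ 2 * l := by
    have h1 : T ≤ T ^ 2 := by nlinarith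
    exact Nat.mul_le_mul_right l (Nat.mul_le_mul_left k h1)
  have hpos : 1 ≤ k * T ^ 2 * l := by
    have h1 : 1 ≤ T ^ 2 := Nat.one_le_pow _ _ hT
    exact Nat.mul_pos (Nat.mul_pos hk1 h1) hl
  obtain ⟨Φ, hΦ0, hΦs, -, hΦe⟩ := leaf_siegel_allN L (l := l) (T := T) (N := N) (K := k * T ^ 2)
    (w := k * T * l) (la := 4 * (k * T ^ 2 * l)) (box (k * T ^ 2) (k * T * l))
    (fun m hm => mem_box.1 hm) (by omega) (le_of_eq (by ring)) (by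
      rw [card_box]
      calc (k * T ^ 2 + 1) * (k * T * l + 1) ^ 2
          ≤ 2 ^ (k * T ^ 2) * (2 ^ (k * T * l)) ^ 2 :=
            Nat.mul_le_mul (Nat.lt_two_pow_self) (Nat.pow_le_pow_left Nat.lt_two_pow_self 2)
        _ = 2 ^ (k * T ^ 2 + 2 * (k * T * l)) := by
            rw [← pow_mul, ← pow_add, mul_comm (k * T * l) 2]
        _ ≤ 2 ^ (4 * (k * T ^ 2 * l)) := Nat.pow_le_pow_right (by norm_num) (by omega))
    (by
      rw [card_box]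
      have h1 : 20 * p * (4 * (k * T ^ 2 * l)) ^ 2 = 320 * p * (k * T ^ 2 * l) ^ 2 := by ring
      have h2 : k * T ^ 2 * (k * T * l) ^ 2 = 321 * p * (k * T ^ 2 * l) ^ 2 := by
        rw [hk]
        ring
      have h3 : 320 * p * (k * T ^ 2 * l) ^ 2 < 321 * p * (k * T ^ 2 * l) ^ 2 :=
        Nat.mul_lt_mul_of_pos_right (by omega) (pow_pos hpos 2)
      rw [h1]
      refine h3.trans_le (h2.symm.le.trans ?_)
      exact Nat.mul_le_mul (Nat.le_succ _) (Nat.pow_le_pow_left (Nat.le_succ _) 2)) (by omega)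
  obtain ⟨n, F, hF, hFp⟩ := xfa_div p Φ hΦ0
  have hpz : ((p : ℤ) ^ n) ≠ 0 := pow_ne_zero _ (by exact_mod_cast (Fact.out : p.Prime).ne_zero)
  have hco : ∀ m, Φ.coeff m = (p : ℤ) ^ n * F.coeff m := fun m => by rw [hF, coeff_C_mul]
  have hFs : ∀ m ∈ F.support, m 0 ≤ k * T ^ 2 ∧ m 1 ≤ k * T * l ∧ m 2 ≤ k * T * l := by
    intro m hm
    refine mem_box.1 (hΦs (mem_support_iff.2 ?_))
    rw [hco]
    exact mul_ne_zero hpz (mem_support_iff.1 hm)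
  refine ⟨F, ?_, hFp, degreeOf_le_iff.2 fun m hm => (hFs m hm).1,
    degreeOf_le_iff.2 fun m hm => (hFs m hm).2.1, degreeOf_le_iff.2 fun m hm => (hFs m hm).2.2,
    fun P => ?_⟩
  · rintro rfl
    exact hΦ0 (by rw [hF, mul_zero])
  · have h1 := hΦe P
    rw [hF, map_mul, eval_C] at h1
    exact (mul_eq_zero.1 h1).resolve_left hpz

end Pool.Agent.Lib.MP_3550b5_nt.AC
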