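import Mathlib
import Pool.Agent.Lib.MP_3550b5_nt.AC.XpA
import Pool.Agent.Lib.MP_3550b5_nt.AC.NvB

/-!
PROJECT AC, block NEAR: the points near the leaf (`D` and `A` are congruent modulo `p^N` to the values on the leaf).
-/

namespace Pool.Agent.Lib.MP_3550b5_nt.AC

open MvPolynomial

variable {p : ℕ} [hp : Fact p.Prime]

/-- the monomials `b^i (X j)^n` -/
private noncomputable def xpM (j : Fin 3) (K w : ℕ) : Finset (Fin 3 →₀ ℕ) :=
  (Finset.range (K + 1) ×ˢ Finset.range (w + 1)).image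
    fun q => Finsupp.single 0 q.1 + Finsupp.single j q.2

private lemma xpM_card {j : Fin 3} (hj : j ≠ 0) (K w : ℕ) : (xpM j K w).card = (K + 1) * (w + 1) := by
  unfold xpM
  rw [Finset.card_image_of_injective, Finset.card_product, Finset.card_range, Finset.card_range]
  rintro ⟨a, b⟩ ⟨a', b'⟩ h
  have h0 := DFunLike.congr_fun h 0
  have h1 := DFunLike.congr_fun h j
  simp only [Finsupp.coe_add, Pi.add_apply, Finsupp.single_eq_same,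
    Finsupp.single_eq_of_ne hj, Finsupp.single_eq_of_ne hj.symm, add_zero, zero_add] at h0 h1
  exact Prod.ext h0 h1

private lemma xpM_mem {j : Fin 3} (hj : j ≠ 0) {K w : ℕ} {m : Fin 3 →₀ ℕ} (h : m ∈ xpM j K w) :
    m 0 ≤ K ∧ m j ≤ w ∧ ∀ i, i ≠ 0 → i ≠ j → m i = 0 := by
  unfold xpM at h
  rw [Finset.mem_image] at h
  obtain ⟨⟨a, b⟩, hab, rfl⟩ := h
  rw [Finset.mem_product, Finset.mem_range, Finset.mem_range] at hab
  refine ⟨?_, ?_, fun i hi hij => ?_⟩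
  · simp only [Finsupp.coe_add, Pi.add_apply, Finsupp.single_eq_same,
      Finsupp.single_eq_of_ne hj, Finsupp.single_eq_of_ne hj.symm, add_zero]
    omega
  · simp only [Finsupp.coe_add, Pi.add_apply, Finsupp.single_eq_same,
      Finsupp.single_eq_of_ne hj, Finsupp.single_eq_of_ne hj.symm, zero_add]
    omega
  · simp only [Finsupp.coe_add, Pi.add_apply, Finsupp.single_eq_of_ne hi,
      Finsupp.single_eq_of_ne hij, add_zero]

private lemma xp_two (n : ℕ) : n + 1 ≤ 2 ^ n := Nat.lt_two_pow_self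

/-- the order of `F` -/
private lemma xp_e (C₀ k : ℕ) {l T : ℕ} (hl : 1 ≤ l) (hT : 1 ≤ T) :
    2 * (k * T ^ 2) + C₀ * (k * T * l + 1) ^ 2 ≤ (2 * k + C₀ * (k + 1) ^ 2) * (T ^ 2 * l ^ 2) := by
  have h1 : 1 ≤ T * l := Nat.mul_pos hT hl
  have h2 : k * T * l + 1 ≤ (k + 1) * (T * l) := by
    calc k * T * l + 1 ≤ k * T * l + T * l := by omega
      _ = (k + 1) * (T * l) := by ring
  have h3 : (k * T * l + 1) ^ 2 ≤ (k + 1) ^ 2 * (T ^ 2 * l ^ 2) := by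
    calc (k * T * l + 1) ^ 2 ≤ ((k + 1) * (T * l)) ^ 2 := Nat.pow_le_pow_left h2 2
      _ = (k + 1) ^ 2 * (T ^ 2 * l ^ 2) := by ring
  have h4 : T ^ 2 ≤ T ^ 2 * l ^ 2 := Nat.le_mul_of_pos_right _ (by positivity)
  calc 2 * (k * T ^ 2) + C₀ * (k * T * l + 1) ^ 2 ≤
        2 * (k * (T ^ 2 * l ^ 2)) + C₀ * ((k + 1) ^ 2 * (T ^ 2 * l ^ 2)) :=
        Nat.add_le_add (Nat.mul_le_mul_left 2 (Nat.mul_le_mul_left k h4)) (Nat.mul_le_mul_left C₀ h3)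
    _ = (2 * k + C₀ * (k + 1) ^ 2) * (T ^ 2 * l ^ 2) := by ring

/-- the counting inequality -/
private lemma xp_card {p E m l T e : ℕ} (hm : 40 * p * E < m) (hl : 1 ≤ l) (hT : 1 ≤ T)
    (he : e ≤ E * (T ^ 2 * l ^ 2)) :
    10 * p * e * (4 * m * (T ^ 3 * l ^ 3)) < (m * (T ^ 3 * l ^ 2) + 1) * (m * (T ^ 2 * l ^ 3) + 1) := by
  have hXY : 0 < (T ^ 2 * l ^ 2) * (T ^ 3 * l ^ 3) := by positivity
  have hm0 : 0 < m := by omega
  calc 10 * p * e * (4 * m * (T ^ 3 * l ^ 3)) ≤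
        10 * p * (E * (T ^ 2 * l ^ 2)) * (4 * m * (T ^ 3 * l ^ 3)) :=
        Nat.mul_le_mul_right _ (Nat.mul_le_mul_left _ he)
    _ = (40 * p * E) * (m * ((T ^ 2 * l ^ 2) * (T ^ 3 * l ^ 3))) := by ring
    _ < m * (m * ((T ^ 2 * l ^ 2) * (T ^ 3 * l ^ 3))) :=
        Nat.mul_lt_mul_of_pos_right hm (Nat.mul_pos hm0 hXY)
    _ = (m * (T ^ 3 * l ^ 2)) * (m * (T ^ 2 * l ^ 3)) := by ring
    _ ≤ (m * (T ^ 3 * l ^ 2) + 1) * (m * (T ^ 2 * l ^ 3) + 1) :=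
        Nat.mul_le_mul (Nat.le_succ _) (Nat.le_succ _)

/-- the size of the box -/
private lemma xp_box {m l T : ℕ} (hl : 1 ≤ l) (hT : 1 ≤ T) :
    (m * (T ^ 3 * l ^ 2) + 1) * (m * (T ^ 2 * l ^ 3) + 1) ≤ 2 ^ (4 * m * (T ^ 3 * l ^ 3)) := by
  have h1 : T ^ 3 * l ^ 2 ≤ T ^ 3 * l ^ 3 :=
    Nat.mul_le_mul_left _ (Nat.pow_le_pow_right hl (by norm_num))
  have h2 : T ^ 2 * l ^ 3 ≤ T ^ 3 * l ^ 3 :=
    Nat.mul_le_mul_right _ (Nat.pow_le_pow_right hT (by norm_num))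
  refine (Nat.mul_le_mul (xp_two _) (xp_two _)).trans ?_
  rw [← pow_add]
  apply Nat.pow_le_pow_right (by norm_num)
  have h3 := Nat.mul_le_mul_left m h1
  have h4 := Nat.mul_le_mul_left m h2
  have h5 : 4 * m * (T ^ 3 * l ^ 3) = 4 * (m * (T ^ 3 * l ^ 3)) := by ring
  omega

/-- the number of binary digits of the degree -/
private lemma xp_dig {m l T : ℕ} (hl : 1 ≤ l) (hT : 1 ≤ T) (hm : 1 ≤ m) (hTl : T ≤ 2 ^ l) :
    2 * (m * (T ^ 3 * l ^ 2)) + 2 ≤ 2 ^ (2 + m + 5 * l) := by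
  have h1 : 1 ≤ m * (T ^ 3 * l ^ 2) := Nat.mul_pos hm (by positivity)
  have h2 : T ^ 3 ≤ 2 ^ (3 * l) := by
    calc T ^ 3 ≤ (2 ^ l) ^ 3 := Nat.pow_le_pow_left hTl 3
      _ = 2 ^ (3 * l) := by rw [← pow_mul, mul_comm]
  have h3 : l ^ 2 ≤ 2 ^ (2 * l) := by
    calc l ^ 2 ≤ (2 ^ l) ^ 2 := Nat.pow_le_pow_left Nat.lt_two_pow_self.le 2
      _ = 2 ^ (2 * l) := by rw [← pow_mul, mul_comm]
  have h4 : m ≤ 2 ^ m := Nat.lt_two_pow_self.le
  calc 2 * (m * (T ^ 3 * l ^ 2)) + 2 ≤ 4 * (m * (T ^ 3 * l ^ 2)) := by omega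
    _ ≤ 4 * (2 ^ m * (2 ^ (3 * l) * 2 ^ (2 * l))) :=
        Nat.mul_le_mul_left _ (Nat.mul_le_mul h4 (Nat.mul_le_mul h2 h3))
    _ = 2 ^ (2 + m + 5 * l) := by
        rw [show 2 + m + 5 * l = 2 + (m + (3 * l + 2 * l)) by ring, pow_add, pow_add, pow_add]
        norm_num

/-- THE POLYNOMIALS `Ψ`. PROOF. `L.rs F` has order at most `e = 2 k T^2 + C₀ (k T l + 1)^2 ≤ E T^2 l^2`, `E = 2 k + C₀ (k + 1)^2`. `leaf_siegel_f` for
`f = L.rs F`, `MM` = the monomials `b^i (X j)^n`, `i ≤ K = m T^3 l^2`, `n ≤ w = m T^2 l^3`, `λ = 4 m T^3 l^3`, `m > 40 p E`: `10 p e λ ≤ 40 p E m T^5 l^5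
< m^2 T^5 l^5 ≤ card`. `exists_biv`, `exists_sqf`, `biv_factor` (`2 K + 2 ≤ 2^c` with `c ≤ C l` since `T ≤ 2^l`), `exists_disc`; `R` = the product of the
discriminant and of `c` of `exists_sqf`. -/
theorem exists_psiN (p : ℕ) [Fact p.Prime] (C₀ k : ℕ) : ∃ k₀ : ℕ, 1 ≤ k₀ ∧ ∀ (L : Leaf p), L.Ord C₀ →
    ∀ (l T N : ℕ), 1 ≤ l → 1 ≤ T → T ≤ 2 ^ l → k₀ * (T ^ 3 * l ^ 3) ≤ N → ∀ F : Q3, (∃ m, ¬ (p : ℤ) ∣ F.coeff m) →
      F.degreeOf 0 ≤ k * T ^ 2 → F.degreeOf 1 ≤ k * T * l → F.degreeOf 2 ≤ k * T * l →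
      (∀ P : BN L l T N, eval P.v F = 0) → ∀ j : Fin 3, j ≠ 0 →
      ∃ (Ψ : Polynomial (Polynomial ℤ)) (R : Polynomial ℤ), R ≠ 0 ∧ R.natDegree ≤ k₀ * (T ^ 5 * l ^ 5) ∧
        Ψ.natDegree ≤ k₀ * (T ^ 2 * l ^ 3) ∧ (∀ i, (Ψ.coeff i).natDegree ≤ k₀ * (T ^ 3 * l ^ 2)) ∧
        (∀ i n, |(Ψ.coeff n).coeff i| ≤ 2 ^ (k₀ * (T ^ 3 * l ^ 3))) ∧
        ∀ P : BN L l T N, R.eval (P.v 0) ≠ 0 → Polynomial.evalEval (P.v 0) (P.v j) Ψ = 0 ∧
          Polynomial.evalEval (P.v 0) (P.v j) (Polynomial.derivative Ψ) ≠ 0 := by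
  obtain ⟨E, hE⟩ : ∃ E, E = 2 * k + C₀ * (k + 1) ^ 2 := ⟨_, rfl⟩
  obtain ⟨m, hm⟩ : ∃ m, m = 40 * p * E + 1 := ⟨_, rfl⟩
  have hm1 : 1 ≤ m := by omega
  refine ⟨8 * m * (m + 8), Nat.mul_pos (by omega) (by omega), ?_⟩
  intro L hL l T N hl hT hTl hNk F hFp hF0 hF1 hF2 hFP j hj
  obtain ⟨K, hK⟩ : ∃ K, K = m * (T ^ 3 * l ^ 2) := ⟨_, rfl⟩
  obtain ⟨w, hw⟩ : ∃ w, w = m * (T ^ 2 * l ^ 3) := ⟨_, rfl⟩
  obtain ⟨la, hla⟩ : ∃ la, la = 4 * m * (T ^ 3 * l ^ 3) := ⟨_, rfl⟩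
  have hK1 : 1 ≤ K := by
    rw [hK]
    exact Nat.mul_pos hm1 (by positivity)
  have hw1 : 1 ≤ w := by
    rw [hw]
    exact Nat.mul_pos hm1 (by positivity)
  have hY1 : 1 ≤ T ^ 3 * l ^ 3 := Nat.mul_pos (by positivity) (by positivity)
  have hla1 : 1 ≤ la := by
    rw [hla]
    exact Nat.mul_pos (by omega) hY1
  have hN : 3 * la + 1 ≤ N := by
    refine le_trans ?_ hNk
    have h1 : 3 * la = 12 * (m * (T ^ 3 * l ^ 3)) := by
      rw [hla]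
      ring
    have h2 : 1 ≤ m * (T ^ 3 * l ^ 3) := Nat.mul_pos (by omega) hY1
    have h3 : 8 * m * (m + 8) * (T ^ 3 * l ^ 3) = 8 * (m + 8) * (m * (T ^ 3 * l ^ 3)) := by ring
    have h4 : 72 * (m * (T ^ 3 * l ^ 3)) ≤ 8 * (m + 8) * (m * (T ^ 3 * l ^ 3)) :=
      Nat.mul_le_mul_right _ (by omega)
    omega
  have hord := hL F (k * T ^ 2) (k * T * l) hFp hF0 hF1 hF2
  have hcard : (xpM j K w).card = (K + 1) * (w + 1) := xpM_card hj K w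
  obtain ⟨Φ, hΦ0, hΦs, hΦc, hΦP⟩ := leaf_siegel_fN L (l := l) (T := T) (N := N) (K := K) (w := w) (la := la)
    (e := 2 * (k * T ^ 2) + C₀ * (k * T * l + 1) ^ 2) (xpM j K w) (by
      intro q hq
      obtain ⟨h1, h2, h3⟩ := xpM_mem hj hq
      refine ⟨h1, ?_, ?_⟩
      · by_cases h4 : j = 1
        · rw [h4] at h2
          exact h2
        · rw [h3 1 (by decide) (fun h => h4 h.symm)]
          exact Nat.zero_le _
      · by_cases h4 : j = 2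
        · rw [h4] at h2
          exact h2
        · rw [h3 2 (by decide) (fun h => h4 h.symm)]
          exact Nat.zero_le _) hla1 (by
      rw [hK, hw, hla]
      apply le_of_eq
      ring) (by
      rw [hcard, hK, hw, hla]
      exact xp_box hl hT) hord (by
      rw [hcard, hK, hw, hla]
      refine xp_card (E := E) (by omega) hl hT ?_
      rw [hE]
      exact xp_e C₀ k hl hT) hN
  obtain ⟨Q, hQ0, hQΦ, hQd, hQK, hQc⟩ := exists_biv hj hΦ0 (fun q hq => xpM_mem hj (hΦs hq)) hΦc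
  have hQP : ∀ P : BN L l T N, Polynomial.evalEval (P.v 0) (P.v j) Q = 0 := by
    intro P
    rw [← eval_em, hQΦ]
    apply hΦP
    rw [P.dvd_iff _ hN, hFP P, Int.cast_zero]
    exact dvd_zero _
  obtain ⟨Ψ, c, hΨQ, hc0, hcd, hsep, hz⟩ := exists_sqf hQ0 hQK
  obtain ⟨hΨc, hΨK⟩ := biv_factor hΨQ hQ0 hQd hQK hQc (c := 2 + m + 5 * l) (by
    rw [hK]
    exact xp_dig hl hT hm1 hTl)
  have hΨd : Ψ.natDegree ≤ w := (Polynomial.natDegree_le_of_dvd hΨQ hQ0).trans hQd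
  obtain ⟨R, hR0, hRd, hRz⟩ := exists_disc hsep hΨd hΨK
  have hKY : K * l = m * (T ^ 3 * l ^ 3) := by
    rw [hK]
    ring
  have hmk : m ≤ 8 * m * (m + 8) := by nlinarith
  refine ⟨Ψ, R * c, mul_ne_zero hR0 hc0, ?_, ?_, ?_, ?_, ?_⟩
  · refine Polynomial.natDegree_mul_le.trans ?_
    have h1 : 2 * K * (w + 1) + K ≤ 5 * (K * w) := by
      have h2 : K ≤ K * w := Nat.le_mul_of_pos_right _ hw1
      have h3 : 2 * K * (w + 1) + K = 2 * (K * w) + 3 * K := by ring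
      omega
    have h4 : K * w = m * m * (T ^ 5 * l ^ 5) := by
      rw [hK, hw]
      ring
    have h5 : 5 * (m * m) ≤ 8 * m * (m + 8) := by nlinarith
    calc R.natDegree + c.natDegree ≤ 2 * K * (w + 1) + K := Nat.add_le_add hRd hcd
      _ ≤ 5 * (K * w) := h1
      _ = 5 * (m * m) * (T ^ 5 * l ^ 5) := by rw [h4]; ring
      _ ≤ 8 * m * (m + 8) * (T ^ 5 * l ^ 5) := Nat.mul_le_mul_right _ h5
  · refine hΨd.trans ?_
    rw [hw]
    exact Nat.mul_le_mul_right _ hmk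
  · intro i
    refine (hΨK i).trans ?_
    rw [hK]
    exact Nat.mul_le_mul_right _ hmk
  · intro i n
    refine (hΨc i n).trans ?_
    apply pow_le_pow_right₀ (by norm_num)
    have h1 : 4 * (K + 1) * (2 + m + 5 * l) ≤ 8 * (m + 7) * (m * (T ^ 3 * l ^ 3)) := by
      have h2 : 2 + m + 5 * l ≤ (m + 7) * l := by
        have h3 : 2 + m ≤ (2 + m) * l := Nat.le_mul_of_pos_right _ hl
        have h4 : (m + 7) * l = (2 + m) * l + 5 * l := by ring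
        omega
      calc 4 * (K + 1) * (2 + m + 5 * l) ≤ 4 * (2 * K) * ((m + 7) * l) :=
            Nat.mul_le_mul (Nat.mul_le_mul_left _ (by omega)) h2
        _ = 8 * (m + 7) * (K * l) := by ring
        _ = 8 * (m + 7) * (m * (T ^ 3 * l ^ 3)) := by rw [hKY]
    have h2 : 2 * (w + 1) ≤ 4 * (m * (T ^ 3 * l ^ 3)) := by
      have h3 : T ^ 2 * l ^ 3 ≤ T ^ 3 * l ^ 3 :=
        Nat.mul_le_mul_right _ (Nat.pow_le_pow_right hT (by norm_num))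
      have h4 : w ≤ m * (T ^ 3 * l ^ 3) := by
        rw [hw]
        exact Nat.mul_le_mul_left m h3
      omega
    have h3 : la = 4 * (m * (T ^ 3 * l ^ 3)) := by
      rw [hla]
      ring
    have h4 : 8 * m * (m + 8) * (T ^ 3 * l ^ 3) =
        8 * (m + 7) * (m * (T ^ 3 * l ^ 3)) + 8 * (m * (T ^ 3 * l ^ 3)) := by ring
    omega
  · intro P hP
    rw [Polynomial.eval_mul] at hP
    have h1 := hz _ _ (hQP P)
    have h2 : Polynomial.evalEval (P.v 0) (P.v j) Ψ = 0 := by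
      rcases h1 with h1 | h1
      · exact h1
      · exact absurd h1 (right_ne_zero_of_mul hP)
    exact ⟨h2, fun h3 => left_ne_zero_of_mul hP (hRz _ _ h2 h3)⟩

end Pool.Agent.Lib.MP_3550b5_nt.AC
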