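import Mathlib
import Pool.Agent.Lib.MP_3550b5_nt.AC.NvD

/-!
PROJECT AC, block CONSTANTS: the counts of the block NEAR with constants explicit in `p`.
-/

namespace Pool.Agent.Lib.MP_3550b5_nt.AC

open MvPolynomial

variable {p : ℕ} [hp : Fact p.Prime]

private lemma card_lower {X Y al d1 d2 W c : ℕ} (hX : al ≤ X)
    (hW : d1 = W ∨ d2 = W) (hY : 2 * W ≤ Y)
    (hc : c + (X - al) * ((Y - d1) * (Y - d2)) = X * Y ^ 2) :
    Y * (2 * (X * W) + al * Y) ≤ 2 * c := by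
  obtain ⟨X', rfl⟩ := Nat.exists_eq_add_of_le hX
  obtain ⟨Y', rfl⟩ := Nat.exists_eq_add_of_le hY
  have e1 : al + X' - al = X' := by omega
  have h3 : (2 * W + Y' - d1) * (2 * W + Y' - d2) ≤ (W + Y') * (2 * W + Y') := by
    rcases hW with h | h
    · have : 2 * W + Y' - d1 = W + Y' := by omega
      rw [this]
      exact Nat.mul_le_mul_left _ (Nat.sub_le _ _)
    · have : 2 * W + Y' - d2 = W + Y' := by omega
      rw [this, mul_comm]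
      exact Nat.mul_le_mul_left _ (Nat.sub_le _ _)
  rw [e1] at hc
  have h4 : X' * ((2 * W + Y' - d1) * (2 * W + Y' - d2)) ≤ X' * ((W + Y') * (2 * W + Y')) :=
    Nat.mul_le_mul_left _ h3
  nlinarith [Nat.zero_le (al * Y' * (2 * W + Y')), Nat.zero_le (al * Y' * W)]

/-- THE POLYNOMIAL `G`, as `exists_GN`. PROOF. `F` is not divisible by `p`, so of order at most `e = α₀ + C₀ (w_F + 1)^2 ≤ α₀ + 4 C₀ w_F^2` on the leaf,
`α₀ = degreeOf 0 F`, `w_F = max (degreeOf 1 F) (degreeOf 2 F) ≥ 1`. Box `K = k₂ T^2 l`, `w = k₂ T l^2`, `λ = 4 k₂ T^2 l^2`; `exists_compl`: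
`card MM ≥ (w+1) (α₀ w / 2 + w_F K)` (as `w_F ≤ w / 2`), so `card MM > 10 p e λ` if `k₂` is large (`k₂ l^2 > 160 p`, `k₂ > 320 p C₀ k`).
`leaf_siegel_f` with `f = L.rs F`. -/
theorem exists_GU (p : ℕ) [Fact p.Prime] (C₀ k : ℕ) {k₂ : ℕ} (hk₂ : k₂ = 160 * p * C₀ * k + 160 * p + 2 * k + 1) :
    ∀ (L : Leaf p), L.Ord C₀ → ∀ (l T N : ℕ), 1 ≤ l → 1 ≤ T → 12 * k₂ * (T ^ 2 * l ^ 2) + 1 ≤ N → ∀ F : Q3, (∃ m, ¬ (p : ℤ) ∣ F.coeff m) → F.degreeOf 0 ≤ k * T ^ 2 →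
      F.degreeOf 1 ≤ k * T * l → F.degreeOf 2 ≤ k * T * l → (F.degreeOf 1 ≠ 0 ∨ F.degreeOf 2 ≠ 0) →
      ∃ G : Q3, ¬ toQ F ∣ toQ G ∧ G.degreeOf 0 ≤ k₂ * (T ^ 2 * l) ∧ G.degreeOf 1 ≤ k₂ * (T * l ^ 2) ∧
        G.degreeOf 2 ≤ k₂ * (T * l ^ 2) ∧ ∀ P : BN L l T N, eval P.v F = 0 → eval P.v G = 0 := by
  intro L hL l T N hl hT hN F hF hd0 hd1 hd2 hd
  have hk1 : 160 * p * C₀ * k ≤ k₂ := by omega
  have hk2 : 160 * p ≤ k₂ := by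
    have : 0 ≤ 160 * p * C₀ * k := Nat.zero_le _
    omega
  have hk3 : 2 * k ≤ k₂ := by omega
  have hk4 : 1 ≤ k₂ := by omega
  have hF0 : F ≠ 0 := by
    rintro rfl
    obtain ⟨m, hm⟩ := hF
    exact hm (by rw [coeff_zero]; exact dvd_zero _)
  have hlT : 1 ≤ T * l := Nat.mul_pos hT hl
  have hK0 : F.degreeOf 0 ≤ k₂ * (T ^ 2 * l) := by
    calc F.degreeOf 0 ≤ k * T ^ 2 * 1 := by rw [mul_one]; exact hd0
      _ ≤ k₂ * T ^ 2 * l := Nat.mul_le_mul (Nat.mul_le_mul_right _ (by omega)) hl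
      _ = k₂ * (T ^ 2 * l) := by ring
  have hKw : k * T * l ≤ k₂ * (T * l ^ 2) := by
    calc k * T * l = k * T * l * 1 := by rw [mul_one]
      _ ≤ k₂ * T * l * l := Nat.mul_le_mul (Nat.mul_le_mul_right _ (Nat.mul_le_mul_right _ (by omega))) hl
      _ = k₂ * (T * l ^ 2) := by ring
  have hKw2 : 2 * (k * T * l) ≤ k₂ * (T * l ^ 2) := by
    calc 2 * (k * T * l) = (2 * k) * T * l * 1 := by ring
      _ ≤ k₂ * T * l * l := Nat.mul_le_mul (Nat.mul_le_mul_right _ (Nat.mul_le_mul_right _ hk3)) hl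
      _ = k₂ * (T * l ^ 2) := by ring
  obtain ⟨MM, hMM, hcard, hdiv⟩ := exists_compl hF0 hK0 (hd1.trans hKw) (hd2.trans hKw)
  obtain ⟨W, hW⟩ : ∃ W, W = max (F.degreeOf 1) (F.degreeOf 2) := ⟨_, rfl⟩
  have hW1 : F.degreeOf 1 ≤ W := hW ▸ le_max_left _ _
  have hW2 : F.degreeOf 2 ≤ W := hW ▸ le_max_right _ _
  have hWk : W ≤ k * T * l := hW ▸ max_le hd1 hd2
  have hWpos : 1 ≤ W := by omega
  have hWor : F.degreeOf 1 = W ∨ F.degreeOf 2 = W := by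
    rcases max_choice (F.degreeOf 1) (F.degreeOf 2) with h | h
    · exact Or.inl (h ▸ hW.symm)
    · exact Or.inr (h ▸ hW.symm)
  have hlow := card_lower (X := k₂ * (T ^ 2 * l) + 1) (Y := k₂ * (T * l ^ 2) + 1)
    (al := F.degreeOf 0) (d1 := F.degreeOf 1) (d2 := F.degreeOf 2) (W := W) (c := MM.card)
    (by omega) hWor (by omega) hcard
  have hla : 1 ≤ 4 * k₂ * (T ^ 2 * l ^ 2) := by
    have : 0 < 4 * k₂ * (T ^ 2 * l ^ 2) := by positivity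
    exact this
  have hTT : T ≤ T ^ 2 := by nlinarith
  have hll : l ≤ l ^ 2 := by nlinarith
  have hsz : MM.card ≤ 2 ^ (4 * k₂ * (T ^ 2 * l ^ 2)) := by
    have hp1 : ∀ n : ℕ, n + 1 ≤ 2 ^ n := fun n => Nat.lt_two_pow_self
    calc MM.card ≤ (box (k₂ * (T ^ 2 * l)) (k₂ * (T * l ^ 2))).card := Finset.card_le_card hMM
      _ = (k₂ * (T ^ 2 * l) + 1) * (k₂ * (T * l ^ 2) + 1) ^ 2 := card_box _ _
      _ ≤ 2 ^ (k₂ * (T ^ 2 * l)) * (2 ^ (k₂ * (T * l ^ 2))) ^ 2 :=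
          Nat.mul_le_mul (hp1 _) (Nat.pow_le_pow_left (hp1 _) 2)
      _ = 2 ^ (k₂ * (T ^ 2 * l) + k₂ * (T * l ^ 2) * 2) := by rw [← pow_mul, ← pow_add]
      _ ≤ 2 ^ (4 * k₂ * (T ^ 2 * l ^ 2)) := by
          refine Nat.pow_le_pow_right (by norm_num) ?_
          have h1 : k₂ * (T ^ 2 * l) ≤ k₂ * (T ^ 2 * l ^ 2) :=
            Nat.mul_le_mul_left _ (Nat.mul_le_mul_left _ hll)
          have h2 : k₂ * (T * l ^ 2) ≤ k₂ * (T ^ 2 * l ^ 2) :=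
            Nat.mul_le_mul_left _ (Nat.mul_le_mul_right _ hTT)
          calc k₂ * (T ^ 2 * l) + k₂ * (T * l ^ 2) * 2
              ≤ k₂ * (T ^ 2 * l ^ 2) + k₂ * (T ^ 2 * l ^ 2) * 2 :=
                Nat.add_le_add h1 (Nat.mul_le_mul_right _ h2)
            _ ≤ 4 * k₂ * (T ^ 2 * l ^ 2) := by nlinarith [Nat.zero_le (k₂ * (T ^ 2 * l ^ 2))]
  have hbig : 10 * p * (2 * F.degreeOf 0 + C₀ * (W + 1) ^ 2) * (4 * k₂ * (T ^ 2 * l ^ 2)) < MM.card := by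
    have hA : 2 * (10 * p * (2 * F.degreeOf 0) * (4 * k₂ * (T ^ 2 * l ^ 2)))
        ≤ (k₂ * (T * l ^ 2) + 1) * (F.degreeOf 0 * (k₂ * (T * l ^ 2) + 1)) := by
      calc 2 * (10 * p * (2 * F.degreeOf 0) * (4 * k₂ * (T ^ 2 * l ^ 2)))
          = F.degreeOf 0 * ((160 * p) * k₂ * (T ^ 2 * l ^ 2)) := by ring
        _ ≤ F.degreeOf 0 * (k₂ * k₂ * (T ^ 2 * l ^ 4)) := by
            refine Nat.mul_le_mul_left _ (Nat.mul_le_mul (Nat.mul_le_mul_right _ hk2)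
              (Nat.mul_le_mul_left _ ?_))
            exact Nat.pow_le_pow_right hl (by norm_num)
        _ = F.degreeOf 0 * ((k₂ * (T * l ^ 2)) * (k₂ * (T * l ^ 2))) := by ring
        _ ≤ F.degreeOf 0 * ((k₂ * (T * l ^ 2) + 1) * (k₂ * (T * l ^ 2) + 1)) :=
            Nat.mul_le_mul_left _ (Nat.mul_le_mul (Nat.le_succ _) (Nat.le_succ _))
        _ = (k₂ * (T * l ^ 2) + 1) * (F.degreeOf 0 * (k₂ * (T * l ^ 2) + 1)) := by ring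
    have hB : 2 * (10 * p * (C₀ * (W + 1) ^ 2) * (4 * k₂ * (T ^ 2 * l ^ 2)))
        < (k₂ * (T * l ^ 2) + 1) * (2 * ((k₂ * (T ^ 2 * l) + 1) * W)) := by
      have hw : (W + 1) ^ 2 ≤ 4 * (W * W) := by nlinarith
      calc 2 * (10 * p * (C₀ * (W + 1) ^ 2) * (4 * k₂ * (T ^ 2 * l ^ 2)))
          = (80 * p * C₀ * k₂ * (T ^ 2 * l ^ 2)) * (W + 1) ^ 2 := by ring
        _ ≤ (80 * p * C₀ * k₂ * (T ^ 2 * l ^ 2)) * (4 * (W * W)) := Nat.mul_le_mul_left _ hw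
        _ ≤ (80 * p * C₀ * k₂ * (T ^ 2 * l ^ 2)) * (4 * (W * (k * T * l))) :=
            Nat.mul_le_mul_left _ (Nat.mul_le_mul_left _ (Nat.mul_le_mul_left _ hWk))
        _ = (160 * p * C₀ * k) * (2 * k₂ * (T ^ 3 * l ^ 3) * W) := by ring
        _ ≤ k₂ * (2 * k₂ * (T ^ 3 * l ^ 3) * W) := Nat.mul_le_mul_right _ hk1
        _ = (k₂ * (T * l ^ 2)) * (2 * ((k₂ * (T ^ 2 * l)) * W)) := by ring
        _ < (k₂ * (T * l ^ 2) + 1) * (2 * ((k₂ * (T ^ 2 * l) + 1) * W)) := by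
            nlinarith [Nat.zero_le ((k₂ * (T * l ^ 2)) * W), Nat.zero_le ((k₂ * (T ^ 2 * l)) * W)]
    have hC : 2 * (10 * p * (2 * F.degreeOf 0 + C₀ * (W + 1) ^ 2) * (4 * k₂ * (T ^ 2 * l ^ 2)))
        < 2 * MM.card := by
      calc 2 * (10 * p * (2 * F.degreeOf 0 + C₀ * (W + 1) ^ 2) * (4 * k₂ * (T ^ 2 * l ^ 2)))
          = 2 * (10 * p * (2 * F.degreeOf 0) * (4 * k₂ * (T ^ 2 * l ^ 2)))
            + 2 * (10 * p * (C₀ * (W + 1) ^ 2) * (4 * k₂ * (T ^ 2 * l ^ 2))) := by ring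
        _ < (k₂ * (T * l ^ 2) + 1) * (F.degreeOf 0 * (k₂ * (T * l ^ 2) + 1))
            + (k₂ * (T * l ^ 2) + 1) * (2 * ((k₂ * (T ^ 2 * l) + 1) * W)) :=
            Nat.add_lt_add_of_le_of_lt hA hB
        _ = (k₂ * (T * l ^ 2) + 1) * (2 * ((k₂ * (T ^ 2 * l) + 1) * W)
            + F.degreeOf 0 * (k₂ * (T * l ^ 2) + 1)) := by ring
        _ ≤ 2 * MM.card := hlow
    exact Nat.lt_of_mul_lt_mul_left hC
  obtain ⟨Φ, hΦ0, hΦs, -, hΦe⟩ := leaf_siegel_fN (l := l) (T := T) (N := N) L (K := k₂ * (T ^ 2 * l))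
    (w := k₂ * (T * l ^ 2)) (la := 4 * k₂ * (T ^ 2 * l ^ 2)) (e := 2 * F.degreeOf 0 + C₀ * (W + 1) ^ 2)
    MM (fun m hm => mem_box.1 (hMM hm)) hla (le_of_eq (by ring)) hsz
    (f := L.rs F) (hL F (F.degreeOf 0) W hF le_rfl hW1 hW2) hbig
    (by
      have h1 : 3 * (4 * k₂ * (T ^ 2 * l ^ 2)) = 12 * k₂ * (T ^ 2 * l ^ 2) := by ring
      omega)
  have hbox : ∀ m ∈ Φ.support, m 0 ≤ k₂ * (T ^ 2 * l) ∧ m 1 ≤ k₂ * (T * l ^ 2) ∧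
      m 2 ≤ k₂ * (T * l ^ 2) := fun m hm => mem_box.1 (hMM (hΦs hm))
  refine ⟨Φ, fun h => hΦ0 (hdiv Φ hΦs h), ?_, ?_, ?_, fun P hP => hΦe P ?_⟩
  · exact degreeOf_le_iff.2 fun m hm => (hbox m hm).1
  · exact degreeOf_le_iff.2 fun m hm => (hbox m hm).2.1
  · exact degreeOf_le_iff.2 fun m hm => (hbox m hm).2.2
  · have h1 : 3 * (4 * k₂ * (T ^ 2 * l ^ 2)) = 12 * k₂ * (T ^ 2 * l ^ 2) := by ring
    rw [P.dvd_iff _ (by omega), hP, Int.cast_zero]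
    exact dvd_zero _

end Pool.Agent.Lib.MP_3550b5_nt.AC
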