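import Mathlib
import Pool.Agent.Lib.MP_3550b5_nt.AC.JmA
import Pool.Agent.Lib.MP_3550b5_nt.AC.NvB

/-!
PROJECT AC, block NEAR: the points near the leaf (`D` and `A` are congruent modulo `p^N` to the values on the leaf).
-/

namespace Pool.Agent.Lib.MP_3550b5_nt.AC

open MvPolynomial SV

variable {p : ℕ} [hp : Fact p.Prime]

private theorem jm_mul {R : Type*} [CommRing R] (D : Dr R) (x y : R) :
    D (x * y) = x * D y + y * D x := by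
  rw [Derivation.leibniz, smul_eq_mul, smul_eq_mul]

private theorem jm_alg1 {K : Type*} [CommRing K] (δ : Dr K) {m W w κ c γ Y X : K} {n : ℕ}
    (hw : w = m ^ (n + 4) * W) (hW : δ W = (κ * c + γ) * W + Y)
    (hX : X = 2 * m * (κ * c + γ)) :
    2 * m * δ w - 2 * ((n + 4 : ℕ) : K) * δ m * w - X * w = 2 * m ^ (n + 5) * Y := by
  have h1 : δ (m ^ (n + 4)) = ((n + 4 : ℕ) : K) * m ^ (n + 3) * δ m := by
    rw [Derivation.leibniz_pow, smul_eq_mul, nsmul_eq_mul, Nat.add_succ_sub_one]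
    ring
  rw [hw, jm_mul, h1, hW, hX]
  ring

private theorem jm_alg2 {K : Type*} [Field K] [CharZero K] (δ : Dr K) {a b c d B m : K}
    (hdl : dl a b ≠ 0) (hm : m = 6 * dl a b * wr δ a b * d * B) :
    18 * wr δ a b ^ 2 * d * B * c + wr δ a b * d * B * δ (dl a b) =
      2 * m * (k1 δ a b * c + g1 δ a b) := by
  rw [hm, k1, g1]
  generalize δ (dl a b) = e
  field_simp
  ring

private theorem jm_alg3 {R : Type*} [CommRing R] (D : Dr R) {w f N : R}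
    (h : w ^ 2 = f * N) :
    2 * (D w) ^ 2 = f * D (D N) + 2 * D f * D N + N * D (D f) - 2 * w * D (D w) := by
  have h1 : w * D w + w * D w = f * D N + N * D f := by
    have h2 := congrArg D h
    rwa [pow_two, jm_mul, jm_mul] at h2
  have h3 := congrArg D h1
  rw [map_add, map_add, jm_mul, jm_mul, jm_mul] at h3
  linear_combination h3

private theorem jm_two (hp5 : 5 ≤ p) : ¬ (p : ℤ_[p]) ∣ 2 := by
  intro h
  have h1 := (PadicInt.pow_p_dvd_int_iff (p := p) 1 2).1 (by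
    rw [pow_one]
    exact_mod_cast h)
  rw [pow_one] at h1
  have h2 := Int.le_of_dvd (by norm_num) h1
  omega

private theorem jm_two_dvd (hp5 : 5 ≤ p) {k : ℕ} {x : ℤ_[p]} (h : (p : ℤ_[p]) ^ k ∣ 2 * x) :
    (p : ℤ_[p]) ^ k ∣ x :=
  PadicInt.prime_p.pow_dvd_of_dvd_mul_left k (jm_two hp5) h

private theorem jm_sq {k : ℕ} {x : ℤ_[p]} (h : (p : ℤ_[p]) ^ (2 * k) ∣ x ^ 2) :
    (p : ℤ_[p]) ^ k ∣ x := by
  rw [mul_comm, pow_mul] at h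
  exact (IsIntegrallyClosed.pow_dvd_pow_iff two_ne_zero).1 h

/-- The differential polynomials of order at most `k`. -/
private noncomputable def jmS (k : ℕ) : Subalgebra ℤ J :=
  supported ℤ {x : Fin 4 × ℕ | x.2 ≤ k}

private theorem jm_sup {k : ℕ} {g : J} (hg : ∀ x ∈ g.vars, x.2 ≤ k) : g ∈ jmS k :=
  mem_supported.2 fun x hx => hg x (Finset.mem_coe.1 hx)

private theorem jm_of {k : ℕ} {g : J} (hg : g ∈ jmS k) : ∀ x ∈ g.vars, x.2 ≤ k :=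
  fun _ hx => mem_supported.1 hg (Finset.mem_coe.2 hx)

private theorem jm_mono {k k' : ℕ} (h : k ≤ k') : jmS k ≤ jmS k' :=
  supported_mono fun _ hx => le_trans hx h

private theorem jm_X {k : ℕ} {i : Fin 4} {j : ℕ} (h : j ≤ k) : (X (i, j) : J) ∈ jmS k :=
  (X_mem_supported (R := ℤ)).2 h

private theorem jm_dJ {k : ℕ} {g : J} (hg : g ∈ jmS k) : dJ g ∈ jmS (k + 1) := by
  have h0 : jmS k = Algebra.adjoin ℤ (X '' {x : Fin 4 × ℕ | x.2 ≤ k}) :=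
    supported_eq_adjoin_X _
  have h1 : ∀ x, x ∈ Algebra.adjoin ℤ (X '' {x : Fin 4 × ℕ | x.2 ≤ k} : Set J) →
      x ∈ jmS (k + 1) := fun x hx => jm_mono (Nat.le_succ k) (h0 ▸ hx)
  rw [h0] at hg
  induction hg using Algebra.adjoin_induction with
  | mem x hx =>
    obtain ⟨y, hy, rfl⟩ := hx
    have h2 : dJ (X y : J) = X (y.1, y.2 + 1) := by
      change MvPolynomial.mkDerivation ℤ _ (X y) = _
      rw [mkDerivation_X]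
    rw [h2]
    exact jm_X (Nat.succ_le_succ hy)
  | algebraMap r =>
    have h2 : dJ (algebraMap ℤ J r) = 0 := by
      change MvPolynomial.mkDerivation ℤ _ (C r) = _
      exact MvPolynomial.derivation_C _ r
    rw [h2]
    exact zero_mem _
  | add x y _ _ hx hy =>
    rw [map_add]
    exact add_mem hx hy
  | mul x y hx' hy' hx hy =>
    rw [jm_mul]
    exact add_mem (mul_mem (h1 _ hx') hy) (mul_mem (h1 _ hy') hx)

private theorem jm_mu : muJ ∈ jmS 1 := by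
  have h2 : ∀ m : ℕ, ((m : ℕ) : J) ∈ jmS 1 := fun m => natCast_mem _ m
  have h3 := h2 2
  have h4 := h2 3
  have h5 := h2 4
  have h6 := h2 6
  have h7 := h2 27
  rw [Nat.cast_ofNat] at h3 h4 h5 h6 h7
  unfold muJ
  exact mul_mem (mul_mem (mul_mem (mul_mem h6 (add_mem (mul_mem h5 (pow_mem (jm_X (by omega)) _))
    (mul_mem h7 (pow_mem (jm_X (by omega)) _)))) (sub_mem (mul_mem (mul_mem h4 (jm_X (by omega)))
    (jm_X le_rfl)) (mul_mem (mul_mem h3 (jm_X (by omega))) (jm_X le_rfl)))) (jm_X (by omega)))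
    (add_mem (add_mem (pow_mem (jm_X (by omega)) _) (mul_mem (mul_mem (jm_X (by omega))
    (jm_X (by omega))) (pow_mem (jm_X (by omega)) _))) (mul_mem (jm_X (by omega))
    (pow_mem (jm_X (by omega)) _)))


variable (L : Leaf p) {Ψ₀ Ψ₁ : Q3} {l T M N₁ : ℕ} {a : ℤ}

/-- PROOF. `leaf_frac`, `ade` (`of_mu`): `fEE = 0` on the leaf, so `jev (dLL) N = 0` in `O p`; `jets_congr`: `L.rs (jev dL N) ∈ I3`; evaluate at `P` (`ev_rs`). -/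
theorem EE_dvdN (hA : L.ADE a) (h0 : pderiv 2 Ψ₀ = 0) (h0' : L.rs (pderiv 1 Ψ₀) ≠ 0) (h1 : pderiv 1 Ψ₁ = 0)
    (h1' : L.rs (pderiv 2 Ψ₁) ≠ 0) (hmu : jev (dLL L Ψ₀ Ψ₁) (L.vO a) muJ ≠ 0) (P : BN L l T N₁) (hMN : M ≤ N₁)
    (hP : ∀ f ∈ L.I3 Ψ₀ Ψ₁, (p : ℤ_[p]) ^ M ∣ P.pt.ev f) {n : ℕ} {N : J} (hN : ∀ x ∈ N.vars, x.2 ≤ 3)
    (hNE : ∀ (K : Type) [Field K] [CharZero K] (δ : Dr K) (v : Fin 4 → K), jev δ v muJ ≠ 0 →
      jev δ v muJ ^ n * fEE δ v = jev δ v N) :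
    (p : ℤ) ^ M ∣ eval P.v (jev (dL p Ψ₀ Ψ₁) (vQ a) N) := by
  obtain ⟨K, iK, iC, ι, δ, y, W, W', c, hι, -, hjev, hy, hW, hW', hc, -⟩ := leaf_frac L hA hmu
  have hm : jev δ (fun i => ι (L.vO a i)) muJ ≠ 0 := by
    rw [hjev]
    exact fun h => hmu (hι (h.trans (map_zero ι).symm))
  obtain ⟨-, hk, -, hY⟩ := of_mu δ (fun i => ι (L.vO a i)) hm
  have hE : fEE δ (fun i => ι (L.vO a i)) = 0 :=
    ade δ (fun i => ι (L.vO a i)) hk hY hy hW hW' hc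
  have hz : jev (dLL L Ψ₀ Ψ₁) (L.vO a) N = 0 := by
    apply hι
    rw [← hjev, ← hNE K δ (fun i => ι (L.vO a i)) hm, hE, mul_zero, map_zero]
  have hI := jets_congr L h0 h0' h1 h1' a N hN
  rw [hz, sub_zero] at hI
  have hd := hP _ hI
  rw [P.dvd_iff _ hMN] at hd
  have h5 : ‖((eval P.v (jev (dL p Ψ₀ Ψ₁) (vQ a) N) : ℤ) : ℤ_[p])‖ ≤ (p : ℝ) ^ (-(M : ℤ)) := by
    rw [PadicInt.norm_le_pow_iff_mem_span_pow, Ideal.mem_span_singleton]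
    exact hd
  exact PadicInt.norm_int_le_pow_iff_dvd.1 h5

/-- THE CASE `r = 0` ON THE CURVE. PROOF. `μ`, `N^f` = values of `muJ`, `Nr` on the leaf (`jev (dLL) ..`), `D = dLL`. By `jets_congr` (`Nr`, `dJ Nr`, `dJ (dJ Nr)` have
order at most `3`) `N^f, D N^f, D^2 N^f` are divisible by `p^M` at `P`. Let `ω = μ^n W'`: `ω^2 = μ^(n+8) N^f`. With `k = M / 4`: `p^(4k) ∣ ω(P)^2`, so `p^(2k) ∣ ω(P)`; `D^2(ω^2) = 2 (D ω)^2 + 2 ω D^2 ω`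
is divisible by `p^(4k)` at `P`, so `p^k ∣ (D ω)(P)` (`p ≠ 2`). From `δ W = (k1 c + g1) W + y ftau`, `m = n + 4`: `μ^(m+1) y ftau = μ D ω - m (D μ) ω - ρ ω` with `ρ = μ (k1 c + g1)` in `O p`
(`μ k1 = 9 wr^2 D BB`, `μ g1 = wr D BB dl' / 2`, `2` is a unit). So `p^k` divides `μ^(m+1) y ftau` at `P`, `p^k` divides `μ^(2m+2) NT^f`, and `jets_congr` for `muJ^(2m+2) NT`. -/
theorem T2_dvdN (hp5 : 5 ≤ p) (hA : L.ADE a) (h0 : pderiv 2 Ψ₀ = 0) (h0' : L.rs (pderiv 1 Ψ₀) ≠ 0) (h1 : pderiv 1 Ψ₁ = 0)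
    (h1' : L.rs (pderiv 2 Ψ₁) ≠ 0) (hmu : jev (dLL L Ψ₀ Ψ₁) (L.vO a) muJ ≠ 0) (P : BN L l T N₁) (hMN : M ≤ N₁)
    (hP : ∀ f ∈ L.I3 Ψ₀ Ψ₁, (p : ℤ_[p]) ^ M ∣ P.pt.ev f) {n n' : ℕ} {Nr NT : J} (hNr : ∀ x ∈ Nr.vars, x.2 ≤ 1)
    (hNT : ∀ x ∈ NT.vars, x.2 ≤ 2)
    (hr : ∀ (K : Type) [Field K] [CharZero K] (δ : Dr K) (v : Fin 4 → K), jev δ v muJ ≠ 0 →
      jev δ v muJ ^ n * frr δ v = jev δ v Nr)
    (hT : ∀ (K : Type) [Field K] [CharZero K] (δ : Dr K) (v : Fin 4 → K), jev δ v muJ ≠ 0 →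
      jev δ v muJ ^ n' * fT2 δ v = jev δ v NT)
    (e0 : eval P.v (jev (dL p Ψ₀ Ψ₁) (vQ a) Nr) = 0) (e1 : eval P.v (jev (dL p Ψ₀ Ψ₁) (vQ a) (dJ Nr)) = 0)
    (e2 : eval P.v (jev (dL p Ψ₀ Ψ₁) (vQ a) (dJ (dJ Nr))) = 0) :
    (p : ℤ) ^ (M / 4) ∣ eval P.v (jev (dL p Ψ₀ Ψ₁) (vQ a) (muJ ^ (2 * n + 10) * NT)) := by
  obtain ⟨K, iF, iC, ι, δ, y, W, W', c, hι, hδ, hj, hy, hW, hδW, -, hWW⟩ := leaf_frac L hA hmu
  have hI : ∀ g : J, g ∈ jmS 3 → (p : ℤ_[p]) ^ M ∣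
      ((eval P.v (jev (dL p Ψ₀ Ψ₁) (vQ a) g) : ℤ) : ℤ_[p]) -
        P.pt.ev (jev (dLL L Ψ₀ Ψ₁) (L.vO a) g) := by
    intro g hg
    have h := hP _ (jets_congr L h0 h0' h1 h1' a g (jm_of hg))
    rw [map_sub] at h
    have h2 := (pow_dvd_pow (p : ℤ_[p]) hMN).trans (P.ev_rs (jev (dL p Ψ₀ Ψ₁) (vQ a) g))
    have h3 := dvd_sub h h2
    rwa [sub_sub_sub_cancel_left] at h3
  have hN0' : ∀ g : J, g ∈ jmS 3 → eval P.v (jev (dL p Ψ₀ Ψ₁) (vQ a) g) = 0 →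
      (p : ℤ_[p]) ^ M ∣ P.pt.ev (jev (dLL L Ψ₀ Ψ₁) (L.vO a) g) := by
    intro g hg h
    have h2 := hI g hg
    rwa [h, Int.cast_zero, zero_sub, dvd_neg] at h2
  have s0 : Nr ∈ jmS 1 := jm_sup hNr
  have hN0 := hN0' Nr (jm_mono (by omega) s0) e0
  have hN1 := hN0' (dJ Nr) (jm_mono (by omega) (jm_dJ s0)) e1
  have hN2 := hN0' (dJ (dJ Nr)) (jm_dJ (jm_dJ s0)) e2
  rw [jev_dJ] at hN1 hN2
  rw [jev_dJ] at hN2
  have hG := hI (muJ ^ (2 * n + 10) * NT)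
    (mul_mem (pow_mem (jm_mono (by omega) jm_mu) _) (jm_mono (by omega) (jm_sup hNT)))
  rw [map_mul (jev (dLL L Ψ₀ Ψ₁) (L.vO a)), map_pow (jev (dLL L Ψ₀ Ψ₁) (L.vO a))] at hG
  have hmuK : jev δ (fun i => ι (L.vO a i)) muJ ≠ 0 := by
    rw [hj]
    exact (map_ne_zero_iff ι hι).2 hmu
  have hr' := hr K δ (fun i => ι (L.vO a i)) hmuK
  have hT' := hT K δ (fun i => ι (L.vO a i)) hmuK
  have hdl := (of_mu δ (fun i => ι (L.vO a i)) hmuK).1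
  have hmm := jev_muJ δ (fun i => ι (L.vO a i))
  rw [hj] at hmm
  rw [hj, hj] at hr' hT'
  obtain ⟨D, hD⟩ : ∃ D : Dr (O p), D = dLL L Ψ₀ Ψ₁ := ⟨_, rfl⟩
  rw [← hD] at hN0 hN1 hN2 hG hr' hT' hmm hWW
  simp only [← hD] at hδ
  obtain ⟨μ, hμ⟩ : ∃ μ, μ = jev D (L.vO a) muJ := ⟨_, rfl⟩
  obtain ⟨N, hN⟩ : ∃ N, N = jev D (L.vO a) Nr := ⟨_, rfl⟩
  obtain ⟨NT', hNT'⟩ : ∃ N, N = jev D (L.vO a) NT := ⟨_, rfl⟩
  rw [← hμ] at hG hr' hT' hmm hWW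
  rw [← hN] at hN0 hN1 hN2 hr'
  rw [← hNT'] at hG hT'
  -- `ω = μ ^ n W'`
  obtain ⟨ω, hω⟩ : ∃ ω, ω = μ ^ n * W' := ⟨_, rfl⟩
  have hω1 : ι ω = ι μ ^ (n + 4) * W := by
    rw [hω, map_mul, map_pow, ← hWW, pow_add, mul_assoc]
  have hω2 : ω ^ 2 = μ ^ (n + 8) * N := by
    apply hι
    rw [map_pow, hω1, map_mul, map_pow, ← hr', mul_pow, hW]
    ring
  have hω3 := jm_alg3 D hω2
  have hd4 : (p : ℤ_[p]) ^ (4 * (M / 4)) ∣ (p : ℤ_[p]) ^ M := pow_dvd_pow _ (by omega)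
  have hd2 : (p : ℤ_[p]) ^ (2 * (M / 4)) ∣ (p : ℤ_[p]) ^ M := pow_dvd_pow _ (by omega)
  have a1 : (p : ℤ_[p]) ^ (2 * (M / 4)) ∣ P.pt.ev ω := by
    refine jm_sq ?_
    rw [← map_pow, hω2, map_mul, ← mul_assoc]
    exact Dvd.dvd.mul_left (hd4.trans hN0) _
  have a2 : (p : ℤ_[p]) ^ (M / 4) ∣ P.pt.ev (D ω) := by
    refine jm_sq (jm_two_dvd hp5 ?_)
    have h2 := congrArg P.pt.ev hω3
    rw [map_mul, map_pow, map_sub, map_add, map_add, map_mul, map_mul, map_mul, map_mul, map_mul,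
      map_mul, map_ofNat] at h2
    rw [h2]
    exact dvd_sub (dvd_add (dvd_add (Dvd.dvd.mul_left (hd2.trans hN2) _)
      (Dvd.dvd.mul_left (hd2.trans hN1) _)) (Dvd.dvd.mul_right (hd2.trans hN0) _))
      (Dvd.dvd.mul_right (Dvd.dvd.mul_left a1 _) _)
  have a1' : (p : ℤ_[p]) ^ (M / 4) ∣ P.pt.ev ω := (pow_dvd_pow _ (by omega)).trans a1
  -- `θ`
  obtain ⟨b', hb'⟩ : ∃ b', b' = L.vO a 0 := ⟨_, rfl⟩
  obtain ⟨a', ha'⟩ : ∃ a', a' = L.vO a 3 := ⟨_, rfl⟩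
  obtain ⟨d', hd'⟩ : ∃ d', d' = L.vO a 1 := ⟨_, rfl⟩
  obtain ⟨A', hA'⟩ : ∃ A', A' = L.vO a 2 := ⟨_, rfl⟩
  simp only [← hb', ← ha', ← hd', ← hA'] at hmm hdl hδW
  obtain ⟨w', hw'⟩ : ∃ w', w' = 3 * b' * D a' - 2 * a' * D b' := ⟨_, rfl⟩
  obtain ⟨B', hB'⟩ : ∃ B', B' = A' ^ 3 + a' * A' * d' ^ 4 + b' * d' ^ 6 := ⟨_, rfl⟩
  obtain ⟨l', hl'⟩ : ∃ l', l' = 4 * a' ^ 3 + 27 * b' ^ 2 := ⟨_, rfl⟩
  obtain ⟨X', hX'⟩ : ∃ X', X' = 18 * w' ^ 2 * d' * B' * c + w' * d' * B' * D l' := ⟨_, rfl⟩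
  have ew : ι w' = wr δ (ι a') (ι b') := by
    rw [hw', wr, hδ, hδ]
    simp only [map_sub, map_mul, map_ofNat]
  have el : ι l' = dl (ι a') (ι b') := by
    rw [hl', dl]
    simp only [map_add, map_mul, map_pow, map_ofNat]
  have eB : ι B' = ι A' ^ 3 + ι a' * ι A' * ι d' ^ 4 + ι b' * ι d' ^ 6 := by
    rw [hB']
    simp only [map_add, map_mul, map_pow]
  have eX : ι X' = 2 * ι μ * (k1 δ (ι a') (ι b') * ι c + g1 δ (ι a') (ι b')) := by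
    rw [← jm_alg2 δ hdl hmm, ← ew, ← el, ← eB, hδ, hX']
    simp only [map_add, map_mul, map_pow, map_ofNat]
  obtain ⟨θ, hθ⟩ : ∃ θ, θ = 2 * μ * D ω - 2 * ((n + 4 : ℕ) : O p) * D μ * ω - X' * ω := ⟨_, rfl⟩
  have eθ : ι θ = 2 * ι μ ^ (n + 5) * (y * ftau δ fun i => ι (L.vO a i)) := by
    rw [← jm_alg1 δ hω1 hδW eX, hθ, hδ, hδ]
    simp only [map_sub, map_mul, map_ofNat, map_natCast]
  have a3 : (p : ℤ_[p]) ^ (M / 4) ∣ P.pt.ev θ := by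
    rw [hθ, map_sub, map_sub, map_mul, map_mul _ _ ω, map_mul _ X' ω]
    exact dvd_sub (dvd_sub (Dvd.dvd.mul_left a2 _) (Dvd.dvd.mul_left a1' _))
      (Dvd.dvd.mul_left a1' _)
  have h4 : μ ^ n' * θ ^ 2 = 2 * (2 * (μ ^ (2 * n + 10) * NT')) := by
    apply hι
    simp only [map_mul, map_pow, map_ofNat]
    rw [eθ, ← hT', fT2, ← hy]
    ring
  have h5 := congrArg P.pt.ev h4
  rw [map_mul, map_pow, map_pow _ θ, map_mul, map_mul, map_ofNat] at h5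
  have a4 : (p : ℤ_[p]) ^ (M / 4) ∣ P.pt.ev (μ ^ (2 * n + 10) * NT') := by
    refine jm_two_dvd hp5 (jm_two_dvd hp5 ?_)
    rw [← h5]
    exact Dvd.dvd.mul_left (a3.trans (dvd_pow_self _ two_ne_zero)) _
  have h6 : (p : ℤ_[p]) ^ (M / 4) ∣
      ((eval P.v (jev (dL p Ψ₀ Ψ₁) (vQ a) (muJ ^ (2 * n + 10) * NT)) : ℤ) : ℤ_[p]) := by
    have h7 := (pow_dvd_pow (p : ℤ_[p]) (show M / 4 ≤ M by omega)).trans hG
    have h8 := dvd_add h7 a4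
    rwa [sub_add_cancel] at h8
  exact (PadicInt.pow_p_dvd_int_iff _ _).1 h6

end Pool.Agent.Lib.MP_3550b5_nt.AC
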