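import Mathlib
import Pool.Agent.Lib.MP_3550b5_nt.AC.ClE
import Pool.Agent.Lib.MP_3550b5_nt.AC.NvE
import Pool.Agent.Lib.MP_3550b5_nt.AC.NvH
import Pool.Agent.Lib.MP_3550b5_nt.AC.NvI

/-!
PROJECT AC, block NEAR: the points near the leaf (`D` and `A` are congruent modulo `p^N` to the values on the leaf).
-/

namespace Pool.Agent.Lib.MP_3550b5_nt.AC

open SV MvPolynomial

variable {p : ℕ} [hp : Fact p.Prime]

private lemma cl_cover {α β : Type*} (R : α → β → Prop) [∀ f, DecidablePred fun P => R P f]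
    (B : β → ℕ) (s : Multiset β) :
    ∀ Y : Finset α, (∀ P ∈ Y, ∃ f ∈ s, R P f) → (∀ f ∈ s, (Y.filter fun P => R P f).card ≤ B f) →
      Y.card ≤ (s.map B).sum := by
  induction s using Multiset.induction_on with
  | empty =>
    intro Y h1 _
    have h3 : Y = ∅ := Finset.eq_empty_of_forall_notMem fun P hP => by
      obtain ⟨f, hf, _⟩ := h1 P hP
      exact Multiset.notMem_zero f hf
    rw [h3]
    simp
  | cons f s ih =>
    intro Y h1 h2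
    rw [Multiset.map_cons, Multiset.sum_cons,
      ← Finset.card_filter_add_card_filter_not (s := Y) (fun P => R P f)]
    refine add_le_add (h2 f (Multiset.mem_cons_self f s)) (ih _ ?_ ?_)
    · intro P hP
      rw [Finset.mem_filter] at hP
      obtain ⟨f', hf', hR⟩ := h1 P hP.1
      rcases Multiset.mem_cons.1 hf' with rfl | hf'
      · exact absurd hR hP.2
      · exact ⟨f', hf', hR⟩
    · intro f' hf'
      refine le_trans (Finset.card_le_card ?_) (h2 f' (Multiset.mem_cons_of_mem hf'))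
      intro P hP
      rw [Finset.mem_filter, Finset.mem_filter] at hP
      exact Finset.mem_filter.2 ⟨hP.1.1, hP.2⟩

private lemma cl_roots {L : Leaf p} {l T N : ℕ} {Y : Finset (BN L l T N)}
    (hinj : ∀ P ∈ Y, ∀ Q ∈ Y, P.v 0 = Q.v 0 → P = Q) {R : Polynomial ℤ} (hR : R ≠ 0) :
    (Y.filter fun P => R.eval (P.v 0) = 0).card ≤ R.natDegree := by
  have h1 : (Y.filter fun P => R.eval (P.v 0) = 0).card ≤ R.roots.toFinset.card := by
    refine Finset.card_le_card_of_injOn (fun P => P.v 0) ?_ ?_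
    · intro P hP
      have hP' := (Finset.mem_filter.1 (Finset.mem_coe.1 hP)).2
      exact Finset.mem_coe.2 (Multiset.mem_toFinset.2 ((Polynomial.mem_roots hR).2 hP'))
    · intro P hP Q hQ h
      exact hinj P (Finset.mem_filter.1 (Finset.mem_coe.1 hP)).1 Q
        (Finset.mem_filter.1 (Finset.mem_coe.1 hQ)).1 h
  exact h1.trans ((Multiset.toFinset_card_le _).trans (Polynomial.card_roots' R))

/-- THE NUMBER OF GOOD POINTS OF A LEAF. PROOF. `exists_F` (`k`), `exists_psi` for `j = 1, 2` (the larger `k₀`; the points with `R(b) = 0`: at most `2 k₀ T^5 l^5`, distinct `b`), `repr_EE`, `repr_om`,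
`repr_tau`, `good_points`, `exists_factors`: the points of `Y'` are covered by the factors (`Finset.card_biUnion_le` over `s.toFinset`, or induction on the multiset), `per_factor`, and the sum:
`∑ (α₁ + α₂) T^4 l^4 + ∑ α₀ T^3 l^5 ≤ 3 k T^5 l^5`. -/
theorem class_countN (p : ℕ) [Fact p.Prime] (hp5 : 5 ≤ p) (C₀ : ℕ) : ∃ C : ℕ, ∀ (L : Leaf p) (a : ℤ), a ≠ 0 → L.Ord C₀ → L.ADE a →
    ∀ (l T N : ℕ), 1 ≤ l → 1 ≤ T → T ≤ 2 ^ l → |a| ≤ 2 ^ T → C * (T ^ 3 * l ^ 3) ≤ N → ∀ Y : Finset (BN L l T N),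
      (∀ P ∈ Y, ∀ Q ∈ Y, P.v 0 = Q.v 0 → P = Q) → (∀ P ∈ Y, Good a P.v) → Y.card ≤ C * (T ^ 5 * l ^ 5) := by
  classical
  obtain ⟨k, hk1, hF⟩ := exists_FN p
  obtain ⟨k₀, hk₀, hψ⟩ := exists_psiN p C₀ k
  obtain ⟨nE, NE, vE, hE⟩ := repr_EE
  obtain ⟨nr, Nr, vr, hr⟩ := repr_om.2
  obtain ⟨nT, NT, vT, hT⟩ := repr_tau.2
  obtain ⟨Cg, hg⟩ := good_pointsN p hp5 C₀ k k₀ hk₀ vE vr vT hE hr hT
  obtain ⟨Cf, hf⟩ := per_factorN p C₀ k k₀ hk₀ hE hr hT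
  refine ⟨(2 * k₀ + Cg + Cf * (3 * k)) + (13 * k + k₀ + Cg + Cf), ?_⟩
  intro L a ha hOrd hADE l T N hl hT1 hTl haT hN Y hinj hgood
  have hYY : 1 ≤ T ^ 3 * l ^ 3 := Nat.mul_pos (by positivity) (by positivity)
  have hNk : ∀ c, c ≤ 13 * k + k₀ + Cg + Cf → c * (T ^ 3 * l ^ 3) ≤ N := fun c hc =>
    (Nat.mul_le_mul_right _ (hc.trans (Nat.le_add_left _ _))).trans hN
  have hN1 : 12 * (k * T ^ 2 * l) + 1 ≤ N := by
    refine le_trans ?_ (hNk (13 * k) (by omega))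
    have h1 : T ^ 2 * l ≤ T ^ 3 * l ^ 3 :=
      Nat.mul_le_mul (Nat.pow_le_pow_right hT1 (by norm_num)) (Nat.le_self_pow (by norm_num) l)
    have h2 : 1 ≤ k * (T ^ 3 * l ^ 3) := Nat.mul_pos hk1 hYY
    calc 12 * (k * T ^ 2 * l) + 1 = 12 * k * (T ^ 2 * l) + 1 := by ring
      _ ≤ 12 * k * (T ^ 3 * l ^ 3) + k * (T ^ 3 * l ^ 3) :=
          Nat.add_le_add (Nat.mul_le_mul_left _ h1) h2
      _ = 13 * k * (T ^ 3 * l ^ 3) := by ring
  obtain ⟨F, hF0, hFp, d0, d1, d2, hFv⟩ := hF L l T N hl hT1 hN1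
  obtain ⟨Ψ₀, R₀, hR₀, hR₀d, p1, p2, p3, hz₀⟩ :=
    hψ L hOrd l T N hl hT1 hTl (hNk k₀ (by omega)) F hFp d0 d1 d2 hFv 1 (by decide)
  obtain ⟨Ψ₁, R₁, hR₁, hR₁d, q1, q2, q3, hz₁⟩ :=
    hψ L hOrd l T N hl hT1 hTl (hNk k₀ (by omega)) F hFp d0 d1 d2 hFv 2 (by decide)
  obtain ⟨Y₁, hY₁⟩ : ∃ Y₁ : Finset (BN L l T N), Y₁ =
    (Y.filter fun P => ¬ R₀.eval (P.v 0) = 0).filter fun P => ¬ R₁.eval (P.v 0) = 0 := ⟨_, rfl⟩
  have hmem : ∀ P ∈ Y₁, P ∈ Y ∧ R₀.eval (P.v 0) ≠ 0 ∧ R₁.eval (P.v 0) ≠ 0 := by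
    intro P hP
    rw [hY₁, Finset.mem_filter, Finset.mem_filter] at hP
    exact ⟨hP.1.1, hP.1.2, hP.2⟩
  have hc1 : Y.card ≤ Y₁.card + (k₀ * (T ^ 5 * l ^ 5) + k₀ * (T ^ 5 * l ^ 5)) := by
    have h1 := Finset.card_filter_add_card_filter_not (s := Y) (fun P => R₀.eval (P.v 0) = 0)
    have h2 := Finset.card_filter_add_card_filter_not
      (s := Y.filter fun P => ¬ R₀.eval (P.v 0) = 0) (fun P => R₁.eval (P.v 0) = 0)
    rw [← hY₁] at h2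
    have h3 := (cl_roots hinj hR₀).trans hR₀d
    have h4 := (cl_roots (Y := Y.filter fun P => ¬ R₀.eval (P.v 0) = 0)
      (fun P hP Q hQ h => hinj P (Finset.mem_filter.1 hP).1 Q (Finset.mem_filter.1 hQ).1 h)
      hR₁).trans hR₁d
    omega
  have hb₀ : PsB k₀ l T Ψ₀ := ⟨p1, p2, p3⟩
  have hb₁ : PsB k₀ l T Ψ₁ := ⟨q1, q2, q3⟩
  have hprop : ∀ P ∈ Y₁, Good a P.v ∧ eval P.v (em 1 Ψ₀) = 0 ∧
      eval P.v (em 1 (Polynomial.derivative Ψ₀)) ≠ 0 ∧ eval P.v (em 2 Ψ₁) = 0 ∧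
      eval P.v (em 2 (Polynomial.derivative Ψ₁)) ≠ 0 := by
    intro P hP
    obtain ⟨hP0, hP1, hP2⟩ := hmem P hP
    refine ⟨hgood P hP0, ?_, ?_, ?_, ?_⟩
    · rw [eval_em]; exact (hz₀ P hP1).1
    · rw [eval_em]; exact (hz₀ P hP1).2
    · rw [eval_em]; exact (hz₁ P hP2).1
    · rw [eval_em]; exact (hz₁ P hP2).2
  obtain ⟨Y', hY'sub, hc2, hY'p⟩ := hg L a ha hOrd hADE l T N hl hT1 haT (hNk Cg (by omega)) F hFp d0 d1 d2 hFv Ψ₀ Ψ₁
    hb₀ hb₁ Y₁ (fun P hP Q hQ h => hinj P (hmem P hP).1 Q (hmem Q hQ).1 h) hprop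
  obtain ⟨s, hs, hsdeg, hsz⟩ := exists_factors hFp
  have hle : ∀ i, ∀ f ∈ s, f.degreeOf i ≤ F.degreeOf i := by
    intro i f hfs
    rw [← hsdeg i]
    exact Multiset.single_le_sum (fun x _ => Nat.zero_le x) _ (Multiset.mem_map_of_mem _ hfs)
  have hc3 : Y'.card ≤ (s.map fun f => Cf * ((f.degreeOf 1 + f.degreeOf 2) * (T ^ 4 * l ^ 4) +
      f.degreeOf 0 * (T ^ 3 * l ^ 5))).sum := by
    refine cl_cover (fun (P : BN L l T N) (f : Q3) => eval P.v f = 0) _ s Y' ?_ ?_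
    · intro P _
      exact hsz P.v (hFv P)
    · intro f hfs
      refine hf L a ha hOrd l T N hl hT1 haT (hNk Cf (by omega)) Ψ₀ Ψ₁ hb₀ hb₁ _ ?_ ?_ f (hs f hfs).1 (hs f hfs).2
        ((hle 0 f hfs).trans d0) ((hle 1 f hfs).trans d1) ((hle 2 f hfs).trans d2) ?_
      · intro P hP Q hQ h
        exact hinj P (hmem P (hY'sub (Finset.mem_filter.1 hP).1)).1 Q
          (hmem Q (hY'sub (Finset.mem_filter.1 hQ).1)).1 h
      · intro P hP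
        have hP' := (Finset.mem_filter.1 hP).1
        obtain ⟨g0, g1, g2, g3, g4⟩ := hprop P (hY'sub hP')
        obtain ⟨g5, g6⟩ := hY'p P hP'
        exact ⟨g0, g1, g2, g3, g4, g5, g6⟩
      · intro P hP
        exact (Finset.mem_filter.1 hP).2
  have hsum : (s.map fun f => Cf * ((f.degreeOf 1 + f.degreeOf 2) * (T ^ 4 * l ^ 4) +
      f.degreeOf 0 * (T ^ 3 * l ^ 5))).sum = Cf * ((F.degreeOf 1 + F.degreeOf 2) * (T ^ 4 * l ^ 4) +
      F.degreeOf 0 * (T ^ 3 * l ^ 5)) := by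
    rw [← hsdeg 0, ← hsdeg 1, ← hsdeg 2, Multiset.sum_map_mul_left, Multiset.sum_map_add,
      Multiset.sum_map_mul_right, Multiset.sum_map_mul_right, Multiset.sum_map_add]
  rw [hsum] at hc3
  have hc4 : Cf * ((F.degreeOf 1 + F.degreeOf 2) * (T ^ 4 * l ^ 4) +
      F.degreeOf 0 * (T ^ 3 * l ^ 5)) ≤ Cf * (3 * k) * (T ^ 5 * l ^ 5) := by
    calc Cf * ((F.degreeOf 1 + F.degreeOf 2) * (T ^ 4 * l ^ 4) +
        F.degreeOf 0 * (T ^ 3 * l ^ 5)) ≤ Cf * ((k * T * l + k * T * l) * (T ^ 4 * l ^ 4) +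
        k * T ^ 2 * (T ^ 3 * l ^ 5)) :=
          Nat.mul_le_mul_left _ (add_le_add (Nat.mul_le_mul_right _ (add_le_add d1 d2))
            (Nat.mul_le_mul_right _ d0))
      _ = Cf * (3 * k) * (T ^ 5 * l ^ 5) := by ring
  calc Y.card ≤ Y₁.card + (k₀ * (T ^ 5 * l ^ 5) + k₀ * (T ^ 5 * l ^ 5)) := hc1
    _ ≤ (Cf * (3 * k) * (T ^ 5 * l ^ 5) + Cg * (T ^ 5 * l ^ 5)) +
        (k₀ * (T ^ 5 * l ^ 5) + k₀ * (T ^ 5 * l ^ 5)) :=
          add_le_add (hc2.trans (add_le_add (hc3.trans hc4) le_rfl)) le_rfl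
    _ = (2 * k₀ + Cg + Cf * (3 * k)) * (T ^ 5 * l ^ 5) := by ring
    _ ≤ ((2 * k₀ + Cg + Cf * (3 * k)) + (13 * k + k₀ + Cg + Cf)) * (T ^ 5 * l ^ 5) :=
          Nat.mul_le_mul_right _ (Nat.le_add_right _ _)

end Pool.Agent.Lib.MP_3550b5_nt.AC
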