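import Mathlib
import Pool.Agent.Lib.MP_3550b5_nt.AC.NvJ
import Pool.Agent.Lib.MP_3550b5_nt.AC.CuB
import Pool.Agent.Lib.MP_3550b5_nt.AC.CuC
import Pool.Agent.Lib.MP_3550b5_nt.AC.CuE
import Pool.Agent.Lib.MP_3550b5_nt.AC.CuF

/-!
PROJECT AC, block CONSTANTS: the counts of the block NEAR with constants explicit in `p`.
-/

namespace Pool.Agent.Lib.MP_3550b5_nt.AC

open SV MvPolynomial

/-- At most a constant times `p ^ d`. -/
def PB (d : ℕ) (f : ℕ → ℕ) : Prop := ∃ A : ℕ, ∀ p : ℕ, 1 ≤ p → f p ≤ A * p ^ d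

lemma PB.const (c : ℕ) : PB 0 (fun _ => c) := ⟨c, fun p _ => by rw [pow_zero, mul_one]⟩

lemma PB.id : PB 1 (fun p => p) := ⟨1, fun p _ => by rw [pow_one, one_mul]⟩

lemma PB.mono {d e : ℕ} {f : ℕ → ℕ} (h : PB d f) (hde : d ≤ e) : PB e f := by
  obtain ⟨A, hA⟩ := h
  exact ⟨A, fun p hp => (hA p hp).trans (Nat.mul_le_mul_left _ (Nat.pow_le_pow_right hp hde))⟩

lemma PB.add {d : ℕ} {f g : ℕ → ℕ} (hf : PB d f) (hg : PB d g) : PB d (fun p => f p + g p) := by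
  obtain ⟨A, hA⟩ := hf
  obtain ⟨B, hB⟩ := hg
  refine ⟨A + B, fun p hp => ?_⟩
  rw [add_mul]
  exact Nat.add_le_add (hA p hp) (hB p hp)

lemma PB.mul {d e : ℕ} {f g : ℕ → ℕ} (hf : PB d f) (hg : PB e g) : PB (d + e) (fun p => f p * g p) := by
  obtain ⟨A, hA⟩ := hf
  obtain ⟨B, hB⟩ := hg
  refine ⟨A * B, fun p hp => ?_⟩
  calc f p * g p ≤ (A * p ^ d) * (B * p ^ e) := Nat.mul_le_mul (hA p hp) (hB p hp)
    _ = A * B * p ^ (d + e) := by ring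

/-- The total constant is `O(p ^ 9)`. -/
private lemma pb_total (C₀ d₁ d₂ d₃ d₄ d₅ : ℕ) : ∃ A : ℕ, ∀ p k E m k₀ c₁ c₂ c₃ g j₂ j₃ Cg Cf : ℕ, 1 ≤ p → k = 321 * p →
    E = 2 * k + C₀ * (k + 1) ^ 2 → m = 40 * p * E + 1 → k₀ = 8 * m * (m + 8) →
    c₁ = d₁ * (7 * k₀ + p) + 1 → c₂ = d₂ * (7 * k₀ + p) + 1 → c₃ = d₃ * (7 * k₀ + p) + 1 →
    Cg = (2 * k + C₀ * (k + 1) ^ 2) * (56 * (c₁ + c₂) + 8) + (32 * (c₁ + c₂) + 7 + c₃) →
    g = 160 * p * C₀ * k + 160 * p + 2 * k + 1 → j₂ = d₄ * k₀ → j₃ = d₅ * k₀ →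
    Cf = (2 * g * (1 + 2 * k₀ + j₂ + j₃) + 1) + 13 * g →
    (2 * k₀ + Cg + Cf * (3 * k)) + (13 * k + k₀ + Cg + Cf) ≤ A * p ^ 9 := by
  have hk : PB 1 (fun p => 321 * p) := by simpa using (PB.const 321).mul PB.id
  have hk1 : PB 1 (fun p => 321 * p + 1) := hk.add ((PB.const 1).mono (by omega))
  have hE : PB 2 (fun p => 2 * (321 * p) + C₀ * (321 * p + 1) ^ 2) := by
    have h1 : PB 2 (fun p => 2 * (321 * p)) := ((PB.const 2).mul hk).mono (by omega)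
    have h2 : PB 2 (fun p => C₀ * (321 * p + 1) ^ 2) := by
      have h3 := (PB.const C₀).mul (hk1.mul hk1)
      have e : (fun p => C₀ * (321 * p + 1) ^ 2) = fun p => C₀ * ((321 * p + 1) * (321 * p + 1)) := by
        funext p
        rw [pow_two]
      rw [e]
      exact h3
    exact h1.add h2
  obtain ⟨fE, hfE⟩ : ∃ fE : ℕ → ℕ, fE = fun p => 2 * (321 * p) + C₀ * (321 * p + 1) ^ 2 := ⟨_, rfl⟩
  rw [← hfE] at hE
  have hm : PB 3 (fun p => 40 * p * fE p + 1) :=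
    (((PB.const 40).mul PB.id).mul hE).add ((PB.const 1).mono (by omega))
  obtain ⟨fm, hfm⟩ : ∃ fm : ℕ → ℕ, fm = fun p => 40 * p * fE p + 1 := ⟨_, rfl⟩
  rw [← hfm] at hm
  have hk₀ : PB 6 (fun p => 8 * fm p * (fm p + 8)) :=
    ((PB.const 8).mul hm).mul (hm.add ((PB.const 8).mono (by omega)))
  obtain ⟨fk, hfk⟩ : ∃ fk : ℕ → ℕ, fk = fun p => 8 * fm p * (fm p + 8) := ⟨_, rfl⟩
  rw [← hfk] at hk₀
  have hc : ∀ d, PB 6 (fun p => d * (7 * fk p + p) + 1) := fun d =>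
    (((PB.const d).mul (((PB.const 7).mul hk₀).add (PB.id.mono (by omega)))).mono (by omega)).add
      ((PB.const 1).mono (by omega))
  obtain ⟨fc, hfc⟩ : ∃ fc : ℕ → ℕ → ℕ, fc = fun d p => d * (7 * fk p + p) + 1 := ⟨_, rfl⟩
  have hc' : ∀ d, PB 6 (fc d) := by
    intro d
    rw [hfc]
    exact hc d
  have hCg : PB 8 (fun p => fE p * (56 * (fc d₁ p + fc d₂ p) + 8) + (32 * (fc d₁ p + fc d₂ p) + 7 + fc d₃ p)) := by
    refine (hE.mul ((((PB.const 56).mul ((hc' d₁).add (hc' d₂))).mono (by omega : 0 + 6 ≤ 6)).add ((PB.const 8).mono (by omega)))).add ?_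
    exact ((((((PB.const 32).mul ((hc' d₁).add (hc' d₂))).mono (by omega : 0 + 6 ≤ 6)).add ((PB.const 7).mono (by omega))).add (hc' d₃)).mono (by omega : 6 ≤ 8))
  obtain ⟨fCg, hfCg⟩ : ∃ f : ℕ → ℕ, f = fun p => fE p * (56 * (fc d₁ p + fc d₂ p) + 8) + (32 * (fc d₁ p + fc d₂ p) + 7 + fc d₃ p) := ⟨_, rfl⟩
  rw [← hfCg] at hCg
  have hg : PB 2 (fun p => 160 * p * C₀ * (321 * p) + 160 * p + 2 * (321 * p) + 1) := by
    refine (((((((PB.const 160).mul PB.id).mul (PB.const C₀)).mul hk).mono (by omega)).add ?_).add ?_).add ?_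
    · exact ((PB.const 160).mul PB.id).mono (by omega)
    · exact ((PB.const 2).mul hk).mono (by omega)
    · exact (PB.const 1).mono (by omega)
  obtain ⟨fg, hfg⟩ : ∃ f : ℕ → ℕ, f = fun p => 160 * p * C₀ * (321 * p) + 160 * p + 2 * (321 * p) + 1 := ⟨_, rfl⟩
  rw [← hfg] at hg
  have hCf : PB 8 (fun p => (2 * fg p * (1 + 2 * fk p + d₄ * fk p + d₅ * fk p) + 1) + 13 * fg p) := by
    refine ((((PB.const 2).mul hg).mul ?_ : PB (0 + 2 + 6) _).mono (by omega) |>.add ((PB.const 1).mono (by omega))).add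
      (((PB.const 13).mul hg).mono (by omega))
    refine ((((PB.const 1).mono (by omega)).add (((PB.const 2).mul hk₀).mono (by omega))).add
      (((PB.const d₄).mul hk₀).mono (by omega))).add (((PB.const d₅).mul hk₀).mono (by omega))
  obtain ⟨fCf, hfCf⟩ : ∃ f : ℕ → ℕ, f = fun p => (2 * fg p * (1 + 2 * fk p + d₄ * fk p + d₅ * fk p) + 1) + 13 * fg p := ⟨_, rfl⟩
  rw [← hfCf] at hCf
  have htot : PB 9 (fun p => (2 * fk p + fCg p + fCf p * (3 * (321 * p))) + (13 * (321 * p) + fk p + fCg p + fCf p)) := by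
    refine (((((PB.const 2).mul hk₀).mono (by omega)).add (hCg.mono (by omega))).add
      ((hCf.mul ((PB.const 3).mul hk)).mono (by omega))).add ?_
    exact (((((PB.const 13).mul hk).mono (by omega)).add (hk₀.mono (by omega))).add (hCg.mono (by omega))).add (hCf.mono (by omega))
  obtain ⟨A, hA⟩ := htot
  refine ⟨A, ?_⟩
  intro p k E m k₀ c₁ c₂ c₃ g j₂ j₃ Cg Cf hp e1 e2 e3 e4 e5 e6 e7 e8 e9 e10 e11 e12
  have a1 : E = fE p := by rw [e2, hfE, e1]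
  have a2 : m = fm p := by rw [e3, hfm, a1]
  have a3 : k₀ = fk p := by rw [e4, hfk, a2]
  have a4 : Cg = fCg p := by rw [e8, hfCg, hfc, e5, e6, e7, ← e2, a1, a3]
  have a5 : g = fg p := by rw [e9, hfg, e1]
  have a6 : Cf = fCf p := by rw [e12, hfCf, e10, e11, a3, a5]
  rw [a6, a4, a3, e1]
  exact hA p hp

variable {p : ℕ} [hp : Fact p.Prime]

private lemma cl_cover {α β : Type*} (R : α → β → Prop) [∀ f, DecidablePred fun P => R P f]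
    (B : β → ℕ) (s : Multiset β) :
    ∀ Y : Finset α, (∀ P ∈ Y, ∃ f ∈ s, R P f) → (∀ f ∈ s, (Y.filter fun P => R P f).card ≤ B f) →
      Y.card ≤ (s.map B).sum := by
  induction s using Multiset.induction_on with
  | empty =>
    intro Y h1 _
    have h3 : Y = ∅ := Finset.eq_empty_of_forall_notMem fun P hP => by
      obtain ⟨f, hf, _⟩ := h1 P hP
      exact Multiset.notMem_zero f hf
    rw [h3]
    simp
  | cons f s ih =>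
    intro Y h1 h2
    rw [Multiset.map_cons, Multiset.sum_cons,
      ← Finset.card_filter_add_card_filter_not (s := Y) (fun P => R P f)]
    refine add_le_add (h2 f (Multiset.mem_cons_self f s)) (ih _ ?_ ?_)
    · intro P hP
      rw [Finset.mem_filter] at hP
      obtain ⟨f', hf', hR⟩ := h1 P hP.1
      rcases Multiset.mem_cons.1 hf' with rfl | hf'
      · exact absurd hR hP.2
      · exact ⟨f', hf', hR⟩
    · intro f' hf'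
      refine le_trans (Finset.card_le_card ?_) (h2 f' (Multiset.mem_cons_of_mem hf'))
      intro P hP
      rw [Finset.mem_filter, Finset.mem_filter] at hP
      exact Finset.mem_filter.2 ⟨hP.1.1, hP.2⟩

private lemma cl_roots {L : Leaf p} {l T N : ℕ} {Y : Finset (BN L l T N)}
    (hinj : ∀ P ∈ Y, ∀ Q ∈ Y, P.v 0 = Q.v 0 → P = Q) {R : Polynomial ℤ} (hR : R ≠ 0) :
    (Y.filter fun P => R.eval (P.v 0) = 0).card ≤ R.natDegree := by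
  have h1 : (Y.filter fun P => R.eval (P.v 0) = 0).card ≤ R.roots.toFinset.card := by
    refine Finset.card_le_card_of_injOn (fun P => P.v 0) ?_ ?_
    · intro P hP
      have hP' := (Finset.mem_filter.1 (Finset.mem_coe.1 hP)).2
      exact Finset.mem_coe.2 (Multiset.mem_toFinset.2 ((Polynomial.mem_roots hR).2 hP'))
    · intro P hP Q hQ h
      exact hinj P (Finset.mem_filter.1 (Finset.mem_coe.1 hP)).1 Q
        (Finset.mem_filter.1 (Finset.mem_coe.1 hQ)).1 h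
  exact h1.trans ((Multiset.toFinset_card_le _).trans (Polynomial.card_roots' R))

/-- THE NUMBER OF GOOD POINTS OF A LEAF, with a constant polynomial in `p`. PROOF. `exists_F` (`k`), `exists_psi` for `j = 1, 2` (the larger `k₀`; the points with `R(b) = 0`: at most `2 k₀ T^5 l^5`, distinct `b`), `repr_EE`, `repr_om`,
`repr_tau`, `good_points`, `exists_factors`: the points of `Y'` are covered by the factors (`Finset.card_biUnion_le` over `s.toFinset`, or induction on the multiset), `per_factor`, and the sum: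
`∑ (α₁ + α₂) T^4 l^4 + ∑ α₀ T^3 l^5 ≤ 3 k T^5 l^5`. -/
theorem class_countU (C₀ : ℕ) : ∃ C : ℕ, ∀ (p : ℕ) [Fact p.Prime], 5 ≤ p → ∀ (L : Leaf p) (a : ℤ), a ≠ 0 → L.Ord C₀ → L.ADE a →
    ∀ (l T N : ℕ), 1 ≤ l → 1 ≤ T → T ≤ 2 ^ l → |a| ≤ 2 ^ T → C * p ^ 9 * (T ^ 3 * l ^ 3) ≤ N → ∀ Y : Finset (BN L l T N),
      (∀ P ∈ Y, ∀ Q ∈ Y, P.v 0 = Q.v 0 → P = Q) → (∀ P ∈ Y, Good a P.v) → Y.card ≤ C * p ^ 9 * (T ^ 5 * l ^ 5) := by
  classical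
  obtain ⟨nE, NE, vE, hE⟩ := repr_EE
  obtain ⟨nr, Nr, vr, hr⟩ := repr_om.2
  obtain ⟨nT, NT, vT, hT⟩ := repr_tau.2
  obtain ⟨d₁, d₂, d₃, hg⟩ := good_pointsU vE vr vT hE hr hT
  obtain ⟨d₄, d₅, hf⟩ := per_factorU hE hr hT
  obtain ⟨C, hC⟩ := pb_total C₀ d₁ d₂ d₃ d₄ d₅
  refine ⟨C, ?_⟩
  intro p _ hp5
  obtain ⟨k, hk⟩ : ∃ k, k = 321 * p := ⟨_, rfl⟩
  obtain ⟨E, hE'⟩ : ∃ E, E = 2 * k + C₀ * (k + 1) ^ 2 := ⟨_, rfl⟩
  obtain ⟨m, hm⟩ : ∃ m, m = 40 * p * E + 1 := ⟨_, rfl⟩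
  obtain ⟨k₀, hk₀'⟩ : ∃ k₀, k₀ = 8 * m * (m + 8) := ⟨_, rfl⟩
  obtain ⟨c₁, hc₁⟩ : ∃ c, c = d₁ * (7 * k₀ + p) + 1 := ⟨_, rfl⟩
  obtain ⟨c₂, hc₂⟩ : ∃ c, c = d₂ * (7 * k₀ + p) + 1 := ⟨_, rfl⟩
  obtain ⟨c₃, hc₃⟩ : ∃ c, c = d₃ * (7 * k₀ + p) + 1 := ⟨_, rfl⟩
  obtain ⟨Cg, hCg⟩ : ∃ Cg, Cg = (2 * k + C₀ * (k + 1) ^ 2) * (56 * (c₁ + c₂) + 8) + (32 * (c₁ + c₂) + 7 + c₃) := ⟨_, rfl⟩
  obtain ⟨g, hge⟩ : ∃ g, g = 160 * p * C₀ * k + 160 * p + 2 * k + 1 := ⟨_, rfl⟩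
  obtain ⟨j₂, hj₂⟩ : ∃ j, j = d₄ * k₀ := ⟨_, rfl⟩
  obtain ⟨j₃, hj₃⟩ : ∃ j, j = d₅ * k₀ := ⟨_, rfl⟩
  obtain ⟨Cf, hCf⟩ : ∃ Cf, Cf = (2 * g * (1 + 2 * k₀ + j₂ + j₃) + 1) + 13 * g := ⟨_, rfl⟩
  have hk1 : 1 ≤ k := by omega
  have hm1 : 1 ≤ m := by
    rw [hm]
    exact Nat.le_add_left _ _
  have hk₀ : 1 ≤ k₀ := by
    rw [hk₀']
    exact Nat.mul_pos (by omega) (by omega)
  have hF := exists_FU p hk
  have hψ := exists_psiU p C₀ k hE' hm hk₀'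
  replace hg := hg p hp5 C₀ k k₀ c₁ c₂ c₃ Cg hk₀ hc₁ hc₂ hc₃ hCg
  replace hf := hf p C₀ k k₀ g j₂ j₃ Cf hk₀ hge hj₂ hj₃ hCf
  have htot := hC p k E m k₀ c₁ c₂ c₃ g j₂ j₃ Cg Cf (by omega) hk hE' hm hk₀' hc₁ hc₂ hc₃ hCg hge hj₂ hj₃ hCf
  intro L a ha hOrd hADE l T N hl hT1 hTl haT hN₀ Y hinj hgood
  have hN := (Nat.mul_le_mul_right (T ^ 3 * l ^ 3) htot).trans hN₀
  refine le_trans ?_ (Nat.mul_le_mul_right (T ^ 5 * l ^ 5) htot)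
  have hYY : 1 ≤ T ^ 3 * l ^ 3 := Nat.mul_pos (by positivity) (by positivity)
  have hNk : ∀ c, c ≤ 13 * k + k₀ + Cg + Cf → c * (T ^ 3 * l ^ 3) ≤ N := fun c hc =>
    (Nat.mul_le_mul_right _ (hc.trans (Nat.le_add_left _ _))).trans hN
  have hN1 : 12 * (k * T ^ 2 * l) + 1 ≤ N := by
    refine le_trans ?_ (hNk (13 * k) (by omega))
    have h1 : T ^ 2 * l ≤ T ^ 3 * l ^ 3 :=
      Nat.mul_le_mul (Nat.pow_le_pow_right hT1 (by norm_num)) (Nat.le_self_pow (by norm_num) l)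
    have h2 : 1 ≤ k * (T ^ 3 * l ^ 3) := Nat.mul_pos hk1 hYY
    calc 12 * (k * T ^ 2 * l) + 1 = 12 * k * (T ^ 2 * l) + 1 := by ring
      _ ≤ 12 * k * (T ^ 3 * l ^ 3) + k * (T ^ 3 * l ^ 3) :=
          Nat.add_le_add (Nat.mul_le_mul_left _ h1) h2
      _ = 13 * k * (T ^ 3 * l ^ 3) := by ring
  obtain ⟨F, hF0, hFp, d0, d1, d2, hFv⟩ := hF L l T N hl hT1 hN1
  obtain ⟨Ψ₀, R₀, hR₀, hR₀d, p1, p2, p3, hz₀⟩ :=
    hψ L hOrd l T N hl hT1 hTl (hNk k₀ (by omega)) F hFp d0 d1 d2 hFv 1 (by decide)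
  obtain ⟨Ψ₁, R₁, hR₁, hR₁d, q1, q2, q3, hz₁⟩ :=
    hψ L hOrd l T N hl hT1 hTl (hNk k₀ (by omega)) F hFp d0 d1 d2 hFv 2 (by decide)
  obtain ⟨Y₁, hY₁⟩ : ∃ Y₁ : Finset (BN L l T N), Y₁ =
    (Y.filter fun P => ¬ R₀.eval (P.v 0) = 0).filter fun P => ¬ R₁.eval (P.v 0) = 0 := ⟨_, rfl⟩
  have hmem : ∀ P ∈ Y₁, P ∈ Y ∧ R₀.eval (P.v 0) ≠ 0 ∧ R₁.eval (P.v 0) ≠ 0 := by
    intro P hP
    rw [hY₁, Finset.mem_filter, Finset.mem_filter] at hP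
    exact ⟨hP.1.1, hP.1.2, hP.2⟩
  have hc1 : Y.card ≤ Y₁.card + (k₀ * (T ^ 5 * l ^ 5) + k₀ * (T ^ 5 * l ^ 5)) := by
    have h1 := Finset.card_filter_add_card_filter_not (s := Y) (fun P => R₀.eval (P.v 0) = 0)
    have h2 := Finset.card_filter_add_card_filter_not
      (s := Y.filter fun P => ¬ R₀.eval (P.v 0) = 0) (fun P => R₁.eval (P.v 0) = 0)
    rw [← hY₁] at h2
    have h3 := (cl_roots hinj hR₀).trans hR₀d
    have h4 := (cl_roots (Y := Y.filter fun P => ¬ R₀.eval (P.v 0) = 0)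
      (fun P hP Q hQ h => hinj P (Finset.mem_filter.1 hP).1 Q (Finset.mem_filter.1 hQ).1 h)
      hR₁).trans hR₁d
    omega
  have hb₀ : PsB k₀ l T Ψ₀ := ⟨p1, p2, p3⟩
  have hb₁ : PsB k₀ l T Ψ₁ := ⟨q1, q2, q3⟩
  have hprop : ∀ P ∈ Y₁, Good a P.v ∧ eval P.v (em 1 Ψ₀) = 0 ∧
      eval P.v (em 1 (Polynomial.derivative Ψ₀)) ≠ 0 ∧ eval P.v (em 2 Ψ₁) = 0 ∧
      eval P.v (em 2 (Polynomial.derivative Ψ₁)) ≠ 0 := by
    intro P hP
    obtain ⟨hP0, hP1, hP2⟩ := hmem P hP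
    refine ⟨hgood P hP0, ?_, ?_, ?_, ?_⟩
    · rw [eval_em]; exact (hz₀ P hP1).1
    · rw [eval_em]; exact (hz₀ P hP1).2
    · rw [eval_em]; exact (hz₁ P hP2).1
    · rw [eval_em]; exact (hz₁ P hP2).2
  obtain ⟨Y', hY'sub, hc2, hY'p⟩ := hg L a ha hOrd hADE l T N hl hT1 haT (hNk Cg (by omega)) F hFp d0 d1 d2 hFv Ψ₀ Ψ₁
    hb₀ hb₁ Y₁ (fun P hP Q hQ h => hinj P (hmem P hP).1 Q (hmem Q hQ).1 h) hprop
  obtain ⟨s, hs, hsdeg, hsz⟩ := exists_factors hFp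
  have hle : ∀ i, ∀ f ∈ s, f.degreeOf i ≤ F.degreeOf i := by
    intro i f hfs
    rw [← hsdeg i]
    exact Multiset.single_le_sum (fun x _ => Nat.zero_le x) _ (Multiset.mem_map_of_mem _ hfs)
  have hc3 : Y'.card ≤ (s.map fun f => Cf * ((f.degreeOf 1 + f.degreeOf 2) * (T ^ 4 * l ^ 4) +
      f.degreeOf 0 * (T ^ 3 * l ^ 5))).sum := by
    refine cl_cover (fun (P : BN L l T N) (f : Q3) => eval P.v f = 0) _ s Y' ?_ ?_
    · intro P _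
      exact hsz P.v (hFv P)
    · intro f hfs
      refine hf L a ha hOrd l T N hl hT1 haT (hNk Cf (by omega)) Ψ₀ Ψ₁ hb₀ hb₁ _ ?_ ?_ f (hs f hfs).1 (hs f hfs).2
        ((hle 0 f hfs).trans d0) ((hle 1 f hfs).trans d1) ((hle 2 f hfs).trans d2) ?_
      · intro P hP Q hQ h
        exact hinj P (hmem P (hY'sub (Finset.mem_filter.1 hP).1)).1 Q
          (hmem Q (hY'sub (Finset.mem_filter.1 hQ).1)).1 h
      · intro P hP
        have hP' := (Finset.mem_filter.1 hP).1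
        obtain ⟨g0, g1, g2, g3, g4⟩ := hprop P (hY'sub hP')
        obtain ⟨g5, g6⟩ := hY'p P hP'
        exact ⟨g0, g1, g2, g3, g4, g5, g6⟩
      · intro P hP
        exact (Finset.mem_filter.1 hP).2
  have hsum : (s.map fun f => Cf * ((f.degreeOf 1 + f.degreeOf 2) * (T ^ 4 * l ^ 4) +
      f.degreeOf 0 * (T ^ 3 * l ^ 5))).sum = Cf * ((F.degreeOf 1 + F.degreeOf 2) * (T ^ 4 * l ^ 4) +
      F.degreeOf 0 * (T ^ 3 * l ^ 5)) := by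
    rw [← hsdeg 0, ← hsdeg 1, ← hsdeg 2, Multiset.sum_map_mul_left, Multiset.sum_map_add,
      Multiset.sum_map_mul_right, Multiset.sum_map_mul_right, Multiset.sum_map_add]
  rw [hsum] at hc3
  have hc4 : Cf * ((F.degreeOf 1 + F.degreeOf 2) * (T ^ 4 * l ^ 4) +
      F.degreeOf 0 * (T ^ 3 * l ^ 5)) ≤ Cf * (3 * k) * (T ^ 5 * l ^ 5) := by
    calc Cf * ((F.degreeOf 1 + F.degreeOf 2) * (T ^ 4 * l ^ 4) +
        F.degreeOf 0 * (T ^ 3 * l ^ 5)) ≤ Cf * ((k * T * l + k * T * l) * (T ^ 4 * l ^ 4) +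
        k * T ^ 2 * (T ^ 3 * l ^ 5)) :=
          Nat.mul_le_mul_left _ (add_le_add (Nat.mul_le_mul_right _ (add_le_add d1 d2))
            (Nat.mul_le_mul_right _ d0))
      _ = Cf * (3 * k) * (T ^ 5 * l ^ 5) := by ring
  calc Y.card ≤ Y₁.card + (k₀ * (T ^ 5 * l ^ 5) + k₀ * (T ^ 5 * l ^ 5)) := hc1
    _ ≤ (Cf * (3 * k) * (T ^ 5 * l ^ 5) + Cg * (T ^ 5 * l ^ 5)) +
        (k₀ * (T ^ 5 * l ^ 5) + k₀ * (T ^ 5 * l ^ 5)) :=
          add_le_add (hc2.trans (add_le_add (hc3.trans hc4) le_rfl)) le_rfl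
    _ = (2 * k₀ + Cg + Cf * (3 * k)) * (T ^ 5 * l ^ 5) := by ring
    _ ≤ ((2 * k₀ + Cg + Cf * (3 * k)) + (13 * k + k₀ + Cg + Cf)) * (T ^ 5 * l ^ 5) :=
          Nat.mul_le_mul_right _ (Nat.le_add_right _ _)

end Pool.Agent.Lib.MP_3550b5_nt.AC
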