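import Mathlib

/-!
PROJECT AC, block UNIFORM ZERO ESTIMATE: the order of vanishing of `P(r, f(r))`, `f` the square of the sigma function modulo `p` divided by `r`,
with an absolute constant (duplication and Newton polygons).
-/

namespace Pool.Agent.Lib.MP_3550b5_nt.AC.Uz

open Polynomial

variable {K : Type*} [Field K]

/-- The order of a polynomial at a place of the projective line: the multiplicity of the root `t`, or minus the degree. -/
noncomputable def wt (x : Option K) (c : K[X]) : ℤ :=
  match x with
  | none => -(c.natDegree : ℤ)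
  | some t => (c.rootMultiplicity t : ℤ)

theorem wt_mul (x : Option K) {c d : K[X]} (hc : c ≠ 0) (hd : d ≠ 0) : wt x (c * d) = wt x c + wt x d := by
  cases x with
  | none =>
    simp only [wt]
    rw [natDegree_mul hc hd]
    push_cast
    ring
  | some t =>
    simp only [wt]
    rw [rootMultiplicity_mul (mul_ne_zero hc hd)]
    push_cast
    ring

private theorem uza_one (x : Option K) : wt x (1 : K[X]) = 0 := by
  cases x with
  | none => simp [wt]
  | some t =>
    simp only [wt]
    rw [← C_1, rootMultiplicity_C]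
    simp

theorem wt_pow (x : Option K) {c : K[X]} (hc : c ≠ 0) (n : ℕ) : wt x (c ^ n) = n * wt x c := by
  induction n with
  | zero => simp [uza_one]
  | succ n ih =>
    rw [pow_succ, wt_mul x (pow_ne_zero n hc) hc, ih]
    push_cast
    ring

theorem wt_C (x : Option K) {γ : K} (h : γ ≠ 0) : wt x (C γ) = 0 := by
  cases x with
  | none => simp [wt]
  | some t =>
    simp only [wt]
    rw [rootMultiplicity_C]
    simp

theorem wt_add (x : Option K) {c d : K[X]} (hc : c ≠ 0) (hd : d ≠ 0) (h : c + d ≠ 0) :
    min (wt x c) (wt x d) ≤ wt x (c + d) := by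
  cases x with
  | none =>
    simp only [wt]
    have h1 := natDegree_add_le c d
    rcases le_max_iff.1 h1 with h2 | h2
    · exact (min_le_left _ _).trans (by omega)
    · exact (min_le_right _ _).trans (by omega)
  | some t =>
    simp only [wt]
    have h1 := rootMultiplicity_add (a := t) h
    rcases min_le_iff.1 h1 with h2 | h2
    · exact (min_le_left _ _).trans (by exact_mod_cast h2)
    · exact (min_le_right _ _).trans (by exact_mod_cast h2)

private theorem uza_nn (x : Option K) (c : K[X]) :
    0 ≤ (open Classical in if c = 0 then (0 : ℝ) else (2 : ℝ) ^ (-wt x c)) := by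
  split_ifs
  · exact le_rfl
  · positivity

private theorem uza_na (x : Option K) (c d : K[X]) :
    (open Classical in if c + d = 0 then (0 : ℝ) else (2 : ℝ) ^ (-wt x (c + d))) ≤
      max (open Classical in if c = 0 then (0 : ℝ) else (2 : ℝ) ^ (-wt x c))
        (open Classical in if d = 0 then (0 : ℝ) else (2 : ℝ) ^ (-wt x d)) := by
  by_cases hc : c = 0
  · subst hc
    rw [zero_add]
    exact le_max_right _ _
  by_cases hd : d = 0
  · subst hd
    rw [add_zero]
    exact le_max_left _ _
  rw [if_neg hc, if_neg hd]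
  by_cases h : c + d = 0
  · rw [if_pos h]
    exact le_max_of_le_left (by positivity)
  rw [if_neg h]
  rcases min_le_iff.1 (wt_add x hc hd h) with h2 | h2
  · exact le_max_of_le_left (zpow_le_zpow_right₀ (by norm_num) (by omega))
  · exact le_max_of_le_right (zpow_le_zpow_right₀ (by norm_num) (by omega))

/-- The absolute value of a place. -/
noncomputable def av (x : Option K) : AbsoluteValue K[X] ℝ where
  toFun c := open Classical in if c = 0 then 0 else (2 : ℝ) ^ (-wt x c)
  map_mul' := by
    intro c d
    by_cases hc : c = 0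
    · subst hc
      simp
    by_cases hd : d = 0
    · subst hd
      simp
    rw [if_neg (mul_ne_zero hc hd), if_neg hc, if_neg hd, wt_mul x hc hd,
      ← zpow_add₀ (by norm_num : (2 : ℝ) ≠ 0)]
    congr 1
    ring
  nonneg' := uza_nn x
  eq_zero' := by
    intro c
    by_cases hc : c = 0
    · subst hc
      simp
    · refine ⟨fun h => ?_, fun h => absurd h hc⟩
      rw [if_neg hc] at h
      exact absurd h (by positivity)
  add_le' := by
    intro c d
    refine (uza_na x c d).trans (max_le ?_ ?_)
    · exact le_add_of_nonneg_right (uza_nn x d)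
    · exact le_add_of_nonneg_left (uza_nn x c)

theorem av_apply (x : Option K) {c : K[X]} (h : c ≠ 0) : av x c = (2 : ℝ) ^ (-wt x c) :=
  if_neg h

theorem av_na (x : Option K) : IsNonarchimedean (av x) := by
  intro c d
  exact uza_na x c d

/-- The roots `u` of `P(x, u)` have order at least `s` at the place `x`, `q = 2^(-s)` (in terms of the Newton polygon). -/
def Slp (x : Option K) (q : ℝ) (P : K[X][X]) : Prop :=
  ∀ i, av x (P.coeff i) * q ^ i ≤ av x P.leadingCoeff * q ^ P.natDegree

/-- PROOF. The coefficients of index `> natDegree` vanish; `q' ^ i = q ^ i (q' / q) ^ i` and `i ≤ natDegree`. -/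
theorem Slp.mono {x : Option K} {q q' : ℝ} (hq : 0 < q) (hqq : q ≤ q') {P : K[X][X]} (h : Slp x q P) : Slp x q' P := by
  intro i
  have hL : 0 ≤ av x P.leadingCoeff := AbsoluteValue.nonneg _ _
  have hq' : 0 < q' := hq.trans_le hqq
  rcases lt_or_ge P.natDegree i with hi | hi
  · rw [coeff_eq_zero_of_natDegree_lt hi, AbsoluteValue.map_zero, zero_mul]
    positivity
  · have h1 := h i
    have e1 : q' ^ i = q ^ i * (q' / q) ^ i := by
      rw [← mul_pow, mul_div_cancel₀ _ hq.ne']
    have e2 : q' ^ P.natDegree = q ^ P.natDegree * (q' / q) ^ P.natDegree := by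
      rw [← mul_pow, mul_div_cancel₀ _ hq.ne']
    have h3 : 1 ≤ q' / q := (one_le_div hq).2 hqq
    rw [e1, e2, ← mul_assoc, ← mul_assoc]
    exact mul_le_mul h1 (pow_le_pow_right₀ h3 hi) (by positivity) (by positivity)

/-- GAUSS. PROOF. `Slp x q Q` iff `gaussNorm (av x) q Q = av x Q.leadingCoeff * q ^ Q.natDegree` (`≥` always, `le_gaussNorm`; `exists_eq_gaussNorm`); `Polynomial.gaussNorm_mul` (`av_na`), `leadingCoeff_mul`,
`natDegree_mul`: if `gaussNorm P > av x P.leadingCoeff * q ^ P.natDegree` the product would be larger. -/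
theorem Slp.of_mul {x : Option K} {q : ℝ} (hq : 0 < q) {P R : K[X][X]} (hP : P ≠ 0) (hR : R ≠ 0) (h : Slp x q (P * R)) : Slp x q P := by
  obtain ⟨i, hi⟩ := exists_eq_gaussNorm (av x) q (P * R)
  have h1 : gaussNorm (av x) q (P * R) ≤ av x (P * R).leadingCoeff * q ^ (P * R).natDegree := by
    rw [hi]
    exact h i
  rw [gaussNorm_mul (av_na x) hq, leadingCoeff_mul, AbsoluteValue.map_mul, natDegree_mul hP hR,
    pow_add] at h1
  have h2 : av x R.leadingCoeff * q ^ R.natDegree ≤ gaussNorm (av x) q R :=
    R.le_gaussNorm (av x) hq.le R.natDegree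
  have h3 : 0 < av x R.leadingCoeff * q ^ R.natDegree :=
    mul_pos (AbsoluteValue.pos _ (leadingCoeff_ne_zero.2 hR)) (pow_pos hq _)
  have h4 : 0 ≤ gaussNorm (av x) q P := P.gaussNorm_nonneg (av x) hq.le
  have h5 : gaussNorm (av x) q P * (av x R.leadingCoeff * q ^ R.natDegree) ≤
      (av x P.leadingCoeff * q ^ P.natDegree) * (av x R.leadingCoeff * q ^ R.natDegree) := by
    refine (mul_le_mul_of_nonneg_left h2 h4).trans (h1.trans (le_of_eq ?_))
    ring
  have h6 := le_of_mul_le_mul_right h5 h3
  intro j
  exact (P.le_gaussNorm (av x) hq.le j).trans h6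

end Pool.Agent.Lib.MP_3550b5_nt.AC.Uz
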