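import Mathlib
import Pool.Agent.Lib.MP_3550b5_nt.AC.UzA

/-!
PROJECT AC, block UNIFORM ZERO ESTIMATE: the order of vanishing of `P(r, f(r))`, `f` the square of the sigma function modulo `p` divided by `r`,
with an absolute constant (duplication and Newton polygons).
-/

namespace Pool.Agent.Lib.MP_3550b5_nt.AC.Uz

open Polynomial

variable {K : Type*} [Field K]

/-- The denominator of `r(2 z)`, `r = 1 / x`. -/
noncomputable def tht (a b : K) : K[X] := 1 - C (2 * a) * X ^ 2 - C (8 * b) * X ^ 3 + C (a ^ 2) * X ^ 4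

/-- The numerator of `r(2 z)`. -/
noncomputable def num (a b : K) : K[X] := 4 * X * (1 + C a * X ^ 2 + C b * X ^ 3)

/-- The map `N / θ` sends the place `x` to the place `y` with ramification index `e`. -/
structure LD (θ N : K[X]) (x y : Option K) (e : ℕ) : Prop where
  w : wt x θ + (if x = none then 4 else 0) = if y = none then (e : ℤ) else 0
  ne : ∀ ρ : K, N - C ρ * θ ≠ 0
  v : ∀ ρ : K, wt x (N - C ρ * θ) = wt x θ + e * wt y (X - C ρ)

private theorem uz_eval_tht (a b t : K) :
    (tht a b).eval t = 1 - 2 * a * t ^ 2 - 8 * b * t ^ 3 + a ^ 2 * t ^ 4 := by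
  simp [tht]

private theorem uz_eval_num (a b t : K) :
    (num a b).eval t = 4 * t * (1 + a * t ^ 2 + b * t ^ 3) := by
  simp [num]

private theorem uz_eq (a b ρ : K) : num a b - C ρ * tht a b =
    C (-ρ) + C 4 * X + C (2 * a * ρ) * X ^ 2 + C (4 * a + 8 * b * ρ) * X ^ 3
      + C (4 * b - a ^ 2 * ρ) * X ^ 4 := by
  have h4 : (C (4 : K) : K[X]) = 4 := map_ofNat C 4
  have h8 : (C (8 : K) : K[X]) = 8 := map_ofNat C 8
  have h2 : (C (2 : K) : K[X]) = 2 := map_ofNat C 2
  simp only [num, tht, C_add, C_sub, C_mul, C_neg, C_pow, h4, h8, h2]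
  ring

private theorem uz_c4 (a b ρ : K) : (num a b - C ρ * tht a b).coeff 4 = 4 * b - a ^ 2 * ρ := by
  rw [uz_eq]
  simp only [coeff_add, coeff_C_mul, coeff_X_pow, coeff_X, coeff_C]
  norm_num

private theorem uz_c3 (a b ρ : K) :
    (num a b - C ρ * tht a b).coeff 3 = 4 * a + 8 * b * ρ := by
  rw [uz_eq]
  simp only [coeff_add, coeff_C_mul, coeff_X_pow, coeff_X, coeff_C]
  norm_num

private theorem uz_c2 (a b ρ : K) : (num a b - C ρ * tht a b).coeff 2 = 2 * a * ρ := by
  rw [uz_eq]
  simp only [coeff_add, coeff_C_mul, coeff_X_pow, coeff_X, coeff_C]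
  norm_num

private theorem uz_c1 (a b ρ : K) : (num a b - C ρ * tht a b).coeff 1 = 4 := by
  rw [uz_eq]
  simp only [coeff_add, coeff_C_mul, coeff_X_pow, coeff_X, coeff_C]
  norm_num

private theorem uz_nd (a b ρ : K) : (num a b - C ρ * tht a b).natDegree ≤ 4 := by
  rw [uz_eq]
  compute_degree

private theorem uz_ne {a b : K} (h4 : (4 : K) ≠ 0) (ρ : K) : num a b - C ρ * tht a b ≠ 0 := by
  intro h
  have h1 := uz_c1 a b ρ
  rw [h, coeff_zero] at h1
  exact h4 h1.symm

open Classical in
private theorem uz_mul_X (t ρ : K) :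
    ((X - C ρ : K[X]).rootMultiplicity t : ℤ) = if ρ = t then 1 else 0 := by
  classical
  rw [rootMultiplicity_X_sub_C]
  by_cases h : t = ρ
  · rw [if_pos h, if_pos h.symm]
    rfl
  · rw [if_neg h, if_neg fun h' => h h'.symm]
    rfl

theorem tht_ne (a b : K) : tht a b ≠ 0 := by
  intro h
  have h1 := uz_eval_tht a b 0
  rw [h] at h1
  simp at h1

/-- PROOF. `x = none`, `a ≠ 0`: `y = some ρ₀`, `ρ₀ = 4 b / a^2`, `e = 4 - natDegree (N - C ρ₀ θ) ≤ 2` (coefficients of `X^3`, `X^2`: `4 a + 8 b ρ₀`, `2 a ρ₀`; if `b ≠ 0` the second is not `0`, else the first);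
`a = 0`: `y = none`, `e = 1` (`b ≠ 0`, `natDegree θ = 3`, `natDegree (N - C ρ θ) = 4`). `x = some t`, `θ(t) ≠ 0`: `y = some ρ₀`, `ρ₀ = N(t) / θ(t)`, `e = rootMultiplicity t (N - C ρ₀ θ)`.
`θ(t) = 0`: `y = none`, `e = rootMultiplicity t θ`, `N(t) ≠ 0` since `(3 + 4 a r^2) θ - (3 - 5 a r^2 - 27 b r^3) (1 + a r^2 + b r^3) = (4 a^3 + 27 b^2) r^6`. `ne`: the value at `0`, or the coefficient of `X`. -/
theorem exists_LD {a b : K} (h2 : (2 : K) ≠ 0) (hΔ : 4 * a ^ 3 + 27 * b ^ 2 ≠ 0) (x : Option K) :
    ∃ (y : Option K) (e : ℕ), LD (tht a b) (num a b) x y e ∧ (x = none → e ≤ 2) := by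
  have h4 : (4 : K) ≠ 0 := by
    have h : (4 : K) = 2 * 2 := by norm_num
    rw [h]
    exact mul_ne_zero h2 h2
  have h8 : (8 : K) ≠ 0 := by
    have h : (8 : K) = 2 * (2 * 2) := by norm_num
    rw [h]
    exact mul_ne_zero h2 (mul_ne_zero h2 h2)
  rcases x with _ | t
  · by_cases ha : a = 0
    · -- the place at infinity goes to infinity
      have hb : b ≠ 0 := by
        intro hb
        apply hΔ
        rw [ha, hb]
        ring
      have hd : (tht a b).natDegree = 3 := by
        refine natDegree_eq_of_le_of_coeff_ne_zero ?_ ?_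
        · rw [tht, ha]
          have h0 : (0 : K) ^ 2 = 0 := by norm_num
          rw [h0, C_0, zero_mul, add_zero, mul_zero, C_0, zero_mul, sub_zero]
          compute_degree
        · have h5 : (tht a b).coeff 3 = -(8 * b) := by
            rw [tht]
            simp only [coeff_add, coeff_sub, coeff_C_mul, coeff_X_pow, coeff_one]
            norm_num
          rw [h5]
          exact neg_ne_zero.2 (mul_ne_zero h8 hb)
      have hn : ∀ ρ : K, (num a b - C ρ * tht a b).natDegree = 4 := by
        intro ρ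
        refine natDegree_eq_of_le_of_coeff_ne_zero (uz_nd a b ρ) ?_
        rw [uz_c4, ha]
        have h0 : 4 * b - (0 : K) ^ 2 * ρ = 4 * b := by ring
        rw [h0]
        exact mul_ne_zero h4 hb
      refine ⟨none, 1, ⟨?_, uz_ne h4, fun ρ => ?_⟩, fun _ => by norm_num⟩
      · simp only [wt, hd, if_true]
        norm_num
      · simp only [wt, hn ρ, hd, natDegree_X_sub_C]
        norm_num
    · -- the place at infinity goes to `4 b / a ^ 2`
      have ha2 : a ^ 2 ≠ 0 := pow_ne_zero 2 ha
      obtain ⟨ρ₀, hρ⟩ : ∃ ρ₀ : K, ρ₀ = 4 * b / a ^ 2 := ⟨_, rfl⟩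
      have hρ' : a ^ 2 * ρ₀ = 4 * b := by
        rw [hρ]
        field_simp
      have hd : (tht a b).natDegree = 4 := by
        refine natDegree_eq_of_le_of_coeff_ne_zero ?_ ?_
        · rw [tht]
          compute_degree
        · have h5 : (tht a b).coeff 4 = a ^ 2 := by
            rw [tht]
            simp only [coeff_add, coeff_sub, coeff_C_mul, coeff_X_pow, coeff_one]
            norm_num
          rw [h5]
          exact ha2
      have hn : ∀ ρ : K, ρ ≠ ρ₀ → (num a b - C ρ * tht a b).natDegree = 4 := by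
        intro ρ hne
        refine natDegree_eq_of_le_of_coeff_ne_zero (uz_nd a b ρ) ?_
        rw [uz_c4]
        intro h5
        apply hne
        have h6 : a ^ 2 * ρ = a ^ 2 * ρ₀ := by
          rw [hρ']
          linear_combination -h5
        exact mul_left_cancel₀ ha2 h6
      have h2d : 2 ≤ (num a b - C ρ₀ * tht a b).natDegree := by
        by_cases hb : b = 0
        · have h5 : ρ₀ = 0 := by
            rw [hρ, hb]
            simp
          refine le_trans (by norm_num) (le_natDegree_of_ne_zero (n := 3) ?_)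
          rw [uz_c3, hb]
          have h6 : 4 * a + 8 * 0 * ρ₀ = 4 * a := by ring
          rw [h6]
          exact mul_ne_zero h4 ha
        · refine le_natDegree_of_ne_zero (n := 2) ?_
          rw [uz_c2]
          have h5 : ρ₀ ≠ 0 := by
            intro h5
            rw [h5, mul_zero] at hρ'
            exact mul_ne_zero h4 hb hρ'.symm
          exact mul_ne_zero (mul_ne_zero h2 ha) h5
      have hle := uz_nd a b ρ₀
      refine ⟨some ρ₀, 4 - (num a b - C ρ₀ * tht a b).natDegree, ⟨?_, uz_ne h4, fun ρ => ?_⟩,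
        fun _ => by omega⟩
      · simp [wt, hd]
      · simp only [wt, hd, uz_mul_X]
        by_cases h : ρ = ρ₀
        · rw [if_pos h, h]
          push_cast [hle]
          ring
        · rw [if_neg h, hn ρ h]
          simp
  · by_cases ht : (tht a b).eval t = 0
    · -- a root of `θ` goes to infinity
      have hN : (num a b).eval t ≠ 0 := by
        intro hN
        rw [uz_eval_tht] at ht
        rw [uz_eval_num] at hN
        have ht0 : t ≠ 0 := by
          intro h
          rw [h] at ht
          simp at ht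
        have h5 : 1 + a * t ^ 2 + b * t ^ 3 = 0 := by
          rcases mul_eq_zero.1 hN with h | h
          · exact absurd h (mul_ne_zero h4 ht0)
          · exact h
        have h6 : (4 * a ^ 3 + 27 * b ^ 2) * t ^ 6 = 0 := by
          linear_combination (3 + 4 * a * t ^ 2) * ht -
            (3 - 5 * a * t ^ 2 - 27 * b * t ^ 3) * h5
        exact mul_ne_zero hΔ (pow_ne_zero 6 ht0) h6
      refine ⟨none, (tht a b).rootMultiplicity t, ⟨?_, uz_ne h4, fun ρ => ?_⟩,
        fun h => absurd h (by simp)⟩
      · simp [wt]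
      · simp only [wt, natDegree_X_sub_C]
        have h5 : (num a b - C ρ * tht a b).rootMultiplicity t = 0 := by
          refine rootMultiplicity_eq_zero ?_
          rw [IsRoot.def, eval_sub, eval_mul, eval_C, ht, mul_zero, sub_zero]
          exact hN
        rw [h5]
        push_cast
        ring
    · -- the other points
      obtain ⟨ρ₀, hρ⟩ : ∃ ρ₀ : K, ρ₀ = (num a b).eval t / (tht a b).eval t := ⟨_, rfl⟩
      have hρ' : ρ₀ * (tht a b).eval t = (num a b).eval t := by
        rw [hρ]
        exact div_mul_cancel₀ _ ht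
      have h0 : (tht a b).rootMultiplicity t = 0 := rootMultiplicity_eq_zero ht
      refine ⟨some ρ₀, (num a b - C ρ₀ * tht a b).rootMultiplicity t,
        ⟨?_, uz_ne h4, fun ρ => ?_⟩, fun h => absurd h (by simp)⟩
      · simp [wt, h0]
      · simp only [wt, uz_mul_X, h0]
        by_cases h : ρ = ρ₀
        · rw [if_pos h, h]
          push_cast
          ring
        · rw [if_neg h]
          have h5 : (num a b - C ρ * tht a b).rootMultiplicity t = 0 := by
            refine rootMultiplicity_eq_zero ?_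
            rw [IsRoot.def, eval_sub, eval_mul, eval_C, ← hρ', ← sub_mul]
            exact mul_ne_zero (sub_ne_zero.2 fun h' => h h'.symm) ht
          rw [h5]
          push_cast
          ring

end Pool.Agent.Lib.MP_3550b5_nt.AC.Uz
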