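import Mathlib
import Pool.Agent.Lib.MP_3550b5_nt.AC.UzB

/-!
PROJECT AC, block UNIFORM ZERO ESTIMATE: the order of vanishing of `P(r, f(r))`, `f` the square of the sigma function modulo `p` divided by `r`,
with an absolute constant (duplication and Newton polygons).
-/

namespace Pool.Agent.Lib.MP_3550b5_nt.AC.Uz

open Polynomial

variable {K : Type*} [Field K]

/-- `θ^I c(N / θ)`, for a polynomial `c` of degree at most `I`. -/
noncomputable def hm (θ N : K[X]) (I : ℕ) (c : K[X]) : K[X] :=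
  ∑ j ∈ Finset.range (I + 1), C (c.coeff j) * N ^ j * θ ^ (I - j)

private theorem hm_X (θ N : K[X]) (I : ℕ) (c : K[X]) :
    hm θ N (I + 1) (X * c) = N * hm θ N I c := by
  unfold hm
  rw [Finset.sum_range_succ', Finset.mul_sum]
  rw [mul_coeff_zero, coeff_X_zero, zero_mul, C_0, zero_mul, zero_mul, add_zero]
  refine Finset.sum_congr rfl fun j _ => ?_
  rw [coeff_X_mul, Nat.add_sub_add_right]
  ring

private theorem hm_up (θ N : K[X]) {I : ℕ} {c : K[X]} (h : c.natDegree ≤ I) :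
    hm θ N (I + 1) c = θ * hm θ N I c := by
  unfold hm
  rw [Finset.sum_range_succ, coeff_eq_zero_of_natDegree_lt (Nat.lt_succ_of_le h), C_0, zero_mul,
    zero_mul, add_zero, Finset.mul_sum]
  refine Finset.sum_congr rfl fun j hj => ?_
  have h1 : I + 1 - j = I - j + 1 := by
    have := Finset.mem_range.1 hj
    omega
  rw [h1, pow_succ]
  ring

private theorem hm_sub (θ N : K[X]) (I : ℕ) (c d : K[X]) :
    hm θ N I (c - d) = hm θ N I c - hm θ N I d := by
  unfold hm
  rw [← Finset.sum_sub_distrib]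
  refine Finset.sum_congr rfl fun j _ => ?_
  rw [coeff_sub, C_sub]
  ring

private theorem hm_smul (θ N : K[X]) (I : ℕ) (γ : K) (c : K[X]) :
    hm θ N I (C γ * c) = C γ * hm θ N I c := by
  unfold hm
  rw [Finset.mul_sum]
  refine Finset.sum_congr rfl fun j _ => ?_
  rw [coeff_C_mul, C_mul]
  ring

private theorem hm_one (θ N : K[X]) (I : ℕ) : hm θ N I 1 = θ ^ I := by
  unfold hm
  rw [Finset.sum_eq_single 0]
  · rw [coeff_one_zero, C_1, pow_zero, one_mul, one_mul, Nat.sub_zero]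
  · intro j _ hj
    rw [coeff_one, if_neg hj, C_0, zero_mul, zero_mul]
  · intro h
    exact absurd (Finset.mem_range.2 (Nat.succ_pos I)) h

/-- The order of `θ^I c(N / θ)`. PROOF. Induction on `natDegree c`: `natDegree c = 0`: `hm = C γ * θ^I`. Otherwise `c = (X - C ρ) * c'` (`IsAlgClosed.exists_root`), `I = I' + 1` and
`hm (I' + 1) ((X - C ρ) * c') = (N - C ρ * θ) * hm I' c'` (coefficients), `wt_mul`, `LD.v`. -/
theorem hm_wt [IsAlgClosed K] {θ N : K[X]} (hθ : θ ≠ 0) {x y : Option K} {e : ℕ} (h : LD θ N x y e) {I : ℕ} {c : K[X]}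
    (hc : c ≠ 0) (hI : c.natDegree ≤ I) :
    hm θ N I c ≠ 0 ∧ wt x (hm θ N I c) = I * wt x θ + e * wt y c := by
  induction hn : c.natDegree generalizing c I with
  | zero =>
    obtain ⟨γ, rfl⟩ := natDegree_eq_zero.1 hn
    have hγ : γ ≠ 0 := by
      rintro rfl
      exact hc C_0
    have h1 : hm θ N I (C γ) = C γ * θ ^ I := by
      have h2 := hm_smul θ N I γ 1
      rwa [mul_one, hm_one] at h2
    have h3 : C γ ≠ 0 := hc
    rw [h1, wt_mul x h3 (pow_ne_zero _ hθ), wt_C x hγ, wt_pow x hθ, wt_C y hγ]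
    exact ⟨mul_ne_zero h3 (pow_ne_zero _ hθ), by ring⟩
  | succ n ih =>
    obtain ⟨ρ, hρ⟩ := IsAlgClosed.exists_root c (fun h0 => by
      rw [natDegree_eq_of_degree_eq_some (n := 0) h0] at hn
      exact absurd hn (by omega))
    obtain ⟨c', hc'⟩ := dvd_iff_isRoot.2 hρ
    have hc'0 : c' ≠ 0 := by
      rintro rfl
      rw [mul_zero] at hc'
      exact hc hc'
    have hX : (X - C ρ : K[X]) ≠ 0 := X_sub_C_ne_zero ρ
    have hd : c'.natDegree = n := by
      rw [hc', natDegree_mul hX hc'0, natDegree_X_sub_C] at hn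
      omega
    obtain ⟨I', rfl⟩ : ∃ I', I = I' + 1 := ⟨I - 1, by omega⟩
    obtain ⟨h1, h2⟩ := ih (I := I') hc'0 (by omega) hd
    have h3 : hm θ N (I' + 1) c = (N - C ρ * θ) * hm θ N I' c' := by
      rw [hc', sub_mul, hm_sub, hm_X, hm_smul, hm_up θ N (by omega)]
      ring
    have h4 := h.ne ρ
    rw [h3, wt_mul x h4 h1, h.v ρ, h2]
    refine ⟨mul_ne_zero h4 h1, ?_⟩
    rw [hc', wt_mul y hX hc'0]
    push_cast
    ring

end Pool.Agent.Lib.MP_3550b5_nt.AC.Uz
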