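import Mathlib
import Pool.Agent.Lib.MP_3550b5_nt.AC.UzC

/-!
PROJECT AC, block UNIFORM ZERO ESTIMATE: the order of vanishing of `P(r, f(r))`, `f` the square of the sigma function modulo `p` divided by `r`,
with an absolute constant (duplication and Newton polygons).
-/

namespace Pool.Agent.Lib.MP_3550b5_nt.AC.Uz

open Polynomial

variable {K : Type*} [Field K]

private theorem uzd_hm (θ N : K[X]) (a b : K) :
    hm θ N 4 (X + C a * X ^ 3 + C b * X ^ 4 : K[X]) =
      N * θ ^ 3 + C a * N ^ 3 * θ + C b * N ^ 4 := by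
  unfold hm
  have hc : ∀ j, (X + C a * X ^ 3 + C b * X ^ 4 : K[X]).coeff j =
      (if j = 1 then 1 else 0) + a * (if j = 3 then 1 else 0) + b * (if j = 4 then 1 else 0) := by
    intro j
    rw [coeff_add, coeff_add, coeff_C_mul, coeff_C_mul, coeff_X_pow, coeff_X_pow, coeff_X]
    congr 2
    by_cases h : j = 1
    · rw [if_pos h, if_pos h.symm]
    · rw [if_neg h, if_neg (Ne.symm h)]
  simp only [hc, Finset.sum_range_succ, Finset.range_zero, Finset.sum_empty]
  norm_num

private theorem uzd_key (a b : K) :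
    (X + C a * X ^ 3 + C b * X ^ 4 : K[X]) *
      (derivative (num a b) * tht a b - num a b * derivative (tht a b)) ^ 2 =
      4 * hm (tht a b) (num a b) 4 (X + C a * X ^ 3 + C b * X ^ 4 : K[X]) := by
  rw [uzd_hm]
  have h2 : (C (2 : K) : K[X]) = 2 := map_ofNat C 2
  have h8 : (C (8 : K) : K[X]) = 8 := map_ofNat C 8
  have h3' : (C (3 : K) : K[X]) = 3 := map_ofNat C 3
  have h4' : (C (4 : K) : K[X]) = 4 := map_ofNat C 4
  have e1 : num a b = 4 * X + 4 * C a * X ^ 3 + 4 * C b * X ^ 4 := by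
    rw [num]
    ring
  have e2 : tht a b = 1 - 2 * C a * X ^ 2 - 8 * C b * X ^ 3 + C a ^ 2 * X ^ 4 := by
    rw [tht, C_mul, C_mul, C_pow, h2, h8]
  have d1 : derivative (num a b) = 4 + 12 * C a * X ^ 2 + 16 * C b * X ^ 3 := by
    rw [e1]
    simp only [derivative_add, derivative_mul, derivative_X, derivative_C, derivative_X_pow,
      derivative_ofNat, Nat.cast_ofNat, h3', h4']
    norm_num
    ring
  have d2 : derivative (tht a b) = -4 * C a * X - 24 * C b * X ^ 2 + 4 * C a ^ 2 * X ^ 3 := by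
    rw [e2]
    simp only [derivative_add, derivative_sub, derivative_mul, derivative_X, derivative_C,
      derivative_X_pow, derivative_ofNat, derivative_one, derivative_pow, Nat.cast_ofNat, h2, h3',
      h4']
    norm_num
    ring
  rw [d1, d2, e1, e2]
  ring

private theorem uzd_G_ne (a b : K) : (X + C a * X ^ 3 + C b * X ^ 4 : K[X]) ≠ 0 := by
  intro h
  have h1 : (X + C a * X ^ 3 + C b * X ^ 4 : K[X]).coeff 1 = 1 := by
    rw [coeff_add, coeff_add, coeff_C_mul, coeff_C_mul, coeff_X_pow, coeff_X_pow, coeff_X]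
    norm_num
  rw [h, coeff_zero] at h1
  exact one_ne_zero h1.symm

private theorem uzd_G_rm {a b : K} (hΔ : 4 * a ^ 3 + 27 * b ^ 2 ≠ 0) (ρ : K) :
    (X + C a * X ^ 3 + C b * X ^ 4 : K[X]).rootMultiplicity ρ ≤ 1 := by
  by_contra h
  have h1 : 1 < (X + C a * X ^ 3 + C b * X ^ 4 : K[X]).rootMultiplicity ρ := not_le.1 h
  rw [one_lt_rootMultiplicity_iff_isRoot (uzd_G_ne a b)] at h1
  obtain ⟨hr, hd⟩ := h1
  rw [IsRoot.def] at hd hr
  simp only [derivative_add, derivative_mul, derivative_X, derivative_C, derivative_X_pow,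
    eval_add, eval_mul, eval_X, eval_C, eval_pow, Nat.cast_ofNat, eval_one, eval_zero,
    zero_mul, zero_add] at hd hr
  norm_num at hd
  have hρ : ρ ≠ 0 := by
    rintro rfl
    norm_num at hd
  have h3 : 1 + a * ρ ^ 2 + b * ρ ^ 3 = 0 := by
    have h4 : ρ * (1 + a * ρ ^ 2 + b * ρ ^ 3) = 0 := by
      linear_combination hr
    exact (mul_eq_zero.1 h4).resolve_left hρ
  have h5 : 1 + 3 * (a * ρ ^ 2) + 4 * (b * ρ ^ 3) = 0 := by
    linear_combination hd
  have hE1 : 3 + a * ρ ^ 2 = 0 := by linear_combination 4 * h3 - h5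
  have hE2 : 2 - b * ρ ^ 3 = 0 := by linear_combination 3 * h3 - h5
  have h6 : (4 * a ^ 3 + 27 * b ^ 2) * ρ ^ 6 = 0 := by
    linear_combination 4 * ((a * ρ ^ 2) ^ 2 - 3 * (a * ρ ^ 2) + 9) * hE1 -
      27 * (b * ρ ^ 3 + 2) * hE2
  exact mul_ne_zero hΔ (pow_ne_zero 6 hρ) h6

private theorem uzd_G_le (a b : K) : (X + C a * X ^ 3 + C b * X ^ 4 : K[X]).natDegree ≤ 4 := by
  compute_degree

private theorem uzd_G_ge {a b : K} (hΔ : 4 * a ^ 3 + 27 * b ^ 2 ≠ 0) :
    3 ≤ (X + C a * X ^ 3 + C b * X ^ 4 : K[X]).natDegree := by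
  by_cases hb : b = 0
  · refine le_natDegree_of_ne_zero ?_
    rw [coeff_add, coeff_add, coeff_C_mul, coeff_C_mul, coeff_X_pow, coeff_X_pow, coeff_X]
    norm_num
    rintro rfl
    apply hΔ
    rw [hb]
    ring
  · refine le_trans (by norm_num) (le_natDegree_of_ne_zero (n := 4) ?_)
    rw [coeff_add, coeff_add, coeff_C_mul, coeff_C_mul, coeff_X_pow, coeff_X_pow, coeff_X]
    norm_num
    exact hb

private theorem uzd_dvd {H θ : K[X]} {t : K} {e : ℕ} (h : (X - C t) ^ e ∣ H) :
    (X - C t) ^ (e - 1) ∣ derivative H * θ - H * derivative θ := by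
  refine dvd_sub (Dvd.dvd.mul_right ?_ _) (Dvd.dvd.mul_right ?_ _)
  · exact pow_sub_one_dvd_derivative_of_pow_dvd h
  · exact (pow_dvd_pow _ (Nat.sub_le e 1)).trans h

/-- THE RAMIFICATION INDEX IS AT MOST TWO. PROOF. `x = none`: `exists_LD`. `x = some t`: let `G = X + a X^3 + b X^4`, `W = N' θ - N θ'`; `G W^2 = 4 hm θ N 4 G` (polynomial identity, `hm` unfolded: `Finset.sum_range_succ`, coefficients of `G`).
`(X - C t)^(e - 1)` divides `W` (`y = some ρ`: `W = (N - C ρ θ)' θ - (N - C ρ θ) θ'`, `e = wt (N - C ρ θ)`; `y = none`: `e = wt θ`). `hm_wt`: `wt (hm θ N 4 G) = 4 wt θ + e wt y G ≤ e`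
(`y = some ρ`: `wt θ = 0`, `rootMultiplicity ρ G ≤ 1` since `G`, `G'` have no common root: `4 a^3 + 27 b^2 ≠ 0`; `y = none`: `wt θ = e`, `natDegree G ≥ 3`). So `2 (e - 1) ≤ e`. -/
theorem exists_LD2 [IsAlgClosed K] {a b : K} (h2 : (2 : K) ≠ 0) (hΔ : 4 * a ^ 3 + 27 * b ^ 2 ≠ 0) (x : Option K) :
    ∃ (y : Option K) (e : ℕ), LD (tht a b) (num a b) x y e ∧ e ≤ 2 := by
  obtain ⟨y, e, hL, hx⟩ := exists_LD h2 hΔ x
  refine ⟨y, e, hL, ?_⟩
  rcases x with _ | t
  · exact hx rfl
  have h4 : (4 : K[X]) = C 4 := (map_ofNat C 4).symm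
  have h40 : (4 : K) ≠ 0 := by
    have h : (4 : K) = 2 * 2 := by norm_num
    rw [h]
    exact mul_ne_zero h2 h2
  obtain ⟨G, hG⟩ : ∃ G : K[X], G = X + C a * X ^ 3 + C b * X ^ 4 := ⟨_, rfl⟩
  obtain ⟨W, hW⟩ : ∃ W : K[X], W = derivative (num a b) * tht a b - num a b * derivative (tht a b) :=
    ⟨_, rfl⟩
  have hG0 : G ≠ 0 := by
    rw [hG]
    exact uzd_G_ne a b
  have hkey := uzd_key a b
  rw [← hG, ← hW] at hkey
  obtain ⟨hF0, hF⟩ := hm_wt (tht_ne a b) hL hG0 (I := 4) (by rw [hG]; exact uzd_G_le a b)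
  have hW0 : W ≠ 0 := by
    rintro h
    rw [h, zero_pow two_ne_zero, mul_zero] at hkey
    have h5 : (4 : K[X]) * hm (tht a b) (num a b) 4 G ≠ 0 := by
      rw [h4]
      exact mul_ne_zero (C_ne_zero.2 h40) hF0
    exact h5 hkey.symm
  have h6 : wt (some t) G + 2 * wt (some t) W =
      4 * wt (some t) (tht a b) + e * wt y G := by
    have h7 := congrArg (wt (some t)) hkey
    rw [wt_mul _ hG0 (pow_ne_zero 2 hW0), wt_pow _ hW0, h4,
      wt_mul _ (C_ne_zero.2 h40) hF0, wt_C _ h40, hF, zero_add] at h7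
    exact_mod_cast h7
  have hGw : 0 ≤ wt (some t) G := by
    simp only [wt]
    positivity
  have hw := hL.w
  rw [if_neg (by simp : ¬ (some t : Option K) = none), add_zero] at hw
  rcases y with _ | ρ
  · rw [if_pos rfl] at hw
    have h8 : (X - C t) ^ e ∣ tht a b := by
      have h9 : (tht a b).rootMultiplicity t = e := by
        simp only [wt] at hw
        exact_mod_cast hw
      rw [← h9]
      exact pow_rootMultiplicity_dvd _ _
    have h10 : (X - C t) ^ (e - 1) ∣ W := by
      have h11 := uzd_dvd (θ := num a b) h8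
      rw [hW]
      have h12 : derivative (num a b) * tht a b - num a b * derivative (tht a b) =
          -(derivative (tht a b) * num a b - tht a b * derivative (num a b)) := by ring
      rw [h12]
      exact (dvd_neg).2 h11
    have h13 : e - 1 ≤ W.rootMultiplicity t := (le_rootMultiplicity_iff hW0).2 h10
    have h14 : wt (some t) W = (W.rootMultiplicity t : ℤ) := rfl
    have h15 : wt (none : Option K) G = -(G.natDegree : ℤ) := rfl
    have h16 : 3 ≤ G.natDegree := by
      rw [hG]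
      exact uzd_G_ge hΔ
    rw [hw, h14, h15] at h6
    have h17 : (e : ℤ) * 3 ≤ (e : ℤ) * (G.natDegree : ℤ) :=
      mul_le_mul_of_nonneg_left (by exact_mod_cast h16) (by positivity)
    rw [mul_neg] at h6
    omega
  · rw [if_neg (by simp)] at hw
    have hv := hL.v ρ
    have h8 : wt (some ρ) (X - C ρ) = (1 : ℤ) := by
      simp only [wt]
      rw [rootMultiplicity_X_sub_C_self]
      rfl
    rw [hw, h8, mul_one, zero_add] at hv
    have h9 : (X - C t) ^ e ∣ num a b - C ρ * tht a b := by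
      have h10 : (num a b - C ρ * tht a b).rootMultiplicity t = e := by
        simp only [wt] at hv
        exact_mod_cast hv
      rw [← h10]
      exact pow_rootMultiplicity_dvd _ _
    have h10 : (X - C t) ^ (e - 1) ∣ W := by
      have h11 := uzd_dvd (θ := tht a b) h9
      rw [hW]
      have h12 : derivative (num a b) * tht a b - num a b * derivative (tht a b) =
          derivative (num a b - C ρ * tht a b) * tht a b -
            (num a b - C ρ * tht a b) * derivative (tht a b) := by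
        rw [derivative_sub, derivative_C_mul]
        ring
      rw [h12]
      exact h11
    have h13 : e - 1 ≤ W.rootMultiplicity t := (le_rootMultiplicity_iff hW0).2 h10
    have h14 : wt (some t) W = (W.rootMultiplicity t : ℤ) := rfl
    have h15 : wt (some ρ) G = (G.rootMultiplicity ρ : ℤ) := rfl
    have h16 : G.rootMultiplicity ρ ≤ 1 := by
      rw [hG]
      exact uzd_G_rm hΔ ρ
    rw [hw, h14, h15] at h6
    have h17 : (e : ℤ) * (G.rootMultiplicity ρ : ℤ) ≤ (e : ℤ) * 1 :=
      mul_le_mul_of_nonneg_left (by exact_mod_cast h16) (by positivity)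
    omega

end Pool.Agent.Lib.MP_3550b5_nt.AC.Uz
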