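import Mathlib
import Pool.Agent.Lib.MP_3550b5_nt.AC.UzC

/-!
PROJECT AC, block UNIFORM ZERO ESTIMATE: the order of vanishing of `P(r, f(r))`, `f` the square of the sigma function modulo `p` divided by `r`,
with an absolute constant (duplication and Newton polygons).
-/

namespace Pool.Agent.Lib.MP_3550b5_nt.AC.Uz

open Polynomial

variable {K : Type*} [Field K]

/-- `θ^I P(N / θ, θ u^4)`, for a polynomial `P(r, u)` of degree at most `I` in `r`. -/
noncomputable def dbl (θ N : K[X]) (I : ℕ) (P : K[X][X]) : K[X][X] :=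
  ∑ i ∈ Finset.range (P.natDegree + 1), C (θ ^ i * hm θ N I (P.coeff i)) * X ^ (4 * i)

private theorem uze_zero (θ N : K[X]) (I : ℕ) : hm θ N I 0 = 0 := by
  unfold hm
  refine Finset.sum_eq_zero fun j _ => ?_
  rw [coeff_zero, C_0, zero_mul, zero_mul]

private theorem uze_arith {a w b A B : ℝ} {i n I : ℕ} (ha : 0 ≤ a) (hb : 0 < b) (hbw : b ≤ a * w)
    (hB : 0 ≤ B) (hin : i ≤ n) (h : A * b ^ i ≤ B * b ^ n) :
    a ^ (i + I) * A * w ^ i ≤ a ^ (n + I) * B * w ^ n := by
  obtain ⟨m, rfl⟩ := Nat.exists_eq_add_of_le hin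
  have h1 : A ≤ B * b ^ m := by
    rw [pow_add, ← mul_assoc, mul_right_comm] at h
    exact le_of_mul_le_mul_right h (pow_pos hb i)
  have hg : 0 ≤ a * w := hb.le.trans hbw
  have h2 : A ≤ B * (a * w) ^ m :=
    h1.trans (mul_le_mul_of_nonneg_left (pow_le_pow_left₀ hb.le hbw m) hB)
  calc a ^ (i + I) * A * w ^ i = a ^ I * (A * (a * w) ^ i) := by
        rw [pow_add, mul_pow]
        ring
    _ ≤ a ^ I * (B * (a * w) ^ m * (a * w) ^ i) := by
        refine mul_le_mul_of_nonneg_left ?_ (pow_nonneg ha _)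
        exact mul_le_mul_of_nonneg_right h2 (pow_nonneg hg _)
    _ = a ^ (i + m + I) * B * w ^ (i + m) := by
        rw [pow_add, pow_add, mul_pow, mul_pow, pow_add]
        ring

theorem dbl_coeff (θ N : K[X]) (I : ℕ) (P : K[X][X]) (i : ℕ) : (dbl θ N I P).coeff (4 * i) = θ ^ i * hm θ N I (P.coeff i) := by
  unfold dbl
  rw [finsetSum_coeff]
  simp only [coeff_C_mul_X_pow]
  by_cases hi : i ∈ Finset.range (P.natDegree + 1)
  · rw [Finset.sum_eq_single i]
    · rw [if_pos rfl]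
    · intro j _ hj
      rw [if_neg]
      intro h
      exact hj (by omega)
    · intro h
      exact absurd hi h
  · have h0 : P.coeff i = 0 := by
      refine coeff_eq_zero_of_natDegree_lt ?_
      rw [Finset.mem_range] at hi
      omega
    rw [h0, uze_zero, mul_zero]
    refine Finset.sum_eq_zero fun j hj => ?_
    rw [if_neg]
    intro h
    have h1 : i = j := by omega
    rw [h1] at hi
    exact hi hj

theorem dbl_coeff' (θ N : K[X]) (I : ℕ) (P : K[X][X]) {j : ℕ} (hj : ¬ 4 ∣ j) : (dbl θ N I P).coeff j = 0 := by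
  unfold dbl
  rw [finsetSum_coeff]
  refine Finset.sum_eq_zero fun i _ => ?_
  rw [coeff_C_mul_X_pow, if_neg]
  rintro rfl
  exact hj (dvd_mul_right 4 i)

theorem dbl_degree {θ N : K[X]} (hθ : θ ≠ 0) {I : ℕ} {P : K[X][X]} (h : hm θ N I P.leadingCoeff ≠ 0) :
    (dbl θ N I P).natDegree = 4 * P.natDegree ∧ (dbl θ N I P).leadingCoeff = θ ^ P.natDegree * hm θ N I P.leadingCoeff := by
  have h1 : (dbl θ N I P).coeff (4 * P.natDegree) = θ ^ P.natDegree * hm θ N I P.leadingCoeff :=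
    dbl_coeff θ N I P P.natDegree
  have h2 : (dbl θ N I P).natDegree = 4 * P.natDegree := by
    refine le_antisymm ?_ (le_natDegree_of_ne_zero ?_)
    · rw [natDegree_le_iff_coeff_eq_zero]
      intro j hj
      by_cases h4 : 4 ∣ j
      · obtain ⟨i, rfl⟩ := h4
        have h0 : P.coeff i = 0 := coeff_eq_zero_of_natDegree_lt (by omega)
        rw [dbl_coeff, h0, uze_zero, mul_zero]
      · exact dbl_coeff' θ N I P h4
    · rw [h1]
      exact mul_ne_zero (pow_ne_zero _ hθ) h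
  refine ⟨h2, ?_⟩
  rw [leadingCoeff, h2, h1]

/-- THE TRANSFER. PROOF. `dbl_coeff`, `hm_wt`: for `c_i = P.coeff i ≠ 0`: `av x (coeff (4 i)) = av x θ^(i + I) * (av y c_i)^e`; `Slp y` for `i`, raised to the power `e`:
`(av y c_i)^e ≤ (av y c_n)^e * (s^2 κ_y)^(e (n - i))`; `(s^2 κ_y)^e ≤ av x θ * (s κ_x)^4` by `LD.w`, `e ≤ 2`, `1 ≤ s`. -/
theorem dbl_slp [IsAlgClosed K] {θ N : K[X]} (hθ : θ ≠ 0) {x y : Option K} {e : ℕ} (h : LD θ N x y e) (he : e ≤ 2) {s : ℝ} (hs : 1 ≤ s)
    {I : ℕ} {P : K[X][X]} (hP : P ≠ 0) (hI : ∀ j, (P.coeff j).natDegree ≤ I)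
    (hy : Slp y (s ^ 2 * if y = none then 1 / 2 else 1) P) : Slp x (s * if x = none then 1 / 2 else 1) (dbl θ N I P) := by
  have hc : ∀ c : K[X], c ≠ 0 → c.natDegree ≤ I → ∀ i : ℕ,
      av x (θ ^ i * hm θ N I c) = av x θ ^ (i + I) * av y c ^ e := by
    intro c hc0 hcI i
    obtain ⟨g1, g2⟩ := hm_wt hθ h hc0 hcI
    rw [AbsoluteValue.map_mul, AbsoluteValue.map_pow, av_apply x g1, g2, av_apply x hθ,
      av_apply y hc0, pow_add, mul_assoc]
    congr 1
    rw [← zpow_natCast, ← zpow_natCast, ← zpow_mul, ← zpow_mul,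
      ← zpow_add₀ (by norm_num : (2 : ℝ) ≠ 0)]
    congr 1
    ring
  have hL : P.leadingCoeff ≠ 0 := leadingCoeff_ne_zero.2 hP
  have hLI : P.leadingCoeff.natDegree ≤ I := hI P.natDegree
  obtain ⟨d1, d2⟩ := dbl_degree hθ (I := I) (P := P) (hm_wt hθ h hL hLI).1
  have hκx : 0 < (if x = none then (1 / 2 : ℝ) else 1) := by split_ifs <;> norm_num
  have hκy : 0 < (if y = none then (1 / 2 : ℝ) else 1) := by split_ifs <;> norm_num
  have hs0 : 0 < s := by linarith
  have ha : 0 < av x θ := AbsoluteValue.pos _ hθ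
  have hkey : (s ^ 2 * if y = none then 1 / 2 else 1) ^ e ≤
      av x θ * (s * if x = none then 1 / 2 else 1) ^ 4 := by
    have hw := h.w
    have e1 : av x θ * (if x = none then (1 / 2 : ℝ) else 1) ^ 4 =
        (if y = none then (1 / 2 : ℝ) else 1) ^ e := by
      rw [av_apply x hθ]
      have e2 : (if x = none then (1 / 2 : ℝ) else 1) ^ 4 =
          (2 : ℝ) ^ (-(if x = none then (4 : ℤ) else 0)) := by
        split_ifs <;> norm_num [zpow_neg]
      have e3 : (if y = none then (1 / 2 : ℝ) else 1) ^ e =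
          (2 : ℝ) ^ (-(if y = none then (e : ℤ) else 0)) := by
        split_ifs
        · rw [zpow_neg, zpow_natCast, one_div, inv_pow]
        · rw [one_pow, neg_zero, zpow_zero]
      rw [e2, e3, ← zpow_add₀ (by norm_num : (2 : ℝ) ≠ 0), ← hw]
      congr 1
      ring
    calc (s ^ 2 * if y = none then 1 / 2 else 1) ^ e
        = (s ^ 2) ^ e * (if y = none then (1 / 2 : ℝ) else 1) ^ e := mul_pow _ _ _
      _ ≤ s ^ 4 * (if y = none then (1 / 2 : ℝ) else 1) ^ e := by
          refine mul_le_mul_of_nonneg_right ?_ (pow_nonneg hκy.le _)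
          rw [← pow_mul]
          exact pow_le_pow_right₀ hs (by omega)
      _ = av x θ * (s * if x = none then 1 / 2 else 1) ^ 4 := by
          rw [← e1]
          ring
  intro j
  by_cases h4 : 4 ∣ j
  swap
  · rw [dbl_coeff' θ N I P h4, AbsoluteValue.map_zero, zero_mul]
    exact mul_nonneg (AbsoluteValue.nonneg _ _) (pow_nonneg (mul_pos hs0 hκx).le _)
  obtain ⟨i, rfl⟩ := h4
  by_cases hi0 : P.coeff i = 0
  · rw [dbl_coeff, hi0, uze_zero, mul_zero, AbsoluteValue.map_zero, zero_mul]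
    exact mul_nonneg (AbsoluteValue.nonneg _ _) (pow_nonneg (mul_pos hs0 hκx).le _)
  have hin : i ≤ P.natDegree := le_natDegree_of_ne_zero hi0
  rw [d1, d2, dbl_coeff, hc _ hi0 (hI i), hc _ hL hLI, pow_mul (s * _) 4 i, pow_mul (s * _) 4 P.natDegree]
  have hyi := hy i
  have hb : 0 < s ^ 2 * (if y = none then (1 / 2 : ℝ) else 1) := mul_pos (pow_pos hs0 2) hκy
  have hp := pow_le_pow_left₀ (mul_nonneg (AbsoluteValue.nonneg _ _) (pow_pos hb i).le) hyi e
  have hq : ∀ (a g : ℝ) (m : ℕ), (a * g ^ m) ^ e = a ^ e * (g ^ e) ^ m := by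
    intro a g m
    rw [mul_pow, ← pow_mul, ← pow_mul, mul_comm m e]
  rw [hq, hq] at hp
  have hB : 0 ≤ av y P.leadingCoeff ^ e := pow_nonneg (AbsoluteValue.nonneg _ _) _
  exact uze_arith ha.le (pow_pos hb e) hkey hB hin hp

end Pool.Agent.Lib.MP_3550b5_nt.AC.Uz
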