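import Mathlib
import Pool.Agent.Lib.MP_3550b5_nt.AC.UzD
import Pool.Agent.Lib.MP_3550b5_nt.AC.UzE

/-!
PROJECT AC, block UNIFORM ZERO ESTIMATE: the order of vanishing of `P(r, f(r))`, `f` the square of the sigma function modulo `p` divided by `r`,
with an absolute constant (duplication and Newton polygons).
-/

namespace Pool.Agent.Lib.MP_3550b5_nt.AC.Uz

open Polynomial

variable {K : Type*} [Field K]

/-- The factor of a place. -/
private noncomputable def uzf_k (x : Option K) : ℝ := if x = none then 1 / 2 else 1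

omit [Field K] in
private theorem uzf_k_pos (x : Option K) : 0 < uzf_k x := by
  unfold uzf_k
  split_ifs <;> norm_num

private theorem uzf_one [IsAlgClosed K] {a b : K} (h2 : (2 : K) ≠ 0)
    (hΔ : 4 * a ^ 3 + 27 * b ^ 2 ≠ 0) {I : ℕ} {P : K[X][X]} (hP : P ≠ 0)
    (hI : ∀ j, (P.coeff j).natDegree ≤ I) (hd : P ∣ dbl (tht a b) (num a b) I P) {s : ℝ}
    (hs : 1 ≤ s) (H : ∀ x : Option K, Slp x (s ^ 2 * uzf_k x) P) (x : Option K) :
    Slp x (s * uzf_k x) P := by
  obtain ⟨y, e, hLD, he⟩ := exists_LD2 h2 hΔ x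
  obtain ⟨R, hR⟩ := hd
  have hlc : P.leadingCoeff ≠ 0 := leadingCoeff_ne_zero.2 hP
  have h3 := (hm_wt (tht_ne a b) hLD hlc (hI P.natDegree)).1
  have h4 := (dbl_degree (tht_ne a b) h3).2
  have h5 : dbl (tht a b) (num a b) I P ≠ 0 := by
    intro h0
    rw [h0, leadingCoeff_zero] at h4
    exact mul_ne_zero (pow_ne_zero _ (tht_ne a b)) h3 h4.symm
  have hR0 : R ≠ 0 := by
    rintro rfl
    rw [mul_zero] at hR
    exact h5 hR
  have h6 : Slp x (s * uzf_k x) (dbl (tht a b) (num a b) I P) :=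
    dbl_slp (tht_ne a b) hLD he hs hP hI (H y)
  rw [hR] at h6
  exact Slp.of_mul (mul_pos (by linarith) (uzf_k_pos x)) hP hR0 h6

private theorem uzf_iter [IsAlgClosed K] {a b : K} (h2 : (2 : K) ≠ 0)
    (hΔ : 4 * a ^ 3 + 27 * b ^ 2 ≠ 0) {I : ℕ} {P : K[X][X]} (hP : P ≠ 0)
    (hI : ∀ j, (P.coeff j).natDegree ≤ I) (hd : P ∣ dbl (tht a b) (num a b) I P) (k : ℕ) :
    ∀ s : ℝ, 1 ≤ s → (∀ x : Option K, Slp x (s ^ (2 ^ k) * uzf_k x) P) →
      ∀ x : Option K, Slp x (s * uzf_k x) P := by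
  induction k with
  | zero =>
    intro s _ H x
    have h := H x
    rwa [pow_zero, pow_one] at h
  | succ k ih =>
    intro s hs H
    refine ih s hs fun x => ?_
    refine uzf_one h2 hΔ hP hI hd (one_le_pow₀ hs) (fun y => ?_) x
    have h := H y
    rwa [pow_succ, pow_mul] at h

private theorem uzf_av (x : Option K) {I : ℕ} {c d : K[X]} (hc : c.natDegree ≤ I)
    (hd : d.natDegree ≤ I) (hd0 : d ≠ 0) {t : ℝ} (ht : 2 ^ (I + 1) ≤ t) :
    1 ≤ t * uzf_k x ∧ av x c ≤ t * uzf_k x * av x d := by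
  have h1 : (1 : ℝ) ≤ 2 ^ I := one_le_pow₀ (by norm_num)
  have h2 : (2 : ℝ) ^ (I + 1) = 2 ^ I * 2 := pow_succ _ _
  rw [h2] at ht
  rcases x with _ | r
  · have h3 : uzf_k (none : Option K) = 1 / 2 := if_pos rfl
    have h4 : (1 : ℝ) ≤ av none d := by
      rw [av_apply _ hd0]
      simp only [wt, neg_neg, zpow_natCast]
      exact one_le_pow₀ (by norm_num)
    have h5 : av none c ≤ 2 ^ I := by
      by_cases hc0 : c = 0
      · rw [hc0, AbsoluteValue.map_zero]
        positivity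
      · rw [av_apply _ hc0]
        simp only [wt, neg_neg, zpow_natCast]
        exact pow_le_pow_right₀ (by norm_num) hc
    rw [h3]
    have h6 : (2 : ℝ) ^ I ≤ t * (1 / 2) := by linarith
    refine ⟨by linarith, ?_⟩
    calc av none c ≤ 2 ^ I := h5
      _ ≤ t * (1 / 2) * 1 := by linarith
      _ ≤ t * (1 / 2) * av none d := mul_le_mul_of_nonneg_left h4 (by linarith)
  · have h3 : uzf_k (some r) = 1 := if_neg (by simp)
    have h4 : ((2 : ℝ) ^ I)⁻¹ ≤ av (some r) d := by
      rw [av_apply _ hd0]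
      simp only [wt, zpow_neg, zpow_natCast]
      refine inv_anti₀ (by positivity) (pow_le_pow_right₀ (by norm_num) ?_)
      refine le_trans ?_ hd
      have h5 := card_roots' d
      classical
      rw [← count_roots]
      exact (Multiset.count_le_card _ _).trans h5
    have h5 : av (some r) c ≤ 1 := by
      by_cases hc0 : c = 0
      · rw [hc0, AbsoluteValue.map_zero]
        exact zero_le_one
      · rw [av_apply _ hc0]
        simp only [wt, zpow_neg, zpow_natCast]
        exact inv_le_one_of_one_le₀ (one_le_pow₀ (by norm_num))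
    rw [h3, mul_one]
    refine ⟨by linarith, ?_⟩
    calc av (some r) c ≤ 1 := h5
      _ = 2 ^ I * ((2 : ℝ) ^ I)⁻¹ := by
        rw [mul_inv_cancel₀]
        positivity
      _ ≤ t * av (some r) d := mul_le_mul (by linarith) h4 (by positivity) (by linarith)

private theorem uzf_large (x : Option K) {I : ℕ} {P : K[X][X]} (hP : P ≠ 0)
    (hI : ∀ j, (P.coeff j).natDegree ≤ I) {t : ℝ} (ht : 2 ^ (I + 1) ≤ t) :
    Slp x (t * uzf_k x) P := by
  intro i
  have hlc : P.leadingCoeff ≠ 0 := leadingCoeff_ne_zero.2 hP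
  obtain ⟨h1, h2⟩ := uzf_av x (hI i) (hI P.natDegree) hlc ht
  have h0 : 0 ≤ t * uzf_k x := by linarith
  have h3 : 0 ≤ av x P.leadingCoeff := AbsoluteValue.nonneg _ _
  rcases lt_trichotomy i P.natDegree with h | h | h
  · calc av x (P.coeff i) * (t * uzf_k x) ^ i
        ≤ t * uzf_k x * av x P.leadingCoeff * (t * uzf_k x) ^ i :=
          mul_le_mul_of_nonneg_right h2 (pow_nonneg h0 _)
      _ = av x P.leadingCoeff * (t * uzf_k x) ^ (i + 1) := by
          rw [pow_succ]
          ring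
      _ ≤ av x P.leadingCoeff * (t * uzf_k x) ^ P.natDegree :=
          mul_le_mul_of_nonneg_left (pow_le_pow_right₀ h1 h) h3
  · rw [h]
    exact le_rfl
  · rw [coeff_eq_zero_of_natDegree_lt h, AbsoluteValue.map_zero, zero_mul]
    exact mul_nonneg h3 (pow_nonneg h0 _)

private theorem uzf_lim [IsAlgClosed K] {a b : K} (h2 : (2 : K) ≠ 0)
    (hΔ : 4 * a ^ 3 + 27 * b ^ 2 ≠ 0) {I : ℕ} {P : K[X][X]} (hP : P ≠ 0)
    (hI : ∀ j, (P.coeff j).natDegree ≤ I) (hd : P ∣ dbl (tht a b) (num a b) I P)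
    (x : Option K) : av x (P.coeff 0) ≤ av x P.leadingCoeff * uzf_k x ^ P.natDegree := by
  have h1 : ∀ s : ℝ, 1 < s →
      av x (P.coeff 0) ≤ av x P.leadingCoeff * (s * uzf_k x) ^ P.natDegree := by
    intro s hs
    obtain ⟨k, hk⟩ := pow_unbounded_of_one_lt ((2 : ℝ) ^ (I + 1)) hs
    have h3 : (2 : ℝ) ^ (I + 1) ≤ s ^ (2 ^ k) :=
      hk.le.trans (pow_le_pow_right₀ hs.le Nat.lt_two_pow_self.le)
    have h4 := uzf_iter h2 hΔ hP hI hd k s hs.le (fun y => uzf_large y hP hI h3) x 0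
    rwa [pow_zero, mul_one] at h4
  have h5 : Filter.Tendsto (fun s : ℝ => av x P.leadingCoeff * (s * uzf_k x) ^ P.natDegree)
      (nhdsWithin 1 (Set.Ioi 1)) (nhds (av x P.leadingCoeff * (1 * uzf_k x) ^ P.natDegree)) := by
    have h6 : Continuous
        (fun s : ℝ => av x P.leadingCoeff * (s * uzf_k x) ^ P.natDegree) := by fun_prop
    exact (h6.tendsto 1).mono_left nhdsWithin_le_nhds
  rw [one_mul] at h5
  refine ge_of_tendsto h5 ?_
  filter_upwards [self_mem_nhdsWithin] with s hs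
  exact h1 s hs

private theorem uzf_hm {K' : Type*} [Field K'] (φ : K →+* K') (θ N : K[X]) (I : ℕ) (c : K[X]) :
    (hm θ N I c).map φ = hm (θ.map φ) (N.map φ) I (c.map φ) := by
  unfold hm
  rw [Polynomial.map_sum]
  refine Finset.sum_congr rfl fun j _ => ?_
  rw [Polynomial.map_mul, Polynomial.map_mul, Polynomial.map_pow, Polynomial.map_pow, map_C,
    coeff_map]

private theorem uzf_tht {K' : Type*} [Field K'] (φ : K →+* K') (a b : K) :
    (tht a b).map φ = tht (φ a) (φ b) := by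
  simp [tht, map_ofNat]

private theorem uzf_num {K' : Type*} [Field K'] (φ : K →+* K') (a b : K) :
    (num a b).map φ = num (φ a) (φ b) := by
  simp [num]

private theorem uzf_disc {K' : Type*} [Field K'] (φ : K →+* K') (a b : K) :
    4 * φ a ^ 3 + 27 * φ b ^ 2 = φ (4 * a ^ 3 + 27 * b ^ 2) := by
  simp [map_ofNat]

private theorem uzf_dbl {K' : Type*} [Field K'] (φ : K →+* K') (θ N : K[X]) (I : ℕ)
    (P : K[X][X]) :
    (dbl θ N I P).map (mapRingHom φ) =
      dbl (θ.map φ) (N.map φ) I (P.map (mapRingHom φ)) := by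
  have hinj : Function.Injective (mapRingHom φ) := map_injective φ φ.injective
  unfold dbl
  rw [Polynomial.map_sum, natDegree_map_eq_of_injective hinj]
  refine Finset.sum_congr rfl fun i _ => ?_
  rw [Polynomial.map_mul, Polynomial.map_pow, map_C, map_X, coeff_map, coe_mapRingHom,
    Polynomial.map_mul, Polynomial.map_pow, uzf_hm]

/-- NO INVARIANT CURVE, algebraically closed case. PROOF. `P ∣ dbl P`: write `H t` for `∀ x, Slp x (t κ_x) P`, `κ_x = 1/2` for `x = none`, else `1`. `H t` for `t ≥ 2^(I + 1)`: `av x (P.coeff i) ≤ 2^I`, `av x (lead) ≥ 2^(-I)`...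
(`wt` between `-I` and `I`; for `x = some t'`: `av ≤ 1` and `≥ 2^(-I)`; for `x = none`: `1 ≤ av ≤ 2^I`). `H (s^2) → H s` for `s ≥ 1`: `exists_LD2`, `dbl_slp`, `Slp.of_mul`. So `H (s^(2^k)) → H s`, and `H s` for all `s > 1`.
`s → 1` for the coefficient of index `0`: `av x (P.coeff 0) ≤ av x (lead) * κ_x^n`, i.e. `rootMultiplicity t lead ≤ rootMultiplicity t (P.coeff 0)` for all `t` (so `natDegree lead ≤ natDegree (P.coeff 0)`,
`Multiset.le_iff_count`, `IsAlgClosed` splits) and `natDegree (P.coeff 0) + n ≤ natDegree lead`: contradiction. -/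
theorem not_dvd_dbl' [IsAlgClosed K] {a b : K} (h2 : (2 : K) ≠ 0) (hΔ : 4 * a ^ 3 + 27 * b ^ 2 ≠ 0) {I : ℕ} {P : K[X][X]}
    (h1 : 1 ≤ P.natDegree) (h0 : P.coeff 0 ≠ 0) (hI : ∀ j, (P.coeff j).natDegree ≤ I) : ¬ P ∣ dbl (tht a b) (num a b) I P := by
  intro hd
  have hP : P ≠ 0 := by
    rintro rfl
    simp at h0
  have hlc : P.leadingCoeff ≠ 0 := leadingCoeff_ne_zero.2 hP
  have H := uzf_lim h2 hΔ hP hI hd
  have h3 : P.leadingCoeff.natDegree ≤ (P.coeff 0).natDegree := by
    classical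
    rw [← IsAlgClosed.card_roots_eq_natDegree, ← IsAlgClosed.card_roots_eq_natDegree]
    refine Multiset.card_le_card (Multiset.le_iff_count.2 fun r => ?_)
    rw [count_roots, count_roots]
    have h4 := H (some r)
    have h5 : uzf_k (some r) = 1 := if_neg (by simp)
    rw [h5, one_pow, mul_one, av_apply _ h0, av_apply _ hlc,
      zpow_le_zpow_iff_right₀ (by norm_num : (1 : ℝ) < 2)] at h4
    simp only [wt] at h4
    omega
  have h4 := H none
  have h5 : uzf_k (none : Option K) = 1 / 2 := if_pos rfl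
  rw [h5, av_apply _ h0, av_apply _ hlc] at h4
  simp only [wt, neg_neg, zpow_natCast] at h4
  rw [div_pow, one_pow, mul_one_div, le_div_iff₀ (by positivity), ← pow_add,
    pow_le_pow_iff_right₀ (by norm_num : (1 : ℝ) < 2)] at h4
  omega

/-- NO INVARIANT CURVE. PROOF. Map to the algebraic closure: `(dbl θ N I P).map (mapRingHom φ) = dbl (θ.map φ) (N.map φ) I (P.map (mapRingHom φ))`. -/
theorem not_dvd_dbl {a b : K} (h2 : (2 : K) ≠ 0) (hΔ : 4 * a ^ 3 + 27 * b ^ 2 ≠ 0) {I : ℕ} {P : K[X][X]}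
    (h1 : 1 ≤ P.natDegree) (h0 : P.coeff 0 ≠ 0) (hI : ∀ j, (P.coeff j).natDegree ≤ I) : ¬ P ∣ dbl (tht a b) (num a b) I P := by
  intro hd
  have hφ : Function.Injective (algebraMap K (AlgebraicClosure K)) :=
    (algebraMap K (AlgebraicClosure K)).injective
  have hinj : Function.Injective (mapRingHom (algebraMap K (AlgebraicClosure K))) :=
    map_injective _ hφ
  have h3 := Polynomial.map_dvd (mapRingHom (algebraMap K (AlgebraicClosure K))) hd
  rw [uzf_dbl] at h3
  rw [uzf_tht, uzf_num] at h3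
  refine not_dvd_dbl' ?_ ?_ ?_ ?_ ?_ h3
  · rw [← map_ofNat (algebraMap K (AlgebraicClosure K)) 2]
    exact (_root_.map_ne_zero _).2 h2
  · rw [uzf_disc]
    exact (_root_.map_ne_zero _).2 hΔ
  · rw [natDegree_map_eq_of_injective hinj]
    exact h1
  · rw [coeff_map, coe_mapRingHom]
    exact (Polynomial.map_ne_zero_iff hφ).2 h0
  · intro j
    rw [coeff_map, coe_mapRingHom]
    exact (natDegree_map_le).trans (hI j)

end Pool.Agent.Lib.MP_3550b5_nt.AC.Uz
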