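import Mathlib
import Pool.Agent.Lib.MP_3550b5_nt.AC.UzE
import Pool.Agent.Lib.MP_3550b5_nt.TP.Ver.Defs

/-!
PROJECT AC, block UNIFORM ZERO ESTIMATE: the order of vanishing of `P(r, f(r))`, `f` the square of the sigma function modulo `p` divided by `r`,
with an absolute constant (duplication and Newton polygons).
-/

namespace Pool.Agent.Lib.MP_3550b5_nt.AC.Uz

open PowerSeries

variable {K : Type*} [Field K]

private theorem uzg_sub {h : K⟦X⟧} (h0 : constantCoeff h = 0) {I : ℕ} {c : Polynomial K}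
    (hI : c.natDegree ≤ I) :
    (c : K⟦X⟧).subst h = ∑ j ∈ Finset.range (I + 1), C (c.coeff j) * h ^ j := by
  have hs : HasSubst h := HasSubst.of_constantCoeff_zero' h0
  have h1 : (c : K⟦X⟧) = ∑ j ∈ Finset.range (I + 1), C (c.coeff j) * X ^ j := by
    have h2 := congrArg (Polynomial.coeToPowerSeries.ringHom : Polynomial K →+* K⟦X⟧)
      (Polynomial.as_sum_range_C_mul_X_pow' (p := c) (n := I + 1) (by omega))
    simpa [map_sum, map_mul, map_pow, Polynomial.coeToPowerSeries.ringHom_apply] using h2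
  have h3 := congrArg (substAlgHom hs) h1
  rw [map_sum, coe_substAlgHom] at h3
  rw [h3]
  refine Finset.sum_congr rfl fun j _ => ?_
  have h4 : (substAlgHom hs) (C (c.coeff j) * X ^ j : K⟦X⟧) = C (c.coeff j) * h ^ j := by
    rw [map_mul, map_pow, substAlgHom_X]
    congr 1
    exact AlgHom.commutes (substAlgHom hs) (c.coeff j)
  rw [← coe_substAlgHom hs, h4]

/-- The value of `hm` as a power series. PROOF. `θ h = N`: `N^j θ^(I - j) = θ^I h^j`; `c.subst h = ∑ c_j h^j` (`substAlgHom`, `Polynomial.aeval`). -/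
theorem hm_subst {θ N : Polynomial K} {h : K⟦X⟧} (h0 : constantCoeff h = 0) (hh : (θ : K⟦X⟧) * h = (N : K⟦X⟧)) {I : ℕ} {c : Polynomial K}
    (hI : c.natDegree ≤ I) : ((hm θ N I c : Polynomial K) : K⟦X⟧) = (θ : K⟦X⟧) ^ I * (c : K⟦X⟧).subst h := by
  rw [uzg_sub h0 hI, Finset.mul_sum]
  have h1 : ((hm θ N I c : Polynomial K) : K⟦X⟧) = ∑ j ∈ Finset.range (I + 1),
      C (c.coeff j) * (N : K⟦X⟧) ^ j * (θ : K⟦X⟧) ^ (I - j) := by
    have h2 : (Polynomial.coeToPowerSeries.ringHom : Polynomial K →+* K⟦X⟧) (hm θ N I c) =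
      ∑ j ∈ Finset.range (I + 1), C (c.coeff j) * (N : K⟦X⟧) ^ j * (θ : K⟦X⟧) ^ (I - j) := by
      unfold hm
      rw [map_sum]
      refine Finset.sum_congr rfl fun j _ => ?_
      rw [map_mul, map_mul, map_pow, map_pow]
      simp only [Polynomial.coeToPowerSeries.ringHom_apply, Polynomial.coe_C]
    exact h2
  rw [h1]
  refine Finset.sum_congr rfl fun j hj => ?_
  have hj' : j ≤ I := Nat.lt_succ_iff.1 (Finset.mem_range.1 hj)
  rw [← hh, mul_pow]
  have h3 : (θ : K⟦X⟧) ^ I = (θ : K⟦X⟧) ^ j * (θ : K⟦X⟧) ^ (I - j) := by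
    rw [← pow_add, Nat.add_sub_cancel' hj']
  rw [h3]
  ring

private theorem uzg_evY (f : K⟦X⟧) (P : Polynomial (Polynomial K)) :
    Vr.evY f P = ∑ i ∈ Finset.range (P.natDegree + 1), (P.coeff i : K⟦X⟧) * f ^ i := by
  unfold Vr.evY
  rw [Polynomial.eval₂_eq_sum_range]
  rfl

/-- THE DUPLICATION OF THE RELATION. PROOF. `hm_subst` for the coefficients; `(evY f P).subst h = ∑ (c_i).subst h * (f.subst h)^i`, `f.subst h = θ f^4`. -/
theorem evY_dbl {θ N : Polynomial K} {f h : K⟦X⟧} (h0 : constantCoeff h = 0) (hh : (θ : K⟦X⟧) * h = (N : K⟦X⟧)) (FE : f.subst h = (θ : K⟦X⟧) * f ^ 4)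
    {I : ℕ} {P : Polynomial (Polynomial K)} (hI : ∀ j, (P.coeff j).natDegree ≤ I) :
    Vr.evY f (dbl θ N I P) = (θ : K⟦X⟧) ^ I * (Vr.evY f P).subst h := by
  have hs : HasSubst h := HasSubst.of_constantCoeff_zero' h0
  have h1 : Vr.evY f (dbl θ N I P) = ∑ i ∈ Finset.range (P.natDegree + 1),
      ((θ : K⟦X⟧) ^ i * ((θ : K⟦X⟧) ^ I * ((P.coeff i : Polynomial K) : K⟦X⟧).subst h)) *
        f ^ (4 * i) := by
    unfold Vr.evY dbl
    rw [Polynomial.eval₂_finsetSum]
    refine Finset.sum_congr rfl fun i _ => ?_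
    rw [Polynomial.eval₂_mul, Polynomial.eval₂_C, Polynomial.eval₂_X_pow, map_mul, map_pow,
      ← hm_subst h0 hh (hI i)]
    rfl
  have h2 : (Vr.evY f P).subst h = ∑ i ∈ Finset.range (P.natDegree + 1),
      ((P.coeff i : Polynomial K) : K⟦X⟧).subst h * ((θ : K⟦X⟧) * f ^ 4) ^ i := by
    rw [uzg_evY, ← coe_substAlgHom hs, map_sum]
    refine Finset.sum_congr rfl fun i _ => ?_
    rw [map_mul, map_pow]
    rw [coe_substAlgHom hs, FE]
  rw [h1, h2, Finset.mul_sum]
  refine Finset.sum_congr rfl fun i _ => ?_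
  rw [mul_pow, ← pow_mul]
  ring

/-- PROOF. `evY_dbl`; `h` is divisible by `X`. -/
theorem dvd_evY_dbl {θ N : Polynomial K} {f h : K⟦X⟧} (h0 : constantCoeff h = 0) (hh : (θ : K⟦X⟧) * h = (N : K⟦X⟧)) (FE : f.subst h = (θ : K⟦X⟧) * f ^ 4)
    {I : ℕ} {P : Polynomial (Polynomial K)} (hI : ∀ j, (P.coeff j).natDegree ≤ I) {m : ℕ} (hm : X ^ m ∣ Vr.evY f P) :
    X ^ m ∣ Vr.evY f (dbl θ N I P) := by
  have hs : HasSubst h := HasSubst.of_constantCoeff_zero' h0
  rw [evY_dbl h0 hh FE hI]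
  obtain ⟨g, hg⟩ := hm
  rw [hg, ← coe_substAlgHom hs, map_mul, map_pow, substAlgHom_X]
  obtain ⟨h', rfl⟩ := X_dvd_iff.2 h0
  rw [mul_pow]
  exact ⟨(θ : K⟦X⟧) ^ I * (h' ^ m * (substAlgHom hs) g), by ring⟩

private theorem uzg_tht (a b : K) : (tht a b).natDegree ≤ 4 := by
  unfold tht
  compute_degree

private theorem uzg_num (a b : K) : (num a b).natDegree ≤ 4 := by
  unfold num
  compute_degree

private theorem uzg_hm (a b : K) (I : ℕ) (c : Polynomial K) :
    (hm (tht a b) (num a b) I c).natDegree ≤ 4 * I := by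
  unfold hm
  refine Polynomial.natDegree_sum_le_of_forall_le _ _ fun j hj => ?_
  have hj' : j ≤ I := Nat.lt_succ_iff.1 (Finset.mem_range.1 hj)
  have h1 : (Polynomial.C (c.coeff j) * num a b ^ j).natDegree ≤ j * 4 :=
    (Polynomial.natDegree_C_mul_le _ _).trans (Polynomial.natDegree_pow_le_of_le j (uzg_num a b))
  have h2 : (tht a b ^ (I - j)).natDegree ≤ (I - j) * 4 :=
    Polynomial.natDegree_pow_le_of_le _ (uzg_tht a b)
  have h3 := Polynomial.natDegree_mul_le_of_le h1 h2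
  omega

/-- The degrees of `dbl`. PROOF. `natDegree (tht a b) ≤ 4`, `natDegree (num a b) ≤ 4`. -/
theorem dbl_deg_le (a b : K) {I : ℕ} (P : Polynomial (Polynomial K)) :
    (dbl (tht a b) (num a b) I P).natDegree ≤ 4 * P.natDegree ∧
      ∀ j, ((dbl (tht a b) (num a b) I P).coeff j).natDegree ≤ 4 * I + 4 * P.natDegree := by
  constructor
  · unfold dbl
    refine Polynomial.natDegree_sum_le_of_forall_le _ _ fun i hi => ?_
    have hi' : i ≤ P.natDegree := Nat.lt_succ_iff.1 (Finset.mem_range.1 hi)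
    refine (Polynomial.natDegree_C_mul_X_pow_le _ _).trans ?_
    omega
  · intro j
    by_cases hj : 4 ∣ j
    · obtain ⟨i, rfl⟩ := hj
      rw [dbl_coeff]
      rcases le_or_gt i P.natDegree with hi | hi
      · have h1 : (tht a b ^ i).natDegree ≤ i * 4 :=
          Polynomial.natDegree_pow_le_of_le _ (uzg_tht a b)
        have h3 := Polynomial.natDegree_mul_le_of_le h1 (uzg_hm a b I (P.coeff i))
        omega
      · have h4 : hm (tht a b) (num a b) I (P.coeff i) = 0 := by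
          rw [Polynomial.coeff_eq_zero_of_natDegree_lt hi]
          unfold hm
          refine Finset.sum_eq_zero fun k _ => ?_
          rw [Polynomial.coeff_zero, Polynomial.C_0, zero_mul, zero_mul]
        rw [h4, mul_zero, Polynomial.natDegree_zero]
        exact Nat.zero_le _
    · rw [dbl_coeff' _ _ _ _ hj, Polynomial.natDegree_zero]
      exact Nat.zero_le _

end Pool.Agent.Lib.MP_3550b5_nt.AC.Uz
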