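import Mathlib
import Pool.Agent.Lib.MP_3550b5_nt.AC.UzF
import Pool.Agent.Lib.MP_3550b5_nt.AC.UzG
import Pool.Agent.Lib.MP_3550b5_nt.TP.Ver.Res
import Pool.Agent.Lib.MP_3550b5_nt.TP.Ver.Gen

/-!
PROJECT AC, block UNIFORM ZERO ESTIMATE: the order of vanishing of `P(r, f(r))`, `f` the square of the sigma function modulo `p` divided by `r`,
with an absolute constant (duplication and Newton polygons).
-/

namespace Pool.Agent.Lib.MP_3550b5_nt.AC.Uz

open PowerSeries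

variable {K : Type*} [Field K]

/-- THE ZERO ESTIMATE. PROOF. `Vr.order_all` with `D = 20`: let `P` be irreducible. If `P.coeff 0 = 0` then `P` is a constant times `X` (see the proof of `Vr.order_irr`) and `evY f P = f * C c` has order `0`.
Otherwise `¬ P ∣ dbl P` (`not_dvd_dbl`), `dvd_evY_dbl`, `Vr.contact` with `Q = dbl P`, `J = 4 J`, `I' = 4 I + 4 J`: `m ≤ 4 J (I + (4 I + 4 J)) ≤ 20 J (I + J)`. -/
theorem order20 {a b : K} (h2 : (2 : K) ≠ 0) (hΔ : 4 * a ^ 3 + 27 * b ^ 2 ≠ 0) {f h : K⟦X⟧} (hf : constantCoeff f = 1)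
    (h0 : constantCoeff h = 0) (hh : (tht a b : K⟦X⟧) * h = (num a b : K⟦X⟧)) (FE : f.subst h = (tht a b : K⟦X⟧) * f ^ 4)
    (I J : ℕ) (P : Polynomial (Polynomial K)) (hP : P ≠ 0) (hJ : P.natDegree ≤ J) (hI : ∀ j, (P.coeff j).natDegree ≤ I) :
    ∃ m ≤ 20 * (J * (I + J)) + I, coeff m (Vr.evY f P) ≠ 0 := by
  refine Vr.order_all (D := 20) (fun I J P hP hP1 hPJ hPI m hm => ?_) I J P hP hJ hI
  by_cases hc0 : P.coeff 0 = 0
  · obtain ⟨R, hR⟩ := Polynomial.X_dvd_iff.mpr hc0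
    have hRu : IsUnit R := (hP.isUnit_or_isUnit hR).resolve_left Polynomial.not_isUnit_X
    obtain ⟨r, hr, hRr⟩ := Polynomial.isUnit_iff.mp hRu
    obtain ⟨c, hc, hrc⟩ := Polynomial.isUnit_iff.mp hr
    have hev : Vr.evY f P = f * C c := by
      rw [hR, ← hRr, ← hrc, Vr.evY, Polynomial.eval₂_mul, Polynomial.eval₂_X,
        Polynomial.eval₂_C]
      congr 1
      simp
    have hm0 : m = 0 := by
      by_contra hm0
      have h3 : X ∣ Vr.evY f P := (dvd_pow_self _ hm0).trans hm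
      rw [X_dvd_iff, hev, map_mul, hf, one_mul, constantCoeff_C] at h3
      exact hc.ne_zero h3
    rw [hm0]
    exact Nat.zero_le _
  · have h3 := not_dvd_dbl h2 hΔ hP1 hc0 hPI
    obtain ⟨h4, h5⟩ := dbl_deg_le a b (I := I) P
    have h6 := dvd_evY_dbl h0 hh FE hPI hm
    have h7 := Vr.contact (J := 4 * J) (I' := 4 * I + 4 * J) hP hP1 (by omega)
      (h4.trans (by omega)) hPI (fun j => (h5 j).trans (by omega)) hm h6 h3
    refine h7.trans ?_
    nlinarith [Nat.zero_le (J * J)]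

end Pool.Agent.Lib.MP_3550b5_nt.AC.Uz
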