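import Mathlib
import Pool.Agent.Lib.MP_3550b5_nt.AC.UzH
import Pool.Agent.Lib.MP_3550b5_nt.TP.Ver.FE

/-!
PROJECT AC, block UNIFORM ZERO ESTIMATE: the order of vanishing of `P(r, f(r))`, `f` the square of the sigma function modulo `p` divided by `r`,
with an absolute constant (duplication and Newton polygons).
-/

namespace Pool.Agent.Lib.MP_3550b5_nt.AC.Uz

open PowerSeries

variable {p : ℕ} [hp : Fact p.Prime]

/-- DUPLICATION. PROOF. `Vr.exists_isMT`, `Vr.exists_isVU_dom`, `Vr.three_term` with `n = 0`: `M 0 = 0`, `M 1 = X`, `QQ(X, X) = θ`, `SS(X, X, T 1) = N` (`T 1 = G(X)`), `M 2 = h`. -/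
theorem exists_dup {R : Type*} [CommRing R] [IsDomain R] [CharZero R] {a b c : R} {U : R⟦X⟧} (hU : IsSigmaU a b c U) :
    ∃ h : R⟦X⟧, constantCoeff h = 0 ∧
      (1 - 2 * C a * X ^ 2 - 8 * C b * X ^ 3 + C a ^ 2 * X ^ 4) * h = 4 * X * (1 + C a * X ^ 2 + C b * X ^ 3) ∧
      U.subst h = (1 - 2 * C a * X ^ 2 - 8 * C b * X ^ 3 + C a ^ 2 * X ^ 4) * U ^ 4 := by
  obtain ⟨M, T, hMT⟩ := Vr.exists_isMT a b
  obtain ⟨v, hv⟩ := Vr.exists_isVU_dom hU
  have hM1 : M 1 = X := by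
    have h1 := hMT.hM 0
    rw [hMT.M0, hMT.T0, zero_add] at h1
    simp only [Vr.QQ, Vr.SS, Vr.EE] at h1
    linear_combination h1
  have hT1 : T 1 = X + C a * X ^ 3 + C b * X ^ 4 := by
    have h1 := hMT.hT 0
    rw [hMT.M0, hMT.T0, zero_add] at h1
    simp only [Vr.QQ, Vr.SS, Vr.EE, Vr.WW, Vr.gg, Vr.gd, Vr.Qr] at h1
    linear_combination h1
  have h2 := hMT.hM 1
  have h3 := Vr.three_term hMT hv 0
  have e1 : (1 + 1 : ℕ) = 2 := rfl
  rw [hM1, hT1, e1] at h2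
  rw [zero_add, zero_add, hM1, hMT.M0] at h3
  have hX : U.subst (X : R⟦X⟧) = U := X_subst U
  have h0 : U.subst (0 : R⟦X⟧) = 1 := by
    have h4 := PowerSeries.subst_zero_eq_C_constantCoeff (R := R) (S := R) (τ := Unit) (f := U)
    rw [hv.one] at h4
    rw [show (0 : R⟦X⟧) = (0 : MvPowerSeries Unit R) from rfl, h4]
    simp
  rw [hX, h0, mul_one] at h3
  simp only [Vr.QQ, Vr.SS, Vr.EE] at h2 h3
  refine ⟨M 2, hMT.M_const 2, ?_, ?_⟩
  · linear_combination h2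
  · linear_combination h3

/-- THE UNIFORM ORDER. PROOF. `exists_dup` reduced modulo `p` (`PowerSeries.map_subst`), `order20`. -/
theorem uniform_order20 (hp5 : 5 ≤ p) {a b : ℤ} (hΔ : ¬ (p : ℤ) ∣ 4 * a ^ 3 + 27 * b ^ 2) {c : ℤ_[p]} {U : ℤ_[p]⟦X⟧}
    (hU : IsSigmaU (a : ℤ_[p]) (b : ℤ_[p]) c U) (I J : ℕ) (P : Polynomial (Polynomial (ZMod p))) (hP : P ≠ 0)
    (hJ : P.natDegree ≤ J) (hI : ∀ j, (P.coeff j).natDegree ≤ I) :
    ∃ m ≤ 20 * (J * (I + J)) + I, coeff m (Vr.evY (PowerSeries.map (PadicInt.toZMod (p := p)) U) P) ≠ 0 := by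
  obtain ⟨h, hh0, hh1, hh2⟩ := exists_dup hU
  obtain ⟨v, hv⟩ := Vr.exists_isVU_dom hU
  have hs : PowerSeries.HasSubst h := PowerSeries.HasSubst.of_constantCoeff_zero' hh0
  have h1 : PowerSeries.map (PadicInt.toZMod (p := p)) (U.subst h) =
      (PowerSeries.map (PadicInt.toZMod (p := p)) U).subst (PowerSeries.map (PadicInt.toZMod (p := p)) h) :=
    PowerSeries.map_subst hs U
  have hθ : ((tht (a : ZMod p) (b : ZMod p) : Polynomial (ZMod p)) : (ZMod p)⟦X⟧) =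
      PowerSeries.map (PadicInt.toZMod (p := p)) (1 - 2 * C (a : ℤ_[p]) * X ^ 2 - 8 * C (b : ℤ_[p]) * X ^ 3 +
        C (a : ℤ_[p]) ^ 2 * X ^ 4) := by
    rw [← Polynomial.coeToPowerSeries.ringHom_apply]
    have hX : Polynomial.coeToPowerSeries.ringHom (R := ZMod p) Polynomial.X = X := by
      rw [Polynomial.coeToPowerSeries.ringHom_apply, Polynomial.coe_X]
    simp only [tht, map_add, map_sub, map_mul, map_pow, map_one, map_ofNat, map_X, map_intCast, hX]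
  have hN : ((num (a : ZMod p) (b : ZMod p) : Polynomial (ZMod p)) : (ZMod p)⟦X⟧) =
      PowerSeries.map (PadicInt.toZMod (p := p)) (4 * X * (1 + C (a : ℤ_[p]) * X ^ 2 + C (b : ℤ_[p]) * X ^ 3)) := by
    rw [← Polynomial.coeToPowerSeries.ringHom_apply]
    have hX : Polynomial.coeToPowerSeries.ringHom (R := ZMod p) Polynomial.X = X := by
      rw [Polynomial.coeToPowerSeries.ringHom_apply, Polynomial.coe_X]
    simp only [num, map_add, map_mul, map_pow, map_one, map_ofNat, map_X, map_intCast, hX]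
  refine order20 (a := (a : ZMod p)) (b := (b : ZMod p)) (h := PowerSeries.map (PadicInt.toZMod (p := p)) h)
    ?_ ?_ ?_ ?_ ?_ ?_ I J P hP hJ hI
  · intro h
    have h1 : ((2 : ℕ) : ZMod p) = 0 := by exact_mod_cast h
    have h2 := Nat.le_of_dvd (by norm_num) ((ZMod.natCast_eq_zero_iff 2 p).1 h1)
    omega
  · intro h
    apply hΔ
    rw [← ZMod.intCast_zmod_eq_zero_iff_dvd]
    push_cast
    exact h
  · rw [← coeff_zero_eq_constantCoeff_apply, coeff_map, coeff_zero_eq_constantCoeff_apply, hv.one, map_one]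
  · rw [← coeff_zero_eq_constantCoeff_apply, coeff_map, coeff_zero_eq_constantCoeff_apply, hh0, map_zero]
  · rw [hθ, hN, ← map_mul, hh1]
  · rw [← h1, hh2, hθ, map_mul, map_pow]

end Pool.Agent.Lib.MP_3550b5_nt.AC.Uz
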