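import Mathlib
import Pool.Agent.Lib.MP_3550b5_nt.AC.AvA
import Pool.Agent.Lib.MP_3550b5_nt.AC.La
import Pool.Agent.Lib.MP_3550b5_nt.AC.NvJ

/-!
PROJECT AC, block NEAR: the points near the leaf (`D` and `A` are congruent modulo `p^N` to the values on the leaf).
-/

namespace Pool.Agent.Lib.MP_3550b5_nt.AC

open PowerSeries SV

variable {p : ℕ} [hp : Fact p.Prime]

/-- THE POINT NEAR THE LEAF. PROOF. `b - bs = p^2 m`, `s = p m`; `SgL.val` at `(s, t)`, `bs + p s = b`. -/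
theorem exists_BN {a bs b A D : ℤ} {l T M : ℕ} {u t u' : ℤ_[p]} {L : Leaf p} {tay : Polynomial ℤ_[p] →+* Hz p}
    {rs : Hz p →+* ℤ_[p]⟦X⟧} {c k g h2 h3 : Hz p} {W V Om S Z N R : (Hz p)⟦X⟧}
    (h : SgL a bs u L tay rs c k g h2 h3 W V Om S Z N R) (hb : (p : ℤ) ^ 2 ∣ b - bs) (hl : |b| ≤ 2 ^ l)
    (hD : |D| ≤ 2 ^ T) (hA : |A| ≤ 4 ^ T) (ht : ‖t‖ < 1) (hu : (p : ℤ_[p]) ^ M ∣ u - u')
    (hd : ∀ (c : ℤ_[p]) (W V Om S Z : ℤ_[p]⟦X⟧), SD (a : ℤ_[p]) (b : ℤ_[p]) c W V Om S Z →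
      (D : ℤ_[p]) = u' * (t * ev S t) ∧ (A : ℤ_[p]) = u' ^ 2 * ev V t * ev S t ^ 2) :
    ∃ P : BN L l T M, P.v = ![b, D, A] := by
  obtain ⟨m, hm⟩ := hb
  have hs : ‖(p : ℤ_[p]) * (m : ℤ_[p])‖ < 1 := by
    rw [norm_mul]
    refine (mul_le_of_le_one_right (norm_nonneg _) (PadicInt.norm_le_one _)).trans_lt ?_
    rw [PadicInt.norm_p]
    exact inv_lt_one_of_one_lt₀ (by exact_mod_cast hp.out.one_lt)
  obtain ⟨P, hP1, hP2⟩ : ∃ P : Pt p, P.s = (p : ℤ_[p]) * (m : ℤ_[p]) ∧ P.t = t :=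
    ⟨⟨_, t, hs, ht⟩, rfl, rfl⟩
  obtain ⟨e1, c', W', V', Om', S', Z', hSD, e2, e3⟩ := h.val P
  have hbs : (bs : ℤ_[p]) + p * P.s = (b : ℤ_[p]) := by
    have h1 : (b : ℤ_[p]) - bs = (p : ℤ_[p]) ^ 2 * m := by exact_mod_cast congrArg (Int.cast : ℤ → ℤ_[p]) hm
    rw [hP1]
    linear_combination -h1
  rw [hbs] at e1 hSD
  rw [hP2] at e2 e3
  obtain ⟨hD', hA'⟩ := hd _ _ _ _ _ _ hSD
  refine ⟨⟨![b, D, A], P, e1, ?_, ?_, hl, hD, hA⟩, rfl⟩
  · change (p : ℤ_[p]) ^ M ∣ P.ev L.DD - (D : ℤ_[p])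
    rw [e2, hD']
    exact (Dvd.dvd.mul_right hu (t * ev S' t)).trans (dvd_of_eq (by ring))
  · change (p : ℤ_[p]) ^ M ∣ P.ev L.AA - (A : ℤ_[p])
    rw [e3, hA']
    exact (Dvd.dvd.mul_right hu ((u + u') * (ev V' t * ev S' t ^ 2))).trans (dvd_of_eq (by ring))

/-- THE COUNT, near a value. PROOF. The proof of `main_count` with the classes `b ↦ (b mod p^2, u_b mod p)`: in one class `‖u_b - u_(bs)‖ = ‖ulog u_b - ulog u_(bs)‖` (`norm_ulog_sub`) is at most `p^(-N)`,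
`N = C T^3 l^3`; `exists_BN`, `class_countN`. -/
theorem main_countN (p : ℕ) [Fact p.Prime] (hp5 : 5 ≤ p) : ∃ C : ℕ, ∀ a : ℤ, a ≠ 0 → ∀ v : ℚ_[p], ∀ l T : ℕ, 1 ≤ l → 1 ≤ T → |a| ≤ 2 ^ T →
    ∀ X : Finset ℤ, (∀ b ∈ X, |b| ≤ 2 ^ l ∧ ∃ v' : ℚ_[p], ‖v' - v‖ ≤ (p : ℝ) ^ (-((C * (T ^ 3 * l ^ 3) : ℕ) : ℤ)) ∧ ExcV p a T v' b) →
      X.card ≤ C * (T ^ 5 * l ^ 5) := by
  classical
  obtain ⟨C₁, hord⟩ := SgL_ord p hp5
  obtain ⟨C, hC⟩ := class_countN p hp5 C₁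
  refine ⟨3 + C * p ^ 3, fun a ha v l T hl hT haT X hX => ?_⟩
  have hone : 1 ≤ T ^ 5 * l ^ 5 := Nat.mul_pos (by positivity) (by positivity)
  by_cases hTl : T ≤ 2 ^ l
  · -- the main case
    obtain ⟨M, hM⟩ : ∃ M, M = (3 + C * p ^ 3) * (T ^ 3 * l ^ 3) := ⟨_, rfl⟩
    rw [← hM] at hX
    have hCM : C * (T ^ 3 * l ^ 3) ≤ M := by
      rw [hM]
      refine Nat.mul_le_mul_right _ ?_
      have h1 : C ≤ C * p ^ 3 := Nat.le_mul_of_pos_right _ (pow_pos (by omega) 3)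
      omega
    choose! v' hv' hExc using fun b (hb : b ∈ X) => (hX b hb).2
    choose! A D u t hD hA hgood ht hu hul hSD hd using fun b (hb : b ∈ X) =>
      bad_dataV hp5 (hExc b hb)
    obtain ⟨tt, htt⟩ : ∃ tt : Finset (ZMod (p ^ 2) × ZMod p), tt = Finset.univ := ⟨_, rfl⟩
    have htc : tt.card ≤ p ^ 3 := by
      rw [htt, Finset.card_univ, Fintype.card_prod, ZMod.card, ZMod.card]
      exact le_of_eq (by ring)
    have hfib : ∀ β ∈ tt, (X.filter fun b : ℤ => (((b : ℤ) : ZMod (p ^ 2)), PadicInt.toZMod (u b)) = β).card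
        ≤ C * (T ^ 5 * l ^ 5) := by
      intro β _
      obtain ⟨Y₀, hY₀⟩ : ∃ Y₀ : Finset ℤ,
        Y₀ = X.filter fun b : ℤ => (((b : ℤ) : ZMod (p ^ 2)), PadicInt.toZMod (u b)) = β := ⟨_, rfl⟩
      rw [← hY₀]
      rcases Finset.eq_empty_or_nonempty Y₀ with he | ⟨bs, hbs⟩
      · rw [he, Finset.card_empty]
        exact Nat.zero_le _
      have hm : ∀ b ∈ Y₀, b ∈ X ∧ (p : ℤ) ^ 2 ∣ b - bs ∧ PadicInt.toZMod (u b) = PadicInt.toZMod (u bs) := by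
        intro b hb
        rw [hY₀, Finset.mem_filter] at hb hbs
        have h1 := hb.2.trans hbs.2.symm
        rw [Prod.mk.injEq] at h1
        refine ⟨hb.1, ?_, h1.2⟩
        have h2 : ((p ^ 2 : ℕ) : ℤ) ∣ b - bs :=
          (ZMod.intCast_eq_intCast_iff_dvd_sub bs b (p ^ 2)).1 h1.1.symm
        rwa [Nat.cast_pow] at h2
      have hbsX := (hm bs hbs).1
      have hub : IsUnit (u bs) := hu bs hbsX
      obtain ⟨c0, W0, V0, Om0, S0, Z0, h0⟩ := hSD bs hbsX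
      have hGO : GoodOrdinary p a bs := (hExc bs hbsX).1
      obtain ⟨L, tay, rs, c, k, g, h2, h3, W, V, Om, S, Z, N, R, hL⟩ :=
        exists_SgL hp5 hGO.1 h0 hub
      have hOrd := hord a bs (u bs) L tay rs c k g h2 h3 W V Om S Z N R hGO hL
      have hADE := hL.ade hp5
      have hP : ∀ b ∈ Y₀, ∃ P : BN L l T M, P.v = ![b, D b, A b] := by
        intro b hb
        obtain ⟨hbX, hbd, hbu⟩ := hm b hb
        have h4 : ‖u bs - u b‖ < 1 := by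
          rw [PadicInt.norm_lt_one_iff_dvd, ← Ideal.mem_span_singleton, ← PadicInt.maximalIdeal_eq_span_p,
            ← PadicInt.ker_toZMod, RingHom.mem_ker, map_sub, sub_eq_zero]
          exact hbu.symm
        have h5 := norm_ulog_sub (by omega) hub (hu b hbX) h4
        rw [hul bs hbsX, hul b hbX] at h5
        have h6 : ‖-v' bs - -v' b‖ ≤ (p : ℝ) ^ (-(M : ℤ)) := by
          have h7 : -v' bs - -v' b = (v' b - v) + -(v' bs - v) := by ring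
          rw [h7]
          refine (Padic.nonarchimedean _ _).trans (max_le (hv' b hbX) ?_)
          rw [norm_neg]
          exact hv' bs hbsX
        rw [h5, PadicInt.norm_le_pow_iff_mem_span_pow, Ideal.mem_span_singleton] at h6
        exact exists_BN hL hbd (hX b hbX).1 (hD b hbX) (hA b hbX) (ht b hbX) h6 (hd b hbX)
      have hne : Nonempty (BN L l T M) := (hP bs hbs).nonempty
      choose! P hPv using hP
      have hP0 : ∀ b ∈ Y₀, (P b).v 0 = b := by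
        intro b hb
        rw [hPv b hb]
        rfl
      have hcard : (Y₀.image P).card = Y₀.card := by
        apply Finset.card_image_of_injOn
        intro b hb b' hb' h
        rw [← hP0 b hb, ← hP0 b' hb']
        exact congrArg (fun Q : BN L l T M => Q.v 0) h
      rw [← hcard]
      refine hC L a ha hOrd hADE l T M hl hT hTl haT hCM (Y₀.image P) ?_ ?_
      · intro Q hQ Q' hQ' h
        obtain ⟨b, hb, rfl⟩ := Finset.mem_image.1 hQ
        obtain ⟨b', hb', rfl⟩ := Finset.mem_image.1 hQ'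
        rw [hP0 b hb, hP0 b' hb'] at h
        rw [h]
      · intro Q hQ
        obtain ⟨b, hb, rfl⟩ := Finset.mem_image.1 hQ
        rw [hPv b hb]
        exact hgood b (hm b hb).1
    have hmaps : ∀ b ∈ X, (((b : ℤ) : ZMod (p ^ 2)), PadicInt.toZMod (u b)) ∈ tt := by
      intro b _
      rw [htt]
      exact Finset.mem_univ _
    have h1 := Finset.card_le_mul_card_image_of_maps_to hmaps (C * (T ^ 5 * l ^ 5)) hfib
    calc X.card ≤ C * (T ^ 5 * l ^ 5) * tt.card := h1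
      _ ≤ C * (T ^ 5 * l ^ 5) * p ^ 3 := Nat.mul_le_mul_left _ htc
      _ = C * p ^ 3 * (T ^ 5 * l ^ 5) := by ring
      _ ≤ (3 + C * p ^ 3) * (T ^ 5 * l ^ 5) := Nat.mul_le_mul_right _ (Nat.le_add_left _ _)
  · -- `b` is small
    rw [not_le] at hTl
    have h1 : X ⊆ Finset.Icc (-(2 ^ l : ℤ)) (2 ^ l) := by
      intro b hb
      rw [Finset.mem_Icc]
      exact abs_le.1 (hX b hb).1
    have h2 := Finset.card_le_card h1
    rw [Int.card_Icc] at h2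
    have h3 : (2 ^ l + 1 - -(2 ^ l : ℤ)).toNat = 2 * 2 ^ l + 1 := by
      have h4 : (2 ^ l + 1 - -(2 ^ l : ℤ)) = ((2 * 2 ^ l + 1 : ℕ) : ℤ) := by
        push_cast
        ring
      rw [h4, Int.toNat_natCast]
    rw [h3] at h2
    have h4 : T ≤ T ^ 5 * l ^ 5 := by
      calc T = T * 1 := (mul_one T).symm
        _ ≤ T ^ 5 * l ^ 5 := Nat.mul_le_mul (Nat.le_self_pow (by norm_num) T) (Nat.one_le_pow 5 l hl)
    calc X.card ≤ 2 * 2 ^ l + 1 := h2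
      _ ≤ 3 * T := by omega
      _ ≤ 3 * (T ^ 5 * l ^ 5) := Nat.mul_le_mul_left _ h4
      _ ≤ (3 + C * p ^ 3) * (T ^ 5 * l ^ 5) := Nat.mul_le_mul_right _ (Nat.le_add_right _ _)

end Pool.Agent.Lib.MP_3550b5_nt.AC
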