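import Mathlib
import Pool.Agent.Lib.MP_3550b5_nt.AC.ApJ

/-!
PROJECT AC, block CONSTANTS: the counts of the block NEAR with constants explicit in `p`.
-/

namespace Pool.Agent.Lib.MP_3550b5_nt.AC

open WeierstrassCurve.Affine

/-- a small multiple in the kernel of reduction -/
private theorem apF_ker {p : ℕ} [hp : Fact p.Prime] (hp5 : 5 ≤ p) {a b : ℤ} (hΔ : ¬ (p : ℤ) ∣ 4 * a ^ 3 + 27 * b ^ 2)
    {P : (curve a b).Point} (htor : ¬ IsOfFinAddOrder P) :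
    ∃ n, 1 ≤ n ∧ n ≤ 2 * p + 1 ∧ 1 < ‖((ptX (n • P) : ℚ) : ℚ_[p])‖ := by
  by_contra hcon
  push Not at hcon
  have hne : ∀ n, 1 ≤ n → n • P ≠ 0 := fun n hn => nsmul_ne_of_not_tor htor n (by omega)
  let f : Fin (p + 1) → ZMod p := fun i =>
    PadicInt.toZMod ⟨((ptX ((i.val + 1) • P) : ℚ) : ℚ_[p]), hcon (i.val + 1) (by omega) (by omega)⟩
  obtain ⟨i, j, hij, hee⟩ := Fintype.exists_ne_map_eq_of_card_lt f (by simp [ZMod.card])
  wlog hlt : i.val < j.val generalizing i j with H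
  · exact H j i hij.symm hee.symm (by
      have : i.val ≠ j.val := fun hh => hij (Fin.ext hh)
      omega)
  have hee' : PadicInt.toZMod
        (⟨((ptX ((j.val + 1) • P) : ℚ) : ℚ_[p]), hcon (j.val + 1) (by omega) (by omega)⟩ -
          ⟨((ptX ((i.val + 1) • P) : ℚ) : ℚ_[p]), hcon (i.val + 1) (by omega) (by omega)⟩) = 0 := by
    rw [map_sub, sub_eq_zero]
    exact hee.symm
  rw [← RingHom.mem_ker, PadicInt.ker_toZMod, IsLocalRing.mem_maximalIdeal,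
    PadicInt.mem_nonunits] at hee'
  have h3 := SV.ker_of_congr hp5 hΔ (hne (j.val + 1) (by omega)) (hne (i.val + 1) (by omega))
    (hcon (j.val + 1) (by omega) (by omega)) (hcon (i.val + 1) (by omega) (by omega)) hee'
  have e1 : (j.val + 1) • P + (i.val + 1) • P = (j.val + 1 + (i.val + 1)) • P := (add_smul _ _ _).symm
  have e2 : (j.val + 1) • P - (i.val + 1) • P = (j.val - i.val) • P := by
    rw [sub_eq_iff_eq_add, ← add_smul]
    congr 1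
    omega
  rw [e1, e2] at h3
  rcases h3 with h3 | h3 | h3 | h3
  · exact hne _ (by omega) h3
  · exact hne _ (by omega) h3
  · exact absurd (hcon _ (by omega) (by omega)) (not_le.2 h3)
  · exact absurd (hcon _ (by omega) (by omega)) (not_le.2 h3)

/-- THE GOOD MULTIPLE, `M = M' n` with `n` the index of the point in the kernel of reduction modulo `p`. PROOF. As `SV.good_mult` (SV/FLoc.lean): `exists_rep`, `exists_good_multiple_c` with `c = M`, `hMl` for the primes. `p ∣ D`: a multiple of index `≤ 2 p + 1` is in the kernel of reduction (pigeonhole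
and `SV.ker_of_congr`, see the proof of `good_ker` there), `M • P` too (`ker_mult`). -/
theorem exists_goodU {p : ℕ} [hp : Fact p.Prime] (hp5 : 5 ≤ p) {a b : ℤ} (hΔ : ¬ (p : ℤ) ∣ 4 * a ^ 3 + 27 * b ^ 2)
    {P : (curve a b).Point} (htor : ¬ IsOfFinAddOrder P) {M' : ℕ} (hM' : 1 ≤ M')
    (hMl' : ∀ (l : ℕ) (_ : Fact l.Prime), ∃ m, 1 ≤ m ∧ m ∣ M' ∧ ¬ SingAt l (m • P)) :
    ∃ n : ℕ, 1 ≤ n ∧ n ≤ 2 * p + 1 ∧ ∃ A B D : ℤ, IsRep a b A B D ((M' * n) • P) ∧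
      IsCoprime (2 * B) (3 * A ^ 2 + a * D ^ 4) ∧ (p : ℤ) ∣ D := by
  obtain ⟨n, hn1, hn2, hn3⟩ := apF_ker hp5 hΔ htor
  refine ⟨n, hn1, hn2, ?_⟩
  obtain ⟨M, hMe⟩ : ∃ M, M = M' * n := ⟨_, rfl⟩
  rw [← hMe]
  have hM : 1 ≤ M := by
    rw [hMe]
    exact Nat.mul_pos hM' hn1
  have hnM : n ∣ M := ⟨M', by rw [hMe, mul_comm]⟩
  have hMl : ∀ (l : ℕ) (_ : Fact l.Prime), ∃ m, 1 ≤ m ∧ m ∣ M ∧ ¬ SingAt l (m • P) := by
    intro l hl
    obtain ⟨m, h1, h2, h3⟩ := hMl' l hl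
    exact ⟨m, h1, h2.trans ⟨n, hMe⟩, h3⟩
  have hP0 : P ≠ 0 := by
    have h := nsmul_ne_of_not_tor htor 1 one_pos
    rwa [one_nsmul] at h
  obtain ⟨A, B, D, hP, -, -⟩ := exists_rep hP0
  have hpos : 0 < 2 * p + 1 := by omega
  obtain ⟨G, A₁, B₁, D₁, -, hrep, hcop, -, -⟩ := exists_good_multiple_c hP htor hM
    (fun l hl _ _ => hMl l hl)
  refine ⟨A₁, B₁, D₁, hrep, hcop, ?_⟩
  obtain ⟨j, rfl⟩ := hnM
  have hj : 1 ≤ j := by
    rcases Nat.eq_zero_or_pos j with h0 | h0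
    · rw [h0, mul_zero] at hM
      omega
    · exact h0
  obtain ⟨h1, -⟩ := ker_mult hn3 (N := j + 1) (fun m hm _ => by
    rw [← mul_smul]
    exact nsmul_ne_of_not_tor htor _ (Nat.mul_pos hm hn1)) j hj (Nat.lt_succ_self j)
  rw [← mul_smul, mul_comm j n, hrep.ptX_eq] at h1
  by_contra hd
  have hDn : ‖(D₁ : ℚ_[p])‖ = 1 := by
    refine le_antisymm (Padic.norm_int_le_one D₁) ?_
    by_contra hlt
    exact hd (Padic.norm_intCast_lt_one_iff.mp (not_le.mp hlt))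
  push_cast at h1
  rw [norm_div, norm_pow, hDn, one_pow, div_one] at h1
  exact absurd (Padic.norm_int_le_one A₁) (not_le.2 h1)


/-- the coprimality of the numerator and the denominator -/
private lemma apJ_coprime {a b A B D : ℤ} (he : B ^ 2 = A ^ 3 + a * A * D ^ 4 + b * D ^ 6)
    (hc : IsCoprime (2 * B) (3 * A ^ 2 + a * D ^ 4)) : IsCoprime A D := by
  obtain ⟨u, v, h⟩ := hc
  refine ⟨4 * u ^ 2 * (A ^ 2 + a * D ^ 4) + 3 * v * A * (1 + 2 * u * B),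
    4 * u ^ 2 * b * D ^ 5 + v * a * D ^ 3 * (1 + 2 * u * B), ?_⟩
  linear_combination (1 + 2 * u * B) * h - 4 * u ^ 2 * he

/-- numerator and denominator of the abscissa -/
private lemma apJ_bound {a b A B D : ℤ} {Q : (curve a b).Point} (hQ : IsRep a b A B D Q)
    (hc : IsCoprime A D) {h : ℕ} (hH : Hx Q h) : |A| ≤ 2 ^ h ∧ D ^ 2 ≤ 2 ^ h := by
  have hD0 : D ≠ 0 := hQ.1
  have hD2 : 0 < D ^ 2 := by positivity
  have hcop : IsCoprime A (D ^ 2) := hc.pow_right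
  have hcop' : A.natAbs.Coprime (D ^ 2).natAbs := Int.isCoprime_iff_gcd_eq_one.mp hcop
  have e : ptX Q = (A : ℚ) / ((D ^ 2 : ℤ) : ℚ) := by
    rw [hQ.ptX_eq]
    push_cast
    rfl
  obtain ⟨h1, h2⟩ := hH
  rw [e] at h1 h2
  rw [Rat.num_div_eq_of_coprime hD2 hcop'] at h1
  rw [Rat.den_div_eq_of_coprime hD2 hcop'] at h2
  exact ⟨h1, h2⟩

/-- the multiplicities at all the primes -/
private lemma apJ_loc {a b : ℤ} (hΔ : 4 * a ^ 3 + 27 * b ^ 2 ≠ 0)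
    (hmin : ∀ q : ℕ, q.Prime → ¬ ((q : ℤ) ^ 4 ∣ a ∧ (q : ℤ) ^ 6 ∣ b)) {P : (curve a b).Point}
    (htor : ¬ IsOfFinAddOrder P) (l : ℕ) :
    ∃ m : ℕ, (1 ≤ m ∧ m ≤ 2000 * padicValInt l (4 * a ^ 3 + 27 * b ^ 2) + 2000) ∧
      ∀ (_ : Fact l.Prime), ¬ SingAt l (m • P) := by
  by_cases hl : l.Prime
  · haveI : Fact l.Prime := ⟨hl⟩
    have hn : ¬ (l : ℤ) ^ (padicValInt l (4 * a ^ 3 + 27 * b ^ 2) + 1) ∣
        4 * a ^ 3 + 27 * b ^ 2 := by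
      intro hd
      rw [padicValInt_dvd_iff] at hd
      rcases hd with hd | hd
      · exact hΔ hd
      · omega
    by_cases h5 : 5 ≤ l
    · obtain ⟨m, h1, h2, h3⟩ := exists_local h5 (hmin l hl) hn htor
      exact ⟨m, ⟨h1, by omega⟩, fun _ => h3⟩
    · obtain ⟨m, h1, h2, h3⟩ := lo_index (hmin l hl) hn htor
      refine ⟨m, ⟨h1, h2.trans ?_⟩, fun _ => h3⟩
      have h4 : l ≤ 3 := by
        have h6 : l ≠ 4 := by
          rintro rfl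
          exact absurd hl (by norm_num)
        omega
      have h6 : l ^ 6 ≤ 3 ^ 6 := Nat.pow_le_pow_left h4 6
      have h7 : l ^ 6 * (padicValInt l (4 * a ^ 3 + 27 * b ^ 2) + 1) ≤
          3 ^ 6 * (padicValInt l (4 * a ^ 3 + 27 * b ^ 2) + 1) := Nat.mul_le_mul_right _ h6
      omega
  · exact ⟨1, ⟨le_refl 1, by omega⟩, fun h => absurd h.out hl⟩

/-- THE REDUCTION, with a multiplier polynomial in `p`. PROOF. See `exc_of_exA`. `C` of `exists_mult` for `k₁`, `R = 2 p + 1`, `c = 2000`. For `b` with `ExA`: for a prime `l ≥ 5` `m l` of `exists_local` (`n = padicValInt l Δ`, `m l ≤ 4 n + 4`), for `l = 2, 3` of `lo_index`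
(`m l ≤ 2 (3^6 (n + 1) + 1)`); `M`, `M^k₁ ≤ C |Δ|`; `exists_good`, `Hx.mul`: `A / D^2` in lowest terms (`IsCoprime A D` from the coprimality), so `|A| ≤ 2^h`, `D^2 ≤ 2^h`. `Bh (M • P) (M • P) = M^2 Bh P P`
(`IsCanonicalHeight.nsmul`). -/
theorem exc_of_exAU (k₁ : ℕ) : ∃ C : ℕ, 1 ≤ C ∧ ∀ (p : ℕ) [Fact p.Prime], 5 ≤ p → ∀ (a b : ℤ) (l T : ℕ) (v : ℚ_[p]), |a| ≤ 2 ^ l → |b| ≤ 2 ^ l →
    ExA p a T v b → ∃ M' n M : ℕ, M = M' * n ∧ 1 ≤ M' ∧ 1 ≤ n ∧ n ≤ 2 * p + 1 ∧ M' ^ k₁ ≤ C * (4 * a ^ 3 + 27 * b ^ 2).natAbs ∧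
      ∀ T' : ℕ, 2 * M ^ 3 * (T + 2 * l + 4) ≤ T' → ExcV p a T' ((M : ℚ_[p]) ^ 2 * v) b := by
  obtain ⟨C, hC⟩ := exists_mult k₁ 1 2000
  refine ⟨C + 1, by omega, ?_⟩
  intro p hp hp5 a b l T v ha hb hE
  obtain ⟨hgo, hmin, Bh, hBh, P, htor, hPx, hBP⟩ := hE
  have hΔ : 4 * a ^ 3 + 27 * b ^ 2 ≠ 0 := by
    intro h0
    apply hgo.1
    rw [h0]
    exact dvd_zero _
  choose m hm hm' using apJ_loc hΔ hmin htor
  obtain ⟨M', hM', -, hMl, hMk⟩ := hC _ hΔ m (fun l _ => hm l)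
  obtain ⟨n, hn1, hn2, A, B, D, hrep, hcop, hpD⟩ := exists_goodU hp5 hgo.1 htor hM'
    (fun q hq => ⟨m q, (hm q).1, hMl q hq.out, hm' q hq⟩)
  obtain ⟨M, hMe⟩ : ∃ M, M = M' * n := ⟨_, rfl⟩
  rw [← hMe] at hrep
  have hM : 1 ≤ M := by
    rw [hMe]
    exact Nat.mul_pos hM' hn1
  refine ⟨M', n, M, hMe, hM', hn1, hn2, hMk.trans (Nat.mul_le_mul_right _ (Nat.le_succ C)), ?_⟩
  intro T' hT'
  have hAD := apJ_coprime hrep.eqn hcop
  obtain ⟨hA, hD⟩ := apJ_bound hrep hAD (Hx.mul ha hb htor hPx hM)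
  have hpow : (2 : ℤ) ^ (2 * M ^ 3 * (T + 2 * l + 4)) ≤ 2 ^ T' :=
    pow_le_pow_right₀ (by norm_num) hT'
  have hBM : Bh (M • P) (M • P) = (M : ℚ_[p]) ^ 2 * v := by
    rw [hBh.nsmul, hBh.symm, hBh.nsmul, hBP]
    ring
  obtain ⟨hD0, hh, heq⟩ := hrep
  refine ⟨hgo, Bh, hBh, A, B, D, hh, hD0, hpD, hcop, ?_, ?_, ?_⟩
  · have h1 : |D| ≤ D ^ 2 := by
      rw [← sq_abs]
      have h4 : 1 ≤ |D| := Int.one_le_abs hD0
      nlinarith
    exact h1.trans (hD.trans hpow)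
  · refine hA.trans (hpow.trans ?_)
    exact pow_le_pow_left₀ (by norm_num) (by norm_num) T'
  · rw [← heq]
    exact hBM

end Pool.Agent.Lib.MP_3550b5_nt.AC
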