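import Mathlib
import Pool.Agent.Lib.MP_3550b5_nt.AC.CuK

/-!
PROJECT AC, block CONSTANTS: the counts of the block NEAR with constants explicit in `p`.
-/

namespace Pool.Agent.Lib.MP_3550b5_nt.AC

open WeierstrassCurve.Affine

/-- ALL POINTS, for all primes up to `Y`. PROOF. `X` is the union over the primes `5 ≤ p ≤ Y` of the sets of `main_allU`; `∑ p^28 ≤ Y^29`. -/
theorem main_allY (ε : ℝ) (hε : 0 < ε) : ∃ C : ℝ, ∀ a : ℤ, a ≠ 0 → ∀ v : (∀ (p : ℕ) [Fact p.Prime], ℚ_[p]), ∀ B T Y : ℕ, 1 ≤ B → 1 ≤ T →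
    |a| ≤ B → ∀ X : Finset ℤ, (∀ b ∈ X, |b| ≤ B ∧ ∃ (p : ℕ) (_ : Fact p.Prime), 5 ≤ p ∧ p ≤ Y ∧
      ∃ v' : ℚ_[p], ‖v' - v p‖ ≤ (p : ℝ) ^ (-(C * (p : ℝ) ^ 28 * (T : ℝ) ^ 3 * (B : ℝ) ^ ε)) ∧ ExA p a T v' b) →
      (X.card : ℝ) ≤ C * (Y : ℝ) ^ 29 * (T : ℝ) ^ 5 * (B : ℝ) ^ ε := by
  classical
  obtain ⟨C, hC⟩ := main_allU ε hε
  refine ⟨C, fun a ha v B T Y hB hT haB X hX => ?_⟩
  have hC0 : 0 ≤ C := by
    haveI : Fact (Nat.Prime 5) := ⟨by norm_num⟩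
    have h := hC 5 (le_refl 5) a ha 0 B T hB hT haB ∅ (fun b hb => absurd hb (Finset.notMem_empty b))
    rw [Finset.card_empty, Nat.cast_zero] at h
    have h1 : (0 : ℝ) < ((5 : ℕ) : ℝ) ^ 28 * (T : ℝ) ^ 5 * (B : ℝ) ^ ε := by
      have hT' : (0 : ℝ) < T := by exact_mod_cast hT
      have hB' : (0 : ℝ) < B := by exact_mod_cast hB
      have h5 : (0 : ℝ) < ((5 : ℕ) : ℝ) := by norm_num
      positivity
    by_contra hneg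
    have h2 := mul_neg_of_neg_of_pos (not_le.1 hneg) h1
    have h3 : C * (((5 : ℕ) : ℝ) ^ 28 * (T : ℝ) ^ 5 * (B : ℝ) ^ ε) =
        C * ((5 : ℕ) : ℝ) ^ 28 * (T : ℝ) ^ 5 * (B : ℝ) ^ ε := by ring
    rw [h3] at h2
    exact absurd h (not_le.2 h2)
  have hX' : ∀ b : ℤ, ∃ p : ℕ, b ∈ X → p ∈ Finset.Icc 1 Y ∧ ∃ (_ : Fact p.Prime), 5 ≤ p ∧
      ∃ v' : ℚ_[p], ‖v' - v p‖ ≤ (p : ℝ) ^ (-(C * (p : ℝ) ^ 28 * (T : ℝ) ^ 3 * (B : ℝ) ^ ε)) ∧ ExA p a T v' b := by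
    intro b
    by_cases hb : b ∈ X
    · obtain ⟨-, p, hp, h5, hpY, h⟩ := hX b hb
      exact ⟨p, fun _ => ⟨Finset.mem_Icc.2 ⟨by omega, hpY⟩, hp, h5, h⟩⟩
    · exact ⟨0, fun h => absurd h hb⟩
  choose f hf using hX'
  have hfib : ∀ p ∈ Finset.Icc 1 Y, (((X.filter fun b => f b = p).card : ℕ) : ℝ) ≤
      C * (Y : ℝ) ^ 28 * (T : ℝ) ^ 5 * (B : ℝ) ^ ε := by
    intro p hp
    obtain ⟨hp1, hpY⟩ := Finset.mem_Icc.1 hp
    rcases (X.filter fun b => f b = p).eq_empty_or_nonempty with h0 | ⟨b₀, hb₀⟩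
    · rw [h0, Finset.card_empty, Nat.cast_zero]
      positivity
    obtain ⟨hb₀X, hb₀p⟩ := Finset.mem_filter.1 hb₀
    obtain ⟨-, hprime, h5, -⟩ := hf b₀ hb₀X
    rw [hb₀p] at hprime h5
    have h := hC p h5 a ha (v p) B T hB hT haB (X.filter fun b => f b = p) (by
      intro b hb
      obtain ⟨hbX, hbp⟩ := Finset.mem_filter.1 hb
      obtain ⟨-, hq, -, hv⟩ := hf b hbX
      subst hbp
      exact ⟨(hX b hbX).1, hv⟩)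
    refine h.trans ?_
    have hpY' : (p : ℝ) ≤ Y := by exact_mod_cast hpY
    gcongr
  have hcard : (X.card : ℝ) = ∑ p ∈ Finset.Icc 1 Y, (((X.filter fun b => f b = p).card : ℕ) : ℝ) := by
    rw [← Nat.cast_sum]
    exact_mod_cast Finset.card_eq_sum_card_fiberwise fun b hb => (hf b hb).1
  rw [hcard]
  refine (Finset.sum_le_sum hfib).trans (le_of_eq ?_)
  rw [Finset.sum_const, Nat.card_Icc, Nat.add_sub_cancel, nsmul_eq_mul]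
  ring

end Pool.Agent.Lib.MP_3550b5_nt.AC
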